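import Pool.Agent.Lib.MP_0dd0d9_ag.Hi.PF

/-!
TASK gh Abs.  Extension of non-archimedean absolute values.
-/

namespace Pool.Agent.Lib.MP_0dd0d9_ag.Hi

/-- A non-archimedean absolute value from its defining properties. -/
def abs_mk {R : Type} [Semiring R] (f : R → ℝ) (hmul : ∀ x y, f (x * y) = f x * f y)
    (h0 : ∀ x, 0 ≤ f x) (hz : ∀ x, f x = 0 ↔ x = 0) (hna : ∀ x y, f (x + y) ≤ max (f x) (f y)) :
    AbsoluteValue R ℝ where
  toFun := f
  map_mul' := hmul
  nonneg' := h0
  eq_zero' := hz
  add_le' x y := (hna x y).trans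
    (max_le (le_add_of_nonneg_right (h0 y)) (le_add_of_nonneg_left (h0 x)))

theorem abs_frac {A F : Type} [CommRing A] [IsDomain A] [Field F] [Algebra A F]
    [IsFractionRing A F] (av : AbsoluteValue A ℝ) (hna : IsNonarchimedean av) :
    ∃ av' : AbsoluteValue F ℝ, IsNonarchimedean av' ∧ ∀ a, av' (algebraMap A F a) = av a := by
  have hinj := IsFractionRing.injective A F
  have rep : ∀ z : F, ∃ ab : A × A, ab.2 ≠ 0 ∧ z * algebraMap A F ab.2 = algebraMap A F ab.1 :=
    fun z => ⟨((IsLocalization.sec (nonZeroDivisors A) z).1,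
      (IsLocalization.sec (nonZeroDivisors A) z).2),
      nonZeroDivisors.ne_zero (IsLocalization.sec (nonZeroDivisors A) z).2.2,
      IsLocalization.sec_spec (nonZeroDivisors A) z⟩
  choose σ hσ0 hσ using rep
  have key : ∀ (a b : A) (z : F), b ≠ 0 → z * algebraMap A F b = algebraMap A F a →
      av (σ z).1 / av (σ z).2 = av a / av b := by
    intro a b z hb hz
    have e : (σ z).1 * b = a * (σ z).2 := hinj (by
      rw [map_mul, map_mul, ← hz, ← hσ z]; ring)
    rw [div_eq_div_iff (av.ne_zero (hσ0 z)) (av.ne_zero hb), ← map_mul, ← map_mul, e]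
  have hadd : ∀ x y : F, av (σ (x + y)).1 / av (σ (x + y)).2 ≤
      max (av (σ x).1 / av (σ x).2) (av (σ y).1 / av (σ y).2) := by
    intro x y
    have hx := av.pos (hσ0 x)
    have hy := av.pos (hσ0 y)
    rw [key ((σ x).1 * (σ y).2 + (σ y).1 * (σ x).2) ((σ x).2 * (σ y).2) (x + y)
      (mul_ne_zero (hσ0 x) (hσ0 y)) (by
        rw [map_add, map_mul, map_mul, map_mul, ← hσ x, ← hσ y]; ring), map_mul,
      div_le_iff₀ (mul_pos hx hy)]
    refine (hna _ _).trans (max_le ?_ ?_)
    · rw [map_mul]
      refine le_trans (le_of_eq ?_)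
        (mul_le_mul_of_nonneg_right (le_max_left _ _) (mul_pos hx hy).le)
      field_simp
    · rw [map_mul]
      refine le_trans (le_of_eq ?_)
        (mul_le_mul_of_nonneg_right (le_max_right _ _) (mul_pos hx hy).le)
      field_simp
  refine ⟨abs_mk (fun z => av (σ z).1 / av (σ z).2) (fun x y => ?_)
    (fun z => div_nonneg (av.nonneg _) (av.nonneg _)) (fun z => ?_) hadd, hadd, fun a => ?_⟩
  · rw [key ((σ x).1 * (σ y).1) ((σ x).2 * (σ y).2) (x * y) (mul_ne_zero (hσ0 x) (hσ0 y)) (by
      rw [map_mul, map_mul, ← hσ x, ← hσ y]; ring), map_mul, map_mul, div_mul_div_comm]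
  · constructor
    · intro h
      rw [div_eq_zero_iff, av.eq_zero, av.eq_zero, or_iff_left (hσ0 z)] at h
      have h1 := hσ z
      rw [h, map_zero, mul_eq_zero] at h1
      exact h1.resolve_right fun h2 => hσ0 z (hinj (by rw [h2, map_zero]))
    · rintro rfl
      rw [key 0 1 0 one_ne_zero (by simp), map_zero, zero_div]
  · change av (σ _).1 / av (σ _).2 = _
    rw [key a 1 _ one_ne_zero (by simp), map_one, div_one]

theorem abs_complete {L Ω : Type} [NontriviallyNormedField L] [IsUltrametricDist L]
    [CompleteSpace L] [Field Ω] [Algebra L Ω] [Algebra.IsAlgebraic L Ω] :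
    ∃ av' : AbsoluteValue Ω ℝ, IsNonarchimedean av' ∧ ∀ a, av' (algebraMap L Ω a) = ‖a‖ := by
  refine ⟨abs_mk (spectralNorm L Ω) (fun x y => spectralAlgNorm_mul x y) spectralNorm_nonneg
    (fun z => ⟨fun h => eq_zero_of_map_spectralNorm_eq_zero h (Algebra.IsAlgebraic.isAlgebraic z),
      fun h => by rw [h, spectralNorm_zero]⟩) isNonarchimedean_spectralNorm,
    isNonarchimedean_spectralNorm, fun a => spectralNorm_extends a⟩

theorem abs_normed {L Ω : Type} [NormedField L] [Field Ω] [Algebra L Ω] [Algebra.IsAlgebraic L Ω]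
    (hna : ∀ x y : L, ‖x + y‖ ≤ max ‖x‖ ‖y‖) (hnt : ∃ x : L, x ≠ 0 ∧ ‖x‖ ≠ 1) :
    ∃ av' : AbsoluteValue Ω ℝ, IsNonarchimedean av' ∧ ∀ a, av' (algebraMap L Ω a) = ‖a‖ := by
  have hc : ∀ a : L, ‖algebraMap L (UniformSpace.Completion L) a‖ = ‖a‖ := fun a =>
    UniformSpace.Completion.norm_coe a
  haveI : IsUltrametricDist (UniformSpace.Completion L) := by
    refine IsUltrametricDist.isUltrametricDist_of_forall_norm_add_le_max_norm fun x y => ?_
    refine UniformSpace.Completion.induction_on₂ x y (isClosed_le (by fun_prop) (by fun_prop))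
      fun a b => ?_
    rw [← UniformSpace.Completion.coe_add, UniformSpace.Completion.norm_coe,
      UniformSpace.Completion.norm_coe, UniformSpace.Completion.norm_coe]
    exact hna a b
  letI : NontriviallyNormedField (UniformSpace.Completion L) :=
    NontriviallyNormedField.ofNormNeOne (by
      obtain ⟨x, hx0, hx⟩ := hnt
      exact ⟨algebraMap L _ x, (map_ne_zero _).2 hx0, by rw [hc]; exact hx⟩)
  obtain ⟨v, hv, hext⟩ := abs_complete (L := UniformSpace.Completion L)
    (Ω := AlgebraicClosure (UniformSpace.Completion L))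
  let φ : Ω →ₐ[L] AlgebraicClosure (UniformSpace.Completion L) := IsAlgClosed.lift
  refine ⟨v.comp φ.toRingHom.injective, fun x y => ?_, fun a => ?_⟩
  · change v (φ (x + y)) ≤ max (v (φ x)) (v (φ y))
    rw [map_add]
    exact hv _ _
  · change v (φ (algebraMap L Ω a)) = _
    rw [φ.commutes, IsScalarTower.algebraMap_apply L (UniformSpace.Completion L), hext, hc]

/-- One route: if `av` is trivial take the trivial absolute value.  Otherwise complete `L`
(`AbsoluteValue.Completion`), take the spectral norm on the algebraic closure of the completion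
(`spectralMulAlgNorm`, `spectralNorm_extends`, `isNonarchimedean_spectralNorm`) and pull back
along `IsAlgClosed.lift`.  Another route: extend the valuation ring `{av ≤ 1}` to `Ω`; for `z ≠ 0`
algebraic some power `z ^ N` has the valuation of an element `a` of `L`, put
`av' z = av a ^ (1 / N)`. -/
theorem abs_alg {L Ω : Type} [Field L] [Field Ω] [Algebra L Ω] [Algebra.IsAlgebraic L Ω]
    (av : AbsoluteValue L ℝ) (hna : IsNonarchimedean av) :
    ∃ av' : AbsoluteValue Ω ℝ, IsNonarchimedean av' ∧ ∀ a, av' (algebraMap L Ω a) = av a := by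
  classical
  by_cases hnt : ∃ x : L, x ≠ 0 ∧ av x ≠ 1
  · letI : NormedField L := av.toNormedField
    exact abs_normed (L := L) (Ω := Ω) hna hnt
  · have h1 : ∀ z : Ω, (AbsoluteValue.trivial : AbsoluteValue Ω ℝ) z ≤ 1 := fun z => by
      by_cases hz : z = 0
      · rw [hz, map_zero]; exact zero_le_one
      · rw [AbsoluteValue.trivial_apply hz]
    refine ⟨AbsoluteValue.trivial, fun x y => ?_, fun a => ?_⟩
    · by_cases hx : x = 0
      · rw [hx, zero_add]; exact le_max_right _ _
      · rw [AbsoluteValue.trivial_apply hx]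
        exact (h1 _).trans (le_max_left _ _)
    · by_cases ha : a = 0
      · rw [ha, map_zero, map_zero, map_zero]
      · rw [AbsoluteValue.trivial_apply ((map_ne_zero _).2 ha)]
        by_contra hne
        exact hnt ⟨a, ha, fun h => hne h.symm⟩

theorem abs_ext_aux {A B Ω : Type} [CommRing A] [IsDomain A] [CommRing B] [Field Ω] [Algebra B Ω]
    (f : A →+* Ω) (hf : Function.Injective f) (g : A →+* B) (hg : Function.Surjective g)
    (hfg : ∀ a, algebraMap B Ω (g a) = f a) (halg : ∀ z : Ω, IsAlgebraic B z)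
    (av : AbsoluteValue A ℝ) (hna : IsNonarchimedean av) :
    ∃ av' : AbsoluteValue Ω ℝ, IsNonarchimedean av' ∧ ∀ a, av' (f a) = av a := by
  letI : Algebra A Ω := f.toAlgebra
  haveI : FaithfulSMul A Ω := (faithfulSMul_iff_algebraMap_injective A Ω).2 hf
  letI : Algebra (FractionRing A) Ω := FractionRing.liftAlgebra A Ω
  haveI : IsScalarTower A (FractionRing A) Ω := FractionRing.isScalarTower_liftAlgebra A Ω
  have hA : Algebra.IsAlgebraic A Ω := ⟨fun z => by
    obtain ⟨p, hp0, hp⟩ := halg z
    obtain ⟨q, rfl⟩ := Polynomial.map_surjective g hg p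
    refine ⟨q, fun h => hp0 (by rw [h, Polynomial.map_zero]), ?_⟩
    rw [Polynomial.aeval_def, Polynomial.eval₂_map,
      show (algebraMap B Ω).comp g = f from RingHom.ext hfg] at hp
    exact hp⟩
  haveI : Algebra.IsAlgebraic (FractionRing A) Ω := IsFractionRing.comap_isAlgebraic_iff.1 hA
  obtain ⟨v, hv, hve⟩ := abs_frac (F := FractionRing A) av hna
  obtain ⟨w, hw, hwe⟩ := abs_alg (Ω := Ω) v hv
  refine ⟨w, hw, fun a => ?_⟩
  rw [← hve a, ← hwe, ← IsScalarTower.algebraMap_apply]
  rfl

theorem abs_ext {A Ω : Type} [CommRing A] [IsDomain A] [Field Ω] (f : A →+* Ω)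
    (hf : Function.Injective f) (halg : Algebra.IsAlgebraic f.range Ω) (av : AbsoluteValue A ℝ)
    (hna : IsNonarchimedean av) :
    ∃ av' : AbsoluteValue Ω ℝ, IsNonarchimedean av' ∧ ∀ a, av' (f a) = av a := by
  exact abs_ext_aux f hf f.rangeRestrict f.rangeRestrict_surjective (fun _ => rfl)
    halg.isAlgebraic av hna

open Classical in
theorem abs_poly (k : Type) [Field k] :
    ∃ v : AbsoluteValue (Polynomial k) ℝ, IsNonarchimedean v ∧
      ∀ p, p ≠ 0 → v p = Real.exp (-(p.natTrailingDegree : ℝ)) := by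
  have h0 : ∀ p : Polynomial k,
      0 ≤ (if p = 0 then (0 : ℝ) else Real.exp (-(p.natTrailingDegree : ℝ))) := fun p => by
    split_ifs
    · exact le_rfl
    · exact (Real.exp_pos _).le
  have hadd : ∀ p q : Polynomial k,
      (if p + q = 0 then (0 : ℝ) else Real.exp (-((p + q).natTrailingDegree : ℝ))) ≤
        max (if p = 0 then (0 : ℝ) else Real.exp (-(p.natTrailingDegree : ℝ)))
          (if q = 0 then (0 : ℝ) else Real.exp (-(q.natTrailingDegree : ℝ))) := by
    intro p q
    by_cases hp : p = 0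
    · rw [hp, zero_add]; exact le_max_right _ _
    by_cases hq : q = 0
    · rw [hq, add_zero]; exact le_max_left _ _
    by_cases hpq : p + q = 0
    · rw [if_pos hpq]; exact (h0 p).trans (le_max_left _ _)
    rw [if_neg hp, if_neg hq, if_neg hpq]
    have h1 : min p.natTrailingDegree q.natTrailingDegree ≤ (p + q).natTrailingDegree :=
      Polynomial.le_natTrailingDegree hpq fun m hm => by
        rw [Polynomial.coeff_add,
          Polynomial.coeff_eq_zero_of_lt_natTrailingDegree (lt_of_lt_of_le hm (min_le_left _ _)),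
          Polynomial.coeff_eq_zero_of_lt_natTrailingDegree (lt_of_lt_of_le hm (min_le_right _ _)),
          add_zero]
    rcases min_le_iff.1 h1 with h2 | h2
    · exact le_max_of_le_left (Real.exp_le_exp.2 (neg_le_neg (by exact_mod_cast h2)))
    · exact le_max_of_le_right (Real.exp_le_exp.2 (neg_le_neg (by exact_mod_cast h2)))
  refine ⟨abs_mk (fun p => if p = 0 then (0 : ℝ) else Real.exp (-(p.natTrailingDegree : ℝ)))
    (fun p q => ?_) h0 (fun p => ?_) hadd, hadd, fun p hp => if_neg hp⟩
  · by_cases hp : p = 0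
    · simp [hp]
    by_cases hq : q = 0
    · simp [hq]
    rw [if_neg hp, if_neg hq, if_neg (mul_ne_zero hp hq), Polynomial.natTrailingDegree_mul hp hq,
      ← Real.exp_add]
    push_cast
    rw [neg_add]
  · constructor
    · intro h
      by_contra hp
      rw [if_neg hp] at h
      exact (Real.exp_pos _).ne' h
    · intro hp
      exact if_pos hp

/-- On `k[X]` take `exp (- natTrailingDegree p)` for `p ≠ 0`; then `abs_ext`. -/
theorem place_exists {k K : Type} [Field k] [Field K] [Algebra k K] (π : K)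
    (hπ : Transcendental k π) (halg : Algebra.IsAlgebraic (IntermediateField.adjoin k {π}) K) :
    ∃ av : AbsoluteValue K ℝ, IsNonarchimedean av ∧
      (∀ a : k, a ≠ 0 → av (algebraMap k K a) = 1) ∧ av π = Real.exp (-1) := by
  obtain ⟨v, hv, hve⟩ := abs_poly k
  have halg' : ∀ z : K, IsAlgebraic (Polynomial.aeval π : Polynomial k →ₐ[k] K).range z := by
    intro z
    rw [← Algebra.adjoin_singleton_eq_range_aeval]
    exact IntermediateField.isAlgebraic_adjoin_iff.1 (halg.isAlgebraic z)
  obtain ⟨w, hw, hwe⟩ := abs_ext_aux (Polynomial.aeval π : Polynomial k →ₐ[k] K).toRingHom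
    (transcendental_iff_injective.1 hπ)
    (Polynomial.aeval π : Polynomial k →ₐ[k] K).rangeRestrict.toRingHom
    (AlgHom.rangeRestrict_surjective _) (fun _ => rfl) halg' v hv
  refine ⟨w, hw, fun a ha => ?_, ?_⟩
  · have h1 := hwe (Polynomial.C a)
    rw [hve _ (Polynomial.C_ne_zero.2 ha), Polynomial.natTrailingDegree_C] at h1
    simpa using h1
  · have h1 := hwe Polynomial.X
    rw [hve _ Polynomial.X_ne_zero, Polynomial.natTrailingDegree_X] at h1
    simpa using h1

theorem abs_place_of {k K : Type} [Field k] [Field K] [Algebra k K] {t : K}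
    (ht : Transcendental k t) (halg : Algebra.IsAlgebraic (IntermediateField.adjoin k {t}) K)
    {π : K} (h1 : π ∈ IntermediateField.adjoin k {t}) (h2 : t ∈ IntermediateField.adjoin k {π}) :
    ∃ av : AbsoluteValue K ℝ, IsNonarchimedean av ∧
      (∀ a : k, a ≠ 0 → av (algebraMap k K a) = 1) ∧ av π = Real.exp (-1) := by
  have e : IntermediateField.adjoin k {π} = IntermediateField.adjoin k {t} :=
    le_antisymm (IntermediateField.adjoin_simple_le_iff.2 h1)
      (IntermediateField.adjoin_simple_le_iff.2 h2)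
  refine place_exists π (fun hπ => ht ?_) (e ▸ halg)
  haveI := IntermediateField.adjoin.finiteDimensional hπ.isIntegral
  exact IntermediateField.isAlgebraic_iff.1
    (IsAlgebraic.of_finite k (⟨t, h2⟩ : IntermediateField.adjoin k {π}))

/-- `place_exists` for `t - p` and for `t⁻¹`. -/
theorem places_exists {k K : Type} [Field k] [Field K] [Algebra k K] (t : K)
    (ht : Transcendental k t) (halg : Algebra.IsAlgebraic (IntermediateField.adjoin k {t}) K) :
    ∃ av : Option k → AbsoluteValue K ℝ, Places t av := by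
  have hself : ∀ u : K, u ∈ IntermediateField.adjoin k {u} := fun u =>
    IntermediateField.mem_adjoin_simple_self k u
  have hfin : ∀ p : k, ∃ av : AbsoluteValue K ℝ, IsNonarchimedean av ∧
      (∀ a : k, a ≠ 0 → av (algebraMap k K a) = 1) ∧
        av (t - algebraMap k K p) = Real.exp (-1) := fun p =>
    abs_place_of ht halg (sub_mem (hself t) (IntermediateField.algebraMap_mem _ p)) (by
      have := add_mem (hself (t - algebraMap k K p)) (IntermediateField.algebraMap_mem _ p)
      rwa [sub_add_cancel] at this)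
  choose v hv1 hv2 hv3 using hfin
  obtain ⟨w, hw1, hw2, hw3⟩ := abs_place_of ht halg (π := t⁻¹) (inv_mem (hself t)) (by
    have := inv_mem (hself t⁻¹)
    rwa [inv_inv] at this)
  refine ⟨fun p => p.elim w v, ht, ?_, ?_, hv3, ?_⟩
  · rintro (_ | p)
    · exact hw1
    · exact hv1 p
  · rintro (_ | p)
    · exact hw2
    · exact hv2 p
  · rw [map_inv₀, Real.exp_neg, inv_inj] at hw3
    exact hw3

end Pool.Agent.Lib.MP_0dd0d9_ag.Hi
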