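import Pool.Agent.Lib.MP_0dd0d9_ag.Hi.Poly

/-!
TASK gh GD.  Going down, and lifting of solutions over a valuation ring.
-/

namespace Pool.Agent.Lib.MP_0dd0d9_ag.Hi

open MvPolynomial

/-- Going down (`Mathlib/RingTheory/IntegralClosure/GoingDown.lean`,
`Ideal.exists_ideal_le_liesOver_of_le`) gives a prime `Q' ≤ Q` over `ker φ`; then
`IsAlgClosed.lift` for `A ⧸ ker φ → D ⧸ Q'`. -/
theorem gd {A D L : Type} [CommRing A] [IsDomain A] [IsIntegrallyClosed A] [CommRing D]
    [IsDomain D] [Algebra A D] (hinj : Function.Injective (algebraMap A D))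
    [Algebra.IsIntegral A D] [Field L] [IsAlgClosed L] (φ : A →+* L) (Q : Ideal D) [Q.IsPrime]
    (h : RingHom.ker φ ≤ Q.comap (algebraMap A D)) :
    ∃ ψ : D →+* L, ψ.comp (algebraMap A D) = φ ∧ RingHom.ker ψ ≤ Q := by
  have hp : (RingHom.ker φ).IsPrime := RingHom.ker_isPrime φ
  have hfa : FaithfulSMul A D := (faithfulSMul_iff_algebraMap_injective A D).2 hinj
  obtain ⟨P, hPQ, hP, hlo⟩ :=
    Ideal.exists_ideal_le_liesOver_of_le (p := RingHom.ker φ) (q := Q.under A) Q h
  let _ : Algebra (A ⧸ RingHom.ker φ) L := (RingHom.kerLift φ).toAlgebra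
  have hfL : FaithfulSMul (A ⧸ RingHom.ker φ) L :=
    (faithfulSMul_iff_algebraMap_injective _ _).2 (RingHom.kerLift_injective φ)
  have hint : Algebra.IsIntegral (A ⧸ RingHom.ker φ) (D ⧸ P) := inferInstance
  let f : (D ⧸ P) →ₐ[A ⧸ RingHom.ker φ] L := IsAlgClosed.lift
  have hf : Function.Injective f := by
    rw [injective_iff_map_eq_zero]
    intro y hy
    by_contra hne
    have hk : RingHom.ker (f : (D ⧸ P) →+* L) ≠ ⊥ := by
      intro hb
      have : y ∈ RingHom.ker (f : (D ⧸ P) →+* L) := hy
      rw [hb] at this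
      exact hne this
    have hc := Ideal.comap_ne_bot_of_integral_mem (R := A ⧸ RingHom.ker φ) hne
      (I := RingHom.ker (f : (D ⧸ P) →+* L)) hy (Algebra.IsIntegral.isIntegral y)
    apply hc
    rw [eq_bot_iff]
    intro a ha
    have h1 : f (algebraMap _ _ a) = 0 := ha
    rw [AlgHom.commutes] at h1
    exact (injective_iff_map_eq_zero _).1 (RingHom.kerLift_injective φ) a h1
  refine ⟨(f : (D ⧸ P) →+* L).comp (Ideal.Quotient.mk P), ?_, ?_⟩
  · ext a
    have h1 : Ideal.Quotient.mk P (algebraMap A D a) =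
        algebraMap (A ⧸ RingHom.ker φ) (D ⧸ P) (Ideal.Quotient.mk _ a) := rfl
    simp only [RingHom.comp_apply, RingHom.coe_coe]
    rw [h1, AlgHom.commutes]
    exact RingHom.kerLift_mk φ a
  · intro x hx
    have h1 : f (Ideal.Quotient.mk P x) = 0 := hx
    have h2 : Ideal.Quotient.mk P x = 0 := (injective_iff_map_eq_zero _).1 hf _ h1
    exact hPQ (Ideal.Quotient.eq_zero_iff_mem.1 h2)

theorem gd_hom {A D L : Type} [CommRing A] [IsDomain A] [IsIntegrallyClosed A] [CommRing D]
    [IsDomain D] (f : A →+* D) (hinj : Function.Injective f) (hint : f.IsIntegral)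
    [Field L] [IsAlgClosed L] (φ : A →+* L) (Q : Ideal D) [Q.IsPrime]
    (h : RingHom.ker φ ≤ Q.comap f) :
    ∃ ψ : D →+* L, ψ.comp f = φ ∧ RingHom.ker ψ ≤ Q := by
  let _ : Algebra A D := f.toAlgebra
  have : Algebra.IsIntegral A D := ⟨hint⟩
  exact gd hinj φ Q h

/-- Induction on the number of variables; the instance for `R[X]` is in
`Mathlib/RingTheory/Polynomial/IsIntegral.lean`. -/
theorem normal_mv (R σ : Type) [CommRing R] [IsDomain R] [IsIntegrallyClosed R] [Finite σ] :
    IsIntegrallyClosed (MvPolynomial σ R) := by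
  induction σ using Finite.induction_empty_option with
  | of_equiv e ih => exact IsIntegrallyClosed.of_equiv (renameEquiv R e).toRingEquiv (h := ih)
  | h_empty => exact IsIntegrallyClosed.of_equiv (isEmptyRingEquiv R PEmpty).symm
  | h_option ih =>
    exact IsIntegrallyClosed.of_equiv (optionEquivLeft R _).symm.toRingEquiv

/-- `Algebra.IsAlgebraic.isTranscendenceBasis_of_le_trdeg_of_finite` and
`MvPolynomial.trdeg_of_isDomain`. -/
theorem inj_of_int {R ι : Type} [CommRing R] [IsDomain R] [Finite ι] {G : ι → MvPolynomial ι R}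
    (hG : (bind₁ G : MvPolynomial ι R →ₐ[R] MvPolynomial ι R).toRingHom.IsIntegral) :
    Function.Injective (bind₁ G : MvPolynomial ι R →ₐ[R] MvPolynomial ι R) := by
  have halg : Algebra.IsAlgebraic (Algebra.adjoin R (Set.range G)) (MvPolynomial ι R) := by
    have hint : Algebra.IsIntegral (Algebra.adjoin R (Set.range G)) (MvPolynomial ι R) := by
      constructor
      intro p
      obtain ⟨q, hq, hqp⟩ := hG p
      let j : MvPolynomial ι R →+* Algebra.adjoin R (Set.range G) :=
        ((aeval G : MvPolynomial ι R →ₐ[R] MvPolynomial ι R).codRestrict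
          (Algebra.adjoin R (Set.range G)) (fun x => by
            rw [Algebra.adjoin_range_eq_range_aeval]; exact ⟨x, rfl⟩)).toRingHom
      refine ⟨q.map j, hq.map j, ?_⟩
      rw [Polynomial.eval₂_map]
      exact hqp
    exact Algebra.IsIntegral.isAlgebraic
  have hb := Algebra.IsAlgebraic.isTranscendenceBasis_of_le_trdeg_of_finite R G
    (by rw [MvPolynomial.trdeg_of_isDomain, Cardinal.lift_id])
  exact hb.1

/-- Apply `gd` to `bind₁ G : O[Y] → O[X]`, `φ` the evaluation at `Y = 0`, and `Q` the preimage of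
the maximal ideal under the evaluation at `z0`.  The values `ψ (X a)` are integral over `O`, hence
in `O`, and `X a - C (z a)` is in the kernel of `ψ`. -/
theorem lift_sol {Ω ι : Type} [Field Ω] [IsAlgClosed Ω] [Finite ι] (O : ValuationSubring Ω)
    (G : ι → MvPolynomial ι O)
    (hG : (bind₁ G : MvPolynomial ι O →ₐ[O] MvPolynomial ι O).toRingHom.IsIntegral)
    (z0 : ι → O) (h : ∀ a, ap G z0 a ∈ IsLocalRing.maximalIdeal O) :
    ∃ z : ι → O, ap G z = 0 ∧ ∀ a, z a - z0 a ∈ IsLocalRing.maximalIdeal O := by
  classical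
  have hn : IsIntegrallyClosed (MvPolynomial ι O) := normal_mv O ι
  obtain ⟨ψ, hψ, hker⟩ := gd_hom
    (bind₁ G : MvPolynomial ι O →ₐ[O] MvPolynomial ι O).toRingHom (inj_of_int hG) hG
    ((algebraMap O Ω).comp (eval (fun _ : ι => (0 : O))))
    ((IsLocalRing.maximalIdeal O).comap (eval z0)) (by
      intro p hp
      have h0 : eval (fun _ : ι => (0 : O)) p = 0 := by
        have h1 : algebraMap O Ω (eval (fun _ : ι => (0 : O)) p) = 0 := hp
        exact (injective_iff_map_eq_zero _).1 (IsFractionRing.injective O Ω) _ h1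
      rw [Ideal.mem_comap, Ideal.mem_comap, ← Ideal.Quotient.eq_zero_iff_mem]
      have hcomp : ((Ideal.Quotient.mk (IsLocalRing.maximalIdeal O)).comp (eval z0)).comp
          (bind₁ G : MvPolynomial ι O →ₐ[O] MvPolynomial ι O).toRingHom =
          (Ideal.Quotient.mk (IsLocalRing.maximalIdeal O)).comp (eval (fun _ : ι => (0 : O))) := by
        apply MvPolynomial.ringHom_ext
        · intro r
          simp
        · intro a
          have h2 : eval z0 (G a) ∈ IsLocalRing.maximalIdeal O := by
            have := h a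
            simpa [ap, aeval_eq_eval] using this
          simpa using Ideal.Quotient.eq_zero_iff_mem.2 h2
      have h3 := RingHom.congr_fun hcomp p
      simp only [RingHom.comp_apply] at h3
      rw [h3, h0, map_zero])
  have hC : ∀ r : O, ψ (C r) = algebraMap O Ω r := by
    intro r
    have := RingHom.congr_fun hψ (C r)
    simpa using this
  have hX : ∀ a, ψ (G a) = 0 := by
    intro a
    have := RingHom.congr_fun hψ (X a)
    simpa using this
  have hI : ∀ a, IsIntegral O (ψ (X a)) := by
    intro a
    obtain ⟨q, hq, hqp⟩ := hG (X a)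
    refine ⟨q.map (eval (fun _ : ι => (0 : O))), hq.map _, ?_⟩
    rw [Polynomial.eval₂_map, ← hψ, ← Polynomial.hom_eval₂, hqp, map_zero]
  choose z hz using fun a => (IsIntegrallyClosed.isIntegral_iff (R := O) (K := Ω)).1 (hI a)
  have hψe : ψ = (algebraMap O Ω).comp (eval z) := by
    apply MvPolynomial.ringHom_ext
    · intro r
      simp [hC]
    · intro a
      simp [← hz a]
  refine ⟨z, ?_, ?_⟩
  · funext a
    have h1 : algebraMap O Ω (eval z (G a)) = 0 := by
      have := hX a
      rw [hψe] at this
      exact this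
    have h2 := (injective_iff_map_eq_zero _).1 (IsFractionRing.injective O Ω) _ h1
    simpa [ap, aeval_eq_eval] using h2
  · intro a
    have h1 : C (z a) - X a ∈ RingHom.ker ψ := by
      rw [RingHom.mem_ker, map_sub, hC, hz, sub_self]
    have h2 := hker h1
    rw [Ideal.mem_comap] at h2
    simpa using h2

theorem gd_alg_back {k A B : Type} [Field k] [CommRing A] [CommRing B] [Algebra k A]
    [Algebra k B] (f : A →ₐ[k] B) (hf : Function.Injective f) (s : Set A) (w : A)
    (h : IsAlgebraic (Algebra.adjoin k (f '' s)) (f w)) : IsAlgebraic (Algebra.adjoin k s) w := by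
  rw [Algebra.adjoin_image] at h
  let e : Algebra.adjoin k s ≃ₐ[k] (Algebra.adjoin k s).map f :=
    (Algebra.adjoin k s).equivMapOfInjective f hf
  obtain ⟨p, hp0, hp⟩ := h
  refine ⟨p.map (e.symm : (Algebra.adjoin k s).map f →+* Algebra.adjoin k s), ?_, ?_⟩
  · exact (Polynomial.map_ne_zero_iff e.symm.injective).2 hp0
  · apply hf
    rw [map_zero, Polynomial.aeval_def, Polynomial.eval₂_map, ← hp, Polynomial.aeval_def]
    have h1 := Polynomial.hom_eval₂ p ((algebraMap (Algebra.adjoin k s) A).comp
      (e.symm : (Algebra.adjoin k s).map f →+* Algebra.adjoin k s)) (f : A →+* B) w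
    have h2 : (f : A →+* B).comp ((algebraMap (Algebra.adjoin k s) A).comp
        (e.symm : (Algebra.adjoin k s).map f →+* Algebra.adjoin k s)) =
        algebraMap ((Algebra.adjoin k s).map f) B := by
      ext b
      obtain ⟨a, rfl⟩ := e.surjective b
      simp only [RingHom.comp_apply, RingHom.coe_coe, AlgEquiv.symm_apply_apply]
      rfl
    rw [h2] at h1
    exact h1

/-- Counting of transcendence degrees. -/
theorem indep_of_card {k Ω I J : Type} [Field k] [Field Ω] [Algebra k Ω] [Fintype I] [Fintype J]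
    {x : I → Ω} (hx : AlgebraicIndependent k x) {y : J → Ω}
    (hcard : Fintype.card J ≤ Fintype.card I)
    (halg : ∀ i, IsAlgebraic (IntermediateField.adjoin k (Set.range y)) (x i)) :
    AlgebraicIndependent k y := by
  classical
  let E := IntermediateField.adjoin k (Set.range y)
  let Fc : IntermediateField E Ω := algebraicClosure E Ω
  let F : IntermediateField k Ω := Fc.restrictScalars k
  have hxF : ∀ i, x i ∈ F := fun i => mem_algebraicClosure_iff.2 (halg i)
  have hyE : ∀ j, y j ∈ E := fun j => IntermediateField.subset_adjoin k _ ⟨j, rfl⟩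
  have hyF : ∀ j, y j ∈ F := fun j => Fc.algebraMap_mem ⟨y j, hyE j⟩
  let x' : I → F := fun i => ⟨x i, hxF i⟩
  let y' : J → F := fun j => ⟨y j, hyF j⟩
  have hx' : AlgebraicIndependent k x' := AlgebraicIndependent.of_comp F.val hx
  have halgF : Algebra.IsAlgebraic (Algebra.adjoin k (Set.range y')) F := by
    constructor
    intro w
    have h1 : IsAlgebraic E (w : Ω) := mem_algebraicClosure_iff.1 w.2
    have h2 : IsAlgebraic (Algebra.adjoin k (Set.range y)) (w : Ω) :=
      (IntermediateField.isAlgebraic_adjoin_iff (F := k) (s := Set.range y)).1 h1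
    have h3 : F.val '' Set.range y' = Set.range y := by
      rw [← Set.range_comp]; rfl
    exact gd_alg_back F.val F.val.injective (Set.range y') w (by rw [h3]; exact h2)
  have hb := Algebra.IsAlgebraic.isTranscendenceBasis_of_le_trdeg_of_finite k y'
    (le_trans (by simpa using hcard) hx'.cardinalMk_le_trdeg)
  exact hb.1.map' (f := F.val) F.val.injective

end Pool.Agent.Lib.MP_0dd0d9_ag.Hi
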