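import Pool.Agent.Lib.MP_0dd0d9_ag.Hi.Val
import Pool.Agent.Lib.MP_0dd0d9_ag.Hi.GD

/-!
TASK gh Conj2.  Periodic points of `ζ ↦ ζ ^ d + τ 0 + τ 1 * u` have many conjugates.
-/

namespace Pool.Agent.Lib.MP_0dd0d9_ag.Hi

open MvPolynomial

variable {L : Type} [Field L] [Algebra ℂ L]

omit [Algebra ℂ L] in
theorem conj2_poly_val {k : Type} [Field k] [Algebra k L] {O : ValuationSubring L} (hO : CO k O)
    {t : L} (ht : 1 < O.valuation t) (P : Polynomial k) (hP : P ≠ 0) :
    1 ≤ O.valuation (Polynomial.aeval t P) := by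
  induction hn : P.natDegree using Nat.strong_induction_on generalizing P with
  | _ n ih =>
    have hsplit : Polynomial.aeval t P
        = t * Polynomial.aeval t P.divX + algebraMap k L (P.coeff 0) := by
      conv_lhs => rw [← P.X_mul_divX_add]
      rw [map_add, map_mul, Polynomial.aeval_X, Polynomial.aeval_C]
    by_cases hQ : P.divX = 0
    · have h0 : P.coeff 0 ≠ 0 := by
        intro h
        apply hP
        rw [← P.X_mul_divX_add, hQ, h]
        simp
      rw [hsplit, hQ, map_zero, mul_zero, zero_add, hO.val_eq_one h0]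
    · have hpos : P.natDegree ≠ 0 := by
        intro h
        apply hQ
        rw [Polynomial.eq_C_of_natDegree_eq_zero h]
        simp
      have hlt : P.divX.natDegree < n := by
        rw [Polynomial.natDegree_divX_eq_natDegree_tsub_one, ← hn]
        omega
      have h1 := ih _ hlt P.divX hQ rfl
      have h2 : 1 < O.valuation (t * Polynomial.aeval t P.divX) := by
        rw [map_mul]
        exact lt_of_lt_of_le ht (le_mul_of_one_le_right' h1)
      have h3 : O.valuation (algebraMap k L (P.coeff 0)) ≤ 1 :=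
        (O.valuation_le_one_iff _).2 (hO _)
      rw [hsplit, Valuation.map_add_eq_of_lt_left _ (lt_of_le_of_lt h3 h2)]
      exact h2.le

/-- The place `τ 0 = ∞` over the constant field `k = ℂ(τ 1)`: `val_exists_indep` over `k` for the
family `(τ 0)⁻¹` and the point `0`.  A nonzero polynomial in `τ` is a polynomial in `τ 0` with
coefficients in `k`; its leading term dominates. -/
theorem val_infty {τ : Fin 2 → L} (hτ : AlgebraicIndependent ℂ τ) :
    ∃ O : ValuationSubring L, CO ℂ O ∧ τ 1 ∈ O ∧ 1 < O.valuation (τ 0) ∧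
      ∀ g : MvPolynomial (Fin 2) ℂ, g ≠ 0 → 1 ≤ O.valuation (aeval τ g) := by
  set k : IntermediateField ℂ L := IntermediateField.adjoin ℂ (τ '' {1}) with hk
  have h1k : τ 1 ∈ k := IntermediateField.subset_adjoin _ _ ⟨1, rfl, rfl⟩
  have htr : Transcendental k (τ 0) :=
    IntermediateField.transcendental_adjoin_iff.2 (hτ.transcendental_adjoin (by simp))
  have hne : τ 0 ≠ 0 := fun h => htr (h ▸ isAlgebraic_zero)
  have htr' : Transcendental k (τ 0)⁻¹ := fun h => htr (IsAlgebraic.inv_iff.1 h)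
  have hind : AlgebraicIndependent k (fun _ : Unit => (τ 0)⁻¹) :=
    algebraicIndependent_unique_type_iff.2 htr'
  obtain ⟨O, hO, hN⟩ := val_exists_indep hind (fun _ => (0 : k))
  have hlt : O.valuation (τ 0)⁻¹ < 1 := by simpa using hN ()
  have hgt : 1 < O.valuation (τ 0) := by
    rw [map_inv₀] at hlt
    exact (inv_lt_one₀ (zero_lt_iff.2 ((map_ne_zero _).2 hne))).1 hlt
  refine ⟨O, fun a => hO (algebraMap ℂ k a), hO ⟨τ 1, h1k⟩, hgt, fun g hg => ?_⟩
  have hex : ∀ g : MvPolynomial (Fin 2) ℂ, ∃ P : Polynomial k,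
      aeval τ g = Polynomial.aeval (τ 0) P := by
    intro g
    induction g using MvPolynomial.induction_on with
    | C a => exact ⟨Polynomial.C (algebraMap ℂ k a), by simp⟩
    | add p q hp hq =>
      obtain ⟨P, hP⟩ := hp
      obtain ⟨Q, hQ⟩ := hq
      exact ⟨P + Q, by rw [map_add, map_add, hP, hQ]⟩
    | mul_X p i hp =>
      obtain ⟨P, hP⟩ := hp
      fin_cases i
      · exact ⟨P * Polynomial.X, by simp [hP]⟩
      · exact ⟨P * Polynomial.C ⟨τ 1, h1k⟩, by simp [hP]⟩
  obtain ⟨P, hP⟩ := hex g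
  have hP0 : P ≠ 0 := by
    intro h
    rw [h, map_zero] at hP
    exact hg (hτ.eq_zero_of_aeval_eq_zero g hP)
  rw [hP]
  exact conj2_poly_val hO hgt P hP0

omit [Algebra ℂ L] in
theorem conj2_prod_lt {O : ValuationSubring L} (s : Multiset L) (hs : s ≠ 0)
    (h : ∀ x ∈ s, O.valuation x < 1) : O.valuation s.prod < 1 := by
  have hle : ∀ s : Multiset L, (∀ x ∈ s, O.valuation x < 1) → O.valuation s.prod ≤ 1 := by
    intro s
    induction s using Multiset.induction_on with
    | empty => simp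
    | cons a s ih =>
      intro h
      rw [Multiset.prod_cons, map_mul]
      exact mul_le_one' (h a (Multiset.mem_cons_self _ _)).le
        (ih fun x hx => h x (Multiset.mem_cons_of_mem hx))
  induction s using Multiset.induction_on with
  | empty => exact absurd rfl hs
  | cons a s _ =>
    rw [Multiset.prod_cons, map_mul]
    exact lt_of_le_of_lt
      (mul_le_of_le_one_right' (hle s fun x hx => h x (Multiset.mem_cons_of_mem hx)))
      (h a (Multiset.mem_cons_self _ _))

open scoped IntermediateField.algebraAdjoinAdjoin in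
/-- The minimal polynomial has coefficients in `ℂ[τ]` (`minpoly.isIntegrallyClosed_eq_field_fractions`),
its roots are the conjugates, so its constant coefficient has valuation `< 1` and vanishes. -/
theorem small_zero [IsAlgClosed L] {τ : Fin 2 → L} (hτ : IsTranscendenceBasis ℂ τ)
    {O : ValuationSubring L}
    (hO : ∀ g : MvPolynomial (Fin 2) ℂ, g ≠ 0 → 1 ≤ O.valuation (aeval τ g)) {δ : L}
    (hδ : IsIntegral (Algebra.adjoin ℂ (Set.range τ)) δ)
    (h : ∀ σ : L ≃ₐ[IntermediateField.adjoin ℂ (Set.range τ)] L, O.valuation (σ δ) < 1) :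
    δ = 0 := by
  have : IsIntegrallyClosed (MvPolynomial (Fin 2) ℂ) := normal_mv ℂ (Fin 2)
  have : IsIntegrallyClosed (Algebra.adjoin ℂ (Set.range τ)) :=
    IsIntegrallyClosed.of_equiv hτ.1.aevalEquiv.toRingEquiv
  have := hτ.isAlgebraic_field
  have : IsAlgClosure (IntermediateField.adjoin ℂ (Set.range τ)) L := ⟨inferInstance, inferInstance⟩
  have hmin := minpoly.isIntegrallyClosed_eq_field_fractions'
    (IntermediateField.adjoin ℂ (Set.range τ)) hδ
  have halg : IsAlgebraic (IntermediateField.adjoin ℂ (Set.range τ)) δ :=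
    Algebra.IsAlgebraic.isAlgebraic δ
  have hint := halg.isIntegral
  set p := minpoly (IntermediateField.adjoin ℂ (Set.range τ)) δ with hp
  have hmon : (p.map (algebraMap _ L)).Monic := (minpoly.monic hint).map _
  have hspl : (p.map (algebraMap _ L)).Splits := IsAlgClosed.splits _
  have hc := hspl.coeff_zero_eq_prod_roots_of_monic hmon
  have hroot : ∀ x ∈ (p.map (algebraMap _ L)).roots, O.valuation x < 1 := by
    intro x hx
    have h1 : Polynomial.aeval x p = 0 := by
      have h2 := (Polynomial.mem_roots hmon.ne_zero).1 hx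
      rwa [Polynomial.IsRoot.def, Polynomial.eval_map_algebraMap] at h2
    obtain ⟨σ, hσ⟩ := minpoly.exists_algEquiv_of_root' halg h1
    rw [← hσ]
    exact h σ
  have hne : (p.map (algebraMap _ L)).roots ≠ 0 := by
    intro e
    have h1 : δ ∈ (p.map (algebraMap _ L)).roots := by
      rw [Polynomial.mem_roots hmon.ne_zero, Polynomial.IsRoot.def, Polynomial.eval_map_algebraMap]
      exact minpoly.aeval _ δ
    rw [e] at h1
    exact Multiset.notMem_zero _ h1
  have hlt : O.valuation (algebraMap _ L (p.coeff 0)) < 1 := by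
    rw [← Polynomial.coeff_map, hc, map_mul, map_pow, Valuation.map_neg, map_one, one_pow, one_mul]
    exact conj2_prod_lt _ hne hroot
  have hmem : algebraMap _ L (p.coeff 0) ∈ Algebra.adjoin ℂ (Set.range τ) := by
    rw [hmin, Polynomial.coeff_map]
    exact ((minpoly (Algebra.adjoin ℂ (Set.range τ)) δ).coeff 0).2
  rw [Algebra.adjoin_range_eq_range_aeval] at hmem
  obtain ⟨g, hg⟩ := hmem
  have hg0 : g = 0 := by
    by_contra hg0
    have h1 := hO g hg0
    have h2 : aeval τ g = algebraMap _ L (p.coeff 0) := hg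
    rw [h2] at h1
    exact absurd hlt (not_lt.2 h1)
  have h0 : p.coeff 0 = 0 := by
    have h2 : aeval τ g = algebraMap _ L (p.coeff 0) := hg
    rw [hg0, map_zero] at h2
    exact (map_eq_zero _).1 h2.symm
  exact (minpoly.coeff_zero_eq_zero hint).1 h0

omit [Algebra ℂ L] in
theorem conj2_gamma {d : ℕ} {O : ValuationSubring L} {t0 γ : L}
    (h0 : 1 < O.valuation t0) (hγ : γ ^ d = -t0) :
    1 < O.valuation γ ∧ O.valuation γ ^ d = O.valuation t0 := by
  have h1 : O.valuation γ ^ d = O.valuation t0 := by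
    rw [← map_pow, hγ, Valuation.map_neg]
  refine ⟨?_, h1⟩
  by_contra hle
  have h2 : O.valuation γ ^ d ≤ 1 := pow_le_one' (not_lt.1 hle) d
  rw [h1] at h2
  exact absurd h0 (not_lt.2 h2)

theorem conj2_const {O : ValuationSubring L} (hO : CO ℂ O) {t1 : L} (h1 : t1 ∈ O) (c : ℂ) :
    O.valuation (t1 * algebraMap ℂ L c) ≤ 1 :=
  (O.valuation_le_one_iff _).2 (O.mul_mem _ _ h1 (hO c))

theorem conj2_lt_pow {Γ : Type} [LinearOrderedCommGroupWithZero Γ] {x : Γ} (hx : 1 < x) {d : ℕ}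
    (hd : 2 ≤ d) : x < x ^ d := by
  have h := pow_lt_pow_right₀ hx (show 1 < d by omega)
  rwa [pow_one] at h

omit [Field L] [Algebra ℂ L] in
theorem conj2_mod (ζ : ℕ → L) {n : ℕ} (hper : ∀ i, ζ (i + n) = ζ i) (i : ℕ) :
    ζ (i % n) = ζ i := by
  have h : Function.Periodic ζ n := hper
  exact h.map_mod_nat i

/-- The pattern at infinity.  Looking at the largest valuation on the cycle, all `ζ i` have
valuation at most that of `γ`; then `ζ i ^ d - γ ^ d` has valuation less than that of `γ ^ d`,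
and `ζ i ^ d - γ ^ d = ∏ (ζ i - ω γ)`. -/
theorem pattern {d : ℕ} (hd : 2 ≤ d) {O : ValuationSubring L} (hO : CO ℂ O) {t0 t1 γ : L}
    (h1 : t1 ∈ O) (h0 : 1 < O.valuation t0) (hγ : γ ^ d = -t0) (u : ℕ → ℂ) (ζ : ℕ → L) {n : ℕ}
    (hn : 1 ≤ n) (hζ : ∀ i, ζ (i + 1) = ζ i ^ d + t0 + t1 * algebraMap ℂ L (u i))
    (hper : ∀ i, ζ (i + n) = ζ i) (i : ℕ) :
    ∃ ω : ℂ, ω ^ d = 1 ∧ O.valuation (ζ i - algebraMap ℂ L ω * γ) < O.valuation γ := by
  obtain ⟨hg1, hgd⟩ := conj2_gamma h0 hγ
  have hle : ∀ j, O.valuation (ζ j) ≤ O.valuation γ := by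
    obtain ⟨i0, -, hmax⟩ := (Finset.range n).exists_max_image (fun j => O.valuation (ζ j))
      ⟨0, Finset.mem_range.2 (by omega)⟩
    have hmax' : ∀ j, O.valuation (ζ j) ≤ O.valuation (ζ i0) := by
      intro j
      rw [← conj2_mod ζ hper j]
      exact hmax _ (Finset.mem_range.2 (Nat.mod_lt _ (by omega)))
    by_contra hcon
    have hlt : O.valuation γ < O.valuation (ζ i0) := by
      by_contra h
      exact hcon fun j => (hmax' j).trans (not_lt.1 h)
    have h2 : O.valuation t0 < O.valuation (ζ i0 ^ d) := by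
      rw [← hgd, map_pow]
      exact pow_lt_pow_left₀ hlt zero_le (by omega)
    have h3 : O.valuation (ζ i0 ^ d + t0) = O.valuation (ζ i0 ^ d) :=
      Valuation.map_add_eq_of_lt_left _ h2
    have h4 : O.valuation (ζ (i0 + 1)) = O.valuation (ζ i0) ^ d := by
      rw [hζ, Valuation.map_add_eq_of_lt_left, h3, map_pow]
      rw [h3]
      exact lt_of_le_of_lt (conj2_const hO h1 _) (h0.trans h2)
    have h5 := hmax' (i0 + 1)
    rw [h4] at h5
    exact absurd (conj2_lt_pow (hg1.trans hlt) hd) (not_lt.2 h5)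
  have hsmall : O.valuation (ζ i ^ d + t0) < O.valuation γ ^ d := by
    have e : ζ i ^ d + t0 = ζ (i + 1) - t1 * algebraMap ℂ L (u i) := by
      rw [hζ]
      ring
    rw [e]
    refine lt_of_le_of_lt ?_ (conj2_lt_pow hg1 hd)
    exact Valuation.map_sub_le _ (hle _) ((conj2_const hO h1 _).trans hg1.le)
  have hμ := Complex.isPrimitiveRoot_exp d (by omega)
  set μ := Complex.exp (2 * Real.pi * Complex.I / d) with hμdef
  have hμ' : IsPrimitiveRoot (algebraMap ℂ L μ) d := hμ.map_of_injective (algebraMap ℂ L).injective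
  have hprod := congrArg (Polynomial.eval (ζ i)) (X_pow_sub_C_eq_prod hμ' (by omega) hγ)
  simp only [Polynomial.eval_sub, Polynomial.eval_pow, Polynomial.eval_X, Polynomial.eval_C,
    Polynomial.eval_prod, sub_neg_eq_add] at hprod
  by_contra hcon
  push Not at hcon
  have hge : O.valuation γ ^ d ≤ O.valuation (ζ i ^ d + t0) := by
    rw [hprod, map_prod]
    have h6 : ∀ l ∈ Finset.range d,
        O.valuation γ ≤ O.valuation (ζ i - algebraMap ℂ L μ ^ l * γ) := by
      intro l _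
      have h7 := hcon (μ ^ l) (by rw [← pow_mul, mul_comm, pow_mul, hμ.pow_eq_one, one_pow])
      rwa [map_pow] at h7
    have h8 := Finset.pow_card_le_prod _ _ _ h6
    rwa [Finset.card_range] at h8
  exact absurd hsmall (not_lt.2 hge)

theorem conj2_diff {d : ℕ} (hd : 2 ≤ d) {O : ValuationSubring L} (hO : CO ℂ O) {γ a b : L}
    (hγ : γ ≠ 0) {ω : ℂ} (hω : ω ^ d = 1)
    (ha : O.valuation (a - algebraMap ℂ L ω * γ) < O.valuation γ)
    (hb : O.valuation (b - algebraMap ℂ L ω * γ) < O.valuation γ) :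
    O.valuation (a ^ d - b ^ d) = O.valuation (a - b) * O.valuation γ ^ (d - 1) := by
  have hω0 : ω ≠ 0 := by
    rintro rfl
    rw [zero_pow (by omega)] at hω
    exact zero_ne_one hω
  have hv : 0 < O.valuation γ := zero_lt_iff.2 ((map_ne_zero _).2 hγ)
  have hnear : ∀ x : L, O.valuation (x - algebraMap ℂ L ω * γ) < O.valuation γ →
      O.valuation (x / γ - algebraMap ℂ L ω) < 1 := by
    intro x hx
    have e : x / γ - algebraMap ℂ L ω = (x - algebraMap ℂ L ω * γ) / γ := by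
      field_simp
    rw [e, map_div₀]
    exact (div_lt_one₀ hv).2 hx
  have hN : Near O ![a / γ, b / γ] ![ω, ω] := by
    intro i
    fin_cases i
    · exact hnear a ha
    · exact hnear b hb
  have hu := Near.unit hO hN
    (g := ∑ l ∈ Finset.range d, X (0 : Fin 2) ^ l * X 1 ^ (d - 1 - l)) (by
      have e : ∀ l ∈ Finset.range d, ω ^ l * ω ^ (d - 1 - l) = ω ^ (d - 1) := by
        intro l hl
        rw [← pow_add]
        congr 1
        have := Finset.mem_range.1 hl
        omega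
      simp only [map_sum, map_mul, map_pow, eval_X, Matrix.cons_val_zero, Matrix.cons_val_one]
      rw [Finset.sum_congr rfl e, Finset.sum_const, Finset.card_range, nsmul_eq_mul]
      exact mul_ne_zero (Nat.cast_ne_zero.2 (by omega)) (pow_ne_zero _ hω0))
  simp only [map_sum, map_mul, map_pow, aeval_X, Matrix.cons_val_zero, Matrix.cons_val_one] at hu
  have e1 := geom_sum₂_mul (a / γ) (b / γ) d
  obtain ⟨e, rfl⟩ : ∃ e, d = e + 1 := ⟨d - 1, by omega⟩
  have e2 : a ^ (e + 1) - b ^ (e + 1) = (∑ l ∈ Finset.range (e + 1),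
      (a / γ) ^ l * (b / γ) ^ (e + 1 - 1 - l)) * ((a - b) * γ ^ e) := by
    have e3 : (a - b) * γ ^ e = (a / γ - b / γ) * γ ^ (e + 1) := by
      field_simp
      ring
    rw [e3, ← mul_assoc, e1, div_pow, div_pow]
    field_simp
  rw [e2, map_mul, hu, one_mul, map_mul, map_pow, Nat.add_sub_cancel]

theorem conj2_step {d : ℕ} (hd : 2 ≤ d) {O : ValuationSubring L} (hO : CO ℂ O) {γ t : L}
    (hγ : 1 < O.valuation γ) (ht : t ∈ O) (a b : ℕ → L) (c : ℕ → ℂ)
    (hab : ∀ k, a (k + 1) - b (k + 1) = a k ^ d - b k ^ d + t * algebraMap ℂ L (c k))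
    (hpat : ∀ k < 3, ∃ ω : ℂ, ω ^ d = 1 ∧
      O.valuation (a k - algebraMap ℂ L ω * γ) < O.valuation γ ∧
      O.valuation (b k - algebraMap ℂ L ω * γ) < O.valuation γ) :
    O.valuation (a 0 - b 0) < 1 ∧ O.valuation (a 1 - b 1) < 1 := by
  have hγ0 : γ ≠ 0 := by
    rintro rfl
    simp at hγ
  have hpow : O.valuation γ ≤ O.valuation γ ^ (d - 1) := le_self_pow₀ hγ.le (by omega)
  have hsub : ∀ k, a k ^ d - b k ^ d = a (k + 1) - b (k + 1) - t * algebraMap ℂ L (c k) := by
    intro k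
    rw [hab]
    ring
  have hcancel : ∀ x : O.ValueGroup, x * O.valuation γ ^ (d - 1) < O.valuation γ → x < 1 := by
    intro x hx
    by_contra hx1
    exact absurd hx (not_lt.2 (hpow.trans (le_mul_of_one_le_left' (not_lt.1 hx1))))
  obtain ⟨ω0, hω0, ha0, hb0⟩ := hpat 0 (by norm_num)
  obtain ⟨ω1, hω1, ha1, hb1⟩ := hpat 1 (by norm_num)
  obtain ⟨ω2, -, ha2, hb2⟩ := hpat 2 (by norm_num)
  have h2 : O.valuation (a 2 - b 2) < O.valuation γ := by
    have e : a 2 - b 2 = (a 2 - algebraMap ℂ L ω2 * γ) - (b 2 - algebraMap ℂ L ω2 * γ) := by ring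
    rw [e]
    exact Valuation.map_sub_lt _ ha2 hb2
  have h1 : O.valuation (a 1 - b 1) < 1 := by
    apply hcancel
    rw [← conj2_diff hd hO hγ0 hω1 ha1 hb1, hsub]
    exact Valuation.map_sub_lt _ h2 (lt_of_le_of_lt (conj2_const hO ht _) hγ)
  refine ⟨?_, h1⟩
  apply hcancel
  rw [← conj2_diff hd hO hγ0 hω0 ha0 hb0, hsub]
  exact Valuation.map_sub_lt _ (h1.trans hγ) (lt_of_le_of_lt (conj2_const hO ht _) hγ)

theorem conj2_integral {d : ℕ} (hd : 2 ≤ d) (A : Subalgebra ℂ L) {t0 t1 : L} (h0 : t0 ∈ A)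
    (h1 : t1 ∈ A) (u : ℕ → ℂ) (ζ : ℕ → L) {n : ℕ} (hn : 1 ≤ n)
    (hζ : ∀ i, ζ (i + 1) = ζ i ^ d + t0 + t1 * algebraMap ℂ L (u i))
    (hper : ∀ i, ζ (i + n) = ζ i) (i : ℕ) : IsIntegral A (ζ i) := by
  have hQ : ∀ m : ℕ, ∃ Q : Polynomial A, Q.Monic ∧ Q.natDegree = d ^ m ∧
      Polynomial.aeval (ζ i) Q = ζ (i + m) := by
    intro m
    induction m with
    | zero => exact ⟨Polynomial.X, Polynomial.monic_X, by simp, by simp⟩
    | succ m ih =>
      obtain ⟨Q, hm, hdeg, hev⟩ := ih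
      have hc : t0 + t1 * algebraMap ℂ L (u (i + m)) ∈ A :=
        A.add_mem h0 (A.mul_mem h1 (A.algebraMap_mem _))
      have hdeg' : (Q ^ d).natDegree = d ^ (m + 1) := by
        rw [hm.natDegree_pow, hdeg, pow_succ']
      refine ⟨Q ^ d + Polynomial.C ⟨_, hc⟩, ?_, ?_, ?_⟩
      · refine (hm.pow d).add_of_left (lt_of_le_of_lt Polynomial.degree_C_le ?_)
        rw [← Polynomial.natDegree_pos_iff_degree_pos, hdeg']
        positivity
      · rw [Polynomial.natDegree_add_C, hdeg']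
      · rw [map_add, map_pow, hev, Polynomial.aeval_C, ← add_assoc, hζ, add_assoc]
        rfl
  obtain ⟨Q, hm, hdeg, hev⟩ := hQ n
  refine ⟨Q - Polynomial.X, hm.sub_of_left ?_, ?_⟩
  · rw [Polynomial.degree_X, Polynomial.degree_eq_natDegree hm.ne_zero, hdeg]
    exact_mod_cast Nat.one_lt_pow (by omega) (by omega)
  · rw [← Polynomial.aeval_def, map_sub, hev, hper, Polynomial.aeval_X, sub_self]

/-- The sequence with a given initial value. -/
noncomputable def conj2_seq (d : ℕ) (t0 t1 : L) (u : ℕ → ℂ) (w : L) : ℕ → L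
  | 0 => w
  | i + 1 => conj2_seq d t0 t1 u w i ^ d + t0 + t1 * algebraMap ℂ L (u i)

/-- Suppose `W.card ≤ T`.  An automorphism `σ` maps the sequence `ζ` to the sequence with the same
recursion and initial value `σ (ζ 0) ∈ W`.  To `i` attach the patterns of these sequences at
`i, i + 1, i + 2`: at most `d ^ (3 T)` possibilities, so there are `i`, `j` with `u i ≠ u j` and the
same patterns.  With `δ k = σ (ζ (i + k) - ζ (j + k))` one has
`δ (k + 1) = δ k * s k + τ 1 * (u (i + k) - u (j + k))` where `s k` has the valuation of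
`γ ^ (d - 1)`.  From `v (δ 2) < v γ` get `v (δ 1) < 1`, then `v (δ 0) < 1`.  By `small_zero`
(the `ζ i` are integral over `ℂ[τ]`) `δ 0 = δ 1 = 0`, so `u i = u j`. -/
theorem many_conj [IsAlgClosed L] {d : ℕ} (hd : 2 ≤ d) {τ : Fin 2 → L}
    (hτ : IsTranscendenceBasis ℂ τ) (u : ℕ → ℂ) (ζ : ℕ → L) {n : ℕ} (hn : 1 ≤ n)
    (hζ : ∀ i, ζ (i + 1) = ζ i ^ d + τ 0 + τ 1 * algebraMap ℂ L (u i))
    (hper : ∀ i, ζ (i + n) = ζ i) {T : ℕ}
    (hu : ∀ W : Finset ℂ, (∀ i, u i ∈ W) → d ^ (3 * T) < W.card) (W : Finset L)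
    (hW : ∀ σ : L ≃ₐ[IntermediateField.adjoin ℂ (Set.range τ)] L, σ (ζ 0) ∈ W) : T < W.card := by
  classical
  obtain ⟨O, hO, h1, h0, hg⟩ := val_infty hτ.1
  obtain ⟨γ, hγ⟩ := IsAlgClosed.exists_pow_nat_eq (-τ 0) (show 0 < d by omega)
  obtain ⟨hg1, -⟩ := conj2_gamma h0 hγ
  have hfix : ∀ (σ : L ≃ₐ[IntermediateField.adjoin ℂ (Set.range τ)] L) (x : L),
      x ∈ IntermediateField.adjoin ℂ (Set.range τ) → σ x = x := fun σ x hx => σ.commutes ⟨x, hx⟩
  have hτm : ∀ j, τ j ∈ IntermediateField.adjoin ℂ (Set.range τ) := fun j =>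
    IntermediateField.subset_adjoin _ _ ⟨j, rfl⟩
  have hrec : ∀ (σ : L ≃ₐ[IntermediateField.adjoin ℂ (Set.range τ)] L) (i : ℕ),
      σ (ζ (i + 1)) = σ (ζ i) ^ d + τ 0 + τ 1 * algebraMap ℂ L (u i) := by
    intro σ i
    rw [hζ, map_add, map_add, map_mul, map_pow, hfix σ _ (hτm 0), hfix σ _ (hτm 1),
      hfix σ _ (IntermediateField.algebraMap_mem _ _)]
  have hseq : ∀ (σ : L ≃ₐ[IntermediateField.adjoin ℂ (Set.range τ)] L) (i : ℕ),
      conj2_seq d (τ 0) (τ 1) u (σ (ζ 0)) i = σ (ζ i) := by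
    intro σ i
    induction i with
    | zero => rfl
    | succ i ih => rw [conj2_seq, ih, hrec]
  have hμ := Complex.isPrimitiveRoot_exp d (by omega)
  have hcardR : (Polynomial.nthRootsFinset d (1 : ℂ)).card = d := hμ.card_nthRootsFinset
  have hmemR : ∀ ω : ℂ, ω ∈ Polynomial.nthRootsFinset d (1 : ℂ) ↔ ω ^ d = 1 := fun ω =>
    Polynomial.mem_nthRootsFinset (by omega) 1
  have hchoice : ∀ x : L, ∃ ω : Polynomial.nthRootsFinset d (1 : ℂ),
      (∃ ω' : ℂ, ω' ^ d = 1 ∧ O.valuation (x - algebraMap ℂ L ω' * γ) < O.valuation γ) →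
        O.valuation (x - algebraMap ℂ L ω * γ) < O.valuation γ := by
    intro x
    by_cases hx : ∃ ω' : ℂ, ω' ^ d = 1 ∧ O.valuation (x - algebraMap ℂ L ω' * γ) < O.valuation γ
    · obtain ⟨ω, hω, hx⟩ := hx
      exact ⟨⟨ω, (hmemR ω).2 hω⟩, fun _ => hx⟩
    · exact ⟨⟨1, (hmemR 1).2 (one_pow d)⟩, fun h => absurd h hx⟩
  choose pt hpt using hchoice
  have hpat : ∀ (σ : L ≃ₐ[IntermediateField.adjoin ℂ (Set.range τ)] L) (i : ℕ),
      O.valuation (σ (ζ i) - algebraMap ℂ L (pt (σ (ζ i))) * γ) < O.valuation γ := by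
    intro σ i
    exact hpt _ (pattern hd hO h1 h0 hγ u (fun j => σ (ζ j)) hn (hrec σ)
      (fun j => by rw [hper]) i)
  have hint : ∀ i, IsIntegral (Algebra.adjoin ℂ (Set.range τ)) (ζ i) :=
    conj2_integral hd _ (Algebra.subset_adjoin (Set.mem_range_self 0))
      (Algebra.subset_adjoin (Set.mem_range_self 1)) u ζ hn hζ hper
  let P : ℕ → (W × Fin 3 → Polynomial.nthRootsFinset d (1 : ℂ)) := fun i x =>
    pt (conj2_seq d (τ 0) (τ 1) u x.1 (i + x.2))
  have hkey : ∀ i j, P i = P j → u i = u j := by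
    intro i j hij
    have hdiff : ∀ σ : L ≃ₐ[IntermediateField.adjoin ℂ (Set.range τ)] L,
        O.valuation (σ (ζ (i + 0)) - σ (ζ (j + 0))) < 1 ∧
          O.valuation (σ (ζ (i + 1)) - σ (ζ (j + 1))) < 1 := by
      intro σ
      refine conj2_step hd hO hg1 h1 (fun k => σ (ζ (i + k))) (fun k => σ (ζ (j + k)))
        (fun k => u (i + k) - u (j + k)) ?_ ?_
      · intro k
        show σ (ζ (i + k + 1)) - σ (ζ (j + k + 1)) = _
        rw [hrec, hrec, map_sub]
        ring
      · intro k hk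
        have e : pt (σ (ζ (i + k))) = pt (σ (ζ (j + k))) := by
          have e1 := congrFun hij (⟨σ (ζ 0), hW σ⟩, ⟨k, hk⟩)
          simp only [P, hseq] at e1
          exact e1
        refine ⟨pt (σ (ζ (i + k))), (hmemR _).1 (pt _).2, hpat σ _, ?_⟩
        rw [e]
        exact hpat σ _
    have z0 : ζ i - ζ j = 0 := small_zero hτ hg ((hint i).sub (hint j)) fun σ => by
      rw [map_sub]
      exact (hdiff σ).1
    have z1 : ζ (i + 1) - ζ (j + 1) = 0 :=
      small_zero hτ hg ((hint (i + 1)).sub (hint (j + 1))) fun σ => by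
        rw [map_sub]
        exact (hdiff σ).2
    have hτ1 : τ 1 ≠ 0 := hτ.1.ne_zero 1
    have z2 : τ 1 * algebraMap ℂ L (u i - u j) = 0 := by
      rw [hζ, hζ, sub_eq_zero.1 z0] at z1
      rw [map_sub, ← z1]
      ring
    have z3 := (mul_eq_zero.1 z2).resolve_left hτ1
    exact sub_eq_zero.1 ((map_eq_zero _).1 z3)
  let f : (W × Fin 3 → Polynomial.nthRootsFinset d (1 : ℂ)) → ℂ := fun p =>
    if h : ∃ i, P i = p then u h.choose else 0
  have hf : ∀ i, f (P i) = u i := by
    intro i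
    have h : ∃ j, P j = P i := ⟨i, rfl⟩
    simp only [f, dif_pos h]
    exact hkey _ _ h.choose_spec
  have h2 := hu (Finset.univ.image f) fun i => Finset.mem_image.2 ⟨P i, Finset.mem_univ _, hf i⟩
  have h3 : (Finset.univ.image f).card ≤ d ^ (W.card * 3) := by
    refine Finset.card_image_le.trans (le_of_eq ?_)
    rw [Finset.card_univ, Fintype.card_fun, Fintype.card_prod, Fintype.card_coe, Fintype.card_coe,
      Fintype.card_fin, hcardR]
  have h4 : 3 * T < W.card * 3 :=
    (Nat.pow_lt_pow_iff_right (show 1 < d by omega)).1 (lt_of_lt_of_le h2 h3)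
  omega

end Pool.Agent.Lib.MP_0dd0d9_ag.Hi
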