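import Pool.Agent.Lib.MP_0dd0d9_ag.Hi.Der

/-!
TASK gh Mono.  A bound `|D a| ≤ κ |a|` extends to algebraic elements (residue characteristic 0).
-/

namespace Pool.Agent.Lib.MP_0dd0d9_ag.Hi

open Polynomial

variable {R Ω : Type} [CommRing R] [Field Ω] [Algebra R Ω] {av : AbsoluteValue Ω ℝ}

theorem mono_sub_le (hna : IsNonarchimedean av) (a b : Ω) : av (a - b) ≤ max (av a) (av b) := by
  have h := hna a (-b)
  rwa [← sub_eq_add_neg, AbsoluteValue.map_neg] at h

theorem mono_sub_eq (hna : IsNonarchimedean av) {a b : Ω} (h : av a < av b) :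
    av (a - b) = av b := by
  refine le_antisymm ((mono_sub_le hna a b).trans (max_le h.le le_rfl)) ?_
  have h1 := mono_sub_le hna a (a - b)
  rw [sub_sub_cancel] at h1
  rcases le_max_iff.1 h1 with h2 | h2
  · exact absurd h2 (not_le.2 h)
  · exact h2

theorem mono_coeff_zero (a : Ω) (P : Polynomial Ω) : ((X - C a) * P).coeff 0 = -(a * P.coeff 0) := by
  simp

/-- The coefficients of `∏ (X - w i)` satisfy `|coeff k| * ρ ^ k ≤ ∏ max ρ |w i|`. -/
theorem mono_coeff (hna : IsNonarchimedean av) (w : Multiset Ω) {ρ : ℝ} (hρ : 0 ≤ ρ) (k : ℕ) :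
    av ((w.map fun a => X - C a).prod.coeff k) * ρ ^ k ≤ (w.map fun a => max ρ (av a)).prod := by
  induction w using Multiset.induction_on generalizing k with
  | empty =>
    rcases k with _ | k
    · simp
    · simp [coeff_one]
  | cons a w ih =>
    rw [Multiset.map_cons, Multiset.prod_cons, Multiset.map_cons, Multiset.prod_cons]
    have hP : 0 ≤ (w.map fun a => max ρ (av a)).prod :=
      Multiset.prod_map_nonneg fun b _ => le_max_of_le_left hρ
    have h1 : ∀ j, av (a * ((w.map fun a => X - C a).prod.coeff j)) * ρ ^ j ≤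
        max ρ (av a) * (w.map fun a => max ρ (av a)).prod := by
      intro j
      rw [map_mul, mul_assoc]
      exact mul_le_mul (le_max_right _ _) (ih j) (mul_nonneg (av.nonneg _) (pow_nonneg hρ j))
        (le_max_of_le_left hρ)
    rcases k with _ | k
    · rw [mono_coeff_zero, AbsoluteValue.map_neg]
      exact h1 0
    · rw [coeff_X_sub_C_mul]
      refine (mul_le_mul_of_nonneg_right (mono_sub_le hna _ _) (pow_nonneg hρ _)).trans ?_
      rw [max_mul_of_nonneg _ _ (pow_nonneg hρ _)]
      refine max_le ?_ (h1 (k + 1))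
      rw [pow_succ, ← mul_assoc, mul_comm]
      exact mul_le_mul (le_max_left _ _) (ih k) (mul_nonneg (av.nonneg _) (pow_nonneg hρ k))
        (le_max_of_le_left hρ)

/-- One step.  Let `p = (X - y) * ∏ (X - w i)` have coefficients `a` with `|D a| ≤ κ |a|`.
From `der_eval`, `|p'(y)| |D y| ≤ κ * |y| * ∏ max |y| |w i|`. -/
theorem mono_step (hna : IsNonarchimedean av) (D : Derivation R Ω Ω) {κ : ℝ} (hκ : 0 ≤ κ) (y : Ω)
    (w : Multiset Ω)
    (h : ∀ k, av (D (((X - C y) * (w.map fun a => X - C a).prod).coeff k)) ≤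
      κ * av (((X - C y) * (w.map fun a => X - C a).prod).coeff k)) :
    (w.map fun a => av (y - a)).prod * av (D y) ≤
      κ * av y * (w.map fun a => max (av y) (av a)).prod := by
  have key := der_eval D ((X - C y) * (w.map fun a => X - C a).prod) y
  have e0 : ((X - C y) * (w.map fun a => X - C a).prod).eval y = 0 := by simp
  have e1 : (derivative ((X - C y) * (w.map fun a => X - C a).prod)).eval y =
      (w.map fun a => y - a).prod := by
    simp [derivative_mul, eval_multiset_prod, Multiset.map_map]
  rw [e0, map_zero, e1] at key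
  have e2 : (w.map fun a => av (y - a)).prod * av (D y) =
      av ((pco D ((X - C y) * (w.map fun a => X - C a).prod)).eval y) := by
    rw [eq_neg_of_add_eq_zero_left key.symm, AbsoluteValue.map_neg, map_mul, map_multiset_prod,
      Multiset.map_map]
    rfl
  rw [e2]
  have hP : 0 ≤ (w.map fun a => max (av y) (av a)).prod :=
    Multiset.prod_map_nonneg fun b _ => le_max_of_le_left (av.nonneg y)
  unfold pco
  rw [eval_finsetSum]
  refine ht_sum_le hna _ _ (mul_nonneg (mul_nonneg hκ (av.nonneg y)) hP) fun i _ => ?_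
  rw [eval_monomial, map_mul, map_pow]
  have h1 := mono_coeff hna (y ::ₘ w) (av.nonneg y) i
  rw [Multiset.map_cons, Multiset.prod_cons, Multiset.map_cons, Multiset.prod_cons, max_self] at h1
  refine (mul_le_mul_of_nonneg_right (h i) (pow_nonneg (av.nonneg y) i)).trans ?_
  rw [mul_assoc, mul_assoc]
  exact mul_le_mul_of_nonneg_left h1 hκ

theorem mono_prod_pos {r : ℝ} (hr : 0 < r) (v : Multiset Ω) (hvr : ∀ a ∈ v, r < av a) :
    0 < (v.map fun a => av a).prod := by
  refine Multiset.prod_pos fun x hx => ?_
  obtain ⟨a, ha, rfl⟩ := Multiset.mem_map.1 hx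
  exact hr.trans (hvr a ha)

theorem mono_low (hna : IsNonarchimedean av) (u v : Multiset Ω) {μ : ℕ} (hu : u.card = μ + 1)
    {r : ℝ} (hr : 0 < r) (hur : ∀ a ∈ u, av a ≤ r) (hvr : ∀ a ∈ v, r < av a) :
    av (((u + v).map fun a => X - C a).prod.coeff μ) ≤ r * (v.map fun a => av a).prod := by
  have h := mono_coeff hna (u + v) hr.le μ
  have e1 : (u.map fun a => max r (av a)) = u.map fun _ => r :=
    Multiset.map_congr rfl fun a ha => max_eq_left (hur a ha)
  have e2 : (v.map fun a => max r (av a)) = v.map fun a => av a :=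
    Multiset.map_congr rfl fun a ha => max_eq_right (hvr a ha).le
  rw [Multiset.map_add (fun a => max r (av a)), Multiset.prod_add, e1, e2, Multiset.map_const',
    Multiset.prod_replicate, hu] at h
  refine le_of_mul_le_mul_right (h.trans (le_of_eq ?_)) (pow_pos hr μ)
  ring

theorem mono_top (hna : IsNonarchimedean av) (u v : Multiset Ω) {μ : ℕ} (hu : u.card = μ + 1)
    {r : ℝ} (hr : 0 < r) (hur : ∀ a ∈ u, av a ≤ r) (hvr : ∀ a ∈ v, r < av a) :
    av (((u + v).map fun a => X - C a).prod.coeff (μ + 1)) = (v.map fun a => av a).prod := by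
  induction v using Multiset.induction_on with
  | empty =>
    rw [add_zero, ← hu, ← natDegree_multiset_prod_X_sub_C_eq_card u,
      (monic_multisetProd_X_sub_C u).coeff_natDegree]
    simp
  | cons a v ih =>
    have hv : ∀ b ∈ v, r < av b := fun b hb => hvr b (Multiset.mem_cons_of_mem hb)
    have ha : r < av a := hvr a (Multiset.mem_cons_self _ _)
    have h1 := mono_low hna u v hu hr hur hv
    have h2 := ih hv
    have hN := mono_prod_pos hr v hv
    rw [Multiset.add_cons, Multiset.map_cons, Multiset.prod_cons, Multiset.map_cons,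
      Multiset.prod_cons, coeff_X_sub_C_mul, mono_sub_eq hna, map_mul, h2]
    rw [map_mul, h2]
    exact h1.trans_lt (mul_lt_mul_of_pos_right ha hN)

theorem mono_strict (hna : IsNonarchimedean av) {r : ℝ} (hr : 0 < r) (w : Multiset Ω)
    (hw : ∀ a ∈ w, r < av a) :
    av ((w.map fun a => X - C a).prod.coeff 0) = (w.map fun a => av a).prod ∧
      av ((w.map fun a => X - C a).prod.coeff 1) * r < (w.map fun a => av a).prod := by
  induction w using Multiset.induction_on with
  | empty => simp [coeff_one]
  | cons a w ih =>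
    have hv : ∀ b ∈ w, r < av b := fun b hb => hw b (Multiset.mem_cons_of_mem hb)
    have ha : r < av a := hw a (Multiset.mem_cons_self _ _)
    have hN := mono_prod_pos hr w hv
    obtain ⟨h1, h2⟩ := ih hv
    rw [Multiset.map_cons, Multiset.prod_cons, Multiset.map_cons, Multiset.prod_cons]
    constructor
    · rw [mono_coeff_zero, AbsoluteValue.map_neg, map_mul, h1]
    · rw [show (1 : ℕ) = 0 + 1 from rfl, coeff_X_sub_C_mul]
      refine (mul_le_mul_of_nonneg_right (mono_sub_le hna _ _) hr.le).trans_lt ?_
      rw [max_mul_of_nonneg _ _ hr.le]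
      refine max_lt ?_ ?_
      · rw [h1, mul_comm]
        exact mul_lt_mul_of_pos_right ha hN
      · rw [map_mul, mul_assoc]
        exact mul_lt_mul_of_pos_left h2 (hr.trans ha)

/-- Let `p = ∏ (X - u i) * ∏ (X - v j)` with `|u i| ≤ r < |v j|` and `μ + 1` factors of the first
kind.  The coefficients `b` of `p` satisfy `|b (μ + 1)| = ∏ |v j|` and `|b μ| ≤ r ∏ |v j|`.  If all
roots of the `μ`-th derivative `q` had absolute value `> r` then `|q 1| r < |q 0|`, while
`q 0 = μ! b μ` and `q 1 = (μ + 1)! b (μ + 1)`. -/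
theorem mono_root [IsAlgClosed Ω] (hna : IsNonarchimedean av)
    (hnat : ∀ n : ℕ, n ≠ 0 → av (n : Ω) = 1) (u v : Multiset Ω) {μ : ℕ} (hu : u.card = μ + 1)
    {r : ℝ} (hr : 0 < r) (hur : ∀ a ∈ u, av a ≤ r) (hvr : ∀ a ∈ v, r < av a) :
    ∃ c : Ω, av c ≤ r ∧ (derivative^[μ] ((u + v).map fun a => X - C a).prod).eval c = 0 := by
  by_contra hno
  have hbig : ∀ c : Ω, (derivative^[μ] ((u + v).map fun a => X - C a).prod).eval c = 0 →
      r < av c := fun c hc => not_le.1 fun hle => hno ⟨c, hle, hc⟩
  obtain ⟨q, hq⟩ : ∃ q, q = derivative^[μ] ((u + v).map fun a => X - C a).prod := ⟨_, rfl⟩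
  have hN : 0 < (v.map fun a => av a).prod := mono_prod_pos hr v hvr
  have q0 : av (q.coeff 0) ≤ r * (v.map fun a => av a).prod := by
    rw [hq, coeff_iterate_derivative, nsmul_eq_mul, map_mul,
      hnat _ (Nat.descFactorial_pos.2 (by omega)).ne', one_mul, zero_add]
    exact mono_low hna u v hu hr hur hvr
  have q1 : av (q.coeff 1) = (v.map fun a => av a).prod := by
    rw [hq, coeff_iterate_derivative, nsmul_eq_mul, map_mul,
      hnat _ (Nat.descFactorial_pos.2 (by omega)).ne', one_mul, add_comm 1 μ]
    exact mono_top hna u v hu hr hur hvr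
  have hq0 : q ≠ 0 := by
    intro h0
    rw [h0, coeff_zero, map_zero] at q1
    exact hN.ne q1
  have hs := (IsAlgClosed.splits q).eq_prod_roots
  have hl : 0 < av q.leadingCoeff := av.pos (leadingCoeff_ne_zero.2 hq0)
  have h2 := mono_strict hna hr q.roots (fun c hc => hbig c (by
    rw [← hq]
    exact (mem_roots hq0).1 hc))
  have h3 : av (q.coeff 1) * r < av (q.coeff 0) := by
    have a0 : q.coeff 0 = q.leadingCoeff * (q.roots.map fun a => X - C a).prod.coeff 0 := by
      conv_lhs => rw [hs]
      rw [coeff_C_mul]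
    have a1 : q.coeff 1 = q.leadingCoeff * (q.roots.map fun a => X - C a).prod.coeff 1 := by
      conv_lhs => rw [hs]
      rw [coeff_C_mul]
    rw [a0, a1, map_mul, map_mul, h2.1, mul_assoc]
    exact mul_lt_mul_of_pos_left h2.2 hl
  rw [q1, mul_comm] at h3
  exact absurd q0 (not_le.2 h3)

theorem mono_shift (s : Multiset Ω) (c : Ω) :
    ((s.map fun a => X - C a).prod).comp (X + C c) =
      ((s.map fun a => a - c).map fun a => X - C a).prod := by
  rw [multiset_prod_comp, Multiset.map_map, Multiset.map_map]
  refine congrArg Multiset.prod (Multiset.map_congr rfl fun a _ => ?_)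
  simp only [Function.comp_apply, sub_comp, X_comp, C_comp, C_sub]
  ring

theorem mono_iter_comp (p : Polynomial Ω) (c : Ω) (k : ℕ) :
    derivative^[k] (p.comp (X + C c)) = (derivative^[k] p).comp (X + C c) := by
  induction k with
  | zero => rfl
  | succ k ih =>
    rw [Function.iterate_succ_apply', Function.iterate_succ_apply', ih, derivative_comp]
    simp

theorem mono_ind [IsAlgClosed Ω] (hna : IsNonarchimedean av)
    (hnat : ∀ n : ℕ, n ≠ 0 → av (n : Ω) = 1)
    (D : Derivation R Ω Ω) {κ : ℝ} (hκ : 0 ≤ κ) (L : Subfield Ω)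
    (hL : ∀ a ∈ L, av (D a) ≤ κ * av a) (m : ℕ) :
    ∀ z : Ω, IsIntegral L z → (minpoly L z).natDegree ≤ m → av (D z) ≤ κ * av z := by
  classical
  induction m using Nat.strong_induction_on with
  | _ m ih =>
  intro z hz hdeg
  have : CharZero Ω := ⟨fun a b hab => by
    by_contra hne
    rcases Nat.lt_or_gt_of_ne hne with h | h
    · have h1 := hnat (b - a) (by omega)
      rw [Nat.cast_sub h.le, hab, sub_self, map_zero] at h1
      exact zero_ne_one h1
    · have h1 := hnat (a - b) (by omega)
      rw [Nat.cast_sub h.le, hab, sub_self, map_zero] at h1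
      exact zero_ne_one h1⟩
  have hsep : ((minpoly L z).map (algebraMap L Ω)).Separable :=
    (minpoly.irreducible hz).separable.map
  have hmon : ((minpoly L z).map (algebraMap L Ω)).Monic := (minpoly.monic hz).map _
  have hspl := IsAlgClosed.splits ((minpoly L z).map (algebraMap L Ω))
  have hzr : z ∈ ((minpoly L z).map (algebraMap L Ω)).roots := by
    rw [mem_roots hmon.ne_zero, IsRoot, eval_map_algebraMap]
    exact minpoly.aeval L z
  obtain ⟨w, hw⟩ := Multiset.exists_cons_of_mem hzr
  have hzw : z ∉ w := by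
    have h1 := nodup_roots hsep
    rw [hw, Multiset.nodup_cons] at h1
    exact h1.1
  have hp : (minpoly L z).map (algebraMap L Ω) = ((z ::ₘ w).map fun a => X - C a).prod := by
    rw [← hw]
    exact hspl.eq_prod_roots_of_monic hmon
  have hcard : (minpoly L z).natDegree = w.card + 1 := by
    rw [← natDegree_map (algebraMap L Ω), hspl.natDegree_eq_card_roots, hw, Multiset.card_cons]
  have hne : ∀ a ∈ w, 0 < av (z - a) := fun a ha =>
    av.pos (sub_ne_zero.2 fun h => hzw (h ▸ ha))
  have hpos : 0 < (w.map fun a => av (z - a)).prod := by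
    refine Multiset.prod_pos fun x hx => ?_
    obtain ⟨a, ha, rfl⟩ := Multiset.mem_map.1 hx
    exact hne a ha
  by_cases hA : ∀ a ∈ w, av z < av (z - a)
  · have h1 := mono_step hna D hκ z w (fun k => by
      rw [← Multiset.prod_cons, ← Multiset.map_cons (fun a => X - C a), ← hp, coeff_map]
      exact hL _ ((minpoly L z).coeff k).2)
    have h2 : (w.map fun a => max (av z) (av a)).prod ≤ (w.map fun a => av (z - a)).prod := by
      refine Multiset.prod_map_le_prod_map₀ _ _ (fun a _ => le_max_of_le_left (av.nonneg _))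
        fun a ha => max_le (hA a ha).le ?_
      have h3 := mono_sub_eq hna (hA a ha)
      rw [sub_sub_cancel] at h3
      exact h3.le
    have h4 := h1.trans (mul_le_mul_of_nonneg_left h2 (mul_nonneg hκ (av.nonneg z)))
    rw [mul_comm (κ * av z)] at h4
    exact le_of_mul_le_mul_left h4 hpos
  · push Not at hA
    obtain ⟨a1, ha1, hle1⟩ := hA
    obtain ⟨a0, ha0, hmin⟩ := Multiset.exists_min_image (fun a => av (z - a))
      (s := w) (fun h => by simp [h] at ha1)
    obtain ⟨r, hr⟩ : ∃ r, r = av (z - a0) := ⟨_, rfl⟩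
    have hr0 : 0 < r := hr ▸ hne a0 ha0
    have hrz : r ≤ av z := hr ▸ (hmin a1 ha1).trans hle1
    have hra : ∀ a ∈ w, r ≤ av (z - a) := fun a ha => hr ▸ hmin a ha
    obtain ⟨μ, hμ⟩ : ∃ μ, μ = (w.filter fun a => av (z - a) ≤ r).card := ⟨_, rfl⟩
    have hμ1 : 1 ≤ μ := by
      rw [hμ]
      exact Multiset.card_pos_iff_exists_mem.2 ⟨a0, Multiset.mem_filter.2 ⟨ha0, hr.ge⟩⟩
    have hμw : μ ≤ w.card := hμ ▸ Multiset.card_le_card (Multiset.filter_le _ _)
    obtain ⟨c', hc'r, hc'⟩ := mono_root hna hnat
      ((z ::ₘ w.filter fun a => av (z - a) ≤ r).map fun a => a - z)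
      ((w.filter fun a => ¬ av (z - a) ≤ r).map fun a => a - z) (μ := μ)
      (by rw [Multiset.card_map, Multiset.card_cons, hμ]) hr0
      (fun x hx => by
        obtain ⟨a, ha, rfl⟩ := Multiset.mem_map.1 hx
        rcases Multiset.mem_cons.1 ha with h | h
        · rw [h, sub_self, map_zero]
          exact hr0.le
        · rw [av.map_sub]
          exact (Multiset.mem_filter.1 h).2)
      (fun x hx => by
        obtain ⟨a, ha, rfl⟩ := Multiset.mem_map.1 hx
        rw [av.map_sub]
        exact not_le.1 (Multiset.mem_filter.1 ha).2)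
    rw [← Multiset.map_add, Multiset.cons_add, Multiset.filter_add_not, ← mono_shift, ← hp,
      mono_iter_comp, iterate_derivative_map, eval_comp, eval_add, eval_X, eval_C,
      eval_map_algebraMap] at hc'
    obtain ⟨c, hc⟩ : ∃ c, c = c' + z := ⟨_, rfl⟩
    rw [← hc] at hc'
    have hzc : av (z - c) ≤ r := by
      rw [hc, show z - (c' + z) = -c' by ring, AbsoluteValue.map_neg]
      exact hc'r
    have hq0 : derivative^[μ] (minpoly L z) ≠ 0 := by
      intro h0
      have h1 := coeff_iterate_derivative (k := μ) (minpoly L z) (w.card + 1 - μ)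
      rw [h0, coeff_zero, show w.card + 1 - μ + μ = w.card + 1 by omega, ← hcard,
        (minpoly.monic hz).coeff_natDegree, nsmul_eq_mul, mul_one] at h1
      exact (Nat.descFactorial_pos.2 (by omega)).ne' (Nat.cast_eq_zero.1 h1.symm)
    have hci : IsIntegral L c := IsAlgebraic.isIntegral ⟨_, hq0, hc'⟩
    have hcd : (minpoly L c).natDegree < m := by
      have h1 := natDegree_le_natDegree (minpoly.degree_le_of_ne_zero L c hq0 hc')
      have h2 := natDegree_iterate_derivative (minpoly L z) μ
      omega
    have hfin := IntermediateField.adjoin.finiteDimensional hci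
    have hK : ∀ x : IntermediateField.adjoin L {c}, av (D (x : Ω)) ≤ κ * av (x : Ω) := by
      intro x
      refine ih _ hcd x ?_ ?_
      · exact (Algebra.IsIntegral.isIntegral (R := L) x).map
          (IntermediateField.adjoin L {c}).val
      · rw [← IntermediateField.minpoly_eq, ← IntermediateField.adjoin.finrank hci]
        exact minpoly.natDegree_le x
    have hcomp : (X - C (z - c)) * ((w.map fun a => a - c).map fun a => X - C a).prod =
        (((minpoly L z).map (algebraMap L (IntermediateField.adjoin L {c}))).comp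
          (X + C (IntermediateField.AdjoinSimple.gen L c))).map
          (algebraMap (IntermediateField.adjoin L {c}) Ω) := by
      rw [map_comp, Polynomial.map_map, ← IsScalarTower.algebraMap_eq, hp, Polynomial.map_add,
        map_X, map_C, IntermediateField.AdjoinSimple.algebraMap_gen, mono_shift, Multiset.map_cons,
        Multiset.map_cons, Multiset.prod_cons]
    have h1 := mono_step hna D hκ (z - c) (w.map fun a => a - c) (fun k => by
      rw [hcomp, coeff_map]
      exact hK _)
    rw [Multiset.map_map, Multiset.map_map] at h1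
    have e1 : (w.map ((fun a => av (z - c - a)) ∘ fun a => a - c)) =
        w.map fun a => av (z - a) :=
      Multiset.map_congr rfl fun a _ => by
        simp only [Function.comp_apply, sub_sub_sub_cancel_right]
    have h2 : (w.map ((fun a => max (av (z - c)) (av a)) ∘ fun a => a - c)).prod ≤
        (w.map fun a => av (z - a)).prod := by
      refine Multiset.prod_map_le_prod_map₀ _ _ (fun a _ => le_max_of_le_left (av.nonneg _))
        fun a ha => max_le (hzc.trans (hra a ha)) ?_
      have h3 := mono_sub_le hna (z - c) (z - a)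
      rw [show z - c - (z - a) = a - c by ring] at h3
      exact h3.trans (max_le (hzc.trans (hra a ha)) le_rfl)
    rw [e1] at h1
    have h4 := h1.trans (mul_le_mul_of_nonneg_left h2 (mul_nonneg hκ (av.nonneg _)))
    rw [mul_comm (κ * av (z - c))] at h4
    have h5 : av (D (z - c)) ≤ κ * av z :=
      (le_of_mul_le_mul_left h4 hpos).trans (mul_le_mul_of_nonneg_left (hzc.trans hrz) hκ)
    have h6 : av (D c) ≤ κ * av z := by
      refine (hK (IntermediateField.AdjoinSimple.gen L c)).trans
        (mul_le_mul_of_nonneg_left ?_ hκ)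
      have h3 := mono_sub_le hna z (z - c)
      rw [sub_sub_cancel] at h3
      exact h3.trans (max_le le_rfl (hzc.trans hrz))
    have h7 := hna (D (z - c)) (D c)
    rw [← map_add, sub_add_cancel] at h7
    exact h7.trans (max_le h5 h6)

/-- Strong induction on the degree `m` of `z`, for all subfields `L` at once.  Let `p` be the
minimal polynomial (separable), `r` the least distance from `z` to another root.  If `|z| < r` use
`mono_step` with `y = z`.  Otherwise let `μ + 1 ≥ 2` be the number of roots within `r` of `z` and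
`c` a root of the `μ`-th derivative of `p` within `r` of `z` (`mono_root`).  All elements of
`L(c)` have degree `< m` over `L`, so the bound holds on `L(c)`; apply `mono_step` to
`p(X + c)` and `y = z - c` to get `|D y| ≤ κ r`; and `|D c| ≤ κ |c|`. -/
theorem mono [IsAlgClosed Ω] (hna : IsNonarchimedean av) (hnat : ∀ n : ℕ, n ≠ 0 → av (n : Ω) = 1)
    (D : Derivation R Ω Ω) {κ : ℝ} (hκ : 0 ≤ κ) (L : Subfield Ω)
    (hL : ∀ a ∈ L, av (D a) ≤ κ * av a) {z : Ω} (hz : IsAlgebraic L z) :
    av (D z) ≤ κ * av z := by
  exact mono_ind hna hnat D hκ L hL _ z hz.isIntegral le_rfl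

end Pool.Agent.Lib.MP_0dd0d9_ag.Hi
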