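import Pool.Agent.Lib.MP_0dd0d9_ag.Hi.Abs
import Pool.Agent.Lib.MP_0dd0d9_ag.Hi.Mono

/-!
TASK gh Gauss.  The Gauss norm and its extension to the algebraic closure.
-/

namespace Pool.Agent.Lib.MP_0dd0d9_ag.Hi

open MvPolynomial

variable {ι K : Type} [Fintype ι] [DecidableEq ι] [Field K]

omit [Fintype ι] [DecidableEq ι] in
theorem gauss_max (av : AbsoluteValue K ℝ) (p : MvPolynomial ι K) :
    ∃ α, ∀ β, av (coeff β p) ≤ av (coeff α p) := by
  classical
  obtain ⟨α, -, h⟩ := Finset.exists_max_image (insert 0 p.support) (fun α => av (coeff α p))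
    (Finset.insert_nonempty _ _)
  refine ⟨α, fun β => ?_⟩
  by_cases hβ : β ∈ p.support
  · exact h β (Finset.mem_insert_of_mem hβ)
  · rw [notMem_support_iff.1 hβ, map_zero]
    exact av.nonneg _

omit [Fintype ι] [DecidableEq ι] in
theorem gauss_top (m : MonomialOrder ι) (av : AbsoluteValue K ℝ) {p : MvPolynomial ι K}
    (hp : p ≠ 0) : ∃ α, 0 < av (coeff α p) ∧ (∀ β, av (coeff β p) ≤ av (coeff α p)) ∧
      ∀ β, m.toSyn α < m.toSyn β → av (coeff β p) < av (coeff α p) := by
  classical
  obtain ⟨γ, hγ⟩ := gauss_max av p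
  have hpos : 0 < av (coeff γ p) := by
    obtain ⟨δ, hδ⟩ := support_nonempty.2 hp
    exact (av.pos (mem_support_iff.1 hδ)).trans_le (hγ δ)
  have hmem : ∀ β, av (coeff β p) = av (coeff γ p) →
      β ∈ p.support.filter fun β => av (coeff β p) = av (coeff γ p) := by
    intro β hβ
    refine Finset.mem_filter.2 ⟨mem_support_iff.2 fun h0 => ?_, hβ⟩
    rw [h0, map_zero] at hβ
    exact hpos.ne hβ
  obtain ⟨α, hα, h⟩ := Finset.exists_max_image
    (p.support.filter fun β => av (coeff β p) = av (coeff γ p)) (fun β => m.toSyn β)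
    ⟨γ, hmem γ rfl⟩
  have e := (Finset.mem_filter.1 hα).2
  refine ⟨α, e ▸ hpos, fun β => e ▸ hγ β, fun β hβ => ?_⟩
  rw [e]
  exact lt_of_le_of_ne (hγ β) fun h' => absurd (h β (hmem β h')) (not_le.2 hβ)

omit [Fintype ι] in
theorem gauss_mul_top (m : MonomialOrder ι) (av : AbsoluteValue K ℝ) (hna : IsNonarchimedean av)
    {p q : MvPolynomial ι K} {α β : ι →₀ ℕ} (hp0 : 0 < av (coeff α p))
    (hp1 : ∀ γ, av (coeff γ p) ≤ av (coeff α p))
    (hp2 : ∀ γ, m.toSyn α < m.toSyn γ → av (coeff γ p) < av (coeff α p))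
    (hq0 : 0 < av (coeff β q)) (hq1 : ∀ γ, av (coeff γ q) ≤ av (coeff β q))
    (hq2 : ∀ γ, m.toSyn β < m.toSyn γ → av (coeff γ q) < av (coeff β q)) :
    av (coeff (α + β) (p * q)) = av (coeff α p) * av (coeff β q) := by
  rw [coeff_mul, IsNonarchimedean.apply_sum_eq_of_lt hna (fun a => (av.map_neg a).symm)
    (k := (α, β)) (Finset.HasAntidiagonal.mem_antidiagonal.2 rfl), map_mul]
  rintro ⟨γ, δ⟩ hj hne
  have hs : γ + δ = α + β := Finset.HasAntidiagonal.mem_antidiagonal.1 hj
  have hs' : m.toSyn γ + m.toSyn δ = m.toSyn α + m.toSyn β := by rw [← map_add, ← map_add, hs]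
  simp only [map_mul]
  rcases lt_or_ge (m.toSyn α) (m.toSyn γ) with h | h
  · exact mul_lt_mul_of_lt_of_le_of_nonneg_of_pos (hp2 γ h) (hq1 δ) (av.nonneg _) hq0
  · have h2 : m.toSyn β < m.toSyn δ := by
      by_contra h3
      rw [not_lt] at h3
      have h4 : δ = β := by
        apply m.toSyn.injective
        refine le_antisymm h3 ?_
        by_contra h5
        rw [not_le] at h5
        have h6 : δ ≠ β := fun e => h5.ne (by rw [e])
        have h7 : m.toSyn γ + m.toSyn δ ≤ m.toSyn α + m.toSyn δ := add_le_add_left h _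
        have h8 : m.toSyn α + m.toSyn δ ≤ m.toSyn α + m.toSyn β := add_le_add_right h3 _
        have h9 : m.toSyn α + m.toSyn δ = m.toSyn α + m.toSyn β := le_antisymm h8 (hs' ▸ h7)
        rw [← map_add, ← map_add] at h9
        exact h6 (add_left_cancel (m.toSyn.injective h9))
      subst h4
      exact hne (by rw [add_right_cancel hs])
    exact mul_lt_mul_of_le_of_lt_of_nonneg_of_pos (hp1 γ) (hq2 δ h2) (av.nonneg _) hp0

/-- The largest absolute value of a coefficient.  For multiplicativity scale both factors to norm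
one and either reduce modulo `{av < 1}`, or look at the largest exponents (for a monomial order)
at which the norm is attained. -/
theorem gauss_mv (av : AbsoluteValue K ℝ) (hna : IsNonarchimedean av) :
    ∃ gv : AbsoluteValue (MvPolynomial ι K) ℝ, IsNonarchimedean gv ∧
      (∀ p α, av (coeff α p) ≤ gv p) ∧ ∀ p, ∃ α, gv p = av (coeff α p) := by
  classical
  let : LinearOrder ι := LinearOrder.lift' (Fintype.equivFin ι) (Fintype.equivFin ι).injective
  let m : MonomialOrder ι := MonomialOrder.lex
  choose a ha using gauss_max (ι := ι) av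
  have hadd : ∀ p q : MvPolynomial ι K, av (coeff (a (p + q)) (p + q)) ≤
      max (av (coeff (a p) p)) (av (coeff (a q) q)) := fun p q => by
    rw [coeff_add]
    exact (hna _ _).trans (max_le_max (ha p _) (ha q _))
  refine ⟨{ toFun := fun p => av (coeff (a p) p)
            map_mul' := fun p q => ?_
            nonneg' := fun p => av.nonneg _
            eq_zero' := fun p => ?_
            add_le' := fun p q => ?_ }, hadd, fun p α => ha p α, fun p => ⟨a p, rfl⟩⟩
  · by_cases hp : p = 0
    · simp [hp]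
    by_cases hq : q = 0
    · simp [hq]
    apply le_antisymm
    · rw [coeff_mul]
      refine ht_sum_le hna _ _ (mul_nonneg (av.nonneg _) (av.nonneg _)) fun i _ => ?_
      rw [map_mul]
      exact mul_le_mul (ha p _) (ha q _) (av.nonneg _) (av.nonneg _)
    · obtain ⟨α, p0, p1, p2⟩ := gauss_top m av hp
      obtain ⟨β, q0, q1, q2⟩ := gauss_top m av hq
      refine le_trans ?_ (ha (p * q) (α + β))
      rw [gauss_mul_top m av hna p0 p1 p2 q0 q1 q2]
      exact mul_le_mul (p1 _) (q1 _) (av.nonneg _) (av.nonneg _)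
  · constructor
    · intro h
      ext β
      have h1 := ha p β
      have h2 : av (coeff (a p) p) = 0 := h
      rw [h2] at h1
      exact av.eq_zero.1 (le_antisymm h1 (av.nonneg _))
    · rintro rfl
      simp
  · exact (hadd p q).trans (max_le_add_of_nonneg (av.nonneg _) (av.nonneg _))

/-- `abs_ext` for `aeval x`, `der_basis` for the derivations, `der_aeval` to compute them on
polynomials, and `mono` with `κ = 1` and `L` the field generated by `K` and `x`. -/
theorem gauss_ext [CharZero K] {Ω : Type} [Field Ω] [Algebra K Ω] [IsAlgClosed Ω]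
    (av : AbsoluteValue K ℝ) (hna : IsNonarchimedean av) (hnat : ∀ n : ℕ, n ≠ 0 → av (n : K) = 1)
    {x : ι → Ω} (hx : IsTranscendenceBasis K x) :
    ∃ av' : AbsoluteValue Ω ℝ, IsNonarchimedean av' ∧ (∀ a, av' (algebraMap K Ω a) = av a) ∧
      (∀ a, av' (x a) ≤ 1) ∧ (∀ (g : MvPolynomial ι K) α, av (coeff α g) ≤ av' (aeval x g)) ∧
      ∀ b, ∃ D : Derivation K Ω Ω, (∀ a, D (x a) = if a = b then 1 else 0) ∧
        ∀ z, av' (D z) ≤ av' z := by
  have : CharZero Ω := charZero_of_injective_algebraMap (algebraMap K Ω).injective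
  obtain ⟨gv, gna, gle, gex⟩ := gauss_mv (ι := ι) av hna
  let f : MvPolynomial ι K →+* Ω := (aeval x : MvPolynomial ι K →ₐ[K] Ω).toRingHom
  have hf : Function.Injective f := hx.1
  have hsub : ∀ z : Algebra.adjoin K (Set.range x), (z : Ω) ∈ f.range := by
    rintro ⟨z, hz⟩
    rw [Algebra.adjoin_range_eq_range_aeval] at hz
    exact hz
  have halg : Algebra.IsAlgebraic f.range Ω := ⟨fun z =>
    (hx.isAlgebraic.isAlgebraic z).ringHom_of_comp_eq
      ((Algebra.adjoin K (Set.range x)).val.toRingHom.codRestrict f.range hsub) (RingHom.id Ω)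
      (fun a b h => Subtype.ext (congrArg (fun t : f.range => (t : Ω)) h)) rfl⟩
  obtain ⟨av', hna', h'⟩ := abs_ext f hf halg gv gna
  have hev : ∀ g : MvPolynomial ι K, av' (aeval x g) = gv g := h'
  have hC : ∀ a, av' (algebraMap K Ω a) = av a := fun a => by
    have h1 := hev (C a)
    rw [aeval_C] at h1
    rw [h1]
    apply le_antisymm
    · obtain ⟨α, hα⟩ := gex (C a)
      rw [hα, coeff_C]
      split_ifs
      · exact le_rfl
      · rw [map_zero]
        exact av.nonneg _
    · have := gle (C a) 0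
      rwa [coeff_zero_C] at this
  have hnat' : ∀ n : ℕ, n ≠ 0 → av' (n : Ω) = 1 := fun n hn => by
    rw [← map_natCast (algebraMap K Ω) n, hC, hnat n hn]
  refine ⟨av', hna', hC, fun a => ?_, fun g α => (hev g).symm ▸ gle g α, fun b => ?_⟩
  · have h1 := hev (X a)
    rw [aeval_X] at h1
    obtain ⟨α, hα⟩ := gex (X a)
    rw [h1, hα, coeff_X]
    split_ifs
    · rw [map_one]
    · rw [map_zero]
      exact zero_le_one
  obtain ⟨D, hD⟩ := der_basis hx fun a => if a = b then (1 : Ω) else 0
  refine ⟨D, hD, fun z => ?_⟩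
  have hpoly : ∀ g : MvPolynomial ι K, av' (D (aeval x g)) ≤ av' (aeval x g) := fun g => by
    have e : D (aeval x g) = aeval x (pderiv b g) := by
      rw [der_aeval]
      simp [hD]
    obtain ⟨α, hα⟩ := gex (pderiv b g)
    rw [e, hev, hev, hα, coeff_pderiv, map_mul]
    have h1 : av ((α b : K) + 1) = 1 := by
      rw [← Nat.cast_succ]
      exact hnat _ (Nat.succ_ne_zero _)
    rw [h1, mul_one]
    exact gle g _
  have hL : ∀ a ∈ (IntermediateField.adjoin K (Set.range x)).toSubfield,
      av' (D a) ≤ 1 * av' a := by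
    intro a ha
    obtain ⟨r, s, rfl⟩ := (IntermediateField.mem_adjoin_range_iff K x a).1 ha
    rw [one_mul]
    by_cases hs : aeval x s = 0
    · simp [hs]
    have hs' : 0 < av' (aeval x s) := av'.pos hs
    have e : D (aeval x r / aeval x s) =
        (D (aeval x r) * aeval x s + -(aeval x r * D (aeval x s))) / (aeval x s * aeval x s) := by
      rw [D.leibniz_div]
      simp only [smul_eq_mul]
      field_simp
      ring
    rw [e, map_div₀, map_div₀, map_mul, div_le_div_iff₀ (mul_pos hs' hs') hs', ← mul_assoc]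
    refine mul_le_mul_of_nonneg_right ((hna' _ _).trans (max_le ?_ ?_)) hs'.le
    · rw [map_mul]
      exact mul_le_mul_of_nonneg_right (hpoly r) hs'.le
    · rw [av'.map_neg, map_mul]
      exact mul_le_mul_of_nonneg_left (hpoly s) (av'.nonneg _)
  have hz : IsAlgebraic (IntermediateField.adjoin K (Set.range x)).toSubfield z :=
    hx.isAlgebraic_field.isAlgebraic z
  have := mono hna' hnat' D zero_le_one _ hL hz
  rwa [one_mul] at this

end Pool.Agent.Lib.MP_0dd0d9_ag.Hi
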