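import Pool.Agent.Lib.MP_0dd0d9_ag.Hi.Loc3

/-!
TASK gh Loc4.  The local inequality for a periodic point.
-/

namespace Pool.Agent.Lib.MP_0dd0d9_ag.Hi

open MvPolynomial

variable {ι : Type} [Fintype ι] [DecidableEq ι]

section
variable {K Ω : Type} [Field K] [CharZero K] [Field Ω] [Algebra K Ω] [IsAlgClosed Ω]
variable {d : ℕ} {F : ι → MvPolynomial ι K} {x : ι → Ω} {av : AbsoluteValue Ω ℝ} {H : ℝ}

/-- `N` is a form of degree `n` with `d ^ s * n = (d ^ s) ^ M * (M (d - 1))` (`FB.nrm`,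
`IsNrm.unique`); `|N Q| ≤ |N x| * exp H ^ n`. -/
theorem LS.nrm_le (h : LS d F x av H) {s : ℕ} {N : MvPolynomial ι K}
    (hN : IsNrm (itr F s) (jac F) N) {Q : ι → Ω} (hQ : ∀ a, av (Q a) ≤ Real.exp H)
    (hNQ : aeval Q N ≠ 0) :
    lg av N Q / ((d : ℝ) ^ s) ^ Fintype.card ι ≤
      lam F d av x s + Fintype.card ι * d * H / d ^ s := by
  have hd1 : 1 ≤ d := le_trans (by norm_num) h.hd
  obtain ⟨N', hN', -, ⟨n, hn, hhom⟩, -⟩ :=
    (h.dig.fb hd1 s).nrm (Nat.one_le_pow s d hd1) (h.hm.iter s) h.hm.jacob h.jac_ne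
  rw [← hN.unique hN'] at hhom
  have hx : x ∈ fib (itr F 0) x := by rw [h.fib_zero]; exact Finset.mem_singleton_self x
  have h1 := bd_eval h.na hhom (av.nonneg _) (Real.exp_pos H).le (h.gauss N) hQ
  have h2 : 0 < av (aeval Q N) := av.pos hNQ
  have h3 : av (aeval x N) ≠ 0 := by
    intro h0
    rw [h0, zero_mul] at h1
    exact absurd h1 (not_le.2 h2)
  have h4 : lg av N Q ≤ lg av N x + n * H := by
    have := Real.log_le_log h2 h1
    rwa [Real.log_mul h3 (by positivity), Real.log_pow, Real.log_exp] at this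
  have hdp : (0 : ℝ) < (d : ℝ) ^ s := by positivity
  have hn' : (d : ℝ) ^ s * n ≤ ((d : ℝ) ^ s) ^ Fintype.card ι * (Fintype.card ι * d) := by
    have : d ^ s * n ≤ (d ^ s) ^ Fintype.card ι * (Fintype.card ι * d) := by
      rw [hn, Fintype.card_fun, Fintype.card_fin]
      exact Nat.mul_le_mul_left _ (Nat.mul_le_mul_left _ (Nat.sub_le d 1))
    exact_mod_cast this
  rw [lam, h.av_nrm h.jac_ne hN hx]
  have h5 : (n : ℝ) * H / ((d : ℝ) ^ s) ^ Fintype.card ι ≤ Fintype.card ι * d * H / d ^ s := by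
    rw [div_le_div_iff₀ (by positivity) hdp]
    nlinarith [mul_le_mul_of_nonneg_right hn' h.H0]
  calc _ ≤ (lg av N x + n * H) / ((d : ℝ) ^ s) ^ Fintype.card ι := by gcongr
    _ ≤ _ := by rw [add_div]; linarith

theorem LS.mult_le (h : LS d F x av H) {m : ℕ} (hm : 1 ≤ m) {Q : ι → Ω} (hQ : (ap F)^[m] Q = Q) :
    Real.posLog (av (aeval Q (jac (itr F m)))) ≤ m * (Fintype.card ι * d) * H := by
  have hH := h.H0
  have h1 : av (aeval Q (jac (itr F m))) ≤ Real.exp (m * (Fintype.card ι * d) * H) := by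
    rw [aeval_jac_itr, map_prod]
    calc _ ≤ ∏ _i ∈ Finset.range m, Real.exp (Fintype.card ι * d * H) :=
          Finset.prod_le_prod (fun i _ => av.nonneg _) fun i _ => h.jac_le (h.per_bd hm hQ i)
      _ = _ := by
          rw [Finset.prod_const, Finset.card_range, ← Real.exp_nat_mul]
          congr 1
          ring
  rw [Real.posLog_def]
  refine max_le (by positivity) ?_
  rcases (av.nonneg (aeval Q (jac (itr F m)))).eq_or_lt with h0 | h0
  · rw [← h0]
    simp only [Real.log_zero]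
    positivity
  · exact (Real.log_le_iff_le_exp h0).2 h1

end

theorem loc4_geom {t : ℝ} (ht : 2 ≤ t) (n : ℕ) :
    ∑ s ∈ Finset.Icc 1 n, 1 / t ^ s ≤ 1 - 1 / t ^ n := by
  induction n with
  | zero => simp
  | succ n ih =>
    rw [Finset.sum_Icc_succ_top (by omega)]
    have h0 : 0 < t ^ n := by positivity
    have h1 : 2 * (1 / t ^ (n + 1)) ≤ 1 / t ^ n := by
      rw [mul_one_div, div_le_div_iff₀ (by positivity) h0, pow_succ]
      nlinarith
    linarith

/-- Choose `i0`, `R`, `J` as required by `LS.key`.  If the multiplier has absolute value at most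
one, use `LS.nrm_le` and `IsLyap`.  If `J * L ≤ H` use `LS.key`.  Otherwise `H ≤ J * L`; use
`LS.mult_le` and `LS.nrm_le`. -/
theorem loc (ι : Type) [Fintype ι] [DecidableEq ι] {d : ℕ} (hd : 2 ≤ d) :
    ∃ C2 : ℝ, 0 ≤ C2 ∧ ∀ m k : ℕ, 1 ≤ m → ∃ (i0 : ℕ) (C3 : ℝ), 0 ≤ C3 ∧
      ∀ (K Ω : Type) [Field K] [CharZero K] [Field Ω] [Algebra K Ω] [IsAlgClosed Ω]
        (F : ι → MvPolynomial ι K) (x : ι → Ω) (av : AbsoluteValue Ω ℝ) (H L : ℝ),
        LS d F x av H → IsLyap F d av x H L → ∀ Q : ι → Ω, (ap F)^[m] Q = Q →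
        ∀ N : ℕ → MvPolynomial ι K,
        (∀ s ∈ Finset.Icc 1 i0, IsNrm (itr F s) (jac F) (N s) ∧ aeval Q (N s) ≠ 0) →
        k * Real.posLog (av (aeval Q (jac (itr F m)))) +
          ∑ s ∈ Finset.Icc 1 i0, lg av (N s) Q / ((d : ℝ) ^ s) ^ Fintype.card ι ≤
            C2 * H + C3 * L := by
  obtain ⟨β, hβ⟩ : ∃ β : ℝ, β = Fintype.card ι + 1 + 4 * (Fintype.card ι : ℝ) ^ 2 * d ^ 2 :=
    ⟨_, rfl⟩
  have hβ0 : 0 ≤ β := by rw [hβ]; positivity
  obtain ⟨A, hA⟩ : ∃ A : ℝ, A = 4 * (Fintype.card ι : ℝ) ^ 2 * d ^ 2 + Fintype.card ι * d :=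
    ⟨_, rfl⟩
  have hA0 : 0 ≤ A := by rw [hA]; positivity
  have hd2 : (2 : ℝ) ≤ d := by exact_mod_cast hd
  refine ⟨12 * β + 2 + A, by positivity, fun m k hm => ?_⟩
  obtain ⟨i0, hi0⟩ := pow_unbounded_of_one_lt
    (Fintype.card ι * d * (4 * β + (m * k + Fintype.card ι) * (Fintype.card ι * d)) +
      4 * (Fintype.card ι : ℝ) ^ 2 * d ^ 2) (show (1 : ℝ) < d by linarith)
  obtain ⟨R, hR⟩ : ∃ R : ℕ, R = (d ^ Fintype.card ι) ^ (m * k + Fintype.card ι) := ⟨_, rfl⟩
  have hR0 : 0 < R := by rw [hR]; positivity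
  obtain ⟨J, hJ⟩ : ∃ J : ℕ, J = (m * k + Fintype.card ι) * R + i0 := ⟨_, rfl⟩
  refine ⟨i0, k * (m * (Fintype.card ι * d)) * J + i0, by positivity, ?_⟩
  intro K Ω _ _ _ _ _ F x av H L h hL Q hQ N hN
  have hH := h.H0
  have hL0 := hL.1
  have hsum : ∑ s ∈ Finset.Icc 1 i0, lg av (N s) Q / ((d : ℝ) ^ s) ^ Fintype.card ι ≤
      i0 * L + A * H := by
    have h1 : ∀ s ∈ Finset.Icc 1 i0, lg av (N s) Q / ((d : ℝ) ^ s) ^ Fintype.card ι ≤
        L + A * H * (1 / (d : ℝ) ^ s) := by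
      intro s hs
      have k1 := h.nrm_le (Q := Q) (hN s hs).1 (h.per_bd hm hQ 0) (hN s hs).2
      have k2 := (abs_le.1 (hL.2 s)).2
      have k3 : A * H * (1 / (d : ℝ) ^ s) = 4 * (Fintype.card ι : ℝ) ^ 2 * d ^ 2 * H / d ^ s +
          Fintype.card ι * d * H / d ^ s := by
        rw [hA]
        ring
      linarith
    refine (Finset.sum_le_sum h1).trans ?_
    rw [Finset.sum_add_distrib, Finset.sum_const, Nat.card_Icc, Nat.add_sub_cancel, nsmul_eq_mul,
      ← Finset.mul_sum]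
    have h2 := loc4_geom hd2 i0
    have h3 : 0 ≤ 1 / (d : ℝ) ^ i0 := by positivity
    have h4 : 0 ≤ A * H := by positivity
    nlinarith
  have e1 : 0 ≤ (12 * β + 2) * H := by positivity
  have e2 : 0 ≤ (k : ℝ) * (m * (Fintype.card ι * d)) * J * L := by positivity
  have e3 : 0 ≤ A * H := by positivity
  have e4 : 0 ≤ (i0 : ℝ) * L := by positivity
  by_cases hμ : av (aeval Q (jac (itr F m))) ≤ 1
  · have h0 : Real.posLog (av (aeval Q (jac (itr F m)))) = 0 :=
      (Real.posLog_eq_zero_iff _).2 (by rwa [abs_of_nonneg (av.nonneg _)])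
    rw [h0]
    nlinarith
  · have hμ1 : 1 < av (aeval Q (jac (itr F m))) := not_le.1 hμ
    by_cases hLJ : J * L ≤ H
    · have hne : aeval Q (jac (itr F m)) ≠ 0 := by
        intro h0
        rw [h0, map_zero] at hμ1
        linarith
      have k1 := h.key hL hm k i0 R J hQ hne N hN hβ (by omega) hJ.ge hi0.le hLJ
      rw [Real.posLog_eq_log (by rw [abs_of_nonneg (av.nonneg _)]; exact hμ1.le)]
      rw [lg] at k1
      nlinarith
    · have k1 := h.mult_le hm hQ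
      have k2 : H ≤ J * L := (not_le.1 hLJ).le
      have k3 : (k : ℝ) * Real.posLog (av (aeval Q (jac (itr F m)))) ≤
          k * (m * (Fintype.card ι * d)) * J * L := by
        calc _ ≤ (k : ℝ) * (m * (Fintype.card ι * d) * H) := by gcongr
          _ ≤ (k : ℝ) * (m * (Fintype.card ι * d) * (J * L)) := by gcongr
          _ = _ := by ring
      nlinarith

end Pool.Agent.Lib.MP_0dd0d9_ag.Hi
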