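import Pool.Agent.Lib.MP_0dd0d9_ag.Hi.UL2
import Pool.Agent.Lib.MP_0dd0d9_ag.Hi.Loc4
import Pool.Agent.Lib.MP_0dd0d9_ag.Hi.Gauss

/-!
Universal data, the local setting at a place, and the choice of the parameters.
-/

namespace Pool.Agent.Lib.MP_0dd0d9_ag.Hi

open MvPolynomial

variable {ι : Type} [Fintype ι] [DecidableEq ι] {d : ℕ}

theorem exists_closure (k σ : Type) [Field k] :
    ∃ (U : Type) (_ : Field U) (_ : Algebra k U) (_ : IsAlgClosed U) (g : σ → U),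
      IsTranscendenceBasis k g := by
  have : Algebra.IsAlgebraic (MvPolynomial σ k) (FractionRing (MvPolynomial σ k)) :=
    IsLocalization.isAlgebraic _ (nonZeroDivisors _)
  refine ⟨AlgebraicClosure (FractionRing (MvPolynomial σ k)), inferInstance, inferInstance,
    inferInstance, _, ((IsTranscendenceBasis.mvPolynomial σ k).algebraMap_comp
      (A := FractionRing (MvPolynomial σ k))).algebraMap_comp⟩

omit [Fintype ι] [DecidableEq ι] in
theorem hom_aeval {R S : Type} [CommRing R] [CommRing S] (f : R →+* S) (y : ι → R)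
    (p : MvPolynomial ι R) : f (aeval y p) = aeval (f ∘ y) (map f p) := by
  simp only [aeval_eq_eval]
  rw [eval_map, ← eval₂_id, eval₂_comp_left]
  rfl

theorem map_Fp_sl {R S : Type} [CommRing R] [CommRing S] (f : R →+* S) (c : ι × MnS ι d → R) :
    (fun a => map f (Fp (sl c) a)) = Fp (sl (f ∘ c)) := by
  funext a
  rw [map_Fp, map_sl]

theorem hom_mult {R S : Type} [CommRing R] [CommRing S] (f : R →+* S) (c : ι × MnS ι d → R)
    (y : ι → R) (m : ℕ) :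
    f (aeval y (jac (itr (Fp (sl c)) m))) = aeval (f ∘ y) (jac (itr (Fp (sl (f ∘ c))) m)) := by
  rw [hom_aeval, map_jac, ← map_Fp_sl]
  congr 2
  funext a
  rw [map_itr]

/-- The universal data. -/
theorem core_univ (hd : 2 ≤ d) {U : Type} [Field U] [Algebra ℂ U] [IsAlgClosed U]
    {g : ι × MnS ι d → U} (hg : IsTranscendenceBasis ℂ g) :
    ∃ (𝓡 : Finset U) (T : Type) (_ : Fintype T) (Q : T → ι → U) (D0 : ℕ) (q : U), q ≠ 0 ∧
      (∀ r ∈ 𝓡, r ∈ IntermediateField.adjoin ℂ (Set.range g)) ∧ (∀ x, sl g x ∈ 𝓡) ∧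
      (∀ t, (ap (Fp (sl g)))^[3] (Q t) = Q t) ∧
      (∀ t (Ω : Type) [Field Ω] [Algebra ℂ Ω] (f : U →ₐ[ℂ] Ω) (i : ℕ) (y : ι → Ω),
        (ap (Fp (sl (f ∘ g))))^[i] y = f ∘ Q t → aeval y (jac (Fp (sl (f ∘ g)))) ≠ 0) ∧
      (∀ (Ω : Type) [Field Ω] (f : U →+* Ω) (av : AbsoluteValue Ω ℝ), IsNonarchimedean av →
        ∀ H : ℝ, (∀ r ∈ 𝓡, av (f r) ≤ Real.exp H) → ∀ (y : ι → Ω) (ρ : ℝ),
          (∀ a, av (ap (Fp (sl (f ∘ g))) y a) ≤ ρ) → ∀ a, av (y a) ^ d ≤ Real.exp H * ρ) ∧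
      ∀ av : AbsoluteValue U ℝ, IsNonarchimedean av → (∀ a : ℂ, av (algebraMap ℂ U a) ≤ 1) →
        ∑ r ∈ 𝓡, Real.posLog (av r) ≤
          D0 * ∑ t, Real.posLog (av (aeval (Q t) (jac (itr (Fp (sl g)) 3)))) -
            Real.log (av q) := by
  classical
  obtain ⟨T, _, Q, h1, h2, h3⟩ := univ hd hg
  set K0 := IntermediateField.adjoin ℂ (Set.range g) with hK0
  let g0 : ι × MnS ι d → K0 := fun x => ⟨g x, IntermediateField.subset_adjoin _ _ ⟨x, rfl⟩⟩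
  have hg0 : AlgebraicIndependent ℂ g0 := AlgebraicIndependent.of_comp K0.val hg.1
  obtain ⟨R0, hR0⟩ := (reg_slice hg0).low (Fp_hm _) (by omega)
  let R1 : Finset K0 := R0 ∪ Finset.univ.image (sl g0)
  let 𝓡 : Finset U := R1.image fun r : K0 => (r : U)
  choose D1 q1 hq1 hht using fun r : U => ht _ (h3 r)
  refine ⟨𝓡, T, inferInstance, Q, ∑ r ∈ 𝓡, D1 r, ∏ r ∈ 𝓡, q1 r,
    Finset.prod_ne_zero_iff.2 fun r _ => hq1 r, ?_, ?_, h1, h2, ?_, ?_⟩
  · intro r hr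
    obtain ⟨r', -, rfl⟩ := Finset.mem_image.1 hr
    exact r'.2
  · intro x
    refine Finset.mem_image.2 ⟨sl g0 x, Finset.mem_union_right _
      (Finset.mem_image_of_mem _ (Finset.mem_univ x)), ?_⟩
    exact congrFun (map_sl (K0.val : K0 →+* U) g0) x
  · intro Ω _ f av hna H hH y ρ hy
    refine hR0 Ω (f.comp (K0.val : K0 →+* U)) av hna H (fun r hr => ?_) y ρ ?_
    · exact hH _ (Finset.mem_image_of_mem _ (Finset.mem_union_left _ hr))
    · rw [map_Fp_sl]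
      exact hy
  · intro av hna hC
    rw [map_prod, Real.log_prod fun r _ => (av.pos (hq1 r)).ne', Nat.cast_sum, Finset.sum_mul,
      ← Finset.sum_sub_distrib]
    exact Finset.sum_le_sum fun r _ => hht r av hna hC

/-- The local setting at a place. -/
theorem core_place (hd : 2 ≤ d) {Ω Ωx : Type} [Field Ω] [Algebra ℂ Ω] [Field Ωx] [Algebra Ω Ωx]
    [IsAlgClosed Ωx] {x : ι → Ωx} (hx : IsTranscendenceBasis Ω x) {c : ι × MnS ι d → Ω}
    (hc : AlgebraicIndependent ℂ c) (av : AbsoluteValue Ω ℝ) (hna : IsNonarchimedean av)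
    (hC : ∀ a : ℂ, a ≠ 0 → av (algebraMap ℂ Ω a) = 1) {H : ℝ} (hH : 0 ≤ H)
    (hcoef : ∀ y, av (sl c y) ≤ Real.exp H)
    (hlow : ∀ av' : AbsoluteValue Ωx ℝ, IsNonarchimedean av' →
      (∀ a, av' (algebraMap Ω Ωx a) = av a) → ∀ (y : ι → Ωx) (ρ : ℝ),
        (∀ a, av' (ap (Fp (sl (algebraMap Ω Ωx ∘ c))) y a) ≤ ρ) →
          ∀ a, av' (y a) ^ d ≤ Real.exp H * ρ) :
    ∃ av' : AbsoluteValue Ωx ℝ, (∀ a, av' (algebraMap Ω Ωx a) = av a) ∧
      LS d (Fp (sl c)) x av' H := by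
  have : CharZero Ω := charZero_of_injective_algebraMap (algebraMap ℂ Ω).injective
  have hnat : ∀ n : ℕ, n ≠ 0 → av (n : Ω) = 1 := fun n hn => by
    have := hC n (Nat.cast_ne_zero.2 hn)
    rwa [map_natCast] at this
  obtain ⟨av', h1, h2, h3, h4, h5⟩ := gauss_ext av hna hnat hx
  refine ⟨av', h2, hd, Fp_hm _, dig_slice hc, h1, fun n hn => ?_, hx.1, h3, fun g α => ?_, h5, hH,
    fun a α => ?_, fun y ρ hy => hlow av' h1 h2 y ρ ?_⟩
  · rw [← map_natCast (algebraMap Ω Ωx), h2, hnat n hn]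
  · rw [h2]
    exact h4 g α
  · rw [h2]
    by_cases h : α.degree = d
    · exact (congrArg av (coeff_Fp (sl c) a ⟨α, mem_Mn.2 h⟩)).trans_le (hcoef _)
    · rw [(Fp_hm _ a).coeff_eq_zero h, map_zero]
      exact (Real.exp_pos _).le
  · rw [← map_Fp_sl, ap_map]
    exact hy

/-- The choice of the parameters. -/
theorem core_num (A C1 CL CB : ℝ) {C4 : ℝ} (hC4 : 0 ≤ C4) :
    ∃ Dg J : ℕ, ∀ h Λ : ℝ, 0 < h → h ≤ C4 * Λ →
      ¬ (Dg * (J * Λ - CL * h) ≤ A * (C1 * ((J + Dg : ℕ) + 1) * h + Dg * ((1 + CB) * h))) := by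
  obtain ⟨Dg, hDg⟩ := exists_nat_ge (A * C4 * C1 + 1)
  obtain ⟨J, hJ⟩ := exists_nat_gt (Dg * CL * C4 + A * C4 * (C1 * (Dg + 1) + Dg * (1 + CB)))
  refine ⟨Dg, J, fun h Λ h0 h1 h2 => ?_⟩
  have hJ0 : (0 : ℝ) ≤ J := Nat.cast_nonneg _
  have hD0 : (0 : ℝ) ≤ Dg := Nat.cast_nonneg _
  have h3 := mul_le_mul_of_nonneg_left h2 hC4
  have h4 : Dg * J * h ≤ Dg * J * (C4 * Λ) := mul_le_mul_of_nonneg_left h1 (by positivity)
  have h5 : J * (A * C4 * C1 + 1) * h ≤ J * Dg * h :=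
    mul_le_mul_of_nonneg_right (mul_le_mul_of_nonneg_left hDg hJ0) h0.le
  have h6 := mul_lt_mul_of_pos_right hJ h0
  push_cast at h3
  nlinarith

theorem geom_le (hd : 2 ≤ d) {J j : ℕ} (hJ : J ≤ j) :
    ∑ i ∈ Finset.range J, 1 / (d : ℝ) ^ (j - i) ≤ 1 := by
  have h2 : (2 : ℝ) ≤ d := by exact_mod_cast hd
  have key : ∀ J ≤ j, ∑ i ∈ Finset.range J, 1 / (d : ℝ) ^ (j - i) ≤ 1 / (d : ℝ) ^ (j - J) := by
    intro J
    induction J with
    | zero => intro _; simp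
    | succ J ih =>
      intro h
      have e : j - J = j - (J + 1) + 1 := by omega
      have h3 := ih (by omega)
      rw [Finset.sum_range_succ]
      have h4 : (0 : ℝ) < (d : ℝ) ^ (j - (J + 1)) := by positivity
      have h5 : 1 / (d : ℝ) ^ (j - J) ≤ 1 / (d : ℝ) ^ (j - (J + 1)) / 2 := by
        rw [e, pow_succ, div_div]
        exact one_div_le_one_div_of_le (by positivity) (by nlinarith)
      linarith
  refine (key J hJ).trans ?_
  rw [div_le_one (by positivity)]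
  exact one_le_pow₀ (by linarith)

theorem IsLyap.sum_ge (hd : 2 ≤ d) {K Ω : Type} [Field K] [Field Ω] [Algebra K Ω]
    {F : ι → MvPolynomial ι K} {x : ι → Ω} {av : AbsoluteValue Ω ℝ} {H L : ℝ} (hH : 0 ≤ H)
    (h : IsLyap F d av x H L) {J j : ℕ} (hJ : J ≤ j) :
    J * L - 4 * (Fintype.card ι : ℝ) ^ 2 * d ^ 2 * H ≤
      ∑ i ∈ Finset.range J, lam F d av x (j - i) := by
  have h1 : ∀ i ∈ Finset.range J,
      L - 4 * (Fintype.card ι : ℝ) ^ 2 * d ^ 2 * H * (1 / (d : ℝ) ^ (j - i)) ≤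
        lam F d av x (j - i) := fun i _ => by
    have := (abs_le.1 (h.2 (j - i))).1
    rw [mul_one_div]
    linarith
  refine le_trans ?_ (Finset.sum_le_sum h1)
  rw [Finset.sum_sub_distrib, ← Finset.mul_sum, Finset.sum_const, Finset.card_range, nsmul_eq_mul]
  have h2 : (0 : ℝ) ≤ 4 * (Fintype.card ι : ℝ) ^ 2 * d ^ 2 * H := by positivity
  have := mul_le_mul_of_nonneg_left (geom_le hd hJ) h2
  linarith

theorem jac_slice_ne (hd : 2 ≤ d) {Ω : Type} [Field Ω] [Algebra ℂ Ω] {c : ι × MnS ι d → Ω}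
    (hc : AlgebraicIndependent ℂ c) : jac (Fp (sl c)) ≠ 0 := by
  obtain ⟨O, hO, hn⟩ := val_exists_indep hc (0 : ι × MnS ι d → ℂ)
  have := jac_unit hd hO (near_sl hn) (y := fun _ => 1) fun _ => map_one _
  intro h
  rw [h, map_zero, map_zero] at this
  exact zero_ne_one this

theorem mnS_nonempty [Nontrivial ι] (hd : 2 ≤ d) : Nonempty (ι × MnS ι d) := by
  obtain ⟨a, b, hab⟩ := exists_pair_ne ι
  refine ⟨a, ⟨Finsupp.single a (d - 1) + Finsupp.single b 1, mem_Mn.2 ?_⟩, fun e h => ?_⟩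
  · rw [map_add, Finsupp.degree_single, Finsupp.degree_single]
    omega
  · have h1 := DFunLike.congr_fun h a
    have h2 := DFunLike.congr_fun h b
    simp only [Finsupp.add_apply, Finsupp.single_eq_same, Finsupp.single_apply, if_neg hab,
      if_neg hab.symm] at h1 h2
    split_ifs at h2
    omega

theorem mn_nonempty (κ : Type) [Fintype κ] [DecidableEq κ] [Nonempty κ] (D : ℕ) :
    Nonempty (Mn κ D) := by
  obtain ⟨a⟩ := ‹Nonempty κ›
  exact ⟨Finsupp.single a D, mem_Mn.2 (Finsupp.degree_single a D)⟩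

end Pool.Agent.Lib.MP_0dd0d9_ag.Hi
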