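import Pool.Agent.Lib.MP_0dd0d9_ag.Hi.Poly

/-!
TASK gh SymD.  The determinant of a symmetric power; choice of rows; a block determinant.
-/

namespace Pool.Agent.Lib.MP_0dd0d9_ag.Hi

open MvPolynomial

variable {κ : Type} [Fintype κ] [DecidableEq κ]

/-- The matrix of the substitution `X ↦ A X` on forms of degree `D`. -/
noncomputable def symM {R : Type} [CommRing R] (D : ℕ) (A : Matrix κ κ R) :
    Matrix (Mn κ D) (Mn κ D) R :=
  Matrix.of fun γ' γ => coeff γ'.1 (∏ a, lin A a ^ γ.1 a)

theorem symM_map {R S : Type} [CommRing R] [CommRing S] (f : R →+* S) (D : ℕ) (A : Matrix κ κ R) :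
    (symM D A).map f = symM D (A.map f) := by
  ext γ' γ
  have e : ∀ a, map f (lin A a) = lin (A.map f) a := fun a => by simp [lin]
  simp only [symM, Matrix.map_apply, Matrix.of_apply, ← e, ← map_pow, ← map_prod, coeff_map]

omit [DecidableEq κ] in
theorem symd_lin_hom {R : Type} [CommRing R] (A : Matrix κ κ R) (a : κ) :
    (lin A a).IsHomogeneous 1 :=
  IsHomogeneous.sum _ _ _ fun j _ => by
    simpa using (isHomogeneous_C κ (A a j)).mul (isHomogeneous_X R j)

theorem symd_expand {R : Type} [CommRing R] (D : ℕ) (A : Matrix κ κ R) (γ : Mn κ D) :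
    ∏ a, lin A a ^ γ.1 a = ∑ γ' : Mn κ D, C (symM D A γ' γ) * ∏ a, X a ^ γ'.1 a := by
  have h : (∏ a, lin A a ^ γ.1 a).IsHomogeneous D := by
    have := IsHomogeneous.prod Finset.univ (fun a => lin A a ^ γ.1 a) (fun a => γ.1 a)
      fun a _ => by simpa using (symd_lin_hom A a).pow (γ.1 a)
    rwa [← Finsupp.degree_eq_sum, Mn_degree] at this
  have e : ∀ γ' : Mn κ D, C (symM D A γ' γ) * ∏ a, X a ^ γ'.1 a =
      monomial γ'.1 (symM D A γ' γ) := fun γ' => by
    rw [monomial_eq, Finsupp.prod_fintype _ _ (by simp)]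
  simp only [e]
  ext α
  rw [coeff_sum]
  by_cases c : α.degree = D
  · rw [Finset.sum_eq_single ⟨α, mem_Mn.2 c⟩]
    · simp [symM]
    · intro b _ hb
      rw [coeff_monomial, if_neg fun h => hb (Subtype.ext h)]
    · simp
  · rw [h.coeff_eq_zero c, Finset.sum_eq_zero]
    intro b _
    rw [coeff_monomial, if_neg fun h : b.1 = α => c (h ▸ Mn_degree b)]

theorem symM_eval {R : Type} [CommRing R] (D : ℕ) (A : Matrix κ κ R) (v : κ → R) (γ : Mn κ D) :
    ∏ a, A.mulVec v a ^ γ.1 a = ∑ γ' : Mn κ D, symM D A γ' γ * ∏ a, v a ^ γ'.1 a := by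
  have := congrArg (aeval v) (symd_expand D A γ)
  have e := aeval_lin (S := R) A v
  simp only [map_prod, map_pow, map_sum, map_mul, aeval_C, aeval_X, congrFun e] at this
  exact this

theorem symM_mul {R : Type} [CommRing R] (D : ℕ) (A B : Matrix κ κ R) :
    symM D (A * B) = symM D B * symM D A := by
  ext γ' γ
  have e : ∀ a, lin (A * B) a = bind₁ (lin B) (lin A a) := fun a => by
    simp only [lin, Matrix.mul_apply, map_sum, map_mul, bind₁_C_right, bind₁_X_right,
      Finset.mul_sum, Finset.sum_mul, mul_assoc]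
    exact Finset.sum_comm
  rw [Matrix.mul_apply]
  conv_lhs => rw [symM]
  simp only [Matrix.of_apply, e, ← map_pow, ← map_prod]
  rw [symd_expand, map_sum, coeff_sum]
  refine Finset.sum_congr rfl fun δ _ => ?_
  simp only [map_mul, bind₁_C_right, map_prod, map_pow, bind₁_X_right, coeff_C_mul]
  rw [mul_comm]
  rfl

theorem symd_diag {R : Type} [CommRing R] (D : ℕ) (v : κ → R) :
    symM D (Matrix.diagonal v) = Matrix.diagonal fun γ => ∏ a, v a ^ γ.1 a := by
  ext γ' γ
  have e : ∀ a, lin (Matrix.diagonal v) a = C (v a) * X a := fun a => by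
    rw [lin, Finset.sum_eq_single a]
    · simp
    · intro b _ hb
      simp [Matrix.diagonal_apply_ne' _ hb]
    · simp
  have e2 : ∏ a, (C (v a) * X a : MvPolynomial κ R) ^ γ.1 a =
      monomial γ.1 (∏ a, v a ^ γ.1 a) := by
    rw [monomial_eq, Finsupp.prod_fintype _ _ (by simp)]
    simp [mul_pow, Finset.prod_mul_distrib]
  simp only [symM, Matrix.of_apply, e, e2, coeff_monomial, Matrix.diagonal_apply]
  by_cases c : γ' = γ
  · simp [c]
  · rw [if_neg c, if_neg fun h => c (Subtype.ext h).symm]

theorem symd_sum (D : ℕ) (a : κ) :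
    Fintype.card κ * ∑ γ : Mn κ D, γ.1 a = D * Fintype.card (Mn κ D) := by
  have h : ∀ b, ∑ γ : Mn κ D, γ.1 a = ∑ γ : Mn κ D, γ.1 b := fun b => by
    let f : Mn κ D → Mn κ D := fun γ => ⟨γ.1.equivMapDomain (Equiv.swap a b), mem_Mn.2 (by
      refine Eq.trans ?_ (Mn_degree γ)
      rw [Finsupp.degree_eq_sum, Finsupp.degree_eq_sum]
      exact Equiv.sum_comp (Equiv.swap a b).symm γ.1)⟩
    have hf : Function.Involutive f := fun γ => by
      ext x
      simp [f]
    refine Fintype.sum_equiv hf.toPerm _ _ fun γ => ?_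
    simp [f]
  calc Fintype.card κ * ∑ γ : Mn κ D, γ.1 a = ∑ b : κ, ∑ γ : Mn κ D, γ.1 b := by
        rw [← Finset.sum_congr rfl fun b _ => h b]
        simp
    _ = ∑ γ : Mn κ D, D := by
        rw [Finset.sum_comm]
        exact Finset.sum_congr rfl fun γ _ => by rw [← Finsupp.degree_eq_sum, Mn_degree]
    _ = _ := by simp [mul_comm]

theorem symd_transv {Ω : Type} [Field Ω] [CharZero Ω] (D : ℕ) {i j : κ} (h : i ≠ j) (c : Ω) :
    (symM D (Matrix.transvection i j c)).det = 1 := by
  have h1 : ∀ c c' : Ω, (symM D (Matrix.transvection i j (c + c'))).det =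
      (symM D (Matrix.transvection i j c)).det * (symM D (Matrix.transvection i j c')).det :=
    fun c c' => by
      rw [← Matrix.transvection_mul_transvection_same _ _ h, symM_mul, Matrix.det_mul, mul_comm]
  have h2 : (symM D (Matrix.transvection i j c)).det ≠ 0 := fun h0 => by
    have := h1 c (-c)
    rw [h0, zero_mul, add_neg_cancel, Matrix.transvection_zero, ← Matrix.diagonal_one,
      symd_diag] at this
    simp at this
  let u : κ → Ω := fun a => if a = i then 2 else 1
  have h3 : Matrix.diagonal u * Matrix.transvection i j c =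
      Matrix.transvection i j (c + c) * Matrix.diagonal u := by
    ext a b
    simp only [Matrix.transvection, Matrix.diagonal_mul, Matrix.mul_diagonal, Matrix.add_apply,
      Matrix.one_apply, Matrix.single_apply, u]
    by_cases c1 : a = b
    · subst c1
      have : ¬ (i = a ∧ j = a) := fun h' => h (h'.1.trans h'.2.symm)
      simp [this]
    · by_cases c2 : i = a ∧ j = b
      · obtain ⟨rfl, rfl⟩ := c2
        simp [c1, h.symm, two_mul]
      · simp [c1, c2]
  have h4 : (symM D (Matrix.diagonal u)).det ≠ 0 := by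
    rw [symd_diag, Matrix.det_diagonal]
    refine Finset.prod_ne_zero_iff.2 fun γ _ => Finset.prod_ne_zero_iff.2 fun a _ =>
      pow_ne_zero _ ?_
    simp only [u]
    split_ifs <;> simp
  have h5 := congrArg (fun A => (symM D A).det) h3
  simp only [symM_mul, Matrix.det_mul, h1] at h5
  rw [mul_comm] at h5
  exact (mul_left_cancel₀ h2 ((mul_one _).trans (mul_left_cancel₀ h4 h5))).symm

/-- `Matrix.diagonal_transvection_induction`.  For a diagonal matrix `symM` is diagonal, and
`∑ γ, γ a` does not depend on `a` (permute the coordinates), so `card κ * ∑ γ, γ a` equals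
`D * card (Mn κ D)`.  For a transvection `T c`: `T (2 c) = T c * T c` is conjugate to `T c` by an
invertible diagonal matrix, and `symM D (T c)` is invertible, so its determinant is `1`. -/
theorem det_symM {Ω : Type} [Field Ω] [CharZero Ω] (D : ℕ) (A : Matrix κ κ Ω) :
    (symM D A).det ^ Fintype.card κ = A.det ^ (D * Fintype.card (Mn κ D)) := by
  refine Matrix.diagonal_transvection_induction
    (fun A => (symM D A).det ^ Fintype.card κ = A.det ^ (D * Fintype.card (Mn κ D))) A
    (fun v _ => ?_) (fun t => ?_) fun A B hA hB => ?_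
  · rw [symd_diag, Matrix.det_diagonal, Matrix.det_diagonal, Finset.prod_comm,
      ← Finset.prod_pow, ← Finset.prod_pow]
    refine Finset.prod_congr rfl fun a _ => ?_
    rw [Finset.prod_pow_eq_pow_sum, ← pow_mul, mul_comm, symd_sum]
  · rw [t.det, one_pow]
    obtain ⟨i, j, h, c⟩ := t
    rw [Matrix.TransvectionStruct.toMatrix_mk, symd_transv D h, one_pow]
  · simp only [symM_mul, Matrix.det_mul, mul_pow, hA, hB, mul_comm]

/-- Linearly independent functions have an invertible evaluation matrix. -/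
theorem rows {Ω B Λ : Type} [Field Ω] [Fintype B] [DecidableEq B] (f : B → Λ → Ω)
    (h : ∀ g : B → Ω, (∀ l, ∑ β, g β * f β l = 0) → g = 0) :
    ∃ r : B → Λ, (Matrix.of fun i j => f j (r i)).det ≠ 0 := by
  have hspan : Submodule.span Ω (Set.range fun l j => f j l) = ⊤ := by
    by_contra c
    obtain ⟨φ, hφ, hle⟩ := Submodule.exists_le_ker_of_lt_top _ (lt_top_iff_ne_top.2 c)
    have key : ∀ v : B → Ω, φ v = ∑ β, φ (fun j => if β = j then 1 else 0) * v β := fun v => by
      rw [LinearMap.pi_apply_eq_sum_univ φ v]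
      exact Finset.sum_congr rfl fun β _ => by rw [smul_eq_mul, mul_comm]
    have := h (fun β => φ fun j => if β = j then 1 else 0) fun l => by
      rw [← key fun j => f j l]
      exact hle (Submodule.subset_span ⟨l, rfl⟩)
    refine hφ (LinearMap.ext fun v => ?_)
    rw [key]
    exact Finset.sum_eq_zero fun β _ => by rw [congrFun this β]; simp
  obtain ⟨s, hs, hsp, hli⟩ := exists_linearIndependent Ω (Set.range fun l j => f j l)
  rw [hspan] at hsp
  let b : Module.Basis s Ω (B → Ω) := Module.Basis.mk hli (by rw [Subtype.range_coe, hsp])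
  let e : B ≃ s := (Pi.basisFun Ω B).indexEquiv b
  choose r hr using fun i => hs (e i).2
  refine ⟨r, ?_⟩
  have : LinearIndependent Ω (Matrix.of fun i j => f j (r i)).row := by
    have e2 : (Matrix.of fun i j => f j (r i)).row = (Subtype.val : s → B → Ω) ∘ e :=
      funext fun i => hr i
    rw [e2]
    exact hli.comp _ e.injective
  exact ((Matrix.isUnit_iff_isUnit_det _).1
    (Matrix.linearIndependent_rows_iff_isUnit.1 this)).ne_zero

theorem symd_sum_le {Ω : Type} [Field Ω] {av : AbsoluteValue Ω ℝ} (hna : IsNonarchimedean av)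
    {T : Type} (s : Finset T) (f : T → Ω) {B : ℝ} (hB : 0 ≤ B) (h : ∀ i ∈ s, av (f i) ≤ B) :
    av (∑ i ∈ s, f i) ≤ B := by
  classical
  induction s using Finset.induction_on with
  | empty => simpa using hB
  | insert a s ha ih =>
    rw [Finset.sum_insert ha]
    exact (hna _ _).trans (max_le (h a (Finset.mem_insert_self _ _))
      (ih fun i hi => h i (Finset.mem_insert_of_mem hi)))

theorem symd_det_le {Ω n : Type} [Field Ω] [Fintype n] [DecidableEq n] {av : AbsoluteValue Ω ℝ}
    (hna : IsNonarchimedean av) (A : Matrix n n Ω) {c : ℝ} (hc : 0 ≤ c)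
    (hA : ∀ i j, av (A i j) ≤ c) : av A.det ≤ c ^ Fintype.card n := by
  rw [Matrix.det_apply]
  refine symd_sum_le hna _ _ (by positivity) fun σ _ => ?_
  rw [AbsoluteValue.map_units_int_smul, map_prod, ← Finset.card_univ, ← Finset.prod_const]
  exact Finset.prod_le_prod (fun i _ => av.nonneg _) fun i _ => hA _ _

/-- `fromBlocks E U L 0 * fromBlocks 1 (-C) 0 1 = fromBlocks E 0 L (-(L * C))`; the determinant of
the first matrix is at most `c ^ (card P + card Q)` by the ultrametric inequality. -/
theorem det_block {Ω P Q : Type} [Field Ω] [Fintype P] [DecidableEq P] [Fintype Q] [DecidableEq Q]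
    {av : AbsoluteValue Ω ℝ} (hna : IsNonarchimedean av) (E : Matrix P P Ω) (C : Matrix P Q Ω)
    (L : Matrix Q P Ω) {c : ℝ} (hc : 0 ≤ c) (hE : ∀ i j, av (E i j) ≤ c)
    (hU : ∀ i j, av ((E * C) i j) ≤ c) (hL : ∀ i j, av (L i j) ≤ c) :
    av E.det * av (L * C).det ≤ c ^ (Fintype.card P + Fintype.card Q) := by
  have h1 : Matrix.fromBlocks E (E * C) L 0 * Matrix.fromBlocks 1 (-C) 0 (1 : Matrix Q Q Ω) =
      Matrix.fromBlocks E 0 L (-(L * C)) := by
    simp [Matrix.fromBlocks_multiply]
  have h2 := congrArg (fun A => av A.det) h1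
  simp only [Matrix.det_mul, Matrix.det_fromBlocks_zero₂₁, Matrix.det_fromBlocks_zero₁₂,
    Matrix.det_one, mul_one, Matrix.det_neg, map_mul, map_pow, AbsoluteValue.map_neg, map_one,
    one_pow, one_mul] at h2
  rw [← h2, ← Fintype.card_sum]
  refine symd_det_le hna _ hc ?_
  rintro (i | i) (j | j)
  · exact hE i j
  · exact hU i j
  · exact hL i j
  · simpa using hc

/-- A product of a block diagonal matrix and a Kronecker product. -/
theorem det_twist {Ω B Γ : Type} [Field Ω] [Fintype B] [DecidableEq B] [Fintype Γ] [DecidableEq Γ]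
    (V : Matrix B B Ω) (S : B → Matrix Γ Γ Ω) :
    (Matrix.of fun p q : B × Γ => V p.1 q.1 * S p.1 p.2 q.2).det =
      V.det ^ Fintype.card Γ * ∏ β, (S β).det := by
  have h1 : (Matrix.of fun p q : B × Γ => V p.1 q.1 * S p.1 p.2 q.2) =
      (Matrix.blockDiagonal S).submatrix (Equiv.prodComm B Γ) (Equiv.prodComm B Γ) *
        Matrix.kroneckerMap (· * ·) V (1 : Matrix Γ Γ Ω) := by
    ext p q
    rw [Matrix.mul_apply, Finset.sum_eq_single (p.1, q.2)]
    · simp [mul_comm, Matrix.blockDiagonal_apply]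
    · rintro ⟨b, g⟩ _ hb
      by_cases c : p.1 = b
      · have : g ≠ q.2 := fun h => hb (by rw [c, h])
        simp [Matrix.one_apply_ne this]
      · simp [Matrix.blockDiagonal_apply, c]
    · simp
  rw [h1, Matrix.det_mul, Matrix.det_submatrix_equiv_self, Matrix.det_blockDiagonal,
    Matrix.det_kronecker, Matrix.det_one, one_pow, mul_one, mul_comm]

end Pool.Agent.Lib.MP_0dd0d9_ag.Hi
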