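import Pool.Agent.Lib.MP_0dd0d9_ag.Hi.Loc2
import Pool.Agent.Lib.MP_0dd0d9_ag.Hi.SymD

/-!
TASK gh Det.  The local determinant inequality.
-/

namespace Pool.Agent.Lib.MP_0dd0d9_ag.Hi

open MvPolynomial

variable {ι : Type} [Fintype ι] [DecidableEq ι]

/-- The vector `(1, D Z)`. -/
def hat {K : Type} [Field K] (D : K → K) (Z : ι → K) : Option ι → K :=
  fun a => a.elim 1 fun a => D (Z a)

/-- The column functions. -/
noncomputable def col {K : Type} [Field K] (F : ι → MvPolynomial ι K) (d j : ℕ) (D : K → K)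
    (Z : ι → K) {m Dg : ℕ} (q : (ι → Fin m) × Mn (Option ι) Dg) : K :=
  aeval Z (dg F d j (box q.1)) * ∏ a, hat D Z a ^ q.2.1 a

/-- The matrix of the tangent map in homogeneous coordinates. -/
noncomputable def tanM {K : Type} [Field K] (D : K → K) (G : ι → MvPolynomial ι K) :
    Matrix (Option ι) (Option ι) (MvPolynomial ι K) :=
  Matrix.of fun a b => a.elim (b.elim 1 fun _ => 0) fun a =>
    b.elim (dco D (G a)) fun b => pderiv b (G a)

section
variable {K : Type} [Field K]

theorem tanM_det (D : K → K) (G : ι → MvPolynomial ι K) : (tanM D G).det = jac G := by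
  rw [← Matrix.det_submatrix_equiv_self (Equiv.optionEquivSumPUnit.{0, 0} ι).symm (tanM D G)]
  have : (tanM D G).submatrix (Equiv.optionEquivSumPUnit.{0, 0} ι).symm
      (Equiv.optionEquivSumPUnit.{0, 0} ι).symm =
      Matrix.fromBlocks (jm G) (Matrix.of fun a _ => dco D (G a)) 0 1 := by
    ext (a | a) (b | b) : 2 <;> simp [tanM, jm]
  rw [this, Matrix.det_fromBlocks_zero₂₁, Matrix.det_one, mul_one, jac]

/-- `der_aeval_dco`. -/
theorem tanM_hat {A : Type} [CommRing A] [Algebra A K] (D : Derivation A K K)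
    (G : ι → MvPolynomial ι K) (Z : ι → K) :
    hat D (ap G Z) = ((tanM D G).map (aeval Z)).mulVec (hat D Z) := by
  funext a
  cases a with
  | none => simp [hat, tanM, Matrix.mulVec, dotProduct, Fintype.sum_option]
  | some a =>
    simp only [hat, tanM, Matrix.mulVec, dotProduct, Fintype.sum_option, Matrix.map_apply,
      Matrix.of_apply, Option.elim, mul_one, ap]
    exact der_aeval_dco D (G a) Z

theorem det_coeff_mul {κ : Type} [DecidableEq κ] {p q : MvPolynomial κ (MvPolynomial ι K)}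
    {m n : ℕ} (hp : ∀ α, (coeff α p).totalDegree ≤ m) (hq : ∀ α, (coeff α q).totalDegree ≤ n)
    (α : κ →₀ ℕ) : (coeff α (p * q)).totalDegree ≤ m + n := by
  rw [coeff_mul]
  exact totalDegree_finsetSum_le fun x _ =>
    (totalDegree_mul _ _).trans (Nat.add_le_add (hp _) (hq _))

theorem det_coeff_one {κ : Type} [DecidableEq κ] (α : κ →₀ ℕ) :
    (coeff α (1 : MvPolynomial κ (MvPolynomial ι K))).totalDegree ≤ 0 := by
  rw [coeff_one]
  split_ifs <;> simp

theorem det_coeff_pow {κ : Type} [DecidableEq κ] {p : MvPolynomial κ (MvPolynomial ι K)}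
    {m : ℕ} (hp : ∀ α, (coeff α p).totalDegree ≤ m) (n : ℕ) (α : κ →₀ ℕ) :
    (coeff α (p ^ n)).totalDegree ≤ n * m := by
  induction n generalizing α with
  | zero => simpa using det_coeff_one α
  | succ n ih =>
    rw [pow_succ, Nat.succ_mul]
    exact det_coeff_mul ih hp α

theorem det_symM_deg {κ : Type} [Fintype κ] [DecidableEq κ] {A : Matrix κ κ (MvPolynomial ι K)}
    {q : ℕ} (hA : ∀ a b, (A a b).totalDegree ≤ q) (Dg : ℕ) (γ' γ : Mn κ Dg) :
    (symM Dg A γ' γ).totalDegree ≤ Dg * q := by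
  have hl : ∀ a α, (coeff α (lin A a)).totalDegree ≤ q := by
    intro a α
    rw [lin, coeff_sum]
    refine totalDegree_finsetSum_le fun b _ => ?_
    rw [coeff_C_mul, coeff_X]
    split_ifs
    · simpa using hA a b
    · simp
  have key : ∀ (s : Finset κ) (α : κ →₀ ℕ),
      (coeff α (∏ a ∈ s, lin A a ^ γ.1 a)).totalDegree ≤ (∑ a ∈ s, γ.1 a) * q := by
    intro s
    induction s using Finset.induction_on with
    | empty => simpa using det_coeff_one
    | insert a s ha ih =>
      intro α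
      rw [Finset.prod_insert ha, Finset.sum_insert ha, add_mul]
      exact det_coeff_mul (det_coeff_pow (hl a) _) ih α
  have h := key Finset.univ γ'.1
  rwa [← Finsupp.degree_eq_sum, Mn_degree] at h

/-- The entries of `symM Dg (tanM D G)` have total degree at most `Dg * q`; the products with the
digit polynomials have degree at most `M (d ^ j - 1) + d ^ j`; expand them with `Dig`. -/
theorem exists_C {d : ℕ} (hd : 2 ≤ d) {F : ι → MvPolynomial ι K} (hF : Hm F d) (h : Dig d F)
    {D : K → K} (hD : D 0 = 0) {J j Dg : ℕ} (hDg : Dg * d ^ J ≤ d ^ j) :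
    ∃ c : (ι → Fin ((Fintype.card ι + 2) * d ^ j)) → (ι → Fin (d ^ j)) → Mn (Option ι) Dg →
        Mn (Option ι) Dg → K, ∀ β γ' γ,
      dg F d j (box β) * symM Dg (tanM D (itr F J)) γ' γ =
        ∑ β', C (c β' β γ' γ) * dg F d j (box β') := by
  have hq : ∀ a b, (tanM D (itr F J) a b).totalDegree ≤ d ^ J := by
    intro a b
    cases a with
    | none => cases b <;> simp [tanM]
    | some a =>
      cases b with
      | none => exact (totalDegree_dco hD _).trans (hF.iter J a).totalDegree_le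
      | some b => exact (hF.iter J a).pderiv.totalDegree_le.trans (Nat.sub_le _ _)
  have hd0 : 0 < d ^ j := pow_pos (by omega) j
  have key : ∀ (β : ι → Fin (d ^ j)) (γ' γ : Mn (Option ι) Dg),
      ∃ c : (ι → Fin ((Fintype.card ι + 2) * d ^ j)) → K,
        dg F d j (box β) * symM Dg (tanM D (itr F J)) γ' γ =
          ∑ β', C (c β') * dg F d j (box β') := by
    intro β γ' γ
    have h1 : (box β).degree ≤ Fintype.card ι * d ^ j := by
      rw [Finsupp.degree_eq_sum]
      refine (Finset.sum_le_card_nsmul _ _ (d ^ j) fun a _ => (β a).isLt.le).trans ?_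
      simp
    have h2 : (dg F d j (box β) * symM Dg (tanM D (itr F J)) γ' γ).totalDegree <
        (Fintype.card ι + 2) * d ^ j := by
      have h3 := totalDegree_mul (dg F d j (box β)) (symM Dg (tanM D (itr F J)) γ' γ)
      have h4 := (dg_hom hF j (box β)).totalDegree_le
      have h5 := det_symM_deg hq Dg γ' γ
      rw [add_mul]
      omega
    have h6 := (h j).2 (dg F d j (box β) * symM Dg (tanM D (itr F J)) γ' γ)
    have h7 : dg F d j '' {β₁ | β₁.degree ≤
        (dg F d j (box β) * symM Dg (tanM D (itr F J)) γ' γ).totalDegree} ⊆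
        Set.range fun β' : ι → Fin ((Fintype.card ι + 2) * d ^ j) => dg F d j (box β') := by
      rintro _ ⟨β₁, hβ₁, rfl⟩
      refine ⟨fun a => ⟨β₁ a, ((Finsupp.le_degree a β₁).trans hβ₁).trans_lt h2⟩, ?_⟩
      exact congrArg (dg F d j) (Finsupp.ext fun a => rfl)
    obtain ⟨c, hc⟩ := (Submodule.mem_span_range_iff_exists_fun K).1 (Submodule.span_mono h7 h6)
    refine ⟨c, ?_⟩
    rw [← hc]
    exact Finset.sum_congr rfl fun β' _ => smul_eq_C_mul _ _
  choose c hc using key
  exact ⟨fun β' β γ' γ => c β γ' γ β', hc⟩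

end

variable {K Ω : Type} [Field K] [CharZero K] [Field Ω] [Algebra K Ω] [IsAlgClosed Ω]
variable {d : ℕ} {F : ι → MvPolynomial ι K} {x : ι → Ω} {av : AbsoluteValue Ω ℝ} {H : ℝ}

theorem dg_le (hd : 2 ≤ d) (hH : 0 ≤ H) {j : ℕ} {y : ι → Ω}
    (hy : ∀ i ≤ j, ∀ a, av ((ap F)^[i] y a) ≤ Real.exp H) {β : ι →₀ ℕ}
    (hβ : ∀ a, β a < (Fintype.card ι + 2) * d ^ j) :
    av (aeval y (dg F d j β)) ≤
      Real.exp (Fintype.card ι * (Fintype.card ι + d + 2) * (j + 1) * H) := by
  have hd0 : 0 < d ^ j := pow_pos (by omega) j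
  have hpow : ∀ i ≤ j, ∀ a (k n : ℕ), k ≤ n →
      av (aeval y (itr F i a ^ k)) ≤ Real.exp (n * H) := by
    intro i hi a k n hk
    rw [map_pow, map_pow, Real.exp_nat_mul]
    have h1 : av (aeval y (itr F i a)) ≤ Real.exp H := by
      have := hy i hi a
      rwa [← ap_itr] at this
    exact (pow_le_pow_left₀ (av.nonneg _) h1 k).trans
      (pow_le_pow_right₀ (Real.one_le_exp hH) hk)
  have hprod : ∀ i ≤ j, ∀ (k : ι → ℕ) (n : ℕ), (∀ a, k a ≤ n) →
      av (aeval y (∏ a, itr F i a ^ k a)) ≤ Real.exp (Fintype.card ι * (n * H)) := by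
    intro i hi k n hk
    rw [map_prod, map_prod, Real.exp_nat_mul, ← Finset.card_univ, ← Finset.prod_const]
    exact Finset.prod_le_prod (fun _ _ => av.nonneg _) fun a _ => hpow i hi a _ _ (hk a)
  have h1 : av (aeval y (∏ i ∈ Finset.range j, ∏ a, itr F i a ^ (β a / d ^ i % d))) ≤
      Real.exp (j * (Fintype.card ι * (d * H))) := by
    rw [map_prod, map_prod, Real.exp_nat_mul]
    refine (Finset.prod_le_prod (fun _ _ => av.nonneg _) fun i hi =>
      hprod i (Finset.mem_range.1 hi).le _ d fun a => (Nat.mod_lt _ (by omega)).le).trans ?_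
    rw [Finset.prod_const, Finset.card_range]
  have h2 := hprod j le_rfl (fun a => β a / d ^ j) (Fintype.card ι + 2) fun a =>
    ((Nat.div_lt_iff_lt_mul hd0).2 (hβ a)).le
  rw [dg, map_mul, map_mul]
  refine (mul_le_mul h1 h2 (av.nonneg _) (Real.exp_pos _).le).trans ?_
  rw [← Real.exp_add, Real.exp_le_exp]
  push_cast
  have hM : (0 : ℝ) ≤ Fintype.card ι := Nat.cast_nonneg _
  have hj : (0 : ℝ) ≤ j := Nat.cast_nonneg _
  have hd' : (0 : ℝ) ≤ d := Nat.cast_nonneg _
  have e1 : 0 ≤ (Fintype.card ι : ℝ) * (Fintype.card ι + 2) * j * H := by positivity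
  have e2 : 0 ≤ (Fintype.card ι : ℝ) * d * H := by positivity
  nlinarith

omit [Fintype ι] [DecidableEq ι] [CharZero K] [IsAlgClosed Ω] in
theorem det_map_aeval (Z : ι → K) (p : MvPolynomial ι K) :
    algebraMap K Ω (aeval Z p) = aeval (fun a => algebraMap K Ω (Z a)) p :=
  (aeval_algebraMap_apply Ω Z p).symm

omit [Fintype ι] [DecidableEq ι] [CharZero K] [IsAlgClosed Ω] in
theorem det_iter_map (F : ι → MvPolynomial ι K) (Z : ι → K) (i : ℕ) (a : ι) :
    (ap F)^[i] (fun a => algebraMap K Ω (Z a)) a = algebraMap K Ω ((ap F)^[i] Z a) := by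
  rw [← ap_itr, ← ap_itr]
  exact (det_map_aeval Z _).symm

theorem det_entry_le (hd : 2 ≤ d) (hH : 0 ≤ H) {D : K → K} {j Dg : ℕ} {H' : ℝ} (hH' : 0 ≤ H')
    {Z Z' : ι → K} (hZ : ∀ i a, av (algebraMap K Ω ((ap F)^[i] Z a)) ≤ Real.exp H)
    (hZ' : ∀ a, av (algebraMap K Ω (D (Z' a))) ≤ Real.exp H') {β : ι →₀ ℕ}
    (hβ : ∀ a, β a < (Fintype.card ι + 2) * d ^ j) (γ : Mn (Option ι) Dg) :
    av (algebraMap K Ω (aeval Z (dg F d j β) * ∏ a, hat D Z' a ^ γ.1 a)) ≤
      Real.exp (Fintype.card ι * (Fintype.card ι + d + 2) * (j + 1) * H + Dg * H') := by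
  rw [map_mul, map_mul, Real.exp_add, det_map_aeval]
  refine mul_le_mul (dg_le hd hH (fun i _ a => ?_) hβ) ?_ (av.nonneg _) (Real.exp_pos _).le
  · rw [det_iter_map]
    exact hZ i a
  · have hs : ∑ a, γ.1 a = Dg := by rw [← Finsupp.degree_eq_sum]; exact Mn_degree γ
    have hp : Real.exp H' ^ Dg = ∏ a, Real.exp H' ^ γ.1 a := by
      rw [Finset.prod_pow_eq_pow_sum, hs]
    rw [map_prod, map_prod, Real.exp_nat_mul, hp]
    refine Finset.prod_le_prod (fun _ _ => av.nonneg _) fun a _ => ?_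
    rw [map_pow, map_pow]
    refine pow_le_pow_left₀ (av.nonneg _) ?_ _
    cases a with
    | none => simpa [hat] using hH'
    | some a => exact hZ' a

/-- `det_block` over `Ω` with `E` the given matrix, `C (β', γ') (β, γ) = c β' β γ' γ`
(`exists_C`) and `L (β₀, γ₀) (β', γ') = if γ₀ = γ' then dg (box β') (e β₀) else 0`, where `e` is a
bijection onto the fibre (`LS.card_fib`).  By `symM_eval` and `tanM_hat`,
`(E * C) p (β, γ) = dg (box β) (r p) * ∏ hat D (F^[J] (r p)) a ^ γ a`; and `L * C` has the form of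
`det_twist` with `S β₀ = symM Dg (tanM at e β₀)`.  Use `det_symM`, `tanM_det`, `LS.av_jac`. -/
theorem LS.det_loc (h : LS d F x av H) {A : Type} [CommRing A] [Algebra A K]
    (D : Derivation A K K) {J j Dg : ℕ} (hJ : J ≤ j) (hDg : Dg * d ^ J ≤ d ^ j)
    (𝒵 : Set (ι → K)) (hcl : ∀ Z ∈ 𝒵, ap F Z ∈ 𝒵) {H' : ℝ} (hH' : 0 ≤ H')
    (hZ : ∀ Z ∈ 𝒵, ∀ a, av (algebraMap K Ω (Z a)) ≤ Real.exp H ∧
      av (algebraMap K Ω (D (Z a))) ≤ Real.exp H')
    (r : (ι → Fin ((Fintype.card ι + 2) * d ^ j)) × Mn (Option ι) Dg → ι → K) (hr : ∀ p, r p ∈ 𝒵)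
    (hE : (Matrix.of fun p q => col F d j D (r p) q).det ≠ 0) (Δ : MvPolynomial ι K)
    (hΔ : ∀ e : (ι → Fin (d ^ j)) ≃ fib (itr F j) x,
      aeval x Δ = (Matrix.of fun β β' => aeval (e β).1 (dg F d j (box β'))).det ^ 2)
    (α : ι →₀ ℕ) (hα : coeff α Δ ≠ 0) :
    Real.log (av (algebraMap K Ω (Matrix.of fun p q => col F d j D (r p) q).det)) +
      Fintype.card (Mn (Option ι) Dg) / 2 * Real.log (av (algebraMap K Ω (coeff α Δ))) +
      Dg * Fintype.card (Mn (Option ι) Dg) / (Fintype.card ι + 1) * ((d : ℝ) ^ j) ^ Fintype.card ι *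
        ∑ i ∈ Finset.range J, lam F d av x (j - i) ≤
    (((Fintype.card ι : ℝ) + 2) ^ Fintype.card ι + 1) * ((d : ℝ) ^ j) ^ Fintype.card ι *
      Fintype.card (Mn (Option ι) Dg) *
      (Fintype.card ι * (Fintype.card ι + d + 2) * (j + 1) * H + Dg * H') := by
  have : CharZero Ω := charZero_of_injective_algebraMap (algebraMap K Ω).injective
  have hd := h.hd
  have hd0 : 0 < d ^ j := pow_pos (by omega) j
  obtain ⟨c, hc⟩ := exists_C hd h.hm h.dig (D := D) (map_zero D) hDg
  have hx0 : x ∈ fib (itr F 0) x := by rw [h.fib_zero]; exact Finset.mem_singleton_self x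
  have hcard : Fintype.card (ι → Fin (d ^ j)) = Fintype.card (fib (itr F j) x) := by
    rw [Fintype.card_coe, h.card_fib hx0, Fintype.card_fun, Fintype.card_fin, ← pow_mul, ← pow_mul,
      mul_comm]
  let e : (ι → Fin (d ^ j)) ≃ fib (itr F j) x := Fintype.equivOfCardEq hcard
  have hit : ∀ Z ∈ 𝒵, ∀ i, (ap F)^[i] Z ∈ 𝒵 := by
    intro Z hZ' i
    induction i with
    | zero => exact hZ'
    | succ i ih => rw [Function.iterate_succ_apply']; exact hcl _ ih
  have hbox : ∀ (β : ι → Fin (d ^ j)) a, box β a < (Fintype.card ι + 2) * d ^ j := fun β a =>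
    lt_of_lt_of_le (β a).isLt (Nat.le_mul_of_pos_left _ (by omega))
  set c0 : ℝ := Fintype.card ι * (Fintype.card ι + d + 2) * (j + 1) * H + Dg * H' with hc0
  let E : Matrix ((ι → Fin ((Fintype.card ι + 2) * d ^ j)) × Mn (Option ι) Dg)
      ((ι → Fin ((Fintype.card ι + 2) * d ^ j)) × Mn (Option ι) Dg) Ω :=
    (algebraMap K Ω).mapMatrix (Matrix.of fun p q => col F d j D (r p) q)
  let Cm : Matrix ((ι → Fin ((Fintype.card ι + 2) * d ^ j)) × Mn (Option ι) Dg)
      ((ι → Fin (d ^ j)) × Mn (Option ι) Dg) Ω :=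
    Matrix.of fun p q => algebraMap K Ω (c p.1 q.1 p.2 q.2)
  let L : Matrix ((ι → Fin (d ^ j)) × Mn (Option ι) Dg)
      ((ι → Fin ((Fintype.card ι + 2) * d ^ j)) × Mn (Option ι) Dg) Ω :=
    Matrix.of fun q p => if q.2 = p.2 then aeval (e q.1).1 (dg F d j (box p.1)) else 0
  let V : Matrix (ι → Fin (d ^ j)) (ι → Fin (d ^ j)) Ω :=
    Matrix.of fun β β' => aeval (e β).1 (dg F d j (box β'))
  let S : (ι → Fin (d ^ j)) → Matrix (Mn (Option ι) Dg) (Mn (Option ι) Dg) Ω := fun β =>
    symM Dg ((tanM D (itr F J)).map (aeval (e β).1 : MvPolynomial ι K →ₐ[K] Ω).toRingHom)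
  have hEle : ∀ p q, av (E p q) ≤ Real.exp c0 := fun p q =>
    det_entry_le hd h.H0 hH' (fun i a => (hZ _ (hit _ (hr p) i) a).1)
      (fun a => (hZ _ (hr p) a).2) (fun a => (q.1 a).isLt) q.2
  have hU : ∀ p q, (E * Cm) p q = algebraMap K Ω (aeval (r p) (dg F d j (box q.1)) *
      ∏ a, hat D ((ap F)^[J] (r p)) a ^ q.2.1 a) := by
    intro p q
    rw [← ap_itr, tanM_hat, symM_eval, Finset.mul_sum, Matrix.mul_apply, Fintype.sum_prod_type,
      Finset.sum_comm, map_sum]
    refine Finset.sum_congr rfl fun γ' _ => ?_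
    have h1 := congrArg (aeval (r p)) (hc q.1 γ' q.2)
    have h2 := congrFun (congrFun (symM_map (aeval (r p) : MvPolynomial ι K →ₐ[K] K).toRingHom Dg
      (tanM D (itr F J))) γ') q.2
    have h3 : symM Dg ((tanM D (itr F J)).map (aeval (r p))) γ' q.2 =
        aeval (r p) (symM Dg (tanM D (itr F J)) γ' q.2) := h2.symm
    rw [map_mul, map_sum] at h1
    rw [h3, ← mul_assoc, h1, Finset.sum_mul, map_sum]
    refine Finset.sum_congr rfl fun β' _ => ?_
    simp only [E, Cm, RingHom.mapMatrix_apply, Matrix.map_apply, Matrix.of_apply, col, map_mul,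
      aeval_C, Algebra.algebraMap_self_apply]
    ring
  have hUle : ∀ p q, av ((E * Cm) p q) ≤ Real.exp c0 := fun p q => by
    rw [hU]
    exact det_entry_le hd h.H0 hH' (fun i a => (hZ _ (hit _ (hr p) i) a).1)
      (fun a => (hZ _ (hit _ (hr p) J) a).2) (hbox q.1) q.2
  have hLle : ∀ q p, av (L q p) ≤ Real.exp c0 := fun q p => by
    simp only [L, Matrix.of_apply]
    split_ifs
    · refine (dg_le hd h.H0 (fun i hi a => h.tree_bd (e q.1).2 hi a)
        fun a => (p.1 a).isLt).trans (Real.exp_le_exp.2 ?_)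
      have : 0 ≤ (Dg : ℝ) * H' := by positivity
      linarith
    · rw [map_zero]
      exact (Real.exp_pos _).le
  have hLC : L * Cm = Matrix.of fun p q => V p.1 q.1 * S p.1 p.2 q.2 := by
    ext p q
    have h1 := congrArg (aeval (e p.1).1) (hc q.1 p.2 q.2)
    have h2 := congrFun (congrFun (symM_map
      (aeval (e p.1).1 : MvPolynomial ι K →ₐ[K] Ω).toRingHom Dg (tanM D (itr F J))) p.2) q.2
    have h3 : S p.1 p.2 q.2 = aeval (e p.1).1 (symM Dg (tanM D (itr F J)) p.2 q.2) := h2.symm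
    rw [map_mul, map_sum] at h1
    rw [Matrix.of_apply, h3]
    refine Eq.trans ?_ h1.symm
    rw [Matrix.mul_apply, Fintype.sum_prod_type]
    refine Finset.sum_congr rfl fun β' _ => ?_
    simp only [L, Cm, Matrix.of_apply, ite_mul, zero_mul, Finset.sum_ite_eq, Finset.mem_univ,
      if_true, map_mul, aeval_C]
    ring
  have hmain := det_block h.na E Cm L (Real.exp_pos c0).le hEle hUle hLle
  rw [hLC, det_twist, ← RingHom.map_det] at hmain
  have hE0 : 0 < av (algebraMap K Ω (Matrix.of fun p q => col F d j D (r p) q).det) :=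
    av.pos ((map_ne_zero _).2 hE)
  have hα0 : 0 < av (algebraMap K Ω (coeff α Δ)) := av.pos ((map_ne_zero _).2 hα)
  have hΔ1 : av (algebraMap K Ω (coeff α Δ)) ≤ av V.det ^ 2 := by
    have := h.gauss Δ α
    rwa [hΔ e, map_pow] at this
  have hV0 : 0 < av V.det := by
    rcases (av.nonneg V.det).lt_or_eq with h1 | h1
    · exact h1
    · rw [← h1] at hΔ1
      linarith
  have hV : Real.log (av (algebraMap K Ω (coeff α Δ))) ≤ 2 * Real.log (av V.det) := by
    have := Real.log_le_log hα0 hΔ1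
    rwa [Real.log_pow, Nat.cast_ofNat] at this
  have hjac : ∀ β, aeval (e β).1 (jac (itr F J)) ≠ 0 := by
    intro β
    have h1 := (h.t1 (e β).2).1
    rw [aeval_jac_itr, Finset.prod_ne_zero_iff] at h1 ⊢
    exact fun i hi => h1 i (Finset.mem_range.2 ((Finset.mem_range.1 hi).trans_le hJ))
  have hS : ∀ β, av (S β).det ^ (Fintype.card ι + 1) =
      av (aeval (e β).1 (jac (itr F J))) ^ (Dg * Fintype.card (Mn (Option ι) Dg)) := by
    intro β
    have h1 := det_symM Dg
      ((tanM D (itr F J)).map (aeval (e β).1 : MvPolynomial ι K →ₐ[K] Ω).toRingHom)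
    rw [Fintype.card_option, ← RingHom.mapMatrix_apply, ← RingHom.map_det, tanM_det] at h1
    rw [← map_pow, ← map_pow]
    exact congrArg av h1
  have hS0 : ∀ β, av (S β).det ≠ 0 := by
    intro β h1
    have h2 := hS β
    rw [h1, zero_pow (Nat.succ_ne_zero _)] at h2
    exact pow_ne_zero _ (av.pos (hjac β)).ne' h2.symm
  have hM1 : (0 : ℝ) < (Fintype.card ι : ℝ) + 1 := by positivity
  have hSl : ∀ β, Real.log (av (S β).det) = Dg * Fintype.card (Mn (Option ι) Dg) /
      (Fintype.card ι + 1) * lg av (jac (itr F J)) (e β).1 := by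
    intro β
    have h1 := congrArg Real.log (hS β)
    rw [Real.log_pow, Real.log_pow] at h1
    push_cast at h1
    rw [lg, div_mul_eq_mul_div, eq_div_iff hM1.ne', ← h1, mul_comm]
  have hdj : (0 : ℝ) < ((d : ℝ) ^ j) ^ Fintype.card ι := by
    have : (0 : ℝ) < d := by exact_mod_cast (by omega : 0 < d)
    positivity
  have hsum : ∑ β, lg av (jac (itr F J)) (e β).1 =
      ((d : ℝ) ^ j) ^ Fintype.card ι * ∑ i ∈ Finset.range J, lam F d av x (j - i) := by
    have h1 := h.av_jac hJ hx0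
    rw [Av, div_eq_iff hdj.ne'] at h1
    rw [Equiv.sum_comp e fun z => lg av (jac (itr F J)) z.1,
      Finset.sum_coe_sort (fib (itr F j) x) (lg av (jac (itr F J))), h1, mul_comm]
    rfl
  have hpos : 0 < av (V.det ^ Fintype.card (Mn (Option ι) Dg) * ∏ β, (S β).det) := by
    rw [map_mul, map_pow, map_prod]
    exact mul_pos (pow_pos hV0 _) (Finset.prod_pos fun β _ =>
      lt_of_le_of_ne (av.nonneg _) (hS0 β).symm)
  have hlog := Real.log_le_log (mul_pos hE0 hpos) hmain
  rw [Real.log_mul hE0.ne' hpos.ne', Real.log_pow, Real.log_exp, map_mul, map_pow, map_prod,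
    Real.log_mul (pow_pos hV0 _).ne' (Finset.prod_ne_zero_iff.2 fun β _ => hS0 β), Real.log_pow,
    Real.log_prod fun β _ => hS0 β, Finset.sum_congr rfl fun β _ => hSl β, ← Finset.mul_sum,
    hsum] at hlog
  simp only [Fintype.card_prod, Fintype.card_fun, Fintype.card_fin] at hlog
  push_cast at hlog
  have hN : (0 : ℝ) ≤ Fintype.card (Mn (Option ι) Dg) := Nat.cast_nonneg _
  have h2 := mul_le_mul_of_nonneg_left hV hN
  rw [mul_pow] at hlog
  linarith

end Pool.Agent.Lib.MP_0dd0d9_ag.Hi
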