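import Pool.Agent.Lib.MP_0dd0d9_ag.Hi.GP1
import Pool.Agent.Lib.MP_0dd0d9_ag.Hi.Det

/-!
TASK gh Cyc.  The lifted cycle at a good place; independence of the column functions.
-/

namespace Pool.Agent.Lib.MP_0dd0d9_ag.Hi

open MvPolynomial

variable {ι : Type} [Fintype ι] [DecidableEq ι] {d : ℕ}
variable {Ω : Type} [Field Ω] [Algebra ℂ Ω]

/-- `F^[n] p = μ • p` with `μ ≠ 0` (`Reg.iter`, `Reg.nz`); take `t ^ (d ^ n - 1) = μ⁻¹`. -/
theorem cyc_lift [IsAlgClosed Ω] (hd : 2 ≤ d) {n : ℕ} (hn : 1 ≤ n) {F : ι → MvPolynomial ι Ω}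
    (hF : Hm F d) (hreg : Reg F) {p : ι → Ω} (hp : p ≠ 0) (h : ∃ μ : Ω, (ap F)^[n] p = μ • p) :
    ∃ t : Ω, t ≠ 0 ∧ (ap F)^[n] (t • p) = t • p := by
  obtain ⟨μ, hμ⟩ := h
  have h0 : μ ≠ 0 := by
    rintro rfl
    exact hp ((hreg.iter n).nz (by rw [ap_itr, hμ, zero_smul]))
  have h1 : 1 < d ^ n := Nat.one_lt_pow (by omega) hd
  obtain ⟨t, ht⟩ := IsAlgClosed.exists_pow_nat_eq μ⁻¹ (n := d ^ n - 1) (by omega)
  refine ⟨t, ?_, ?_⟩
  · rintro rfl
    rw [zero_pow (by omega)] at ht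
    exact inv_ne_zero h0 ht.symm
  · rw [hF.ap_iter_smul, hμ, smul_smul, ← Nat.sub_add_cancel h1.le, pow_succ', ht, mul_assoc,
      inv_mul_cancel₀ h0, mul_one]

/-- The elements `z` with `|z| ≤ 1` and `|D z| ≤ 1` form a subring `T` that contains the constants,
the `c x` and the `p a`, so it contains `μ = (F^[n] p) b`, and `t ^ (d ^ n - 1) * μ = 1`.
Iterating `hlow` backwards gives `1 = |p b| ≤ |μ| ^ (1 / d ^ n)`, so `|μ| = |t| = 1`;
differentiating the relation gives `|D t| ≤ 1`. -/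
theorem cyc_good (hd : 2 ≤ d) {n : ℕ} (hn : 1 ≤ n) {av : AbsoluteValue Ω ℝ}
    (hna : IsNonarchimedean av) (hC : ∀ a : ℂ, a ≠ 0 → av (algebraMap ℂ Ω a) = 1)
    (D : Derivation ℂ Ω Ω) {c : ι × Mn ι d → Ω} (hc : ∀ x, av (c x) ≤ 1 ∧ av (D (c x)) ≤ 1)
    {p : ι → Ω} (hp : ∀ a, av (p a) ≤ 1 ∧ av (D (p a)) ≤ 1) {b : ι} (hb : p b = 1)
    (hlow : ∀ (y : ι → Ω) (ρ : ℝ), (∀ a, av (ap (Fp c) y a) ≤ ρ) → ∀ a, av (y a) ^ d ≤ ρ)
    {t : Ω} (ht : t ≠ 0) (hper : (ap (Fp c))^[n] (t • p) = t • p) (l : Ix d n) (a : ι) :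
    av (D (orb (Fp c) (t • p) l a)) ≤ 1 := by
  let T : Subring Ω :=
    { carrier := {z | av z ≤ 1 ∧ av (D z) ≤ 1}
      mul_mem' := fun {x y} hx hy => by
        refine ⟨by rw [map_mul]; exact mul_le_one₀ hx.1 (av.nonneg _) hy.1, ?_⟩
        rw [D.leibniz, smul_eq_mul, smul_eq_mul]
        refine (hna _ _).trans (max_le ?_ ?_) <;> rw [map_mul]
        exacts [mul_le_one₀ hx.1 (av.nonneg _) hy.2, mul_le_one₀ hy.1 (av.nonneg _) hx.2]
      one_mem' := by simp
      add_mem' := fun {x y} hx hy => ⟨(hna _ _).trans (max_le hx.1 hy.1), by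
        rw [map_add]; exact (hna _ _).trans (max_le hx.2 hy.2)⟩
      zero_mem' := by simp
      neg_mem' := fun {x} hx => by simpa using hx }
  have hT : ∀ i (y : ι → Ω), (∀ a, y a ∈ T) → ∀ a, (ap (Fp c))^[i] y a ∈ T := by
    intro i
    induction i with
    | zero => exact fun y hy => hy
    | succ i ih =>
      intro y hy
      refine ih _ fun a => ?_
      rw [aeval_Fp]
      exact sum_mem fun δ _ => mul_mem (hc _) (prod_mem fun b _ => pow_mem (hy b) _)
  have hlt : ∀ i (y : ι → Ω), (∀ a, av ((ap (Fp c))^[i] y a) < 1) → ∀ a, av (y a) < 1 := by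
    intro i
    induction i with
    | zero => exact fun y hy => hy
    | succ i ih =>
      intro y hy a
      obtain ⟨a', -, ha'⟩ := Finset.exists_max_image Finset.univ
        (fun a => av (ap (Fp c) y a)) ⟨a, Finset.mem_univ a⟩
      exact (pow_lt_one_iff_of_nonneg (av.nonneg _) (by omega)).1
        ((hlow y _ (fun a => ha' a (Finset.mem_univ a)) a).trans_lt (ih _ hy a'))
  have h1 : 1 < d ^ n := Nat.one_lt_pow (by omega) hd
  obtain ⟨N, hN⟩ : ∃ N, d ^ n = N + 1 + 1 := ⟨d ^ n - 2, by omega⟩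
  have h2 : ∀ a, t ^ (N + 1) * (ap (Fp c))^[n] p a = p a := fun a => by
    have := congrFun hper a
    rw [(Fp_hm c).ap_iter_smul, hN] at this
    refine mul_left_cancel₀ ht ?_
    rw [← mul_assoc, ← pow_succ']
    exact this
  obtain ⟨μ, hμ⟩ : ∃ μ, μ = (ap (Fp c))^[n] p b := ⟨_, rfl⟩
  have hμT : μ ∈ T := hμ ▸ hT n p hp b
  have h3 : t ^ (N + 1) * μ = 1 := by rw [hμ, h2, hb]
  have h4 : av μ = 1 := by
    refine hμT.1.eq_or_lt.resolve_right fun h => ?_
    refine (hlt n p (fun a => ?_) b).ne (by rw [hb, map_one])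
    have : (ap (Fp c))^[n] p a = μ * p a := by
      rw [← h2 a, ← mul_assoc, mul_comm μ, h3, one_mul]
    rw [this, map_mul]
    exact mul_lt_one_of_nonneg_of_lt_one_left (av.nonneg _) h (hp a).1
  have h5 : av t = 1 := by
    have := congrArg av h3
    rw [map_mul, h4, mul_one, map_pow, map_one] at this
    exact (pow_eq_one_iff_of_nonneg (av.nonneg _) (by omega)).1 this
  have h6 : av (D t) ≤ 1 := by
    have e := congrArg D h3
    rw [D.leibniz, D.leibniz_pow, D.map_one_eq_zero, Nat.add_sub_cancel] at e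
    have e' : t ^ (N + 1) * D μ = -(μ * (algebraMap ℂ Ω ((N + 1 : ℕ) : ℂ) * (t ^ N * D t))) := by
      rw [map_natCast]
      simp only [smul_eq_mul, nsmul_eq_mul] at e
      linear_combination e
    have := congrArg av e'
    simp only [AbsoluteValue.map_neg, map_mul, map_pow, h4, h5, one_pow, one_mul,
      hC _ (Nat.cast_ne_zero.2 N.succ_ne_zero)] at this
    exact this ▸ hμT.2
  have h7 : algebraMap ℂ Ω l.1.1 ∈ T := by
    refine ⟨?_, by simp⟩
    rcases eq_or_ne l.1.1 0 with h | h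
    · simp [h]
    · exact (hC _ h).le
  exact (mul_mem h7 (hT l.2 (t • p) (fun a => mul_mem (⟨h5.le, h6⟩ : t ∈ T) (hp a)) a)).2

/-- A linear relation between the columns is a polynomial
`∑ g q • rename inl (dg (box q.1)) * ∏ X (inr a) ^ q.2 (some a)` of degree at most
`M * m + Dg` that vanishes on the family; it is zero, and the exponent at `none` is determined by
the others.  Then `rows`. -/
theorem rows_col {F : ι → MvPolynomial ι Ω} (hF : Hm F d) (h : Dig d F) (D : Ω → Ω) {Λ : Type}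
    (Z : Λ → ι → Ω) (j m Dg : ℕ)
    (hZ : NoRel (Fintype.card ι * m + Dg) fun l => Sum.elim (Z l) (D ∘ Z l)) :
    ∃ r : (ι → Fin m) × Mn (Option ι) Dg → Λ,
      (Matrix.of fun p q => col F d j D (Z (r p)) q).det ≠ 0 := by
  refine rows (fun q l => col F d j D (Z l) q) fun g hg => ?_
  have h0 := hZ (∑ q : (ι → Fin m) × Mn (Option ι) Dg, C (g q) *
    (rename Sum.inl (dg F d j (box q.1)) * ∏ a, X (Sum.inr a) ^ q.2.1 (some a))) ?_ fun l => ?_
  · let ψ : MvPolynomial (ι ⊕ ι) Ω →ₐ[Ω] MvPolynomial ι (MvPolynomial ι Ω) :=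
      aeval (Sum.elim (fun a => C (X a)) X)
    have h1 : ∀ P : MvPolynomial ι Ω, ψ (rename Sum.inl P) = C P := fun P => by
      induction P using MvPolynomial.induction_on with
      | C a => simp [ψ]
      | add P Q hP hQ => simp only [map_add, hP, hQ]
      | mul_X P i hP => simp only [map_mul, hP]; simp [ψ]
    have h2 : ∑ q : (ι → Fin m) × Mn (Option ι) Dg,
        monomial q.2.1.some (g q • dg F d j (box q.1)) = 0 := by
      rw [← map_zero ψ, ← h0, map_sum]
      refine Finset.sum_congr rfl fun q _ => ?_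
      rw [map_mul, map_mul, h1, monomial_eq, Finsupp.prod_fintype _ _ (by simp), smul_eq_C_mul]
      simp [ψ, mul_assoc]
    funext q
    have h3 := congrArg (coeff q.2.1.some) h2
    rw [coeff_sum, coeff_zero, Fintype.sum_prod_type] at h3
    refine Fintype.linearIndependent_iff.1 ((h j).1.comp _ box_inj) (fun β => g (β, q.2)) ?_ q.1
    rw [← h3]
    refine Finset.sum_congr rfl fun β _ => ?_
    rw [Finset.sum_eq_single q.2 (fun γ _ hγ => ?_) (by simp), coeff_monomial, if_pos rfl]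
    · rfl
    · rw [coeff_monomial, if_neg fun e => hγ (Subtype.ext ?_)]
      have e1 : ∀ a, γ.1 (some a) = q.2.1 (some a) := fun a => DFunLike.congr_fun e a
      have e2 := (Mn_degree γ).trans (Mn_degree q.2).symm
      simp only [Finsupp.degree_eq_sum, Fintype.sum_option, e1] at e2
      ext (_ | a)
      exacts [add_right_cancel e2, e1 a]
  · refine totalDegree_finsetSum_le fun q _ => (totalDegree_mul _ _).trans ?_
    rw [totalDegree_C, zero_add]
    refine (totalDegree_mul _ _).trans (add_le_add ?_ ?_)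
    · refine (totalDegree_rename_le _ _).trans ((dg_hom hF j _).totalDegree_le.trans ?_)
      rw [Finsupp.degree_eq_sum]
      exact (Finset.sum_le_card_nsmul _ _ m fun a _ => (q.1 a).2.le).trans (by simp)
    · refine (totalDegree_finsetProd _ _).trans ?_
      have := Mn_degree q.2
      rw [Finsupp.degree_eq_sum, Fintype.sum_option] at this
      simp only [totalDegree_X_pow]
      omega
  · rw [← hg l, map_sum]
    refine Finset.sum_congr rfl fun q _ => ?_
    simp [col, hat, eval_rename, Fintype.prod_option, aeval_eq_eval]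

end Pool.Agent.Lib.MP_0dd0d9_ag.Hi
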