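import Pool.Agent.Lib.MP_0dd0d9_ag.Hi.Der
import Pool.Agent.Lib.MP_0dd0d9_ag.Hi.SymD

/-!
TASK gh DerX.  Expansion of a derivation in the dual basis; transfer along embeddings.
-/

namespace Pool.Agent.Lib.MP_0dd0d9_ag.Hi

open MvPolynomial

variable {U J : Type} [Field U] [Algebra ℂ U] [Fintype J] [DecidableEq J]

omit [Fintype J] [DecidableEq J] in
/-- A derivation along a ring homomorphism that vanishes on generators vanishes on the elements
that are algebraic over the field they generate. -/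
theorem derx_zero {Ω : Type} [Field Ω] (f : U →+* Ω) (E : U → Ω)
    (hadd : ∀ a b, E (a + b) = E a + E b) (hmul : ∀ a b, E (a * b) = f a * E b + f b * E a)
    (hc : ∀ c : ℂ, E (algebraMap ℂ U c) = 0) {S : Set U} (hS : ∀ x ∈ S, E x = 0) {z : U}
    (hz : IsAlgebraic (IntermediateField.adjoin ℂ S) z) : E z = 0 := by
  have h0 : E 0 = 0 := by simpa using hc 0
  have h1 : E 1 = 0 := by simpa using hc 1
  have hF : ∀ x ∈ IntermediateField.adjoin ℂ S, E x = 0 := by
    intro x hx
    induction hx using IntermediateField.adjoin_induction with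
    | mem x hx => exact hS x hx
    | algebraMap a => exact hc a
    | add x y _ _ h2 h3 => rw [hadd, h2, h3, add_zero]
    | inv x _ h =>
      by_cases hx0 : x = 0
      · rw [hx0, inv_zero, h0]
      · have h2 := hmul x x⁻¹
        rw [mul_inv_cancel₀ hx0, h1, h, mul_zero, add_zero] at h2
        exact (mul_eq_zero.1 h2.symm).resolve_left ((map_ne_zero f).2 hx0)
    | mul x y _ _ h2 h3 => rw [hmul, h2, h3, mul_zero, mul_zero, add_zero]
  set F := IntermediateField.adjoin ℂ S
  have key : ∀ p : Polynomial F, E (Polynomial.aeval z p) =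
      f (Polynomial.aeval z (Polynomial.derivative p)) * E z := by
    intro p
    induction p using Polynomial.induction_on with
    | C a =>
      rw [Polynomial.aeval_C, Polynomial.derivative_C, map_zero, map_zero, zero_mul]
      exact hF _ a.2
    | add p q hp hq =>
      rw [map_add, hadd, hp, hq, map_add, map_add, map_add, add_mul]
    | monomial n a ih =>
      rw [pow_succ, ← mul_assoc, Polynomial.derivative_mul, map_mul, Polynomial.aeval_X, hmul, ih,
        Polynomial.derivative_X, mul_one, map_add, map_mul _ _ Polynomial.X, Polynomial.aeval_X,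
        map_add, map_mul f _ z]
      ring
  have : CharZero F := algebraRat.charZero F
  have hsep : (minpoly F z).Separable := (minpoly.irreducible hz.isIntegral).separable
  have hne : Polynomial.aeval z (Polynomial.derivative (minpoly F z)) ≠ 0 :=
    hsep.aeval_derivative_ne_zero (minpoly.aeval F z)
  have h2 := key (minpoly F z)
  rw [minpoly.aeval, h0] at h2
  exact (mul_eq_zero.1 h2.symm).resolve_left ((map_ne_zero f).2 hne)

/-- The elements `z` for which the identity holds form a subfield containing `ℂ` and the `g j`,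
closed under adjoining algebraic elements (`der_eval` for the minimal polynomial, on both
sides). -/
theorem der_expand {g : J → U}
    (halg : ∀ z : U, IsAlgebraic (IntermediateField.adjoin ℂ (Set.range g)) z)
    (P : J → Derivation ℂ U U) (hP : ∀ i j, P j (g i) = if i = j then 1 else 0) {Ω : Type}
    [Field Ω] [Algebra ℂ Ω] (f : U →ₐ[ℂ] Ω) (D : Derivation ℂ Ω Ω) (z : U) :
    D (f z) = ∑ j, D (f (g j)) * f (P j z) := by
  have := derx_zero (f : U →+* Ω) (fun z => D (f z) - ∑ j, D (f (g j)) * f (P j z))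
    (fun a b => by
      simp only [map_add, mul_add, Finset.sum_add_distrib]
      ring)
    (fun a b => by
      simp only [map_mul, Derivation.leibniz, smul_eq_mul, map_add, mul_add, mul_sub,
        Finset.sum_add_distrib, Finset.mul_sum, RingHom.coe_coe]
      have e1 : ∀ j, D (f (g j)) * (f a * f (P j b)) = f a * (D (f (g j)) * f (P j b)) :=
        fun j => by ring
      have e2 : ∀ j, D (f (g j)) * (f b * f (P j a)) = f b * (D (f (g j)) * f (P j a)) :=
        fun j => by ring
      simp only [e1, e2]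
      ring)
    (fun c => by simp)
    (S := Set.range g) (by
      rintro _ ⟨i, rfl⟩
      simp only [hP]
      rw [Finset.sum_eq_single i]
      · simp
      · intro j _ hj
        rw [if_neg (Ne.symm hj), map_zero, mul_zero]
      · intro h
        exact absurd (Finset.mem_univ i) h) (halg z)
  exact sub_eq_zero.1 this

/-- An embedding with prescribed values on a transcendence basis. -/
theorem emb_exists {I : Type} {g : I → U} (hg : IsTranscendenceBasis ℂ g) {Ω : Type} [Field Ω]
    [Algebra ℂ Ω] [IsAlgClosed Ω] {c : I → Ω} (hc : AlgebraicIndependent ℂ c) :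
    ∃ f : U →ₐ[ℂ] Ω, ∀ i, f (g i) = c i := by
  let φ : Algebra.adjoin ℂ (Set.range g) →ₐ[ℂ] Ω :=
    (aeval c : MvPolynomial I ℂ →ₐ[ℂ] Ω).comp hg.1.aevalEquiv.symm.toAlgHom
  have hφ : Function.Injective φ := fun a b hab =>
    hg.1.aevalEquiv.symm.injective (algebraicIndependent_iff_injective_aeval.1 hc hab)
  let : Algebra (Algebra.adjoin ℂ (Set.range g)) Ω := φ.toRingHom.toAlgebra
  have : IsScalarTower ℂ (Algebra.adjoin ℂ (Set.range g)) Ω :=
    .of_algebraMap_eq fun r => (φ.commutes r).symm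
  have : FaithfulSMul (Algebra.adjoin ℂ (Set.range g)) Ω :=
    (faithfulSMul_iff_algebraMap_injective _ _).2 hφ
  have := hg.isAlgebraic
  let ψ : U →ₐ[Algebra.adjoin ℂ (Set.range g)] Ω := IsAlgClosed.lift
  refine ⟨ψ.restrictScalars ℂ, fun i => ?_⟩
  have h1 : g i = algebraMap (Algebra.adjoin ℂ (Set.range g)) U (hg.1.aevalEquiv (X i)) := by
    rw [hg.1.algebraMap_aevalEquiv, aeval_X]
  rw [h1, AlgHom.restrictScalars_apply, ψ.commutes]
  change aeval c (hg.1.aevalEquiv.symm (hg.1.aevalEquiv (X i))) = c i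
  rw [AlgEquiv.symm_apply_apply, aeval_X]

/-- The image of an algebraically closed field is algebraically closed. -/
theorem mem_range_of_alg [IsAlgClosed U] {Ω : Type} [Field Ω] [Algebra ℂ Ω] (f : U →ₐ[ℂ] Ω)
    (L : IntermediateField ℂ Ω) (hL : ∀ a ∈ L, a ∈ f.range) {z : Ω} (hz : IsAlgebraic L z) :
    z ∈ f.range := by
  obtain ⟨p, hp0, hp⟩ := hz
  have h1 : p.map (algebraMap L Ω) ∈ Polynomial.lifts (f : U →+* Ω) := by
    rw [Polynomial.lifts_iff_coeff_lifts]
    intro n
    rw [Polynomial.coeff_map]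
    obtain ⟨y, hy⟩ := hL _ (p.coeff n).2
    exact ⟨y, hy⟩
  obtain ⟨q, hq⟩ := (Polynomial.mem_lifts _).1 h1
  have hq0 : q ≠ 0 := by
    rintro rfl
    rw [Polynomial.map_zero] at hq
    exact Polynomial.map_ne_zero hp0 hq.symm
  have h2 : (q.map (f : U →+* Ω)).IsRoot z := by
    rw [hq, Polynomial.IsRoot, Polynomial.eval_map_algebraMap, hp]
  obtain ⟨y, hy⟩ := (IsAlgClosed.splits q).mem_range_of_isRoot hq0 h2
  exact ⟨y, hy⟩

/-- Joint independence over `ℂ` gives independence over `U`
(`AlgebraicIndependent.sumElim_iff`, `AlgebraicIndependent.extendScalars`). -/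
theorem indep_over {I : Type} {g : I → U} (hg : IsTranscendenceBasis ℂ g) {Ω : Type} [Field Ω]
    [Algebra ℂ Ω] (f : U →ₐ[ℂ] Ω) {w : J → Ω}
    (h : AlgebraicIndependent ℂ (Sum.elim (f ∘ g) w)) (Ψ : MvPolynomial J U)
    (hΨ : eval₂ (f : U →+* Ω) w Ψ = 0) : Ψ = 0 := by
  have h1 : AlgebraicIndependent ℂ (Sum.elim w (f ∘ g)) := by
    have := h.comp _ (Equiv.sumComm J I).injective
    rwa [show Sum.elim (f ∘ g) w ∘ Equiv.sumComm J I = Sum.elim w (f ∘ g) by
      ext (_ | _) <;> rfl] at this
  have h2 := (AlgebraicIndependent.sumElim_iff.1 h1).2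
  let : Algebra U Ω := (f : U →+* Ω).toAlgebra
  have : IsScalarTower ℂ U Ω := .of_algebraMap_eq fun r => (f.commutes r).symm
  have hmem : ∀ a : Algebra.adjoin ℂ (Set.range g),
      f a ∈ Algebra.adjoin ℂ (Set.range (f ∘ g)) := fun a => by
    rw [Set.range_comp, Algebra.adjoin_image]
    exact ⟨a, a.2, rfl⟩
  let e : Algebra.adjoin ℂ (Set.range g) →+* Algebra.adjoin ℂ (Set.range (f ∘ g)) :=
    RingHom.codRestrict ((f : U →+* Ω).comp (algebraMap (Algebra.adjoin ℂ (Set.range g)) U))
      _ hmem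
  have he : Function.Injective e := fun a b hab =>
    Subtype.ext (f.toRingHom.injective (congrArg Subtype.val hab))
  have h3 : AlgebraicIndependent (Algebra.adjoin ℂ (Set.range g)) w :=
    AlgebraicIndependent.of_ringHom_of_comp_eq e (RingHom.id Ω) h2 he (by ext; rfl)
  have := hg.isAlgebraic
  have h4 : AlgebraicIndependent U w := h3.extendScalars U
  exact h4.eq_zero_of_aeval_eq_zero Ψ hΨ

/-- The converse. -/
theorem indep_sum {I : Type} {g : I → U} (hg : AlgebraicIndependent ℂ g) {Ω : Type} [Field Ω]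
    [Algebra ℂ Ω] (f : U →ₐ[ℂ] Ω) {w : J → Ω}
    (h : ∀ Ψ : MvPolynomial J U, eval₂ (f : U →+* Ω) w Ψ = 0 → Ψ = 0) :
    AlgebraicIndependent ℂ (Sum.elim (f ∘ g) w) := by
  let : Algebra U Ω := (f : U →+* Ω).toAlgebra
  have : IsScalarTower ℂ U Ω := .of_algebraMap_eq fun r => (f.commutes r).symm
  have h1 : AlgebraicIndependent U w := algebraicIndependent_iff.2 h
  have := (hg.sumElim_comp h1).comp _ (Equiv.sumComm I J).injective
  rwa [show Sum.elim w (algebraMap U Ω ∘ g) ∘ Equiv.sumComm I J = Sum.elim (f ∘ g) w by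
    ext (_ | _) <;> rfl] at this

/-- A surjective linear image of independent variables is independent: substitute `Y = A X`, and
then `X = R Y`. -/
theorem indep_lin {I : Type} [Fintype I] [DecidableEq I] {Ω : Type} [Field Ω] (f : U →+* Ω)
    {a : I → Ω} (ha : ∀ Ψ : MvPolynomial I U, eval₂ f a Ψ = 0 → Ψ = 0) (A : J → I → U)
    (R : I → J → U) (hAR : ∀ j j', ∑ i, A j i * R i j' = if j = j' then 1 else 0)
    (Ψ : MvPolynomial J U) (hΨ : eval₂ f (fun j => ∑ i, a i * f (A j i)) Ψ = 0) : Ψ = 0 := by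
  let s : MvPolynomial J U →ₐ[U] MvPolynomial I U := aeval fun j => ∑ i, X i * C (A j i)
  let t : MvPolynomial I U →ₐ[U] MvPolynomial J U := aeval fun i => ∑ j, C (R i j) * X j
  have hts : t.comp s = AlgHom.id U _ := by
    refine MvPolynomial.algHom_ext fun j => ?_
    simp only [s, t, AlgHom.comp_apply, aeval_X, map_sum, map_mul, aeval_C, algebraMap_eq,
      AlgHom.id_apply, Finset.sum_mul]
    rw [Finset.sum_comm]
    have : ∀ j', ∑ i, C (R i j') * X j' * C (A j i) =
        (if j = j' then X j' else 0 : MvPolynomial J U) := fun j' => by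
      have e := congrArg (fun u => (C u * X j' : MvPolynomial J U)) (hAR j j')
      simp only [map_sum, map_mul, Finset.sum_mul] at e
      rw [show (if j = j' then X j' else 0 : MvPolynomial J U) =
        C (if j = j' then 1 else 0) * X j' by split_ifs <;> simp, ← e]
      exact Finset.sum_congr rfl fun i _ => by ring
    simp only [this, Finset.sum_ite_eq, Finset.mem_univ, if_true]
  have hs : (eval₂Hom f a).comp (s : MvPolynomial J U →+* MvPolynomial I U) =
      eval₂Hom f fun j => ∑ i, a i * f (A j i) := by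
    refine MvPolynomial.ringHom_ext (fun r => ?_) fun j => ?_
    · simp [s]
    · simp [s]
  have h1 : s Ψ = 0 := ha _ (by
    have := congrArg (fun φ => φ Ψ) hs
    exact this.trans hΨ)
  have h2 := congrArg (fun φ => φ Ψ) hts
  simp only [AlgHom.comp_apply, h1, map_zero, AlgHom.id_apply] at h2
  exact h2.symm

/-- By `rows` (applied to the monomials of degree at most `E`) some determinant of monomials in
`(f1 (Z l), D1 (f1 (Z l)))` is nonzero.  By `der_expand` it is the value at `D1 ∘ f1 ∘ g` of a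
polynomial `Ψ` over `U`, and the same polynomial at `D0 ∘ f0 ∘ g` gives the determinant for
`(f0, D0)`, which is nonzero by `indep_over`. -/
theorem der_transfer {g : J → U} (hg : IsTranscendenceBasis ℂ g) {ι Λ : Type} [Fintype ι]
    [DecidableEq ι] (Z : Λ → ι → U) (E : ℕ) {Ω0 Ω1 : Type} [Field Ω0] [Algebra ℂ Ω0] [Field Ω1]
    [Algebra ℂ Ω1] (f0 : U →ₐ[ℂ] Ω0) (D0 : Derivation ℂ Ω0 Ω0) (f1 : U →ₐ[ℂ] Ω1)
    (D1 : Derivation ℂ Ω1 Ω1) (h0 : AlgebraicIndependent ℂ (Sum.elim (f0 ∘ g) (D0 ∘ f0 ∘ g)))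
    (h1 : ∀ Φ : MvPolynomial (ι ⊕ ι) Ω1, Φ.totalDegree ≤ E →
      (∀ l, eval (Sum.elim (f1 ∘ Z l) (D1 ∘ f1 ∘ Z l)) Φ = 0) → Φ = 0)
    (Φ : MvPolynomial (ι ⊕ ι) Ω0) (hΦ : Φ.totalDegree ≤ E)
    (h : ∀ l, eval (Sum.elim (f0 ∘ Z l) (D0 ∘ f0 ∘ Z l)) Φ = 0) : Φ = 0 := by
  classical
  choose P hP using fun j : J => der_basis hg fun i => if i = j then (1 : U) else 0
  have halg : ∀ z : U, IsAlgebraic (IntermediateField.adjoin ℂ (Set.range g)) z :=
    hg.isAlgebraic_field.1
  let Y : Λ → ι ⊕ ι → MvPolynomial J U := fun l =>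
    Sum.elim (fun a => C (Z l a)) fun a => ∑ j, X j * C (P j (Z l a))
  have hY : ∀ {Ω : Type} [Field Ω] [Algebra ℂ Ω] (f : U →ₐ[ℂ] Ω) (D : Derivation ℂ Ω Ω) (l : Λ)
      (x : ι ⊕ ι), eval₂Hom (f : U →+* Ω) (D ∘ f ∘ g) (Y l x) =
        Sum.elim (f ∘ Z l) (D ∘ f ∘ Z l) x := by
    intro Ω _ _ f D l x
    rcases x with a | a
    · simp [Y]
    · simp only [Y, Sum.elim_inr, map_sum, map_mul, eval₂Hom_X', eval₂Hom_C, Function.comp_apply,
        RingHom.coe_coe]
      exact (der_expand halg P (fun i j => hP j i) f D _).symm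
  obtain ⟨r, hr⟩ := rows (B := Φ.support)
    (fun β l => ∏ x, Sum.elim (f1 ∘ Z l) (D1 ∘ f1 ∘ Z l) x ^ β.1 x) (fun c hc => by
      have h2 := h1 (∑ β : Φ.support, monomial β.1 (c β))
        ((totalDegree_finsetSum _ _).trans (Finset.sup_le fun β _ =>
          (totalDegree_monomial_le _ _).trans ((le_totalDegree β.2).trans hΦ)))
        (fun l => by
          rw [map_sum, ← hc l]
          refine Finset.sum_congr rfl fun β _ => ?_
          rw [eval_monomial, Finsupp.prod_fintype _ _ fun _ => pow_zero _])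
      funext β
      have h3 := congrArg (coeff β.1) h2
      rw [coeff_sum, Finset.sum_eq_single β, coeff_monomial, if_pos rfl, coeff_zero] at h3
      · exact h3
      · intro γ _ hγ
        rw [coeff_monomial, if_neg fun e => hγ (Subtype.ext e)]
      · intro hβ
        exact absurd (Finset.mem_univ β) hβ)
  let Mx : Matrix Φ.support Φ.support (MvPolynomial J U) :=
    Matrix.of fun i j => ∏ x, Y (r i) x ^ j.1 x
  have hdet : ∀ {Ω : Type} [Field Ω] [Algebra ℂ Ω] (f : U →ₐ[ℂ] Ω) (D : Derivation ℂ Ω Ω),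
      eval₂ (f : U →+* Ω) (D ∘ f ∘ g) Mx.det = (Matrix.of fun i j : Φ.support =>
        ∏ x, Sum.elim (f ∘ Z (r i)) (D ∘ f ∘ Z (r i)) x ^ j.1 x).det := by
    intro Ω _ _ f D
    rw [← coe_eval₂Hom, RingHom.map_det]
    congr 1
    ext i j
    simp only [Mx, RingHom.mapMatrix_apply, Matrix.map_apply, Matrix.of_apply, map_prod, map_pow,
      hY]
  have h2 : Mx.det ≠ 0 := fun e => hr (by rw [← hdet f1 D1, e, eval₂_zero])
  have h3 := fun e => h2 (indep_over hg f0 h0 Mx.det e)
  rw [hdet f0 D0] at h3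
  have h4 := Matrix.eq_zero_of_mulVec_eq_zero h3 (v := fun β : Φ.support => coeff β.1 Φ) (by
    funext i
    have := h (r i)
    rw [eval_eq', ← Finset.sum_coe_sort] at this
    rw [Pi.zero_apply, ← this]
    simp only [Matrix.mulVec, dotProduct, Matrix.of_apply]
    exact Finset.sum_congr rfl fun β _ => mul_comm _ _)
  ext β
  rw [coeff_zero]
  by_contra hβ
  exact hβ (congrFun h4 ⟨β, mem_support_iff.2 hβ⟩)

end Pool.Agent.Lib.MP_0dd0d9_ag.Hi
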