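import Pool.Agent.Lib.MP_0dd0d9_ag.Hi.Dig1

/-!
TASK gh Fib1.  Polynomial maps that make the polynomial ring a free module; finiteness of fibres.
-/

namespace Pool.Agent.Lib.MP_0dd0d9_ag.Hi

open MvPolynomial

variable {ι : Type} [Fintype ι] [DecidableEq ι] {d : ℕ}
variable {K Ω B : Type} [Field K] [Field Ω] [Algebra K Ω] [Fintype B]

/-- `s` is a basis of `K[X]` as a module over `K[G]`. -/
structure FB (G : ι → MvPolynomial ι K) (s : B → MvPolynomial ι K) : Prop where
  span : ∀ p, ∃ g : B → MvPolynomial ι K, p = ∑ β, s β * bind₁ G (g β)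
  ind : ∀ g : B → MvPolynomial ι K, ∑ β, s β * bind₁ G (g β) = 0 → g = 0

open Classical in
/-- The fibre of `G` over `y`. -/
noncomputable def fib (G : ι → MvPolynomial ι K) (y : ι → Ω) : Finset (ι → Ω) :=
  if h : {z : ι → Ω | ap G z = y}.Finite then h.toFinset else ∅

omit [DecidableEq ι] in
theorem fib1_decomp {m : ℕ} (hm : 0 < m) (α : ι →₀ ℕ) :
    ∃ (β : ι → Fin m) (γ : ι →₀ ℕ), α = box β + m • γ := by
  refine ⟨fun a => ⟨α a % m, Nat.mod_lt _ hm⟩,
    Finsupp.equivFunOnFinite.symm fun a => α a / m, ?_⟩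
  ext a
  simp only [Finsupp.add_apply, box_apply, Finsupp.smul_apply, smul_eq_mul,
    Finsupp.equivFunOnFinite_symm_apply_apply]
  exact (Nat.mod_add_div _ _).symm

omit [DecidableEq ι] in
theorem fib1_inj {m : ℕ} :
    Function.Injective fun x : (ι → Fin m) × (ι →₀ ℕ) => box x.1 + m • x.2 := by
  intro x y h
  have key : ∀ a, (x.1 a : ℕ) + m * x.2 a = (y.1 a : ℕ) + m * y.2 a := fun a => by
    have := DFunLike.congr_fun h a
    simpa only [Finsupp.add_apply, box_apply, Finsupp.smul_apply, smul_eq_mul] using this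
  have h1 : ∀ a, (x.1 a : ℕ) = y.1 a := fun a => by
    have := congrArg (· % m) (key a)
    simpa only [Nat.add_mul_mod_self_left, Nat.mod_eq_of_lt (x.1 a).2,
      Nat.mod_eq_of_lt (y.1 a).2] using this
  refine Prod.ext (funext fun a => Fin.ext (h1 a)) (Finsupp.ext fun a => ?_)
  have h2 := key a
  rw [h1 a] at h2
  exact Nat.eq_of_mul_eq_mul_left (lt_of_le_of_lt (Nat.zero_le _) (x.1 a).2)
    (Nat.add_left_cancel h2)

/-- Every exponent is uniquely `box β + d ^ j • γ`; use `dg_add`. -/
theorem Dig.fb (hd : 1 ≤ d) {F : ι → MvPolynomial ι K} (h : Dig d F) (j : ℕ) :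
    FB (itr F j) fun β : ι → Fin (d ^ j) => dg F d j (box β) := by
  classical
  have hm : 0 < d ^ j := pow_pos hd j
  constructor
  · intro p
    refine Submodule.span_induction (p := fun p _ => ∃ g : (ι → Fin (d ^ j)) → MvPolynomial ι K,
      p = ∑ β, dg F d j (box β) * bind₁ (itr F j) (g β)) ?_ ?_ ?_ ?_ ((h j).2 p)
    · rintro _ ⟨α, -, rfl⟩
      obtain ⟨β, γ, rfl⟩ := fib1_decomp hm α
      refine ⟨Pi.single β (monomial γ 1), ?_⟩
      rw [dg_add hd, Finset.sum_eq_single β]
      · rw [Pi.single_eq_same]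
      · intro β' _ hne
        rw [Pi.single_eq_of_ne hne, map_zero, mul_zero]
      · intro hn
        exact absurd (Finset.mem_univ _) hn
    · exact ⟨0, by simp⟩
    · rintro _ _ _ _ ⟨g, rfl⟩ ⟨g', rfl⟩
      refine ⟨g + g', ?_⟩
      simp only [Pi.add_apply, map_add, mul_add, Finset.sum_add_distrib]
    · rintro c _ _ ⟨g, rfl⟩
      refine ⟨c • g, ?_⟩
      simp only [Pi.smul_apply, map_smul, Finset.smul_sum, mul_smul_comm]
  · intro g hg
    have hli := (h j).1.comp _ (fib1_inj (ι := ι) (m := d ^ j))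
    rw [linearIndependent_iff'] at hli
    have hsub : ∀ β, (g β).support ⊆ Finset.univ.biUnion fun β => (g β).support := fun β =>
      Finset.subset_biUnion_of_mem (fun β => (g β).support) (Finset.mem_univ β)
    have h0 := hli (Finset.univ ×ˢ Finset.univ.biUnion fun β => (g β).support)
      (fun x => coeff x.2 (g x.1)) (by
        rw [← hg, Finset.sum_product]
        refine Finset.sum_congr rfl fun β _ => ?_
        conv_rhs => rw [(g β).as_sum, Finset.sum_subset (hsub β) (fun γ _ hγ => by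
          rw [notMem_support_iff.1 hγ, map_zero])]
        rw [map_sum, Finset.mul_sum]
        refine Finset.sum_congr rfl fun γ _ => ?_
        simp only [Function.comp]
        rw [dg_add hd, ← mul_smul_comm, ← map_smul, smul_monomial, smul_eq_mul, mul_one])
    funext β
    ext γ
    by_cases hγ : γ ∈ (g β).support
    · exact h0 (β, γ) (Finset.mem_product.2 ⟨Finset.mem_univ _, hsub β hγ⟩)
    · exact notMem_support_iff.1 hγ

omit [Fintype ι] [DecidableEq ι] in
theorem fib1_sep (z : ι → Ω) (T : Finset (ι → Ω)) (hz : z ∉ T) :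
    ∃ q : MvPolynomial ι Ω, eval z q = 1 ∧ ∀ w ∈ T, eval w q = 0 := by
  classical
  induction T using Finset.induction_on with
  | empty => exact ⟨1, by simp, by simp⟩
  | insert w T _ ih =>
    rw [Finset.mem_insert, not_or] at hz
    obtain ⟨q, h1, h0⟩ := ih hz.2
    obtain ⟨a, ha⟩ := Function.ne_iff.1 hz.1
    refine ⟨q * (C (z a - w a)⁻¹ * (X a - C (w a))), ?_, fun u hu => ?_⟩
    · simp only [map_mul, h1, eval_C, map_sub, eval_X, one_mul]
      exact inv_mul_cancel₀ (sub_ne_zero.2 ha)
    · rcases Finset.mem_insert.1 hu with rfl | hu'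
      · simp
      · simp [h0 u hu']

/-- Interpolation: every function on a finite set of points is polynomial. -/
theorem interp (T : Finset (ι → Ω)) (f : (ι → Ω) → Ω) :
    ∃ p : MvPolynomial ι Ω, ∀ z ∈ T, eval z p = f z := by
  classical
  induction T using Finset.induction_on with
  | empty => exact ⟨0, by simp⟩
  | insert z T hz ih =>
    obtain ⟨p, hp⟩ := ih
    obtain ⟨q, h1, h0⟩ := fib1_sep z T hz
    refine ⟨p + C (f z - eval z p) * q, fun u hu => ?_⟩
    rcases Finset.mem_insert.1 hu with rfl | hu'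
    · simp [h1]
    · simp [h0 u hu', hp u hu']

theorem fib1_span (T : Finset (ι → Ω)) (s : B → (ι → Ω) → Ω)
    (h : ∀ α : ι →₀ ℕ, ∃ g : B → Ω, ∀ z ∈ T, ∏ a, z a ^ α a = ∑ β, g β * s β z)
    (f : (ι → Ω) → Ω) : ∃ g : B → Ω, ∀ z ∈ T, f z = ∑ β, g β * s β z := by
  obtain ⟨p, hp⟩ := interp T f
  choose g hg using h
  refine ⟨fun β => ∑ α ∈ p.support, coeff α p * g α β, fun z hz => ?_⟩
  rw [← hp z hz, eval_eq']
  simp only [Finset.sum_mul]
  rw [Finset.sum_comm]
  refine Finset.sum_congr rfl fun α _ => ?_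
  rw [hg α z hz, Finset.mul_sum]
  exact Finset.sum_congr rfl fun β _ => (mul_assoc _ _ _).symm

/-- If the functions `s β` span all monomial functions on `T`, then `T` has at most `card B`
points. -/
theorem card_le_of_span (T : Finset (ι → Ω)) (s : B → (ι → Ω) → Ω)
    (h : ∀ α : ι →₀ ℕ, ∃ g : B → Ω, ∀ z ∈ T, ∏ a, z a ^ α a = ∑ β, g β * s β z) :
    T.card ≤ Fintype.card B := by
  classical
  have hs : Function.Surjective (Matrix.of fun (z : T) (β : B) => s β z).mulVecLin := by
    intro f
    obtain ⟨g, hg⟩ := fib1_span T s h fun z => if hz : z ∈ T then f ⟨z, hz⟩ else 0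
    refine ⟨g, funext fun z => ?_⟩
    have := hg z z.2
    rw [dif_pos z.2] at this
    rw [this]
    simp only [Matrix.mulVecLin_apply, Matrix.mulVec, dotProduct, Matrix.of_apply, mul_comm]
  have := LinearMap.finrank_le_finrank_of_surjective hs
  simpa using this

/-- If moreover `T` has exactly `card B` points, the evaluation matrix is invertible. -/
theorem det_ne_of_span [DecidableEq B] (T : Finset (ι → Ω)) (s : B → (ι → Ω) → Ω)
    (h : ∀ α : ι →₀ ℕ, ∃ g : B → Ω, ∀ z ∈ T, ∏ a, z a ^ α a = ∑ β, g β * s β z) (e : B ≃ T) :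
    (Matrix.of fun β β' => s β' (e β)).det ≠ 0 := by
  classical
  have hs : Function.Surjective (Matrix.of fun β β' : B => s β' (e β)).mulVec := by
    intro f
    obtain ⟨g, hg⟩ := fib1_span T s h fun z => if hz : z ∈ T then f (e.symm ⟨z, hz⟩) else 0
    refine ⟨g, funext fun β => ?_⟩
    have := hg (e β) (e β).2
    rw [dif_pos (e β).2] at this
    simp only [Subtype.coe_eta, Equiv.symm_apply_apply] at this
    rw [this]
    simp only [Matrix.mulVec, dotProduct, Matrix.of_apply, mul_comm]
  exact ((Matrix.isUnit_iff_isUnit_det _).1 (Matrix.mulVec_surjective_iff_isUnit.1 hs)).ne_zero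

variable {G : ι → MvPolynomial ι K} {s : B → MvPolynomial ι K}

omit [DecidableEq ι] in
theorem fib1_mon (h : FB G s) (y : ι → Ω) (α : ι →₀ ℕ) :
    ∃ g : B → Ω, ∀ z : ι → Ω, ap G z = y → ∏ a, z a ^ α a = ∑ β, g β * aeval z (s β) := by
  obtain ⟨g, hg⟩ := h.span (monomial α 1)
  refine ⟨fun β => aeval y (g β), fun z hz => ?_⟩
  have h1 := congrArg (aeval z) hg
  rw [aeval_monomial, map_one, one_mul, Finsupp.prod_fintype _ _ (by simp), map_sum] at h1
  rw [h1]
  refine Finset.sum_congr rfl fun β _ => ?_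
  rw [map_mul, aeval_bind₁, mul_comm, ← hz]
  rfl

theorem fib1_finite {A : Set (ι → Ω)} {n : ℕ}
    (h : ∀ T : Finset (ι → Ω), (T : Set (ι → Ω)) ⊆ A → T.card ≤ n) : A.Finite := by
  by_contra hA
  obtain ⟨T, hT, hc⟩ := Set.Infinite.exists_subset_card_eq hA (n + 1)
  have := h T hT
  omega

theorem FB.finite (h : FB G s) (y : ι → Ω) : {z : ι → Ω | ap G z = y}.Finite := by
  refine fib1_finite (n := Fintype.card B) fun T hT => ?_
  refine card_le_of_span T (fun β z => aeval z (s β)) fun α => ?_
  obtain ⟨g, hg⟩ := fib1_mon h y α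
  exact ⟨g, fun z hz => hg z (hT hz)⟩

theorem FB.mem_fib (h : FB G s) {y z : ι → Ω} : z ∈ fib G y ↔ ap G z = y := by
  rw [fib, dif_pos (h.finite y), Set.Finite.mem_toFinset]
  rfl

theorem FB.card_le (h : FB G s) (y : ι → Ω) : (fib G y).card ≤ Fintype.card B := by
  refine card_le_of_span _ (fun β z => aeval z (s β)) fun α => ?_
  obtain ⟨g, hg⟩ := fib1_mon h y α
  exact ⟨g, fun z hz => hg z (h.mem_fib.1 hz)⟩

theorem FB.det_ne [DecidableEq B] (h : FB G s) {y : ι → Ω} (e : B ≃ fib G y) :
    (Matrix.of fun β β' => aeval (e β).1 (s β')).det ≠ 0 := by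
  refine det_ne_of_span (fib G y) (fun β z => aeval z (s β)) (fun α => ?_) e
  obtain ⟨g, hg⟩ := fib1_mon h y α
  exact ⟨g, fun z hz => hg z (h.mem_fib.1 hz)⟩

theorem fib1_fix (hd : 2 ≤ d) {F : ι → MvPolynomial ι K} (h : Dig d F) (α : ι →₀ ℕ) :
    ∃ g : (ι → Fin d) → K, ∀ z : ι → K, ap F z = z →
      ∏ a, z a ^ α a = ∑ β, g β * ∏ a, z a ^ (β a : ℕ) := by
  classical
  induction hn : α.degree using Nat.strong_induction_on generalizing α with
  | _ n ih =>
    have key : ∀ p ∈ Submodule.span K (dg F d 1 '' {β | β.degree ≤ n}),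
        ∃ g : (ι → Fin d) → K, ∀ z : ι → K, ap F z = z →
          eval z p = ∑ β, g β * ∏ a, z a ^ (β a : ℕ) := by
      intro p hp
      refine Submodule.span_induction (p := fun p _ => ∃ g : (ι → Fin d) → K,
        ∀ z : ι → K, ap F z = z → eval z p = ∑ β, g β * ∏ a, z a ^ (β a : ℕ)) ?_ ?_ ?_ ?_ hp
      · rintro _ ⟨β, hβ, rfl⟩
        have hev : ∀ z : ι → K, ap F z = z →
            eval z (dg F d 1 β) = ∏ a, z a ^ (β a % d + β a / d) := by
          intro z hz
          have hF : ∀ a, eval z (F a) = z a := fun a => by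
            have := congrFun hz a
            rwa [ap, aeval_eq_eval] at this
          simp only [dg, Finset.range_one, Finset.prod_singleton, itr_zero, itr_one, pow_zero,
            Nat.div_one, pow_one, map_mul, map_prod, map_pow, eval_X, hF, pow_add,
            Finset.prod_mul_distrib]
        by_cases hb : ∀ a, β a < d
        · refine ⟨Pi.single (fun a => ⟨β a, hb a⟩) 1, fun z hz => ?_⟩
          rw [hev z hz, Finset.sum_eq_single (fun a => (⟨β a, hb a⟩ : Fin d))]
          · rw [Pi.single_eq_same, one_mul]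
            refine Finset.prod_congr rfl fun a _ => ?_
            rw [Nat.mod_eq_of_lt (hb a), Nat.div_eq_of_lt (hb a), add_zero]
          · intro β' _ hne
            rw [Pi.single_eq_of_ne hne, zero_mul]
          · intro hn'
            exact absurd (Finset.mem_univ _) hn'
        · push Not at hb
          obtain ⟨a0, ha0⟩ := hb
          have hle : ∀ a, β a % d + β a / d ≤ β a := fun a => by
            have h1 := Nat.mod_add_div (β a) d
            have h2 : β a / d ≤ d * (β a / d) := Nat.le_mul_of_pos_left _ (by omega)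
            omega
          have hlt : β a0 % d + β a0 / d < β a0 := by
            have h1 := Nat.mod_add_div (β a0) d
            have h2 : 0 < β a0 / d := Nat.div_pos ha0 (by omega)
            have h3 : 2 * (β a0 / d) ≤ d * (β a0 / d) := Nat.mul_le_mul_right _ hd
            omega
          obtain ⟨g, hg⟩ := ih _ (show (Finsupp.equivFunOnFinite.symm
              fun a => β a % d + β a / d : ι →₀ ℕ).degree < n from by
            refine lt_of_lt_of_le ?_ hβ
            rw [Finsupp.degree_eq_sum, Finsupp.degree_eq_sum]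
            exact Finset.sum_lt_sum (fun a _ => hle a) ⟨a0, Finset.mem_univ _, hlt⟩) _ rfl
          exact ⟨g, fun z hz => (hev z hz).trans (hg z hz)⟩
      · exact ⟨0, by simp⟩
      · rintro p q _ _ ⟨g, hg⟩ ⟨g', hg'⟩
        refine ⟨g + g', fun z hz => ?_⟩
        simp only [map_add, hg z hz, hg' z hz, Pi.add_apply, add_mul, Finset.sum_add_distrib]
      · rintro c p _ ⟨g, hg⟩
        refine ⟨c • g, fun z hz => ?_⟩
        simp only [smul_eval, hg z hz, Pi.smul_apply, smul_eq_mul, Finset.mul_sum, mul_assoc]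
    have hdeg : (monomial α (1 : K)).totalDegree ≤ n := by
      rw [← hn]
      exact totalDegree_monomial_le α 1
    obtain ⟨g, hg⟩ := key (monomial α 1) (Submodule.span_mono
      (Set.image_mono fun β hβ => le_trans hβ hdeg) ((h 1).2 (monomial α 1)))
    refine ⟨g, fun z hz => ?_⟩
    rw [← hg z hz, eval_monomial, one_mul, Finsupp.prod_fintype _ _ (by simp)]

/-- On fixed points, `dg F d 1 β` with some `β a ≥ d` agrees with a monomial of smaller degree;
by induction on the degree the monomials with exponents `< d` span all monomial functions. -/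
theorem fix_card (hd : 2 ≤ d) {F : ι → MvPolynomial ι K} (h : Dig d F) :
    {y : ι → K | ap F y = y}.Finite ∧
      {y : ι → K | ap F y = y}.ncard ≤ d ^ Fintype.card ι := by
  have hb : ∀ T : Finset (ι → K), (T : Set (ι → K)) ⊆ {y : ι → K | ap F y = y} →
      T.card ≤ d ^ Fintype.card ι := by
    intro T hT
    have h1 := card_le_of_span (B := ι → Fin d) T (fun β z => ∏ a, z a ^ (β a : ℕ)) fun α => by
      obtain ⟨g, hg⟩ := fib1_fix hd h α
      exact ⟨g, fun z hz => hg z (hT hz)⟩
    simpa using h1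
  have hfin := fib1_finite hb
  refine ⟨hfin, ?_⟩
  rw [Set.ncard_eq_toFinset_card _ hfin]
  exact hb _ (by simp)

theorem Dig.mem_fib (hd : 1 ≤ d) {F : ι → MvPolynomial ι K} (h : Dig d F) {j : ℕ} {y z : ι → Ω} :
    z ∈ fib (itr F j) y ↔ (ap F)^[j] z = y := by
  rw [(h.fb hd j).mem_fib, ap_itr]

theorem Dig.sum_fib_add (hd : 1 ≤ d) {F : ι → MvPolynomial ι K} (h : Dig d F) (i j : ℕ)
    (y : ι → Ω) (f : (ι → Ω) → ℝ) :
    ∑ z ∈ fib (itr F (i + j)) y, f z = ∑ w ∈ fib (itr F i) y, ∑ z ∈ fib (itr F j) w, f z := by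
  classical
  rw [← Finset.sum_fiberwise_of_maps_to (s := fib (itr F (i + j)) y) (t := fib (itr F i) y)
    (g := (ap F)^[j]) (fun z hz => by
      rw [h.mem_fib hd] at hz ⊢
      rw [← hz, Function.iterate_add_apply])]
  refine Finset.sum_congr rfl fun w hw => Finset.sum_congr ?_ fun _ _ => rfl
  ext z
  rw [Finset.mem_filter, h.mem_fib hd, h.mem_fib hd]
  rw [h.mem_fib hd] at hw
  constructor
  · exact fun hz => hz.2
  · intro hz
    exact ⟨by rw [Function.iterate_add_apply, hz, hw], hz⟩

end Pool.Agent.Lib.MP_0dd0d9_ag.Hi
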