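import Pool.Agent.Lib.MP_0dd0d9_ag.Hi.NF1
import Pool.Agent.Lib.MP_0dd0d9_ag.Hi.Fib1

/-!
TASK gh NF2.  The finite set of normal forms.
-/

namespace Pool.Agent.Lib.MP_0dd0d9_ag.Hi

open MvPolynomial

variable {ι : Type} [Fintype ι] [DecidableEq ι] {d : ℕ}
variable {K : Type} [Field K]

/-- The normal forms of a pair. -/
def NFs (u : (ι × Mn ι d) ⊕ ι → K) : Set ((ι × MnS ι d) ⊕ ι → K) :=
  {w | ∃ (φ : Matrix ι ι K) (a b : K), φ.det ≠ 0 ∧ a ≠ 0 ∧ b ≠ 0 ∧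
    Acts φ a b (Sum.elim (sl (w ∘ Sum.inl)) (w ∘ Sum.inr)) u ∧ ∃ i, w (Sum.inr i) = 1}

theorem nf2_inj {φ : Matrix ι ι K} (hφ : φ.det ≠ 0) {x y : ι → K}
    (h : φ.mulVec x = φ.mulVec y) : x = y := by
  have : φ.mulVec (x - y) = 0 := by rw [Matrix.mulVec_sub, h, sub_self]
  exact sub_eq_zero.1 (Matrix.eq_zero_of_mulVec_eq_zero hφ this)

omit [Fintype ι] [DecidableEq ι] in
theorem nf2_exact {L : Type} [Field L] {f : (ι → K) → ι → K} {g : (ι → L) → ι → L} {p : ι → K}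
    {q : ι → L} (h : ∀ i, (∃ μ : L, g^[i] q = μ • q) ↔ ∃ μ : K, f^[i] p = μ • p) {n : ℕ} :
    ExactPer g n q ↔ ExactPer f n p := by
  simp only [ExactPer, h]

/-- By induction `F'^[i] (φ y)` is a nonzero multiple of `φ (F^[i] y)` (`conj_iff`). -/
theorem exactPer_conj [Infinite K] {F F' : ι → MvPolynomial ι K} (hF' : Hm F' d)
    {φ : Matrix ι ι K} (hφ : φ.det ≠ 0) {a b : K} (ha : a ≠ 0) (hb : b ≠ 0) (h : Conj φ a F F')
    {p : ι → K} {n : ℕ} : ExactPer (ap F') n (b • φ.mulVec p) ↔ ExactPer (ap F) n p := by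
  have hc := conj_iff.1 h
  have key : ∀ i, ∃ t : K, t ≠ 0 ∧
      (ap F')^[i] (b • φ.mulVec p) = t • φ.mulVec ((ap F)^[i] p) := by
    intro i
    induction i with
    | zero => exact ⟨b, hb, rfl⟩
    | succ i ih =>
      obtain ⟨t, ht, e⟩ := ih
      refine ⟨t ^ d * a, mul_ne_zero (pow_ne_zero _ ht) ha, ?_⟩
      rw [Function.iterate_succ_apply', Function.iterate_succ_apply', e, hF'.ap_smul, hc,
        smul_smul]
  refine nf2_exact fun i => ?_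
  obtain ⟨t, ht, e⟩ := key i
  rw [e]
  constructor
  · rintro ⟨μ, hμ⟩
    refine ⟨t⁻¹ * (μ * b), nf2_inj hφ ?_⟩
    rw [Matrix.mulVec_smul, mul_smul, mul_smul, ← hμ, inv_smul_smul₀ ht]
  · rintro ⟨μ, hμ⟩
    refine ⟨t * μ * b⁻¹, ?_⟩
    rw [hμ, Matrix.mulVec_smul, mul_smul, inv_smul_smul₀ hb, mul_smul]

theorem exactPer_smul {F : ι → MvPolynomial ι K} (hF : Hm F d) {t : K} (ht : t ≠ 0) {p : ι → K}
    {n : ℕ} (hp : ExactPer (ap F) n p) : ExactPer (ap F) n (t • p) := by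
  refine (nf2_exact fun i => ?_).2 hp
  rw [hF.ap_iter_smul]
  have ht' : t ^ d ^ i ≠ 0 := pow_ne_zero _ ht
  constructor
  · rintro ⟨μ, hμ⟩
    refine ⟨(t ^ d ^ i)⁻¹ * (μ * t), ?_⟩
    rw [mul_smul, mul_smul, ← hμ, inv_smul_smul₀ ht']
  · rintro ⟨μ, hμ⟩
    refine ⟨t ^ d ^ i * μ * t⁻¹, ?_⟩
    rw [hμ, mul_smul, inv_smul_smul₀ ht, mul_smul]

/-- For `p ≠ 0` the scalar `μ` is a quotient of coordinates. -/
theorem exactPer_map {L : Type} [Field L] (f : K →+* L) {F : ι → MvPolynomial ι K} {p : ι → K}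
    (hp : p ≠ 0) {n : ℕ} :
    ExactPer (ap fun a => map f (F a)) n (f ∘ p) ↔ ExactPer (ap F) n p := by
  refine nf2_exact fun i => ?_
  rw [← hom_ap_iter]
  obtain ⟨b, hb⟩ := Function.ne_iff.1 hp
  have hb' : p b ≠ 0 := hb
  constructor
  · rintro ⟨μ, hμ⟩
    have h1 : f ((ap F)^[i] p b) = μ * f (p b) := congrFun hμ b
    refine ⟨(ap F)^[i] p b / p b, funext fun a => f.injective ?_⟩
    have h2 : f ((ap F)^[i] p a) = μ * f (p a) := congrFun hμ a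
    rw [h2, Pi.smul_apply, smul_eq_mul, map_mul, map_div₀, h1,
      mul_div_cancel_right₀ _ ((map_ne_zero f).2 hb')]
  · rintro ⟨μ, hμ⟩
    refine ⟨f μ, funext fun a => ?_⟩
    rw [hμ]
    simp

/-- The data attached to a normal form. -/
def nf2_P (u : (ι × Mn ι d) ⊕ ι → K) (w : (ι × MnS ι d) ⊕ ι → K)
    (x : (Option ι → ι → K) × ι) : Prop :=
  ∃ (φ : Matrix ι ι K) (b : K) (s : ι → K), φ.det ≠ 0 ∧ b ≠ 0 ∧
    (∀ y, ap (Fp (u ∘ Sum.inl)) (φ.mulVec y) = φ.mulVec (ap (Fp (sl (w ∘ Sum.inl))) y)) ∧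
    u ∘ Sum.inr = b • φ.mulVec (w ∘ Sum.inr) ∧ w (Sum.inr x.2) = 1 ∧
    x.1 none = φ.mulVec 1 ∧ ∀ a, s a ≠ 0 ∧ x.1 (some a) = s a • φ.mulVec (Pi.single a 1)

theorem nf2_root [IsAlgClosed K] (hd : 2 ≤ d) {a : K} (ha : a ≠ 0) :
    ∃ t : K, t ≠ 0 ∧ t ^ d * a = t := by
  obtain ⟨t, ht⟩ := IsAlgClosed.exists_pow_nat_eq a⁻¹ (n := d - 1) (by omega)
  have h0 : t ≠ 0 := by
    rintro rfl
    rw [zero_pow (by omega)] at ht
    exact inv_ne_zero ha ht.symm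
  refine ⟨t, h0, ?_⟩
  obtain ⟨e, rfl⟩ : ∃ e, d = e + 1 := ⟨d - 1, by omega⟩
  rw [Nat.add_sub_cancel] at ht
  rw [pow_succ, ht, mul_right_comm, inv_mul_cancel₀ ha, one_mul]

theorem nf2_ex [IsAlgClosed K] (hd : 2 ≤ d) {u : (ι × Mn ι d) ⊕ ι → K}
    (hreg : Reg (Fp (u ∘ Sum.inl))) {w : (ι × MnS ι d) ⊕ ι → K} (hw : w ∈ NFs u) :
    ∃ x : (Option ι → ι → K) × ι, (∀ o, ap (Fp (u ∘ Sum.inl)) (x.1 o) = x.1 o) ∧ nf2_P u w x := by
  obtain ⟨φ0, a, b, hφ0, ha, hb, ⟨hc, hp⟩, i, hi⟩ := hw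
  rw [Sum.elim_comp_inl] at hc
  rw [Sum.elim_comp_inr] at hp
  obtain ⟨t, ht0, ht⟩ := nf2_root hd ha
  have hφ : (t • φ0).det ≠ 0 := by
    rw [Matrix.det_smul]
    exact mul_ne_zero (pow_ne_zero _ ht0) hφ0
  have hc' : ∀ y, ap (Fp (u ∘ Sum.inl)) ((t • φ0).mulVec y)
      = (t • φ0).mulVec (ap (Fp (sl (w ∘ Sum.inl))) y) := fun y => by
    rw [Matrix.smul_mulVec, Matrix.smul_mulVec, (Fp_hm _).ap_smul, conj_iff.1 hc, smul_smul, ht]
  have hp' : u ∘ Sum.inr = (b * t⁻¹) • (t • φ0).mulVec (w ∘ Sum.inr) := by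
    rw [Matrix.smul_mulVec, mul_smul, inv_smul_smul₀ ht0, hp]
  generalize t • φ0 = φ at hφ hc' hp'
  have hs : ∀ a : ι, ∃ s : K, s ≠ 0 ∧ ap (Fp (u ∘ Sum.inl)) (s • φ.mulVec (Pi.single a 1))
      = s • φ.mulVec (Pi.single a 1) := by
    intro a
    obtain ⟨μ, hμ⟩ := ap_sl_single (by omega : 1 ≤ d) (w ∘ Sum.inl) a
    have h1 := hc' (Pi.single a 1)
    rw [hμ, Matrix.mulVec_smul] at h1
    have hμ0 : μ ≠ 0 := by
      rintro rfl
      rw [zero_smul] at h1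
      have h2 := congrFun (Matrix.eq_zero_of_mulVec_eq_zero hφ (hreg.nz h1)) a
      simp at h2
    obtain ⟨s, hs0, hs⟩ := nf2_root hd hμ0
    exact ⟨s, hs0, by rw [(Fp_hm _).ap_smul, h1, smul_smul, hs]⟩
  choose s hs0 hs using hs
  refine ⟨(fun o => o.elim (φ.mulVec 1) fun a => s a • φ.mulVec (Pi.single a 1), i), ?_,
    φ, b * t⁻¹, s, hφ, mul_ne_zero hb (inv_ne_zero ht0), hc', hp', hi, rfl, fun a => ⟨hs0 a, rfl⟩⟩
  rintro (_ | a)
  · change ap _ (φ.mulVec 1) = φ.mulVec 1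
    rw [hc', ap_sl_one (by omega : 1 ≤ d)]
  · exact hs a

theorem nf2_uniq [Infinite K] {u : (ι × Mn ι d) ⊕ ι → K} {w w' : (ι × MnS ι d) ⊕ ι → K}
    {x : (Option ι → ι → K) × ι} (h : nf2_P u w x) (h' : nf2_P u w' x) : w = w' := by
  obtain ⟨φ, b, s, hφ, hb, hc, hp, hi, h1, hs⟩ := h
  obtain ⟨φ', b', s', -, -, hc', hp', hi', h1', hs'⟩ := h'
  have hcol : ∀ j a, φ' j a = φ j a * (s a / s' a) := by
    intro j a
    have := congrFun ((hs a).2.symm.trans (hs' a).2) j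
    simp only [Pi.smul_apply, Matrix.mulVec_single_one, Matrix.col_apply, smul_eq_mul] at this
    have h0 := (hs' a).1
    field_simp
    linear_combination -this
  have hr : (fun a => s a / s' a) = 1 := by
    apply nf2_inj hφ
    rw [← h1, h1']
    funext j
    simp only [Matrix.mulVec, dotProduct, hcol, Pi.one_apply, mul_one]
  have e : φ' = φ := by
    ext j a
    rw [hcol, congrFun hr a, Pi.one_apply, mul_one]
  subst e
  have hG : Fp (sl (w ∘ Sum.inl)) = Fp (sl (w' ∘ Sum.inl)) := by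
    funext a
    refine MvPolynomial.funext fun y => ?_
    exact congrFun (nf2_inj hφ ((hc y).symm.trans (hc' y))) a
  have hl : w ∘ Sum.inl = w' ∘ Sum.inl := by
    funext z
    have := congrFun (Fp_inj hG) (z.1, z.2.1)
    rwa [sl_apply, sl_apply] at this
  have h2 : b • (w ∘ Sum.inr) = b' • (w' ∘ Sum.inr) := by
    apply nf2_inj hφ
    rw [Matrix.mulVec_smul, Matrix.mulVec_smul, ← hp, ← hp']
  have h3 : b = b' := by
    have := congrFun h2 x.2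
    simpa [hi, hi'] using this
  subst h3
  have hrr : w ∘ Sum.inr = w' ∘ Sum.inr := smul_right_injective _ hb h2
  rw [← Sum.elim_comp_inl_inr w, hl, hrr, Sum.elim_comp_inl_inr]

/-- Scale `φ` so that `a = 1`.  Then `φ 1` is a fixed vector of `F`, and each column of `φ` is a
nonzero multiple of a fixed vector (`ap_sl_single`, `Reg.nz`).  These `M + 1` fixed vectors and the
index `i` determine `φ`, hence `w` (`Fp_inj`, `sl_apply`).  Use `fix_card`. -/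
theorem nfs_card [IsAlgClosed K] [CharZero K] (hd : 2 ≤ d) {u : (ι × Mn ι d) ⊕ ι → K}
    (hdig : Dig d (Fp (u ∘ Sum.inl))) (hreg : Reg (Fp (u ∘ Sum.inl))) :
    (NFs u).Finite ∧
      (NFs u).ncard ≤ (d ^ Fintype.card ι) ^ (Fintype.card ι + 1) * Fintype.card ι := by
  classical
  obtain ⟨hfin, hcard⟩ := fix_card hd hdig
  have hex : ∀ w : (ι × MnS ι d) ⊕ ι → K, w ∈ NFs u → ∃ x : (Option ι → ι → K) × ι,
      (∀ o, ap (Fp (u ∘ Sum.inl)) (x.1 o) = x.1 o) ∧ nf2_P u w x := fun w hw => nf2_ex hd hreg hw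
  rcases (NFs u).eq_empty_or_nonempty with he | ⟨w0, hw0⟩
  · rw [he]
    simp
  have : Nonempty ((Option ι → ι → K) × ι) := ⟨(hex w0 hw0).choose⟩
  choose! f hf1 hf2 using hex
  have hmap : ∀ w ∈ NFs u, f w ∈ (((Fintype.piFinset fun _ : Option ι => hfin.toFinset) ×ˢ
      (Finset.univ : Finset ι) : Finset ((Option ι → ι → K) × ι)) : Set ((Option ι → ι → K) × ι)) := by
    intro w hw
    rw [Finset.mem_coe, Finset.mem_product, Fintype.mem_piFinset]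
    exact ⟨fun o => (Set.Finite.mem_toFinset _).2 (hf1 w hw o), Finset.mem_univ _⟩
  have hinj : Set.InjOn f (NFs u) := fun w hw w' hw' e =>
    nf2_uniq (hf2 w hw) (e ▸ hf2 w' hw')
  refine ⟨Set.Finite.of_injOn hmap hinj (Finset.finite_toSet _), ?_⟩
  refine (Set.ncard_le_ncard_of_injOn f hmap hinj (Finset.finite_toSet _)).trans ?_
  rw [Set.ncard_coe_finset, Finset.card_product, Fintype.card_piFinset, Finset.prod_const,
    Finset.card_univ, Finset.card_univ, Fintype.card_option]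
  refine Nat.mul_le_mul_right _ (Nat.pow_le_pow_left ?_ _)
  rwa [Set.ncard_eq_toFinset_card _ hfin] at hcard

/-- Use `φ0⁻¹ * φ.map ψ` (`Conj.mp`, `conj_iff`). -/
theorem nfs_stable [Infinite K] {u : (ι × Mn ι d) ⊕ ι → K} (ψ : K →+* K) {φ0 : Matrix ι ι K}
    {a0 b0 : K} (hφ : φ0.det ≠ 0) (ha : a0 ≠ 0) (hb : b0 ≠ 0) (h : Acts φ0 a0 b0 u (ψ ∘ u))
    {w : (ι × MnS ι d) ⊕ ι → K} (hw : w ∈ NFs u) : ψ ∘ w ∈ NFs u := by
  obtain ⟨φ, a, b, hφ1, ha1, hb1, ⟨hc, hp⟩, i, hi⟩ := hw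
  rw [Sum.elim_comp_inl] at hc
  rw [Sum.elim_comp_inr] at hp
  obtain ⟨hc0, hp0⟩ := h
  have hu : IsUnit φ0.det := hφ.isUnit
  have hc1 := hc.mp ψ
  simp only [map_Fp, map_sl] at hc1
  have hinv : ∀ y, φ0.mulVec ((φ0⁻¹ * φ.map ψ).mulVec y) = (φ.map ψ).mulVec y := fun y => by
    rw [Matrix.mulVec_mulVec, ← Matrix.mul_assoc, Matrix.mul_nonsing_inv _ hu, Matrix.one_mul]
  refine ⟨φ0⁻¹ * φ.map ψ, a0⁻¹ * ψ a, b0⁻¹ * ψ b, ?_, ?_, ?_, ⟨?_, ?_⟩, i, ?_⟩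
  · rw [Matrix.det_mul, Matrix.det_nonsing_inv, Ring.inverse_eq_inv']
    refine mul_ne_zero (inv_ne_zero hφ) ?_
    rw [← RingHom.mapMatrix_apply, ← RingHom.map_det]
    exact (map_ne_zero ψ).2 hφ1
  · exact mul_ne_zero (inv_ne_zero ha) ((map_ne_zero ψ).2 ha1)
  · exact mul_ne_zero (inv_ne_zero hb) ((map_ne_zero ψ).2 hb1)
  · rw [Sum.elim_comp_inl, conj_iff]
    intro y
    apply nf2_inj hφ
    have h1 := conj_iff.1 hc0 ((φ0⁻¹ * φ.map ψ).mulVec y)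
    have h2 := conj_iff.1 hc1 y
    rw [hinv] at h1
    rw [Matrix.mulVec_smul, hinv, mul_smul]
    exact ((inv_smul_eq_iff₀ ha).2 (h2.symm.trans h1)).symm
  · rw [Sum.elim_comp_inr]
    apply nf2_inj hφ
    rw [Matrix.mulVec_smul, hinv, mul_smul]
    refine ((inv_smul_eq_iff₀ hb).2 ?_).symm
    rw [← hp0]
    funext j
    have := congrFun hp j
    simp only [Function.comp, Pi.smul_apply, smul_eq_mul] at this ⊢
    rw [this, map_mul, RingHom.map_mulVec]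
    rfl
  · rw [Function.comp, hi, map_one]

theorem acts_one (u : (ι × Mn ι d) ⊕ ι → K) : Acts (1 : Matrix ι ι K) 1 1 u u := by
  constructor
  · intro i
    have e : lin (1 : Matrix ι ι K) = X := by
      funext j
      simp [lin, Matrix.one_apply]
    rw [e]
    simp [Matrix.one_apply]
  · rw [Matrix.one_mulVec, one_smul]

theorem Acts.mp {L : Type} [Field L] (f : K →+* L) {φ : Matrix ι ι K} {a b : K}
    {u u' : (ι × Mn ι d) ⊕ ι → K} (h : Acts φ a b u u') :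
    Acts (φ.map f) (f a) (f b) (f ∘ u) (f ∘ u') := by
  obtain ⟨hc, hp⟩ := h
  constructor
  · have h1 := hc.mp f
    simp only [map_Fp] at h1
    exact h1
  · funext j
    have := congrFun hp j
    simp only [Function.comp, Pi.smul_apply, smul_eq_mul] at this ⊢
    rw [this, map_mul, RingHom.map_mulVec]
    rfl

/-- `nf_exists`; normalise `φ⁻¹ p` at a nonzero coordinate. -/
theorem nfs_exists [IsAlgClosed K] [Algebra ℂ K] (hd : 2 ≤ d) {u : (ι × Mn ι d) ⊕ ι → K}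
    (hc : AlgebraicIndependent ℂ (u ∘ Sum.inl)) (hp : u ∘ Sum.inr ≠ 0) {n : ℕ}
    (hper : ExactPer (ap (Fp (u ∘ Sum.inl))) n (u ∘ Sum.inr)) :
    ∃ w ∈ NFs u, AlgebraicIndependent ℂ (w ∘ Sum.inl) ∧
      ExactPer (ap (Fp (sl (w ∘ Sum.inl)))) n (w ∘ Sum.inr) := by
  obtain ⟨φ, cS, hφ, hconj, hind⟩ := nf_exists hd hc
  have hu : IsUnit φ.det := hφ.isUnit
  have hq : φ.mulVec (φ⁻¹.mulVec (u ∘ Sum.inr)) = u ∘ Sum.inr := by
    rw [Matrix.mulVec_mulVec, Matrix.mul_nonsing_inv _ hu, Matrix.one_mulVec]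
  generalize φ⁻¹.mulVec (u ∘ Sum.inr) = q at hq
  have hq0 : q ≠ 0 := by
    rintro rfl
    rw [Matrix.mulVec_zero] at hq
    exact hp hq.symm
  obtain ⟨i, hi⟩ := Function.ne_iff.1 hq0
  have hi' : q i ≠ 0 := hi
  have e : u ∘ Sum.inr = q i • φ.mulVec ((q i)⁻¹ • q) := by
    rw [Matrix.mulVec_smul, smul_inv_smul₀ hi', hq]
  refine ⟨Sum.elim cS ((q i)⁻¹ • q), ⟨φ, 1, q i, hφ, one_ne_zero, hi', ⟨hconj, e⟩, i, ?_⟩, hind, ?_⟩
  · simp [hi']
  · rw [e] at hper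
    exact (exactPer_conj (Fp_hm _) hφ one_ne_zero hi' hconj).1 hper

end Pool.Agent.Lib.MP_0dd0d9_ag.Hi
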