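import Pool.Agent.Lib.MP_0dd0d9_ag.Hi.GP1
import Pool.Agent.Lib.MP_0dd0d9_ag.Hi.DerX
import Pool.Agent.Lib.MP_0dd0d9_ag.Hi.NF2

/-!
TASK gh GP2.  General position for the generic map of the slice and a generic derivation.
-/

namespace Pool.Agent.Lib.MP_0dd0d9_ag.Hi

open MvPolynomial

variable {ι : Type} [Fintype ι] [DecidableEq ι] {d : ℕ}

theorem gp2_deg_lin {Ω σ : Type} [Field Ω] [Fintype σ] (A : Matrix σ σ Ω) (i : σ) :
    (lin A i).totalDegree ≤ 1 := by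
  refine totalDegree_finsetSum_le fun j _ => (totalDegree_mul _ _).trans ?_
  rw [totalDegree_C, totalDegree_X]

theorem gp2_deg_bind {Ω σ : Type} [Field Ω] [Fintype σ] (A : Matrix σ σ Ω)
    (Φ : MvPolynomial σ Ω) : (bind₁ (lin A) Φ).totalDegree ≤ Φ.totalDegree := by
  conv_lhs => rw [Φ.as_sum, map_sum]
  refine totalDegree_finsetSum_le fun α hα => ?_
  rw [bind₁_monomial]
  refine (totalDegree_mul _ _).trans ?_
  rw [totalDegree_C, zero_add]
  refine (totalDegree_finsetProd _ _).trans (le_trans ?_ (le_totalDegree hα))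
  refine Finset.sum_le_sum fun i _ => (totalDegree_pow _ _).trans ?_
  exact (Nat.mul_le_mul_left _ (gp2_deg_lin A i)).trans (Nat.mul_one _).le

theorem gp2_bind_lin {Ω σ : Type} [Field Ω] [Fintype σ] [DecidableEq σ] {A B : Matrix σ σ Ω}
    (h : B * A = 1) (i : σ) : bind₁ (lin A) (lin B i) = X i := by
  have e : ∀ k, ∑ j, (C (B i j) * C (A j k) : MvPolynomial σ Ω) = C ((B * A) i k) := fun k => by
    rw [Matrix.mul_apply, map_sum]
    simp only [map_mul]
  simp only [lin, map_sum, map_mul, bind₁_C_right, bind₁_X_right, Finset.mul_sum]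
  rw [Finset.sum_comm]
  simp only [← mul_assoc, ← Finset.sum_mul, e, h, Matrix.one_apply]
  rw [Finset.sum_eq_single i]
  · simp
  · intro k _ hk
    rw [if_neg (Ne.symm hk)]
    simp
  · simp

/-- An invertible linear change of coordinates: if `Φ` vanishes on `P`, then
`bind₁ (lin A⁻¹) Φ` vanishes on `A P`, has degree at most `E`, and determines `Φ`. -/
theorem NoRel.of_lin {Ω σ Λ : Type} [Field Ω] [Fintype σ] [DecidableEq σ] {E : ℕ} {P : Λ → σ → Ω}
    {A : Matrix σ σ Ω} (hA : A.det ≠ 0) (h : NoRel E fun l => A.mulVec (P l)) : NoRel E P := by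
  intro Φ hΦ hP
  have hBA : A⁻¹ * A = 1 := Matrix.nonsing_inv_mul A (Ne.isUnit hA)
  have h0 : bind₁ (lin A⁻¹) Φ = 0 := by
    refine h _ ((gp2_deg_bind _ Φ).trans hΦ) fun l => ?_
    rw [← coe_aeval_eq_eval]
    change aeval _ _ = _
    rw [aeval_bind₁, aeval_lin]
    have e : (A⁻¹.map (algebraMap Ω Ω)) = A⁻¹ := rfl
    rw [e, Matrix.mulVec_mulVec, hBA, Matrix.one_mulVec]
    exact hP l
  have h1 : bind₁ (lin A) (bind₁ (lin A⁻¹) Φ) = Φ := by
    rw [bind₁_bind₁, show (fun i => bind₁ (lin A) (lin A⁻¹ i)) = X from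
      funext (gp2_bind_lin hBA), bind₁_X_left]
    rfl
  rw [← h1, h0, map_zero]

/-- `(φ Z, D (φ Z)) = fromBlocks φ 0 (φ.map D) φ * (Z, D Z)`. -/
theorem NoRel.of_conj {Ω Λ : Type} [Field Ω] [Algebra ℂ Ω] {E : ℕ} (D : Derivation ℂ Ω Ω)
    {φ : Matrix ι ι Ω} (hφ : φ.det ≠ 0) {Z : Λ → ι → Ω}
    (h : NoRel E fun l => Sum.elim (φ.mulVec (Z l)) (D ∘ φ.mulVec (Z l))) :
    NoRel E fun l => Sum.elim (Z l) (D ∘ Z l) := by
  refine NoRel.of_lin (A := Matrix.fromBlocks φ 0 (φ.map D) φ) ?_ ?_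
  · rw [Matrix.det_fromBlocks_zero₁₂]
    exact mul_ne_zero hφ hφ
  · have e : ∀ l, (Matrix.fromBlocks φ 0 (φ.map D) φ).mulVec (Sum.elim (Z l) (D ∘ Z l)) =
        Sum.elim (φ.mulVec (Z l)) (D ∘ φ.mulVec (Z l)) := fun l => by
      rw [Matrix.fromBlocks_mulVec]
      simp only [Sum.elim_comp_inl, Sum.elim_comp_inr, Matrix.zero_mulVec, add_zero]
      congr 1
      funext i
      simp only [Matrix.mulVec, dotProduct, Pi.add_apply, Function.comp, map_sum,
        Derivation.leibniz, smul_eq_mul, Matrix.map_apply, ← Finset.sum_add_distrib]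
      exact Finset.sum_congr rfl fun j _ => by ring
    simp only [e]
    exact h

/-- An algebraically closed field with a transcendence basis indexed by `I`. -/
theorem gp2_univ (I : Type) :
    ∃ (U : Type) (_ : Field U) (_ : Algebra ℂ U) (_ : IsAlgClosed U) (g : I → U),
      IsTranscendenceBasis ℂ g := by
  have : Algebra.IsAlgebraic (MvPolynomial I ℂ) (FractionRing (MvPolynomial I ℂ)) :=
    IsLocalization.isAlgebraic _ (nonZeroDivisors (MvPolynomial I ℂ))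
  refine ⟨AlgebraicClosure (FractionRing (MvPolynomial I ℂ)), inferInstance, inferInstance,
    inferInstance, _, ((IsTranscendenceBasis.mvPolynomial I ℂ).algebraMap_comp
      (A := FractionRing (MvPolynomial I ℂ))).algebraMap_comp⟩

/-- Periodic vectors of the generic map of the slice come from `U`. -/
theorem gp2_desc (hd : 2 ≤ d) {U Ω : Type} [Field U] [Algebra ℂ U] [IsAlgClosed U] [Field Ω]
    (f : U →+* Ω) {g : ι × MnS ι d → U} (hg : AlgebraicIndependent ℂ g) {n : ℕ} (hn : 1 ≤ n)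
    {Z : ι → Ω} (hZ : (ap (Fp (sl (f ∘ g))))^[n] Z = Z) : ∃ ZU : ι → U, f ∘ ZU = Z := by
  let _ : Algebra U Ω := f.toAlgebra
  have e : (ap (Fp (sl (f ∘ g))) : (ι → Ω) → ι → Ω) = ap (Fp (sl g)) := by
    funext y
    rw [← ap_map (Fp (sl g)) y, ← map_sl]
    congr 1
    funext a
    exact (map_Fp f (sl g) a).symm
  rw [e] at hZ
  have hi := per_integral hd hn (reg_slice hg) (Fp_hm _) hZ
  have hr : ∀ a, ∃ z : U, f z = Z a := fun a =>
    minpoly.mem_range_of_degree_eq_one U (Z a)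
      (IsAlgClosed.degree_eq_one_of_irreducible U (minpoly.irreducible (hi a)))
  choose ZU hZU using hr
  exact ⟨ZU, funext hZU⟩

theorem gp2_iter {U Ω : Type} [Field U] [Field Ω] (f : U →+* Ω) (g : ι × MnS ι d → U)
    (y : ι → U) (n : ℕ) :
    f ∘ (ap (Fp (sl g)))^[n] y = (ap (Fp (sl (f ∘ g))))^[n] (f ∘ y) := by
  rw [hom_ap_iter, ← map_sl]
  congr 2
  funext a
  exact map_Fp f (sl g) a

theorem gp2_exact {U Ω : Type} [Field U] [Field Ω] (f : U →+* Ω) (g : ι × MnS ι d → U)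
    {y : ι → U} (hy : y ≠ 0) (n : ℕ) :
    ExactPer (ap (Fp (sl (f ∘ g)))) n (f ∘ y) ↔ ExactPer (ap (Fp (sl g))) n y := by
  rw [← exactPer_map f hy, ← map_sl]
  have e : (fun a => map f (Fp (sl g) a)) = Fp (f ∘ sl g) := funext fun a => map_Fp f (sl g) a
  rw [e]

theorem gp2_orb {U Ω : Type} [Field U] [Field Ω] [Algebra ℂ U] [Algebra ℂ Ω] (f : U →ₐ[ℂ] Ω)
    (g : ι × MnS ι d → U) (y : ι → U) {n : ℕ} (l : Ix d n) :
    f ∘ orb (Fp (sl g)) y l = orb (Fp (sl (f ∘ g))) (f ∘ y) l := by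
  have e := gp2_iter (f : U →+* Ω) g y l.2
  simp only [RingHom.coe_coe] at e
  rw [orb, orb, ← e]
  funext a
  simp only [Function.comp, Pi.smul_apply, smul_eq_mul, map_mul, AlgHom.commutes]

omit [DecidableEq ι] in
theorem gp2_conj_iter {K : Type} [Field K] [Infinite K] {φ : Matrix ι ι K}
    {F F' : ι → MvPolynomial ι K} (h : Conj φ 1 F F') (y : ι → K) (n : ℕ) :
    (ap F')^[n] (φ.mulVec y) = φ.mulVec ((ap F)^[n] y) := by
  induction n with
  | zero => rfl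
  | succ n ih =>
    rw [Function.iterate_succ_apply', Function.iterate_succ_apply', ih, conj_iff.1 h, one_smul]

/-- Let `U` be the algebraic closure of the field of rational functions in the slice coordinates
`g`, `f0 : U → Ω` with `f0 ∘ g = c` (`emb_exists`); `Z = f0 ∘ ZU` (`per_integral`, `reg_slice`,
`mem_range_of_alg`).  Let `Ω1` be the algebraic closure of the field of rational functions in the
total coordinates `cT`, `φ`, `cS` from `nf_exists`, `f1 : U → Ω1` with `f1 ∘ g = cS`, and `D1` with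
`D1 ∘ cT = w0` (`der_indep`).  Apply `gp_tot` to `φ (f1 ∘ ZU)` (`exactPer_map`, `conj_iff`,
`exactPer_conj` with `b = 1`), then
`NoRel.of_conj` and `der_transfer`. -/
theorem gp [Nontrivial ι] (hd : 2 ≤ d) (E : ℕ) :
    ∃ n0, ∀ n, n0 ≤ n → ∀ (Ω : Type) [Field Ω] [Algebra ℂ Ω] [IsAlgClosed Ω]
      (D : Derivation ℂ Ω Ω) (c : ι × MnS ι d → Ω),
      AlgebraicIndependent ℂ (Sum.elim c (D ∘ c)) →
      ∀ Z : ι → Ω, (ap (Fp (sl c)))^[n] Z = Z → Z ≠ 0 → ExactPer (ap (Fp (sl c))) n Z →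
      NoRel E fun l : Ix d n => Sum.elim (orb (Fp (sl c)) Z l) (D ∘ orb (Fp (sl c)) Z l) := by
  obtain ⟨a1, a0, h01⟩ := exists_pair_ne ι
  obtain ⟨n0, hn0⟩ := gp_tot (ι := ι) hd h01 E
  refine ⟨max n0 1, fun n hn Ω _ _ _ D c hc Z hZ hZ0 hper => ?_⟩
  obtain ⟨U, _, _, _, g, hg⟩ := gp2_univ (ι × MnS ι d)
  obtain ⟨Ω1, _, _, _, cT, hcT⟩ := gp2_univ (ι × Mn ι d)
  have hc1 : AlgebraicIndependent ℂ c := hc.comp Sum.inl Sum.inl_injective
  obtain ⟨f0, hf0⟩ := emb_exists hg hc1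
  obtain rfl : f0 ∘ g = c := funext hf0
  obtain ⟨ZU, hZU⟩ := gp2_desc hd (f0 : U →+* Ω) hg.1 ((le_max_right _ _).trans hn) hZ
  simp only [RingHom.coe_coe] at hZU
  subst hZU
  have hZU0 : ZU ≠ 0 := by
    rintro rfl
    exact hZ0 (funext fun a => map_zero f0)
  have hZU : (ap (Fp (sl g)))^[n] ZU = ZU := by
    have e := (gp2_iter (f0 : U →+* Ω) g ZU n).trans hZ
    funext a
    exact (f0 : U →+* Ω).injective (congrFun e a)
  have hperU : ExactPer (ap (Fp (sl g))) n ZU := (gp2_exact (f0 : U →+* Ω) g hZU0 n).1 hper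
  obtain ⟨φ, cS, hφ, hconj, hcS⟩ := nf_exists hd hcT.1
  obtain ⟨f1, hf1⟩ := emb_exists hg hcS
  obtain rfl : f1 ∘ g = cS := funext hf1
  have : CharZero Ω1 := charZero_of_injective_algebraMap (algebraMap ℂ Ω1).injective
  obtain ⟨D1, hD1⟩ := der_indep hcT.1 fun x => algebraMap ℂ Ω1 (w0 a0 a1 x)
  have hZ1 : (ap (Fp (sl (f1 ∘ g))))^[n] (f1 ∘ ZU) = f1 ∘ ZU := by
    have e := (gp2_iter (f1 : U →+* Ω1) g ZU n).symm
    rw [hZU] at e
    exact e
  have hZ10 : f1 ∘ ZU ≠ 0 := fun h => hZU0 (funext fun a =>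
    (f1 : U →+* Ω1).injective ((congrFun h a).trans (map_zero f1).symm))
  have hper1 : ExactPer (ap (Fp (sl (f1 ∘ g)))) n (f1 ∘ ZU) :=
    (gp2_exact (f1 : U →+* Ω1) g hZU0 n).2 hperU
  have hW : (ap (Fp cT))^[n] (φ.mulVec (f1 ∘ ZU)) = φ.mulVec (f1 ∘ ZU) := by
    rw [gp2_conj_iter hconj, hZ1]
  have hW0 : φ.mulVec (f1 ∘ ZU) ≠ 0 := fun h => hZ10 (Matrix.eq_zero_of_mulVec_eq_zero hφ h)
  have hWper : ExactPer (ap (Fp cT)) n (φ.mulVec (f1 ∘ ZU)) := by
    have := (exactPer_conj (Fp_hm cT) hφ one_ne_zero one_ne_zero hconj (b := 1)).2 hper1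
    rwa [one_smul] at this
  have h1 := hn0 n ((le_max_left _ _).trans hn) Ω1 cT hcT.1 D1 hD1 _ hW hW0 hWper
  have e1 : ∀ l : Ix d n, orb (Fp cT) (φ.mulVec (f1 ∘ ZU)) l =
      φ.mulVec (f1 ∘ orb (Fp (sl g)) ZU l) := fun l => by
    rw [gp2_orb, orb, orb, gp2_conj_iter hconj, Matrix.mulVec_smul]
  simp only [e1] at h1
  have h2 := NoRel.of_conj D1 hφ (Z := fun l : Ix d n => f1 ∘ orb (Fp (sl g)) ZU l) h1
  intro Φ hΦ h
  refine der_transfer hg (fun l : Ix d n => orb (Fp (sl g)) ZU l) E f0 D f1 D1 hc h2 Φ hΦ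
    fun l => ?_
  rw [gp2_orb]
  exact h l

end Pool.Agent.Lib.MP_0dd0d9_ag.Hi
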