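import Pool.Agent.Lib.MP_0dd0d9_ag.Hi.Glob1

/-!
TASK gh Glob2.  A finite system of places with product formula and few bad places.
-/

namespace Pool.Agent.Lib.MP_0dd0d9_ag.Hi

open Polynomial

section aux

variable {K : Type} [Field K] {v : AbsoluteValue K ℝ}

theorem glob2_exp_posLog {x : ℝ} (hx : 0 ≤ x) : Real.exp (Real.posLog x) = max 1 x := by
  rw [Real.posLog_eq_log_max_one hx, Real.exp_log (lt_of_lt_of_le one_pos (le_max_left _ _))]

theorem glob2_coeff (hna : IsNonarchimedean v) {ι : Type} (s : Finset ι) (w : ι → K) (n : ℕ) :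
    v ((∏ i ∈ s, (X - C (w i))).coeff n) ≤ Real.exp (∑ i ∈ s, Real.posLog (v (w i))) := by
  have h := mono_coeff hna (s.val.map w) zero_le_one n
  rw [one_pow, mul_one, Multiset.map_map, Multiset.map_map] at h
  rw [Real.exp_sum]
  simp only [glob2_exp_posLog (v.nonneg _)]
  exact h

theorem glob2_root_le (hna : IsNonarchimedean v) {P : K[X]} (hP : P.Monic)
    (hc : ∀ i, v (P.coeff i) ≤ 1) {w : K} (hw : P.eval w = 0) : v w ≤ 1 := by
  by_contra h1
  rw [not_le] at h1
  have h0 : 0 < v w := lt_trans one_pos h1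
  rw [eval_eq_sum_range, Finset.sum_range_succ, hP.coeff_natDegree, one_mul] at hw
  have e1 : v w ^ P.natDegree = v (∑ i ∈ Finset.range P.natDegree, P.coeff i * w ^ i) := by
    rw [← map_pow, eq_neg_of_add_eq_zero_right hw, AbsoluteValue.map_neg]
  have e2 : v (∑ i ∈ Finset.range P.natDegree, P.coeff i * w ^ i) ≤ v w ^ P.natDegree / v w := by
    refine ht_sum_le hna _ _ (by positivity) fun i hi => ?_
    have hi' := Finset.mem_range.1 hi
    rw [map_mul, map_pow, le_div_iff₀ h0, mul_assoc, ← pow_succ]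
    calc v (P.coeff i) * v w ^ (i + 1) ≤ 1 * v w ^ P.natDegree :=
          mul_le_mul (hc i) (pow_le_pow_right₀ h1.le hi') (by positivity) zero_le_one
      _ = v w ^ P.natDegree := one_mul _
  rw [← e1, le_div_iff₀ h0] at e2
  have e3 := pow_pos h0 P.natDegree
  nlinarith

theorem glob2_der_le (hna : IsNonarchimedean v) (Rt : Finset K) {w : K} (hw : w ∈ Rt) :
    v ((derivative (∏ a ∈ Rt, (X - C a))).eval w) ≤
      Real.exp (∑ a ∈ Rt, Real.posLog (v a)) ^ Rt.card := by
  classical
  have hE : ∀ a ∈ Rt, v a ≤ Real.exp (∑ a ∈ Rt, Real.posLog (v a)) := fun a ha =>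
    ht_le_exp (Finset.single_le_sum (f := fun a => Real.posLog (v a))
      (fun _ _ => Real.posLog_nonneg) ha)
  have h1 : 1 ≤ Real.exp (∑ a ∈ Rt, Real.posLog (v a)) :=
    Real.one_le_exp (Finset.sum_nonneg fun _ _ => Real.posLog_nonneg)
  have e : (derivative (∏ a ∈ Rt, (X - C a))).eval w = ∏ a ∈ Rt.erase w, (w - a) :=
    eval_multiset_prod_X_sub_C_derivative (S := Rt.val) hw
  rw [e, map_prod]
  calc ∏ a ∈ Rt.erase w, v (w - a)
      ≤ ∏ _a ∈ Rt.erase w, Real.exp (∑ a ∈ Rt, Real.posLog (v a)) := by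
        refine Finset.prod_le_prod (fun _ _ => v.nonneg _) fun a ha => ?_
        have h2 := hna w (-a)
        rw [← sub_eq_add_neg, v.map_neg] at h2
        exact h2.trans (max_le (hE w hw) (hE a (Finset.mem_of_mem_erase ha)))
    _ = Real.exp (∑ a ∈ Rt, Real.posLog (v a)) ^ (Rt.erase w).card := Finset.prod_const _
    _ ≤ _ := pow_le_pow_right₀ h1 Finset.card_erase_le

theorem glob2_split {F : Type} [Field F] [CharZero F] [Algebra F K] [IsAlgClosed K] {z : K}
    (hz : IsIntegral F z) (Rt : Finset K) (hRt : ∀ w, w ∈ Rt ↔ aeval w (minpoly F z) = 0) :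
    (minpoly F z).map (algebraMap F K) = ∏ a ∈ Rt, (X - C a) ∧
      Rt.card = (minpoly F z).natDegree := by
  classical
  have hm : ((minpoly F z).map (algebraMap F K)).Monic := (minpoly.monic hz).map _
  have hsep : ((minpoly F z).map (algebraMap F K)).Separable :=
    (minpoly.irreducible hz).separable.map
  have hs := IsAlgClosed.splits ((minpoly F z).map (algebraMap F K))
  have hr : ((minpoly F z).map (algebraMap F K)).roots = Rt.val := by
    refine (Multiset.Nodup.ext (nodup_roots hsep) Rt.nodup).2 fun w => ?_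
    rw [mem_roots hm.ne_zero, IsRoot.def, eval_map_algebraMap, ← hRt]
    rfl
  constructor
  · have h1 := hs.eq_prod_roots_of_monic hm
    rw [hr] at h1
    exact h1
  · have h1 := hs.natDegree_eq_card_roots
    rw [hr, natDegree_map] at h1
    exact h1.symm

theorem glob2_disc {F : Type} [Field F] [CharZero F] [Algebra F K] [IsAlgClosed K]
    [Algebra.IsAlgebraic F K] (P : F[X]) (Rt : Finset K) (hRt : ∀ w, w ∈ Rt ↔ aeval w P = 0) :
    ∏ w ∈ Rt, aeval w (derivative P) ∈ Set.range (algebraMap F K) := by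
  classical
  have : IsAlgClosure F K := ⟨inferInstance, inferInstance⟩
  have : IsGalois F K := {}
  rw [InfiniteGalois.mem_range_algebraMap_iff_fixed]
  intro σ
  rw [map_prod]
  have hmem : ∀ (τ : K ≃ₐ[F] K) w, w ∈ Rt → τ w ∈ Rt := fun τ w hw => by
    rw [hRt, aeval_algHom_apply, (hRt w).1 hw, map_zero]
  refine Finset.prod_nbij' σ σ.symm (hmem σ) (hmem σ.symm) (fun w _ => σ.symm_apply_apply w)
    (fun w _ => σ.apply_symm_apply w) fun w _ => ?_
  rw [aeval_algHom_apply]

end aux

variable {k K : Type} [Field k] [CharZero k] [Field K] [Algebra k K] [IsAlgClosed k]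
  [IsAlgClosed K] {t : K} {av : Option k → AbsoluteValue K ℝ}

/-- One element `z` with minimal polynomial `P` of degree `b ≤ B` and set of roots `Rt`.  Put
`m p = ∑ w ∈ Rt, posLog (av p w)` and `δ = ∏ w ∈ Rt, P'(w) ∈ k(t)`, nonzero.  Let `bad` be the set
of places where some coefficient of `P` or `δ⁻¹` has a pole.  A pole of a coefficient gives
`1 ≤ log |coeff| ≤ m p`.  By `Places.discrete` and `pf_sum` the number of zeros of `δ` in `S` is
at most `∑ posLog |δ⁻¹| = ∑ posLog |δ| ≤ B ^ 2 * ∑ m p` when `S` is large.  At the other places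
all roots are integral, each `|P'(w)| ≤ 1` with product `1`, and `Places.der_root` applies. -/
theorem glob_one (h : Places t av)
    (halg : Algebra.IsAlgebraic (IntermediateField.adjoin k {t}) K) (D : Derivation k K K)
    (hD : D t = 1) {B : ℕ} {z : K}
    (hB : (minpoly (IntermediateField.adjoin k {t}) z).natDegree ≤ B) (Rt : Finset K)
    (hRt : ∀ w, w ∈ Rt ↔ aeval w (minpoly (IntermediateField.adjoin k {t}) z) = 0) :
    ∃ bad S0 : Finset (Option k), (∀ p ∉ bad, ∀ w ∈ Rt, av p w ≤ 1 ∧ av p (D w) ≤ 1) ∧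
      ∀ S : Finset (Option k), S0 ⊆ S →
        (bad.card : ℝ) ≤ (B ^ 2 + 1) * ∑ p ∈ S, ∑ w ∈ Rt, Real.posLog (av p w) := by
  classical
  set F := IntermediateField.adjoin k {t} with hF
  have : CharZero F := algebraRat.charZero F
  have hz : IsIntegral F z := (halg.isAlgebraic z).isIntegral
  obtain ⟨hsplit, hcard⟩ := glob2_split hz Rt hRt
  set P := minpoly F z with hP
  have hsep : P.Separable := (minpoly.irreducible hz).separable
  have hmon : P.Monic := minpoly.monic hz
  obtain ⟨δ, hδ⟩ : ∃ δ : K, δ = ∏ w ∈ Rt, aeval w (derivative P) := ⟨_, rfl⟩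
  have hδF : δ ∈ F := by
    obtain ⟨a, ha⟩ := glob2_disc P Rt hRt
    rw [hδ, ← ha]
    exact a.2
  have hδ0 : δ ≠ 0 := by
    rw [hδ]
    exact Finset.prod_ne_zero_iff.2 fun w hw => hsep.aeval_derivative_ne_zero ((hRt w).1 hw)
  obtain ⟨m, hm⟩ : ∃ m : Option k → ℝ, ∀ p, m p = ∑ w ∈ Rt, Real.posLog (av p w) :=
    ⟨_, fun _ => rfl⟩
  have hm0 : ∀ p, 0 ≤ m p := fun p => by
    rw [hm]
    exact Finset.sum_nonneg fun _ _ => Real.posLog_nonneg
  have hcoef : ∀ p i, av p (P.coeff i : K) ≤ Real.exp (m p) := fun p i => by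
    have h1 := glob2_coeff (h.na p) Rt id i
    simp only [id] at h1
    rw [← hsplit, coeff_map, ← hm] at h1
    exact h1
  have hder : ∀ p, ∀ w ∈ Rt, av p (aeval w (derivative P)) ≤ Real.exp (m p) ^ Rt.card :=
    fun p w hw => by
      have h1 := glob2_der_le (h.na p) Rt hw
      rwa [← hsplit, derivative_map, eval_map_algebraMap, ← hm] at h1
  have hδle : ∀ p, Real.posLog (av p δ) ≤ B ^ 2 * m p := fun p => by
    have h1 : av p δ ≤ Real.exp (B ^ 2 * m p) := by
      rw [hδ, map_prod]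
      calc ∏ w ∈ Rt, av p (aeval w (derivative P)) ≤ ∏ _w ∈ Rt, Real.exp (m p) ^ Rt.card :=
            Finset.prod_le_prod (fun _ _ => (av p).nonneg _) (hder p)
        _ = Real.exp (m p) ^ (Rt.card * Rt.card) := by rw [Finset.prod_const, pow_mul]
        _ ≤ Real.exp (m p) ^ (B ^ 2) := by
            refine pow_le_pow_right₀ (Real.one_le_exp (hm0 p)) ?_
            rw [hcard, pow_two]
            exact Nat.mul_le_mul hB hB
        _ = Real.exp (B ^ 2 * m p) := by
            rw [← Real.exp_nat_mul]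
            push_cast
            rfl
    have h2 := Real.posLog_le_posLog ((av p).nonneg _) h1
    rwa [Real.posLog_eq_log (x := Real.exp (B ^ 2 * m p)) (by
      rw [abs_of_pos (Real.exp_pos _)]
      exact Real.one_le_exp (mul_nonneg (by positivity) (hm0 p))), Real.log_exp] at h2
  let bad1 : Finset (Option k) :=
    P.support.biUnion fun i => (h.fin_poles (P.coeff i).2).toFinset
  let bad2 : Finset (Option k) := (h.fin_poles (inv_mem hδF)).toFinset
  have hbad1 : ∀ p, p ∈ bad1 ↔ ∃ i, 1 < av p (P.coeff i : K) := fun p => by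
    simp only [bad1, Finset.mem_biUnion, Set.Finite.mem_toFinset, Set.mem_ofPred_eq]
    constructor
    · rintro ⟨i, -, hi⟩
      exact ⟨i, hi⟩
    · rintro ⟨i, hi⟩
      refine ⟨i, mem_support_iff.2 fun e => ?_, hi⟩
      rw [e] at hi
      simp only [ZeroMemClass.coe_zero, map_zero] at hi
      linarith
  have hbad2 : ∀ p, p ∈ bad2 ↔ 1 < av p δ⁻¹ := fun p => by
    simp only [bad2, Set.Finite.mem_toFinset, Set.mem_ofPred_eq]
  obtain ⟨P0, hP0⟩ := pf_sum h hδF hδ0
  refine ⟨bad1 ∪ bad2, bad1 ∪ bad2 ∪ P0, fun p hp w hw => ?_, fun S hS => ?_⟩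
  · rw [Finset.mem_union, not_or, hbad1, hbad2, not_exists, not_lt] at hp
    have hroot : ∀ y : K, aeval y P = 0 → av p y ≤ 1 := fun y hy => by
      refine glob2_root_le (h.na p) (hmon.map (algebraMap F K)) (fun i => ?_)
        (by rwa [eval_map_algebraMap])
      rw [coeff_map]
      exact not_lt.1 (hp.1 i)
    have hmp : m p = 0 := by
      rw [hm]
      refine Finset.sum_eq_zero fun y hy => (Real.posLog_eq_zero_iff _).2 ?_
      rw [abs_of_nonneg ((av p).nonneg _)]
      exact hroot y ((hRt y).1 hy)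
    have hd1 : ∀ y ∈ Rt, av p (aeval y (derivative P)) ≤ 1 := fun y hy => by
      have h1 := hder p y hy
      rwa [hmp, Real.exp_zero, one_pow] at h1
    have h2 : 1 ≤ av p δ := by
      have h3 := hp.2
      rwa [map_inv₀, inv_le_one₀ ((av p).pos hδ0)] at h3
    have h4 : 1 ≤ av p (aeval w (derivative P)) := by
      rw [hδ, map_prod, ← Finset.mul_prod_erase _ _ hw] at h2
      refine h2.trans (mul_le_of_le_one_right ((av p).nonneg _) ?_)
      exact Finset.prod_le_one (fun _ _ => (av p).nonneg _)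
        fun y hy => hd1 y (Finset.mem_of_mem_erase hy)
    refine ⟨hroot w ((hRt w).1 hw), ?_⟩
    have h5 := h.der_root D hD p P hmon hroot ((hRt w).1 hw)
    exact (le_mul_of_one_le_left ((av p).nonneg _) h4).trans h5
  · simp only [← hm]
    have hS1 : bad1 ⊆ S := (Finset.subset_union_left.trans Finset.subset_union_left).trans hS
    have hS2 : bad2 ⊆ S := (Finset.subset_union_right.trans Finset.subset_union_left).trans hS
    have c1 : (bad1.card : ℝ) ≤ ∑ p ∈ S, m p := by
      calc (bad1.card : ℝ) = ∑ _p ∈ bad1, (1 : ℝ) := by simp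
        _ ≤ ∑ p ∈ bad1, m p := by
            refine Finset.sum_le_sum fun p hp => ?_
            obtain ⟨i, hi⟩ := (hbad1 p).1 hp
            refine (h.discrete (P.coeff i).2 hi).trans ?_
            rw [Real.log_le_iff_le_exp (lt_trans one_pos hi)]
            exact hcoef p i
        _ ≤ ∑ p ∈ S, m p := Finset.sum_le_sum_of_subset_of_nonneg hS1 fun p _ _ => hm0 p
    have c2 : (bad2.card : ℝ) ≤ B ^ 2 * ∑ p ∈ S, m p := by
      have e0 := hP0 S (Finset.subset_union_right.trans hS)
      calc (bad2.card : ℝ) = ∑ _p ∈ bad2, (1 : ℝ) := by simp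
        _ ≤ ∑ p ∈ bad2, Real.posLog (av p δ)⁻¹ := by
            refine Finset.sum_le_sum fun p hp => ?_
            have h1 := h.discrete (inv_mem hδF) ((hbad2 p).1 hp)
            rw [map_inv₀] at h1
            exact h1.trans (le_max_right _ _)
        _ ≤ ∑ p ∈ S, Real.posLog (av p δ)⁻¹ :=
            Finset.sum_le_sum_of_subset_of_nonneg hS2 fun p _ _ => Real.posLog_nonneg
        _ = ∑ p ∈ S, (Real.posLog (av p δ) - Real.log (av p δ)) := by
            refine Finset.sum_congr rfl fun p _ => ?_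
            rw [← Real.posLog_sub_posLog_inv]
            ring
        _ = ∑ p ∈ S, Real.posLog (av p δ) := by rw [Finset.sum_sub_distrib, e0, sub_zero]
        _ ≤ ∑ p ∈ S, B ^ 2 * m p := Finset.sum_le_sum fun p _ => hδle p
        _ = B ^ 2 * ∑ p ∈ S, m p := by rw [Finset.mul_sum]
    have c3 : ((bad1 ∪ bad2).card : ℝ) ≤ bad1.card + bad2.card := by
      exact_mod_cast Finset.card_union_le bad1 bad2
    linarith

/-- Take `G`, `σ` from `glob_gal` for the set `W` of all elements of `𝓔` and all conjugates of the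
elements of `𝓑`; a finite set `P` of places containing all the sets `S0`, `bad` of `glob_one`, the
sets of `pf_sum` for the norms, and for each nonconstant `z ∈ 𝓑` a pole of a coefficient of
`∏ (X - σ g z)` (`pf_const`; if all coefficients are in `k` then `z ∈ k` and `D z = 0`).  Then
`S = P × G`, `av' (p, g) z = av p (σ g z)`, `Bad = {(p, g) | p bad for some z}`.  Since
`∑ g, f (σ g w) = ∑ g, f (σ g z)` for `w ∈ Rt` and `σ g` permutes `Rt`, one has
`card G * ∑ w ∈ Rt, f w = ∑ g, ∑ w ∈ Rt, f (σ g w) = card Rt * ∑ g, f (σ g z)`. -/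
theorem glob (ht : Transcendental k t)
    (halg : Algebra.IsAlgebraic (IntermediateField.adjoin k {t}) K) (D : Derivation k K K)
    (hD : D t = 1) (B : ℕ) (𝓑 𝓔 : Finset K)
    (hB : ∀ z ∈ 𝓑, (minpoly (IntermediateField.adjoin k {t}) z).natDegree ≤ B) :
    ∃ (S : Type) (_ : Fintype S) (av : S → AbsoluteValue K ℝ) (Bad : Finset S),
      (∀ v, IsNonarchimedean (av v)) ∧ (∀ v (a : k), a ≠ 0 → av v (algebraMap k K a) = 1) ∧
      (∀ z ∈ 𝓔, z ≠ 0 → ∑ v, Real.log (av v z) = 0) ∧
      (∀ v z, av v (D z) ≤ Real.exp 1 * av v z) ∧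
      (∀ v ∉ Bad, ∀ z ∈ 𝓑, av v z ≤ 1 ∧ av v (D z) ≤ 1) ∧
      (Bad.card : ℝ) ≤ (B ^ 3 + B) * ∑ v, ∑ z ∈ 𝓑, Real.posLog (av v z) ∧
      ∀ z ∈ 𝓑, D z ≠ 0 → 0 < ∑ v, Real.posLog (av v z) := by
  classical
  obtain ⟨av0, h⟩ := places_exists t ht halg
  set F := IntermediateField.adjoin k {t} with hF
  have : CharZero F := algebraRat.charZero F
  have hint : ∀ z : K, IsIntegral F z := fun z => (halg.isAlgebraic z).isIntegral
  let Rt : K → Finset K := fun z => ((minpoly F z).aroots K).toFinset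
  have hRt : ∀ z w, w ∈ Rt z ↔ aeval w (minpoly F z) = 0 := fun z w => by
    simp only [Rt, Multiset.mem_toFinset, mem_aroots, and_iff_right (minpoly.ne_zero (hint z))]
  have hzz : ∀ z, z ∈ Rt z := fun z => (hRt z z).2 (minpoly.aeval F z)
  obtain ⟨G, hG, σ, hid, hcoef, hnorm, hsum⟩ := glob_gal (F := F) (𝓔 ∪ 𝓑.biUnion Rt)
  have hW : ∀ z ∈ 𝓑, ∀ w ∈ Rt z, w ∈ 𝓔 ∪ 𝓑.biUnion Rt := fun z hz w hw =>
    Finset.mem_union_right _ (Finset.mem_biUnion.2 ⟨z, hz, hw⟩)
  have hrange : ∀ x : K, x ∈ (algebraMap F K).range → x ∈ F := by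
    rintro _ ⟨a, rfl⟩
    exact a.2
  choose! bad S0 hgood hcount using fun z (hz : z ∈ 𝓑) =>
    glob_one h halg D hD (hB z hz) (Rt z) (hRt z)
  have hN : ∀ z ∈ 𝓔, z ≠ 0 → ∃ P0 : Finset (Option k), ∀ P : Finset (Option k), P0 ⊆ P →
      ∑ p ∈ P, Real.log (av0 p (∏ g, σ g z)) = 0 := fun z hz h0 =>
    pf_sum h (hrange _ (hnorm z (Finset.mem_union_left _ hz)))
      (Finset.prod_ne_zero_iff.2 fun g _ => (map_ne_zero (σ g)).2 h0)
  choose! P0 hP0 using hN
  have hpole : ∀ z ∈ 𝓑, D z ≠ 0 → ∃ p : Option k, ∃ g, 1 < av0 p (σ g z) := by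
    intro z hz hDz
    by_contra hc
    push Not at hc
    apply hDz
    have hzW := hW z hz z (hzz z)
    have hk : ∀ n, (∏ g, (X - C (σ g z))).coeff n ∈ Set.range (algebraMap k K) := fun n => by
      refine pf_const h (hrange _ (hcoef z hzW n)) fun p => ?_
      have h1 := glob2_coeff (h.na p) Finset.univ (fun g => σ g z) n
      rwa [Finset.sum_eq_zero (fun g _ => (Real.posLog_eq_zero_iff _).2 (by
        rw [abs_of_nonneg ((av0 p).nonneg _)]
        exact hc p g)), Real.exp_zero] at h1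
    have hmon : (∏ g, (X - C (σ g z))).Monic := monic_prod_of_monic _ _ fun g _ => monic_X_sub_C _
    obtain ⟨q, hq, -, hqm⟩ := lifts_and_natDegree_eq_and_monic
      ((lifts_iff_coeff_lifts (f := algebraMap k K) _).2 hk) hmon
    have hzi : IsIntegral k z := by
      refine ⟨q, hqm, ?_⟩
      obtain ⟨g, hg⟩ := hid z hzW
      rw [← eval_map, hq, eval_prod]
      exact Finset.prod_eq_zero (Finset.mem_univ g) (by simp [hg])
    obtain ⟨a, rfl⟩ := minpoly.mem_range_of_degree_eq_one k z
      (IsAlgClosed.degree_eq_one_of_irreducible k (minpoly.irreducible hzi))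
    exact D.map_algebraMap a
  choose! pl hpl using hpole
  let P : Finset (Option k) := 𝓑.biUnion (fun z => insert (pl z) (S0 z)) ∪ 𝓔.biUnion P0
  let av : P × G → AbsoluteValue K ℝ := fun v =>
    (av0 v.1).comp (f := (σ v.2 : K →+* K)) (σ v.2).injective
  have hav : ∀ v z, av v z = av0 v.1 (σ v.2 z) := fun _ _ => rfl
  have hsplit : ∀ f : Option k → G → ℝ, ∑ v : P × G, f v.1 v.2 = ∑ p ∈ P, ∑ g, f p g :=
    fun f => by
      rw [Fintype.sum_prod_type]
      exact Finset.sum_coe_sort P fun p => ∑ g, f p g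
  refine ⟨P × G, inferInstance, av, Finset.univ.filter fun v => ∃ z ∈ 𝓑, v.1.1 ∈ bad z,
    ?_, ?_, ?_, ?_, ?_, ?_, ?_⟩
  · intro v x y
    rw [hav, hav, hav, map_add]
    exact h.na _ _ _
  · intro v a ha
    rw [hav, IsScalarTower.algebraMap_apply k F K, AlgEquiv.commutes,
      ← IsScalarTower.algebraMap_apply]
    exact h.cst _ a ha
  · intro z hz h0
    simp only [hav]
    rw [hsplit fun p g => Real.log (av0 p (σ g z)), ← hP0 z hz h0 P
      ((Finset.subset_biUnion_of_mem P0 hz).trans Finset.subset_union_right)]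
    refine Finset.sum_congr rfl fun p _ => ?_
    rw [map_prod, Real.log_prod fun g _ => ((av0 p).pos ((map_ne_zero (σ g)).2 h0)).ne']
  · intro v z
    rw [hav, hav, ← der_comm halg D hD]
    exact h.mono halg D hD _ _
  · intro v hv z hz
    rw [hav, hav, ← der_comm halg D hD]
    refine hgood z hz _ (fun hb => hv (Finset.mem_filter.2 ⟨Finset.mem_univ _, z, hz, hb⟩)) _ ?_
    rw [hRt, aeval_algHom_apply, minpoly.aeval, map_zero]
  · have c1 : (Finset.univ.filter fun v : P × G => ∃ z ∈ 𝓑, v.1.1 ∈ bad z).card ≤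
        ∑ z ∈ 𝓑, (bad z).card * Fintype.card G := by
      rw [← Finset.sum_mul, ← Finset.card_univ (α := G)]
      refine le_trans ?_ (Nat.mul_le_mul_right _ Finset.card_biUnion_le)
      rw [← Finset.card_product]
      refine Finset.card_le_card_of_injOn (fun v => (v.1.1, v.2)) ?_ ?_
      · intro v hv
        obtain ⟨z, hz, hb⟩ := (Finset.mem_filter.1 hv).2
        exact Finset.mem_coe.2 (Finset.mem_product.2
          ⟨Finset.mem_biUnion.2 ⟨z, hz, hb⟩, Finset.mem_univ _⟩)
      · intro v _ v' _ e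
        obtain ⟨e1, e2⟩ := Prod.mk.inj e
        exact Prod.ext (Subtype.ext e1) e2
    have c2 : ∀ z ∈ 𝓑, ∀ f : K → ℝ, (∀ w, 0 ≤ f w) →
        (Fintype.card G : ℝ) * ∑ w ∈ Rt z, f w ≤ B * ∑ g, f (σ g z) := by
      intro z hz f hf
      have hmem : ∀ (τ : K ≃ₐ[F] K) w, w ∈ Rt z → τ w ∈ Rt z := fun τ w hw => by
        rw [hRt, aeval_algHom_apply, (hRt z w).1 hw, map_zero]
      have e1 : ∀ g, ∑ w ∈ Rt z, f (σ g w) = ∑ w ∈ Rt z, f w := fun g =>
        Finset.sum_nbij' (σ g) (σ g).symm (hmem _) (hmem _)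
          (fun w _ => (σ g).symm_apply_apply w) (fun w _ => (σ g).apply_symm_apply w)
          fun w _ => rfl
      have e2 : ((Rt z).card : ℝ) ≤ B := by
        rw [(glob2_split (hint z) (Rt z) (hRt z)).2]
        exact_mod_cast hB z hz
      calc (Fintype.card G : ℝ) * ∑ w ∈ Rt z, f w = ∑ g, ∑ w ∈ Rt z, f (σ g w) := by
            simp only [e1, Finset.sum_const, Finset.card_univ, nsmul_eq_mul]
        _ = ∑ w ∈ Rt z, ∑ g, f (σ g w) := Finset.sum_comm
        _ = ∑ _w ∈ Rt z, ∑ g, f (σ g z) := Finset.sum_congr rfl fun w hw =>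
            hsum z (hW z hz z (hzz z)) w (hW z hz w hw) ((hRt z w).1 hw) f
        _ = (Rt z).card * ∑ g, f (σ g z) := by rw [Finset.sum_const, nsmul_eq_mul]
        _ ≤ B * ∑ g, f (σ g z) :=
            mul_le_mul_of_nonneg_right e2 (Finset.sum_nonneg fun g _ => hf _)
    have c3 : ∀ z ∈ 𝓑, ((bad z).card : ℝ) * Fintype.card G ≤
        (B ^ 3 + B) * ∑ v, Real.posLog (av v z) := by
      intro z hz
      have h1 := hcount z hz P ((Finset.subset_insert _ _).trans
        ((Finset.subset_biUnion_of_mem (fun z => insert (pl z) (S0 z)) hz).trans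
          Finset.subset_union_left))
      simp only [hav]
      rw [hsplit fun p g => Real.posLog (av0 p (σ g z))]
      have h2 : (Fintype.card G : ℝ) * ∑ p ∈ P, ∑ w ∈ Rt z, Real.posLog (av0 p w) ≤
          B * ∑ p ∈ P, ∑ g, Real.posLog (av0 p (σ g z)) := by
        rw [Finset.mul_sum, Finset.mul_sum]
        exact Finset.sum_le_sum fun p _ =>
          c2 z hz (fun w => Real.posLog (av0 p w)) fun _ => Real.posLog_nonneg
      calc ((bad z).card : ℝ) * Fintype.card G
          ≤ ((B ^ 2 + 1) * ∑ p ∈ P, ∑ w ∈ Rt z, Real.posLog (av0 p w)) * Fintype.card G :=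
            mul_le_mul_of_nonneg_right h1 (Nat.cast_nonneg _)
        _ = (B ^ 2 + 1) * ((Fintype.card G : ℝ) *
              ∑ p ∈ P, ∑ w ∈ Rt z, Real.posLog (av0 p w)) := by ring
        _ ≤ (B ^ 2 + 1) * (B * ∑ p ∈ P, ∑ g, Real.posLog (av0 p (σ g z))) :=
            mul_le_mul_of_nonneg_left h2 (by positivity)
        _ = (B ^ 3 + B) * ∑ p ∈ P, ∑ g, Real.posLog (av0 p (σ g z)) := by ring
    calc ((Finset.univ.filter fun v : P × G => ∃ z ∈ 𝓑, v.1.1 ∈ bad z).card : ℝ)
        ≤ ∑ z ∈ 𝓑, ((bad z).card : ℝ) * Fintype.card G := by exact_mod_cast c1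
      _ ≤ ∑ z ∈ 𝓑, (B ^ 3 + B) * ∑ v, Real.posLog (av v z) := Finset.sum_le_sum c3
      _ = (B ^ 3 + B) * ∑ v, ∑ z ∈ 𝓑, Real.posLog (av v z) := by
          rw [← Finset.mul_sum, Finset.sum_comm]
  · intro z hz hDz
    obtain ⟨g, hg⟩ := hpl z hz hDz
    have hp : pl z ∈ P := Finset.mem_union_left _
      (Finset.mem_biUnion.2 ⟨z, hz, Finset.mem_insert_self _ _⟩)
    refine lt_of_lt_of_le ?_ (Finset.single_le_sum (f := fun v => Real.posLog (av v z))
      (fun _ _ => Real.posLog_nonneg) (Finset.mem_univ (⟨pl z, hp⟩, g)))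
    exact lt_of_lt_of_le (Real.log_pos hg) (le_max_right _ _)

/-- Elements of the field generated by `r` elements of degree at most `B`. -/
theorem deg_adjoin {F L ι : Type} [Field F] [Field L] [Algebra F L] [Fintype ι] {B : ℕ}
    (y : ι → L) (hy : ∀ i, IsIntegral F (y i)) (hB : ∀ i, (minpoly F (y i)).natDegree ≤ B)
    {z : L} (hz : z ∈ IntermediateField.adjoin F (Set.range y)) :
    (minpoly F z).natDegree ≤ B ^ Fintype.card ι := by
  classical
  have key : ∀ s : Finset ι,
      Module.finrank F (IntermediateField.adjoin F (y '' (s : Set ι))) ≤ B ^ s.card := by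
    intro s
    induction s using Finset.induction_on with
    | empty =>
      rw [Finset.coe_empty, Set.image_empty, IntermediateField.adjoin_empty,
        IntermediateField.finrank_bot, Finset.card_empty, pow_zero]
    | insert a s ha ih =>
      rw [Finset.coe_insert, Set.image_insert_eq, ← Set.singleton_union,
        IntermediateField.adjoin_union, Finset.card_insert_of_notMem ha, pow_succ']
      refine (IntermediateField.finrank_sup_le _ _).trans (Nat.mul_le_mul ?_ ih)
      rw [IntermediateField.adjoin.finrank (hy a)]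
      exact hB a
  have h1 := key Finset.univ
  rw [Finset.coe_univ, Set.image_univ] at h1
  have : FiniteDimensional F (IntermediateField.adjoin F (Set.range y)) :=
    IntermediateField.finiteDimensional_adjoin (by
      rintro _ ⟨i, rfl⟩
      exact hy i)
  have h2 := minpoly.natDegree_le (A := F)
    (⟨z, hz⟩ : IntermediateField.adjoin F (Set.range y))
  rw [IntermediateField.minpoly_eq] at h2
  exact h2.trans h1

end Pool.Agent.Lib.MP_0dd0d9_ag.Hi
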