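import Pool.Agent.Lib.MP_0dd0d9_ag.Hi.Line
import Pool.Agent.Lib.MP_0dd0d9_ag.Hi.Cyc
import Pool.Agent.Lib.MP_0dd0d9_ag.Hi.GP2
import Pool.Agent.Lib.MP_0dd0d9_ag.Hi.Core1
import Pool.Agent.Lib.MP_0dd0d9_ag.Hi.Glob2

/-!
The global argument.
-/

namespace Pool.Agent.Lib.MP_0dd0d9_ag.Hi

open MvPolynomial

/-- Summation of the local inequalities for the universal cycles. -/
theorem core_pos {S T : Type} [Fintype S] [Fintype T] {I : Finset ℕ} (H L lq : S → ℝ)
    (a : S → T → ℝ) (φ : S → T → ℕ → ℝ) (w : ℕ → ℝ) {D0 kk : ℕ} {C2 C3 : ℝ}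
    (hH : ∀ v, 0 ≤ H v) (hk : (D0 : ℝ) * Fintype.card T * C2 + 1 ≤ kk)
    (h1 : ∀ v, H v ≤ D0 * ∑ t, a v t - lq v) (h2 : ∑ v, lq v = 0)
    (h3 : ∀ t, ∀ s ∈ I, ∑ v, φ v t s = 0)
    (h4 : ∀ v t, kk * a v t + ∑ s ∈ I, φ v t s / w s ≤ C2 * H v + C3 * L v) :
    ∑ v, H v ≤ D0 * Fintype.card T * C3 * ∑ v, L v := by
  have e1 : ∑ v, H v ≤ D0 * ∑ t, ∑ v, a v t := by
    refine (Finset.sum_le_sum fun v _ => h1 v).trans_eq ?_
    rw [Finset.sum_sub_distrib, h2, sub_zero, ← Finset.mul_sum, Finset.sum_comm]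
  have e2 : ∀ t, kk * ∑ v, a v t ≤ C2 * ∑ v, H v + C3 * ∑ v, L v := fun t => by
    have := Finset.sum_le_sum fun v (_ : v ∈ Finset.univ) => h4 v t
    rw [Finset.sum_add_distrib, Finset.sum_add_distrib, ← Finset.mul_sum, ← Finset.mul_sum,
      ← Finset.mul_sum, Finset.sum_comm,
      Finset.sum_eq_zero (s := I) fun s hs => by rw [← Finset.sum_div, h3 t s hs, zero_div]] at this
    linarith
  have e3 := Finset.sum_le_sum fun t (_ : t ∈ Finset.univ) => e2 t
  rw [← Finset.mul_sum, Finset.sum_const, Finset.card_univ, nsmul_eq_mul] at e3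
  have h0 : 0 ≤ ∑ v, H v := Finset.sum_nonneg fun v _ => hH v
  have e4 := mul_le_mul_of_nonneg_left e1 (Nat.cast_nonneg (α := ℝ) kk)
  have e5 := mul_le_mul_of_nonneg_left e3 (Nat.cast_nonneg (α := ℝ) D0)
  have e6 := mul_le_mul_of_nonneg_right hk h0
  nlinarith

/-- Summation of the local determinant inequalities. -/
theorem core_det {S : Type} [Fintype S] [DecidableEq S] (H L e δ lm : S → ℝ) (Bad : Finset S)
    {M m1 P C' C1 CL CB Dg J j : ℝ} (hM : 0 ≤ M) (hm1 : 0 < m1) (hP : 0 < P) (hC' : 0 ≤ C')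
    (hDg : 0 ≤ Dg) (he : ∑ v, e v = 0) (hδ : ∑ v, δ v = 0)
    (hlm : ∀ v, J * L v - CL * H v ≤ lm v) (hBad : (Bad.card : ℝ) ≤ CB * ∑ v, H v)
    (h : ∀ v, e v + m1 / 2 * δ v + Dg * m1 / (M + 1) * P * lm v ≤
      C' * P * m1 * (C1 * (j + 1) * H v + Dg * (H v + if v ∈ Bad then 1 else 0))) :
    Dg * (J * ∑ v, L v - CL * ∑ v, H v) ≤
      (M + 1) * C' * (C1 * (j + 1) * ∑ v, H v + Dg * ((1 + CB) * ∑ v, H v)) := by
  have h1 := Finset.sum_le_sum fun v (_ : v ∈ Finset.univ) => h v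
  have h2 := Finset.sum_le_sum fun v (_ : v ∈ Finset.univ) => hlm v
  rw [Finset.sum_sub_distrib, ← Finset.mul_sum, ← Finset.mul_sum] at h2
  rw [Finset.sum_add_distrib, Finset.sum_add_distrib, ← Finset.mul_sum, ← Finset.mul_sum,
    ← Finset.mul_sum, Finset.sum_add_distrib, ← Finset.mul_sum, ← Finset.mul_sum,
    Finset.sum_add_distrib, he, hδ, Finset.sum_ite_mem, Finset.univ_inter, Finset.sum_const,
    nsmul_eq_mul, mul_one] at h1
  have h3 : Dg / (M + 1) * ∑ v, lm v ≤
      C' * (C1 * (j + 1) * ∑ v, H v + Dg * (∑ v, H v + Bad.card)) := by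
    refine le_of_mul_le_mul_left ?_ (mul_pos hP hm1)
    calc P * m1 * (Dg / (M + 1) * ∑ v, lm v) = 0 + m1 / 2 * 0 +
          Dg * m1 / (M + 1) * P * ∑ v, lm v := by ring
      _ ≤ _ := h1
      _ = _ := by ring
  have h4 : Dg * ∑ v, lm v ≤
      (M + 1) * (C' * (C1 * (j + 1) * ∑ v, H v + Dg * (∑ v, H v + Bad.card))) := by
    have := mul_le_mul_of_nonneg_left h3 (by linarith : 0 ≤ M + 1)
    rwa [← mul_assoc, mul_div_cancel₀ _ (by linarith : M + 1 ≠ 0)] at this
  have h5 := mul_le_mul_of_nonneg_left h2 hDg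
  have h6 := mul_le_mul_of_nonneg_left hBad
    (mul_nonneg (mul_nonneg (by linarith : 0 ≤ M + 1) hC') hDg)
  nlinarith

theorem le_exp_posLog {x B : ℝ} (h : Real.posLog x ≤ B) : x ≤ Real.exp B := ht_le_exp h

theorem posLog_le_of {x y H : ℝ} (hx : 0 ≤ x) (hy : 0 < y) (h1 : x * y ≤ Real.exp H)
    (h2 : y ≤ Real.exp H) : Real.posLog x ≤ H - Real.log y := by
  have h3 : Real.log y ≤ H := (Real.log_le_iff_le_exp hy).2 h2
  rcases hx.eq_or_lt with h | h
  · rw [← h, Real.posLog_zero]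
    linarith
  · have h4 := (Real.log_le_iff_le_exp (mul_pos h hy)).2 h1
    rw [Real.log_mul h.ne' hy.ne'] at h4
    exact max_le (by linarith) (by linarith)

theorem map_mem_adjoin (k : Type) {U Ω I : Type} [Field k] [Field U] [Field Ω] [Algebra ℂ k]
    [Algebra k Ω] [Algebra ℂ Ω] [IsScalarTower ℂ k Ω] [Algebra ℂ U] (s : Ω) (f : U →ₐ[ℂ] Ω)
    (g : I → U) {r : U} (hr : r ∈ IntermediateField.adjoin ℂ (Set.range g)) :
    f r ∈ IntermediateField.adjoin (IntermediateField.adjoin k {s}) (Set.range (f ∘ g)) := by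
  induction hr using IntermediateField.adjoin_induction with
  | mem y hy =>
    obtain ⟨i, rfl⟩ := hy
    exact IntermediateField.subset_adjoin _ _ ⟨i, rfl⟩
  | algebraMap a =>
    rw [f.commutes, IsScalarTower.algebraMap_apply ℂ k Ω,
      IsScalarTower.algebraMap_apply k (IntermediateField.adjoin k {s}) Ω]
    exact IntermediateField.algebraMap_mem _ _
  | add y z _ _ h1 h2 => rw [map_add]; exact add_mem h1 h2
  | inv y _ h1 => rw [map_inv₀]; exact inv_mem h1
  | mul y z _ _ h1 h2 => rw [map_mul]; exact mul_mem h1 h2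

theorem core (ι : Type) [Fintype ι] [DecidableEq ι] [Nontrivial ι] {d : ℕ} (hd : 2 ≤ d) (B : ℕ) :
    ∃ n0, ∀ n, n0 ≤ n → CoreAt ι d B n := by
  classical
  have hd1 : 1 ≤ d := by omega
  obtain ⟨U, _, _, _, g, hg⟩ := exists_closure ℂ (ι × MnS ι d)
  obtain ⟨𝓡, T, _, Q, D0, q, hq, h𝓡, hsl, hQ, hPC, hlow, hht⟩ := core_univ hd hg
  obtain ⟨C2, hC2, hloc⟩ := loc ι hd
  obtain ⟨kk, hkk⟩ := exists_nat_ge ((D0 : ℝ) * Fintype.card T * C2 + 1)
  obtain ⟨i0, C3, hC3, hloc⟩ := hloc 3 kk (by norm_num)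
  obtain ⟨B', hB'⟩ : ∃ B', B' = B ^ Fintype.card (ι × MnS ι d) + B := ⟨_, rfl⟩
  obtain ⟨Dg, J, hnum⟩ := core_num
    (((Fintype.card ι : ℝ) + 1) * (((Fintype.card ι : ℝ) + 2) ^ Fintype.card ι + 1))
    (Fintype.card ι * (Fintype.card ι + d + 2)) (4 * (Fintype.card ι : ℝ) ^ 2 * d ^ 2)
    (((B' : ℝ) ^ 3 + B') * (1 + Fintype.card ι))
    (C4 := D0 * Fintype.card T * C3) (by positivity)
  obtain ⟨n0, hgp⟩ := gp (ι := ι) hd
    (Fintype.card ι * ((Fintype.card ι + 2) * d ^ (J + Dg)) + Dg)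
  refine ⟨max n0 1, fun n hn => ?_⟩
  intro k Ω _ _ _ _ _ _ _ _ s hs halg D hD c p b hind hcB hpB hb hper
  have hn1 : 1 ≤ n := le_of_max_le_right hn
  have : CharZero k := charZero_of_injective_algebraMap (algebraMap ℂ k).injective
  have : CharZero Ω := charZero_of_injective_algebraMap (algebraMap ℂ Ω).injective
  have hc : AlgebraicIndependent ℂ c := hind.comp Sum.inl Sum.inl_injective
  obtain ⟨f, hf⟩ := emb_exists hg hc
  obtain rfl : f ∘ g = c := funext hf
  set F := Fp (sl (f ∘ g)) with hF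
  have hFm : Hm F d := Fp_hm _
  have hdig : Dig d F := dig_slice hc
  have hp0 : p ≠ 0 := fun h => by
    rw [h] at hb
    exact zero_ne_one hb
  obtain ⟨t, ht, hZ⟩ := cyc_lift hd hn1 hFm (reg_slice hc) hp0 hper.1
  let D' : Derivation ℂ Ω Ω := D.restrictScalars ℂ
  obtain ⟨r, hr⟩ := rows_col hFm hdig D' (fun l : Ix d n => orb F (t • p) l) (J + Dg)
    ((Fintype.card ι + 2) * d ^ (J + Dg)) Dg
    (hgp n (le_of_max_le_left hn) Ω D' _ hind _ hZ (smul_ne_zero ht hp0)
      (exactPer_smul hFm ht hper))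
  obtain ⟨Ωx, _, _, _, x, hx⟩ := exists_closure Ω ι
  choose N hN1 hN2 hN3 hN4 using fun s : ℕ => (hdig.fb hd1 s).nrm (Nat.one_le_pow _ _ hd1)
    (hFm.iter s) hFm.jacob (jac_slice_ne hd hc)
  have hNQ : ∀ t s, aeval (f ∘ Q t) (N s) ≠ 0 := fun t s =>
    hN4 s inferInstance _ fun z hz => hPC t Ω f s z (by rw [← ap_itr]; exact hz)
  obtain ⟨Δ, hΔ0, hΔ⟩ := (hdig.fb hd1 (J + Dg)).disc
  obtain ⟨α, hα⟩ := MvPolynomial.ne_zero_iff.1 hΔ0
  set E := (Matrix.of fun p' q' => col F d (J + Dg) D' (orb F (t • p) (r p')) q').det with hE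
  obtain ⟨S, _, av, Bad, hna, hcst, hpf, hmono, hgood, hbad, hpos⟩ := glob hs halg D hD B'
    (𝓡.image f ∪ Finset.univ.image p)
    ({E, coeff α Δ, f q, t} ∪
      (Finset.univ ×ˢ Finset.Icc 1 i0).image fun y : T × ℕ => aeval (f ∘ Q y.1) (N y.2))
    (by
      intro z hz
      rcases Finset.mem_union.1 hz with h | h
      · obtain ⟨r, hr, rfl⟩ := Finset.mem_image.1 h
        refine (deg_adjoin (f ∘ g) (fun i => (halg.isAlgebraic _).isIntegral) hcB ?_).trans
          (by omega)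
        exact map_mem_adjoin k s f g (h𝓡 r hr)
      · obtain ⟨a, -, rfl⟩ := Finset.mem_image.1 h
        exact (hpB a).trans (by omega))
  have hC : ∀ v (a : ℂ), a ≠ 0 → av v (algebraMap ℂ Ω a) = 1 := fun v a ha => by
    rw [IsScalarTower.algebraMap_apply ℂ k Ω]
    exact hcst v _ ((_root_.map_ne_zero _).2 ha)
  obtain ⟨H, hH⟩ : ∃ H : S → ℝ, ∀ v, H v = ∑ r ∈ 𝓡, Real.posLog (av v (f r)) := ⟨_, fun _ => rfl⟩
  have hH0 : ∀ v, 0 ≤ H v := fun v => by
    rw [hH]
    exact Finset.sum_nonneg fun _ _ => Real.posLog_nonneg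
  have hH1 : ∀ v, ∀ r ∈ 𝓡, Real.posLog (av v (f r)) ≤ H v := fun v r hr => by
    rw [hH]
    exact Finset.single_le_sum (f := fun r => Real.posLog (av v (f r)))
      (fun _ _ => Real.posLog_nonneg) hr
  have hsl' : ∀ y, sl (f ∘ g) y = f (sl g y) := fun y =>
    (congrFun (map_sl (f : U →+* Ω) g) y).symm
  choose av' hav' hLS using fun v => core_place hd hx hc (av v) (hna v) (hC v) (hH0 v)
    (fun y => by rw [hsl']; exact le_exp_posLog (hH1 v _ (hsl y)))
    (fun av' h1 h2 => hlow Ωx ((algebraMap Ω Ωx).comp (f : U →+* Ω)) av' h1 (H v) fun r hr => by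
      rw [RingHom.comp_apply, h2]
      exact le_exp_posLog (hH1 v r hr))
  choose L hL using fun v => (hLS v).lyap
  have hper' : ∀ {y : ι → Ω} {m : ℕ}, (ap F)^[m] y = y →
      (ap F)^[m] (algebraMap Ω Ωx ∘ y) = algebraMap Ω Ωx ∘ y := fun {y m} h => by
    rw [← ap_itr] at h ⊢
    exact (algHom_ap (Algebra.ofId Ω Ωx) _ y).symm.trans (congrArg _ h)
  have hev : ∀ (y : ι → Ω) (P : MvPolynomial ι Ω),
      aeval (algebraMap Ω Ωx ∘ y) P = algebraMap Ω Ωx (aeval y P) := fun y P =>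
    aeval_algebraMap_apply Ωx y P
  have hQ' : ∀ t, (ap F)^[3] (f ∘ Q t) = f ∘ Q t := fun t => by
    have := hom_ap_iter (f : U →+* Ω) (Fp (sl g)) (Q t) 3
    rw [hQ, map_Fp_sl] at this
    exact this.symm
  have hbd : ∀ v (l : Ix d n) a, av v (orb F (t • p) l a) ≤ Real.exp (H v) := fun v l a => by
    rw [← hav']
    exact (hLS v).per_bd hn1 (hper' (orb_per hd1 hFm hZ l)) 0 a
  have hbd0 : ∀ v a, av v (p a) * av v t ≤ Real.exp (H v) := fun v a => by
    have := hbd v (⟨1, one_pow _⟩, 0) a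
    simp only [orb, map_one, one_mul, Function.iterate_zero, id, Pi.smul_apply, smul_eq_mul,
      map_mul] at this
    rwa [mul_comm]
  refine hnum (∑ v, H v) (∑ v, L v) ?_ ?_ ?_
  · obtain ⟨y⟩ := mnS_nonempty (ι := ι) hd
    have h1 : f (g y) = f (sl g (y.1, y.2.1)) := by rw [sl_apply]
    have h2 := hpos (f (g y))
      (Finset.mem_union_left _ (h1 ▸ Finset.mem_image_of_mem _ (hsl _)))
      (hind.ne_zero (Sum.inr y))
    refine h2.trans_le (Finset.sum_le_sum fun v _ => ?_)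
    rw [h1]
    exact hH1 v _ (hsl _)
  · refine core_pos (I := Finset.Icc 1 i0) H L (fun v => Real.log (av v (f q)))
      (fun v t => Real.posLog (av v (aeval (f ∘ Q t) (jac (itr F 3)))))
      (fun v t s => Real.log (av v (aeval (f ∘ Q t) (N s))))
      (fun s => ((d : ℝ) ^ s) ^ Fintype.card ι) hH0 hkk (fun v => ?_)
      (hpf _ (by simp) ((_root_.map_ne_zero _).2 hq)) (fun t s hs => ?_) fun v t => ?_
    · have := hht ((av v).comp (f := (f : U →+* Ω)) (f : U →+* Ω).injective)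
        (fun a b => by
          change av v (f (a + b)) ≤ max (av v (f a)) (av v (f b))
          rw [map_add]
          exact hna v _ _) fun a => by
          change av v (f (algebraMap ℂ U a)) ≤ 1
          rw [f.commutes]
          rcases eq_or_ne a 0 with rfl | h
          · simp
          · exact (hC v a h).le
      rw [hH]
      refine this.trans_eq ?_
      congr 2
      refine Finset.sum_congr rfl fun t _ => ?_
      exact congrArg (fun z => Real.posLog (av v z)) (hom_mult (f : U →+* Ω) g (Q t) 3)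
    · exact hpf _ (Finset.mem_union_right _ (Finset.mem_image.2
        ⟨(t, s), Finset.mem_product.2 ⟨Finset.mem_univ _, hs⟩, rfl⟩)) (hNQ t s)
    · have := hloc Ω Ωx F x (av' v) (H v) (L v) (hLS v) (hL v) _ (hper' (hQ' t)) N fun s _ =>
        ⟨hN1 s, by rw [hev]; exact (_root_.map_ne_zero _).2 (hNQ t s)⟩
      simpa only [lg, hev, hav'] using this
  · have hm1 : (0 : ℝ) < Fintype.card (Mn (Option ι) Dg) := by
      have := mn_nonempty (Option ι) Dg
      exact_mod_cast Fintype.card_pos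
    have := core_det H L (fun v => Real.log (av v E)) (fun v => Real.log (av v (coeff α Δ)))
      (fun v => ∑ i ∈ Finset.range J, lam F d (av' v) x (J + Dg - i)) Bad
      (M := Fintype.card ι) (P := ((d : ℝ) ^ (J + Dg)) ^ Fintype.card ι)
      (C' := ((Fintype.card ι : ℝ) + 2) ^ Fintype.card ι + 1)
      (C1 := Fintype.card ι * (Fintype.card ι + d + 2))
      (CL := 4 * (Fintype.card ι : ℝ) ^ 2 * d ^ 2)
      (CB := ((B' : ℝ) ^ 3 + B') * (1 + Fintype.card ι)) (Dg := Dg) (J := J)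
      (j := (J + Dg : ℕ)) (by positivity) hm1 (by positivity) (by positivity) (by positivity)
      (hpf _ (by simp) hr) (hpf _ (by simp) hα)
      (fun v => (hL v).sum_ge hd (hH0 v) (Nat.le_add_right J Dg)) ?_ fun v => ?_
    · exact this
    · refine hbad.trans ?_
      rw [mul_assoc]
      refine mul_le_mul_of_nonneg_left ?_ (by positivity)
      have e1 : ∀ v, ∑ z ∈ 𝓡.image f ∪ Finset.univ.image p, Real.posLog (av v z) ≤
          H v + Fintype.card ι * (H v - Real.log (av v t)) := fun v => by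
        have a1 := Finset.sum_union_inter (s₁ := 𝓡.image f) (s₂ := Finset.univ.image p)
          (f := fun z => Real.posLog (av v z))
        have a2 : 0 ≤ ∑ z ∈ 𝓡.image f ∩ Finset.univ.image p, Real.posLog (av v z) :=
          Finset.sum_nonneg fun _ _ => Real.posLog_nonneg
        have a3 : ∑ z ∈ 𝓡.image f, Real.posLog (av v z) ≤ H v := by
          rw [hH]
          exact Finset.sum_image_le_of_nonneg fun _ _ => Real.posLog_nonneg
        have a4 : ∑ z ∈ Finset.univ.image p, Real.posLog (av v z) ≤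
            Fintype.card ι * (H v - Real.log (av v t)) := by
          refine (Finset.sum_image_le_of_nonneg fun _ _ => Real.posLog_nonneg).trans ?_
          rw [← nsmul_eq_mul, ← Finset.card_univ]
          refine Finset.sum_le_card_nsmul _ _ _ fun a _ => ?_
          refine posLog_le_of ((av v).nonneg _) ((av v).pos ht) (hbd0 v a) ?_
          have := hbd0 v b
          rwa [hb, map_one, one_mul] at this
        linarith
      refine (Finset.sum_le_sum fun v _ => e1 v).trans_eq ?_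
      rw [Finset.sum_add_distrib, ← Finset.mul_sum, Finset.sum_sub_distrib,
        hpf t (by simp) ht]
      ring
    · have hDg : Dg * d ^ J ≤ d ^ (J + Dg) := by
        rw [pow_add, mul_comm]
        exact Nat.mul_le_mul_left _ (Nat.lt_pow_self hd).le
      have := (hLS v).det_loc D' (Nat.le_add_right J Dg) hDg
        (Set.range fun l : Ix d n => orb F (t • p) l)
        (by
          rintro _ ⟨l, rfl⟩
          obtain ⟨l', hl'⟩ := ap_orb hFm (t • p) l
          exact ⟨l', hl'.symm⟩)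
        (H' := H v + if v ∈ Bad then 1 else 0)
        (by have := hH0 v; positivity)
        (by
          rintro _ ⟨l, rfl⟩ a
          rw [hav', hav']
          refine ⟨hbd v l a, ?_⟩
          split_ifs with hv
          · refine (hmono v _).trans ?_
            rw [add_comm, Real.exp_add]
            exact mul_le_mul_of_nonneg_left (hbd v l a) (Real.exp_pos _).le
          · refine (cyc_good hd hn1 (hna v) (hC v) D' (fun y => ?_) (fun a => ?_) hb
              (fun y ρ hy a => ?_) ht hZ l a).trans ?_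
            · rw [hsl']
              exact hgood v hv _ (Finset.mem_union_left _ (Finset.mem_image_of_mem _ (hsl _)))
            · exact hgood v hv _
                (Finset.mem_union_right _ (Finset.mem_image_of_mem _ (Finset.mem_univ _)))
            · have := hlow Ω (f : U →+* Ω) (av v) (hna v) 0 (fun r hr => by
                rw [Real.exp_zero]
                exact (hgood v hv _
                  (Finset.mem_union_left _ (Finset.mem_image_of_mem _ hr))).1) y ρ hy a
              rwa [Real.exp_zero, one_mul] at this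
            · rw [add_zero]
              exact Real.one_le_exp (hH0 v))
        (fun p' => orb F (t • p) (r p')) (fun p' => ⟨r p', rfl⟩) hr Δ
        (hΔ Ωx x hx.1) α hα
      simpa only [hav'] using this

theorem main (N : ℕ) (hN : 1 ≤ N) (d : ℕ) (hd : 2 ≤ d) (B : ℕ) :
    ∃ n0 : ℕ, ∀ n, n0 ≤ n →
      ∀ 𝔭 ∈ (MvPolynomial.vanishingIdeal ℂ (Yn (Fin (N + 1)) d n)).minimalPrimes,
        ∀ (K : Type) [Field K] [Algebra ℂ K]
          (u : (Fin (N + 1) × Mn (Fin (N + 1)) d) ⊕ Fin (N + 1) → K),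
          (∀ q, MvPolynomial.aeval u q = 0 ↔ q ∈ 𝔭) →
          IntermediateField.adjoin ℂ (Set.range u) = ⊤ → GonGt B (inv u) := by
  have : Nontrivial (Fin (N + 1)) := Fin.nontrivial_iff_two_le.2 (by omega)
  obtain ⟨n0, h⟩ := core (Fin (N + 1)) hd (B * ((d ^ Fintype.card (Fin (N + 1))) ^
    (Fintype.card (Fin (N + 1)) + 1) * Fintype.card (Fin (N + 1))))
  refine ⟨max n0 1, fun n hn 𝔭 h𝔭 K _ _ u hu _ ℓ t ht => ?_⟩
  have : 𝔭.IsPrime := h𝔭.1.1
  exact red _ hd (le_of_max_le_right hn) (line _ (h n (le_of_max_le_left hn))) 𝔭 h𝔭 hu t ht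

end Pool.Agent.Lib.MP_0dd0d9_ag.Hi
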