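import Mathlib

/-!
Definitions used in the statement: endomorphisms of projective space with a marked point of exact
period `n`, the action of the group, and the field of invariant rational functions.
-/

namespace Pool.Agent.Lib.MP_0dd0d9_ag.Hi

open MvPolynomial

/-- Exponent vectors of the monomials of degree `d` in the variables `ι`. -/
abbrev Mn (ι : Type) [Fintype ι] [DecidableEq ι] (d : ℕ) : Type :=
  ↥((Finset.univ : Finset ι).finsuppAntidiag d)

variable {ι : Type} [Fintype ι] [DecidableEq ι] {d : ℕ}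

/-- The tuple of forms of degree `d` with coefficients `c`. -/
noncomputable def Fp {R : Type} [CommRing R] (c : ι × Mn ι d → R) (a : ι) : MvPolynomial ι R :=
  ∑ δ : Mn ι d, monomial δ.1 (c (a, δ))

/-- The value of a tuple of polynomials at a point. -/
noncomputable def ap {R S : Type} [CommRing R] [CommRing S] [Algebra R S]
    (F : ι → MvPolynomial ι R) (y : ι → S) : ι → S :=
  fun a => aeval y (F a)

/-- The line through `p` has exact period `n` under `f`. -/
def ExactPer {K : Type} [Field K] (f : (ι → K) → ι → K) (n : ℕ) (p : ι → K) : Prop :=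
  (∃ μ : K, f^[n] p = μ • p) ∧ ∀ i, 0 < i → i < n → ¬ ∃ μ : K, f^[i] p = μ • p

/-- Pairs (coefficients of a tuple of forms of degree `d` without nontrivial common zero, nonzero
vector whose line has exact period `n`). -/
def Yn (ι : Type) [Fintype ι] [DecidableEq ι] (d n : ℕ) : Set ((ι × Mn ι d) ⊕ ι → ℂ) :=
  {u | (∀ y : ι → ℂ, y ≠ 0 → ap (Fp (u ∘ Sum.inl)) y ≠ 0) ∧ u ∘ Sum.inr ≠ 0 ∧
    ExactPer (ap (Fp (u ∘ Sum.inl))) n (u ∘ Sum.inr)}

/-- The linear forms given by the rows of a matrix. -/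
noncomputable def lin {R : Type} [CommRing R] (φ : Matrix ι ι R) (i : ι) : MvPolynomial ι R :=
  ∑ j, C (φ i j) * X j

/-- `F' ∘ φ = a • φ ∘ F` as tuples of polynomials. -/
def Conj {R : Type} [CommRing R] (φ : Matrix ι ι R) (a : R) (F F' : ι → MvPolynomial ι R) : Prop :=
  ∀ i, bind₁ (lin φ) (F' i) = C a * ∑ j, C (φ i j) * F j

/-- The pair `u' = (F', p')` is obtained from `u = (F, p)` by `F' = a • φ ∘ F ∘ φ⁻¹`,
`p' = b • φ p`. -/
def Acts {R : Type} [CommRing R] (φ : Matrix ι ι R) (a b : R) (u u' : (ι × Mn ι d) ⊕ ι → R) :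
    Prop :=
  Conj φ a (Fp (u ∘ Sum.inl)) (Fp (u' ∘ Sum.inl)) ∧ u' ∘ Sum.inr = b • φ.mulVec (u ∘ Sum.inr)

/-- The automorphisms of a field `K` that act on the pair `u` (with coordinates in `K`) as an
element `(φ, a, b)` of `GL(ℂ) × ℂˣ × ℂˣ`. -/
def grp {K : Type} [Field K] [Algebra ℂ K] (u : (ι × Mn ι d) ⊕ ι → K) : Set (K ≃ₐ[ℂ] K) :=
  {θ | ∃ (φ : Matrix ι ι ℂ) (a b : ℂ), φ.det ≠ 0 ∧ a ≠ 0 ∧ b ≠ 0 ∧
    Acts (φ.map (algebraMap ℂ K)) (algebraMap ℂ K a) (algebraMap ℂ K b) u (θ ∘ u)}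

/-- The field of invariants. -/
noncomputable def inv {K : Type} [Field K] [Algebra ℂ K] (u : (ι × Mn ι d) ⊕ ι → K) :
    IntermediateField ℂ K :=
  IntermediateField.fixedField (Subgroup.closure (grp u))

/-- The field `L` has degree more than `B` over the field generated by any (finite) transcendence
basis. -/
def GonGt (B : ℕ) (L : Type) [Field L] [Algebra ℂ L] : Prop :=
  ∀ (ℓ : ℕ) (t : Fin ℓ → L), IsTranscendenceBasis ℂ t →
    (B : Cardinal) < Module.rank (IntermediateField.adjoin ℂ (Set.range t)) L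

end Pool.Agent.Lib.MP_0dd0d9_ag.Hi
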