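import Pool.Agent.Lib.MP_0dd0d9_ag.Hi.Poly

/-!
Derivations of fields of characteristic zero, and heights of algebraic elements.
(Adapted from the files of the one-dimensional case.)
-/

namespace Pool.Agent.Lib.MP_0dd0d9_ag.Hi

open Polynomial

/-- Apply a map to the coefficients of a polynomial in one variable. -/
noncomputable def pco {R : Type*} [CommRing R] (D : R → R) (a : R[X]) : R[X] :=
  ∑ i ∈ a.support, monomial i (D (a.coeff i))

theorem coeff_pco {R : Type*} [CommRing R] {D : R → R} (hD : D 0 = 0) (a : R[X]) (i : ℕ) :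
    (pco D a).coeff i = D (a.coeff i) := by
  rw [pco, finsetSum_coeff, Finset.sum_eq_single i]
  · simp
  · intro j _ hj
    rw [coeff_monomial, if_neg hj]
  · intro h
    rw [notMem_support_iff.1 h, hD]
    simp

/-- Derivative of the value of a polynomial. -/
theorem der_eval {R K : Type*} [CommRing R] [CommRing K] [Algebra R K] (D : Derivation R K K)
    (μ : K[X]) (a : K) :
    D (μ.eval a) = (pco D μ).eval a + (derivative μ).eval a * D a := by
  have hadd : ∀ p q : K[X], pco D (p + q) = pco D p + pco D q := fun p q => by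
    ext i
    simp only [coeff_add, coeff_pco (map_zero D), map_add]
  have hmon : ∀ (n : ℕ) (c : K), pco D (monomial n c) = monomial n (D c) := fun n c => by
    ext i
    simp only [coeff_pco (map_zero D), coeff_monomial]
    split_ifs
    · rfl
    · exact map_zero D
  induction μ using Polynomial.induction_on' with
  | add p q hp hq =>
    rw [hadd, eval_add, map_add, hp, hq, eval_add, derivative_add, eval_add]
    ring
  | monomial n c =>
    rw [hmon, derivative_monomial, eval_monomial, eval_monomial, eval_monomial,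
      Derivation.leibniz, Derivation.leibniz_pow]
    simp only [nsmul_eq_mul, smul_eq_mul]
    ring

section der

open scoped IntermediateField.algebraAdjoinAdjoin in
/-- A derivation may be prescribed arbitrarily on a transcendence basis. -/
theorem der_basis {L K ι : Type*} [Field L] [Field K] [Algebra L K] [CharZero L] {v : ι → K}
    (hv : IsTranscendenceBasis L v) (w : ι → K) :
    ∃ D : Derivation L K K, ∀ i, D (v i) = w i := by
  let : Algebra (MvPolynomial ι L) K :=
    (MvPolynomial.aeval v : MvPolynomial ι L →ₐ[L] K).toRingHom.toAlgebra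
  have : IsScalarTower L (MvPolynomial ι L) K :=
    .of_algebraMap_eq fun r => ((MvPolynomial.aeval v : MvPolynomial ι L →ₐ[L] K).commutes r).symm
  have hE : Algebra.FormallyEtale (MvPolynomial ι L) K := by
    let : Algebra (MvPolynomial ι L) (Algebra.adjoin L (Set.range v)) :=
      hv.1.aevalEquiv.toAlgHom.toRingHom.toAlgebra
    have : IsScalarTower (MvPolynomial ι L) (Algebra.adjoin L (Set.range v)) K :=
      .of_algebraMap_eq fun r => (hv.1.algebraMap_aevalEquiv r).symm
    have h1 : Algebra.FormallyEtale (MvPolynomial ι L) (Algebra.adjoin L (Set.range v)) :=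
      .of_equiv (AlgEquiv.ofBijective (Algebra.ofId _ (Algebra.adjoin L (Set.range v)))
        hv.1.aevalEquiv.bijective)
    have h2 : Algebra.FormallyEtale (Algebra.adjoin L (Set.range v))
        (IntermediateField.adjoin L (Set.range v)) := .of_isLocalization (nonZeroDivisors _)
    have h3 : Algebra.IsAlgebraic (IntermediateField.adjoin L (Set.range v)) K :=
      hv.isAlgebraic_field
    have h4 : Algebra.FormallyEtale (IntermediateField.adjoin L (Set.range v)) K :=
      .of_isSeparable _ K
    have h5 : Algebra.FormallyEtale (Algebra.adjoin L (Set.range v)) K :=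
      .comp _ (IntermediateField.adjoin L (Set.range v)) K
    exact .comp _ (Algebra.adjoin L (Set.range v)) K
  let d0 : Derivation L (MvPolynomial ι L) K := MvPolynomial.mkDerivation L w
  let e := KaehlerDifferential.tensorKaehlerEquivOfFormallyEtale L (MvPolynomial ι L) K
  refine ⟨((d0.liftKaehlerDifferential.liftBaseChange K).comp e.symm.toLinearMap).compDer
    (KaehlerDifferential.D L K), fun i => ?_⟩
  have hi : v i = algebraMap (MvPolynomial ι L) K (MvPolynomial.X i) :=
    (MvPolynomial.aeval_X v i).symm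
  change (d0.liftKaehlerDifferential.liftBaseChange K)
    (e.symm (KaehlerDifferential.D L K (v i))) = w i
  rw [hi, KaehlerDifferential.tensorKaehlerEquivOfFormallyEtale_symm_D_algebraMap,
    LinearMap.liftBaseChange_tmul, one_smul, Derivation.liftKaehlerDifferential_comp_D]
  exact MvPolynomial.mkDerivation_X L w i

/-- A derivation may be prescribed arbitrarily on an algebraically independent family. -/
theorem der_indep {L K ι : Type*} [Field L] [Field K] [Algebra L K] [CharZero L] {v : ι → K}
    (hv : AlgebraicIndependent L v) (w : ι → K) :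
    ∃ D : Derivation L K K, ∀ i, D (v i) = w i := by
  obtain ⟨t, ht, hb⟩ := exists_isTranscendenceBasis_superset (s := Set.range v)
    hv.to_subtype_range
  obtain ⟨D, hD⟩ := der_basis hb fun x => Function.extend v w 0 x.1
  refine ⟨D, fun i => ?_⟩
  have := hD ⟨v i, ht ⟨i, rfl⟩⟩
  rwa [hv.injective.extend_apply] at this

/-- Extend `y` to a transcendence basis `T` of `K` over `L`.  `K` is formally etale over
`R = MvPolynomial ι L` acting through `aeval T` (localisation, then
`Algebra.FormallyEtale.of_isSeparable`). -/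
theorem exists_der {L K : Type*} [Field L] [Field K] [Algebra L K] [CharZero L] {y : K}
    (hy : Transcendental L y) : ∃ D : Derivation L K K, D y = 1 := by
  obtain ⟨D, hD⟩ := der_indep (v := fun _ : Unit => y)
    (algebraicIndependent_unique_type_iff.2 hy) fun _ => 1
  exact ⟨D, hD ()⟩

variable {k K : Type*} [Field k] [CharZero k] [Field K] [Algebra k K]

theorem der_mem_adjoin (D : Derivation k K K) {S : Set K} (L : IntermediateField k K)
    (N : AddSubgroup K) (hN : ∀ a ∈ L, ∀ n ∈ N, a * n ∈ N) (hS : S ⊆ L)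
    (hD : ∀ x ∈ S, D x ∈ N) {x : K} (hx : x ∈ IntermediateField.adjoin k S) : D x ∈ N := by
  have hle : IntermediateField.adjoin k S ≤ L := IntermediateField.adjoin_le_iff.2 hS
  induction hx using IntermediateField.adjoin_induction with
  | mem x hx => exact hD x hx
  | algebraMap a => rw [D.map_algebraMap]; exact N.zero_mem
  | add x y _ _ h1 h2 => rw [map_add]; exact N.add_mem h1 h2
  | inv x hx h =>
    rw [D.leibniz_inv, smul_eq_mul]
    exact hN _ (neg_mem (pow_mem (inv_mem (hle hx)) 2)) _ h
  | mul x y hx hy h1 h2 =>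
    rw [D.leibniz, smul_eq_mul, smul_eq_mul]
    exact N.add_mem (hN _ (hle hx) _ h2) (hN _ (hle hy) _ h1)

theorem der_mem_alg (D : Derivation k K K) {S : Set K} (L : IntermediateField k K)
    (N : AddSubgroup K) (hN : ∀ a ∈ L, ∀ n ∈ N, a * n ∈ N) (hS : S ⊆ L)
    (hD : ∀ x ∈ S, D x ∈ N) {y : K} (hyL : y ∈ L)
    (hy : IsAlgebraic (IntermediateField.adjoin k S) y) : D y ∈ N := by
  have hle : IntermediateField.adjoin k S ≤ L := IntermediateField.adjoin_le_iff.2 hS
  set F := IntermediateField.adjoin k S with hF
  have : CharZero F := algebraRat.charZero F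
  have hsep : (minpoly F y).Separable := (minpoly.irreducible hy.isIntegral).separable
  have hne : aeval y (derivative (minpoly F y)) ≠ 0 :=
    hsep.aeval_derivative_ne_zero (minpoly.aeval F y)
  have key := der_eval D ((minpoly F y).map (algebraMap F K)) y
  rw [eval_map_algebraMap, minpoly.aeval, map_zero, derivative_map, eval_map_algebraMap] at key
  have h1 : (pco D ((minpoly F y).map (algebraMap F K))).eval y ∈ N := by
    unfold pco
    rw [eval_finsetSum]
    refine N.sum_mem fun i _ => ?_
    rw [eval_monomial, mul_comm, coeff_map]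
    exact hN _ (pow_mem hyL i) _ (der_mem_adjoin D L N hN hS hD ((minpoly F y).coeff i).2)
  have h2 : aeval y (derivative (minpoly F y)) ∈ L := by
    rw [aeval_eq_sum_range]
    refine sum_mem fun i _ => ?_
    rw [Algebra.smul_def]
    exact mul_mem (hle ((derivative (minpoly F y)).coeff i).2) (pow_mem hyL i)
  have h3 : D y = -(aeval y (derivative (minpoly F y)))⁻¹ *
      (pco D ((minpoly F y).map (algebraMap F K))).eval y := by
    field_simp
    linear_combination -key
  rw [h3]
  exact hN _ (neg_mem (inv_mem h2)) _ h1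

theorem der_eq_zero_of_alg (D : Derivation k K K) {S : Set K} (hS : ∀ x ∈ S, D x = 0) {y : K}
    (hy : IsAlgebraic (IntermediateField.adjoin k S) y) : D y = 0 := by
  have := der_mem_alg D (S := S) ⊤ ⊥ (fun a _ n hn => by
    rw [AddSubgroup.mem_bot] at hn ⊢
    rw [hn, mul_zero]) (fun _ _ => IntermediateField.mem_top)
    (fun x hx => AddSubgroup.mem_bot.2 (hS x hx)) IntermediateField.mem_top hy
  exact AddSubgroup.mem_bot.1 this

theorem alg_of_der {S : Set K} {y : K}
    (h : ∀ D : Derivation k K K, (∀ x ∈ S, D x = 0) → D y = 0) :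
    IsAlgebraic (Algebra.adjoin k S) y := by
  rw [← IntermediateField.isAlgebraic_adjoin_iff]
  by_contra c
  have : CharZero (IntermediateField.adjoin k S) := algebraRat.charZero _
  obtain ⟨D, hD⟩ := exists_der (L := IntermediateField.adjoin k S) c
  have := h (D.restrictScalars k) fun x hx =>
    D.map_algebraMap (⟨x, IntermediateField.subset_adjoin k S hx⟩ : IntermediateField.adjoin k S)
  rw [Derivation.restrictScalars_apply, hD] at this
  exact one_ne_zero this

end der

section ht

variable {K : Type*} [Field K] [Algebra ℂ K]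

theorem ht_adjoin {ι : Type*} [Fintype ι] (u : ι → K) {a : K}
    (ha : a ∈ Algebra.adjoin ℂ (Set.range u)) :
    ∃ D : ℕ, ∀ av : AbsoluteValue K ℝ, IsNonarchimedean av →
      (∀ a : ℂ, av (algebraMap ℂ K a) ≤ 1) →
      Real.posLog (av a) ≤ D * ∑ i, Real.posLog (av (u i)) := by
  induction ha using Algebra.adjoin_induction with
  | mem x hx =>
    obtain ⟨i, rfl⟩ := hx
    refine ⟨1, fun av _ _ => ?_⟩
    rw [Nat.cast_one, one_mul]
    exact Finset.single_le_sum (f := fun i => Real.posLog (av (u i)))
      (fun _ _ => Real.posLog_nonneg) (Finset.mem_univ i)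
  | algebraMap r =>
    refine ⟨0, fun av _ h => ?_⟩
    rw [(Real.posLog_eq_zero_iff _).2 (by rw [abs_of_nonneg (av.nonneg _)]; exact h r)]
    simp
  | add x y _ _ ihx ihy =>
    obtain ⟨D1, h1⟩ := ihx
    obtain ⟨D2, h2⟩ := ihy
    refine ⟨D1 + D2, fun av hn h => ?_⟩
    have a1 := h1 av hn h
    have a2 := h2 av hn h
    have p1 : 0 ≤ Real.posLog (av x) := Real.posLog_nonneg
    have p2 : 0 ≤ Real.posLog (av y) := Real.posLog_nonneg
    rw [Nat.cast_add, add_mul]
    rcases le_max_iff.1 (hn x y) with b | b
    · linarith [Real.posLog_le_posLog (av.nonneg _) b]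
    · linarith [Real.posLog_le_posLog (av.nonneg _) b]
  | mul x y _ _ ihx ihy =>
    obtain ⟨D1, h1⟩ := ihx
    obtain ⟨D2, h2⟩ := ihy
    refine ⟨D1 + D2, fun av hn h => ?_⟩
    have a1 := h1 av hn h
    have a2 := h2 av hn h
    rw [Nat.cast_add, add_mul, map_mul]
    linarith [Real.posLog_mul (x := av x) (y := av y)]

omit [Algebra ℂ K] in
theorem ht_sum_le {av : AbsoluteValue K ℝ} (hn : IsNonarchimedean av) {κ : Type*} (s : Finset κ)
    (f : κ → K) {B : ℝ} (hB : 0 ≤ B) (h : ∀ i ∈ s, av (f i) ≤ B) : av (∑ i ∈ s, f i) ≤ B := by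
  classical
  induction s using Finset.induction_on with
  | empty => simpa using hB
  | insert a s ha ih =>
    rw [Finset.sum_insert ha]
    exact (hn _ _).trans (max_le (h a (Finset.mem_insert_self _ _))
      (ih fun i hi => h i (Finset.mem_insert_of_mem hi)))

theorem ht_le_exp {x B : ℝ} (h : Real.posLog x ≤ B) : x ≤ Real.exp B := by
  rcases le_or_gt x 0 with a | a
  · exact a.trans (Real.exp_pos _).le
  · rw [← Real.log_le_iff_le_exp a]
    exact (le_max_right _ _).trans h

/-- Take a nonzero relation `∑ q i * y ^ i = 0` with `q i` in the algebra, `q` its leading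
coefficient.  Every element of the algebra satisfies `posLog (av a) ≤ D * ∑ posLog (av (u i))` for
some `D` independent of `av` (`Algebra.adjoin_induction`), and
`av q * max 1 (av y) ≤ max (av (q i))`. -/
theorem ht {ι : Type*} [Fintype ι] (u : ι → K) {y : K}
    (hy : IsAlgebraic (Algebra.adjoin ℂ (Set.range u)) y) :
    ∃ (D0 : ℕ) (q : K), q ≠ 0 ∧ ∀ av : AbsoluteValue K ℝ, IsNonarchimedean av →
      (∀ a : ℂ, av (algebraMap ℂ K a) ≤ 1) →
      Real.posLog (av y) ≤ D0 * ∑ i, Real.posLog (av (u i)) - Real.log (av q) := by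
  obtain ⟨p, hp0, hp⟩ := hy
  choose D hD using fun i : ℕ => ht_adjoin u (p.coeff i).2
  have hq : ((p.coeff p.natDegree : Algebra.adjoin ℂ (Set.range u)) : K) ≠ 0 := by
    intro h
    exact hp0 (leadingCoeff_eq_zero.1 (Subtype.ext h))
  refine ⟨∑ i ∈ Finset.range (p.natDegree + 1), D i, p.coeff p.natDegree, hq, fun av hn h => ?_⟩
  obtain ⟨S, hS⟩ : ∃ S, S = ∑ i, Real.posLog (av (u i)) := ⟨_, rfl⟩
  have hS0 : 0 ≤ S := hS ▸ Finset.sum_nonneg fun _ _ => Real.posLog_nonneg
  obtain ⟨B, hB⟩ : ∃ B : ℝ, B = ((∑ i ∈ Finset.range (p.natDegree + 1), D i : ℕ) : ℝ) * S :=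
    ⟨_, rfl⟩
  rw [← hS, ← hB]
  have hb : ∀ i ≤ p.natDegree, Real.posLog (av (p.coeff i)) ≤ B := by
    intro i hi
    have a1 := hD i av hn h
    rw [← hS] at a1
    refine a1.trans ?_
    rw [hB]
    refine mul_le_mul_of_nonneg_right (Nat.cast_le.2 ?_) hS0
    exact Finset.single_le_sum (fun _ _ => Nat.zero_le _)
      (Finset.mem_range.2 (Nat.lt_succ_of_le hi))
  have hq0 : 0 < av (p.coeff p.natDegree) := av.pos hq
  by_cases hy1 : av y ≤ 1
  · rw [(Real.posLog_eq_zero_iff _).2 (by rw [abs_of_nonneg (av.nonneg _)]; exact hy1)]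
    have : Real.log (av (p.coeff p.natDegree)) ≤ Real.posLog (av (p.coeff p.natDegree)) :=
      le_max_right _ _
    linarith [hb _ le_rfl]
  · rw [not_le] at hy1
    have hy0 : 0 < av y := by linarith
    rw [aeval_eq_sum_range, Finset.sum_range_succ] at hp
    simp only [Subalgebra.smul_def, smul_eq_mul] at hp
    have e1 : av (p.coeff p.natDegree) * av y ^ p.natDegree =
        av (∑ i ∈ Finset.range p.natDegree, (p.coeff i : K) * y ^ i) := by
      rw [← map_pow, ← map_mul, eq_neg_of_add_eq_zero_right hp, AbsoluteValue.map_neg]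
    have e2 : av (∑ i ∈ Finset.range p.natDegree, (p.coeff i : K) * y ^ i)
        ≤ Real.exp B * av y ^ p.natDegree / av y := by
      refine ht_sum_le hn _ _ (by positivity) fun i hi => ?_
      have hi' := Finset.mem_range.1 hi
      rw [map_mul, map_pow, le_div_iff₀ hy0, mul_assoc, ← pow_succ]
      exact mul_le_mul (ht_le_exp (hb i hi'.le)) (pow_le_pow_right₀ hy1.le hi') (by positivity)
        (Real.exp_pos _).le
    rw [← e1, le_div_iff₀ hy0] at e2
    have e3 : av (p.coeff p.natDegree) * av y ≤ Real.exp B := by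
      refine le_of_mul_le_mul_right ?_ (pow_pos hy0 p.natDegree)
      linarith
    rw [← Real.log_le_iff_le_exp (by positivity), Real.log_mul hq0.ne' hy0.ne'] at e3
    rw [Real.posLog_eq_log (by rw [abs_of_pos hy0]; exact hy1.le)]
    linarith

end ht

end Pool.Agent.Lib.MP_0dd0d9_ag.Hi
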