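import Pool.Agent.Lib.MP_0dd0d9_ag.Hi.Poly

/-!
TASK gh Dig1.  The digit basis: definition, formal properties, and the basis property for
families that contain the power map.
-/

namespace Pool.Agent.Lib.MP_0dd0d9_ag.Hi

open MvPolynomial

variable {ι : Type} [Fintype ι] [DecidableEq ι] {d : ℕ}
variable {R S : Type} [CommRing R] [CommRing S]

/-- The digit polynomial: write each `β a` in base `d` with `j` digits and a quotient. -/
noncomputable def dg (F : ι → MvPolynomial ι R) (d j : ℕ) (β : ι →₀ ℕ) : MvPolynomial ι R :=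
  (∏ i ∈ Finset.range j, ∏ a, itr F i a ^ (β a / d ^ i % d)) * ∏ a, itr F j a ^ (β a / d ^ j)

/-- A point of a box as an exponent vector. -/
noncomputable def box {m : ℕ} (β : ι → Fin m) : ι →₀ ℕ :=
  Finsupp.equivFunOnFinite.symm fun a => (β a : ℕ)

@[simp] theorem box_apply {m : ℕ} (β : ι → Fin m) (a : ι) : box β a = β a := rfl

theorem box_inj {m : ℕ} : Function.Injective (box : (ι → Fin m) → ι →₀ ℕ) := by
  intro β β' h
  funext a
  apply Fin.ext
  rw [← box_apply β a, h, box_apply]

/-- The digit polynomials form a basis compatible with the degree filtration. -/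
def Dig {K : Type} [Field K] (d : ℕ) (F : ι → MvPolynomial ι K) : Prop :=
  ∀ j, LinearIndependent K (dg F d j) ∧
    ∀ p : MvPolynomial ι K, p ∈ Submodule.span K (dg F d j '' {β | β.degree ≤ p.totalDegree})

theorem digit_sum (d j n : ℕ) :
    ∑ i ∈ Finset.range j, d ^ i * (n / d ^ i % d) + d ^ j * (n / d ^ j) = n := by
  induction j with
  | zero => simp
  | succ j ih =>
    rw [Finset.sum_range_succ, pow_succ, ← Nat.div_div_eq_div_mul, add_assoc, mul_assoc,
      ← mul_add, Nat.mod_add_div, ih]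

theorem dg_hom {F : ι → MvPolynomial ι R} (hF : Hm F d) (j : ℕ) (β : ι →₀ ℕ) :
    (dg F d j β).IsHomogeneous β.degree := by
  have h1 : (∏ i ∈ Finset.range j, ∏ a, itr F i a ^ (β a / d ^ i % d)).IsHomogeneous
      (∑ i ∈ Finset.range j, ∑ a, d ^ i * (β a / d ^ i % d)) :=
    IsHomogeneous.prod _ _ _ fun i _ => IsHomogeneous.prod _ _ _ fun a _ =>
      (hF.iter i a).pow _
  have h2 : (∏ a, itr F j a ^ (β a / d ^ j)).IsHomogeneous (∑ a, d ^ j * (β a / d ^ j)) :=
    IsHomogeneous.prod _ _ _ fun a _ => (hF.iter j a).pow _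
  have h3 := h1.mul h2
  rw [Finset.sum_comm, ← Finset.sum_add_distrib] at h3
  simp only [digit_sum] at h3
  rw [Finsupp.degree_eq_sum]
  exact h3

theorem dg_pw (d j : ℕ) (β : ι →₀ ℕ) : dg (pw R d) d j β = monomial β 1 := by
  simp only [dg, itr_pw, pw, ← pow_mul]
  rw [Finset.prod_comm, ← Finset.prod_mul_distrib]
  simp only [Finset.prod_pow_eq_pow_sum, ← pow_add, digit_sum]
  rw [monomial_eq, C_1, one_mul, Finsupp.prod_fintype _ _ (by simp)]

theorem map_dg (f : R →+* S) (F : ι → MvPolynomial ι R) (d j : ℕ) (β : ι →₀ ℕ) :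
    map f (dg F d j β) = dg (fun a => map f (F a)) d j β := by
  simp only [dg, map_mul, map_prod, map_pow, map_itr]

theorem dg_add (hd : 1 ≤ d) (F : ι → MvPolynomial ι R) (j : ℕ) (β : ι → Fin (d ^ j))
    (γ : ι →₀ ℕ) :
    dg F d j (box β + d ^ j • γ) = dg F d j (box β) * bind₁ (itr F j) (monomial γ 1) := by
  have hp : 0 < d ^ j := Nat.pow_pos hd
  have e1 : ∀ a, ((box β + d ^ j • γ : ι →₀ ℕ)) a = β a + d ^ j * γ a := fun a => by simp
  have e2 : ∀ i ∈ Finset.range j, ∀ a,
      ((β a : ℕ) + d ^ j * γ a) / d ^ i % d = (β a : ℕ) / d ^ i % d := by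
    intro i hi a
    obtain ⟨k, rfl⟩ := Nat.exists_eq_add_of_lt (Finset.mem_range.1 hi)
    have : d ^ (i + k + 1) * γ a = d ^ i * (d * (d ^ k * γ a)) := by ring
    rw [this, Nat.add_mul_div_left _ _ (Nat.pow_pos hd), Nat.add_mul_mod_self_left]
  have e3 : ∀ a, ((β a : ℕ) + d ^ j * γ a) / d ^ j = γ a := fun a => by
    rw [Nat.add_mul_div_left _ _ hp, Nat.div_eq_of_lt (β a).2, zero_add]
  have e4 : ∀ a, (β a : ℕ) / d ^ j = 0 := fun a => Nat.div_eq_of_lt (β a).2
  have e5 : bind₁ (itr F j) (monomial γ (1 : R)) = ∏ a, itr F j a ^ γ a := by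
    rw [monomial_eq, C_1, one_mul, Finsupp.prod_fintype _ _ (by simp), map_prod]
    simp only [map_pow, bind₁_X_right]
  simp only [dg, e1, e3, box_apply, e4, pow_zero, Finset.prod_const_one, mul_one, e5]
  congr 1
  exact Finset.prod_congr rfl fun i hi => Finset.prod_congr rfl fun a _ => by rw [e2 i hi a]

/-- For each degree `e` the square matrix `coeff α (s β)` (`α β : Mn ι e`) has a determinant that
`π` maps to `1`; so it is nonzero, and it stays nonzero under `ψ`.  Hence the `map ψ (s β)` of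
degree `e` are a basis of the forms of degree `e`. -/
theorem basis_of_spec [Nontrivial S] {K : Type} [Field K] (s : (ι →₀ ℕ) → MvPolynomial ι R)
    (hs : ∀ β, (s β).IsHomogeneous β.degree) (π : R →+* S)
    (hπ : ∀ β, map π (s β) = monomial β 1) (ψ : R →+* K) (hψ : Function.Injective ψ) :
    LinearIndependent K (fun β => map ψ (s β)) ∧ ∀ p : MvPolynomial ι K,
      p ∈ Submodule.span K ((fun β => map ψ (s β)) '' {β | β.degree ≤ p.totalDegree}) := by
  classical
  have ht : ∀ β, (map ψ (s β)).IsHomogeneous β.degree := fun β => (hs β).map ψ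
  have hdet : ∀ e : ℕ, (Matrix.of fun α β : Mn ι e => coeff α.1 (map ψ (s β.1))).det ≠ 0 := by
    intro e
    have a1 : π.mapMatrix (Matrix.of fun α β : Mn ι e => coeff α.1 (s β.1)) = 1 := by
      ext α β
      rw [RingHom.mapMatrix_apply, Matrix.map_apply, Matrix.of_apply, ← coeff_map, hπ,
        coeff_monomial, Matrix.one_apply]
      simp only [Subtype.ext_iff, eq_comm]
    have a2 : (Matrix.of fun α β : Mn ι e => coeff α.1 (s β.1)).det ≠ 0 := by
      intro h0
      have := π.map_det (Matrix.of fun α β : Mn ι e => coeff α.1 (s β.1))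
      rw [a1, h0, map_zero, Matrix.det_one] at this
      exact zero_ne_one this
    have a3 : ψ.mapMatrix (Matrix.of fun α β : Mn ι e => coeff α.1 (s β.1)) =
        Matrix.of fun α β : Mn ι e => coeff α.1 (map ψ (s β.1)) := by
      ext α β
      rw [RingHom.mapMatrix_apply, Matrix.map_apply, Matrix.of_apply, Matrix.of_apply, coeff_map]
    rw [← a3, ← ψ.map_det]
    exact fun h0 => a2 (hψ (h0.trans (map_zero ψ).symm))
  refine ⟨linearIndependent_iff'.2 fun u g hg β0 h0 => ?_, fun p => ?_⟩
  · have key : (Matrix.of fun α β : Mn ι β0.degree => coeff α.1 (map ψ (s β.1))).mulVec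
        (fun β => if β.1 ∈ u then g β.1 else 0) = 0 := by
      funext α
      have a1 := congrArg (coeff α.1) hg
      rw [coeff_sum, coeff_zero] at a1
      rw [Pi.zero_apply, Matrix.mulVec, dotProduct]
      refine Eq.trans ?_ a1
      simp only [Matrix.of_apply]
      rw [Finset.sum_coe_sort ((Finset.univ : Finset ι).finsuppAntidiag β0.degree)
        (fun β => coeff α.1 (map ψ (s β)) * if β ∈ u then g β else 0)]
      simp only [mul_ite, mul_zero]
      rw [← Finset.sum_filter, Finset.filter_mem_eq_inter]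
      simp only [coeff_smul, smul_eq_mul]
      rw [← Finset.sum_subset (Finset.inter_subset_right
        (s₁ := (Finset.univ : Finset ι).finsuppAntidiag β0.degree) (s₂ := u))]
      · exact Finset.sum_congr rfl fun β _ => mul_comm _ _
      · intro β hβ hn
        have a2 : β.degree ≠ β0.degree := fun h => hn (Finset.mem_inter.2 ⟨mem_Mn.2 h, hβ⟩)
        rw [(ht β).coeff_eq_zero (by rw [Mn_degree α]; exact a2.symm), mul_zero]
    have := congrFun (Matrix.eq_zero_of_mulVec_eq_zero (hdet _) key) ⟨β0, mem_Mn.2 rfl⟩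
    simpa [h0] using this
  · have hm : ∀ α : ι →₀ ℕ, α.degree ≤ p.totalDegree → (monomial α (1 : K)) ∈
        Submodule.span K ((fun β => map ψ (s β)) '' {β | β.degree ≤ p.totalDegree}) := by
      intro α hα
      obtain ⟨A, hA⟩ : ∃ A : Matrix (Mn ι α.degree) (Mn ι α.degree) K,
          A = Matrix.of fun α' β => coeff α'.1 (map ψ (s β.1)) := ⟨_, rfl⟩
      have hu : IsUnit A.det := by rw [hA]; exact (hdet _).isUnit
      have e : (monomial α (1 : K)) =
          ∑ β : Mn ι α.degree, A⁻¹ β ⟨α, mem_Mn.2 rfl⟩ • map ψ (s β.1) := by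
        ext α'
        rw [coeff_sum, coeff_monomial]
        by_cases h1 : α'.degree = α.degree
        · have a1 := congrFun (congrFun (Matrix.mul_nonsing_inv A hu) ⟨α', mem_Mn.2 h1⟩)
            ⟨α, mem_Mn.2 rfl⟩
          rw [Matrix.mul_apply, Matrix.one_apply] at a1
          simp only [Subtype.ext_iff] at a1
          rw [if_congr eq_comm rfl rfl, ← a1]
          refine Finset.sum_congr rfl fun β _ => ?_
          rw [coeff_smul, smul_eq_mul, mul_comm]
          congr 1
          rw [hA]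
          rfl
        · rw [if_neg fun h => h1 (by rw [h])]
          refine (Finset.sum_eq_zero fun β _ => ?_).symm
          rw [coeff_smul, (ht β.1).coeff_eq_zero (by rw [Mn_degree β]; exact h1), smul_zero]
      rw [e]
      refine Submodule.sum_mem _ fun β _ => Submodule.smul_mem _ _ (Submodule.subset_span ?_)
      exact ⟨β.1, (Mn_degree β).le.trans hα, rfl⟩
    have e : p = ∑ α ∈ p.support, coeff α p • (monomial α (1 : K)) := by
      conv_lhs => rw [p.as_sum]
      refine Finset.sum_congr rfl fun α _ => ?_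
      rw [smul_monomial, smul_eq_mul, mul_one]
    have hmem : ∑ α ∈ p.support, coeff α p • (monomial α (1 : K)) ∈
        Submodule.span K ((fun β => map ψ (s β)) '' {β | β.degree ≤ p.totalDegree}) :=
      Submodule.sum_mem _ fun α hα => Submodule.smul_mem _ _ (hm α (le_totalDegree hα))
    rwa [← e] at hmem

theorem dig_total {K : Type} [Field K] [Algebra ℂ K] {c : ι × Mn ι d → K}
    (hc : AlgebraicIndependent ℂ c) : Dig d (Fp c) := by
  intro j
  have h := basis_of_spec (S := ℂ) (K := K)
    (dg (Fp (X : ι × Mn ι d → MvPolynomial (ι × Mn ι d) ℂ)) d j) (dg_hom (Fp_hm _) j)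
    (eval (cpow ℂ)) (fun β => by
      have e : eval (cpow ℂ : ι × Mn ι d → ℂ) ∘ X = cpow ℂ := funext fun x => eval_X x
      simp only [map_dg, map_Fp, e, Fp_cpow, dg_pw])
    (aeval c : MvPolynomial (ι × Mn ι d) ℂ →ₐ[ℂ] K).toRingHom hc
  have e : (aeval c : MvPolynomial (ι × Mn ι d) ℂ →ₐ[ℂ] K).toRingHom ∘ X = c :=
    funext fun x => aeval_X c x
  simp only [map_dg, map_Fp, e] at h
  exact h

theorem dig_slice {K : Type} [Field K] [Algebra ℂ K] {c : ι × MnS ι d → K}
    (hc : AlgebraicIndependent ℂ c) : Dig d (Fp (sl c)) := by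
  intro j
  have h := basis_of_spec (S := ℂ) (K := K)
    (dg (Fp (sl (X : ι × MnS ι d → MvPolynomial (ι × MnS ι d) ℂ))) d j) (dg_hom (Fp_hm _) j)
    (eval (0 : ι × MnS ι d → ℂ)) (fun β => by
      have e : eval (0 : ι × MnS ι d → ℂ) ∘ X = 0 := funext fun x => eval_X x
      simp only [map_dg, map_Fp, map_sl, e, sl_zero, Fp_cpow, dg_pw])
    (aeval c : MvPolynomial (ι × MnS ι d) ℂ →ₐ[ℂ] K).toRingHom hc
  have e : (aeval c : MvPolynomial (ι × MnS ι d) ℂ →ₐ[ℂ] K).toRingHom ∘ X = c :=
    funext fun x => aeval_X c x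
  simp only [map_dg, map_Fp, map_sl, e] at h
  exact h

end Pool.Agent.Lib.MP_0dd0d9_ag.Hi
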