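import Pool.Agent.Lib.MP_0dd0d9_ag.Hi.OV

/-!
TASK gh Eigen.  The tangent system at the power map has no invariant hypersurface that depends on
the fibre variables.
-/

namespace Pool.Agent.Lib.MP_0dd0d9_ag.Hi

open MvPolynomial

variable {ι κ : Type} [Fintype ι] [DecidableEq ι] [Field κ]

/-- The pull-back under `(X, Y) ↦ (X ^ d, d X ^ (d - 1) Y + X ^ (d - 1) X (b ·))`. -/
noncomputable def Tst (d : ℕ) (b : ι → ι) :
    MvPolynomial ι (MvPolynomial ι κ) →+* MvPolynomial ι (MvPolynomial ι κ) :=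
  eval₂Hom (C.comp (expand d : MvPolynomial ι κ →ₐ[κ] MvPolynomial ι κ).toRingHom)
    fun a => C ((d : MvPolynomial ι κ) * X a ^ (d - 1)) * X a + C (X a ^ (d - 1) * X (b a))

/-- The auxiliary choice of a second index. -/
def oth (a0 a1 : ι) (a : ι) : ι := if a = a0 then a1 else a0

omit [Fintype ι] [DecidableEq ι] in
theorem eigen_Tst_C (d : ℕ) (b : ι → ι) (r : MvPolynomial ι κ) :
    Tst d b (C r) = C (expand d r) := by
  simp [Tst]

omit [Fintype ι] [DecidableEq ι] in
theorem eigen_Tst_X (d : ℕ) (b : ι → ι) (a : ι) :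
    Tst (κ := κ) d b (X a) =
      C ((d : MvPolynomial ι κ) * X a ^ (d - 1)) * X a + C (X a ^ (d - 1) * X (b a)) := by
  simp only [Tst, eval₂Hom_X']

theorem pderiv_Tst (d : ℕ) (b : ι → ι) (a : ι) (Φ : MvPolynomial ι (MvPolynomial ι κ)) :
    pderiv a (Tst d b Φ) = C ((d : MvPolynomial ι κ) * X a ^ (d - 1)) * Tst d b (pderiv a Φ) := by
  induction Φ using MvPolynomial.induction_on with
  | C r => rw [eigen_Tst_C, pderiv_C, pderiv_C, map_zero, mul_zero]
  | add p q hp hq => rw [map_add, map_add, hp, hq, map_add, map_add, mul_add]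
  | mul_X p i hp =>
    rw [map_mul (Tst d b), pderiv_mul, hp, pderiv_mul, map_add (Tst d b), map_mul (Tst d b),
      map_mul (Tst d b), eigen_Tst_X, map_add, pderiv_C_mul, pderiv_C, add_zero]
    by_cases h : i = a
    · subst h
      rw [pderiv_X_self, map_one]
      ring
    · rw [pderiv_X_of_ne h, map_zero]
      ring

omit [DecidableEq ι] in
theorem eigen_pderiv_lin (g0 : MvPolynomial ι κ) (g : ι → MvPolynomial ι κ) (a : ι) :
    pderiv a (C g0 + ∑ i, C (g i) * X i : MvPolynomial ι (MvPolynomial ι κ)) = C (g a) := by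
  rw [map_add, pderiv_C, zero_add, map_sum, Finset.sum_eq_single a]
  · rw [pderiv_C_mul, pderiv_X_self, mul_one]
  · intro i _ hi
    rw [pderiv_C_mul, pderiv_X_of_ne hi, mul_zero]
  · intro h
    exact absurd (Finset.mem_univ a) h

theorem eigen_step {d : ℕ} {b : ι → ι} {Φ : MvPolynomial ι (MvPolynomial ι κ)}
    {α α' : MvPolynomial ι κ} (h : C α * Tst d b Φ = C α' * Φ) (a : ι) :
    C (α * ((d : MvPolynomial ι κ) * X a ^ (d - 1))) * Tst d b (pderiv a Φ) =
      C α' * pderiv a Φ := by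
  have := congrArg (pderiv a) h
  rwa [pderiv_C_mul, pderiv_C_mul, pderiv_Tst, ← mul_assoc, ← C_mul] at this

theorem eigen_field {K : Type} [Field K] (σ : K →+* K) {A A' D H H' : K} (hA : A * D ≠ 0)
    (hH : H' ≠ 0) (h1 : A * D * σ H = A' * H) (h2 : A * D * σ H' = A' * H') :
    σ (H / H') = H / H' := by
  have hs : σ H' ≠ 0 := (map_ne_zero σ).2 hH
  rw [map_div₀, div_eq_div_iff hs hH]
  apply mul_left_cancel₀ hA
  linear_combination H' * h1 - H * h2

/-- The linear case `Φ = C g0 + ∑ C (g a) * X a`.  Suppose `g a' ≠ 0`.  Comparing coefficients,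
`α * d * X a ^ (d - 1) * expand (g a) = α' * g a` and
`α * (expand g0 + ∑ expand (g a) * X a ^ (d - 1) * X (b a)) = α' * g0`.  Substitute
`X a ↦ T ^ m a` (`kronecker` for `α * g a'`), and pass to `RatFunc κ`.  With
`G = g a' * T ^ m a'` the quotients `g a * T ^ m a / G` are fixed by `σ`, hence constants `ρ a`
(`ov`), `ρ a' = 1`; and `r = g0 / G` satisfies `σ r = d * r - ∑ ρ a * T ^ (m (b a) - m a)`.  The
exponents are distinct and not divisible by `d`, so `ov` gives `ρ = 0`.  (The exponent at `a0` is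
positive, the others are negative.) -/
theorem eigen_lin [CharZero κ] {d : ℕ} (hd : 2 ≤ d) {a0 a1 : ι} (h01 : a1 ≠ a0)
    (g0 : MvPolynomial ι κ) (g : ι → MvPolynomial ι κ) {α α' : MvPolynomial ι κ} (hα : α ≠ 0)
    (h : C α * Tst d (oth a0 a1) (C g0 + ∑ a, C (g a) * X a) = C α' * (C g0 + ∑ a, C (g a) * X a)) :
    g = 0 := by
  funext a'
  by_contra hg
  have E1 : ∀ a, α * ((d : MvPolynomial ι κ) * X a ^ (d - 1)) * expand d (g a) = α' * g a := by
    intro a
    have := eigen_step h a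
    rw [eigen_pderiv_lin, eigen_Tst_C, ← C_mul, ← C_mul] at this
    exact C_injective _ _ this
  have E0 : α * (expand d g0 + ∑ a, expand d (g a) * (X a ^ (d - 1) * X (oth a0 a1 a))) =
      α' * g0 := by
    have := congrArg constantCoeff h
    simpa only [map_mul, map_add, map_sum, eigen_Tst_C, eigen_Tst_X, constantCoeff_C,
      constantCoeff_X, mul_zero, zero_add, Finset.sum_const_zero, add_zero] using this
  obtain ⟨m, m1, m2, m3, m4, m5⟩ := kronecker hd a0 (mul_ne_zero hα hg)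
  obtain ⟨σ, hσ⟩ := ov_sigma κ (show 1 ≤ d by omega)
  let ψ : MvPolynomial ι κ →+* RatFunc κ := (algebraMap (Polynomial κ) (RatFunc κ)).comp
    (aeval fun a => (Polynomial.X : Polynomial κ) ^ m a).toRingHom
  have hX : ∀ a, ψ (X a) = RatFunc.X ^ m a := by
    intro a
    simp [ψ]
  have hσX : σ RatFunc.X = RatFunc.X ^ d := by
    have := hσ Polynomial.X
    rwa [Polynomial.expand_X, map_pow, RatFunc.algebraMap_X] at this
  have hE : ∀ r, ψ (expand d r) = σ (ψ r) := by
    intro r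
    induction r using MvPolynomial.induction_on with
    | C c =>
      have := hσ (Polynomial.C c)
      rw [Polynomial.expand_C] at this
      simpa [ψ] using this.symm
    | add p q hp hq => rw [map_add, map_add, hp, hq, map_add, map_add]
    | mul_X p i hp =>
      rw [map_mul, map_mul, hp, map_mul, map_mul, expand_X, map_pow, hX, map_pow, hσX,
        ← pow_mul, ← pow_mul, mul_comm d]
  have hne : ψ α * ψ (g a') ≠ 0 := by
    rw [← map_mul]
    exact (map_ne_zero_iff _ (RatFunc.algebraMap_injective κ)).2 m5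
  have hA : ψ α ≠ 0 := left_ne_zero_of_mul hne
  have hT : (RatFunc.X : RatFunc κ) ≠ 0 := RatFunc.X_ne_zero
  have hC : (RatFunc.C (d : κ) : RatFunc κ) = d := map_natCast _ d
  have hd0 : (d : RatFunc κ) ≠ 0 := by
    rw [← hC]
    exact (map_ne_zero _).2 (Nat.cast_ne_zero.2 (by omega))
  have hp : ∀ a, ((RatFunc.X : RatFunc κ) ^ m a) ^ (d - 1) * RatFunc.X ^ m a =
      σ (RatFunc.X ^ m a) := by
    intro a
    rw [← pow_succ, Nat.sub_add_cancel (by omega), map_pow, hσX, ← pow_mul, ← pow_mul, mul_comm]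
  have F1 : ∀ a, ψ α * (d : RatFunc κ) * σ (ψ (g a) * RatFunc.X ^ m a) =
      ψ α' * (ψ (g a) * RatFunc.X ^ m a) := by
    intro a
    have := congrArg ψ (E1 a)
    rw [map_mul, map_mul, map_mul, map_mul, map_pow, hX, hE, map_natCast] at this
    rw [map_mul, ← hp]
    linear_combination ((RatFunc.X : RatFunc κ) ^ m a) * this
  have hH : ψ (g a') * RatFunc.X ^ m a' ≠ 0 :=
    mul_ne_zero (right_ne_zero_of_mul hne) (pow_ne_zero _ hT)
  have F2 : ∀ a, ∃ u : κ, ψ (g a) * RatFunc.X ^ m a / (ψ (g a') * RatFunc.X ^ m a') =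
      RatFunc.C u := fun a =>
    (ov hd σ hσ (A := Fin 0) Fin.elim0 (fun i => i.elim0) (fun i => i.elim0) Fin.elim0 1 _
      (by rw [eigen_field σ (mul_ne_zero hA hd0) hH (F1 a) (F1 a'), Finset.univ_eq_empty,
        Finset.sum_empty, map_one, one_mul, add_zero])).1
  choose ρ hρ using F2
  have hρ1 : ρ a' = 1 := by
    have := hρ a'
    rw [div_self hH, ← map_one RatFunc.C] at this
    exact (RatFunc.C_injective this).symm
  have F0 := congrArg ψ E0
  simp only [map_mul, map_add, map_sum, map_pow, hX, hE] at F0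
  have hs : σ (ψ (g a') * RatFunc.X ^ m a') ≠ 0 := (map_ne_zero σ).2 hH
  have F3 : ∀ a, σ (ψ (g a)) * ((RatFunc.X ^ m a) ^ (d - 1) * RatFunc.X ^ m (oth a0 a1 a)) =
      RatFunc.C (ρ a) * RatFunc.X ^ ((m (oth a0 a1 a) : ℤ) - m a) *
        σ (ψ (g a') * RatFunc.X ^ m a') := by
    intro a
    have e1 := eigen_field σ (mul_ne_zero hA hd0) hH (F1 a) (F1 a')
    rw [map_div₀, hρ, div_eq_iff hs, map_mul σ (ψ (g a)), ← hp] at e1
    have hta : (RatFunc.X : RatFunc κ) ^ m a ≠ 0 := pow_ne_zero _ hT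
    rw [zpow_sub₀ hT, zpow_natCast, zpow_natCast]
    field_simp
    linear_combination e1
  simp only [F3] at F0
  rw [← Finset.sum_mul] at F0
  have key := ov hd σ hσ (fun a => (m (oth a0 a1 a) : ℤ) - m a) ?_ ?_ (fun a => -ρ a) d
    (ψ g0 / (ψ (g a') * RatFunc.X ^ m a')) ?_
  · have := key.2 a'
    rw [hρ1] at this
    simp at this
  · intro a b hab
    have n1 : m a1 ≠ m a0 := fun h => h01 (m1 h)
    have := m4 a1
    have := m4 a
    have := m4 b
    simp only [oth] at hab
    split_ifs at hab with ha hb hb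
    · rw [ha, hb]
    · subst ha; omega
    · subst hb; omega
    · exact m1 (by omega)
  · intro a
    obtain ⟨k, hk⟩ := m2
    have aux : ∀ i, i ≠ a0 → ¬(d : ℤ) ∣ (m i : ℤ) - m a0 := by
      intro i hi hdv
      have h1 : (d : ℤ) ∣ (m i : ℤ) := by
        have h2 : (d : ℤ) ∣ (m a0 : ℤ) := ⟨k, by exact_mod_cast hk⟩
        simpa using dvd_add hdv h2
      have h3 := Nat.mod_eq_zero_of_dvd (Int.natCast_dvd_natCast.1 h1)
      rw [m3 i hi] at h3
      omega
    simp only [oth]
    split_ifs with ha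
    · rw [ha]
      exact aux a1 h01
    · intro hdv
      exact aux a ha (by simpa using hdv.neg_right)
  · simp only [map_neg, neg_mul, Finset.sum_neg_distrib]
    rw [map_div₀, hC, div_eq_iff hs]
    have f1 := F1 a'
    generalize ∑ a, RatFunc.C (ρ a) * (RatFunc.X : RatFunc κ) ^ ((m (oth a0 a1 a) : ℤ) - m a) = S
      at F0 ⊢
    generalize σ (ψ (g a') * RatFunc.X ^ m a') = s at F0 f1 ⊢
    generalize ψ (g a') * RatFunc.X ^ m a' = H at hH f1 ⊢
    apply mul_left_cancel₀ (mul_ne_zero hA hH)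
    have e : (d : RatFunc κ) * (ψ g0 / H) * H = d * ψ g0 := by field_simp
    linear_combination H * F0 - ψ g0 * f1 - ψ α * s * e

omit [Fintype ι] [DecidableEq ι] in
theorem eigen_deg {R : Type} [CommRing R] (a : ι) {Φ : MvPolynomial ι R} {n : ℕ}
    (h : Φ.totalDegree ≤ n + 1) : (pderiv a Φ).totalDegree ≤ n := by
  refine Finset.sup_le fun s hs => ?_
  rw [mem_support_iff, coeff_pderiv] at hs
  have h1 := le_totalDegree (mem_support_iff.2 (left_ne_zero_of_mul hs))
  rw [Finsupp.sum_add_index' (fun _ => rfl) (fun _ _ _ => rfl), Finsupp.sum_single_index rfl] at h1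
  omega

omit [Fintype ι] in
theorem eigen_const {R : Type} [CommRing R] [IsDomain R] [CharZero R] {Φ : MvPolynomial ι R}
    (h : ∀ a, pderiv a Φ = 0) : Φ = C (coeff 0 Φ) := by
  ext s
  rw [coeff_C]
  split_ifs with hs
  · rw [hs]
  · obtain ⟨a, ha⟩ : ∃ a, s a ≠ 0 := by
      by_contra hc
      push Not at hc
      exact hs (Finsupp.ext fun a => (hc a).symm)
    have h1 := congrArg (coeff (s - Finsupp.single a 1)) (h a)
    rw [coeff_pderiv, coeff_zero, tsub_add_cancel_of_le
      (Finsupp.single_le_iff.2 (Nat.one_le_iff_ne_zero.2 ha))] at h1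
    exact (mul_eq_zero.1 h1).resolve_right (Nat.cast_add_one_ne_zero _)

/-- Induction on the total degree: by `pderiv_Tst` all `pderiv a Φ` are eigenfunctions too, so they
have degree zero and `Φ` has degree at most one. -/
theorem eigen [CharZero κ] {d : ℕ} (hd : 2 ≤ d) {a0 a1 : ι} (h01 : a1 ≠ a0)
    (Φ : MvPolynomial ι (MvPolynomial ι κ)) {α α' : MvPolynomial ι κ} (hα : α ≠ 0)
    (h : C α * Tst d (oth a0 a1) Φ = C α' * Φ) : Φ.totalDegree = 0 := by
  obtain ⟨n, hn⟩ : ∃ n, Φ.totalDegree ≤ n := ⟨_, le_rfl⟩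
  induction n generalizing Φ α with
  | zero => omega
  | succ n ih =>
    have h1 : ∀ a, pderiv a Φ = C (coeff 0 (pderiv a Φ)) := fun a =>
      totalDegree_eq_zero_iff_eq_C.1 (ih _ (mul_ne_zero hα (mul_ne_zero
        (Nat.cast_ne_zero.2 (by omega)) (pow_ne_zero _ (X_ne_zero a)))) (eigen_step h a)
        (eigen_deg a hn))
    obtain ⟨g, hg⟩ : ∃ g : ι → MvPolynomial ι κ, ∀ a, pderiv a Φ = C (g a) := ⟨_, h1⟩
    have h2 := eigen_const (Φ := Φ - ∑ i, C (g i) * X i) fun a => by
      have := eigen_pderiv_lin 0 g a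
      rw [C_0, zero_add] at this
      rw [map_sub, hg, this, sub_self]
    obtain ⟨g0, hg0⟩ : ∃ g0, Φ = C g0 + ∑ i, C (g i) * X i := ⟨_, sub_eq_iff_eq_add.1 h2⟩
    rw [hg0] at h
    rw [hg0, eigen_lin hd h01 g0 g hα h]
    simp

end Pool.Agent.Lib.MP_0dd0d9_ag.Hi
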