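import Pool.Agent.Lib.MP_0dd0d9_ag.Hi.Eigen

/-!
TASK gh Elim.  Elimination of the fibre variables.
-/

namespace Pool.Agent.Lib.MP_0dd0d9_ag.Hi

open MvPolynomial

variable {ι : Type} [Fintype ι] [DecidableEq ι]

/-- Two polynomials of degree at most `n` with the same part of degree `n`. -/
def elim_Top {R : Type} [CommRing R] (Ψ Θ : MvPolynomial ι R) (n : ℕ) : Prop :=
  (∀ γ : ι →₀ ℕ, n < γ.degree → coeff γ Ψ = 0) ∧ (∀ γ : ι →₀ ℕ, n < γ.degree → coeff γ Θ = 0) ∧
    ∀ γ : ι →₀ ℕ, n ≤ γ.degree → coeff γ Ψ = coeff γ Θ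

omit [Fintype ι] in
theorem elim_top_mul {R : Type} [CommRing R] {Ψ Θ Ψ' Θ' : MvPolynomial ι R} {n m : ℕ}
    (h : elim_Top Ψ Θ n) (h' : elim_Top Ψ' Θ' m) : elim_Top (Ψ * Ψ') (Θ * Θ') (n + m) := by
  obtain ⟨h1, h2, h3⟩ := h
  obtain ⟨h1', h2', h3'⟩ := h'
  have hdeg : ∀ (γ : ι →₀ ℕ) (p : (ι →₀ ℕ) × (ι →₀ ℕ)), p ∈ Finset.HasAntidiagonal.antidiagonal γ →
      p.1.degree + p.2.degree = γ.degree := by
    intro γ p hp
    rw [Finset.HasAntidiagonal.mem_antidiagonal] at hp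
    rw [← hp, map_add]
  refine ⟨fun γ hγ => ?_, fun γ hγ => ?_, fun γ hγ => ?_⟩
  · rw [coeff_mul]
    refine Finset.sum_eq_zero fun p hp => ?_
    have := hdeg γ p hp
    by_cases hc : n < p.1.degree
    · rw [h1 _ hc, zero_mul]
    · rw [h1' p.2 (by omega), mul_zero]
  · rw [coeff_mul]
    refine Finset.sum_eq_zero fun p hp => ?_
    have := hdeg γ p hp
    by_cases hc : n < p.1.degree
    · rw [h2 _ hc, zero_mul]
    · rw [h2' p.2 (by omega), mul_zero]
  · rw [coeff_mul, coeff_mul]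
    refine Finset.sum_congr rfl fun p hp => ?_
    have := hdeg γ p hp
    by_cases hc : n < p.1.degree
    · rw [h1 _ hc, h2 _ hc, zero_mul, zero_mul]
    · by_cases hc' : m < p.2.degree
      · rw [h1' _ hc', h2' _ hc', mul_zero, mul_zero]
      · rw [h3 p.1 (by omega), h3' p.2 (by omega)]

omit [Fintype ι] in
theorem elim_top_C {R : Type} [CommRing R] (c : R) :
    elim_Top (C c : MvPolynomial ι R) (C c) 0 := by
  have h : ∀ γ : ι →₀ ℕ, 0 < γ.degree → coeff γ (C c : MvPolynomial ι R) = 0 := by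
    intro γ hγ
    rw [coeff_C, if_neg]
    rintro rfl
    simp at hγ
  exact ⟨h, h, fun _ _ => rfl⟩

omit [Fintype ι] in
theorem elim_top_lin {R : Type} [CommRing R] (u v : R) (a : ι) :
    elim_Top (C u * X a + C v : MvPolynomial ι R) (C u * X a) 1 := by
  have h : ∀ γ : ι →₀ ℕ, 1 < γ.degree → coeff γ (C u * X a : MvPolynomial ι R) = 0 := by
    intro γ hγ
    rw [coeff_C_mul, coeff_X, if_neg, mul_zero]
    rintro rfl
    simp at hγ
  have h' : ∀ γ : ι →₀ ℕ, 1 ≤ γ.degree → coeff γ (C v : MvPolynomial ι R) = 0 :=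
    fun γ hγ => (elim_top_C v).1 γ hγ
  refine ⟨fun γ hγ => ?_, h, fun γ hγ => ?_⟩
  · rw [coeff_add, h γ hγ, h' γ hγ.le, add_zero]
  · rw [coeff_add, h' γ hγ, add_zero]

omit [Fintype ι] in
theorem elim_top_pow {R : Type} [CommRing R] {Ψ Θ : MvPolynomial ι R}
    (h : elim_Top Ψ Θ 1) (k : ℕ) : elim_Top (Ψ ^ k) (Θ ^ k) k := by
  induction k with
  | zero => simpa using elim_top_C (ι := ι) (1 : R)
  | succ k ih => rw [pow_succ, pow_succ]; exact elim_top_mul ih h

omit [Fintype ι] in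
theorem elim_top_prod {R : Type} [CommRing R] (s : Finset ι) (Ψ Θ : ι → MvPolynomial ι R)
    (n : ι → ℕ) (h : ∀ a, elim_Top (Ψ a) (Θ a) (n a)) :
    elim_Top (∏ a ∈ s, Ψ a) (∏ a ∈ s, Θ a) (∑ a ∈ s, n a) := by
  induction s using Finset.induction_on with
  | empty => simpa using elim_top_C (ι := ι) (1 : R)
  | insert a s ha ih =>
    rw [Finset.prod_insert ha, Finset.prod_insert ha, Finset.sum_insert ha]
    exact elim_top_mul (h a) ih

omit [DecidableEq ι] in
theorem elim_Tst_monomial {κ : Type} [Field κ] (d : ℕ) (b : ι → ι) (δ : ι →₀ ℕ)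
    (c : MvPolynomial ι κ) :
    Tst d b (monomial δ c) = C (expand d c) * ∏ a,
      (C ((d : MvPolynomial ι κ) * X a ^ (d - 1)) * X a + C (X a ^ (d - 1) * X (b a))) ^ δ a := by
  rw [Tst, eval₂Hom_monomial, Finsupp.prod_fintype _ _ (fun _ => pow_zero _)]
  rfl

omit [DecidableEq ι] in
theorem elim_prod_monomial {R : Type} [CommRing R] (u : ι → R) (δ : ι →₀ ℕ) (c : R) :
    (C c * ∏ a, (C (u a) * X a) ^ δ a : MvPolynomial ι R) = monomial δ ((∏ a, u a ^ δ a) * c) := by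
  rw [monomial_eq, Finsupp.prod_fintype _ _ (fun _ => pow_zero _)]
  simp only [mul_pow, Finset.prod_mul_distrib, map_mul, map_prod, map_pow]
  ring

/-- The top coefficients of the pull-back. -/
theorem coeff_Tst_top {κ : Type} [Field κ] (d : ℕ) (b : ι → ι)
    (Φ : MvPolynomial ι (MvPolynomial ι κ)) {γ : ι →₀ ℕ} (hγ : Φ.totalDegree ≤ γ.degree) :
    coeff γ (Tst d b Φ) = (∏ a, ((d : MvPolynomial ι κ) * X a ^ (d - 1)) ^ γ a) *
      expand d (coeff γ Φ) := by
  have key : ∀ δ ∈ Φ.support, coeff γ (Tst d b (monomial δ (coeff δ Φ))) =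
      if δ = γ then (∏ a, ((d : MvPolynomial ι κ) * X a ^ (d - 1)) ^ γ a) * expand d (coeff γ Φ)
      else 0 := by
    intro δ hδ
    have hle : δ.degree ≤ γ.degree := le_trans (le_totalDegree hδ) hγ
    have ht := elim_top_mul (elim_top_C (ι := ι) (expand d (coeff δ Φ)))
      (elim_top_prod Finset.univ _ _ _ fun a => elim_top_pow
        (elim_top_lin ((d : MvPolynomial ι κ) * X a ^ (d - 1)) (X a ^ (d - 1) * X (b a)) a) (δ a))
    rw [elim_Tst_monomial, ht.2.2 γ (by rw [zero_add, ← Finsupp.degree_eq_sum]; exact hle),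
      elim_prod_monomial, coeff_monomial]
    split_ifs with h
    · rw [h]
    · rfl
  conv_lhs => rw [Φ.as_sum, map_sum, coeff_sum]
  rw [Finset.sum_congr rfl key, Finset.sum_ite_eq']
  split_ifs with h
  · rfl
  · rw [notMem_support_iff.1 h, map_zero, mul_zero]

/-- All coefficients have degree at most `e`. -/
def elim_B {κ : Type} [Field κ] (Ψ : MvPolynomial ι (MvPolynomial ι κ)) (e : ℕ) : Prop :=
  ∀ γ, (coeff γ Ψ).totalDegree ≤ e

omit [Fintype ι] [DecidableEq ι] in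
theorem elim_B_mono {κ : Type} [Field κ] {Ψ : MvPolynomial ι (MvPolynomial ι κ)} {e e' : ℕ}
    (h : elim_B Ψ e) (he : e ≤ e') : elim_B Ψ e' := fun γ => (h γ).trans he

omit [Fintype ι] in
theorem elim_B_C {κ : Type} [Field κ] {c : MvPolynomial ι κ} {e : ℕ} (h : c.totalDegree ≤ e) :
    elim_B (C c : MvPolynomial ι (MvPolynomial ι κ)) e := by
  intro γ
  rw [coeff_C]
  split_ifs
  · exact h
  · simp

omit [Fintype ι] in
theorem elim_B_X {κ : Type} [Field κ] (a : ι) :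
    elim_B (X a : MvPolynomial ι (MvPolynomial ι κ)) 0 := by
  intro γ
  rw [coeff_X]
  split_ifs <;> simp

omit [Fintype ι] [DecidableEq ι] in
theorem elim_B_add {κ : Type} [Field κ] {Ψ Θ : MvPolynomial ι (MvPolynomial ι κ)} {e : ℕ}
    (h : elim_B Ψ e) (h' : elim_B Θ e) : elim_B (Ψ + Θ) e := by
  intro γ
  rw [coeff_add]
  exact (totalDegree_add _ _).trans (max_le (h γ) (h' γ))

omit [Fintype ι] [DecidableEq ι] in
theorem elim_B_sub {κ : Type} [Field κ] {Ψ Θ : MvPolynomial ι (MvPolynomial ι κ)} {e : ℕ}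
    (h : elim_B Ψ e) (h' : elim_B Θ e) : elim_B (Ψ - Θ) e := by
  intro γ
  rw [coeff_sub]
  exact (totalDegree_sub _ _).trans (max_le (h γ) (h' γ))

omit [Fintype ι] [DecidableEq ι] in
theorem elim_B_sum {κ α : Type} [Field κ] (s : Finset α)
    {Ψ : α → MvPolynomial ι (MvPolynomial ι κ)} {e : ℕ}
    (h : ∀ a ∈ s, elim_B (Ψ a) e) : elim_B (∑ a ∈ s, Ψ a) e := by
  intro γ
  rw [coeff_sum]
  exact totalDegree_finsetSum_le fun a ha => h a ha γ

omit [Fintype ι] in
theorem elim_B_mul {κ : Type} [Field κ] {Ψ Θ : MvPolynomial ι (MvPolynomial ι κ)} {e e' : ℕ}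
    (h : elim_B Ψ e) (h' : elim_B Θ e') : elim_B (Ψ * Θ) (e + e') := by
  intro γ
  rw [coeff_mul]
  exact totalDegree_finsetSum_le fun p _ =>
    (totalDegree_mul _ _).trans (add_le_add (h _) (h' _))

omit [Fintype ι] in
theorem elim_B_pow {κ : Type} [Field κ] {Ψ : MvPolynomial ι (MvPolynomial ι κ)} {e : ℕ}
    (h : elim_B Ψ e) (k : ℕ) : elim_B (Ψ ^ k) (e * k) := by
  induction k with
  | zero => simpa using elim_B_C (ι := ι) (κ := κ) (c := 1) (e := 0) (by simp)
  | succ k ih => rw [pow_succ, mul_add, mul_one]; exact elim_B_mul ih h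

omit [Fintype ι] in
theorem elim_B_prod {κ α : Type} [Field κ] [DecidableEq α] (s : Finset α)
    (Ψ : α → MvPolynomial ι (MvPolynomial ι κ)) (e : α → ℕ) (h : ∀ a, elim_B (Ψ a) (e a)) :
    elim_B (∏ a ∈ s, Ψ a) (∑ a ∈ s, e a) := by
  induction s using Finset.induction_on with
  | empty => simpa using elim_B_C (ι := ι) (κ := κ) (c := 1) (e := 0) (by simp)
  | insert a s ha ih =>
    rw [Finset.prod_insert ha, Finset.sum_insert ha]
    exact elim_B_mul (h a) ih

omit [Fintype ι] [DecidableEq ι] in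
theorem elim_deg_u {κ : Type} [Field κ] (d : ℕ) (a : ι) :
    ((d : MvPolynomial ι κ) * X a ^ (d - 1)).totalDegree ≤ d - 1 := by
  refine (totalDegree_mul _ _).trans ?_
  rw [← map_natCast (C : κ →+* MvPolynomial ι κ), totalDegree_C, zero_add, totalDegree_X_pow]

/-- The degrees of the coefficients of the pull-back. -/
theorem deg_Tst {κ : Type} [Field κ] {d : ℕ} (hd : 1 ≤ d) (b : ι → ι)
    (Φ : MvPolynomial ι (MvPolynomial ι κ)) {E : ℕ} (hE : ∀ γ, (coeff γ Φ).totalDegree ≤ E)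
    (γ : ι →₀ ℕ) : (coeff γ (Tst d b Φ)).totalDegree ≤ d * E + d * Φ.totalDegree := by
  have key : elim_B (Tst d b Φ) (d * E + d * Φ.totalDegree) := by
    conv_lhs => rw [Φ.as_sum, map_sum]
    refine elim_B_sum _ fun δ hδ => ?_
    rw [elim_Tst_monomial]
    have h1 : (expand d (coeff δ Φ)).totalDegree ≤ d * E := by
      rw [totalDegree_expand, mul_comm]
      exact Nat.mul_le_mul_left _ (hE δ)
    have h2 : ∀ a, elim_B (C ((d : MvPolynomial ι κ) * X a ^ (d - 1)) * X a +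
        C (X a ^ (d - 1) * X (b a)) : MvPolynomial ι (MvPolynomial ι κ)) d := by
      intro a
      refine elim_B_add (elim_B_mono (elim_B_mul (elim_B_C (elim_deg_u d a)) (elim_B_X a))
        (by omega)) (elim_B_C ((totalDegree_mul _ _).trans ?_))
      rw [totalDegree_X_pow, totalDegree_X]
      omega
    refine elim_B_mono (elim_B_mul (elim_B_C h1)
      (elim_B_prod Finset.univ _ _ fun a => elim_B_pow (h2 a) (δ a))) ?_
    rw [← Finset.mul_sum, ← Finsupp.degree_eq_sum]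
    exact Nat.add_le_add_left (Nat.mul_le_mul_left _ (le_totalDegree hδ)) _
  exact key γ

omit [Fintype ι] [DecidableEq ι] in
theorem elim_eval_Tst {κ : Type} [Field κ] (d : ℕ) (b : ι → ι)
    (Φ : MvPolynomial ι (MvPolynomial ι κ)) (z x : ι → κ) :
    eval₂ (eval z) x (Tst d b Φ) = eval₂ (eval fun a => z a ^ d)
      (fun a => d * z a ^ (d - 1) * x a + z a ^ (d - 1) * z (b a)) Φ := by
  induction Φ using MvPolynomial.induction_on with
  | C c =>
    rw [Tst, eval₂Hom_C, eval₂_C]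
    change eval₂ (eval z) x (C (expand d c)) = _
    rw [eval₂_C, eval_expand]
    rfl
  | add p q hp hq => rw [map_add, eval₂_add, eval₂_add, hp, hq]
  | mul_X p a hp =>
    rw [map_mul, eval₂_mul, eval₂_mul, hp, eval₂_X, Tst, eval₂Hom_X']
    simp

theorem eval_Tst {κ : Type} [Field κ] (d : ℕ) (b : ι → ι) (Φ : MvPolynomial ι (MvPolynomial ι κ))
    (z x : ι → κ) :
    eval₂ (eval z) x (Tst d b Φ) = eval₂ (eval fun a => z a ^ d)
      (fun a => d * z a ^ (d - 1) * x a + z a ^ (d - 1) * z (b a)) Φ :=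
  elim_eval_Tst d b Φ z x

omit [Fintype ι] [DecidableEq ι] in
theorem elim_const {κ : Type} [Field κ] (z x : ℕ → ι → κ) (Φ : MvPolynomial ι (MvPolynomial ι κ))
    (h0 : Φ ≠ 0) (hq : Φ.totalDegree = 0) {E : ℕ} (hE : ∀ γ, (coeff γ Φ).totalDegree ≤ E)
    (hv : ∀ i, eval₂ (eval (z i)) (x i) Φ = 0) :
    ∃ g : MvPolynomial ι κ, g ≠ 0 ∧ g.totalDegree ≤ E ∧ ∀ i, eval (z i) g = 0 := by
  have hC : Φ = C (coeff 0 Φ) := totalDegree_eq_zero_iff_eq_C.1 hq
  refine ⟨coeff 0 Φ, fun h => h0 (by rw [hC, h, map_zero]), hE 0, fun i => ?_⟩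
  have := hv i
  rwa [hC, eval₂_C] at this

/-- Induction on the cardinality of `S`.  Let `γ0 ∈ S` have the largest degree `q` and
`S' = S.erase γ0`.  If `coeff γ0 Φ = 0` use the induction hypothesis.  If `q = 0` then `Φ` is a
constant.  Otherwise `Φ' = C (u ^ γ0 * expand d (coeff γ0 Φ)) * Φ - C (coeff γ0 Φ) * Tst d b Φ` has
support in `S'` (`coeff_Tst_top`), is nonzero (`eigen`), and vanishes on the orbit. -/
theorem elim_aux {d : ℕ} (hd : 2 ≤ d) {a0 a1 : ι} (h01 : a1 ≠ a0) (S : Finset (ι →₀ ℕ))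
    (hS : ∀ γ ∈ S, ∀ γ' : ι →₀ ℕ, γ'.degree < γ.degree → γ' ∈ S) (E : ℕ) :
    ∃ E2, ∀ (κ : Type) [Field κ] [CharZero κ] (z x : ℕ → ι → κ),
      (∀ i a, z (i + 1) a = z i a ^ d) →
      (∀ i a, x (i + 1) a = d * z i a ^ (d - 1) * x i a + z i a ^ (d - 1) * z i (oth a0 a1 a)) →
      ∀ Φ : MvPolynomial ι (MvPolynomial ι κ), Φ ≠ 0 → Φ.support ⊆ S →
        (∀ γ, (coeff γ Φ).totalDegree ≤ E) → (∀ i, eval₂ (eval (z i)) (x i) Φ = 0) →
        ∃ g : MvPolynomial ι κ, g ≠ 0 ∧ g.totalDegree ≤ E2 ∧ ∀ i, eval (z i) g = 0 := by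
  induction hn : S.card generalizing S E with
  | zero =>
    refine ⟨0, fun κ _ _ z x _ _ Φ h0 hs _ _ => absurd ?_ h0⟩
    rw [Finset.card_eq_zero.1 hn, Finset.subset_empty] at hs
    exact support_eq_empty.1 hs
  | succ n ih =>
    obtain ⟨γ0, hγ0, hmax⟩ := Finset.exists_max_image S (fun γ => γ.degree)
      (Finset.card_pos.1 (by omega))
    have hS' : ∀ γ ∈ S.erase γ0, ∀ γ' : ι →₀ ℕ, γ'.degree < γ.degree → γ' ∈ S.erase γ0 := by
      intro γ hγ γ' hlt
      have hγS := Finset.mem_of_mem_erase hγ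
      refine Finset.mem_erase.2 ⟨?_, hS γ hγS γ' hlt⟩
      rintro rfl
      exact absurd (hmax γ hγS) (not_le.2 hlt)
    obtain ⟨E2, hE2⟩ := ih (S.erase γ0) hS' (E + (d * E + d * γ0.degree))
      (by rw [Finset.card_erase_of_mem hγ0]; omega)
    refine ⟨max E E2, fun κ _ _ z x hz hx Φ h0 hs hE hv => ?_⟩
    have hΦq : Φ.totalDegree ≤ γ0.degree := Finset.sup_le fun γ hγ => hmax γ (hs hγ)
    by_cases hc : coeff γ0 Φ = 0
    · obtain ⟨g, g0, g1, g2⟩ := hE2 κ z x hz hx Φ h0 (fun γ hγ => Finset.mem_erase.2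
        ⟨fun h => (mem_support_iff.1 hγ) (h ▸ hc), hs hγ⟩)
        (fun γ => (hE γ).trans (Nat.le_add_right _ _)) hv
      exact ⟨g, g0, g1.trans (le_max_right _ _), g2⟩
    by_cases hq : Φ.totalDegree = 0
    · obtain ⟨g, g0, g1, g2⟩ := elim_const z x Φ h0 hq hE hv
      exact ⟨g, g0, g1.trans (le_max_left _ _), g2⟩
    obtain ⟨α', hα'⟩ : ∃ α' : MvPolynomial ι κ, α' =
      (∏ a, ((d : MvPolynomial ι κ) * X a ^ (d - 1)) ^ γ0 a) * expand d (coeff γ0 Φ) := ⟨_, rfl⟩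
    have hdeg : α'.totalDegree ≤ d * E + d * γ0.degree := by
      rw [hα', ← coeff_Tst_top d (oth a0 a1) Φ hΦq]
      exact (deg_Tst (by omega) _ Φ hE γ0).trans
        (Nat.add_le_add_left (Nat.mul_le_mul_left _ hΦq) _)
    have hsupp : (C α' * Φ - C (coeff γ0 Φ) * Tst d (oth a0 a1) Φ).support ⊆ S.erase γ0 := by
      intro γ hγ
      by_cases hlt : γ.degree < γ0.degree
      · refine Finset.mem_erase.2 ⟨?_, hS γ0 hγ0 γ hlt⟩
        rintro rfl
        exact lt_irrefl _ hlt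
      · have hne := mem_support_iff.1 hγ
        rw [coeff_sub, coeff_C_mul, coeff_C_mul,
          coeff_Tst_top d _ Φ (hΦq.trans (not_lt.1 hlt))] at hne
        refine Finset.mem_erase.2 ⟨?_, ?_⟩
        · rintro rfl
          exact hne (by rw [hα', mul_comm, sub_self])
        · by_contra hγS
          have : coeff γ Φ = 0 := notMem_support_iff.1 fun h => hγS (hs h)
          exact hne (by rw [this, map_zero, mul_zero, mul_zero, mul_zero, sub_self])
    have hB : elim_B (C α' * Φ - C (coeff γ0 Φ) * Tst d (oth a0 a1) Φ)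
        (E + (d * E + d * γ0.degree)) := by
      refine elim_B_sub (elim_B_mono (elim_B_mul (elim_B_C hdeg) hE) (by omega))
        (elim_B_mul (elim_B_C (hE γ0)) fun γ => ?_)
      exact (deg_Tst (by omega) _ Φ hE γ).trans
        (Nat.add_le_add_left (Nat.mul_le_mul_left _ hΦq) _)
    have hvan : ∀ i, eval₂ (eval (z i)) (x i)
        (C α' * Φ - C (coeff γ0 Φ) * Tst d (oth a0 a1) Φ) = 0 := by
      intro i
      have h1 : (fun a => z i a ^ d) = z (i + 1) := funext fun a => (hz i a).symm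
      have h2 : (fun a => (d : κ) * z i a ^ (d - 1) * x i a +
          z i a ^ (d - 1) * z i (oth a0 a1 a)) = x (i + 1) := funext fun a => (hx i a).symm
      rw [eval₂_sub, eval₂_mul, eval₂_mul, hv i, eval_Tst, h1, h2, hv (i + 1), mul_zero, mul_zero,
        sub_self]
    obtain ⟨g, g0, g1, g2⟩ := hE2 κ z x hz hx _
      (fun h => hq (eigen hd h01 Φ hc (sub_eq_zero.1 h).symm)) hsupp hB hvan
    exact ⟨g, g0, g1.trans (le_max_right _ _), g2⟩

omit [Fintype ι] [DecidableEq ι] in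
theorem elim_theta_eval {κ : Type} [Field κ] (z x : ι → κ) (Φ : MvPolynomial (ι ⊕ ι) κ) :
    eval₂ (eval z) x (sumAlgEquiv κ ι ι (rename Sum.swap Φ)) = eval (Sum.elim z x) Φ := by
  induction Φ using MvPolynomial.induction_on with
  | C c => simp
  | add p q hp hq => rw [map_add, map_add, eval₂_add, hp, hq, map_add]
  | mul_X p a hp =>
    rw [map_mul, map_mul, eval₂_mul, hp, map_mul]
    rcases a with a | a <;> simp

theorem elim_theta_deg {κ : Type} [Field κ] (Φ : MvPolynomial (ι ⊕ ι) κ) :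
    elim_B (sumAlgEquiv κ ι ι (rename Sum.swap Φ)) Φ.totalDegree ∧
      (sumAlgEquiv κ ι ι (rename Sum.swap Φ)).totalDegree ≤ Φ.totalDegree := by
  have hm : ∀ δ : (ι ⊕ ι) →₀ ℕ, ∀ c : κ, sumAlgEquiv κ ι ι (rename Sum.swap (monomial δ c)) =
      C (C c) * ∏ a, (sumAlgEquiv κ ι ι (rename Sum.swap (X a))) ^ δ a := by
    intro δ c
    rw [monomial_eq, Finsupp.prod_fintype _ _ (fun _ => pow_zero _)]
    simp only [map_mul, map_prod, map_pow, rename_C, sumAlgEquiv_C_inl]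
  have hB : ∀ a : ι ⊕ ι, elim_B (sumAlgEquiv κ ι ι (rename Sum.swap (X a))) 1 := by
    rintro (a | a)
    · rw [rename_X, Sum.swap_inl, sumAlgEquiv_X_inr]
      exact elim_B_C (by simp)
    · rw [rename_X, Sum.swap_inr, sumAlgEquiv_X_inl]
      exact elim_B_mono (elim_B_X a) zero_le_one
  have hD : ∀ a : ι ⊕ ι, (sumAlgEquiv κ ι ι (rename Sum.swap (X a))).totalDegree ≤ 1 := by
    rintro (a | a)
    · rw [rename_X, Sum.swap_inl, sumAlgEquiv_X_inr, totalDegree_C]
      exact zero_le_one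
    · rw [rename_X, Sum.swap_inr, sumAlgEquiv_X_inl, totalDegree_X]
  constructor
  · conv_lhs => rw [Φ.as_sum, map_sum, map_sum]
    refine elim_B_sum _ fun δ hδ => ?_
    rw [hm]
    refine elim_B_mono (elim_B_mul (elim_B_C (totalDegree_C _).le)
      (elim_B_prod Finset.univ _ _ fun a => elim_B_pow (hB a) (δ a))) ?_
    simp only [one_mul, zero_add]
    rw [← Finsupp.degree_eq_sum]
    exact le_totalDegree hδ
  · conv_lhs => rw [Φ.as_sum, map_sum, map_sum]
    refine totalDegree_finsetSum_le fun δ hδ => ?_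
    rw [hm]
    refine (totalDegree_mul _ _).trans ?_
    rw [totalDegree_C, zero_add]
    refine (totalDegree_finsetProd _ _).trans ?_
    refine (Finset.sum_le_sum fun a _ => (totalDegree_pow _ _).trans
      (Nat.mul_le_mul_left _ (hD a))).trans ?_
    simp only [mul_one]
    rw [← Finsupp.degree_eq_sum]
    exact le_totalDegree hδ

/-- Transport along `sumAlgEquiv` (after swapping the two blocks of variables). -/
theorem elim {d : ℕ} (hd : 2 ≤ d) {a0 a1 : ι} (h01 : a1 ≠ a0) (E : ℕ) :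
    ∃ E2, ∀ (κ : Type) [Field κ] [CharZero κ] (z x : ℕ → ι → κ),
      (∀ i a, z (i + 1) a = z i a ^ d) →
      (∀ i a, x (i + 1) a = d * z i a ^ (d - 1) * x i a + z i a ^ (d - 1) * z i (oth a0 a1 a)) →
      ∀ Φ : MvPolynomial (ι ⊕ ι) κ, Φ ≠ 0 → Φ.totalDegree ≤ E →
        (∀ i, eval (Sum.elim (z i) (x i)) Φ = 0) →
        ∃ g : MvPolynomial ι κ, g ≠ 0 ∧ g.totalDegree ≤ E2 ∧ ∀ i, eval (z i) g = 0 := by
  have hmem : ∀ γ : ι →₀ ℕ, γ ∈ (Finsupp.finite_of_degree_le (σ := ι) E).toFinset ↔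
      γ.degree ≤ E := fun γ => by simp
  obtain ⟨E2, hE2⟩ := elim_aux hd h01 (Finsupp.finite_of_degree_le (σ := ι) E).toFinset
    (fun γ hγ γ' h => (hmem γ').2 (h.le.trans ((hmem γ).1 hγ))) E
  refine ⟨E2, fun κ _ _ z x hz hx Φ h0 hΦ hv => hE2 κ z x hz hx
    (sumAlgEquiv κ ι ι (rename Sum.swap Φ)) (fun h => h0 ?_) (fun γ hγ => (hmem γ).2 ?_)
    (fun γ => ((elim_theta_deg Φ).1 γ).trans hΦ) fun i => ?_⟩
  · have h1 : rename Sum.swap Φ = 0 := (map_eq_zero_iff _ (sumAlgEquiv κ ι ι).injective).1 h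
    exact (map_eq_zero_iff _ (rename_injective _ Sum.swap_leftInverse.injective)).1 h1
  · exact (le_totalDegree hγ).trans ((elim_theta_deg Φ).2.trans hΦ)
  · rw [elim_theta_eval, hv i]

end Pool.Agent.Lib.MP_0dd0d9_ag.Hi
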