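import Pool.Agent.Lib.MP_0dd0d9_ag.Hi.Fib1

/-!
TASK gh Fib2.  The generic fibre has exactly `card B` points.
-/

namespace Pool.Agent.Lib.MP_0dd0d9_ag.Hi

open MvPolynomial

/-- Pass to the fraction fields: the degree is `card B`
(`Algebra.IsAlgebraic.finrank_of_isFractionRing` or `Basis.localizationLocalization`), and
`AlgHom.card` counts the embeddings. -/
theorem count_hom {A D Ω B : Type} [CommRing A] [IsDomain A] [CharZero A] [CommRing D] [IsDomain D]
    [Algebra A D] [Fintype B] (b : Module.Basis B A D) [Field Ω] [IsAlgClosed Ω] (ψ : A →+* Ω)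
    (hψ : Function.Injective ψ) :
    ∃ σ : B → D →+* Ω, Function.Injective σ ∧ ∀ β, (σ β).comp (algebraMap A D) = ψ := by
  classical
  have : Module.Free A D := Module.Free.of_basis b
  have : Module.Finite A D := Module.Finite.of_basis b
  have : FaithfulSMul A D := inferInstance
  let : Algebra (FractionRing A) (FractionRing D) := FractionRing.liftAlgebra A _
  have := FractionRing.isScalarTower_liftAlgebra A (FractionRing D)
  have hrk : Module.finrank (FractionRing A) (FractionRing D) = Fintype.card B := by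
    rw [IsFractionRing.finrank_eq A (FractionRing A) D (FractionRing D),
      Module.finrank_eq_card_basis b]
  have : FiniteDimensional (FractionRing A) (FractionRing D) := by
    refine Module.finite_of_finrank_pos ?_
    rw [hrk]
    exact Fintype.card_pos_iff.2 b.index_nonempty
  let : Algebra (FractionRing A) Ω := (IsFractionRing.lift hψ).toAlgebra
  have : CharZero (FractionRing A) :=
    charZero_of_injective_algebraMap (IsFractionRing.injective A (FractionRing A))
  have hc := AlgHom.card (FractionRing A) (FractionRing D) Ω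
  rw [hrk] at hc
  let e := Fintype.equivOfCardEq hc.symm
  refine ⟨fun β => (e β).toRingHom.comp (algebraMap D (FractionRing D)), ?_, fun β => ?_⟩
  · intro β β' h
    apply e.injective
    apply AlgHom.coe_ringHom_injective
    exact IsFractionRing.ringHom_ext (A := D) fun x => RingHom.congr_fun h x
  · ext a
    change e β (algebraMap D (FractionRing D) (algebraMap A D a)) = ψ a
    rw [← IsScalarTower.algebraMap_apply,
      IsScalarTower.algebraMap_apply A (FractionRing A) (FractionRing D), AlgHom.commutes]
    exact IsFractionRing.lift_algebraMap hψ a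

theorem fib2_basis {A D B : Type} [CommRing A] [CommRing D] [Algebra A D] [Fintype B] {s : B → D}
    (hs : ∀ p, ∃ g : B → A, p = ∑ β, s β * algebraMap A D (g β))
    (hi : ∀ g : B → A, ∑ β, s β * algebraMap A D (g β) = 0 → g = 0) :
    ∃ b : Module.Basis B A D, ∀ β, b β = s β := by
  have e : ∀ g : B → A, ∑ β, g β • s β = ∑ β, s β * algebraMap A D (g β) := fun g =>
    Finset.sum_congr rfl fun β _ => by rw [Algebra.smul_def, mul_comm]
  have h1 : LinearIndependent A s := by
    rw [Fintype.linearIndependent_iff]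
    intro g hg β
    exact congrFun (hi g (by rw [← e, hg])) β
  have h2 : ⊤ ≤ Submodule.span A (Set.range s) := by
    intro p _
    obtain ⟨g, hg⟩ := hs p
    rw [hg, ← e]
    exact Submodule.sum_mem _ fun β _ =>
      Submodule.smul_mem _ _ (Submodule.subset_span ⟨β, rfl⟩)
  exact ⟨Module.Basis.mk h1 h2, fun β => Module.Basis.mk_apply h1 h2 β⟩

theorem fib2_mat {A D B : Type} [CommRing A] [CommRing D] [Fintype B] [DecidableEq B]
    (φ : A →+* D) {s : B → D} (hs : ∀ p, ∃ g : B → A, p = ∑ β, s β * φ (g β))
    (hi : ∀ g : B → A, ∑ β, s β * φ (g β) = 0 → g = 0) :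
    ∃ M : D →+* Matrix B B A, (∀ p β', p * s β' = ∑ β, s β * φ (M p β β')) ∧
      ∀ g, M (φ g) = Matrix.scalar B g := by
  let := φ.toAlgebra
  obtain ⟨b, hb⟩ := fib2_basis (A := A) hs hi
  refine ⟨(Algebra.leftMulMatrix b).toRingHom, fun p β' => ?_, fun g => ?_⟩
  · rw [← hb, ← b.sum_repr (p * b β')]
    refine Finset.sum_congr rfl fun β _ => ?_
    rw [Algebra.smul_def, mul_comm, hb, ← Algebra.leftMulMatrix_eq_repr_mul]
    rfl
  · exact (Algebra.leftMulMatrix b).commutes g

theorem fib2_count {A D Ω B : Type} [CommRing A] [IsDomain A] [CharZero A] [CommRing D]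
    [IsDomain D] [Fintype B] (φ : A →+* D) {s : B → D}
    (hs : ∀ p, ∃ g : B → A, p = ∑ β, s β * φ (g β))
    (hi : ∀ g : B → A, ∑ β, s β * φ (g β) = 0 → g = 0) [Field Ω] [IsAlgClosed Ω] (ψ : A →+* Ω)
    (hψ : Function.Injective ψ) :
    ∃ σ : B → D →+* Ω, Function.Injective σ ∧ ∀ β, (σ β).comp φ = ψ := by
  let := φ.toAlgebra
  obtain ⟨b, _⟩ := fib2_basis (A := A) hs hi
  exact count_hom b ψ hψ

variable {ι : Type} [Fintype ι] [DecidableEq ι]
variable {K Ω B : Type} [Field K] [Field Ω] [Algebra K Ω] [Fintype B]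
variable {G : ι → MvPolynomial ι K} {s : B → MvPolynomial ι K}

/-- Multiplication matrices: a ring homomorphism to matrices over `K[Y]`.  (Either use
`Algebra.leftMulMatrix` for the algebra structure `(bind₁ G).toRingHom.toAlgebra`, or choose
the coefficients in `FB.span` and use `FB.ind`.) -/
theorem FB.mat [DecidableEq B] (h : FB G s) :
    ∃ M : MvPolynomial ι K →+* Matrix B B (MvPolynomial ι K),
      (∀ p β', p * s β' = ∑ β, s β * bind₁ G (M p β β')) ∧
      ∀ g, M (bind₁ G g) = Matrix.scalar B g := by
  exact fib2_mat (bind₁ G).toRingHom h.span h.ind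

/-- `count_hom` for the algebra structure `(bind₁ G).toRingHom.toAlgebra` and `ψ = aeval y`; a
homomorphism `σ` gives the point `fun a => σ (X a)` of the fibre.  Combine with `FB.card_le`. -/
theorem FB.card_eq [IsAlgClosed Ω] [CharZero K] (h : FB G s) {y : ι → Ω}
    (hy : AlgebraicIndependent K y) : (fib G y).card = Fintype.card B := by
  refine le_antisymm (h.card_le y) ?_
  obtain ⟨σ, hσ, hc⟩ := fib2_count (bind₁ G).toRingHom h.span h.ind
    (aeval y : MvPolynomial ι K →ₐ[K] Ω).toRingHom hy
  have hc' : ∀ β g, σ β (bind₁ G g) = aeval y g := fun β g => RingHom.congr_fun (hc β) g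
  have he : ∀ β, σ β = (aeval (fun a => σ β (X a)) : MvPolynomial ι K →ₐ[K] Ω).toRingHom := by
    intro β
    refine ringHom_ext (fun c => ?_) (fun a => ?_)
    · have := hc' β (C c)
      rw [bind₁_C_right, aeval_C] at this
      simpa using this
    · simp
  rw [← Finset.card_univ]
  refine Finset.card_le_card_of_injOn (fun β a => σ β (X a)) (fun β _ => ?_) ?_
  · refine Finset.mem_coe.2 (h.mem_fib.2 (funext fun a => ?_))
    have := hc' β (X a)
    rw [bind₁_X_right, aeval_X, he β] at this
    exact this
  · intro β _ β' _ e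
    apply hσ
    rw [he β, he β']
    exact congrArg (fun z : ι → Ω => (aeval z : MvPolynomial ι K →ₐ[K] Ω).toRingHom) e

/-- If `p ≠ 0` vanishes at `z`, use `FB.mat`: `det (M p) ≠ 0` because multiplication by `p` is
injective, and the nonzero row vector `aeval z (s β)` is killed by `(M p).map (aeval y)`. -/
theorem FB.gen (h : FB G s) {y z : ι → Ω} (hy : AlgebraicIndependent K y) (hz : ap G z = y) :
    AlgebraicIndependent K z := by
  classical
  rw [algebraicIndependent_iff]
  intro p hp
  by_contra hne
  obtain ⟨M, hM, -⟩ := h.mat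
  have hb : ∀ g, aeval z (bind₁ G g) = aeval y g := fun g => by
    rw [aeval_bind₁, ← hz]
    rfl
  have hdet : (M p).det ≠ 0 := by
    intro h0
    obtain ⟨v, hv, hv0⟩ := Matrix.exists_mulVec_eq_zero_iff.2 h0
    refine hv (h.ind v (mul_left_cancel₀ hne ?_))
    rw [mul_zero, Finset.mul_sum]
    have e : ∀ β', p * (s β' * bind₁ G (v β')) = ∑ β, s β * bind₁ G (M p β β' * v β') := by
      intro β'
      rw [← mul_assoc, hM, Finset.sum_mul]
      exact Finset.sum_congr rfl fun β _ => by rw [map_mul, mul_assoc]
    simp only [e]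
    rw [Finset.sum_comm]
    refine Finset.sum_eq_zero fun β _ => ?_
    have e2 : ∑ β', M p β β' * v β' = 0 := congrFun hv0 β
    rw [← Finset.mul_sum, ← map_sum, e2, map_zero, mul_zero]
  have hdet' : ((M p).map (aeval y : MvPolynomial ι K →ₐ[K] Ω)).det ≠ 0 := by
    intro h0
    refine hdet (hy ?_)
    rw [map_zero, AlgHom.map_det]
    exact h0
  have hr : (fun β => aeval z (s β)) = 0 := by
    refine Matrix.eq_zero_of_vecMul_eq_zero hdet' (funext fun β' => ?_)
    have := congrArg (aeval z) (hM p β')
    rw [map_mul, hp, zero_mul, map_sum] at this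
    rw [Pi.zero_apply, this]
    exact Finset.sum_congr rfl fun β _ => by rw [map_mul, hb]; rfl
  obtain ⟨g, hg⟩ := h.span 1
  have := congrArg (aeval z) hg
  rw [map_one, map_sum] at this
  refine one_ne_zero (this.trans (Finset.sum_eq_zero fun β _ => ?_))
  rw [map_mul, show aeval z (s β) = 0 from congrFun hr β, zero_mul]

end Pool.Agent.Lib.MP_0dd0d9_ag.Hi
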