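import Pool.Agent.Lib.MP_0dd0d9_ag.Hi.Fib2

/-!
TASK gh Fib3.  Characteristic polynomials, norms and discriminants of the generic fibre.
-/

namespace Pool.Agent.Lib.MP_0dd0d9_ag.Hi

open MvPolynomial

variable {ι : Type} [Fintype ι] [DecidableEq ι]
variable {K B : Type} [Field K] [Fintype B]
variable {G : ι → MvPolynomial ι K} {s : B → MvPolynomial ι K}

/-- `χ` is the characteristic polynomial of `p` on generic fibres. -/
def IsChar (G : ι → MvPolynomial ι K) (p : MvPolynomial ι K)
    (χ : Polynomial (MvPolynomial ι K)) : Prop :=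
  ∀ (Ω : Type) [Field Ω] [Algebra K Ω] [IsAlgClosed Ω] (y : ι → Ω), AlgebraicIndependent K y →
    χ.map (aeval y : MvPolynomial ι K →ₐ[K] Ω).toRingHom =
      ∏ z ∈ fib G y, (Polynomial.X - Polynomial.C (aeval z p))

/-- `N` is the norm of `p` on generic fibres. -/
def IsNrm (G : ι → MvPolynomial ι K) (p N : MvPolynomial ι K) : Prop :=
  ∀ (Ω : Type) [Field Ω] [Algebra K Ω] [IsAlgClosed Ω] (y : ι → Ω), AlgebraicIndependent K y →
    aeval y N = ∏ z ∈ fib G y, aeval z p

omit [Fintype ι] [DecidableEq ι] in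
theorem fib3_generic (K ι : Type) [Field K] :
    ∃ (Ω : Type) (_ : Field Ω) (_ : Algebra K Ω) (_ : IsAlgClosed Ω) (y : ι → Ω),
      AlgebraicIndependent K y := by
  refine ⟨AlgebraicClosure (FractionRing (MvPolynomial ι K)), inferInstance, inferInstance,
    inferInstance, fun i => algebraMap (MvPolynomial ι K) _ (X i), ?_⟩
  have e : (aeval fun i : ι => algebraMap (MvPolynomial ι K)
      (AlgebraicClosure (FractionRing (MvPolynomial ι K))) (X i)) =
      IsScalarTower.toAlgHom K (MvPolynomial ι K)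
        (AlgebraicClosure (FractionRing (MvPolynomial ι K))) := by
    ext i
    simp
  rw [AlgebraicIndependent, e]
  intro a b hab
  simp only [IsScalarTower.coe_toAlgHom'] at hab
  rw [IsScalarTower.algebraMap_apply (MvPolynomial ι K) (FractionRing (MvPolynomial ι K)),
    IsScalarTower.algebraMap_apply (MvPolynomial ι K) (FractionRing (MvPolynomial ι K))
      (AlgebraicClosure (FractionRing (MvPolynomial ι K))) b] at hab
  exact IsFractionRing.injective _ _ (RingHom.injective _ hab)

omit [Fintype ι] [DecidableEq ι] in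
theorem fib3_bind {Ω : Type} [Field Ω] [Algebra K Ω] {y z : ι → Ω} (hz : ap G z = y)
    (g : MvPolynomial ι K) : aeval z (bind₁ G g) = aeval y g := by
  rw [aeval_bind₁, ← hz]
  rfl

omit [DecidableEq ι] in
theorem fib3_conj [DecidableEq B] (h : FB G s)
    {M : MvPolynomial ι K →+* Matrix B B (MvPolynomial ι K)}
    (hM : ∀ p β', p * s β' = ∑ β, s β * bind₁ G (M p β β'))
    {Ω : Type} [Field Ω] [Algebra K Ω] {y : ι → Ω} (e : B ≃ fib G y) (p : MvPolynomial ι K) :
    (Matrix.of fun β β' => aeval (e β).1 (s β')) *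
        (M p).map (aeval y : MvPolynomial ι K →ₐ[K] Ω).toRingHom =
      Matrix.diagonal (fun β => aeval (e β).1 p) *
        Matrix.of fun β β' => aeval (e β).1 (s β') := by
  classical
  ext γ β'
  have hz : ap G (e γ).1 = y := h.mem_fib.1 (e γ).2
  have := congrArg (aeval (e γ).1) (hM p β')
  simp only [map_mul, map_sum, fib3_bind hz] at this
  rw [Matrix.diagonal_mul, Matrix.mul_apply]
  simp only [Matrix.of_apply, Matrix.map_apply]
  exact this.symm

theorem fib3_eq [DecidableEq B] {Ω : Type} [Field Ω] {V N D : Matrix B B Ω} (hV : V.det ≠ 0)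
    (h : V * N = D * V) : N = V⁻¹ * (D * V) ∧ D * V * V⁻¹ = D := by
  have hu : IsUnit V.det := isUnit_iff_ne_zero.2 hV
  constructor
  · rw [← h, ← Matrix.mul_assoc, Matrix.nonsing_inv_mul _ hu, Matrix.one_mul]
  · rw [Matrix.mul_assoc, Matrix.mul_nonsing_inv _ hu, Matrix.mul_one]

theorem fib3_equiv [CharZero K] (h : FB G s) {Ω : Type} [Field Ω] [Algebra K Ω] [IsAlgClosed Ω]
    {y : ι → Ω} (hy : AlgebraicIndependent K y) : Nonempty (B ≃ fib G y) :=
  ⟨Fintype.equivOfCardEq (by rw [Fintype.card_coe, h.card_eq hy])⟩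

omit [DecidableEq ι] in
theorem fib3_coeff (c : K) (g : MvPolynomial ι K) (α : ι →₀ ℕ) :
    coeff α (aeval ((C c : MvPolynomial ι K) • (X : ι → MvPolynomial ι K)) g) =
      c ^ α.degree * coeff α g := by
  classical
  induction g using MvPolynomial.induction_on' with
  | monomial β a =>
    rw [aeval_smul_of_hom (isHomogeneous_monomial a rfl), aeval_X_left_apply, ← C_pow,
      coeff_C_mul, coeff_monomial]
    split_ifs with hb
    · rw [hb]
    · simp
  | add p q hp hq => rw [map_add, coeff_add, coeff_add, hp, hq, mul_add]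

omit [Fintype ι] [DecidableEq ι] in
theorem fib3_scale {Ω : Type} [Field Ω] [Algebra K Ω] (c : K) (y : ι → Ω) (g : MvPolynomial ι K) :
    aeval y (aeval ((C c : MvPolynomial ι K) • (X : ι → MvPolynomial ι K)) g) =
      aeval (algebraMap K Ω c • y) g := by
  have : (aeval y : MvPolynomial ι K →ₐ[K] Ω).comp
      (aeval ((C c : MvPolynomial ι K) • (X : ι → MvPolynomial ι K))) =
      aeval (algebraMap K Ω c • y) := by
    ext i
    simp [Algebra.smul_def]
  exact DFunLike.congr_fun this g

omit [DecidableEq ι] in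
theorem fib3_gen_scale {Ω : Type} [Field Ω] [Algebra K Ω] {c : K} (hc : c ≠ 0) {y : ι → Ω}
    (hy : AlgebraicIndependent K y) : AlgebraicIndependent K (algebraMap K Ω c • y) := by
  intro a b hab
  rw [← fib3_scale, ← fib3_scale] at hab
  have h1 := hy hab
  ext α
  have h2 := congrArg (coeff α) h1
  rw [fib3_coeff, fib3_coeff] at h2
  exact mul_left_cancel₀ (pow_ne_zero _ hc) h2

theorem fib3_prod_coeff {Ω τ : Type} [Field Ω] (T : Finset τ) (r : τ → Ω) (t : Ω) {k : ℕ}
    (hk : k ≤ T.card) :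
    (∏ z ∈ T, (Polynomial.X - Polynomial.C (t * r z))).coeff (T.card - k) =
      t ^ k * (∏ z ∈ T, (Polynomial.X - Polynomial.C (r z))).coeff (T.card - k) := by
  simp only [sub_eq_add_neg, ← Polynomial.C_neg]
  rw [Finset.prod_X_add_C_coeff _ _ (Nat.sub_le _ _), Finset.prod_X_add_C_coeff _ _ (Nat.sub_le _ _),
    Finset.mul_sum, Nat.sub_sub_self hk]
  refine Finset.sum_congr rfl fun u hu => ?_
  rw [← (Finset.mem_powersetCard.1 hu).2, ← Finset.prod_const, ← Finset.prod_mul_distrib]
  simp only [mul_neg]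

/-- Take `χ = (M p).charpoly` with `M` from `FB.mat`.  With `V` the invertible matrix of
`FB.det_ne` one has `V * (M p).map (aeval y) = diagonal (p z) * V`.  The third clause is
Cayley-Hamilton (`M` is injective).  For the last clause use the Nullstellensatz:
`1 = a * p + ∑ b i * (G i - y i)`, apply `M` and evaluate at `y`. -/
theorem FB.char [CharZero K] (h : FB G s) (p : MvPolynomial ι K) :
    ∃ χ : Polynomial (MvPolynomial ι K), χ.Monic ∧ χ.natDegree = Fintype.card B ∧
      χ.eval₂ (bind₁ G : MvPolynomial ι K →ₐ[K] MvPolynomial ι K).toRingHom p = 0 ∧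
      IsChar G p χ ∧ (p ≠ 0 → χ.coeff 0 ≠ 0) ∧
      (IsAlgClosed K → ∀ y : ι → K, (∀ z : ι → K, ap G z = y → aeval z p ≠ 0) →
        aeval y (χ.coeff 0) ≠ 0) := by
  classical
  obtain ⟨M, hM, hMs⟩ := h.mat
  have hinj : ∀ a, M a = 0 → a = 0 := by
    intro a ha
    obtain ⟨g, hg⟩ := h.span 1
    rw [← mul_one a, hg, Finset.mul_sum]
    refine Finset.sum_eq_zero fun β _ => ?_
    rw [← mul_assoc, hM a β, ha]
    simp
  have hdet : ∀ x, (M p).charpoly.coeff 0 = x → (M p).det = (-1) ^ Fintype.card B * x := by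
    rintro x rfl
    exact Matrix.det_eq_sign_charpoly_coeff _
  refine ⟨(M p).charpoly, Matrix.charpoly_monic _, Matrix.charpoly_natDegree_eq_dim _, ?_, ?_,
    ?_, ?_⟩
  · apply hinj
    rw [Polynomial.hom_eval₂]
    have e : M.comp (bind₁ G : MvPolynomial ι K →ₐ[K] MvPolynomial ι K).toRingHom =
        algebraMap (MvPolynomial ι K) (Matrix B B (MvPolynomial ι K)) := by
      refine RingHom.ext fun g => ?_
      exact hMs g
    rw [e]
    exact Matrix.aeval_self_charpoly (M p)
  · intro Ω _ _ _ y hy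
    obtain ⟨e⟩ := fib3_equiv h hy
    obtain ⟨h1, h2⟩ := fib3_eq (h.det_ne e) (fib3_conj h hM e p)
    rw [← Matrix.charpoly_map, h1, Matrix.charpoly_mul_comm, h2, Matrix.charpoly_diagonal,
      ← Finset.prod_coe_sort (fib G y)]
    exact e.prod_comp fun z => Polynomial.X - Polynomial.C (aeval z.1 p)
  · intro hp h0
    have hd := hdet 0 h0
    rw [mul_zero] at hd
    obtain ⟨v, hv, hMv⟩ := Matrix.exists_mulVec_eq_zero_iff.2 hd
    apply hv
    apply h.ind
    apply mul_left_cancel₀ hp
    rw [mul_zero, Finset.mul_sum]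
    simp only [← mul_assoc, hM p, Finset.sum_mul]
    rw [Finset.sum_comm]
    refine Finset.sum_eq_zero fun β _ => ?_
    have := congrArg (bind₁ G) (congrFun hMv β)
    simp only [Matrix.mulVec, dotProduct, map_sum, map_mul, Pi.zero_apply, map_zero] at this
    simp only [mul_assoc]
    rw [← Finset.mul_sum, this, mul_zero]
  · intro hK y hy h0
    let Φ : MvPolynomial ι K →+* Matrix B B K :=
      (aeval y : MvPolynomial ι K →ₐ[K] K).toRingHom.mapMatrix.comp M
    have hΦ : (Φ p).det = 0 := by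
      have := RingHom.map_det (aeval y : MvPolynomial ι K →ₐ[K] K).toRingHom (M p)
      rw [hdet _ rfl, map_mul] at this
      change _ * aeval y _ = (Φ p).det at this
      rw [← this, h0, mul_zero]
    have hne : Ideal.span {p} ⊔ RingHom.ker Φ ≠ ⊤ := by
      intro ht
      have h1 : (1 : MvPolynomial ι K) ∈ Ideal.span {p} ⊔ RingHom.ker Φ := by
        rw [ht]
        trivial
      obtain ⟨a, ha, b, hb, hab⟩ := Submodule.mem_sup.1 h1
      obtain ⟨a', rfl⟩ := Ideal.mem_span_singleton'.1 ha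
      have h2 := congrArg (fun x => (Φ x).det) hab
      simp only [map_add, map_mul, RingHom.mem_ker.1 hb, add_zero, Matrix.det_mul, hΦ, mul_zero,
        map_one, Matrix.det_one] at h2
      exact zero_ne_one h2
    obtain ⟨m, hm, hle⟩ := Ideal.exists_le_maximal _ hne
    obtain ⟨z, rfl⟩ := MvPolynomial.isMaximal_iff_eq_vanishingIdeal_singleton.1 hm
    refine hy z ?_ ?_
    · funext i
      have hi : G i - C (y i) ∈ RingHom.ker Φ := by
        have e1 : G i - C (y i) = bind₁ G (X i - C (y i)) := by simp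
        rw [RingHom.mem_ker, e1]
        change (M _).map (aeval y : MvPolynomial ι K →ₐ[K] K).toRingHom = 0
        rw [hMs]
        ext β β'
        by_cases hb : β = β' <;> simp [hb]
      have := (MvPolynomial.mem_vanishingIdeal_singleton_iff z _).1 (hle (Ideal.mem_sup_right hi))
      simpa [sub_eq_zero, ap] using this
    · exact (MvPolynomial.mem_vanishingIdeal_singleton_iff z _).1
        (hle (Ideal.mem_sup_left (Ideal.mem_span_singleton_self p)))

/-- Let `y` be generic in the algebraic closure of the field of rational functions.  Scaling by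
`2` maps the fibre over `y` onto the fibre over `2 ^ q • y`, which is generic too.  So the
coefficient `g` satisfies `g (2 ^ q • y) = 2 ^ (k * e) * g y`; compare coefficients. -/
theorem FB.char_hom [CharZero K] (h : FB G s) {q e : ℕ} (hq : 1 ≤ q) (hG : Hm G q)
    {p : MvPolynomial ι K} (hp : p.IsHomogeneous e) {χ : Polynomial (MvPolynomial ι K)}
    (hχ : IsChar G p χ) {k : ℕ} (hk : k ≤ Fintype.card B) :
    χ.coeff (Fintype.card B - k) = 0 ∨
      ∃ n, q * n = k * e ∧ (χ.coeff (Fintype.card B - k)).IsHomogeneous n := by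
  classical
  obtain ⟨Ω, _, _, _, y, hy⟩ := fib3_generic K ι
  set g := χ.coeff (Fintype.card B - k) with hg
  have h2 : (2 : K) ≠ 0 := two_ne_zero
  have hy' := fib3_gen_scale (pow_ne_zero q h2) hy
  set t : Ω := algebraMap K Ω 2 with ht
  have ht0 : t ≠ 0 := (map_ne_zero _).2 h2
  have e1 := congrArg (fun f => Polynomial.coeff f (Fintype.card B - k)) (hχ Ω y hy)
  have e2 := congrArg (fun f => Polynomial.coeff f (Fintype.card B - k)) (hχ Ω _ hy')
  simp only [Polynomial.coeff_map] at e1 e2
  have e3 : ∏ z ∈ fib G (algebraMap K Ω (2 ^ q) • y), (Polynomial.X - Polynomial.C (aeval z p)) =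
      ∏ z ∈ fib G y, (Polynomial.X - Polynomial.C (t ^ e * aeval z p)) := by
    symm
    refine Finset.prod_nbij' (fun z => t • z) (fun z => t⁻¹ • z) ?_ ?_ ?_ ?_ ?_
    · intro z hz
      rw [h.mem_fib] at hz ⊢
      rw [hG.ap_smul, hz, map_pow]
    · intro z hz
      rw [h.mem_fib] at hz ⊢
      rw [hG.ap_smul, hz, map_pow, smul_smul, ← mul_pow, inv_mul_cancel₀ ht0, one_pow, one_smul]
    · intro z _
      simp only [smul_smul, inv_mul_cancel₀ ht0, one_smul]
    · intro z _
      simp only [smul_smul, mul_inv_cancel₀ ht0, one_smul]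
    · intro z _
      rw [aeval_smul_of_hom hp]
  have hc := h.card_eq hy
  rw [e3, ← hc, fib3_prod_coeff _ _ _ (hc ▸ hk), hc, ← e1] at e2
  have e4 : aeval ((C (2 ^ q) : MvPolynomial ι K) • (X : ι → MvPolynomial ι K)) g =
      C (2 ^ (e * k)) * g := by
    apply hy
    rw [fib3_scale, map_mul, aeval_C, map_pow (algebraMap K Ω) 2 (e * k), pow_mul]
    exact e2
  have key : ∀ α, coeff α g ≠ 0 → q * α.degree = k * e := by
    intro α hα
    have := congrArg (coeff α) e4
    rw [fib3_coeff, coeff_C_mul, ← pow_mul] at this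
    have h3 := mul_right_cancel₀ hα this
    have h4 : (2 : ℕ) ^ (q * α.degree) = 2 ^ (e * k) := by exact_mod_cast h3
    rw [mul_comm k]
    exact Nat.pow_right_injective le_rfl h4
  by_cases hg0 : g = 0
  · exact Or.inl hg0
  · obtain ⟨α, hα⟩ := MvPolynomial.ne_zero_iff.1 hg0
    refine Or.inr ⟨α.degree, key α hα, fun β hβ => ?_⟩
    have := (key β hβ).trans (key α hα).symm
    have h5 : β.degree = α.degree := Nat.eq_of_mul_eq_mul_left hq this
    rw [← h5, Finsupp.degree_eq_weight_one]
    rfl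

theorem IsNrm.unique {p N N' : MvPolynomial ι K} (h : IsNrm G p N) (h' : IsNrm G p N') :
    N = N' := by
  obtain ⟨Ω, _, _, _, y, hy⟩ := fib3_generic K ι
  exact hy ((h _ y hy).trans (h' _ y hy).symm)

theorem FB.nrm [CharZero K] (h : FB G s) {q e : ℕ} (hq : 1 ≤ q) (hG : Hm G q)
    {p : MvPolynomial ι K} (hp : p.IsHomogeneous e) (hp0 : p ≠ 0) :
    ∃ N, IsNrm G p N ∧ N ≠ 0 ∧ (∃ n, q * n = Fintype.card B * e ∧ N.IsHomogeneous n) ∧
      (IsAlgClosed K → ∀ y : ι → K, (∀ z : ι → K, ap G z = y → aeval z p ≠ 0) →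
        aeval y N ≠ 0) := by
  obtain ⟨χ, -, -, -, hχ, h0, h1⟩ := h.char p
  have hs : ((-1 : K) ^ Fintype.card B) ≠ 0 := pow_ne_zero _ (neg_ne_zero.2 one_ne_zero)
  refine ⟨C ((-1) ^ Fintype.card B) * χ.coeff 0, ?_, ?_, ?_, ?_⟩
  · intro Ω _ _ _ y hy
    have e1 := congrArg (fun f => Polynomial.coeff f 0) (hχ Ω y hy)
    simp only [Polynomial.coeff_map] at e1
    change aeval y (χ.coeff 0) = _ at e1
    rw [map_mul, e1, aeval_C, Polynomial.coeff_zero_eq_eval_zero, Polynomial.eval_prod]
    simp only [Polynomial.eval_sub, Polynomial.eval_X, Polynomial.eval_C, zero_sub, map_pow,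
      map_neg, map_one]
    rw [Finset.prod_neg, h.card_eq hy, ← mul_assoc, ← mul_pow]
    simp
  · exact mul_ne_zero (by rwa [Ne, C_eq_zero]) (h0 hp0)
  · have := h.char_hom hq hG hp hχ (le_refl (Fintype.card B))
    rw [Nat.sub_self] at this
    obtain ⟨n, hn, hh⟩ := this.resolve_left (h0 hp0)
    exact ⟨n, hn, hh.C_mul _⟩
  · intro hK y hy
    rw [map_mul, aeval_C]
    exact mul_ne_zero hs (h1 hK y hy)

/-- `Δ` is the determinant of the matrix of traces of the `s β * s β'` (the trace is minus the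
next coefficient of the characteristic polynomial), which is `Vᵀ * V` on a generic fibre. -/
theorem FB.disc [CharZero K] [DecidableEq B] (h : FB G s) :
    ∃ Δ : MvPolynomial ι K, Δ ≠ 0 ∧
      ∀ (Ω : Type) [Field Ω] [Algebra K Ω] [IsAlgClosed Ω] (y : ι → Ω),
        AlgebraicIndependent K y → ∀ e : B ≃ fib G y,
          aeval y Δ = (Matrix.of fun β β' => aeval (e β).1 (s β')).det ^ 2 := by
  obtain ⟨M, hM, -⟩ := h.mat
  have key : ∀ (Ω : Type) [Field Ω] [Algebra K Ω] (y : ι → Ω) (e : B ≃ fib G y),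
      aeval y (Matrix.of fun β β' => (M (s β * s β')).trace).det =
        (Matrix.of fun β β' => aeval (e β).1 (s β')).det ^ 2 := by
    intro Ω _ _ y e
    rw [AlgHom.map_det, sq]
    nth_rewrite 1 [← Matrix.det_transpose (Matrix.of fun β β' => aeval (e β).1 (s β'))]
    rw [← Matrix.det_mul]
    congr 1
    ext β β'
    obtain ⟨h1, h2⟩ := fib3_eq (h.det_ne e) (fib3_conj h hM e (s β * s β'))
    have h3 := congrArg Matrix.trace h1
    rw [Matrix.trace_mul_comm, h2, Matrix.trace_diagonal] at h3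
    simp only [AlgHom.mapMatrix_apply, Matrix.map_apply, Matrix.of_apply, Matrix.mul_apply,
      Matrix.transpose_apply, ← map_mul]
    rw [← h3, Matrix.trace, Matrix.trace, map_sum]
    rfl
  refine ⟨_, ?_, fun Ω _ _ _ y _ e => key Ω y e⟩
  intro h0
  obtain ⟨Ω, _, _, _, y, hy⟩ := fib3_generic K ι
  obtain ⟨e⟩ := fib3_equiv h hy
  have := key _ y e
  rw [h0, map_zero] at this
  exact pow_ne_zero 2 (h.det_ne e) this.symm

end Pool.Agent.Lib.MP_0dd0d9_ag.Hi
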