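import Pool.Agent.Lib.MP_0dd0d9_ag.Hi.SymD

/-!
TASK gh SZ.  Orbits of the power map in general position.
-/

namespace Pool.Agent.Lib.MP_0dd0d9_ag.Hi

open MvPolynomial

variable {ι : Type} [Fintype ι] [DecidableEq ι]

/-- The exponent vector of a point of the box. -/
noncomputable def szE {E : ℕ} (β : ι → Fin (E + 1)) : ι →₀ ℕ :=
  Finsupp.equivFunOnFinite.symm fun a => (β a : ℕ)

omit [DecidableEq ι] in
theorem szE_apply {E : ℕ} (β : ι → Fin (E + 1)) (a : ι) : szE β a = β a := rfl

omit [DecidableEq ι] in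
theorem szE_inj {E : ℕ} : Function.Injective (szE : (ι → Fin (E + 1)) → ι →₀ ℕ) := by
  intro β β' h
  funext a
  apply Fin.ext
  rw [← szE_apply, ← szE_apply, h]

omit [Fintype ι] [DecidableEq ι] in
theorem sz_le_deg {R : Type} [CommRing R] {p : MvPolynomial ι R} {m : ι →₀ ℕ}
    (hm : coeff m p ≠ 0) (a : ι) : m a ≤ p.totalDegree :=
  (monomial_le_degreeOf a (mem_support_iff.2 hm)).trans (degreeOf_le_totalDegree p a)

theorem sz_indep {E q : ℕ} (p : (ι → Fin (E + 1)) → MvPolynomial ι ℂ)
    (hq : ∀ β, (p β).totalDegree < q) (h : ∑ β, p β * monomial (q • szE β) 1 = 0) (β₀) :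
    p β₀ = 0 := by
  ext m
  by_contra hm
  have h1 := congrArg (coeff (m + q • szE β₀)) h
  rw [coeff_sum, Finset.sum_eq_single β₀, coeff_mul_monomial, mul_one] at h1
  · exact hm h1
  · intro β _ hβ
    rw [coeff_mul_monomial']
    split_ifs with hle
    · rw [mul_one]
      by_contra hc
      apply hβ
      funext a
      apply Fin.ext
      have h2 := (sz_le_deg hc a).trans_lt (hq β)
      have h3 := (sz_le_deg hm a).trans_lt (hq β₀)
      have h4 := hle a
      simp only [Finsupp.coe_tsub, Finsupp.coe_add, Finsupp.coe_smul, Pi.sub_apply, Pi.add_apply,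
        Pi.smul_apply, smul_eq_mul, szE_apply] at h2 h4
      have h5 : q * (β a : ℕ) < q * ((β₀ a : ℕ) + 1) := by rw [mul_add, mul_one]; omega
      have h6 : q * (β₀ a : ℕ) < q * ((β a : ℕ) + 1) := by rw [mul_add, mul_one]; omega
      have := Nat.lt_of_mul_lt_mul_left h5
      have := Nat.lt_of_mul_lt_mul_left h6
      omega
    · rfl
  · intro h
    exact absurd (Finset.mem_univ _) h

omit [DecidableEq ι] in
theorem sz_exists_box {R : Type} [CommRing R] {E : ℕ} {g : MvPolynomial ι R}
    (hg : g.totalDegree ≤ E) {m : ι →₀ ℕ} (hm : coeff m g ≠ 0) :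
    ∃ β : ι → Fin (E + 1), szE β = m :=
  ⟨fun a => ⟨m a, Nat.lt_succ_of_le ((sz_le_deg hm a).trans hg)⟩, by ext a; rfl⟩

theorem sz_eval_box {R : Type} [CommRing R] {E : ℕ} {g : MvPolynomial ι R}
    (hg : g.totalDegree ≤ E) (y : ι → R) :
    eval y g = ∑ β : ι → Fin (E + 1), coeff (szE β) g * ∏ a, y a ^ (β a : ℕ) := by
  classical
  rw [eval_eq', Finset.sum_subset (s₂ := Finset.univ.image (szE : (ι → Fin (E + 1)) → _)),
    Finset.sum_image fun _ _ _ _ h => szE_inj h]
  · rfl
  · intro m hm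
    obtain ⟨β, hβ⟩ := sz_exists_box hg (mem_support_iff.1 hm)
    exact Finset.mem_image.2 ⟨β, Finset.mem_univ _, hβ⟩
  · intro m _ hm
    rw [notMem_support_iff.1 hm, zero_mul]

/-- The functions `i ↦ monomial (d ^ i • β) 1` (`β` in a box) with values in the fraction field of
`ℂ[X]` are linearly independent: clear denominators and take `i` with `d ^ i` larger than the
degrees of the coefficients, so that the supports are disjoint.  By `rows` there are `i r` with
`Δ = det (monomial (d ^ i r • β) 1) ≠ 0`. -/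
theorem delta (ι : Type) [Fintype ι] [DecidableEq ι] {d : ℕ} (hd : 2 ≤ d) (E : ℕ) :
    ∃ Δ : MvPolynomial ι ℂ, Δ ≠ 0 ∧ ∀ (κ : Type) [Field κ] [Algebra ℂ κ] (z : ι → κ),
      aeval z Δ ≠ 0 → ∀ g : MvPolynomial ι κ, g.totalDegree ≤ E →
        (∀ i, eval (fun a => z a ^ d ^ i) g = 0) → g = 0 := by
  obtain ⟨r, hr⟩ := rows (Ω := FractionRing (MvPolynomial ι ℂ)) (B := ι → Fin (E + 1)) (Λ := ℕ)
    (fun β i => algebraMap (MvPolynomial ι ℂ) _ (monomial (d ^ i • szE β) 1)) (by
      intro g hg
      obtain ⟨b, hb⟩ := IsLocalization.exist_integer_multiples_of_finite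
        (nonZeroDivisors (MvPolynomial ι ℂ)) g
      choose p hp using hb
      set i := Finset.univ.sup fun β => (p β).totalDegree
      have h1 : ∑ β, p β * monomial (d ^ i • szE β) 1 = 0 := by
        apply IsFractionRing.injective (MvPolynomial ι ℂ) (FractionRing (MvPolynomial ι ℂ))
        simp only [map_sum, map_mul, hp, map_zero, smul_mul_assoc, ← Finset.smul_sum, hg i,
          smul_zero]
      funext β
      have h2 := sz_indep p (fun β => lt_of_le_of_lt
        (Finset.le_sup (f := fun β => (p β).totalDegree) (Finset.mem_univ β))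
        (Nat.lt_pow_self (by omega))) h1 β
      have h3 := hp β
      rw [h2, map_zero, Algebra.smul_def] at h3
      refine (mul_eq_zero.1 h3.symm).resolve_left ?_
      exact IsFractionRing.to_map_ne_zero_of_mem_nonZeroDivisors b.2)
  refine ⟨(Matrix.of fun i j : ι → Fin (E + 1) =>
    (monomial (d ^ r i • szE j) 1 : MvPolynomial ι ℂ)).det, fun h => hr ?_, ?_⟩
  · have := congrArg (algebraMap (MvPolynomial ι ℂ) (FractionRing (MvPolynomial ι ℂ))) h
    rw [RingHom.map_det, map_zero] at this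
    exact this
  · intro κ _ _ z hz g hg h0
    rw [AlgHom.map_det] at hz
    have h1 := Matrix.eq_zero_of_mulVec_eq_zero hz (v := fun β => coeff (szE β) g) (by
      funext i
      have h2 := h0 (r i)
      rw [sz_eval_box hg] at h2
      rw [Pi.zero_apply, ← h2]
      simp only [Matrix.mulVec, dotProduct, AlgHom.mapMatrix_apply, Matrix.map_apply,
        Matrix.of_apply, aeval_monomial, map_one, one_mul]
      refine Finset.sum_congr rfl fun β _ => ?_
      rw [mul_comm, Finsupp.prod_fintype _ _ fun _ => pow_zero _]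
      simp only [Finsupp.coe_smul, Pi.smul_apply, smul_eq_mul, szE_apply, pow_mul])
    ext m
    by_contra hm
    obtain ⟨β, rfl⟩ := sz_exists_box hg hm
    exact hm (congrFun h1 β)

/-- Specialisation of the variables in `A`. -/
noncomputable def spec (A : Finset ι) (z : ι → ℂ) : MvPolynomial ι ℂ →ₐ[ℂ] MvPolynomial ι ℂ :=
  aeval fun a => if a ∈ A then C (z a) else X a

omit [DecidableEq ι] in
theorem sz_natDegree {R : Type} [CommRing R] [Algebra ℂ R] (Δ : MvPolynomial ι ℂ)
    (f : ι → Polynomial R) (hf : ∀ a, (f a).natDegree ≤ 1) :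
    (aeval f Δ).natDegree ≤ Δ.totalDegree := by
  rw [aeval_def, eval₂_eq']
  refine Polynomial.natDegree_sum_le_of_forall_le _ _ fun m hm => ?_
  rw [Polynomial.algebraMap_apply]
  refine (Polynomial.natDegree_C_mul_le _ _).trans ((Polynomial.natDegree_prod_le _ _).trans ?_)
  refine le_trans (Finset.sum_le_sum fun a _ => Polynomial.natDegree_pow_le_of_le (m a) (hf a)) ?_
  simp only [mul_one]
  have := le_totalDegree hm
  rwa [Finsupp.sum_fintype _ _ fun _ => rfl] at this

omit [Fintype ι] in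
theorem sz_spec_congr {A : Finset ι} {z z' : ι → ℂ} (h : ∀ a ∈ A, z a = z' a) :
    spec A z = spec A z' := by
  unfold spec
  congr 1
  funext a
  split_ifs with ha
  · rw [h a ha]
  · rfl

/-- One more variable can be specialised in any set with more than `totalDegree` elements. -/
theorem spec_step {Δ : MvPolynomial ι ℂ} {A : Finset ι} {z : ι → ℂ} (h : spec A z Δ ≠ 0) {a : ι}
    (ha : a ∉ A) (W : Finset ℂ) (hW : Δ.totalDegree < W.card) :
    ∃ w ∈ W, spec (insert a A) (Function.update z a w) Δ ≠ 0 := by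
  let f : ι → Polynomial (MvPolynomial ι ℂ) := fun c =>
    if c = a then Polynomial.X else Polynomial.C (if c ∈ A then C (z c) else X c)
  have hf : ∀ c, (f c).natDegree ≤ 1 := by
    intro c
    simp only [f]
    split_ifs <;> simp
  have hev : ∀ r : MvPolynomial ι ℂ, (aeval f Δ).eval r = aeval (fun c => (f c).eval r) Δ := by
    intro r
    have := comp_aeval_apply (f := f) ((Polynomial.aeval r).restrictScalars ℂ) Δ
    simpa using this
  have h1 : (aeval f Δ).eval (X a) = spec A z Δ := by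
    rw [hev, spec]
    congr 2
    funext c
    by_cases hc : c = a
    · subst hc
      simp [f, ha]
    · simp [f, hc]
  have h2 : ∀ w, (aeval f Δ).eval (C w) = spec (insert a A) (Function.update z a w) Δ := by
    intro w
    rw [hev, spec]
    congr 2
    funext c
    by_cases hc : c = a
    · subst hc
      simp [f]
    · simp [f, hc]
  by_contra hn
  push Not at hn
  apply h
  rw [← h1, Polynomial.eq_zero_of_natDegree_lt_card_of_eval_eq_zero (aeval f Δ)
    (f := fun w : W => (C w.1 : MvPolynomial ι ℂ))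
    (fun w w' e => Subtype.ext (C_injective ι ℂ e)) (fun w => by rw [h2]; exact hn w.1 w.2)
    (by rw [Fintype.card_coe]; exact (sz_natDegree Δ f hf).trans_lt hW), Polynomial.eval_zero]

theorem sz_per {u : ℂ} {d n : ℕ} (h : u ^ d ^ n = u) (k m : ℕ) :
    u ^ d ^ (k + n * m) = u ^ d ^ k := by
  induction m with
  | zero => simp
  | succ m ih => rw [mul_add, mul_one, ← add_assoc, pow_add, mul_comm, pow_mul, h, ih]

theorem sz_many {d n T : ℕ} {z : ι → ℂ} {b : ι} (hb : z b ≠ 0) (h1 : ∀ a, z a ^ d ^ n = z a)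
    (h2 : ∀ i, 0 < i → i < n → ¬ ∃ μ : ℂ, (fun a => z a ^ d ^ i) = μ • z)
    (hn : T ^ Fintype.card ι < n) :
    ∃ b', ∀ W : Finset ℂ, (∀ i, (z b' / z b) ^ d ^ i ∈ W) → T < W.card := by
  classical
  by_contra hc
  push Not at hc
  choose W hW hT using hc
  have key : ∀ i j, i < j → j < n →
      (fun a => (z a / z b) ^ d ^ i) ≠ fun a => (z a / z b) ^ d ^ j := by
    intro i j hij hj e
    refine h2 (i + (n - j)) (by omega) (by omega) ⟨z b ^ d ^ (i + (n - j)) / z b, ?_⟩
    funext a
    have h3 : (z a / z b) ^ d ^ (i + (n - j)) = z a / z b := by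
      rw [pow_add, pow_mul, congrFun e a, ← pow_mul, ← pow_add, Nat.add_sub_cancel' hj.le,
        div_pow, h1, h1]
    rw [div_pow, div_eq_iff (pow_ne_zero _ hb)] at h3
    rw [h3, Pi.smul_apply, smul_eq_mul]
    ring
  have h4 := Finset.card_le_card_of_injOn (s := Finset.range n) (t := Fintype.piFinset W)
    (fun i a => (z a / z b) ^ d ^ i) (fun i _ => by
      rw [Finset.mem_coe, Fintype.mem_piFinset]
      exact fun a => hW a i) (fun i hi j hj e => by
      rw [Finset.mem_coe, Finset.mem_range] at hi hj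
      rcases lt_trichotomy i j with h | h | h
      · exact absurd e (key i j h hj)
      · exact h
      · exact absurd e.symm (key j i h hi))
  rw [Finset.card_range, Fintype.card_piFinset] at h4
  have h5 := Finset.prod_le_pow_card Finset.univ (fun a => (W a).card) T fun a _ => hT a
  rw [Finset.card_univ] at h5
  omega

/-- Let `T = totalDegree Δ`, `T' = max (d ^ (3 T)) (2 T)`, `n0 = T' ^ M + 2 T + 2`.  Take `z ∈ 𝒢`
and `b` with `z b ≠ 0`.  The tuples of ratios `(z a / z b) ^ d ^ i`, `i < n`, are distinct, so for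
some `b' ≠ b` the ratio `u = z b' / z b` has more than `T'` distinct powers `u ^ d ^ i`.  Substitute
`X b' ↦ X b * X b'` in `Δ` (injective, degree at most `2 T`), specialise `X b'` to some `u ^ d ^ i`
and then `X b` to one of the `d ^ n - 1 > 2 T` roots of unity; this gives a shifted and scaled
point `z' ∈ 𝒢` with `spec {b, b'} z' Δ ≠ 0`; the set of powers of its ratio is the same (pure
periodicity).  Then move the other coordinates one at a time (`spec_step`). -/
theorem sz [Nontrivial ι] {d : ℕ} (hd : 2 ≤ d) {Δ : MvPolynomial ι ℂ} (hΔ : Δ ≠ 0) :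
    ∃ n0, ∀ n, n0 ≤ n → ∀ 𝒢 : Set (ι → ℂ), 𝒢.Nonempty →
      (∀ z ∈ 𝒢, (fun a => z a ^ d) ∈ 𝒢) →
      (∀ z ∈ 𝒢, ∀ ζ : ℂ, ζ ^ (d ^ n - 1) = 1 → ζ • z ∈ 𝒢) →
      (∀ z ∈ 𝒢, (∀ a, z a ^ d ^ n = z a) ∧ z ≠ 0 ∧
        ∀ i, 0 < i → i < n → ¬ ∃ μ : ℂ, (fun a => z a ^ d ^ i) = μ • z) →
      (∀ z ∈ 𝒢, ∀ (a b b' : ι) (T : ℕ), a ≠ b → a ≠ b' → b ≠ b' → z b ≠ 0 →
        (∀ W : Finset ℂ, (∀ i, (z b' / z b) ^ d ^ i ∈ W) → d ^ (3 * T) < W.card) →
        ∃ W : Finset ℂ, T < W.card ∧ ∀ w ∈ W, Function.update z a w ∈ 𝒢) →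
      ∃ z ∈ 𝒢, eval z Δ ≠ 0 := by
  classical
  set T := Δ.totalDegree with hT
  refine ⟨(d ^ (3 * T) + T) ^ Fintype.card ι + T + 2, fun n hn 𝒢 hne hpow hrot hper hmove => ?_⟩
  obtain ⟨z, hz⟩ := hne
  obtain ⟨hz1, hz2, hz3⟩ := hper z hz
  obtain ⟨b, hb⟩ := Function.ne_iff.1 hz2
  replace hb : z b ≠ 0 := hb
  obtain ⟨b', hb'⟩ := sz_many (T := d ^ (3 * T) + T) hb hz1 hz3 (by omega)
  have hd1 : 1 ≤ d ^ (3 * T) := Nat.one_le_pow _ _ (by omega)
  have hbb : b ≠ b' := by
    rintro rfl
    have := hb' {1} (fun i => by simp [div_self hb])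
    rw [Finset.card_singleton] at this
    omega
  set u := z b' / z b with hu
  have hun : u ^ d ^ n = u := by rw [hu, div_pow, hz1, hz1]
  have hdn : n < d ^ n := Nat.lt_pow_self (by omega)
  have hN : 0 < d ^ n - 1 := by omega
  have hzb : z b ^ (d ^ n - 1) = 1 := by
    apply mul_right_cancel₀ hb
    rw [← pow_succ, Nat.sub_add_cancel (by omega), hz1, one_mul]
  have h0 : spec ∅ z Δ ≠ 0 := by simpa [spec] using hΔ
  obtain ⟨t, ht, h1⟩ := spec_step h0 (Finset.notMem_empty b)
    (Polynomial.nthRootsFinset (d ^ n - 1) (1 : ℂ)) (by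
      rw [(Complex.isPrimitiveRoot_exp _ hN.ne').card_nthRootsFinset]
      omega)
  rw [Polynomial.mem_nthRootsFinset hN] at ht
  have ht0 : t ≠ 0 := by
    rintro rfl
    rw [zero_pow hN.ne'] at ht
    exact zero_ne_one ht
  obtain ⟨w, hw, h2⟩ := spec_step h1 (a := b') (by simpa using hbb.symm)
    (((Finset.range n).image fun i => u ^ d ^ i).image fun x => t * x) (by
      rw [Finset.card_image_of_injective _ (mul_right_injective₀ ht0)]
      refine lt_of_le_of_lt (Nat.le_add_left _ _) (hb' _ fun i => ?_)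
      refine Finset.mem_image.2 ⟨i % n, Finset.mem_range.2 (Nat.mod_lt _ (by omega)), ?_⟩
      rw [← sz_per hun (i % n) (i / n), Nat.mod_add_div])
  obtain ⟨_, hw', rfl⟩ := Finset.mem_image.1 hw
  obtain ⟨i, -, rfl⟩ := Finset.mem_image.1 hw'
  have hiter : ∀ i, (fun a => z a ^ d ^ i) ∈ 𝒢 := by
    intro i
    induction i with
    | zero => simpa using hz
    | succ i ih => simpa only [pow_succ, pow_mul] using hpow _ ih
  have hmem := hrot _ (hiter i) (t / z b ^ d ^ i) (by
    rw [div_pow, ht, ← pow_mul, mul_comm, pow_mul, hzb, one_pow, div_one])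
  have key : ∀ S : Finset ι, b ∉ S → b' ∉ S → ∃ y ∈ 𝒢, y b = t ∧ y b' = t * u ^ d ^ i ∧
      spec (S ∪ insert b' (insert b ∅)) y Δ ≠ 0 := by
    intro S
    induction S using Finset.induction_on with
    | empty =>
      intro _ _
      have e1 : ((t / z b ^ d ^ i) • fun a => z a ^ d ^ i) b = t := by
        rw [Pi.smul_apply, smul_eq_mul, div_mul_cancel₀ _ (pow_ne_zero _ hb)]
      have e2 : ((t / z b ^ d ^ i) • fun a => z a ^ d ^ i) b' = t * u ^ d ^ i := by
        rw [Pi.smul_apply, smul_eq_mul, hu, div_pow]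
        ring
      refine ⟨_, hmem, e1, e2, ?_⟩
      rw [Finset.empty_union, sz_spec_congr (z' := Function.update (Function.update z b t) b'
        (t * u ^ d ^ i))]
      · exact h2
      · intro a ha
        simp only [Finset.mem_insert, Finset.notMem_empty, or_false] at ha
        rcases ha with rfl | rfl
        · rw [e2, Function.update_self]
        · rw [e1, Function.update_of_ne hbb, Function.update_self]
    | insert a S ha ih =>
      intro h3 h4
      rw [Finset.mem_insert, not_or] at h3 h4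
      obtain ⟨y, hy, e1, e2, h5⟩ := ih h3.2 h4.2
      obtain ⟨W, hW, hW'⟩ := hmove y hy a b b' T (Ne.symm h3.1) (Ne.symm h4.1) hbb
        (by rwa [e1]) (fun W hW => by
          refine lt_of_le_of_lt (Nat.le_add_right _ _) (hb' W fun k => ?_)
          have := hW (k + (n - 1) * i)
          rw [e1, e2, mul_div_cancel_left₀ _ ht0, ← pow_mul, ← pow_add,
            show i + (k + (n - 1) * i) = k + n * i by
              obtain ⟨m, rfl⟩ : ∃ m, n = m + 1 := ⟨n - 1, by omega⟩
              rw [Nat.add_sub_cancel]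
              ring, sz_per hun] at this
          exact this)
      obtain ⟨w, hw, h6⟩ := spec_step h5 (a := a) (by
        simp only [Finset.mem_union, Finset.mem_insert, Finset.notMem_empty, or_false, not_or]
        exact ⟨ha, Ne.symm h4.1, Ne.symm h3.1⟩) W hW
      refine ⟨_, hW' w hw, ?_, ?_, ?_⟩
      · rw [Function.update_of_ne h3.1, e1]
      · rw [Function.update_of_ne h4.1, e2]
      · rwa [Finset.insert_union]
  obtain ⟨y, hy, -, -, h3⟩ := key (Finset.univ \ insert b' (insert b ∅)) (by simp) (by simp)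
  refine ⟨y, hy, fun h => h3 ?_⟩
  rw [Finset.sdiff_union_of_subset (Finset.subset_univ _)]
  have e : spec Finset.univ y Δ = C (eval y Δ) := by
    simp only [spec, Finset.mem_univ, if_true]
    have := comp_aeval_apply (f := y) (Algebra.ofId ℂ (MvPolynomial ι ℂ)) Δ
    simpa using this.symm
  rw [e, h, map_zero]

end Pool.Agent.Lib.MP_0dd0d9_ag.Hi
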