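import Pool.Agent.Lib.MP_0dd0d9_ag.Hi.Move
import Pool.Agent.Lib.MP_0dd0d9_ag.Hi.SZ
import Pool.Agent.Lib.MP_0dd0d9_ag.Hi.Elim

/-!
TASK gh GP1.  General position for the generic map of the total family.
-/

namespace Pool.Agent.Lib.MP_0dd0d9_ag.Hi

open MvPolynomial

variable {ι : Type} [Fintype ι] [DecidableEq ι] {d : ℕ}

/-- No nonzero polynomial of degree at most `E` vanishes on the family. -/
def NoRel {Ω σ Λ : Type} [Field Ω] (E : ℕ) (P : Λ → σ → Ω) : Prop :=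
  ∀ Φ : MvPolynomial σ Ω, Φ.totalDegree ≤ E → (∀ l, eval (P l) Φ = 0) → Φ = 0

/-- The index set of the scaled orbit. -/
abbrev Ix (d n : ℕ) : Type := {ζ : ℂ // ζ ^ (d ^ n - 1) = 1} × ℕ

/-- The scaled orbit. -/
noncomputable def orb {Ω : Type} [Field Ω] [Algebra ℂ Ω] (F : ι → MvPolynomial ι Ω) (Z : ι → Ω)
    {n : ℕ} (l : Ix d n) : ι → Ω :=
  algebraMap ℂ Ω l.1.1 • (ap F)^[l.2] Z

/-- The special tangent vector. -/
noncomputable def w0 (a0 a1 : ι) (x : ι × Mn ι d) : ℂ :=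
  coeff x.2.1 (X x.1 ^ (d - 1) * X (oth a0 a1 x.1) : MvPolynomial ι ℂ)

section
variable {Ω : Type} [Field Ω] [Algebra ℂ Ω]

theorem ap_orb {F : ι → MvPolynomial ι Ω} (hF : Hm F d) (Z : ι → Ω) {n : ℕ} (l : Ix d n) :
    ∃ l' : Ix d n, ap F (orb F Z l) = orb F Z l' := by
  refine ⟨(⟨l.1.1 ^ d, by rw [← pow_mul, mul_comm, pow_mul, l.1.2, one_pow]⟩, l.2 + 1), ?_⟩
  simp only [orb]
  rw [hF.ap_smul, Function.iterate_succ_apply', map_pow]

theorem orb_per (hd : 1 ≤ d) {F : ι → MvPolynomial ι Ω} (hF : Hm F d) {Z : ι → Ω} {n : ℕ}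
    (hZ : (ap F)^[n] Z = Z) (l : Ix d n) : (ap F)^[n] (orb F Z l) = orb F Z l := by
  simp only [orb]
  rw [hF.ap_iter_smul, ← Function.iterate_add_apply, add_comm, Function.iterate_add_apply, hZ,
    ← map_pow]
  have h1 : 1 ≤ d ^ n := Nat.one_le_pow _ _ hd
  have h2 : l.1.1 ^ d ^ n = l.1.1 := by
    have h3 := pow_succ l.1.1 (d ^ n - 1)
    rwa [Nat.sub_add_cancel h1, l.1.2, one_mul] at h3
  rw [h2]

theorem gp1_iter_orb {F : ι → MvPolynomial ι Ω} (hF : Hm F d) (Z : ι → Ω) {n : ℕ} (l : Ix d n)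
    (i : ℕ) : ∃ l' : Ix d n, (ap F)^[i] (orb F Z l) = orb F Z l' := by
  induction i with
  | zero => exact ⟨l, rfl⟩
  | succ i ih =>
    obtain ⟨l', h⟩ := ih
    rw [Function.iterate_succ_apply', h]
    exact ap_orb hF Z l'

omit [DecidableEq ι] [Algebra ℂ Ω] in
theorem gp1_zero (hd : 1 ≤ d) {F : ι → MvPolynomial ι Ω} (hF : Hm F d) (m : ℕ) :
    (ap F)^[m] (0 : ι → Ω) = 0 := by
  have h := hF.ap_iter_smul m (0 : Ω) (0 : ι → Ω)
  rw [zero_smul, zero_pow (pow_ne_zero _ (by omega)), zero_smul] at h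
  exact h

omit [DecidableEq ι] in
/-- Some iterate of a point of the scaled orbit is a nonzero multiple of `Z`. -/
theorem gp1_back (hd : 2 ≤ d) {F : ι → MvPolynomial ι Ω} (hF : Hm F d) {Z : ι → Ω} {n : ℕ}
    (hn : 1 ≤ n) (hZ : (ap F)^[n] Z = Z) (l : Ix d n) :
    ∃ (m : ℕ) (s : Ω), s ≠ 0 ∧ (ap F)^[m] (orb F Z l) = s • Z := by
  have h1 : 1 < d ^ n := Nat.one_lt_pow (by omega) (by omega)
  have hζ : l.1.1 ≠ 0 := by
    intro h
    have := l.1.2
    rw [h, zero_pow (by omega)] at this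
    exact zero_ne_one this
  refine ⟨n * l.2 - l.2, algebraMap ℂ Ω l.1.1 ^ d ^ (n * l.2 - l.2),
    pow_ne_zero _ ((map_ne_zero _).2 hζ), ?_⟩
  simp only [orb]
  rw [hF.ap_iter_smul, ← Function.iterate_add_apply,
    Nat.sub_add_cancel (Nat.le_mul_of_pos_left _ hn), Function.iterate_mul,
    Function.iterate_fixed hZ]

omit [Fintype ι] [DecidableEq ι] in
theorem gp1_near_smul {O : ValuationSubring Ω} (hO : CO ℂ O) {Z : ι → Ω} {z : ι → ℂ}
    (h : Near O Z z) (ζ : ℂ) : Near O (algebraMap ℂ Ω ζ • Z) (ζ • z) := by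
  intro a
  have e : (algebraMap ℂ Ω ζ • Z) a - algebraMap ℂ Ω ((ζ • z) a) =
      algebraMap ℂ Ω ζ * (Z a - algebraMap ℂ Ω (z a)) := by
    simp only [Pi.smul_apply, smul_eq_mul, map_mul]
    ring
  rw [e, map_mul]
  exact mul_lt_one_of_nonneg_of_lt_one_right ((O.valuation_le_one_iff _).2 (hO ζ)) zero_le
    (h a)

theorem gp1_near_iter {O : ValuationSubring Ω} (hO : CO ℂ O) {c : ι × Mn ι d → Ω}
    (hc : Near O c (cpow ℂ)) {y : ι → Ω} {z : ι → ℂ} (hy : Near O y z) (i : ℕ) :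
    Near O ((ap (Fp c))^[i] y) (fun a => z a ^ d ^ i) := by
  have h := near_iter hO hc hy i
  rw [Fp_cpow, ← ap_itr (pw ℂ d), itr_pw] at h
  have e : ap (pw ℂ (d ^ i)) z = fun a => z a ^ d ^ i := funext fun a => ap_pw _ _ a
  rwa [e] at h

omit [Fintype ι] [DecidableEq ι] in
theorem gp1_smul_orb (F : ι → MvPolynomial ι Ω) (Z : ι → Ω) {n : ℕ} (l : Ix d n) {ζ : ℂ}
    (hζ : ζ ^ (d ^ n - 1) = 1) :
    ∃ l' : Ix d n, algebraMap ℂ Ω ζ • orb F Z l = orb F Z l' := by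
  refine ⟨(⟨ζ * l.1.1, by rw [mul_pow, hζ, l.1.2, one_mul]⟩, l.2), ?_⟩
  simp only [orb]
  rw [smul_smul, map_mul]

/-- The set `𝒢 = {z | ∃ l, Sp c (orb (Fp c) Z l) z}` satisfies the hypotheses of `sz`.  Use
`Sp.val`, `sp_of_near`, `near_iter`, `sol_red`, `move`.  Exact period: if `z ^ d ^ i = μ • z` then
`μ ^ (d ^ n - 1) = 1` (as `z ≠ 0`; `z = 0` is excluded by `sol_inj` with the solution `0`), and
`F^[i] Z'`, `μ • Z'` are periodic with the same reduction, so equal by `sol_inj`; this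
contradicts the exact period of `Z`. -/
theorem gp_point [Nontrivial ι] (hd : 2 ≤ d) {Δ : MvPolynomial ι ℂ} (hΔ : Δ ≠ 0) :
    ∃ n0, ∀ n, n0 ≤ n → ∀ (Ω : Type) [Field Ω] [Algebra ℂ Ω] (c : ι × Mn ι d → Ω),
      AlgebraicIndependent ℂ c → ∀ Z : ι → Ω, (ap (Fp c))^[n] Z = Z → Z ≠ 0 →
      ExactPer (ap (Fp c)) n Z →
      ∃ (l : Ix d n) (z : ι → ℂ), Sp c (orb (Fp c) Z l) z ∧ eval z Δ ≠ 0 := by
  obtain ⟨n0, hn0⟩ := sz hd hΔ
  refine ⟨max n0 1, fun n hn Ω _ _ c hc Z hZ hZ0 hex => ?_⟩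
  have hn1 : 1 ≤ n := (le_max_right _ _).trans hn
  have hF : Hm (Fp c) d := Fp_hm c
  have hper : ∀ l : Ix d n, (ap (Fp c))^[n] (orb (Fp c) Z l) = orb (Fp c) Z l :=
    orb_per (by omega) hF hZ
  suffices key : ∃ z ∈ {z | ∃ l : Ix d n, Sp c (orb (Fp c) Z l) z}, eval z Δ ≠ 0 by
    obtain ⟨z, ⟨l, hl⟩, hz⟩ := key
    exact ⟨l, z, hl, hz⟩
  refine hn0 n ((le_max_left _ _).trans hn) _ ?_ ?_ ?_ ?_ ?_
  · obtain ⟨O, hO, hcO⟩ := val_exists_indep hc (cpow ℂ)
    let l : Ix d n := (⟨1, one_pow _⟩, 0)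
    obtain ⟨z, _, hz⟩ := sol_red hd hO hcO hn1 (hper l)
    exact ⟨z, l, sp_of_near hO hcO hz⟩
  · rintro z ⟨l, hl⟩
    obtain ⟨O, hO, hcO, hz⟩ := hl.val
    obtain ⟨l', h'⟩ := ap_orb hF Z l
    have h1 := gp1_near_iter hO hcO hz 1
    rw [Function.iterate_one, h', pow_one] at h1
    exact ⟨l', sp_of_near hO hcO h1⟩
  · rintro z ⟨l, hl⟩ ζ hζ
    obtain ⟨O, hO, hcO, hz⟩ := hl.val
    obtain ⟨l', h'⟩ := gp1_smul_orb (Fp c) Z l hζ
    have h1 := gp1_near_smul hO hz ζ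
    rw [h'] at h1
    exact ⟨l', sp_of_near hO hcO h1⟩
  · rintro z ⟨l, hl⟩
    obtain ⟨O, hO, hcO, hz⟩ := hl.val
    obtain ⟨z', hz1, hz2⟩ := sol_red hd hO hcO hn1 (hper l)
    obtain rfl : z = z' := hz.unique hO hz2
    obtain ⟨m, s, hs, hm⟩ := gp1_back hd hF hn1 hZ l
    have hz0 : z ≠ 0 := by
      rintro rfl
      have h0 : Near O (0 : ι → Ω) (0 : ι → ℂ) := fun a => by simp
      have h1 := sol_inj hd hO hcO hn1 (hper l) (gp1_zero (by omega) hF n) hz h0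
      rw [h1, gp1_zero (by omega) hF m] at hm
      exact hZ0 ((smul_eq_zero.1 hm.symm).resolve_left hs)
    refine ⟨hz1, hz0, ?_⟩
    rintro i hi0 hin ⟨μ, hμ⟩
    obtain ⟨a, ha⟩ := Function.ne_iff.1 hz0
    have ha' : z a ≠ 0 := ha
    have hdn : 1 ≤ d ^ n := Nat.one_le_pow _ _ (by omega)
    have hdi : 1 ≤ d ^ i := Nat.one_le_pow _ _ (by omega)
    have e1 : z a ^ (d ^ n - 1) = 1 := by
      apply mul_right_cancel₀ ha'
      rw [← pow_succ, Nat.sub_add_cancel hdn, hz1, one_mul]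
    have e2 : μ = z a ^ (d ^ i - 1) := by
      apply mul_right_cancel₀ ha'
      rw [← pow_succ, Nat.sub_add_cancel hdi]
      exact (congrFun hμ a).symm
    have e3 : μ ^ (d ^ n - 1) = 1 := by
      rw [e2, ← pow_mul, mul_comm, pow_mul, e1, one_pow]
    obtain ⟨l1, h1⟩ := gp1_iter_orb hF Z l i
    obtain ⟨l2, h2⟩ := gp1_smul_orb (Fp c) Z l e3
    have n1 := gp1_near_iter hO hcO hz i
    have n2 := gp1_near_smul hO hz μ
    rw [hμ] at n1
    have e4 : (ap (Fp c))^[i] (orb (Fp c) Z l) = algebraMap ℂ Ω μ • orb (Fp c) Z l :=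
      sol_inj hd hO hcO hn1 (by rw [h1]; exact hper l1) (by rw [h2]; exact hper l2) n1 n2
    have e5 := congrArg (ap (Fp c))^[m] e4
    rw [← Function.iterate_add_apply, add_comm, Function.iterate_add_apply, hF.ap_iter_smul, hm,
      hF.ap_iter_smul] at e5
    refine hex.2 i hi0 hin ⟨(s ^ d ^ i)⁻¹ * (algebraMap ℂ Ω μ ^ d ^ m * s), ?_⟩
    rw [mul_smul, mul_smul, ← e5, smul_smul, inv_mul_cancel₀ (pow_ne_zero _ hs), one_smul]
  · rintro z ⟨l, hl⟩ a b b' T hab hab' hbb' hb hu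
    obtain ⟨W, hW, hW'⟩ := move hd hn1 hc (hper l) hl hab hab' hbb' hb hu
    exact ⟨W, hW, fun w hw => ⟨l, hW' w hw⟩⟩

end

theorem gp1_nat {R S : Type} [CommRing R] [CommRing S] (f : R →+* S) (c : ι × Mn ι d → R)
    (y : ι → R) (a b : ι) :
    f (aeval y (pderiv b (Fp c a))) = aeval (f ∘ y) (pderiv b (Fp (f ∘ c) a)) := by
  have h := congrFun (hom_ap f (fun b => pderiv b (Fp c a)) y) b
  simp only [Function.comp_apply, ap] at h
  rw [h, ← map_Fp, pderiv_map]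

theorem gp1_w0 (hd : 1 ≤ d) (a0 a1 : ι) {S : Type} [CommRing S] [Algebra ℂ S] (y : ι → S)
    (a : ι) : aeval y (Fp (algebraMap ℂ S ∘ w0 (d := d) a0 a1) a) =
      y a ^ (d - 1) * y (oth a0 a1 a) := by
  have hG : Hm (fun a : ι => (X a ^ (d - 1) * X (oth a0 a1 a) : MvPolynomial ι ℂ)) d := by
    intro a
    have := (isHomogeneous_X_pow (R := ℂ) a (d - 1)).mul (isHomogeneous_X ℂ (oth a0 a1 a))
    rwa [Nat.sub_add_cancel hd] at this
  have h := congrFun (Fp_coeff hG) a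
  have e : (fun x : ι × Mn ι d =>
      coeff x.2.1 (X x.1 ^ (d - 1) * X (oth a0 a1 x.1) : MvPolynomial ι ℂ)) = w0 a0 a1 := rfl
  rw [e] at h
  rw [← map_Fp, h]
  simp

theorem gp1_res {Ω : Type} [Field Ω] (O : ValuationSubring Ω) (x y : O)
    (h : O.valuation ((x : Ω) - y) < 1) : IsLocalRing.residue O x = IsLocalRing.residue O y := by
  rw [← sub_eq_zero, ← map_sub, IsLocalRing.residue_eq_zero_iff, O.valuation_lt_one_iff]
  exact h

omit [Fintype ι] [DecidableEq ι] in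
theorem gp1_eval {σ R S : Type} [CommRing R] [CommRing S] (f : R →+* S) (Ψ : MvPolynomial σ R)
    (y : σ → R) : f (eval y Ψ) = eval (f ∘ y) (map f Ψ) := by
  rw [eval_map, ← eval₂_id, eval₂_comp_left]
  rfl

/-- Take `E2` from `elim`, `Δ` from `delta`, `n0` and `z` from `gp_point`, `O` from `Sp.val`.
The points `Z i = F^[i] (orb l)` are near `z ^ d ^ i` and `D (Z i a) ∈ O` (`sol_der`).  Scale `Φ`
(`val_scale`) and reduce modulo the maximal ideal; the recursion for the residues of the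
`D (Z i a)` follows from `der_aeval_dco`, `dco_Fp` and `Near.poly`.  The residue field is an
algebra over `ℂ`. -/
theorem gp_tot [Nontrivial ι] (hd : 2 ≤ d) {a0 a1 : ι} (h01 : a1 ≠ a0) (E : ℕ) :
    ∃ n0, ∀ n, n0 ≤ n → ∀ (Ω : Type) [Field Ω] [Algebra ℂ Ω] (c : ι × Mn ι d → Ω),
      AlgebraicIndependent ℂ c → ∀ D : Derivation ℂ Ω Ω,
      (∀ x, D (c x) = algebraMap ℂ Ω (w0 a0 a1 x)) →
      ∀ Z : ι → Ω, (ap (Fp c))^[n] Z = Z → Z ≠ 0 → ExactPer (ap (Fp c)) n Z →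
      NoRel E fun l : Ix d n => Sum.elim (orb (Fp c) Z l) (D ∘ orb (Fp c) Z l) := by
  obtain ⟨E2, hE2⟩ := elim hd h01 E
  obtain ⟨Δ, hΔ, hdel⟩ := delta ι hd E2
  obtain ⟨n0, hn0⟩ := gp_point hd hΔ
  refine ⟨max n0 1, fun n hn Ω _ _ c hc D hD Z hZ hZ0 hex Φ hΦE hΦ => ?_⟩
  by_contra hne
  have hn1 : 1 ≤ n := (le_max_right _ _).trans hn
  have hF : Hm (Fp c) d := Fp_hm c
  obtain ⟨l, z, hsp, hz⟩ := hn0 n ((le_max_left _ _).trans hn) Ω c hc Z hZ hZ0 hex
  obtain ⟨O, hO, hcO, hnear⟩ := hsp.val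
  obtain ⟨t, Ψ, _, hΨ, hΨ0⟩ := val_scale O hne
  let j : ℂ →+* O := (algebraMap ℂ Ω).codRestrict O.toSubring hO
  let r := IsLocalRing.residue O
  let : Algebra ℂ (IsLocalRing.ResidueField O) := (r.comp j).toAlgebra
  have : CharZero (IsLocalRing.ResidueField O) :=
    charZero_of_injective_algebraMap (algebraMap ℂ (IsLocalRing.ResidueField O)).injective
  have halg : ∀ w : ℂ, algebraMap ℂ (IsLocalRing.ResidueField O) w = r (j w) := fun _ => rfl
  obtain ⟨Y, hY⟩ : ∃ Y : ℕ → ι → Ω, ∀ i, Y i = (ap (Fp c))^[i] (orb (Fp c) Z l) :=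
    ⟨_, fun _ => rfl⟩
  have hYorb : ∀ i, ∃ l' : Ix d n, Y i = orb (Fp c) Z l' := fun i => by
    rw [hY]
    exact gp1_iter_orb hF Z l i
  have hYnear : ∀ i, Near O (Y i) (fun a => z a ^ d ^ i) := fun i => by
    rw [hY]
    exact gp1_near_iter hO hcO hnear i
  have hYD : ∀ i a, D (Y i a) ∈ O := fun i a => by
    obtain ⟨l', h⟩ := hYorb i
    rw [h]
    exact sol_der hd hO hcO hn1 (orb_per (by omega) hF hZ l') D
      (fun x => by rw [hD]; exact hO _) a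
  let yO : ℕ → ι → O := fun i a => ⟨Y i a, (hYnear i).mem hO a⟩
  let xO : ℕ → ι → O := fun i a => ⟨D (Y i a), hYD i a⟩
  let cO : ι × Mn ι d → O := fun x => ⟨c x, hcO.mem hO x⟩
  have hy : ∀ i a, r (yO i a) = algebraMap ℂ _ (z a) ^ d ^ i := fun i a => by
    rw [← map_pow, halg]
    exact gp1_res O _ _ (hYnear i a)
  have hcr : r ∘ cO = cpow _ := by
    rw [← map_cpow (algebraMap ℂ (IsLocalRing.ResidueField O))]
    funext x
    exact gp1_res O _ (j _) (hcO x)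
  have hDc : D ∘ c = algebraMap ℂ Ω ∘ w0 a0 a1 := funext hD
  have hrec : ∀ i a, xO (i + 1) a = yO i a ^ (d - 1) * yO i (oth a0 a1 a) +
      ∑ b, aeval (yO i) (pderiv b (Fp cO a)) * xO i b := fun i a => by
    apply O.subtype_injective
    have e1 : Y (i + 1) a = aeval (Y i) (Fp c a) := by
      rw [hY, hY, Function.iterate_succ_apply']
      rfl
    have e2 : O.subtype (xO (i + 1) a) = D (Y (i + 1) a) := rfl
    rw [e2, e1, der_aeval_dco, dco_Fp (map_zero D), hDc, gp1_w0 (by omega), map_add, map_sum,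
      map_mul, map_pow]
    refine congrArg₂ (· + ·) rfl (Finset.sum_congr rfl fun b _ => ?_)
    rw [map_mul, gp1_nat]
    rfl
  obtain ⟨g, hg0, hgE, hg⟩ := hE2 (IsLocalRing.ResidueField O) (fun i a => r (yO i a))
    (fun i a => r (xO i a)) (fun i a => by rw [hy, hy, pow_succ, pow_mul])
    (fun i a => by
      rw [hrec, map_add, map_sum, map_mul, map_pow, add_comm]
      refine congrArg₂ (· + ·) ?_ rfl
      rw [Finset.sum_eq_single a]
      · rw [map_mul, gp1_nat, hcr, Fp_cpow]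
        simp [pw]
      · intro b _ hb
        rw [map_mul, gp1_nat, hcr, Fp_cpow]
        simp [pw, Pi.single_eq_of_ne' hb]
      · simp)
    (map r Ψ) hΨ0
    (by
      have h1 : (map r Ψ).totalDegree ≤ (map O.subtype Ψ).totalDegree := by
        refine Finset.sup_mono ?_
        rw [support_map_of_injective _ O.subtype_injective]
        exact support_map_subset _ _
      refine h1.trans ?_
      rw [hΨ]
      refine (totalDegree_mul _ _).trans ?_
      rw [totalDegree_C, zero_add]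
      exact hΦE)
    (fun i => by
      have e1 : Sum.elim (fun a => r (yO i a)) (fun a => r (xO i a)) =
          r ∘ Sum.elim (yO i) (xO i) := by
        funext x
        cases x <;> rfl
      have e2 : eval (Sum.elim (yO i) (xO i)) Ψ = 0 := by
        apply O.subtype_injective
        obtain ⟨l', h⟩ := hYorb i
        have e3 : O.subtype ∘ Sum.elim (yO i) (xO i) =
            Sum.elim (orb (Fp c) Z l') (D ∘ orb (Fp c) Z l') := by
          rw [← h]
          funext x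
          cases x <;> rfl
        rw [gp1_eval, hΨ, e3, map_mul, hΦ l', mul_zero, map_zero]
      rw [e1, ← gp1_eval, e2, map_zero])
  refine hg0 (hdel _ (algebraMap ℂ (IsLocalRing.ResidueField O) ∘ z) ?_ g hgE fun i => ?_)
  · rw [aeval_algebraMap_apply, aeval_eq_eval]
    exact (map_ne_zero _).2 hz
  · rw [← hg i]
    simp only [hy, Function.comp_apply]

end Pool.Agent.Lib.MP_0dd0d9_ag.Hi
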