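import Pool.Agent.Lib.MP_0dd0d9_ag.Hi.Abs
import Pool.Agent.Lib.MP_0dd0d9_ag.Hi.Mono

/-!
TASK gh Glob1.  The derivation `d/dt` at the places of `k(t)`.
-/

namespace Pool.Agent.Lib.MP_0dd0d9_ag.Hi

open Polynomial

variable {k K : Type} [Field k] [CharZero k] [Field K] [Algebra k K] [IsAlgClosed k]
  [IsAlgClosed K] {t : K} {av : Option k → AbsoluteValue K ℝ}

omit [CharZero k] [IsAlgClosed k] [IsAlgClosed K] in
theorem glob1_lin (h : Places t av) (p : Option k) (a : k) :
    ∃ m : ℤ, -1 ≤ m ∧ av p (t - algebraMap k K a) = Real.exp m := by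
  rcases p with _ | p
  · exact ⟨1, by norm_num, by rw [h.pf_inf, Int.cast_one]⟩
  · rcases eq_or_ne p a with rfl | hpa
    · exact ⟨-1, le_rfl, by rw [h.fin, Int.cast_neg, Int.cast_one]⟩
    · exact ⟨0, by norm_num, by rw [h.pf_fin hpa, Int.cast_zero, Real.exp_zero]⟩

omit [CharZero k] [IsAlgClosed K] in
theorem glob1_ind {Q : K → Prop} (h0 : ∀ a : k, a ≠ 0 → Q (algebraMap k K a))
    (h1 : ∀ a : k, Q (t - algebraMap k K a)) (hm : ∀ x y, Q x → Q y → Q (x * y))
    (hi : ∀ x, x ≠ 0 → Q x → Q x⁻¹) {x : K} (hx : x ∈ IntermediateField.adjoin k {t})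
    (hx0 : x ≠ 0) : Q x := by
  have key : ∀ r : k[X], r ≠ 0 → Q (aeval t r) := fun r hr => by
    refine pf_ind (Q := fun r => Q (aeval t r)) (fun a ha => ?_) (fun a r _ ih => ?_) hr
    · rw [aeval_C]
      exact h0 a ha
    · rw [map_mul, map_sub, aeval_X, aeval_C]
      exact hm _ _ (h1 a) ih
  obtain ⟨r, s, -, hs, rfl⟩ := pf_rep hx
  rw [div_eq_mul_inv]
  refine hm _ _ (key r fun e => hx0 ?_) (hi _ hs (key s fun e => hs ?_))
  · rw [e, map_zero, zero_div]
  · rw [e, map_zero]

/-- On `k(t)` write `x = u * π ^ m` with `|u| = 1`, `π = t - p` or `t⁻¹`, and use `pf_der`; then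
`mono`. -/
theorem Places.mono (h : Places t av)
    (halg : Algebra.IsAlgebraic (IntermediateField.adjoin k {t}) K) (D : Derivation k K K)
    (hD : D t = 1) (p : Option k) (z : K) : av p (D z) ≤ Real.exp 1 * av p z := by
  refine Hi.mono (h.na p) (fun n hn => ?_) D (Real.exp_pos 1).le
    (IntermediateField.adjoin k {t}).toSubfield (fun x hx => ?_) (halg.isAlgebraic z)
  · rw [← map_natCast (algebraMap k K)]
    exact h.cst p _ (Nat.cast_ne_zero.2 hn)
  rcases eq_or_ne x 0 with rfl | hx0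
  · simp
  refine glob1_ind (Q := fun x => av p (D x) ≤ Real.exp 1 * av p x) (fun a _ => ?_)
    (fun a => ?_) (fun x y hx hy => ?_) (fun x hx0 hx => ?_) hx hx0
  · rw [D.map_algebraMap, map_zero]
    exact mul_nonneg (Real.exp_pos 1).le ((av p).nonneg _)
  · obtain ⟨m, hm, e⟩ := glob1_lin h p a
    rw [map_sub, D.map_algebraMap, hD, sub_zero, map_one, e, ← Real.exp_add]
    have : (-1 : ℝ) ≤ m := by exact_mod_cast hm
    exact Real.one_le_exp (by linarith)
  · rw [D.leibniz, smul_eq_mul, smul_eq_mul]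
    refine (h.na p _ _).trans (max_le ?_ ?_)
    · rw [map_mul, map_mul, mul_left_comm]
      exact mul_le_mul_of_nonneg_left hy ((av p).nonneg _)
    · rw [map_mul, map_mul, mul_comm (av p x), mul_left_comm]
      exact mul_le_mul_of_nonneg_left hx ((av p).nonneg _)
  · have hp : 0 < av p x := (av p).pos hx0
    rw [D.leibniz_inv, smul_eq_mul, map_mul, (av p).map_neg, map_pow, map_inv₀]
    refine (mul_le_mul_of_nonneg_left hx (by positivity)).trans (le_of_eq ?_)
    field_simp

/-- `σ⁻¹ ∘ D ∘ σ - D` is a derivation that kills `t` (`der_eq_zero_of_alg`). -/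
theorem der_comm (halg : Algebra.IsAlgebraic (IntermediateField.adjoin k {t}) K)
    (D : Derivation k K K) (hD : D t = 1) (σ : K ≃ₐ[IntermediateField.adjoin k {t}] K) (z : K) :
    D (σ z) = σ (D z) := by
  let D1 : Derivation k K K := Derivation.mk'
    ((σ.symm.restrictScalars k).toLinearMap ∘ₗ (D : K →ₗ[k] K) ∘ₗ
      (σ.restrictScalars k).toLinearMap) fun a b => by simp
  have e : ∀ x, D1 x = σ.symm (D (σ x)) := fun _ => rfl
  have ht : σ t = t := σ.commutes ⟨t, IntermediateField.mem_adjoin_simple_self k t⟩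
  have h0 := der_eq_zero_of_alg (D1 - D) (S := {t}) (fun x hx => by
    rw [Set.mem_singleton_iff.1 hx, Derivation.sub_apply, e, ht, hD, map_one, sub_self])
    (halg.isAlgebraic z)
  rw [Derivation.sub_apply, e, sub_eq_zero] at h0
  rw [← h0, AlgEquiv.apply_symm_apply]

/-- The value group on `k(t)` is discrete. -/
theorem Places.discrete (h : Places t av) {x : K} (hx : x ∈ IntermediateField.adjoin k {t})
    {p : Option k} (h1 : 1 < av p x) : 1 ≤ Real.log (av p x) := by
  have hx0 : x ≠ 0 := by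
    rintro rfl
    rw [map_zero] at h1
    exact absurd h1 (by norm_num)
  obtain ⟨m, hm⟩ : ∃ m : ℤ, av p x = Real.exp m := by
    refine glob1_ind (Q := fun x => ∃ m : ℤ, av p x = Real.exp m) (fun a ha => ⟨0, ?_⟩)
      (fun a => ?_) ?_ ?_ hx hx0
    · rw [h.cst p a ha, Int.cast_zero, Real.exp_zero]
    · obtain ⟨m, -, e⟩ := glob1_lin h p a
      exact ⟨m, e⟩
    · rintro x y ⟨m, hm⟩ ⟨n, hn⟩
      exact ⟨m + n, by rw [map_mul, hm, hn, Int.cast_add, Real.exp_add]⟩
    · rintro x - ⟨m, hm⟩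
      exact ⟨-m, by rw [map_inv₀, hm, Int.cast_neg, Real.exp_neg]⟩
  rw [hm, Real.one_lt_exp_iff] at h1
  rw [hm, Real.log_exp]
  have : (0 : ℤ) < m := by exact_mod_cast h1
  exact_mod_cast this

/-- Only finitely many places see a pole. -/
theorem Places.fin_poles (h : Places t av) {x : K} (hx : x ∈ IntermediateField.adjoin k {t}) :
    {p | 1 < av p x}.Finite := by
  obtain ⟨r, s, -, hs, rfl⟩ := pf_rep hx
  have hs0 : s ≠ 0 := fun e => hs (by rw [e, map_zero])
  refine ((Set.finite_singleton none).union ((finite_setOfPred_isRoot hs0).image some)).subset ?_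
  rintro (_ | p) hp
  · exact Or.inl rfl
  refine Or.inr ⟨p, ?_, rfl⟩
  by_contra c
  have h1 := pf_aeval_eq (h.na _) (h.cst _) (h.pf_lt p) c
  have h2 := pf_aeval_le (h.na _) (h.cst _) (pf_ule (h.na _) (h.cst _) (h.pf_lt p)) r
  rw [Set.mem_ofPred_eq, map_div₀, h1, div_one] at hp
  exact hp.not_ge h2

/-- If all roots of a monic `P` over `k(t)` are integral at `p` then so are its coefficients and
(`pf_der`) their derivatives; from `der_eval`, `P'(z) * D z` is integral. -/
theorem Places.der_root (h : Places t av) (D : Derivation k K K) (hD : D t = 1) (p : Option k)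
    (P : (IntermediateField.adjoin k {t})[X]) (hP : P.Monic)
    (hroot : ∀ w : K, aeval w P = 0 → av p w ≤ 1) {z : K} (hz : aeval z P = 0) :
    av p (aeval z (derivative P)) * av p (D z) ≤ 1 := by
  obtain ⟨Q, hQ⟩ : ∃ Q, Q = P.map (algebraMap (IntermediateField.adjoin k {t}) K) := ⟨_, rfl⟩
  have hQm : Q.Monic := hQ ▸ hP.map _
  have hc : ∀ i, av p (Q.coeff i) ≤ 1 := fun i => by
    have h1 := mono_coeff (h.na p) Q.roots zero_le_one i
    rw [← (IsAlgClosed.splits Q).eq_prod_roots_of_monic hQm, one_pow, mul_one] at h1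
    refine h1.trans (le_of_eq (Multiset.prod_eq_one fun a ha => ?_))
    obtain ⟨w, hw, rfl⟩ := Multiset.mem_map.1 ha
    refine max_eq_left (hroot w ?_)
    rw [← eval_map_algebraMap, ← hQ]
    exact (mem_roots hQm.ne_zero).1 hw
  have hd : ∀ i, av p (D (Q.coeff i)) ≤ 1 := fun i => by
    refine pf_der h D (fun a => ?_) ?_ ?_ p (hc i)
    · rw [D.map_algebraMap]
      exact zero_mem _
    · rw [hD]
      exact one_mem _
    · rw [hQ, coeff_map]
      exact (P.coeff i).2
  have key := der_eval D Q z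
  rw [hQ, eval_map_algebraMap, hz, map_zero, derivative_map, eval_map_algebraMap, ← hQ] at key
  rw [← map_mul, eq_neg_of_add_eq_zero_right key.symm, (av p).map_neg, pco, eval_finsetSum]
  refine ht_sum_le (h.na p) _ _ zero_le_one fun i _ => ?_
  rw [eval_monomial, map_mul, map_pow]
  exact mul_le_one₀ (hd i) (pow_nonneg ((av p).nonneg _) _)
    (pow_le_one₀ ((av p).nonneg _) (hroot z hz))

end Pool.Agent.Lib.MP_0dd0d9_ag.Hi
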