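import Pool.Agent.Lib.MP_0dd0d9_ag.Hi.Poly

/-!
TASK gh Val.  Valuation rings centred at a point.
-/

namespace Pool.Agent.Lib.MP_0dd0d9_ag.Hi

open MvPolynomial

variable {k Ω σ : Type} [Field k] [Field Ω] [Algebra k Ω]

/-- The valuation ring contains the constants. -/
def CO (k : Type) {Ω : Type} [Field k] [Field Ω] [Algebra k Ω] (O : ValuationSubring Ω) : Prop :=
  ∀ a : k, algebraMap k Ω a ∈ O

/-- The family `v` is congruent to the constant family `z`. -/
def Near (O : ValuationSubring Ω) (v : σ → Ω) (z : σ → k) : Prop :=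
  ∀ i, O.valuation (v i - algebraMap k Ω (z i)) < 1

theorem CO.val_eq_one {O : ValuationSubring Ω} (hO : CO k O) {a : k} (ha : a ≠ 0) :
    O.valuation (algebraMap k Ω a) = 1 := by
  have h1 := (O.valuation_le_one_iff _).2 (hO a)
  have h2 := (O.valuation_le_one_iff _).2 (hO a⁻¹)
  have h3 : O.valuation (algebraMap k Ω a) * O.valuation (algebraMap k Ω a⁻¹) = 1 := by
    rw [← map_mul, ← map_mul, mul_inv_cancel₀ ha, map_one, map_one]
  refine le_antisymm h1 ?_
  calc (1 : O.ValueGroup) = _ := h3.symm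
    _ ≤ O.valuation (algebraMap k Ω a) * 1 := mul_le_mul_right h2 _
    _ = _ := mul_one _

theorem Near.mem {O : ValuationSubring Ω} (hO : CO k O) {v : σ → Ω} {z : σ → k} (h : Near O v z)
    (i : σ) : v i ∈ O := by
  have := O.add_mem _ _ (O.mem_of_valuation_le_one _ (h i).le) (hO (z i))
  rwa [sub_add_cancel] at this

theorem Near.poly {O : ValuationSubring Ω} (hO : CO k O) {v : σ → Ω} {z : σ → k} (h : Near O v z)
    (g : MvPolynomial σ k) : O.valuation (aeval v g - algebraMap k Ω (eval z g)) < 1 := by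
  induction g using MvPolynomial.induction_on with
  | C a => simp
  | add p q hp hq =>
    have e : aeval v (p + q) - algebraMap k Ω (eval z (p + q)) =
        (aeval v p - algebraMap k Ω (eval z p)) + (aeval v q - algebraMap k Ω (eval z q)) := by
      simp only [map_add]
      ring
    rw [e]
    exact O.valuation.map_add_lt hp hq
  | mul_X p i hp =>
    have e : aeval v (p * X i) - algebraMap k Ω (eval z (p * X i)) =
        (aeval v p - algebraMap k Ω (eval z p)) * v i +
          algebraMap k Ω (eval z p) * (v i - algebraMap k Ω (z i)) := by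
      simp only [map_mul, aeval_X, eval_X]
      ring
    rw [e]
    refine O.valuation.map_add_lt ?_ ?_
    · rw [map_mul]
      exact mul_lt_one_of_lt_of_le hp ((O.valuation_le_one_iff _).2 (h.mem hO i))
    · rw [map_mul, mul_comm]
      exact mul_lt_one_of_lt_of_le (h i) ((O.valuation_le_one_iff _).2 (hO _))

theorem Near.unit {O : ValuationSubring Ω} (hO : CO k O) {v : σ → Ω} {z : σ → k} (h : Near O v z)
    {g : MvPolynomial σ k} (hg : eval z g ≠ 0) : O.valuation (aeval v g) = 1 := by
  have h1 := h.poly hO g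
  rw [← hO.val_eq_one hg] at h1
  have := O.valuation.map_add_eq_of_lt_left h1
  rw [add_sub_cancel] at this
  rw [this, hO.val_eq_one hg]

theorem Near.eq_zero {O : ValuationSubring Ω} (hO : CO k O) {v : σ → Ω} {z : σ → k}
    (h : Near O v z) {g : MvPolynomial σ k} (hg : aeval v g = 0) : eval z g = 0 := by
  by_contra c
  have := h.unit hO c
  rw [hg, map_zero] at this
  exact zero_ne_one this

theorem Near.unique {O : ValuationSubring Ω} (hO : CO k O) {v : σ → Ω} {z z' : σ → k}
    (h : Near O v z) (h' : Near O v z') : z = z' := by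
  funext i
  by_contra c
  have h1 := O.valuation.map_sub_lt (h' i) (h i)
  rw [sub_sub_sub_cancel_left, ← map_sub, hO.val_eq_one (sub_ne_zero.2 c)] at h1
  exact lt_irrefl _ h1

theorem Near.sum {τ : Type} {O : ValuationSubring Ω} {v : σ → Ω} {z : σ → k} (h : Near O v z)
    {v' : τ → Ω} {z' : τ → k} (h' : Near O v' z') : Near O (Sum.elim v v') (Sum.elim z z') := by
  rintro (i | i)
  · exact h i
  · exact h' i

theorem val_gen {R : Type} [CommRing R] (φ : R →+* Ω) (I : Ideal R) (hI : I ≠ ⊤)
    (hk : ∀ x, φ x = 0 → x ∈ I) :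
    ∃ O : ValuationSubring Ω, (∀ x, φ x ∈ O) ∧ ∀ x ∈ I, O.valuation (φ x) < 1 := by
  have h1 : I.map φ.rangeRestrict ≠ ⊤ := by
    intro e
    obtain ⟨x, hx, hx1⟩ := (Ideal.mem_map_iff_of_surjective _ φ.rangeRestrict_surjective).1
      ((Ideal.eq_top_iff_one _).1 e)
    have h2 : φ x = 1 := congrArg Subtype.val hx1
    have h3 := hk (1 - x) (by rw [map_sub, map_one, h2, sub_self])
    exact hI ((Ideal.eq_top_iff_one _).2 (by simpa using I.add_mem h3 hx))
  obtain ⟨O, hO, hO'⟩ := Ideal.image_subset_nonunits_valuationSubring _ h1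
  refine ⟨O, fun x => hO ⟨x, rfl⟩, fun x hx => ?_⟩
  exact O.mem_nonunits_iff.1 (hO' ⟨_, Ideal.mem_map_of_mem _ hx, rfl⟩)

/-- `Ideal.image_subset_nonunits_valuationSubring` for the range of `aeval v` and the image of the
kernel of `eval z`. -/
theorem val_exists (v : σ → Ω) (z : σ → k)
    (h : ∀ g : MvPolynomial σ k, aeval v g = 0 → eval z g = 0) :
    ∃ O : ValuationSubring Ω, CO k O ∧ Near O v z := by
  obtain ⟨O, h1, h2⟩ := val_gen (aeval v : MvPolynomial σ k →ₐ[k] Ω).toRingHom
    (RingHom.ker (eval z)) (RingHom.ker_ne_top _) h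
  refine ⟨O, fun a => ?_, fun i => ?_⟩
  · simpa using h1 (C a)
  · have := h2 (X i - C (z i)) (by simp [RingHom.mem_ker])
    change O.valuation (aeval v (X i - C (z i))) < 1 at this
    rwa [map_sub, aeval_X, aeval_C] at this

theorem val_exists_indep {v : σ → Ω} (hv : AlgebraicIndependent k v) (z : σ → k) :
    ∃ O : ValuationSubring Ω, CO k O ∧ Near O v z := by
  refine val_exists v z fun g hg => ?_
  rw [algebraicIndependent_iff.1 hv g hg, map_zero]

/-- Extension of valuation rings along a field homomorphism. -/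
theorem val_ext {U : Type} [Field U] (f : U →+* Ω) (O : ValuationSubring U) :
    ∃ O' : ValuationSubring Ω, (∀ x ∈ O, f x ∈ O') ∧
      ∀ x, O.valuation x < 1 → O'.valuation (f x) < 1 := by
  obtain ⟨O', h1, h2⟩ := val_gen (f.comp O.subtype) (IsLocalRing.maximalIdeal O)
    (IsLocalRing.maximalIdeal.isMaximal O).ne_top (fun x hx => by
      have e : x = 0 := (f.injective.comp O.subtype_injective) (hx.trans (map_zero _).symm)
      rw [e]
      exact Ideal.zero_mem _)
  refine ⟨O', fun x hx => h1 ⟨x, hx⟩, fun x hx => ?_⟩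
  exact h2 ⟨x, O.mem_of_valuation_le_one x hx.le⟩ ((O.valuation_lt_one_iff _).2 hx)

/-- A nonzero polynomial can be scaled to a polynomial over `O` with nonzero reduction. -/
theorem val_scale (O : ValuationSubring Ω) {Φ : MvPolynomial σ Ω} (hΦ : Φ ≠ 0) :
    ∃ (t : Ω) (Ψ : MvPolynomial σ O), t ≠ 0 ∧ map O.subtype Ψ = C t * Φ ∧
      map (IsLocalRing.residue O) Ψ ≠ 0 := by
  classical
  obtain ⟨α, hα, hmax⟩ := Finset.exists_max_image Φ.support
    (fun β => O.valuation (coeff β Φ)) (support_nonempty.2 hΦ)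
  have h0 : coeff α Φ ≠ 0 := mem_support_iff.1 hα
  have hm : ∀ β, (coeff α Φ)⁻¹ * coeff β Φ ∈ O := by
    intro β
    by_cases hβ : β ∈ Φ.support
    · obtain ⟨a, ha⟩ := (O.valuation_le_iff _ _).1 (hmax β hβ)
      rw [← ha, mul_comm, mul_assoc, mul_inv_cancel₀ h0, mul_one]
      exact a.2
    · rw [notMem_support_iff.1 hβ, mul_zero]
      exact O.zero_mem
  let Ψ : MvPolynomial σ O := ∑ β ∈ Φ.support, monomial β ⟨_, hm β⟩
  have hc : ∀ β, coeff β Ψ = ⟨_, hm β⟩ := by
    intro β
    rw [coeff_sum, Finset.sum_eq_single β]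
    · rw [coeff_monomial, if_pos rfl]
    · intro γ _ hγ
      rw [coeff_monomial, if_neg hγ]
    · intro hβ
      rw [coeff_monomial, if_pos rfl]
      exact Subtype.ext (by
        change (coeff α Φ)⁻¹ * coeff β Φ = 0
        rw [notMem_support_iff.1 hβ, mul_zero])
  refine ⟨(coeff α Φ)⁻¹, Ψ, inv_ne_zero h0, ?_, fun e => ?_⟩
  · ext β
    rw [coeff_map, hc, coeff_C_mul]
    rfl
  · have h1 := congrArg (coeff α) e
    have h2 : (⟨_, hm α⟩ : O) = 1 := Subtype.ext (inv_mul_cancel₀ h0)
    rw [coeff_map, hc, h2, map_one, coeff_zero] at h1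
    exact one_ne_zero h1

end Pool.Agent.Lib.MP_0dd0d9_ag.Hi
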