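import Pool.Agent.Lib.MP_0dd0d9_ag.Hi.Reg2
import Pool.Agent.Lib.MP_0dd0d9_ag.Hi.Val
import Pool.Agent.Lib.MP_0dd0d9_ag.Hi.GD

/-!
TASK gh Lift.  Good reduction, and lifting of periodic points.
-/

namespace Pool.Agent.Lib.MP_0dd0d9_ag.Hi

open MvPolynomial

variable {ι : Type} [Fintype ι] [DecidableEq ι] {d : ℕ}
variable {Ω : Type} [Field Ω] [Algebra ℂ Ω]

/-- The constants. -/
noncomputable def lift_cst {O : ValuationSubring Ω} (hO : CO ℂ O) : ℂ →+* O :=
  (algebraMap ℂ Ω).codRestrict O hO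

omit [Fintype ι] [DecidableEq ι] in
theorem lift_deg {R : Type} [CommRing R] (hd : 2 ≤ d) {n : ℕ} (hn : 1 ≤ n) (μ : R) (a : ι) :
    (C μ * X a : MvPolynomial ι R).totalDegree < d ^ n := by
  have h1 : (C μ * X a : MvPolynomial ι R).totalDegree ≤ 1 :=
    ((isHomogeneous_X R a).C_mul μ).totalDegree_le
  exact h1.trans_lt (Nat.one_lt_pow (by omega) (by omega))

/-- `Reg.nak` over the local ring `O`; the constants give a ring homomorphism `ℂ →+* O`. -/
theorem reg_near {O : ValuationSubring Ω} (hO : CO ℂ O) {c : ι × Mn ι d → Ω}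
    {c0 : ι × Mn ι d → ℂ} (hc : Near O c c0) (h0 : Reg (Fp c0)) :
    ∃ cO : ι × Mn ι d → O, (∀ x, (cO x : Ω) = c x) ∧ Reg (Fp cO) := by
  refine ⟨fun x => ⟨c x, hc.mem hO x⟩, fun _ => rfl, ?_⟩
  have h1 := h0.mp (lift_cst hO)
  simp only [map_Fp] at h1
  refine Reg.nak (d := d) h1 (Fp_hm _) (Fp_hm _) fun a α => ?_
  rw [coeff_sub]
  by_cases h : α.degree = d
  · have e1 := coeff_Fp (fun x => (⟨c x, hc.mem hO x⟩ : O)) a ⟨α, mem_Mn.2 h⟩
    have e2 := coeff_Fp (lift_cst hO ∘ c0) a ⟨α, mem_Mn.2 h⟩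
    simp only at e1 e2
    rw [e1, e2, ValuationSubring.valuation_lt_one_iff]
    exact hc _
  · rw [(Fp_hm _ a).coeff_eq_zero h, (Fp_hm _ a).coeff_eq_zero h, sub_zero]
    exact Ideal.zero_mem _

theorem near_sl {O : ValuationSubring Ω} {c : ι × MnS ι d → Ω}
    (hc : Near O c (0 : ι × MnS ι d → ℂ)) : Near O (sl c) (cpow ℂ) := by
  intro x
  have hc' : ∀ y, O.valuation (c y) < 1 := fun y => by simpa using hc y
  simp only [sl, cpow]
  split_ifs with h1 h2 h3
  · exact absurd h2 (h1 _)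
  · simpa using hc' _
  · rw [map_one, sub_sub_cancel_left, Valuation.map_neg]
    exact Valuation.map_sum_lt _ one_ne_zero fun i _ => hc' _
  · simp

theorem lift_reg {O : ValuationSubring Ω} (hO : CO ℂ O) {c : ι × Mn ι d → Ω}
    (hc : Near O c (cpow ℂ)) : Reg (Fp c) := by
  obtain ⟨cO, h1, h2⟩ := reg_near hO hc (by rw [Fp_cpow]; exact reg_pw d)
  have h3 := h2.mp O.subtype
  simp only [map_Fp] at h3
  have e : O.subtype ∘ cO = c := funext h1
  rw [e] at h3
  exact h3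

theorem reg_total {c : ι × Mn ι d → Ω} (hc : AlgebraicIndependent ℂ c) : Reg (Fp c) := by
  obtain ⟨O, hO, hn⟩ := val_exists_indep hc (cpow ℂ)
  exact lift_reg hO hn

theorem reg_slice {c : ι × MnS ι d → Ω} (hc : AlgebraicIndependent ℂ c) : Reg (Fp (sl c)) := by
  obtain ⟨O, hO, hn⟩ := val_exists_indep hc (0 : ι × MnS ι d → ℂ)
  exact lift_reg hO (near_sl hn)

/-- The iterates of nearby maps at nearby points are near. -/
theorem near_iter {O : ValuationSubring Ω} (hO : CO ℂ O) {c : ι × Mn ι d → Ω}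
    {c0 : ι × Mn ι d → ℂ} (hc : Near O c c0) {y : ι → Ω} {y0 : ι → ℂ} (hy : Near O y y0) (n : ℕ) :
    Near O ((ap (Fp c))^[n] y) ((ap (Fp c0))^[n] y0) := by
  induction n with
  | zero => exact hy
  | succ n ih =>
    rw [Function.iterate_succ_apply', Function.iterate_succ_apply']
    intro a
    have h := (hc.sum ih).poly hO
      (∑ δ : Mn ι d, X (Sum.inl (a, δ)) * ∏ b, X (Sum.inr b) ^ δ.1 b)
    rw [aeval_Fp, aeval_Fp]
    simpa using h

/-- `lift_sol` for `G a = itr (Fp cO) n a - C μ0 * X a`, which is integral by `Reg.int`. -/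
theorem lift_per [IsAlgClosed Ω] (hd : 2 ≤ d) {n : ℕ} (hn : 1 ≤ n) {O : ValuationSubring Ω}
    (hO : CO ℂ O) {c : ι × Mn ι d → Ω} {c0 : ι × Mn ι d → ℂ} (hc : Near O c c0)
    (h0 : Reg (Fp c0)) {μ0 : ℂ} {z0 : ι → ℂ} (hz : (ap (Fp c0))^[n] z0 = μ0 • z0) :
    ∃ Z : ι → Ω, (ap (Fp c))^[n] Z = algebraMap ℂ Ω μ0 • Z ∧ Near O Z z0 := by
  obtain ⟨cO, hcO, hreg⟩ := reg_near hO hc h0
  have hmap : (fun a => map O.subtype (Fp cO a)) = Fp c := by
    funext a
    rw [map_Fp]
    congr 1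
    exact funext hcO
  have hit : ∀ (y : ι → O) (a : ι), ((ap (fun a => itr (Fp cO) n a - C (lift_cst hO μ0) * X a) y a :
      O) : Ω) = (ap (Fp c))^[n] (O.subtype ∘ y) a - algebraMap ℂ Ω μ0 * y a := by
    intro y a
    have e1 := congrFun (hom_ap_iter O.subtype (Fp cO) y n) a
    rw [hmap, ← ap_itr] at e1
    rw [← e1]
    simp only [ap, map_sub, map_mul, aeval_C, aeval_X, Function.comp]
    rfl
  have hint := (hreg.iter n).int (G := fun a => itr (Fp cO) n a - C (lift_cst hO μ0) * X a)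
    ((Fp_hm cO).iter n) fun a => by
      rw [sub_sub_cancel_left, totalDegree_neg]
      exact lift_deg hd hn _ a
  obtain ⟨z, hz1, hz2⟩ := lift_sol O _ hint (lift_cst hO ∘ z0) fun a => by
    rw [ValuationSubring.valuation_lt_one_iff, hit]
    have h1 : Near O (O.subtype ∘ (lift_cst hO ∘ z0)) z0 := fun i => by
      change O.valuation (algebraMap ℂ Ω (z0 i) - algebraMap ℂ Ω (z0 i)) < 1
      simp
    have h2 := near_iter hO hc h1 n a
    rw [hz, Pi.smul_apply, smul_eq_mul, map_mul] at h2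
    exact h2
  refine ⟨O.subtype ∘ z, funext fun a => ?_, fun a => ?_⟩
  · have h1 := hit z a
    rw [hz1] at h1
    exact sub_eq_zero.1 h1.symm
  · exact (ValuationSubring.valuation_lt_one_iff O _).1 (hz2 a)

/-- Periodic vectors are algebraic over the field of definition (`Reg.isIntegral_pt`). -/
theorem per_integral {R S : Type} [CommRing R] [CommRing S] [Algebra R S] (hd : 2 ≤ d) {n : ℕ}
    (hn : 1 ≤ n) {F : ι → MvPolynomial ι R} (h : Reg F) (hF : Hm F d) {Z : ι → S}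
    (hZ : (ap F)^[n] Z = Z) (a : ι) : IsIntegral R (Z a) := by
  refine (h.iter n).isIntegral_pt (G := fun a => itr F n a - C 1 * X a) (hF.iter n)
    (fun a => ?_) (fun a => ?_) a
  · rw [sub_sub_cancel_left, totalDegree_neg]
    exact lift_deg hd hn _ a
  · have h1 := congrFun (ap_itr F n Z) a
    rw [hZ] at h1
    have e : ap (fun a => itr F n a - C 1 * X a) Z a = 0 := by
      simp only [ap] at h1 ⊢
      simp [h1]
    rw [e]
    exact isIntegral_zero

end Pool.Agent.Lib.MP_0dd0d9_ag.Hi
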