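import Pool.Agent.Lib.MP_0dd0d9_ag.Hi.Red2
import Pool.Agent.Lib.MP_0dd0d9_ag.Hi.DerX
import Pool.Agent.Lib.MP_0dd0d9_ag.Hi.PF

/-!
TASK gh Line.  Restriction to a generic line.
-/

namespace Pool.Agent.Lib.MP_0dd0d9_ag.Hi

variable (ι : Type) [Fintype ι] [DecidableEq ι]

/-- The statement over a field of rational functions in one variable. -/
def CoreAt (d B n : ℕ) : Prop :=
  ∀ (k Ω : Type) [Field k] [Field Ω] [Algebra ℂ k] [Algebra k Ω] [Algebra ℂ Ω]
    [IsScalarTower ℂ k Ω] [IsAlgClosed k] [IsAlgClosed Ω] (s : Ω), Transcendental k s →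
    Algebra.IsAlgebraic (IntermediateField.adjoin k {s}) Ω → ∀ D : Derivation k Ω Ω, D s = 1 →
    ∀ (c : ι × MnS ι d → Ω) (p : ι → Ω) (b : ι), AlgebraicIndependent ℂ (Sum.elim c (D ∘ c)) →
    (∀ x, (minpoly (IntermediateField.adjoin k {s}) (c x)).natDegree ≤ B) →
    (∀ a, (minpoly (IntermediateField.adjoin k {s}) (p a)).natDegree ≤ B) →
    p b = 1 → ¬ ExactPer (ap (Fp (sl c))) n p

theorem line_univ (I : Type) :
    ∃ (U : Type) (_ : Field U) (_ : Algebra ℂ U) (_ : IsAlgClosed U) (T : I → U),
      IsTranscendenceBasis ℂ T := by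
  have : Algebra.IsAlgebraic (MvPolynomial I ℂ) (FractionRing (MvPolynomial I ℂ)) :=
    IsLocalization.isAlgebraic _ (nonZeroDivisors _)
  have h := ((IsTranscendenceBasis.mvPolynomial I ℂ).algebraMap_comp
    (A := FractionRing (MvPolynomial I ℂ))).algebraMap_comp
    (A := AlgebraicClosure (FractionRing (MvPolynomial I ℂ)))
  exact ⟨_, inferInstance, inferInstance, inferInstance, _, h⟩

open Polynomial in
theorem line_deg {U Ω Ω0 E F : Type} [Field U] [Field Ω] [Field Ω0] [Field E] [Field F]
    [Algebra E Ω] [Algebra F Ω0] (f : U →+* Ω) (j : U →+* Ω0)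
    (h : ∀ e : E, ∃ y, f y = algebraMap E Ω e ∧ j y ∈ Set.range (algebraMap F Ω0)) {z : U}
    (hz : IsIntegral E (f z)) : (minpoly F (j z)).natDegree ≤ (minpoly E (f z)).natDegree := by
  obtain ⟨q, hq1, hq2, hq3⟩ := lifts_and_natDegree_eq_and_monic (f := f)
    ((lifts_iff_coeff_lifts _).2 fun n => by
      obtain ⟨y, hy, -⟩ := h ((minpoly E (f z)).coeff n)
      exact ⟨y, by rw [hy, coeff_map]⟩) ((minpoly.monic hz).map (algebraMap E Ω))
  obtain ⟨r, hr1, hr2, hr3⟩ := lifts_and_natDegree_eq_and_monic (f := algebraMap F Ω0)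
    ((lifts_iff_coeff_lifts _).2 fun n => by
      obtain ⟨y, hy, hy'⟩ := h ((minpoly E (f z)).coeff n)
      rw [← coeff_map, ← hq1, coeff_map] at hy
      rwa [coeff_map, ← f.injective hy]) (hq3.map j)
  have h1 : q.eval z = 0 := by
    apply f.injective
    rw [← eval₂_hom, ← eval_map, hq1, eval_map_algebraMap, minpoly.aeval, map_zero]
  have h2 : aeval (j z) r = 0 := by
    rw [← eval_map_algebraMap, hr1, eval_map, eval₂_hom, h1, map_zero]
  refine (natDegree_le_natDegree (minpoly.min F _ hr3 h2)).trans ?_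
  rw [hr2, natDegree_map, hq2, natDegree_map]

/-- The generic line.  Let `Ω` be the algebraic closure of `ℂ(u, a, s)` (independent variables
`v : (Fin ℓ ⊕ Fin ℓ) ⊕ Unit → Ω`), and `k` the algebraic closure of `ℂ(u, a)` in `Ω`.  The family
`(u + a s, a)` is independent, because `(u + a s, a, s)` generates the same field
(`indep_of_card`). -/
theorem line_field (ℓ : ℕ) :
    ∃ (Ω : Type) (_ : Field Ω) (_ : Algebra ℂ Ω) (_ : IsAlgClosed Ω) (k : IntermediateField ℂ Ω)
      (_ : IsAlgClosed k) (s : Ω) (u a : Fin ℓ → k), Transcendental k s ∧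
      Algebra.IsAlgebraic (IntermediateField.adjoin k {s}) Ω ∧
      AlgebraicIndependent ℂ (Sum.elim (fun i => (u i : Ω) + a i * s) fun i => (a i : Ω)) := by
  obtain ⟨Ω, _, _, _, v, hv⟩ := line_univ (Option (Fin ℓ ⊕ Fin ℓ))
  let E := IntermediateField.adjoin ℂ (Set.range fun i => v (some i))
  let k : IntermediateField ℂ Ω := (algebraicClosure E Ω).restrictScalars ℂ
  have hk : IsAlgClosed k := (algebraicClosure.isAlgClosure E Ω).isAlgClosed
  have hm : ∀ i, v (some i) ∈ k := fun i => (algebraicClosure E Ω).algebraMap_mem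
    (⟨_, IntermediateField.subset_adjoin _ _ ⟨i, rfl⟩⟩ : E)
  refine ⟨Ω, inferInstance, inferInstance, inferInstance, k, hk, v none,
    fun i => ⟨_, hm (.inl i)⟩, fun i => ⟨_, hm (.inr i)⟩, ?_, ⟨fun z => ?_⟩, ?_⟩
  · have h1 : AlgebraicIndependent ℂ fun o : Option (Fin ℓ ⊕ Fin ℓ) =>
        o.elim (v none) fun i => v (some i) := by
      have h2 : (fun o : Option (Fin ℓ ⊕ Fin ℓ) => o.elim (v none) fun i => v (some i)) = v :=
        funext fun o => by cases o <;> rfl
      rw [h2]
      exact hv.1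
    exact (IntermediateField.transcendental_adjoin_iff.2
      (AlgebraicIndependent.option_iff.1 h1).2).extendScalars (algebraicClosure E Ω)
  · have hle : IntermediateField.adjoin ℂ (Set.range v) ≤
        (IntermediateField.adjoin k {v none}).restrictScalars ℂ := by
      rw [IntermediateField.adjoin_le_iff]
      rintro _ ⟨_ | i, rfl⟩
      · exact IntermediateField.mem_adjoin_simple_self k _
      · exact (IntermediateField.adjoin k {v none}).algebraMap_mem (⟨_, hm i⟩ : k)
    exact (glob_minpoly (F := IntermediateField.adjoin k {v none})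
      (IntermediateField.inclusion hle).toRingHom (fun _ => rfl)
      (hv.isAlgebraic_field.isAlgebraic z).isIntegral).1.isAlgebraic
  · let y : Option (Fin ℓ ⊕ Fin ℓ) → Ω := fun o => o.elim (v none)
      (Sum.elim (fun i => v (some (.inl i)) + v (some (.inr i)) * v none) fun i => v (some (.inr i)))
    have hy : ∀ o, y o ∈ IntermediateField.adjoin ℂ (Set.range y) :=
      fun o => IntermediateField.subset_adjoin _ _ ⟨o, rfl⟩
    have h1 : ∀ o, v o ∈ IntermediateField.adjoin ℂ (Set.range y) := by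
      rintro (_ | i | i)
      · exact hy none
      · have := sub_mem (hy (some (.inl i))) (mul_mem (hy (some (.inr i))) (hy none))
        simpa [y] using this
      · exact hy (some (.inr i))
    exact (indep_of_card hv.1 (y := y) le_rfl fun o => isAlgebraic_algebraMap
      (⟨_, h1 o⟩ : IntermediateField.adjoin ℂ (Set.range y))).comp some (Option.some_injective _)

/-- Let `U` be the algebraic closure of the field of rational functions in `T : Fin ℓ → U`,
`f : U → Ω` with `f ∘ T = t` and `j : U → Ω0` with `j (T i) = u i + a i * s` (`emb_exists`).  The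
`c x`, `p a` are in the range of `f` (`mem_range_of_alg`), say `c = f ∘ c'`, `p = f ∘ p'`.  The
degree bounds pass to `c'`, `p'` over `ℂ(T)` and then to `j ∘ c'`, `j ∘ p'` over `k(s)`
(`glob_minpoly`).  With dual derivations `P i` on `U`, `der_expand` gives
`D (j (c' x)) = ∑ a i * j (P i (c' x))`; a right inverse of the matrix `P i (c' x)` is
`R i x = E x (T i)` for derivations `E x` dual to `c'` (`der_indep`, `der_expand` with the
identity).  Conclude by `indep_over`, `indep_lin`, `indep_sum`, `exactPer_map`. -/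
theorem line {d B n : ℕ} (h : CoreAt ι d B n) : Mid ι d B n := by
  classical
  intro Ω _ _ _ ℓ t ht c p b hc hcB hpB hb hper
  obtain ⟨U, _, _, _, T, hT⟩ := line_univ (Fin ℓ)
  obtain ⟨f, hf⟩ := emb_exists hT ht
  obtain ⟨Ω0, _, _, _, k, _, s, u, a, hs, halg, hind⟩ := line_field ℓ
  obtain ⟨j, hj⟩ := emb_exists hT (hind.comp Sum.inl Sum.inl_injective)
  have hle : IntermediateField.adjoin ℂ (Set.range t) ≤
      (((IntermediateField.adjoin k {s}).restrictScalars ℂ).comap j).map f := by
    rw [IntermediateField.adjoin_le_iff]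
    rintro _ ⟨i, rfl⟩
    refine ⟨T i, ?_, hf i⟩
    change j (T i) ∈ IntermediateField.adjoin k {s}
    rw [hj]
    exact add_mem (IntermediateField.algebraMap_mem _ (u i)) (mul_mem
      (IntermediateField.algebraMap_mem _ (a i)) (IntermediateField.mem_adjoin_simple_self k s))
  have hL : ∀ z ∈ IntermediateField.adjoin ℂ (Set.range t), z ∈ f.range := fun z hz => by
    obtain ⟨y, -, hy⟩ := hle hz
    exact ⟨y, hy⟩
  have hdeg : ∀ z : U, IsIntegral (IntermediateField.adjoin ℂ (Set.range t)) (f z) ∧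
      (minpoly (IntermediateField.adjoin ℂ (Set.range t)) (f z)).natDegree ≤ B →
      (minpoly (IntermediateField.adjoin k {s}) (j z)).natDegree ≤ B := fun z hz =>
    (line_deg (f : U →+* Ω) (j : U →+* Ω0) (fun e => by
      obtain ⟨y, hy1, hy2⟩ := hle e.2
      exact ⟨y, hy2, ⟨_, hy1⟩, rfl⟩) hz.1).trans hz.2
  choose c' hc' using fun x => mem_range_of_alg f _ hL (hcB x).1.isAlgebraic
  choose p' hp' using fun x => mem_range_of_alg f _ hL (hpB x).1.isAlgebraic
  obtain rfl : c = f ∘ c' := funext fun x => (hc' x).symm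
  obtain rfl : p = f ∘ p' := funext fun x => (hp' x).symm
  have hb' : p' b = 1 := f.injective (hb.trans (map_one f).symm)
  have hp0 : p' ≠ 0 := fun h0 => by simp [h0] at hb'
  have : CharZero k := algebraRat.charZero k
  obtain ⟨D, hD⟩ := exists_der hs
  have hc0 : AlgebraicIndependent ℂ c' := AlgebraicIndependent.of_comp f hc
  choose P hP using fun i : Fin ℓ => der_indep hT.1 fun i' => if i' = i then 1 else 0
  choose E hE using fun x : ι × MnS ι d => der_indep hc0 fun x' => if x' = x then 1 else 0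
  have hTa := hT.isAlgebraic_field.isAlgebraic
  have hP' : ∀ i i', P i' (T i) = if i = i' then 1 else 0 := fun i i' => hP i' i
  have h1 : ∀ x, D (j (c' x)) = ∑ i, (a i : Ω0) * j (P i (c' x)) := fun x => by
    refine (der_expand hTa P hP' j (D.restrictScalars ℂ) (c' x)).trans (Finset.sum_congr rfl fun i _ => ?_)
    have h2 : D (u i) = 0 := D.map_algebraMap (u i)
    have h3 : D (a i) = 0 := D.map_algebraMap (a i)
    rw [hj, Derivation.restrictScalars_apply]
    simp [h2, h3, hD]
  have h2 : AlgebraicIndependent ℂ (Sum.elim (j ∘ T) fun i => (a i : Ω0)) := by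
    rw [show j ∘ T = fun i => (u i : Ω0) + a i * s from funext hj]
    exact hind
  refine h k Ω0 s hs halg D hD (j ∘ c') (j ∘ p') b (indep_sum hc0 j fun Ψ hΨ => ?_)
    (fun x => hdeg _ (hcB x)) (fun x => hdeg _ (hpB x)) (by simp [hb']) ?_
  · refine indep_lin (j : U →+* Ω0) (indep_over hT j h2) (fun x i => P i (c' x))
      (fun i x => E x (T i)) (fun x x' => ?_) Ψ ?_
    · rw [← hE x' x, show E x' (c' x) = _ from der_expand hTa P hP' (AlgHom.id ℂ U) (E x') (c' x)]
      exact Finset.sum_congr rfl fun i _ => mul_comm _ _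
    · rw [← hΨ]
      congr 1
      exact funext fun x => (h1 x).symm
  · have h3 := exactPer_map (f : U →+* Ω) (F := Fp (sl c')) hp0 (n := n)
    have h4 := exactPer_map (j : U →+* Ω0) (F := Fp (sl c')) hp0 (n := n)
    simp only [map_Fp, map_sl] at h3 h4
    exact h4.2 (h3.1 hper)

end Pool.Agent.Lib.MP_0dd0d9_ag.Hi
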