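import Pool.Agent.Lib.MP_0dd0d9_ag.Hi.Reg1

/-!
TASK gh Reg2.  Nakayama, the Nullstellensatz, and lower bounds for absolute values.
-/

namespace Pool.Agent.Lib.MP_0dd0d9_ag.Hi

open MvPolynomial

variable {ι : Type} [Fintype ι] [DecidableEq ι] {d : ℕ}
variable {R : Type} [CommRing R]

omit [Fintype ι] in
theorem reg2_mul_mem {I : Ideal R} {s e : ℕ} {g p : MvPolynomial ι R} (hg : g.IsHomogeneous e)
    (hp : p.IsHomogeneous d) (hs : e + d = s) (hc : ∀ α, coeff α p ∈ I) :
    g * p ∈ I • homogeneousSubmodule ι R s := by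
  rw [p.as_sum, Finset.mul_sum]
  refine Submodule.sum_mem _ fun α hα => ?_
  have hd : α.degree = d := by
    by_contra c
    exact (mem_support_iff.1 hα) (hp.coeff_eq_zero c)
  have e1 : g * monomial α (coeff α p) = coeff α p • (g * monomial α 1) := by
    rw [← mul_smul_comm, smul_monomial, smul_eq_mul, mul_one]
  rw [e1]
  refine Submodule.smul_mem_smul (hc α) ?_
  rw [mem_homogeneousSubmodule, ← hs]
  exact hg.mul (isHomogeneous_monomial _ hd)

theorem reg2_sum_le {Ω β : Type} [Field Ω] {av : AbsoluteValue Ω ℝ} (hna : IsNonarchimedean av)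
    {t : Finset β} {l : β → Ω} {b : ℝ} (hb : 0 ≤ b) (h : ∀ i ∈ t, av (l i) ≤ b) :
    av (∑ i ∈ t, l i) ≤ b := by
  rcases t.eq_empty_or_nonempty with rfl | ht
  · simpa using hb
  · obtain ⟨i, hi, hle⟩ := IsNonarchimedean.finset_image_add_of_nonempty hna l ht
    exact hle.trans (h i hi)

/-- Let `s` be as in `Reg.cert` for `F0`, `P` the module of forms of degree `s` (finitely
generated) and `N` the span of the `g * F a` with `g` a form of degree `s - d`.  Then
`P ≤ N ⊔ 𝔪 • P`; use `Submodule.le_of_le_smul_of_le_jacobson_bot`. -/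
theorem Reg.nak [IsLocalRing R] {F F0 : ι → MvPolynomial ι R} (h : Reg F0) (hF0 : Hm F0 d)
    (hF : Hm F d) (hc : ∀ a α, coeff α (F a - F0 a) ∈ IsLocalRing.maximalIdeal R) : Reg F := by
  obtain ⟨s, hds, hs⟩ := h.cert hF0
  have key : homogeneousSubmodule ι R s ≤
      (Ideal.span (Set.range F)).restrictScalars R := by
    refine Submodule.le_of_le_smul_of_le_jacobson_bot (I := IsLocalRing.maximalIdeal R)
      (homogeneousSubmodule_fg _ _ s) (IsLocalRing.maximalIdeal_le_jacobson _) ?_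
    intro p hp
    rw [mem_homogeneousSubmodule] at hp
    rw [p.as_sum]
    refine Submodule.sum_mem _ fun β hβ => ?_
    have hd : β.degree = s := by
      by_contra c
      exact (mem_support_iff.1 hβ) (hp.coeff_eq_zero c)
    have e1 : monomial β (coeff β p) = coeff β p • monomial β (1 : R) := by
      rw [smul_monomial, smul_eq_mul, mul_one]
    rw [e1]
    refine Submodule.smul_mem _ _ ?_
    obtain ⟨g, hg, hm⟩ := hs β hd.ge
    have e2 : monomial β (1 : R) = ∑ a, g a * F a - ∑ a, g a * (F a - F0 a) := by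
      rw [hm, ← Finset.sum_sub_distrib]
      exact Finset.sum_congr rfl fun a _ => by ring
    rw [e2]
    refine Submodule.sub_mem _ (Submodule.mem_sup_left ?_) (Submodule.mem_sup_right ?_)
    · rw [Submodule.restrictScalars_mem]
      exact Ideal.sum_mem _ fun a _ =>
        Ideal.mul_mem_left _ _ (Ideal.subset_span ⟨a, rfl⟩)
    · refine Submodule.sum_mem _ fun a _ => ?_
      exact reg2_mul_mem (hg a) ((hF a).sub (hF0 a)) (by omega) (hc a)
  intro a
  exact ⟨s, key ((mem_homogeneousSubmodule _ _).2 (isHomogeneous_X_pow a s))⟩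

/-- `MvPolynomial.vanishingIdeal_zeroLocus_eq_radical`. -/
theorem reg_of_nz {K : Type} [Field K] [IsAlgClosed K] {F : ι → MvPolynomial ι K}
    (h : ∀ y : ι → K, y ≠ 0 → ap F y ≠ 0) : Reg F := by
  intro a
  rw [← vanishingIdeal_zeroLocus_eq_radical (K := K), mem_vanishingIdeal_iff]
  intro y hy
  have h0 : y = 0 := by
    by_contra c
    refine h y c (funext fun b => ?_)
    exact hy _ (Ideal.subset_span ⟨b, rfl⟩)
  simp [h0]

/-- A form of degree `e` is bounded by the bound for its coefficients times `ρ ^ e`. -/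
theorem bd_eval {Ω : Type} [Field Ω] [Algebra R Ω] {av : AbsoluteValue Ω ℝ}
    (hna : IsNonarchimedean av) {g : MvPolynomial ι R} {e : ℕ} (hg : g.IsHomogeneous e) {c ρ : ℝ}
    (hc0 : 0 ≤ c) (hρ0 : 0 ≤ ρ) (hc : ∀ α, av (algebraMap R Ω (coeff α g)) ≤ c) {y : ι → Ω}
    (hy : ∀ a, av (y a) ≤ ρ) : av (aeval y g) ≤ c * ρ ^ e := by
  rw [g.as_sum, map_sum]
  refine reg2_sum_le hna (by positivity) fun α hα => ?_
  have hd : α.degree = e := by
    by_contra c
    exact (mem_support_iff.1 hα) (hg.coeff_eq_zero c)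
  rw [aeval_monomial, Finsupp.prod_fintype _ _ (by simp), map_mul, map_prod, ← hd,
    Finsupp.degree_eq_sum, ← Finset.prod_pow_eq_pow_sum]
  refine mul_le_mul (hc α) ?_ (Finset.prod_nonneg fun i _ => av.nonneg _) hc0
  refine Finset.prod_le_prod (fun i _ => av.nonneg _) fun i _ => ?_
  rw [map_pow]
  exact pow_le_pow_left₀ (av.nonneg _) (hy i) _

/-- Take for `𝓡` the coefficients of the cofactors in `X a ^ s = ∑ g a b * F b` (`Reg.cert`).  If
`m` is the largest `av (y a)` then `m ^ s ≤ exp H * m ^ (s - d) * ρ`. -/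
theorem Reg.low {F : ι → MvPolynomial ι R} (h : Reg F) (hF : Hm F d) (hd : 1 ≤ d) :
    ∃ 𝓡 : Finset R, ∀ (Ω : Type) [Field Ω] (f : R →+* Ω) (av : AbsoluteValue Ω ℝ),
      IsNonarchimedean av → ∀ H : ℝ, (∀ r ∈ 𝓡, av (f r) ≤ Real.exp H) →
      ∀ (y : ι → Ω) (ρ : ℝ), (∀ a, av (ap (fun a => map f (F a)) y a) ≤ ρ) →
        ∀ a, av (y a) ^ d ≤ Real.exp H * ρ := by
  classical
  obtain ⟨s, hds, hs⟩ := h.cert hF
  have hdeg : ∀ a : ι, (Finsupp.single a s).degree = s := fun a => Finsupp.degree_single a s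
  choose g hg hm using fun a : ι => hs (Finsupp.single a s) (hdeg a).ge
  refine ⟨Finset.univ.biUnion fun x : ι × ι => (g x.1 x.2).coeffs, ?_⟩
  intro Ω _ f av hna H hH y ρ hρ a
  have hρ0 : 0 ≤ ρ := (av.nonneg _).trans (hρ a)
  obtain ⟨a0, -, ha0⟩ := Finset.exists_max_image Finset.univ (fun b => av (y b))
    ⟨a, Finset.mem_univ a⟩
  have hm0 : 0 ≤ av (y a0) := av.nonneg _
  have hE : 0 < Real.exp H := Real.exp_pos H
  have h1 : av (y a0) ^ s ≤ Real.exp H * av (y a0) ^ (s - d) * ρ := by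
    have e := congrArg (fun p => aeval y (map f p)) (hm a0)
    simp only [map_monomial, map_one, map_sum, map_mul, aeval_monomial, one_mul] at e
    rw [Finsupp.prod_single_index (by simp)] at e
    rw [← map_pow, e]
    refine reg2_sum_le hna (by positivity) fun b _ => ?_
    rw [map_mul]
    refine mul_le_mul ?_ (hρ b) (av.nonneg _) (by positivity)
    have hh : (map f (g a0 b)).IsHomogeneous (s - d) := by
      have := (hg a0 b).map f
      rwa [hdeg] at this
    refine bd_eval hna hh hE.le hm0 (fun α => ?_) fun c => ha0 c (Finset.mem_univ c)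
    rw [coeff_map]
    by_cases h0 : coeff α (g a0 b) = 0
    · simp [h0, hE.le]
    · refine hH _ (Finset.mem_biUnion.2 ⟨(a0, b), Finset.mem_univ _, ?_⟩)
      exact coeff_mem_coeffs α h0
  refine (pow_le_pow_left₀ (av.nonneg _) (ha0 a (Finset.mem_univ a)) d).trans ?_
  rcases hm0.eq_or_lt with h0 | h0
  · rw [← h0, zero_pow (by omega)]
    positivity
  · have e : av (y a0) ^ s = av (y a0) ^ d * av (y a0) ^ (s - d) := by
      rw [← pow_add, Nat.add_sub_cancel' hds]
    rw [e] at h1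
    refine le_of_mul_le_mul_right ?_ (pow_pos h0 (s - d))
    linarith

/-- Over the localisation `A` of `ℂ[c]` at the point `cpow`, the generic tuple is `Reg`
(`Reg.nak`, `Fp_cpow`, `reg_pw`).  Clear the denominators of the finitely many coefficients in
`X a ^ N = ∑ g b * F b`. -/
theorem rho_exists (ι : Type) [Fintype ι] [DecidableEq ι] (d : ℕ) :
    ∃ ρ : MvPolynomial (ι × Mn ι d) ℂ, ρ ≠ 0 ∧ ∀ c : ι × Mn ι d → ℂ, eval c ρ ≠ 0 →
      ∀ y : ι → ℂ, y ≠ 0 → ap (Fp c) y ≠ 0 := by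
  classical
  let ev : MvPolynomial (ι × Mn ι d) ℂ →+* ℂ := eval (cpow ℂ)
  let 𝔭 : Ideal (MvPolynomial (ι × Mn ι d) ℂ) := RingHom.ker ev
  haveI : 𝔭.IsPrime := RingHom.ker_isPrime ev
  let A := Localization.AtPrime 𝔭
  let F : ι → MvPolynomial ι (MvPolynomial (ι × Mn ι d) ℂ) := Fp X
  let φ : MvPolynomial (ι × Mn ι d) ℂ →+* A := algebraMap _ A
  have hR : Reg fun a => map φ (F a) := by
    refine Reg.nak (reg_pw d) (pw_hm d) ((Fp_hm X).mp φ) fun a α => ?_
    rw [← map_pw φ, ← map_sub, coeff_map]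
    refine (IsLocalization.AtPrime.to_map_mem_maximal_iff A 𝔭 _).2 ?_
    change ev _ = 0
    rw [← coeff_map, map_sub, map_pw, map_Fp]
    have e : ev ∘ (X : ι × Mn ι d → MvPolynomial (ι × Mn ι d) ℂ) = cpow ℂ := by
      funext x
      simp [ev]
    rw [e, Fp_cpow, sub_self, coeff_zero]
  have key : ∀ a : ι, ∃ (N : ℕ) (r : MvPolynomial (ι × Mn ι d) ℂ), r ∉ 𝔭 ∧
      C r * X a ^ N ∈ Ideal.span (Set.range F) := by
    intro a
    obtain ⟨N, hN⟩ := hR a
    letI : Algebra (MvPolynomial ι (MvPolynomial (ι × Mn ι d) ℂ)) (MvPolynomial ι A) :=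
      algebraMvPolynomial
    have e1 : (X a : MvPolynomial ι A) ^ N =
        algebraMap (MvPolynomial ι (MvPolynomial (ι × Mn ι d) ℂ)) _ (X a ^ N) := by
      rw [algebraMap_def, map_pow, map_X]
    have e2 : Ideal.span (Set.range fun a => map φ (F a)) = (Ideal.span (Set.range F)).map
        (algebraMap (MvPolynomial ι (MvPolynomial (ι × Mn ι d) ℂ)) (MvPolynomial ι A)) := by
      rw [Ideal.map_span, ← Set.range_comp]
      rfl
    rw [e1, e2, IsLocalization.algebraMap_mem_map_algebraMap_iff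
      (𝔭.primeCompl.map (C (σ := ι)))] at hN
    obtain ⟨m, ⟨r, hr, rfl⟩, hm⟩ := hN
    exact ⟨N, r, hr, hm⟩
  choose N r hr hm using key
  refine ⟨∏ a, r a, Finset.prod_ne_zero_iff.2 fun a _ h0 => hr a (h0 ▸ 𝔭.zero_mem), ?_⟩
  intro c hc y hy h0
  rw [map_prod, Finset.prod_ne_zero_iff] at hc
  refine hy (funext fun a => ?_)
  let ψ : MvPolynomial ι (MvPolynomial (ι × Mn ι d) ℂ) →+* ℂ := eval₂Hom (eval c) y
  have hle : Ideal.span (Set.range F) ≤ RingHom.ker ψ := by
    rw [Ideal.span_le]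
    rintro _ ⟨b, rfl⟩
    have e : eval c ∘ (X : ι × Mn ι d → MvPolynomial (ι × Mn ι d) ℂ) = c := by
      funext x
      simp
    have h1 := congrFun h0 b
    rw [← e, ap, ← map_Fp, aeval_eq_eval, eval_map] at h1
    exact h1
  have h2 := hle (hm a)
  rw [RingHom.mem_ker, map_mul, map_pow] at h2
  simp only [ψ, coe_eval₂Hom, eval₂_C, eval₂_X] at h2
  exact eq_zero_of_pow_eq_zero ((mul_eq_zero.1 h2).resolve_left (hc a (Finset.mem_univ a)))

end Pool.Agent.Lib.MP_0dd0d9_ag.Hi
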