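import Pool.Agent.Lib.MP_0dd0d9_ag.Hi.Fib3
import Pool.Agent.Lib.MP_0dd0d9_ag.Hi.Reg2

/-!
TASK gh Loc1.  The local setting; bounds on the tree of preimages of a Gauss point.
-/

namespace Pool.Agent.Lib.MP_0dd0d9_ag.Hi

open MvPolynomial

variable {ι : Type} [Fintype ι] [DecidableEq ι]
variable {K Ω : Type} [Field K] [Field Ω] [Algebra K Ω]

/-- The local setting. -/
structure LS (d : ℕ) (F : ι → MvPolynomial ι K) (x : ι → Ω) (av : AbsoluteValue Ω ℝ) (H : ℝ) :
    Prop where
  hd : 2 ≤ d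
  hm : Hm F d
  dig : Dig d F
  na : IsNonarchimedean av
  nat : ∀ n : ℕ, n ≠ 0 → av (n : Ω) = 1
  gen : AlgebraicIndependent K x
  xle : ∀ a, av (x a) ≤ 1
  gauss : ∀ (g : MvPolynomial ι K) α, av (algebraMap K Ω (coeff α g)) ≤ av (aeval x g)
  der : ∀ b, ∃ D : Derivation K Ω Ω, (∀ a, D (x a) = if a = b then 1 else 0) ∧
    ∀ z, av (D z) ≤ av z
  H0 : 0 ≤ H
  coef : ∀ a α, av (algebraMap K Ω (coeff α (F a))) ≤ Real.exp H
  low : ∀ (y : ι → Ω) (ρ : ℝ), (∀ a, av (ap F y a) ≤ ρ) → ∀ a, av (y a) ^ d ≤ Real.exp H * ρ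

/-- The logarithm of the absolute value of a polynomial at a point. -/
noncomputable def lg (av : AbsoluteValue Ω ℝ) (p : MvPolynomial ι K) (y : ι → Ω) : ℝ :=
  Real.log (av (aeval y p))

/-- The average over the preimages of order `i`. -/
noncomputable def Av (F : ι → MvPolynomial ι K) (d i : ℕ) (f : (ι → Ω) → ℝ) (y : ι → Ω) : ℝ :=
  (∑ z ∈ fib (itr F i) y, f z) / ((d : ℝ) ^ i) ^ Fintype.card ι

/-- The (nonnegative) logarithmic expansion at level `r`. -/
noncomputable def th (F : ι → MvPolynomial ι K) (av : AbsoluteValue Ω ℝ) (H : ℝ) (r : ℕ)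
    (y : ι → Ω) : ℝ :=
  lg av (jac (itr F r)) y + Fintype.card ι * H

/-- The average of the logarithm of the Jacobian at level `i`. -/
noncomputable def lam (F : ι → MvPolynomial ι K) (d : ℕ) (av : AbsoluteValue Ω ℝ) (x : ι → Ω)
    (i : ℕ) : ℝ :=
  Av F d i (lg av (jac F)) x

/-- `L` is the sum of the Lyapunov exponents. -/
def IsLyap (F : ι → MvPolynomial ι K) (d : ℕ) (av : AbsoluteValue Ω ℝ) (x : ι → Ω) (H L : ℝ) :
    Prop :=
  0 ≤ L ∧ ∀ i, |lam F d av x i - L| ≤ 4 * (Fintype.card ι : ℝ) ^ 2 * d ^ 2 * H / d ^ i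

variable {d : ℕ} {F : ι → MvPolynomial ι K} {x : ι → Ω} {av : AbsoluteValue Ω ℝ} {H : ℝ}

omit [Fintype ι] [DecidableEq ι] in
theorem loc1_sum_le (hna : IsNonarchimedean av) {κ : Type} (s : Finset κ)
    (f : κ → Ω) {B : ℝ} (hB : 0 ≤ B) (h : ∀ i ∈ s, av (f i) ≤ B) : av (∑ i ∈ s, f i) ≤ B := by
  classical
  induction s using Finset.induction_on with
  | empty => simpa using hB
  | insert a s ha ih =>
    rw [Finset.sum_insert ha]
    exact (hna _ _).trans (max_le (h a (Finset.mem_insert_self _ _))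
      (ih fun i hi => h i (Finset.mem_insert_of_mem hi)))

theorem loc1_one_le (h : LS d F x av H) : 1 ≤ Real.exp H := Real.one_le_exp h.H0

theorem loc1_step (h : LS d F x av H) {w : ι → Ω} (hw : ∀ a, av (ap F w a) ≤ Real.exp H) (a : ι) :
    av (w a) ≤ Real.exp H := by
  have h1 := h.low w _ hw a
  have h2 : Real.exp H * Real.exp H ≤ Real.exp H ^ d := by
    rw [← pow_two]
    exact pow_le_pow_right₀ (loc1_one_le h) h.hd
  have hd := h.hd
  exact (pow_le_pow_iff_left₀ (av.nonneg _) (Real.exp_pos H).le (by omega)).1 (h1.trans h2)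

theorem loc1_coeff (h : LS d F x av H) (g : MvPolynomial ι K) (b : ι) (β : ι →₀ ℕ) :
    av (algebraMap K Ω (coeff β (pderiv b g))) =
      av (algebraMap K Ω (coeff (β + Finsupp.single b 1) g)) := by
  have h1 := h.nat (β b + 1) (Nat.succ_ne_zero _)
  push_cast at h1
  rw [coeff_pderiv, map_mul, map_mul, map_add, map_natCast, map_one, h1, mul_one]

/-- If `|F y| ≤ exp H` then `|y| ^ d ≤ exp (2 H)`, so `|y| ≤ exp H`. -/
theorem LS.back (h : LS d F x av H) {y : ι → Ω} {n : ℕ}
    (hy : ∀ a, av ((ap F)^[n] y a) ≤ Real.exp H) {i : ℕ} (hi : i ≤ n) (a : ι) :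
    av ((ap F)^[i] y a) ≤ Real.exp H := by
  revert a
  induction hi using Nat.decreasingInduction with
  | self => exact hy
  | of_succ k _ ih =>
    refine loc1_step h fun b => ?_
    have := ih b
    rwa [Function.iterate_succ_apply'] at this

theorem LS.tree_bd (h : LS d F x av H) {j : ℕ} {z : ι → Ω} (hz : z ∈ fib (itr F j) x) {i : ℕ}
    (hi : i ≤ j) (a : ι) : av ((ap F)^[i] z a) ≤ Real.exp H := by
  have hd := h.hd
  have e : (ap F)^[j] z = x := (h.dig.mem_fib (by omega)).1 hz
  refine h.back (fun b => ?_) hi a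
  rw [e]
  exact (h.xle b).trans (loc1_one_le h)

/-- The largest absolute value `ρ` on the cycle satisfies `ρ ^ d ≤ exp H * ρ`. -/
theorem LS.per_bd (h : LS d F x av H) {m : ℕ} (hm : 1 ≤ m) {Q : ι → Ω} (hQ : (ap F)^[m] Q = Q)
    (i : ℕ) (a : ι) : av ((ap F)^[i] Q a) ≤ Real.exp H := by
  obtain ⟨u, -, hu⟩ := Finset.exists_max_image (Finset.range m ×ˢ (Finset.univ : Finset ι))
    (fun u => av ((ap F)^[u.1] Q u.2))
    ⟨(0, a), Finset.mem_product.2 ⟨Finset.mem_range.2 hm, Finset.mem_univ _⟩⟩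
  have hP : Function.IsPeriodicPt (ap F) m Q := hQ
  have hall : ∀ (k : ℕ) (b : ι), av ((ap F)^[k] Q b) ≤ av ((ap F)^[u.1] Q u.2) := by
    intro k b
    rw [← hP.iterate_mod_apply k]
    exact hu (k % m, b)
      (Finset.mem_product.2 ⟨Finset.mem_range.2 (Nat.mod_lt _ hm), Finset.mem_univ _⟩)
  refine (hall i a).trans ?_
  have h1 := h.low ((ap F)^[u.1] Q) _ (fun b => by
    have := hall (u.1 + 1) b
    rwa [Function.iterate_succ_apply'] at this) u.2
  by_contra hc
  rw [not_le] at hc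
  have h0 := loc1_one_le h
  have h2 := pow_le_pow_right₀ (h0.trans hc.le) h.hd
  nlinarith

/-- A determinant is bounded by the power of the bound for the entries. -/
theorem det_le {n : Type} [Fintype n] [DecidableEq n] (hna : IsNonarchimedean av)
    (A : Matrix n n Ω) {c : ℝ} (hc : 0 ≤ c) (hA : ∀ i j, av (A i j) ≤ c) :
    av A.det ≤ c ^ Fintype.card n := by
  rw [Matrix.det_apply']
  refine loc1_sum_le hna _ _ (pow_nonneg hc _) fun σ _ => ?_
  have h1 : av (((Equiv.Perm.sign σ : ℤˣ) : ℤ) : Ω) = 1 := by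
    rcases Int.units_eq_one_or (Equiv.Perm.sign σ) with e | e <;> simp [e]
  rw [map_mul, h1, one_mul, map_prod, ← Finset.card_univ, ← Finset.prod_const]
  exact Finset.prod_le_prod (fun i _ => av.nonneg _) fun i _ => hA _ _

theorem loc1_aeval_jac (G : ι → MvPolynomial ι K) (y : ι → Ω) :
    aeval y (jac G) = (Matrix.of fun a b => aeval y (pderiv b (G a))).det := by
  rw [jac, AlgHom.map_det]
  rfl

/-- Each entry of the Jacobian matrix is bounded by `exp H * exp H ^ (d - 1)` (`bd_eval`). -/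
theorem LS.jac_le (h : LS d F x av H) {y : ι → Ω} (hy : ∀ a, av (y a) ≤ Real.exp H) :
    av (aeval y (jac F)) ≤ Real.exp (Fintype.card ι * d * H) := by
  have hd := h.hd
  have e : Real.exp (Fintype.card ι * d * H) =
      (Real.exp H * Real.exp H ^ (d - 1)) ^ Fintype.card ι := by
    rw [← pow_succ', Nat.sub_add_cancel (by omega), ← Real.exp_nat_mul, ← Real.exp_nat_mul,
      mul_assoc]
  rw [e, loc1_aeval_jac]
  refine det_le h.na _ (by positivity) fun a b => ?_
  refine bd_eval h.na (h.hm a).pderiv (Real.exp_pos H).le (Real.exp_pos H).le (fun α => ?_) hy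
  rw [loc1_coeff h]
  exact h.coef _ _

/-- The inverse of the Jacobian matrix. -/
theorem loc1_inv (h : LS d F x av H) {j : ℕ} {z : ι → Ω} (hz : z ∈ fib (itr F j) x) :
    ∃ D : ι → Derivation K Ω Ω, (∀ b w, av (D b w) ≤ av w) ∧
      (Matrix.of fun a c => aeval z (pderiv c (itr F j a))) * (Matrix.of fun c b => D b (z c)) =
        1 := by
  have hd := h.hd
  have e : (ap F)^[j] z = x := (h.dig.mem_fib (by omega)).1 hz
  rw [← ap_itr] at e
  choose D hD1 hD2 using h.der
  refine ⟨D, hD2, ?_⟩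
  ext a b
  rw [Matrix.mul_apply, Matrix.one_apply, ← hD1 b a, ← congrFun e a]
  exact (der_aeval (D b) (itr F j a) z).symm

/-- With the derivations `D b` of `LS.der`, `der_aeval` shows that the matrix `D b (z a)` is the
inverse of the Jacobian matrix of `itr F j` at `z`; its entries are bounded by `exp H`. -/
theorem LS.t1 (h : LS d F x av H) {j : ℕ} {z : ι → Ω} (hz : z ∈ fib (itr F j) x) :
    aeval z (jac (itr F j)) ≠ 0 ∧ 0 ≤ th F av H j z := by
  obtain ⟨D, hD, hJ⟩ := loc1_inv h hz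
  have h1 := congrArg Matrix.det hJ
  rw [Matrix.det_mul, Matrix.det_one, ← loc1_aeval_jac] at h1
  have h2 : aeval z (jac (itr F j)) ≠ 0 := left_ne_zero_of_mul_eq_one h1
  refine ⟨h2, ?_⟩
  have h3 : av (Matrix.of fun c b => D b (z c)).det ≤ Real.exp H ^ Fintype.card ι :=
    det_le h.na _ (Real.exp_pos H).le fun c b =>
      (hD b _).trans (h.tree_bd hz (Nat.zero_le j) c)
  have h4 := congrArg av h1
  rw [map_mul, map_one] at h4
  have h5 : 0 < av (aeval z (jac (itr F j))) := av.pos h2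
  have h6 : 1 ≤ av (aeval z (jac (itr F j))) * Real.exp H ^ Fintype.card ι := by
    rw [← h4]
    exact mul_le_mul_of_nonneg_left h3 h5.le
  have h7 := Real.log_nonneg h6
  rw [Real.log_mul h5.ne' (by positivity), Real.log_pow, Real.log_exp] at h7
  exact h7

/-- The entries of the Jacobian matrix at `z` are `det * adjugate` of the inverse matrix, so they
are bounded by `exp (th F av H j z)`; and `∇g(z) = (D b (g z))_b * (Jacobian matrix)`. -/
theorem LS.grad (h : LS d F x av H) {j : ℕ} {z : ι → Ω} (hz : z ∈ fib (itr F j) x)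
    (g : MvPolynomial ι K) (a : ι) :
    av (aeval z (pderiv a g)) ≤ Real.exp (th F av H j z) * av (aeval z g) := by
  obtain ⟨D, hD, hJ⟩ := loc1_inv h hz
  have h2 := (h.t1 hz).1
  have h5 : 0 < av (aeval z (jac (itr F j))) := av.pos h2
  have e : Real.exp (th F av H j z) =
      av (aeval z (jac (itr F j))) * Real.exp H ^ Fintype.card ι := by
    rw [th, lg, Real.exp_add, Real.exp_log h5, Real.exp_nat_mul]
  rw [e, loc1_aeval_jac]
  obtain ⟨J, hJ1⟩ : ∃ J : Matrix ι ι Ω, J = Matrix.of fun a c => aeval z (pderiv c (itr F j a)) :=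
    ⟨_, rfl⟩
  obtain ⟨N, hN1⟩ : ∃ N : Matrix ι ι Ω, N = Matrix.of fun c b => D b (z c) := ⟨_, rfl⟩
  rw [← hJ1, ← hN1] at hJ
  rw [← hJ1]
  have hNJ : N * J = 1 := mul_eq_one_comm.1 hJ
  have hdet : J.det * N.det = 1 := by rw [← Matrix.det_mul, hJ, Matrix.det_one]
  have hadj : J = J.det • N.adjugate := by
    have h1 : N.adjugate = N.det • J := by
      rw [← Matrix.one_mul N.adjugate, ← hJ, Matrix.mul_assoc, Matrix.mul_adjugate,
        Matrix.mul_smul, Matrix.mul_one]
    rw [h1, smul_smul, hdet, one_smul]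
  have hN : ∀ c b, av (N c b) ≤ Real.exp H := fun c b => by
    rw [hN1]
    exact (hD b _).trans (h.tree_bd hz (Nat.zero_le j) c)
  have hJb : ∀ b c, av (J b c) ≤ av J.det * Real.exp H ^ Fintype.card ι := fun b c => by
    have h1 : J b c = J.det * N.adjugate b c := by
      conv_lhs => rw [hadj]
      rfl
    rw [h1, map_mul, Matrix.adjugate_apply]
    refine mul_le_mul_of_nonneg_left (det_le h.na _ (Real.exp_pos H).le fun u v => ?_)
      (av.nonneg _)
    rw [Matrix.updateRow_apply]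
    split_ifs
    · rw [Pi.single_apply]
      split_ifs
      · rw [map_one]
        exact loc1_one_le h
      · rw [map_zero]
        exact (Real.exp_pos H).le
    · exact hN u v
  have hv : Matrix.vecMul (fun c => aeval z (pderiv c g)) N = fun b => D b (aeval z g) := by
    funext b
    rw [der_aeval, hN1]
    rfl
  have hw : (fun c => aeval z (pderiv c g)) = Matrix.vecMul (fun b => D b (aeval z g)) J := by
    rw [← hv, Matrix.vecMul_vecMul, hNJ, Matrix.vecMul_one]
  have hw' : aeval z (pderiv a g) = ∑ b, D b (aeval z g) * J b a := congrFun hw a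
  rw [hw']
  refine loc1_sum_le h.na _ _ (by positivity) fun b _ => ?_
  rw [map_mul, mul_comm]
  exact mul_le_mul (hJb b a) (hD b _) (av.nonneg _) (by positivity)

/-- Induction on `e`: if `α a ≠ 0` then `α a * coeff α g = coeff (α - single a 1) (pderiv a g)`. -/
theorem LS.t2 (h : LS d F x av H) {j : ℕ} {z : ι → Ω} (hz : z ∈ fib (itr F j) x)
    {g : MvPolynomial ι K} {e : ℕ} (hg : g.IsHomogeneous e) (α : ι →₀ ℕ) :
    av (algebraMap K Ω (coeff α g)) ≤ Real.exp (th F av H j z) ^ e * av (aeval z g) := by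
  induction e generalizing g α with
  | zero =>
    rw [pow_zero, one_mul]
    by_cases hα : α = 0
    · rw [← totalDegree_zero_iff_isHomogeneous, totalDegree_eq_zero_iff_eq_C] at hg
      rw [hα]
      conv_rhs => rw [hg, aeval_C]
    · rw [hg.coeff_eq_zero (fun h0 => hα ((Finsupp.degree_eq_zero_iff α).1 h0)), map_zero,
        map_zero]
      exact av.nonneg _
  | succ e ih =>
    by_cases hα : α = 0
    · rw [hg.coeff_eq_zero (by rw [hα, map_zero]; omega), map_zero, map_zero]
      positivity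
    · obtain ⟨a, ha⟩ := Finsupp.ne_iff.1 hα
      have e1 : α = (α - Finsupp.single a 1) + Finsupp.single a 1 :=
        (Finsupp.sub_add_single_one_cancel ha).symm
      rw [e1, ← loc1_coeff h]
      refine (ih hg.pderiv _).trans ?_
      rw [pow_succ, mul_assoc]
      exact mul_le_mul_of_nonneg_left (h.grad hz g a) (by positivity)

end Pool.Agent.Lib.MP_0dd0d9_ag.Hi
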