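import Pool.Agent.Lib.MP_0dd0d9_ag.Hi.Loc1

/-!
TASK gh Loc2.  Averages over the tree; the sum of the Lyapunov exponents.
-/

namespace Pool.Agent.Lib.MP_0dd0d9_ag.Hi

open MvPolynomial

variable {ι : Type} [Fintype ι] [DecidableEq ι]
variable {K Ω : Type} [Field K] [CharZero K] [Field Ω] [Algebra K Ω] [IsAlgClosed Ω]
variable {d : ℕ} {F : ι → MvPolynomial ι K} {x : ι → Ω} {av : AbsoluteValue Ω ℝ} {H : ℝ}

theorem LS.mem_add (h : LS d F x av H) {r i : ℕ} {y z : ι → Ω} (hy : y ∈ fib (itr F r) x)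
    (hz : z ∈ fib (itr F i) y) : z ∈ fib (itr F (r + i)) x := by
  have hd : 1 ≤ d := le_trans one_le_two h.hd
  rw [h.dig.mem_fib hd] at hy hz ⊢
  rw [Function.iterate_add_apply, hz, hy]

theorem LS.gen_tree (h : LS d F x av H) {r : ℕ} {y : ι → Ω} (hy : y ∈ fib (itr F r) x) :
    AlgebraicIndependent K y := by
  have hd : 1 ≤ d := le_trans one_le_two h.hd
  exact (h.dig.fb hd r).gen h.gen ((h.dig.fb hd r).mem_fib.1 hy)

theorem LS.card_fib (h : LS d F x av H) {r : ℕ} {y : ι → Ω} (hy : y ∈ fib (itr F r) x) (i : ℕ) :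
    (fib (itr F i) y).card = (d ^ Fintype.card ι) ^ i := by
  have hd : 1 ≤ d := le_trans one_le_two h.hd
  rw [(h.dig.fb hd i).card_eq (h.gen_tree hy), Fintype.card_fun, Fintype.card_fin, ← pow_mul,
    ← pow_mul, mul_comm]

theorem LS.fib_zero (h : LS d F x av H) (y : ι → Ω) : fib (itr F 0) y = {y} := by
  have hd : 1 ≤ d := le_trans one_le_two h.hd
  ext z
  rw [h.dig.mem_fib hd, Finset.mem_singleton, Function.iterate_zero_apply]

theorem LS.loc2_root (h : LS d F x av H) : x ∈ fib (itr F 0) x := by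
  rw [h.fib_zero]
  exact Finset.mem_singleton_self x

theorem LS.jac_ne (h : LS d F x av H) : jac F ≠ 0 := by
  have hd : 0 < d := lt_of_lt_of_le two_pos h.hd
  have hc := h.card_fib h.loc2_root 1
  have hne : (fib (itr F 1) x).Nonempty := by
    rw [← Finset.card_pos, hc]
    positivity
  obtain ⟨z, hz⟩ := hne
  have h1 := (h.t1 hz).1
  rw [itr_one] at h1
  intro h0
  exact h1 (by rw [h0, map_zero])

theorem LS.av_add (h : LS d F x av H) (i j : ℕ) (f : (ι → Ω) → ℝ) (y : ι → Ω) :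
    Av F d (i + j) f y = Av F d i (Av F d j f) y := by
  have hd : 1 ≤ d := le_trans one_le_two h.hd
  simp only [Av]
  rw [h.dig.sum_fib_add hd, ← Finset.sum_div, div_div, pow_add, mul_pow, mul_comm]

theorem LS.loc2_pos (h : LS d F x av H) {r : ℕ} {y : ι → Ω} (hy : y ∈ fib (itr F r) x)
    {p : MvPolynomial ι K} (hp : p ≠ 0) : 0 < av (aeval y p) := by
  refine av.pos fun h0 => hp ?_
  exact (h.gen_tree hy) (by rw [h0, map_zero])

/-- The average of `log |p|` is the logarithm of the norm. -/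
theorem LS.av_nrm (h : LS d F x av H) {i : ℕ} {p N : MvPolynomial ι K} (hp : p ≠ 0)
    (hN : IsNrm (itr F i) p N) {r : ℕ} {y : ι → Ω} (hy : y ∈ fib (itr F r) x) :
    Av F d i (lg av p) y = lg av N y / ((d : ℝ) ^ i) ^ Fintype.card ι := by
  have hne : ∀ z ∈ fib (itr F i) y, av (aeval z p) ≠ 0 := fun z hz =>
    (h.loc2_pos (h.mem_add hy hz) hp).ne'
  simp only [Av, lg]
  rw [hN Ω y (h.gen_tree hy), map_prod, Real.log_prod hne]

/-- Let `N` be the norm (`FB.nrm`), a form of degree `n` with `d ^ i * n = (d ^ i) ^ M * e`.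
Then `|N x| ≤ exp (θ) ^ n * |N y|` (`LS.t2`, `bd_eval`, `LS.xle`) and
`|N y| ≤ |N x| * exp H ^ n` (`LS.gauss`, `LS.tree_bd`). -/
theorem LS.av_bd (h : LS d F x av H) {p : MvPolynomial ι K} {e : ℕ} (hp : p.IsHomogeneous e)
    (hp0 : p ≠ 0) (i : ℕ) {r : ℕ} {y : ι → Ω} (hy : y ∈ fib (itr F r) x) :
    Av F d i (lg av p) x - e * th F av H r y / d ^ i ≤ Av F d i (lg av p) y ∧
      Av F d i (lg av p) y ≤ Av F d i (lg av p) x + e * H / d ^ i := by
  have hd : 1 ≤ d := le_trans one_le_two h.hd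
  have hq : 1 ≤ d ^ i := Nat.one_le_pow _ _ hd
  obtain ⟨N, hN, hN0, ⟨n, hn, hNn⟩, -⟩ := (h.dig.fb hd i).nrm hq (h.hm.iter i) hp hp0
  rw [Fintype.card_fun, Fintype.card_fin] at hn
  have hn' : (d : ℝ) ^ i * n = ((d : ℝ) ^ i) ^ Fintype.card ι * e := by exact_mod_cast hn
  have hD : (0 : ℝ) < (d : ℝ) ^ i := by exact_mod_cast hq
  have hDM : (0 : ℝ) < ((d : ℝ) ^ i) ^ Fintype.card ι := pow_pos hD _
  have hx0 := h.loc2_pos h.loc2_root hN0
  have hy0 := h.loc2_pos hy hN0
  have h1 : av (aeval x N) ≤ Real.exp (th F av H r y) ^ n * av (aeval y N) * 1 ^ n :=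
    bd_eval h.na hNn (by positivity) zero_le_one (h.t2 hy hNn) h.xle
  have h2 : av (aeval y N) ≤ av (aeval x N) * Real.exp H ^ n :=
    bd_eval h.na hNn hx0.le (Real.exp_pos H).le (h.gauss N)
      fun a => h.tree_bd hy (Nat.zero_le r) a
  have h3 : lg av N x ≤ n * th F av H r y + lg av N y := by
    have := Real.log_le_log hx0 h1
    rwa [one_pow, mul_one, Real.log_mul (by positivity) hy0.ne', Real.log_pow, Real.log_exp] at this
  have h4 : lg av N y ≤ lg av N x + n * H := by
    have := Real.log_le_log hy0 h2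
    rwa [Real.log_mul hx0.ne' (by positivity), Real.log_pow, Real.log_exp] at this
  have h5 : ∀ t : ℝ, e * t / (d : ℝ) ^ i = n * t / ((d : ℝ) ^ i) ^ Fintype.card ι := fun t => by
    rw [div_eq_div_iff hD.ne' hDM.ne']
    linear_combination (-t) * hn'
  rw [h.av_nrm hp0 hN hy, h.av_nrm hp0 hN h.loc2_root, h5, h5, ← sub_div, ← add_div]
  exact ⟨div_le_div_of_nonneg_right (by linarith) hDM.le,
    div_le_div_of_nonneg_right h4 hDM.le⟩

omit [CharZero K] [IsAlgClosed Ω] [DecidableEq ι] in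
theorem loc2_congr {i : ℕ} {f g : (ι → Ω) → ℝ} {y : ι → Ω}
    (hfg : ∀ z ∈ fib (itr F i) y, f z = g z) : Av F d i f y = Av F d i g y := by
  simp only [Av]
  rw [Finset.sum_congr rfl hfg]

omit [CharZero K] [IsAlgClosed Ω] [DecidableEq ι] in
theorem loc2_mono {i : ℕ} {f g : (ι → Ω) → ℝ} {y : ι → Ω}
    (hfg : ∀ z ∈ fib (itr F i) y, f z ≤ g z) : Av F d i f y ≤ Av F d i g y :=
  div_le_div_of_nonneg_right (Finset.sum_le_sum hfg) (by positivity)

theorem LS.loc2_const (h : LS d F x av H) {r : ℕ} {y : ι → Ω} (hy : y ∈ fib (itr F r) x) (i : ℕ)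
    (c : ℝ) : Av F d i (fun _ => c) y = c := by
  have hd : (0 : ℝ) < d := by exact_mod_cast lt_of_lt_of_le two_pos h.hd
  simp only [Av]
  rw [Finset.sum_const, h.card_fib hy, nsmul_eq_mul, div_eq_iff (by positivity)]
  push_cast
  rw [← pow_mul, ← pow_mul, mul_comm i, mul_comm]

/-- `aeval_jac_itr` and `LS.av_add`; the average of a function of `F^[i] z` over the preimages
of order `j` is its average over the preimages of order `j - i`. -/
theorem LS.av_jac (h : LS d F x av H) {J j : ℕ} (hJ : J ≤ j) {r : ℕ} {y : ι → Ω}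
    (hy : y ∈ fib (itr F r) x) :
    Av F d j (lg av (jac (itr F J))) y =
      ∑ i ∈ Finset.range J, Av F d (j - i) (lg av (jac F)) y := by
  have hd : 1 ≤ d := le_trans one_le_two h.hd
  have h1 : ∀ z ∈ fib (itr F j) y, lg av (jac (itr F J)) z =
      ∑ i ∈ Finset.range J, lg av (jac F) ((ap F)^[i] z) := fun z hz => by
    have hne : ∀ i ∈ Finset.range J, av (aeval ((ap F)^[i] z) (jac F)) ≠ 0 := fun i hi => by
      have hi' : i ≤ j := le_trans (Finset.mem_range.1 hi).le hJ
      have hw : (ap F)^[i] z ∈ fib (itr F (j - i)) y := by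
        rw [h.dig.mem_fib hd] at hz ⊢
        rw [← Function.iterate_add_apply, Nat.sub_add_cancel hi', hz]
      exact (h.loc2_pos (h.mem_add hy hw) h.jac_ne).ne'
    simp only [lg]
    rw [aeval_jac_itr, map_prod, Real.log_prod hne]
  rw [loc2_congr h1]
  have h2 : Av F d j (fun z => ∑ i ∈ Finset.range J, lg av (jac F) ((ap F)^[i] z)) y =
      ∑ i ∈ Finset.range J, Av F d j (fun z => lg av (jac F) ((ap F)^[i] z)) y := by
    simp only [Av]
    rw [Finset.sum_comm, Finset.sum_div]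
  rw [h2]
  refine Finset.sum_congr rfl fun i hi => ?_
  have hi' : i ≤ j := le_trans (Finset.mem_range.1 hi).le hJ
  conv_lhs => rw [← Nat.sub_add_cancel hi']
  rw [h.av_add]
  refine loc2_congr fun w hw => ?_
  rw [← h.loc2_const (h.mem_add hy hw) i (lg av (jac F) w)]
  refine loc2_congr fun z hz => ?_
  rw [(h.dig.mem_fib hd).1 hz]

theorem LS.th_add (h : LS d F x av H) {r i : ℕ} {y z : ι → Ω} (hy : y ∈ fib (itr F r) x)
    (hz : z ∈ fib (itr F i) y) :
    th F av H (r + i) z = th F av H r y + lg av (jac (itr F i)) z := by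
  have hd : 1 ≤ d := le_trans one_le_two h.hd
  have h0 := (h.t1 (h.mem_add hy hz)).1
  have h1 : aeval z (jac (itr F (r + i))) =
      aeval z (jac (itr F i)) * aeval y (jac (itr F r)) := by
    rw [aeval_jac_itr, aeval_jac_itr, aeval_jac_itr, add_comm, Finset.prod_range_add]
    congr 1
    refine Finset.prod_congr rfl fun k _ => ?_
    rw [add_comm, Function.iterate_add_apply, (h.dig.mem_fib hd).1 hz]
  rw [h1] at h0
  simp only [th, lg]
  rw [h1, map_mul, Real.log_mul (av.ne_zero (left_ne_zero_of_mul h0))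
    (av.ne_zero (right_ne_zero_of_mul h0))]
  ring

theorem LS.av_th (h : LS d F x av H) {r : ℕ} {y : ι → Ω} (hy : y ∈ fib (itr F r) x) (s : ℕ) :
    Av F d s (th F av H (r + s)) y =
      th F av H r y + ∑ i ∈ Finset.Icc 1 s, Av F d i (lg av (jac F)) y := by
  rw [loc2_congr fun z hz => h.th_add hy hz]
  have h2 : Av F d s (fun z => th F av H r y + lg av (jac (itr F s)) z) y =
      Av F d s (fun _ => th F av H r y) y + Av F d s (lg av (jac (itr F s))) y := by
    simp only [Av]
    rw [Finset.sum_add_distrib, add_div]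
  rw [h2, h.loc2_const hy, h.av_jac le_rfl hy]
  congr 1
  refine Finset.sum_nbij' (fun i => s - i) (fun i => s - i) ?_ ?_ ?_ ?_ ?_
  · intro a ha
    simp only [Finset.mem_range, Finset.mem_Icc] at ha ⊢
    omega
  · intro a ha
    simp only [Finset.mem_range, Finset.mem_Icc] at ha ⊢
    omega
  · intro a ha
    simp only [Finset.mem_range] at ha ⊢
    omega
  · intro a ha
    simp only [Finset.mem_Icc] at ha ⊢
    omega
  · intro a _
    rfl

theorem LS.loc2_step (h : LS d F x av H) (n : ℕ) :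
    |lam F d av x (n + 1) - lam F d av x n| ≤
      2 * (Fintype.card ι : ℝ) ^ 2 * d ^ 2 * H / d ^ n := by
  have hd : (2 : ℝ) ≤ d := by exact_mod_cast h.hd
  have hd1 : 1 ≤ d := le_trans one_le_two h.hd
  have hH := h.H0
  have hD : (0 : ℝ) < (d : ℝ) ^ n := by positivity
  have hM0 : (0 : ℝ) ≤ Fintype.card ι := Nat.cast_nonneg _
  have hM : (Fintype.card ι : ℝ) ≤ (Fintype.card ι : ℝ) ^ 2 := by
    exact_mod_cast Nat.le_self_pow two_ne_zero _
  have he : ((Fintype.card ι * (d - 1) : ℕ) : ℝ) ≤ Fintype.card ι * d := by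
    exact_mod_cast Nat.mul_le_mul_left _ (Nat.sub_le d 1)
  have key : ∀ y ∈ fib (itr F 1) x,
      lam F d av x n - 2 * (Fintype.card ι : ℝ) ^ 2 * d ^ 2 * H / d ^ n ≤
        Av F d n (lg av (jac F)) y ∧
      Av F d n (lg av (jac F)) y ≤
        lam F d av x n + 2 * (Fintype.card ι : ℝ) ^ 2 * d ^ 2 * H / d ^ n := fun y hy => by
    obtain ⟨h1, h2⟩ := h.av_bd h.hm.jacob h.jac_ne n hy
    have h3 : lg av (jac F) y ≤ Fintype.card ι * d * H := by
      have := Real.log_le_log (h.loc2_pos hy h.jac_ne)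
        (h.jac_le fun a => h.tree_bd hy (Nat.zero_le 1) a)
      rwa [Real.log_exp] at this
    have h4 : th F av H 1 y ≤ 2 * Fintype.card ι * d * H := by
      simp only [th]
      rw [itr_one]
      have : (Fintype.card ι : ℝ) * H * 1 ≤ Fintype.card ι * H * d :=
        mul_le_mul_of_nonneg_left (by linarith) (by positivity)
      linarith
    have h5 : ((Fintype.card ι * (d - 1) : ℕ) : ℝ) * th F av H 1 y ≤
        2 * (Fintype.card ι : ℝ) ^ 2 * d ^ 2 * H := by
      have := mul_le_mul he h4 (h.t1 hy).2 (by positivity)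
      linarith
    have h6 : ((Fintype.card ι * (d - 1) : ℕ) : ℝ) * H ≤
        2 * (Fintype.card ι : ℝ) ^ 2 * d ^ 2 * H := by
      refine mul_le_mul_of_nonneg_right (he.trans ?_) hH
      have h7 : (d : ℝ) ≤ 2 * d ^ 2 := by nlinarith
      have := mul_le_mul hM h7 (by linarith) (by positivity)
      linarith
    have h8 := div_le_div_of_nonneg_right h5 hD.le
    have h9 := div_le_div_of_nonneg_right h6 hD.le
    simp only [lam]
    constructor <;> linarith
  have e : lam F d av x (n + 1) = Av F d 1 (Av F d n (lg av (jac F))) x := by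
    rw [lam, add_comm, h.av_add]
  have l1 := loc2_mono (d := d) fun y hy => (key y hy).1
  have l2 := loc2_mono (d := d) fun y hy => (key y hy).2
  rw [h.loc2_const h.loc2_root] at l1 l2
  rw [e, abs_le]
  constructor <;> linarith

/-- `lam (i + 1)` is the average over `y` at level one of `Av F d i (lg av (jac F)) y`, so by
`LS.av_bd` and `th F av H 1 y ≤ 2 M d H` consecutive terms differ by at most
`2 M ^ 2 d ^ 2 H / d ^ i`.  The limit `L` exists; it is nonnegative because
`0 ≤ Av F d s (th F av H s) x = M H + ∑ lam i` for all `s`. -/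
theorem LS.lyap (h : LS d F x av H) : ∃ L, IsLyap F d av x H L := by
  have hd : (2 : ℝ) ≤ d := by exact_mod_cast h.hd
  have hd0 : (0 : ℝ) < d := by linarith
  have hH := h.H0
  set C : ℝ := 2 * (Fintype.card ι : ℝ) ^ 2 * d ^ 2 * H with hC
  have hC0 : 0 ≤ C := by positivity
  have hr : (d : ℝ)⁻¹ ≤ 1 / 2 := by
    rw [one_div]
    exact inv_anti₀ two_pos hd
  have hr1 : (d : ℝ)⁻¹ < 1 := by linarith
  have hu : ∀ n, dist (lam F d av x n) (lam F d av x (n + 1)) ≤ C * (d : ℝ)⁻¹ ^ n := fun n => by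
    rw [dist_comm, Real.dist_eq, inv_pow, ← div_eq_mul_inv]
    exact h.loc2_step n
  obtain ⟨L, hL⟩ := cauchySeq_tendsto_of_complete (cauchySeq_of_le_geometric _ C hr1 hu)
  have hb : ∀ i, |lam F d av x i - L| ≤ 2 * C / d ^ i := fun i => by
    have h1 := dist_le_of_le_geometric_of_tendsto _ C hr1 hu hL i
    rw [Real.dist_eq, le_div_iff₀ (by linarith)] at h1
    have h2 := abs_nonneg (lam F d av x i - L)
    have h3 : 2 * C / d ^ i = 2 * (C * (d : ℝ)⁻¹ ^ i) := by
      rw [inv_pow, div_eq_mul_inv, mul_assoc]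
    rw [h3]
    nlinarith
  refine ⟨L, ?_, fun i => ?_⟩
  · have hs : ∀ s : ℕ, ∑ i ∈ Finset.Icc 1 s, lam F d av x i ≤
        s * L + 2 * C * (1 - (1 / 2) ^ s) := fun s => by
      induction s with
      | zero => simp
      | succ s ih =>
        rw [Finset.sum_Icc_succ_top (by omega)]
        have h1 := (abs_le.1 (hb (s + 1))).2
        have h2 : 2 * C / (d : ℝ) ^ (s + 1) ≤ 2 * C * (1 / 2) ^ (s + 1) := by
          rw [div_eq_mul_inv, ← inv_pow]
          exact mul_le_mul_of_nonneg_left (pow_le_pow_left₀ (by positivity) hr _) (by positivity)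
        have h3 : ((1 : ℝ) / 2) ^ s = 2 * (1 / 2) ^ (s + 1) := by
          rw [pow_succ]
          ring
        rw [h3] at ih
        push_cast
        linarith
    have h0 : ∀ s : ℕ, 0 ≤ th F av H 0 x + 2 * C + s * L := fun s => by
      have h1 := h.av_th h.loc2_root s
      have h2 : Av F d s (fun _ => 0) x ≤ Av F d s (th F av H (0 + s)) x :=
        loc2_mono fun z hz => (h.t1 (h.mem_add h.loc2_root hz)).2
      rw [h.loc2_const h.loc2_root, h1] at h2
      have h3 := hs s
      have h4 : 0 ≤ 2 * C * (1 / 2) ^ s := by positivity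
      simp only [lam] at h3
      linarith
    by_contra hneg
    have hneg' : 0 < -L := by linarith [not_le.1 hneg]
    obtain ⟨s, hs'⟩ := exists_nat_gt ((th F av H 0 x + 2 * C) / (-L))
    rw [div_lt_iff₀ hneg'] at hs'
    linarith [h0 s]
  · have h1 : 4 * (Fintype.card ι : ℝ) ^ 2 * d ^ 2 * H = 2 * C := by
      rw [hC]
      ring
    rw [h1]
    exact hb i

end Pool.Agent.Lib.MP_0dd0d9_ag.Hi
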