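import Mathlib

/-!
TASK gh Tree.  A martingale argument on a regular tree.
-/

namespace Pool.Agent.Lib.MP_0dd0d9_ag.Hi

/-- Write `P i f y = (∑ z ∈ ch i y, f z) / D ^ i`, `b r y = P (J - r) (θ J) y ≥ 0`,
`f t = min t (4 η)` and `a t = P (i t) (f ∘ b (i t)) x`.  Suppose the conclusion fails and
`η > 0`.  For every `y ∈ ch (i t) x`,
`P i (f ∘ b (i t + i)) y ≤ f (b (i t) y) - (4 η - θ (i t) y - b (i t) y) / D ^ i`
(if `θ ≤ 4 η` and `b ≤ 4 η` some descendant has `b > 8 η`; otherwise it follows from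
`P i (f ∘ b) ≤ min (P i b) (4 η)`).  Averaging, `a (t + 1) ≤ a t - 2 η / D ^ i`, while
`a 0 ≤ η` and `0 ≤ a R`.  If `η = 0` take `t = 0`, `y = x`. -/
theorem mart {S : Type} (ch : ℕ → S → Finset S) (D : ℕ) (hD : 1 ≤ D) (x : S)
    (h0 : ch 0 x = {x})
    (hcard : ∀ r i, ∀ y ∈ ch r x, (ch i y).card = D ^ i)
    (hmem : ∀ r i, ∀ y ∈ ch r x, ∀ z ∈ ch i y, z ∈ ch (r + i) x)
    (hcomp : ∀ i j y (f : S → ℝ), ∑ z ∈ ch (i + j) y, f z = ∑ w ∈ ch i y, ∑ z ∈ ch j w, f z)
    (θ : ℕ → S → ℝ) (hθ : ∀ r, ∀ y ∈ ch r x, 0 ≤ θ r y) (η : ℝ) (hη : 0 ≤ η) (J i R : ℕ)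
    (hJ : i * R ≤ J) (hR : D ^ i < 2 * R)
    (hav : ∀ r ≤ J, ∑ y ∈ ch r x, θ r y ≤ η * (D : ℝ) ^ r) :
    ∃ t < R, ∃ y ∈ ch (i * t) x, θ (i * t) y ≤ 4 * η ∧ ∀ z ∈ ch i y,
      ∑ w ∈ ch (J - (i * t + i)) z, θ J w ≤ 8 * η * (D : ℝ) ^ (J - (i * t + i)) := by
  have hD0 : (0 : ℝ) < D := by exact_mod_cast hD
  obtain ⟨b, hb⟩ : ∃ b : ℕ → S → ℝ, ∀ r y,
      b r y = (∑ w ∈ ch (J - r) y, θ J w) / (D : ℝ) ^ (J - r) := ⟨_, fun _ _ => rfl⟩
  have hb0 : ∀ r ≤ J, ∀ y ∈ ch r x, 0 ≤ b r y := fun r hr y hy => by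
    rw [hb]
    refine div_nonneg (Finset.sum_nonneg fun w hw => hθ J w ?_) (by positivity)
    have := hmem r _ y hy w hw
    rwa [Nat.add_sub_cancel' hr] at this
  have hb1 : ∀ r s y, r + s ≤ J → ∑ z ∈ ch s y, b (r + s) z = (D : ℝ) ^ s * b r y :=
    fun r s y h => by
      simp only [hb]
      have e : J - r = s + (J - (r + s)) := by omega
      rw [← Finset.sum_div, ← hcomp, e, pow_add]
      field_simp
  have hb2 : ∀ r ≤ J, ∑ y ∈ ch r x, b r y ≤ η * (D : ℝ) ^ r := fun r hr => by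
    have := hb1 0 r x (by omega)
    rw [zero_add] at this
    rw [this, hb, Nat.sub_zero, mul_comm]
    refine mul_le_mul_of_nonneg_right ?_ (by positivity)
    rw [div_le_iff₀ (by positivity)]
    exact hav J le_rfl
  have hR1 : 1 ≤ R := by
    have := Nat.one_le_pow i D hD
    omega
  have hle : ∀ t < R, i * t + i ≤ J := fun t ht =>
    le_trans (by rw [← Nat.mul_succ]; exact Nat.mul_le_mul_left i ht) hJ
  suffices h : ∃ t < R, ∃ y ∈ ch (i * t) x, θ (i * t) y ≤ 4 * η ∧ ∀ z ∈ ch i y,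
      b (i * t + i) z ≤ 8 * η by
    obtain ⟨t, ht, y, hy, h1, h2⟩ := h
    refine ⟨t, ht, y, hy, h1, fun z hz => ?_⟩
    have := h2 z hz
    rwa [hb, div_le_iff₀ (by positivity)] at this
  rcases hη.eq_or_lt with rfl | hη
  · have hx : x ∈ ch 0 x := by rw [h0]; exact Finset.mem_singleton_self x
    have hi : i ≤ J := by simpa using hle 0 hR1
    refine ⟨0, hR1, x, hx, ?_, fun z hz => ?_⟩
    · have := hav 0 (Nat.zero_le _)
      rw [h0, Finset.sum_singleton] at this
      simpa using this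
    · have h1 := hb2 i hi
      have h2 := Finset.single_le_sum (fun w hw => hb0 i hi w hw) hz
      simp only [Nat.mul_zero, zero_add]
      linarith
  by_contra hcon
  push Not at hcon
  have step : ∀ t < R, ∀ y ∈ ch (i * t) x, ∑ z ∈ ch i y, min (b (i * t + i) z) (4 * η) ≤
      (D : ℝ) ^ i * min (b (i * t) y) (4 * η) - (4 * η - θ (i * t) y - b (i * t) y) := by
    intro t ht y hy
    have hJt := hle t ht
    have a0 := hb0 (i * t) (by omega) y hy
    have a1 := hθ _ y hy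
    have a2 := hb1 (i * t) i y hJt
    by_cases c : θ (i * t) y ≤ 4 * η ∧ b (i * t) y ≤ 4 * η
    · obtain ⟨z, hz, hz'⟩ := hcon t ht y hy c.1
      have a3 : ∑ z ∈ ch i y, min (b (i * t + i) z) (4 * η) =
          ∑ z ∈ ch i y, b (i * t + i) z -
            ∑ z ∈ ch i y, (b (i * t + i) z - min (b (i * t + i) z) (4 * η)) := by
        rw [Finset.sum_sub_distrib]
        ring
      have a4 := Finset.single_le_sum
        (f := fun z => b (i * t + i) z - min (b (i * t + i) z) (4 * η))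
        (fun w _ => sub_nonneg.2 (min_le_left _ _)) hz
      have a5 := min_le_right (b (i * t + i) z) (4 * η)
      rw [a3, a2, min_eq_left c.2]
      linarith
    · have a3 : ∑ z ∈ ch i y, min (b (i * t + i) z) (4 * η) ≤
          (D : ℝ) ^ i * min (b (i * t) y) (4 * η) := by
        rw [mul_min_of_nonneg _ _ (by positivity), le_min_iff]
        constructor
        · rw [← a2]
          exact Finset.sum_le_sum fun z _ => min_le_left _ _
        · refine (Finset.sum_le_card_nsmul _ _ _ fun z _ => min_le_right _ _).trans_eq ?_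
          rw [hcard _ _ y hy, nsmul_eq_mul]
          push_cast
          rfl
      rw [not_and_or, not_le, not_le] at c
      rcases c with c | c <;> linarith
  have main : ∀ t ≤ R, ∑ y ∈ ch (i * t) x, min (b (i * t) y) (4 * η) ≤
      (η - 2 * η * t / (D : ℝ) ^ i) * (D : ℝ) ^ (i * t) := by
    intro t
    induction t with
    | zero =>
      intro _
      have := hb2 0 (Nat.zero_le _)
      simp only [Nat.cast_zero, mul_zero, zero_div, sub_zero]
      exact (Finset.sum_le_sum fun y _ => min_le_left _ _).trans this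
    | succ t ih =>
      intro ht
      have hJt := hle t ht
      have hx : x ∈ ch 0 x := by rw [h0]; exact Finset.mem_singleton_self x
      have a1 := ih (by omega)
      have a2 := Finset.sum_le_sum (step t ht)
      have a3 := hav (i * t) (by omega)
      have a4 := hb2 (i * t) (by omega)
      rw [Finset.sum_sub_distrib, Finset.sum_sub_distrib, Finset.sum_sub_distrib,
        ← Finset.mul_sum, Finset.sum_const, hcard 0 _ x hx, nsmul_eq_mul] at a2
      rw [Nat.mul_succ, hcomp]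
      refine a2.trans ?_
      have a5 := mul_le_mul_of_nonneg_left a1 (by positivity : (0 : ℝ) ≤ (D : ℝ) ^ i)
      have e : (η - 2 * η * ((t + 1 : ℕ) : ℝ) / (D : ℝ) ^ i) * (D : ℝ) ^ (i * t + i) =
          (D : ℝ) ^ i * ((η - 2 * η * t / (D : ℝ) ^ i) * (D : ℝ) ^ (i * t)) -
            2 * η * (D : ℝ) ^ (i * t) := by
        rw [pow_add]
        push_cast
        field_simp
        ring
      rw [e]
      push_cast
      linarith
  have a1 := main R le_rfl
  have a2 : 0 ≤ ∑ y ∈ ch (i * R) x, min (b (i * R) y) (4 * η) :=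
    Finset.sum_nonneg fun y hy => le_min (hb0 _ hJ y hy) (by linarith)
  have a3 : η < 2 * η * R / (D : ℝ) ^ i := by
    rw [lt_div_iff₀ (by positivity)]
    have : ((D : ℝ)) ^ i < 2 * R := by exact_mod_cast hR
    nlinarith
  have a4 : (η - 2 * η * R / (D : ℝ) ^ i) * (D : ℝ) ^ (i * R) < 0 :=
    mul_neg_of_neg_of_pos (by linarith) (by positivity)
  linarith

end Pool.Agent.Lib.MP_0dd0d9_ag.Hi
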