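import Pool.Agent.Lib.MP_0dd0d9_ag.Hi.Loc2
import Pool.Agent.Lib.MP_0dd0d9_ag.Hi.Tree

/-!
TASK gh Loc3.  A repelling cycle forces a positive Lyapunov exponent: the key estimate.
-/

namespace Pool.Agent.Lib.MP_0dd0d9_ag.Hi

open MvPolynomial

variable {ι : Type} [Fintype ι] [DecidableEq ι]
variable {K Ω : Type} [Field K] [CharZero K] [Field Ω] [Algebra K Ω] [IsAlgClosed Ω]
variable {d : ℕ} {F : ι → MvPolynomial ι K} {x : ι → Ω} {av : AbsoluteValue Ω ℝ} {H : ℝ}

omit [IsAlgClosed Ω] in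
/-- A root of a monic polynomial is bounded in terms of one coefficient. -/
theorem loc3_root (hna : IsNonarchimedean av) {P : Polynomial Ω} (hP : P.Monic) {a : Ω}
    (ha : a ≠ 0) (h0 : P.eval a = 0) :
    ∃ k, 1 ≤ k ∧ k ≤ P.natDegree ∧ av a ^ k ≤ av (P.coeff (P.natDegree - k)) := by
  rw [Polynomial.eval_eq_sum_range, Finset.sum_range_succ, hP.coeff_natDegree, one_mul] at h0
  have hpos : 0 < av a := av.pos ha
  have hne : (Finset.range P.natDegree).Nonempty := by
    rw [Finset.nonempty_range_iff]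
    intro h
    rw [h] at h0
    simp at h0
  obtain ⟨j, hj, hle⟩ := IsNonarchimedean.finset_image_add_of_nonempty hna
    (fun j => P.coeff j * a ^ j) hne
  have hj' := Finset.mem_range.1 hj
  have e : ∑ j ∈ Finset.range P.natDegree, P.coeff j * a ^ j = -a ^ P.natDegree :=
    eq_neg_of_add_eq_zero_left h0
  rw [e, av.map_neg, map_mul, map_pow, map_pow] at hle
  refine ⟨P.natDegree - j, by omega, by omega, ?_⟩
  rw [show P.natDegree - (P.natDegree - j) = j by omega]
  have e2 : av a ^ P.natDegree = av a ^ (P.natDegree - j) * av a ^ j := by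
    rw [← pow_add]
    exact congrArg _ (by omega)
  rw [e2] at hle
  exact le_of_mul_le_mul_right hle (pow_pos hpos j)

omit [IsAlgClosed Ω] in
/-- The coefficients of a split polynomial are bounded by powers of a bound for the roots. -/
theorem loc3_coeff (hna : IsNonarchimedean av) {S : Type} (T : Finset S) (f : S → Ω) {ρ : ℝ}
    (hρ : 0 ≤ ρ) (hf : ∀ t ∈ T, av (f t) ≤ ρ) (j : ℕ) :
    av ((∏ t ∈ T, (Polynomial.X - Polynomial.C (f t))).coeff j) ≤
      if j ≤ T.card then ρ ^ (T.card - j) else 0 := by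
  classical
  induction T using Finset.induction_on generalizing j with
  | empty =>
    rw [Finset.prod_empty, Polynomial.coeff_one]
    rcases j with _ | j <;> simp
  | insert a T ha ih =>
    have ih' := ih fun t ht => hf t (Finset.mem_insert_of_mem ht)
    have hfa := hf a (Finset.mem_insert_self a T)
    rw [Finset.prod_insert ha, Finset.card_insert_of_notMem ha, sub_mul, Polynomial.coeff_sub,
      Polynomial.coeff_C_mul]
    set Q := ∏ t ∈ T, (Polynomial.X - Polynomial.C (f t)) with hQ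
    have h2 : ∀ j, av (f a * Q.coeff j) ≤
        if j ≤ T.card + 1 then ρ ^ (T.card + 1 - j) else 0 := by
      intro j
      have h3 := ih' j
      rw [map_mul]
      by_cases hj : j ≤ T.card
      · rw [if_pos hj] at h3
        rw [if_pos (by omega), show T.card + 1 - j = T.card - j + 1 by omega, pow_succ']
        exact mul_le_mul hfa h3 (av.nonneg _) hρ
      · rw [if_neg hj] at h3
        rw [le_antisymm h3 (av.nonneg _), mul_zero]
        split_ifs
        · exact pow_nonneg hρ _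
        · exact le_rfl
    rcases j with _ | j
    · rw [Polynomial.coeff_X_mul_zero, zero_sub, av.map_neg]
      exact h2 0
    · rw [Polynomial.coeff_X_mul, sub_eq_add_neg]
      refine (hna _ _).trans (max_le ?_ ?_)
      · have h3 := ih' j
        by_cases hj : j ≤ T.card
        · rw [if_pos hj] at h3
          rw [if_pos (by omega), Nat.add_sub_add_right]
          exact h3
        · rw [if_neg hj] at h3
          rw [if_neg (by omega)]
          exact h3
      · rw [av.map_neg]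
        exact h2 (j + 1)

theorem loc3_geom {q : ℝ} (hq : 2 ≤ q) (a b : ℕ) :
    ∑ s ∈ Finset.Ioc a b, (q - 1) / q ^ s ≤ 1 / q ^ a := by
  have hq0 : 0 < q := by linarith
  have key : ∀ n, ∑ s ∈ Finset.Ioc a (a + n), (q - 1) / q ^ s = 1 / q ^ a - 1 / q ^ (a + n) := by
    intro n
    induction n with
    | zero => simp
    | succ n ih =>
      rw [← add_assoc, Finset.sum_Ioc_succ_top (by omega), ih, pow_succ]
      field_simp
      ring
  rcases le_total a b with h | h
  · obtain ⟨n, rfl⟩ := Nat.exists_eq_add_of_le h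
    rw [key]
    have : 0 < 1 / q ^ (a + n) := by positivity
    linarith
  · rw [Finset.Ioc_eq_empty (by omega), Finset.sum_empty]
    positivity

theorem loc3_geom2 {q c : ℝ} (hq : 2 ≤ q) (hc : 0 ≤ c) (a b : ℕ) :
    ∑ s ∈ Finset.Ioc a b, c / q ^ s ≤ c / q ^ a := by
  have hq0 : 0 < q := by linarith
  calc ∑ s ∈ Finset.Ioc a b, c / q ^ s ≤ ∑ s ∈ Finset.Ioc a b, c * ((q - 1) / q ^ s) := by
        refine Finset.sum_le_sum fun s _ => ?_
        rw [← mul_div_assoc]
        exact div_le_div_of_nonneg_right (le_mul_of_one_le_right hc (by linarith)) (by positivity)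
    _ = c * ∑ s ∈ Finset.Ioc a b, (q - 1) / q ^ s := by rw [Finset.mul_sum]
    _ ≤ c * (1 / q ^ a) := mul_le_mul_of_nonneg_left (loc3_geom hq a b) hc
    _ = c / q ^ a := by ring

theorem loc3_Icc (n : ℕ) : Finset.Icc 1 n = Finset.Ioc 0 n := by
  ext s
  simp only [Finset.mem_Icc, Finset.mem_Ioc]
  omega

theorem loc3_log_le {u c : ℝ} (hu : 0 ≤ u) (hc : 0 ≤ c) (h : u ≤ Real.exp c) :
    Real.log u ≤ c := by
  rcases hu.eq_or_lt with h0 | h0
  · rw [← h0, Real.log_zero]; exact hc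
  · exact (Real.log_le_iff_le_exp h0).2 h

omit [CharZero K] [IsAlgClosed Ω] in
theorem loc3_mult {m : ℕ} {Q : ι → Ω} (hQ : (ap F)^[m] Q = Q) (k : ℕ) :
    aeval Q (jac (itr F (m * k))) = aeval Q (jac (itr F m)) ^ k := by
  induction k with
  | zero => simp [jac_X]
  | succ k ih =>
    have hk : (ap F)^[m * k] Q = Q := by
      rw [Function.iterate_mul]
      exact Function.iterate_fixed hQ k
    rw [pow_succ, ← ih, aeval_jac_itr, aeval_jac_itr, aeval_jac_itr, Nat.mul_succ,
      Finset.prod_range_add]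
    refine congrArg _ (Finset.prod_congr rfl fun j _ => ?_)
    rw [add_comm, Function.iterate_add_apply, hk]

omit [Fintype ι] [DecidableEq ι] [CharZero K] [IsAlgClosed Ω] in
theorem loc3_lg_prod {y : ι → Ω} {A : MvPolynomial ι K} {N : ℕ → MvPolynomial ι K} {T : ℕ}
    {c : ℕ → ℕ} {S : Finset ℕ} (hA : aeval y A ≠ 0) (hN : ∀ s ∈ S, aeval y (N s) ≠ 0) :
    aeval y (A ^ T * ∏ s ∈ S, N s ^ c s) ≠ 0 ∧
      lg av (A ^ T * ∏ s ∈ S, N s ^ c s) y = T * lg av A y + ∑ s ∈ S, c s * lg av (N s) y := by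
  have h1 : ∀ s ∈ S, av (aeval y (N s)) ^ c s ≠ 0 := fun s hs =>
    pow_ne_zero _ (av.ne_zero (hN s hs))
  constructor
  · rw [map_mul, map_pow, map_prod]
    exact mul_ne_zero (pow_ne_zero _ hA)
      (Finset.prod_ne_zero_iff.2 fun s hs => by rw [map_pow]; exact pow_ne_zero _ (hN s hs))
  · simp only [lg, map_mul, map_pow, map_prod]
    rw [Real.log_mul (pow_ne_zero _ (av.ne_zero hA)) (Finset.prod_ne_zero_iff.2 h1),
      Real.log_prod h1, Real.log_pow]
    exact congrArg _ (Finset.sum_congr rfl fun s _ => Real.log_pow _ _)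

/-- Let `χ` be the characteristic polynomial (`FB.char`) with coefficients `e k`.  As `p z` is a
root of the monic polynomial `χ(F^i z)`, there is `k ≥ 1` with `|p z| ^ k ≤ |e k (F^i z)|`.  With
`d ^ i * n = k * e` (`FB.char_hom`), `bd_eval` and `LS.t2` bound this by
`|e k y| * exp (θ + H) ^ n`, and `|e k y| ≤ (max |p y'|) ^ k`. -/
theorem LS.shilov (h : LS d F x av H) {p : MvPolynomial ι K} {e : ℕ} (hp : p.IsHomogeneous e)
    (i : ℕ) {z : ι → Ω} (hz : ∀ a, av ((ap F)^[i] z a) ≤ Real.exp H) (hpz : aeval z p ≠ 0)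
    {r : ℕ} {y : ι → Ω} (hy : y ∈ fib (itr F r) x) :
    ∃ y' ∈ fib (itr F i) y, lg av p z ≤ lg av p y' + e * (th F av H r y + H) / d ^ i := by
  classical
  have hd1 : 1 ≤ d := le_trans (by norm_num) h.hd
  have hfb := h.dig.fb hd1 i
  obtain ⟨χ, hmon, hdeg, hev, hch, -, -⟩ := hfb.char p
  set w : ι → Ω := ap (itr F i) z with hw
  set P : Polynomial Ω := χ.map (aeval w : MvPolynomial ι K →ₐ[K] Ω).toRingHom with hP
  have hPm : P.Monic := hmon.map _
  have hPd : P.natDegree = Fintype.card (ι → Fin (d ^ i)) := by rw [hP, hmon.natDegree_map, hdeg]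
  have hroot : P.eval (aeval z p) = 0 := by
    have h1 := congrArg (aeval z : MvPolynomial ι K →ₐ[K] Ω).toRingHom hev
    rw [Polynomial.hom_eval₂, map_zero] at h1
    rw [hP, Polynomial.eval_map, ← h1]
    refine congrArg (fun φ => Polynomial.eval₂ φ (aeval z p) χ) (RingHom.ext fun g => ?_)
    exact (aeval_bind₁ z (itr F i) g).symm
  obtain ⟨k, hk1, hkn, hk⟩ := loc3_root h.na hPm hpz hroot
  rw [hPd] at hkn hk
  rw [hP, Polynomial.coeff_map] at hk
  have hapos : 0 < av (aeval z p) := av.pos hpz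
  have hq1 : 1 ≤ d ^ i := Nat.one_le_pow _ _ hd1
  rcases hfb.char_hom hq1 (h.hm.iter i) hp hch hkn with h0 | ⟨n, hn, hg⟩
  · rw [h0, map_zero, map_zero] at hk
    exact absurd hk (not_le.2 (pow_pos hapos k))
  set g := χ.coeff (Fintype.card (ι → Fin (d ^ i)) - k) with hgdef
  have hb : av (aeval w g) ≤ Real.exp (th F av H r y) ^ n * av (aeval y g) * Real.exp H ^ n :=
    bd_eval h.na hg (mul_nonneg (pow_nonneg (Real.exp_pos _).le _) (av.nonneg _))
      (Real.exp_pos _).le (fun α => h.t2 hy hg α) fun a => by rw [hw, ap_itr]; exact hz a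
  have hcard : (fib (itr F i) y).card = Fintype.card (ι → Fin (d ^ i)) :=
    hfb.card_eq (h.gen_tree hy)
  have hne : (fib (itr F i) y).Nonempty := by
    rw [← Finset.card_pos, hcard]; omega
  obtain ⟨y', hy', hmax⟩ := Finset.exists_max_image _ (fun t => av (aeval t p)) hne
  refine ⟨y', hy', ?_⟩
  have hc : av (aeval y g) ≤ av (aeval y' p) ^ k := by
    have h1 := loc3_coeff h.na (fib (itr F i) y) (fun t => aeval t p) (av.nonneg _) hmax
      (Fintype.card (ι → Fin (d ^ i)) - k)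
    rw [← hch Ω y (h.gen_tree hy), Polynomial.coeff_map, hcard, if_pos (by omega),
      show Fintype.card (ι → Fin (d ^ i)) - (Fintype.card (ι → Fin (d ^ i)) - k) = k by omega]
      at h1
    exact h1
  have hfin : av (aeval z p) ^ k ≤
      Real.exp (n * (th F av H r y + H)) * av (aeval y' p) ^ k := by
    refine le_trans hk (hb.trans ?_)
    rw [Real.exp_nat_mul, Real.exp_add, mul_pow, mul_right_comm]
    exact mul_le_mul_of_nonneg_left hc (by positivity)
  have hρ : 0 < av (aeval y' p) ^ k :=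
    (mul_pos_iff_of_pos_left (Real.exp_pos _)).1 (lt_of_lt_of_le (pow_pos hapos k) hfin)
  have hlog := Real.log_le_log (pow_pos hapos k) hfin
  rw [Real.log_mul (Real.exp_pos _).ne' hρ.ne', Real.log_exp, Real.log_pow, Real.log_pow] at hlog
  have hk0 : (0 : ℝ) < k := by exact_mod_cast hk1
  have hdi : (0 : ℝ) < (d : ℝ) ^ i := by
    have : (0 : ℝ) < d := by exact_mod_cast hd1
    positivity
  have hn' : (n : ℝ) = k * e / (d : ℝ) ^ i := by
    rw [eq_div_iff hdi.ne', mul_comm]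
    exact_mod_cast hn
  rw [hn'] at hlog
  refine le_of_mul_le_mul_left ?_ hk0
  unfold lg
  refine hlog.trans (le_of_eq ?_)
  ring

/-- The martingale lemma `mart` for `ch i y = fib (itr F i) y`, `D = d ^ M`, `η = β H`; the
averages are bounded by `LS.av_th` and `IsLyap`. -/
theorem LS.node (h : LS d F x av H) {L : ℝ} (hL : IsLyap F d av x H L) (J i R : ℕ)
    (hJ : i * R ≤ J) (hR : (d ^ Fintype.card ι) ^ i < 2 * R) (hLJ : J * L ≤ H) {β : ℝ}
    (hβ : β = Fintype.card ι + 1 + 4 * (Fintype.card ι : ℝ) ^ 2 * d ^ 2) :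
    ∃ r, r + i ≤ i * R ∧ ∃ y ∈ fib (itr F r) x, th F av H r y ≤ 4 * β * H ∧
      ∀ z ∈ fib (itr F i) y, Av F d (J - (r + i)) (th F av H J) z ≤ 8 * β * H := by
  have hd1 : 1 ≤ d := le_trans (by norm_num) h.hd
  have hd2 : (2 : ℝ) ≤ d := by exact_mod_cast h.hd
  have hd0 : (0 : ℝ) < d := by linarith
  have hH := h.H0
  have hβ0 : 0 ≤ β := by rw [hβ]; positivity
  have hx : x ∈ fib (itr F 0) x := by rw [h.fib_zero]; exact Finset.mem_singleton_self x
  have hpw : ∀ r : ℕ, (((d ^ Fintype.card ι : ℕ) : ℝ)) ^ r = ((d : ℝ) ^ r) ^ Fintype.card ι :=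
    fun r => by rw [Nat.cast_pow, ← pow_mul, ← pow_mul, mul_comm]
  have hav : ∀ r ≤ J, ∑ y ∈ fib (itr F r) x, th F av H r y ≤
      β * H * ((d ^ Fintype.card ι : ℕ) : ℝ) ^ r := by
    intro r hr
    have h1 := h.av_th hx r
    rw [zero_add] at h1
    have h2 : th F av H 0 x = Fintype.card ι * H := by
      simp [th, lg, jac_X]
    have h3 : ∑ s ∈ Finset.Icc 1 r, Av F d s (lg av (jac F)) x ≤
        ∑ s ∈ Finset.Icc 1 r, (L + 4 * (Fintype.card ι : ℝ) ^ 2 * d ^ 2 * H / d ^ s) :=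
      Finset.sum_le_sum fun s _ => by
        have := (abs_le.1 (hL.2 s)).2
        unfold lam at this
        linarith
    have h4 := loc3_geom2 hd2 (show 0 ≤ 4 * (Fintype.card ι : ℝ) ^ 2 * d ^ 2 * H by positivity)
      0 r
    rw [Finset.sum_add_distrib, Finset.sum_const, Nat.card_Icc, nsmul_eq_mul, loc3_Icc] at h3
    rw [pow_zero, div_one] at h4
    have h5 : ((r + 1 - 1 : ℕ) : ℝ) * L ≤ H := by
      refine le_trans (mul_le_mul_of_nonneg_right ?_ hL.1) hLJ
      exact_mod_cast hr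
    rw [loc3_Icc] at h1
    have h6 : Av F d r (th F av H r) x ≤ β * H := by
      rw [h1, h2, hβ]
      linarith
    rw [Av, div_le_iff₀ (by positivity)] at h6
    rw [hpw]
    exact h6
  obtain ⟨t, ht, y, hy, hth, hz⟩ := mart (fun i y => fib (itr F i) y) (d ^ Fintype.card ι)
    (Nat.one_le_pow _ _ hd1) x (h.fib_zero x) (fun r i y hy => h.card_fib hy i)
    (fun r i y hy z hz => h.mem_add hy hz) (fun i j y f => h.dig.sum_fib_add hd1 i j y f)
    (th F av H) (fun r y hy => (h.t1 hy).2) (β * H) (mul_nonneg hβ0 hH) J i R hJ hR hav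
  refine ⟨i * t, ?_, y, hy, by linarith, fun z hz' => ?_⟩
  · rw [← Nat.mul_succ]
    exact Nat.mul_le_mul_left i ht
  · have h7 := hz z hz'
    rw [hpw] at h7
    rw [Av, div_le_iff₀ (by positivity)]
    linarith

/-- Let `i = m k + M`, `y` the node of `LS.node`, `T = (d ^ i0) ^ M` and
`p = jac (itr F (m k)) ^ T * ∏ N s ^ ((d ^ (i0 - s)) ^ M)`, a form of degree at most
`T * M * d ^ (m k)`.  Apply `LS.shilov` with `z = Q` (`LS.per_bd`; the multiplier of `itr F (m k)`
is the `k`-th power, `aeval_jac_itr`); the error is at most `(4 β + 1) H` after division by `T`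
because `M ≤ d ^ M`.  At the point `y'` obtained, `lg (jac (itr F (m k))) y' ≤ th (r + i) y'`
(`LS.th_add`, `LS.t1`), and by `LS.av_th`, `LS.av_nrm` the remaining difference with
`Av (J - (r + i)) (th J) y'` is the tail `∑ s > i0`, each term being at least
`-(M d * th (r + i) y' + 4 M ^ 2 d ^ 2 H) / d ^ s` (`LS.av_bd`, `IsLyap`), where
`th (r + i) y' ≤ (4 β + i M d) H` (`LS.jac_le`). -/
theorem LS.key (h : LS d F x av H) {L : ℝ} (hL : IsLyap F d av x H L) {m : ℕ} (hm : 1 ≤ m)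
    (k i0 R J : ℕ) {Q : ι → Ω} (hQ : (ap F)^[m] Q = Q) (hμ : aeval Q (jac (itr F m)) ≠ 0)
    (N : ℕ → MvPolynomial ι K)
    (hN : ∀ s ∈ Finset.Icc 1 i0, IsNrm (itr F s) (jac F) (N s) ∧ aeval Q (N s) ≠ 0) {β : ℝ}
    (hβ : β = Fintype.card ι + 1 + 4 * (Fintype.card ι : ℝ) ^ 2 * d ^ 2)
    (hR : (d ^ Fintype.card ι) ^ (m * k + Fintype.card ι) < 2 * R)
    (hJ : (m * k + Fintype.card ι) * R + i0 ≤ J)
    (hi0 : Fintype.card ι * d * (4 * β + (m * k + Fintype.card ι) * (Fintype.card ι * d)) +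
      4 * (Fintype.card ι : ℝ) ^ 2 * d ^ 2 ≤ (d : ℝ) ^ i0)
    (hLJ : J * L ≤ H) :
    k * lg av (jac (itr F m)) Q +
      ∑ s ∈ Finset.Icc 1 i0, lg av (N s) Q / ((d : ℝ) ^ s) ^ Fintype.card ι ≤
        (12 * β + 2) * H := by
  classical
  have hd1 : 1 ≤ d := le_trans (by norm_num) h.hd
  have hd2 : (2 : ℝ) ≤ d := by exact_mod_cast h.hd
  have hd0 : (0 : ℝ) < d := by linarith
  have hH := h.H0
  have hβ0 : 0 ≤ β := by rw [hβ]; positivity
  set M := Fintype.card ι with hM
  set i := m * k + M with hi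
  obtain ⟨r, hr, y, hy, hth, hnode⟩ := h.node hL J i R (by omega) hR hLJ hβ
  have hjh : (jac F).IsHomogeneous (M * (d - 1)) := h.hm.jacob
  have hdeg : ∀ s ∈ Finset.Icc 1 i0, ∃ n, d ^ s * n = (d ^ s) ^ M * (M * (d - 1)) ∧
      (N s).IsHomogeneous n := by
    intro s hs
    obtain ⟨N', h1, -, ⟨n, hn, hN'⟩, -⟩ := (h.dig.fb hd1 s).nrm (Nat.one_le_pow _ _ hd1)
      (h.hm.iter s) hjh h.jac_ne
    rw [Fintype.card_fun, Fintype.card_fin] at hn
    exact ⟨n, hn, (hN s hs).1.unique h1 ▸ hN'⟩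
  choose! n hn using hdeg
  set T : ℕ := (d ^ i0) ^ M with hT
  set c : ℕ → ℕ := fun s => (d ^ (i0 - s)) ^ M with hc
  set A := jac (itr F (m * k)) with hA
  have hAh : A.IsHomogeneous (M * (d ^ (m * k) - 1)) := (h.hm.iter (m * k)).jacob
  have hph : (A ^ T * ∏ s ∈ Finset.Icc 1 i0, N s ^ c s).IsHomogeneous
      (M * (d ^ (m * k) - 1) * T + ∑ s ∈ Finset.Icc 1 i0, n s * c s) :=
    (hAh.pow T).mul (IsHomogeneous.prod _ _ _ fun s hs => (hn s hs).2.pow _)
  have hT0 : (0 : ℝ) < T := by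
    rw [hT]; push_cast; positivity
  have hcs : ∀ s ∈ Finset.Icc 1 i0, (c s : ℝ) = T / ((d : ℝ) ^ s) ^ M := by
    intro s hs
    rw [eq_div_iff (by positivity), hc, hT]
    push_cast
    rw [← mul_pow, ← pow_add, Nat.sub_add_cancel (Finset.mem_Icc.1 hs).2]
  have hns : ∀ s ∈ Finset.Icc 1 i0,
      (n s : ℝ) * c s = T * M * (((d : ℝ) - 1) / (d : ℝ) ^ s) := by
    intro s hs
    have h1 : (d : ℝ) ^ s * n s = ((d : ℝ) ^ s) ^ M * (M * ((d : ℝ) - 1)) := by
      have := congrArg (Nat.cast : ℕ → ℝ) (hn s hs).1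
      push_cast [Nat.cast_sub hd1] at this
      exact this
    have h2 : (n s : ℝ) = ((d : ℝ) ^ s) ^ M * (M * ((d : ℝ) - 1)) / (d : ℝ) ^ s := by
      rw [eq_div_iff (by positivity), mul_comm, h1]
    rw [hcs s hs, h2]
    field_simp
  have he : ((M * (d ^ (m * k) - 1) * T + ∑ s ∈ Finset.Icc 1 i0, n s * c s : ℕ) : ℝ) ≤
      T * (d : ℝ) ^ i := by
    have h1 : ∑ s ∈ Finset.Icc 1 i0, (n s : ℝ) * c s ≤ T * M := by
      rw [Finset.sum_congr rfl hns, ← Finset.mul_sum, loc3_Icc]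
      have := loc3_geom hd2 0 i0
      rw [pow_zero, div_one] at this
      exact mul_le_of_le_one_right (by positivity) this
    have h2 : (M : ℝ) ≤ (d : ℝ) ^ M := by
      exact_mod_cast (Nat.lt_pow_self (lt_of_lt_of_le one_lt_two h.hd)).le
    have h3 : (T : ℝ) * M * (d : ℝ) ^ (m * k) ≤ T * (d : ℝ) ^ i := by
      rw [hi, pow_add, mul_assoc, mul_comm ((d : ℝ) ^ (m * k))]
      exact mul_le_mul_of_nonneg_left (mul_le_mul_of_nonneg_right h2 (by positivity)) hT0.le
    push_cast [Nat.cast_sub (Nat.one_le_pow (m * k) d hd1)]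
    linarith
  have hAQ : aeval Q A = aeval Q (jac (itr F m)) ^ k := loc3_mult hQ k
  obtain ⟨hpQ, hlQ⟩ := loc3_lg_prod (av := av) (T := T) (c := c) (S := Finset.Icc 1 i0)
    (show aeval Q A ≠ 0 by rw [hAQ]; exact pow_ne_zero _ hμ) fun s hs => (hN s hs).2
  obtain ⟨y', hy', hsh⟩ := h.shilov hph i (h.per_bd hm hQ i) hpQ hy
  have hy'x : y' ∈ fib (itr F (r + i)) x := h.mem_add hy hy'
  have hgen := h.gen_tree hy'x
  have hnz : ∀ g : MvPolynomial ι K, aeval Q g ≠ 0 → aeval y' g ≠ 0 := fun g hg h0 =>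
    hg (by rw [hgen.eq_zero_of_aeval_eq_zero g h0, map_zero])
  obtain ⟨-, hly⟩ := loc3_lg_prod (av := av) (T := T) (c := c) (S := Finset.Icc 1 i0)
    (hnz A (by rw [hAQ]; exact pow_ne_zero _ hμ)) fun s hs => hnz _ (hN s hs).2
  have hθ0 := (h.t1 hy).2
  have herr : ((M * (d ^ (m * k) - 1) * T + ∑ s ∈ Finset.Icc 1 i0, n s * c s : ℕ) : ℝ) *
      (th F av H r y + H) / (d : ℝ) ^ i ≤ T * ((4 * β + 1) * H) := by
    rw [div_le_iff₀ (by positivity)]
    calc _ ≤ (T * (d : ℝ) ^ i) * ((4 * β + 1) * H) :=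
          mul_le_mul he (by linarith) (by linarith) (by positivity)
      _ = _ := by ring
  have hdiv : ∀ u : ι → Ω, ∑ s ∈ Finset.Icc 1 i0, (c s : ℝ) * lg av (N s) u =
      T * ∑ s ∈ Finset.Icc 1 i0, lg av (N s) u / ((d : ℝ) ^ s) ^ M := fun u => by
    rw [Finset.mul_sum]
    refine Finset.sum_congr rfl fun s hs => ?_
    rw [hcs s hs]
    ring
  have hlA : lg av A Q = k * lg av (jac (itr F m)) Q := by
    rw [lg, lg, hAQ, map_pow, Real.log_pow]
  have step1 : k * lg av (jac (itr F m)) Q +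
      ∑ s ∈ Finset.Icc 1 i0, lg av (N s) Q / ((d : ℝ) ^ s) ^ M ≤
      lg av A y' + ∑ s ∈ Finset.Icc 1 i0, Av F d s (lg av (jac F)) y' + (4 * β + 1) * H := by
    rw [Finset.sum_congr rfl fun s hs => h.av_nrm h.jac_ne (hN s hs).1 hy'x]
    rw [hlQ, hly, hdiv, hdiv, hlA] at hsh
    refine le_of_mul_le_mul_left ?_ hT0
    linarith
  have hA' : lg av A y' ≤ th F av H (r + i) y' := by
    have h1 : (ap F)^[m * k] y' ∈ fib (itr F (r + M)) x := by
      rw [h.dig.mem_fib hd1, ← Function.iterate_add_apply, ← (h.dig.mem_fib hd1).1 hy'x]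
      exact congrArg (fun t => (ap F)^[t] y') (by omega)
    have h2 := h.th_add h1 ((h.dig.mem_fib hd1).2 rfl : y' ∈ fib (itr F (m * k)) _)
    rw [show r + M + m * k = r + i by omega] at h2
    linarith [(h.t1 h1).2]
  have hθ' : th F av H (r + i) y' ≤ (4 * β + i * (M * d)) * H := by
    have h1 : lg av (jac (itr F i)) y' ≤ i * (M * d * H) := by
      refine loc3_log_le (av.nonneg _) (by positivity) ?_
      rw [aeval_jac_itr, map_prod, Real.exp_nat_mul]
      calc ∏ j ∈ Finset.range i, av (aeval ((ap F)^[j] y') (jac F))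
          ≤ ∏ _j ∈ Finset.range i, Real.exp (M * d * H) :=
            Finset.prod_le_prod (fun j _ => av.nonneg _) fun j hj =>
              h.jac_le (h.tree_bd hy'x (by have := Finset.mem_range.1 hj; omega))
        _ = _ := by rw [Finset.prod_const, Finset.card_range]
    rw [h.th_add hy hy']
    linarith
  have hθ'0 := (h.t1 hy'x).2
  have hS := h.av_th hy'x (J - (r + i))
  rw [show r + i + (J - (r + i)) = J by omega, loc3_Icc,
    ← Finset.sum_Ioc_consecutive _ (Nat.zero_le i0) (show i0 ≤ J - (r + i) by omega),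
    ← loc3_Icc] at hS
  set E : ℝ := M * d * th F av H (r + i) y' + 4 * (M : ℝ) ^ 2 * d ^ 2 * H with hE
  have hE0 : 0 ≤ E := by positivity
  have htail : -(E / (d : ℝ) ^ i0) ≤
      ∑ s ∈ Finset.Ioc i0 (J - (r + i)), Av F d s (lg av (jac F)) y' := by
    refine le_trans (neg_le_neg (loc3_geom2 hd2 hE0 i0 (J - (r + i)))) ?_
    rw [← Finset.sum_neg_distrib]
    refine Finset.sum_le_sum fun s _ => ?_
    have h1 := (h.av_bd hjh h.jac_ne s hy'x).1
    have h2 := (abs_le.1 (hL.2 s)).1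
    have h3 : ((M * (d - 1) : ℕ) : ℝ) * th F av H (r + i) y' / (d : ℝ) ^ s ≤
        M * d * th F av H (r + i) y' / (d : ℝ) ^ s := by
      refine div_le_div_of_nonneg_right (mul_le_mul_of_nonneg_right ?_ hθ'0) (by positivity)
      exact_mod_cast Nat.mul_le_mul_left M (Nat.sub_le d 1)
    unfold lam at h2
    rw [hE, add_div]
    linarith [hL.1]
  have hEH : E / (d : ℝ) ^ i0 ≤ H := by
    rw [div_le_iff₀ (by positivity), hE]
    have h1 := mul_le_mul_of_nonneg_left hθ' (show (0 : ℝ) ≤ M * d by positivity)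
    have h2 := mul_le_mul_of_nonneg_left hi0 hH
    have h3 : (i : ℝ) = m * k + M := by rw [hi]; push_cast; ring
    rw [h3] at h1
    linarith
  have h8 := hnode y' hy'
  linarith

end Pool.Agent.Lib.MP_0dd0d9_ag.Hi
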