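import Pool.Agent.Lib.MP_0dd0d9_ag.Hi.Lift

/-!
TASK gh Pow.  Maps that reduce to the power map.

Use `reg_near` (with `Fp_cpow`, `reg_pw`) to get a model `Fp cO` over `O`; its image over the
residue field is the power map (`map_Fp`, `map_itr`, `itr_pw`), so that all coefficients of
`itr (Fp c) n a - X a ^ d ^ n` have valuation `< 1`.
-/

namespace Pool.Agent.Lib.MP_0dd0d9_ag.Hi

open MvPolynomial

variable {ι : Type} [Fintype ι] [DecidableEq ι] {d : ℕ}
variable {Ω : Type} [Field Ω] [Algebra ℂ Ω] {O : ValuationSubring Ω} {c : ι × Mn ι d → Ω}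

theorem pow_model (hO : CO ℂ O) (hc : Near O c (cpow ℂ)) :
    ∃ cO : ι × Mn ι d → O, (fun a => map O.subtype (Fp cO a)) = Fp c ∧ Reg (Fp cO) ∧
      (fun a => map (IsLocalRing.residue O) (Fp cO a)) = pw (IsLocalRing.ResidueField O) d := by
  obtain ⟨cO, h1, h2⟩ := reg_near hO hc (by rw [Fp_cpow]; exact reg_pw d)
  refine ⟨cO, ?_, h2, ?_⟩
  · funext a
    rw [map_Fp]
    exact congrArg (fun t => Fp t a) (funext h1)
  · funext a
    rw [map_Fp, ← Fp_cpow, ← map_cpow (IsLocalRing.residue O)]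
    refine congrArg (fun t => Fp t a) (funext fun x => ?_)
    simp only [Function.comp]
    rw [← sub_eq_zero, ← map_sub, IsLocalRing.residue_eq_zero_iff, O.valuation_lt_one_iff]
    have e1 : ((cpow O x : O) : Ω) = cpow Ω x := congrFun (map_cpow O.subtype) x
    have e2 : algebraMap ℂ Ω (cpow ℂ x) = cpow Ω x := congrFun (map_cpow (algebraMap ℂ Ω)) x
    have := hc x
    rw [e2] at this
    rwa [AddSubgroupClass.coe_sub, h1, e1]

omit [Fintype ι] [DecidableEq ι] [Algebra ℂ Ω] in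
theorem pow_small {P : MvPolynomial ι O} (h : map (IsLocalRing.residue O) P = 0) (α : ι →₀ ℕ) :
    O.valuation (coeff α (map O.subtype P)) < 1 := by
  rw [coeff_map]
  refine (O.valuation_lt_one_iff _).1 ?_
  rw [← IsLocalRing.residue_eq_zero_iff, ← coeff_map, h, coeff_zero]

omit [Fintype ι] [DecidableEq ι] [Algebra ℂ Ω] in
theorem pow_lip {y y' : ι → Ω} (hy : ∀ a, y a ∈ O) (hy' : ∀ a, y' a ∈ O) {r : O.ValueGroup}
    (hr : ∀ a, O.valuation (y a - y' a) ≤ r) (P : MvPolynomial ι ℤ) :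
    O.valuation (aeval y P) ≤ 1 ∧ O.valuation (aeval y P - aeval y' P) ≤ r := by
  induction P using MvPolynomial.induction_on with
  | C a => exact ⟨(O.valuation_le_one_iff _).2 (by simp), by simp⟩
  | add p q hp hq =>
    simp only [map_add]
    refine ⟨O.valuation.map_add_le hp.1 hq.1, ?_⟩
    rw [add_sub_add_comm]
    exact O.valuation.map_add_le hp.2 hq.2
  | mul_X p i hp =>
    simp only [map_mul, aeval_X]
    refine ⟨mul_le_one' hp.1 ((O.valuation_le_one_iff _).2 (hy i)), ?_⟩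
    have e : aeval y p * y i - aeval y' p * y' i =
        aeval y p * (y i - y' i) + (aeval y p - aeval y' p) * y' i := by ring
    rw [e]
    refine O.valuation.map_add_le ?_ ?_
    · rw [map_mul]
      exact (mul_le_mul' hp.1 (hr i)).trans_eq (one_mul r)
    · rw [map_mul]
      exact (mul_le_mul' hp.2 ((O.valuation_le_one_iff _).2 (hy' i))).trans_eq (mul_one r)

omit [Fintype ι] [DecidableEq ι] [Algebra ℂ Ω] in
theorem pow_expand (p : MvPolynomial ι Ω) (y : ι → Ω) :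
    aeval y p = ∑ α ∈ p.support, coeff α p * aeval y (monomial α (1 : ℤ)) := by
  conv_lhs => rw [p.as_sum]
  rw [map_sum]
  refine Finset.sum_congr rfl fun α _ => ?_
  simp [aeval_monomial]

omit [Algebra ℂ Ω] in
theorem pow_mul_lt {x r t : O.ValueGroup} (hx : x < 1) (ht : t ≤ r) (hr : r ≠ 0) : x * t < r :=
  (mul_le_mul_right ht x).trans_lt (mul_lt_of_lt_one_left (zero_lt_iff.2 hr) hx)

omit [Fintype ι] [DecidableEq ι] [Algebra ℂ Ω] in
theorem pow_eval_lt {p : MvPolynomial ι Ω} (hp : ∀ α, O.valuation (coeff α p) < 1) {y : ι → Ω}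
    (hy : ∀ a, y a ∈ O) : O.valuation (aeval y p) < 1 := by
  rw [pow_expand]
  refine O.valuation.map_sum_lt one_ne_zero fun α _ => ?_
  rw [map_mul]
  exact pow_mul_lt (hp α) (pow_lip hy hy (r := 0) (by simp) _).1 one_ne_zero

omit [Fintype ι] [DecidableEq ι] [Algebra ℂ Ω] in
theorem pow_eval_mem {p : MvPolynomial ι Ω} (hp : ∀ α, coeff α p ∈ O) {y : ι → Ω}
    (hy : ∀ a, y a ∈ O) : aeval y p ∈ O := by
  rw [pow_expand]
  refine sum_mem fun α _ => mul_mem (hp α) ?_
  exact (O.valuation_le_one_iff _).1 (pow_lip hy hy (r := 0) (by simp) _).1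

omit [Fintype ι] [DecidableEq ι] [Algebra ℂ Ω] in
theorem pow_diff_lt {p : MvPolynomial ι Ω} (hp : ∀ α, O.valuation (coeff α p) < 1) {y y' : ι → Ω}
    (hy : ∀ a, y a ∈ O) (hy' : ∀ a, y' a ∈ O) {r : O.ValueGroup} (h0 : r ≠ 0)
    (hr : ∀ a, O.valuation (y a - y' a) ≤ r) : O.valuation (aeval y p - aeval y' p) < r := by
  rw [pow_expand p y, pow_expand p y', ← Finset.sum_sub_distrib]
  refine O.valuation.map_sum_lt h0 fun α _ => ?_
  rw [← mul_sub, map_mul]
  exact pow_mul_lt (hp α) (pow_lip hy hy' hr _).2 h0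

theorem pow_two_le (hd : 2 ≤ d) {n : ℕ} (hn : 1 ≤ n) : 2 ≤ d ^ n :=
  hd.trans (Nat.le_self_pow (by omega) d)

theorem pow_ne {q : ℕ} (hq : 2 ≤ q) {z : ℂ} (hz : z ^ q = z) : 1 - (q : ℂ) * z ^ (q - 1) ≠ 0 := by
  by_cases h0 : z = 0
  · rw [h0, zero_pow (by omega)]
    simp
  · have h1 : z ^ (q - 1) = 1 := by
      apply mul_right_cancel₀ h0
      rw [← pow_succ, Nat.sub_add_cancel (by omega), hz, one_mul]
    rw [h1, mul_one, sub_ne_zero]
    intro h
    have : 1 = q := by exact_mod_cast h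
    omega

theorem pw_coeff (hO : CO ℂ O) (hc : Near O c (cpow ℂ)) (n : ℕ) (a : ι) (α : ι →₀ ℕ) :
    O.valuation (coeff α (itr (Fp c) n a - X a ^ d ^ n)) < 1 := by
  obtain ⟨cO, h1, -, h3⟩ := pow_model hO hc
  have := pow_small (P := itr (Fp cO) n a - X a ^ d ^ n)
    (by rw [map_sub, map_itr, h3, itr_pw]; simp [pw]) α
  rwa [map_sub, map_itr, h1, map_pow, map_X] at this

theorem pw_near (hO : CO ℂ O) (hc : Near O c (cpow ℂ)) {y : ι → Ω} (hy : ∀ a, y a ∈ O) (n : ℕ)
    (a : ι) : O.valuation ((ap (Fp c))^[n] y a - y a ^ d ^ n) < 1 := by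
  have := pow_eval_lt (pw_coeff hO hc n a) hy
  rw [map_sub, map_pow, aeval_X] at this
  rw [← ap_itr]
  exact this

/-- `Reg.isIntegral_pt`; `O` is integrally closed in `Ω`. -/
theorem pw_int (hd : 2 ≤ d) (hO : CO ℂ O) (hc : Near O c (cpow ℂ)) {y : ι → Ω} {n : ℕ}
    (hy : ∀ a, (ap (Fp c))^[n] y a ∈ O) (a : ι) : y a ∈ O := by
  obtain ⟨cO, h1, h2, -⟩ := pow_model hO hc
  have e : (ap (Fp c) : (ι → Ω) → ι → Ω) = ap (Fp cO) := by
    funext y
    rw [← h1]
    exact ap_map (Fp cO) y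
  have h := Reg.isIntegral_pt (S := Ω) (G := itr (Fp cO) n) (y := y) (h2.iter n)
    ((Fp_hm cO).iter n) (fun a => by simpa using pow_pos (by omega) n) (fun a => by
      rw [ap_itr, ← e]
      exact isIntegral_algebraMap (x := (⟨_, hy a⟩ : O))) a
  obtain ⟨t, ht⟩ := IsIntegrallyClosed.isIntegral_iff.1 h
  rw [← ht]
  exact t.2

theorem pw_unit (hd : 2 ≤ d) (hO : CO ℂ O) (hc : Near O c (cpow ℂ)) {y : ι → Ω} {n : ℕ}
    (hy : ∀ a, O.valuation ((ap (Fp c))^[n] y a) = 1) (a : ι) : O.valuation (y a) = 1 := by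
  have h1 := pw_int hd hO hc fun a => (O.valuation_le_one_iff _).1 (hy a).le
  have h2 := pw_near hO hc h1 n a
  rw [O.valuation.map_sub_swap, ← hy a] at h2
  have h3 := O.valuation.map_eq_of_sub_lt h2
  rw [hy a, map_pow] at h3
  exact (pow_eq_one_iff_of_nonneg zero_le (pow_pos (by omega : 0 < d) n).ne').1 h3

/-- The Jacobian reduces to `∏ a, d * y a ^ (d - 1)`. -/
theorem jac_unit (hd : 2 ≤ d) (hO : CO ℂ O) (hc : Near O c (cpow ℂ)) {y : ι → Ω}
    (hy : ∀ a, O.valuation (y a) = 1) : O.valuation (aeval y (jac (Fp c))) = 1 := by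
  obtain ⟨cO, h1, -, h3⟩ := pow_model hO hc
  have hs := fun α => pow_small (P := jac (Fp cO) - jac (pw O d))
    (by rw [map_sub, map_jac, map_jac, h3]; simp only [map_pw, sub_self]) α
  have h4 := pow_eval_lt hs fun a => (O.valuation_le_one_iff _).1 (hy a).le
  rw [map_sub, map_jac, map_jac, h1, map_sub] at h4
  simp only [map_pw] at h4
  have e : jm (pw Ω d : ι → MvPolynomial ι Ω) =
      Matrix.diagonal fun a => (d : MvPolynomial ι Ω) * X a ^ (d - 1) := by
    ext a b : 2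
    by_cases h : a = b
    · subst h
      simp [jm, pw]
    · simp [jm, pw, h]
  have hdv : O.valuation (d : Ω) = 1 := by
    have := hO.val_eq_one (a := (d : ℂ)) (Nat.cast_ne_zero.2 (by omega))
    rwa [map_natCast] at this
  have h5 : O.valuation (aeval y (jac (pw Ω d))) = 1 := by
    rw [jac, e, Matrix.det_diagonal, map_prod, map_prod]
    refine Finset.prod_eq_one fun a _ => ?_
    simp [hdv, hy a]
  rw [← h5] at h4 ⊢
  exact O.valuation.map_eq_of_sub_lt h4

theorem sol_int (hd : 2 ≤ d) (hO : CO ℂ O) (hc : Near O c (cpow ℂ)) {n : ℕ} (hn : 1 ≤ n)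
    {Z : ι → Ω} (hZ : (ap (Fp c))^[n] Z = Z) (a : ι) : Z a ∈ O := by
  obtain ⟨cO, h1, h2, -⟩ := pow_model hO hc
  have e : (ap (Fp c) : (ι → Ω) → ι → Ω) = ap (Fp cO) := by
    funext y
    rw [← h1]
    exact ap_map (Fp cO) y
  rw [e] at hZ
  obtain ⟨t, ht⟩ := IsIntegrallyClosed.isIntegral_iff.1 (per_integral hd hn h2 (Fp_hm cO) hZ a)
  rw [← ht]
  exact t.2

theorem pow_root (hO : CO ℂ O) {q : ℕ} (hq : 2 ≤ q) {x : Ω} (hx : x ∈ O)
    (h : O.valuation (x - x ^ q) < 1) :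
    ∃ z : ℂ, z ^ q = z ∧ O.valuation (x - algebraMap ℂ Ω z) < 1 := by
  have hm : (Polynomial.X ^ q - Polynomial.X : Polynomial ℂ).Monic := by
    refine Polynomial.Monic.sub_of_left (Polynomial.monic_X_pow q) ?_
    rw [Polynomial.degree_X, Polynomial.degree_X_pow]
    exact_mod_cast hq
  have e := congrArg (Polynomial.aeval x) ((IsAlgClosed.splits _).eq_prod_roots_of_monic hm)
  rw [map_sub, map_pow, Polynomial.aeval_X, map_multiset_prod, Multiset.map_map] at e
  rw [O.valuation.map_sub_swap, e, map_multiset_prod, Multiset.map_map] at h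
  by_contra hne
  refine h.ne (Multiset.prod_eq_one fun t ht => ?_)
  obtain ⟨z, hz, rfl⟩ := Multiset.mem_map.1 ht
  have hz' : z ^ q = z := by
    have := (Polynomial.mem_roots hm.ne_zero).1 hz
    simpa [sub_eq_zero] using this
  simp only [Function.comp, map_sub, Polynomial.aeval_X, Polynomial.aeval_C]
  refine le_antisymm ((O.valuation_le_one_iff _).2 (sub_mem hx (hO z))) ?_
  exact not_lt.1 fun h => hne ⟨z, hz', h⟩

/-- `X ^ q - X` splits over `ℂ`, and the product of the `Z a - ζ` has valuation `< 1`. -/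
theorem sol_red (hd : 2 ≤ d) (hO : CO ℂ O) (hc : Near O c (cpow ℂ)) {n : ℕ} (hn : 1 ≤ n)
    {Z : ι → Ω} (hZ : (ap (Fp c))^[n] Z = Z) :
    ∃ z : ι → ℂ, (∀ a, z a ^ d ^ n = z a) ∧ Near O Z z := by
  have h1 := sol_int hd hO hc hn hZ
  have h2 := pw_near hO hc h1 n
  rw [hZ] at h2
  choose z hz1 hz2 using fun a => pow_root hO (pow_two_le hd hn) (h1 a) (h2 a)
  exact ⟨z, hz1, hz2⟩

/-- Let `q = d ^ n`, `δ = Z - Z'` and `a` with `δ a` of largest valuation `r ≠ 0`.  Then
`δ a = Z a ^ q - Z' a ^ q + ε` with `ε` of valuation `< r` (`pw_coeff`), and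
`Z a ^ q - Z' a ^ q = δ a * u` with `u ≡ q * z a ^ (q - 1)`, which is `0` or `q`; so `1 - u` is a
unit. -/
theorem sol_inj (hd : 2 ≤ d) (hO : CO ℂ O) (hc : Near O c (cpow ℂ)) {n : ℕ} (hn : 1 ≤ n)
    {Z Z' : ι → Ω} (hZ : (ap (Fp c))^[n] Z = Z) (hZ' : (ap (Fp c))^[n] Z' = Z') {z : ι → ℂ}
    (h : Near O Z z) (h' : Near O Z' z) : Z = Z' := by
  obtain ⟨z0, hz0, hn0⟩ := sol_red hd hO hc hn hZ
  rw [hn0.unique hO h] at hz0
  funext a0
  obtain ⟨a, -, ha⟩ := Finset.exists_max_image Finset.univ (fun a => O.valuation (Z a - Z' a))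
    ⟨a0, Finset.mem_univ _⟩
  by_contra hne
  have h0 : O.valuation (Z a - Z' a) ≠ 0 := fun e => by
    have := ha a0 (Finset.mem_univ _)
    rw [e, le_zero_iff, map_eq_zero, sub_eq_zero] at this
    exact hne this
  have h1 := pow_diff_lt (pw_coeff hO hc n a) (sol_int hd hO hc hn hZ) (sol_int hd hO hc hn hZ')
    h0 fun b => ha b (Finset.mem_univ _)
  have e1 : aeval Z (itr (Fp c) n a) = Z a := by
    have := congrFun (ap_itr (Fp c) n Z) a
    rwa [hZ] at this
  have e2 : aeval Z' (itr (Fp c) n a) = Z' a := by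
    have := congrFun (ap_itr (Fp c) n Z') a
    rwa [hZ'] at this
  simp only [map_sub, map_pow, aeval_X, e1, e2] at h1
  have hu := (h.sum h').unit hO (g := 1 - ∑ i ∈ Finset.range (d ^ n),
    X (Sum.inl a) ^ i * X (Sum.inr a) ^ (d ^ n - 1 - i)) (by
      simp only [map_sub, map_one, map_sum, map_mul, map_pow, eval_X, Sum.elim_inl, Sum.elim_inr]
      rw [geom_sum₂_self, Nat.cast_pow, ← Nat.cast_pow]
      exact pow_ne (pow_two_le hd hn) (hz0 a))
  simp only [map_sub, map_one, map_sum, map_mul, map_pow, aeval_X, Sum.elim_inl,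
    Sum.elim_inr] at hu
  have e3 : Z a - Z a ^ d ^ n - (Z' a - Z' a ^ d ^ n) =
      (1 - ∑ i ∈ Finset.range (d ^ n), Z a ^ i * Z' a ^ (d ^ n - 1 - i)) * (Z a - Z' a) := by
    rw [sub_mul, geom_sum₂_mul]
    ring
  rw [e3, map_mul, hu, one_mul] at h1
  exact h1.false

/-- The elements `x ∈ O` with `D x ∈ O` form a subring containing the `c x`, hence (`map_itr`) the
coefficients of the iterates.  Apply `der_aeval_dco` to `itr (Fp c) n a` and argue with the
largest valuation of the `D (Z a)` as in `sol_inj`. -/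
theorem sol_der (hd : 2 ≤ d) (hO : CO ℂ O) (hc : Near O c (cpow ℂ)) {n : ℕ} (hn : 1 ≤ n)
    {Z : ι → Ω} (hZ : (ap (Fp c))^[n] Z = Z) (D : Derivation ℂ Ω Ω) (hD : ∀ x, D (c x) ∈ O)
    (a : ι) : D (Z a) ∈ O := by
  obtain ⟨z, hz, hnz⟩ := sol_red hd hO hc hn hZ
  have hZO := sol_int hd hO hc hn hZ
  let T : Subring Ω :=
    { carrier := {x | x ∈ O ∧ D x ∈ O}
      mul_mem' := fun {x y} hx hy => ⟨mul_mem hx.1 hy.1, by
        rw [D.leibniz, smul_eq_mul, smul_eq_mul]
        exact add_mem (mul_mem hx.1 hy.2) (mul_mem hy.1 hx.2)⟩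
      one_mem' := ⟨one_mem _, by rw [D.map_one_eq_zero]; exact zero_mem _⟩
      add_mem' := fun {x y} hx hy => ⟨add_mem hx.1 hy.1, by
        rw [map_add]; exact add_mem hx.2 hy.2⟩
      zero_mem' := ⟨zero_mem _, by rw [map_zero]; exact zero_mem _⟩
      neg_mem' := fun {x} hx => ⟨neg_mem hx.1, by rw [map_neg]; exact neg_mem hx.2⟩ }
  let cT : ι × Mn ι d → T := fun x => ⟨c x, hc.mem hO x, hD x⟩
  have hT : ∀ b α, D (coeff α (itr (Fp c) n b)) ∈ O := fun b α => by
    have e : (fun a => map T.subtype (Fp cT a)) = Fp c := funext fun a => map_Fp _ _ _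
    rw [← e, ← map_itr, coeff_map]
    exact (coeff α (itr (Fp cT) n b)).2.2
  obtain ⟨b, -, hb⟩ := Finset.exists_max_image Finset.univ (fun a => O.valuation (D (Z a)))
    ⟨a, Finset.mem_univ _⟩
  rw [← O.valuation_le_one_iff]
  refine (hb a (Finset.mem_univ _)).trans ?_
  by_contra hlt
  rw [not_le] at hlt
  have h0 : O.valuation (D (Z b)) ≠ 0 := (zero_lt_one.trans hlt).ne'
  have e1 : aeval Z (itr (Fp c) n b) = Z b := by
    have := congrFun (ap_itr (Fp c) n Z) b
    rwa [hZ] at this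
  have key := der_aeval_dco D (itr (Fp c) n b) Z
  rw [e1] at key
  have e2 : ∑ t, aeval Z (pderiv t (X b ^ d ^ n : MvPolynomial ι Ω)) * D (Z t) =
      ((d ^ n : ℕ) : Ω) * Z b ^ (d ^ n - 1) * D (Z b) := by
    rw [Finset.sum_eq_single b]
    · simp
    · intro t _ ht
      simp [Pi.single_eq_of_ne' ht]
    · simp
  have e3 : (1 - ((d ^ n : ℕ) : Ω) * Z b ^ (d ^ n - 1)) * D (Z b) =
      aeval Z (dco D (itr (Fp c) n b)) +
        ∑ t, aeval Z (pderiv t (itr (Fp c) n b - X b ^ d ^ n)) * D (Z t) := by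
    simp only [map_sub, sub_mul, Finset.sum_sub_distrib]
    rw [e2]
    linear_combination key
  have hu := hnz.unit hO (g := 1 - ((d ^ n : ℕ) : MvPolynomial ι ℂ) * X b ^ (d ^ n - 1)) (by
    simp only [map_sub, map_one, map_mul, map_pow, eval_X, map_natCast]
    exact pow_ne (pow_two_le hd hn) (hz b))
  simp only [map_sub, map_one, map_mul, map_pow, aeval_X, map_natCast] at hu
  have h1 := congrArg O.valuation e3
  rw [map_mul, hu, one_mul] at h1
  refine absurd h1.symm (ne_of_lt ?_)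
  refine O.valuation.map_add_lt ?_ (O.valuation.map_sum_lt h0 fun t _ => ?_)
  · refine lt_of_le_of_lt ((O.valuation_le_one_iff _).2 (pow_eval_mem (fun α => ?_) hZO)) hlt
    rw [coeff_dco (map_zero D)]
    exact hT b α
  · rw [map_mul]
    refine pow_mul_lt (pow_eval_lt (fun α => ?_) hZO) (hb t (Finset.mem_univ _)) h0
    rw [coeff_pderiv, map_mul]
    refine pow_mul_lt (pw_coeff hO hc n b _) ?_ one_ne_zero
    exact (O.valuation_le_one_iff _).2 (add_mem (natCast_mem _ _) (one_mem _))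

end Pool.Agent.Lib.MP_0dd0d9_ag.Hi
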