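import Pool.Agent.Lib.MP_0dd0d9_ag.Hi.Conj2
import Pool.Agent.Lib.MP_0dd0d9_ag.Hi.Pow

/-!
TASK gh Move.  Specialisations of a periodic point of the generic map to the power map.
-/

namespace Pool.Agent.Lib.MP_0dd0d9_ag.Hi

open MvPolynomial

variable {ι : Type} [Fintype ι] [DecidableEq ι] {d : ℕ}
variable {Ω : Type} [Field Ω] [Algebra ℂ Ω]

/-- `z` is a specialisation of `Z` over the power map. -/
def Sp (c : ι × Mn ι d → Ω) (Z : ι → Ω) (z : ι → ℂ) : Prop :=
  ∀ g : MvPolynomial ((ι × Mn ι d) ⊕ ι) ℂ, aeval (Sum.elim c Z) g = 0 →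
    eval (Sum.elim (cpow ℂ) z) g = 0

theorem Sp.val {c : ι × Mn ι d → Ω} {Z : ι → Ω} {z : ι → ℂ} (h : Sp c Z z) :
    ∃ O : ValuationSubring Ω, CO ℂ O ∧ Near O c (cpow ℂ) ∧ Near O Z z := by
  obtain ⟨O, hO, hN⟩ := val_exists (Sum.elim c Z) (Sum.elim (cpow ℂ) z) h
  exact ⟨O, hO, fun i => hN (Sum.inl i), fun i => hN (Sum.inr i)⟩

theorem sp_of_near {c : ι × Mn ι d → Ω} {Z : ι → Ω} {z : ι → ℂ} {O : ValuationSubring Ω}
    (hO : CO ℂ O) (hc : Near O c (cpow ℂ)) (hZ : Near O Z z) : Sp c Z z :=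
  fun _ hg => (hc.sum hZ).eq_zero hO hg

/-- The ideal of the point `cpow`. -/
noncomputable def move_m (ι : Type) [Fintype ι] [DecidableEq ι] (d : ℕ) :
    Ideal (MvPolynomial (ι × Mn ι d) ℂ) :=
  RingHom.ker (eval (cpow ℂ : ι × Mn ι d → ℂ))

instance move_m_prime : (move_m ι d).IsPrime := RingHom.ker_isPrime _

theorem move_m_mem {g : MvPolynomial (ι × Mn ι d) ℂ} :
    g ∈ move_m ι d ↔ eval (cpow ℂ) g = 0 := RingHom.mem_ker

theorem move_unit {L : Type} [Field L] [Algebra ℂ L] {c' : ι × Mn ι d → L}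
    (hc' : ∀ g : MvPolynomial (ι × Mn ι d) ℂ, aeval c' g = 0 → eval (cpow ℂ) g = 0)
    (y : (move_m ι d).primeCompl) :
    IsUnit ((aeval c' : MvPolynomial (ι × Mn ι d) ℂ →ₐ[ℂ] L).toRingHom y) :=
  isUnit_iff_ne_zero.2 fun h => y.2 (move_m_mem.2 (hc' _ h))

section loc

variable (A : Type) [CommRing A] [Algebra (MvPolynomial (ι × Mn ι d) ℂ) A]
  [IsLocalization.AtPrime A (move_m ι d)]

/-- Evaluation of the local ring at a generisation of `cpow`. -/
noncomputable def move_ev {L : Type} [Field L] [Algebra ℂ L] {c' : ι × Mn ι d → L}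
    (hc' : ∀ g : MvPolynomial (ι × Mn ι d) ℂ, aeval c' g = 0 → eval (cpow ℂ) g = 0) :
    A →+* L :=
  IsLocalization.lift (M := (move_m ι d).primeCompl) (move_unit hc')

theorem move_ev_alg {L : Type} [Field L] [Algebra ℂ L] {c' : ι × Mn ι d → L}
    (hc' : ∀ g : MvPolynomial (ι × Mn ι d) ℂ, aeval c' g = 0 → eval (cpow ℂ) g = 0)
    (g : MvPolynomial (ι × Mn ι d) ℂ) :
    move_ev A hc' (algebraMap _ A g) = aeval c' g :=
  IsLocalization.lift_eq (move_unit hc') g

theorem move_ev_mk {L : Type} [Field L] [Algebra ℂ L] {c' : ι × Mn ι d → L}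
    (hc' : ∀ g : MvPolynomial (ι × Mn ι d) ℂ, aeval c' g = 0 → eval (cpow ℂ) g = 0)
    (x : A) : ∃ g s : MvPolynomial (ι × Mn ι d) ℂ, eval (cpow ℂ) s ≠ 0 ∧
      x * algebraMap _ A s = algebraMap _ A g ∧
      move_ev A hc' x * aeval c' s = aeval c' g := by
  obtain ⟨⟨g, s⟩, h⟩ := IsLocalization.surj (move_m ι d).primeCompl x
  refine ⟨g, s.1, fun h0 => s.2 (move_m_mem.2 h0), h, ?_⟩
  rw [← move_ev_alg A hc', ← move_ev_alg A hc', ← map_mul]
  exact congrArg _ h

theorem move_reg :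
    Reg (Fp fun x : ι × Mn ι d => algebraMap (MvPolynomial (ι × Mn ι d) ℂ) A (X x)) := by
  have : IsLocalRing A := IsLocalization.AtPrime.isLocalRing A (move_m ι d)
  refine Reg.nak (F0 := pw A d) (reg_pw d) (pw_hm d) (Fp_hm _) fun a α => ?_
  rw [← Fp_cpow, coeff_sub]
  by_cases h : α.degree = d
  · have e1 := coeff_Fp (fun x : ι × Mn ι d =>
      algebraMap (MvPolynomial (ι × Mn ι d) ℂ) A (X x)) a ⟨α, mem_Mn.2 h⟩
    have e2 := coeff_Fp (cpow A) a ⟨α, mem_Mn.2 h⟩
    have e3 := congrFun (map_cpow (d := d) (ι := ι)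
      (algebraMap (MvPolynomial (ι × Mn ι d) ℂ) A)) (a, ⟨α, mem_Mn.2 h⟩)
    have e4 := congrFun (map_cpow (d := d) (ι := ι)
      (eval (cpow ℂ : ι × Mn ι d → ℂ))) (a, ⟨α, mem_Mn.2 h⟩)
    simp only [Function.comp] at e1 e2 e3 e4
    rw [e1, e2, ← e3, ← map_sub, IsLocalization.AtPrime.to_map_mem_maximal_iff _ (move_m ι d),
      move_m_mem, map_sub, e4, eval_X, sub_self]
  · rw [(Fp_hm _ a).coeff_eq_zero h, (Fp_hm _ a).coeff_eq_zero h, sub_zero]
    exact Ideal.zero_mem _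

end loc

theorem move_near_const {O : ValuationSubring Ω} (hO : CO ℂ O) {x : Ω} {w w' : ℂ}
    (h : O.valuation (x - algebraMap ℂ Ω w) < 1) (h' : O.valuation (x - algebraMap ℂ Ω w') < 1) :
    w = w' :=
  congrFun (Near.unique hO (v := fun _ : Unit => x) (z := fun _ => w) (z' := fun _ => w')
    (fun _ => h) (fun _ => h')) ()

/-- Let `A` be the localisation of `ℂ[c]` at `cpow` (normal), mapped injectively to `Ω`, and
`D = Algebra.adjoin A (range Z)`, integral over `A` (`Reg.nak`, `per_integral`).  Take `O` from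
`Sp.val`, `Q` the preimage of its maximal ideal, `φ : A → L` induced by `aeval c'` (elements outside
the maximal ideal do not vanish, by `hc'`).  Apply `gd`.  For the last clause,
`Z b - z b ∈ Q`; and if `∏ (ψ (Z b) - w) = 0` then some `Z b - w` lies in `ker ψ ≤ Q`. -/
theorem sp_lift (hd : 2 ≤ d) {n : ℕ} (hn : 1 ≤ n) {c : ι × Mn ι d → Ω}
    (hc : AlgebraicIndependent ℂ c) {Z : ι → Ω} (hZ : (ap (Fp c))^[n] Z = Z) {z : ι → ℂ}
    (hz : Sp c Z z) {L : Type} [Field L] [Algebra ℂ L] [IsAlgClosed L] (c' : ι × Mn ι d → L)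
    (hc' : ∀ g : MvPolynomial (ι × Mn ι d) ℂ, aeval c' g = 0 → eval (cpow ℂ) g = 0) :
    ∃ Z' : ι → L, (∀ g : MvPolynomial ((ι × Mn ι d) ⊕ ι) ℂ, aeval (Sum.elim c Z) g = 0 →
      aeval (Sum.elim c' Z') g = 0) ∧
      ∀ b (w : ℂ), Z' b = algebraMap ℂ L w → w = z b := by
  obtain ⟨O, hO, hcO, hZO⟩ := hz.val
  have hc0 : ∀ g : MvPolynomial (ι × Mn ι d) ℂ, aeval c g = 0 → eval (cpow ℂ) g = 0 :=
    fun g hg => hcO.eq_zero hO hg
  obtain ⟨A, _, _, _⟩ : ∃ (A : Type) (_ : CommRing A)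
      (_ : Algebra (MvPolynomial (ι × Mn ι d) ℂ) A), IsLocalization.AtPrime A (move_m ι d) :=
    ⟨Localization.AtPrime (move_m ι d), _, _, inferInstance⟩
  have : IsDomain A := IsLocalization.isDomain_of_le_nonZeroDivisors A
    (move_m ι d).primeCompl_le_nonZeroDivisors
  have : IsIntegrallyClosed A :=
    isIntegrallyClosed_of_isLocalization A (move_m ι d).primeCompl
      (move_m ι d).primeCompl_le_nonZeroDivisors
  let : Algebra A Ω := (move_ev A hc0).toAlgebra
  have halg : ∀ x : A, algebraMap A Ω x = move_ev A hc0 x := fun _ => rfl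
  have hinj : Function.Injective (algebraMap A Ω) := by
    rw [injective_iff_map_eq_zero]
    intro x hx
    obtain ⟨g, s, hs, h1, h2⟩ := move_ev_mk A hc0 x
    rw [← halg, hx, zero_mul] at h2
    have hg : g = 0 := hc.eq_zero_of_aeval_eq_zero g h2.symm
    rw [hg, map_zero] at h1
    exact (IsLocalization.map_units A
      (⟨s, fun h => hs (move_m_mem.1 h)⟩ : (move_m ι d).primeCompl)).mul_left_eq_zero.1 h1
  let cA : ι × Mn ι d → A := fun x =>
    algebraMap (MvPolynomial (ι × Mn ι d) ℂ) A (X x)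
  have hcA : (algebraMap A Ω) ∘ cA = c := by
    funext x
    simp only [Function.comp, cA, halg, move_ev_alg, aeval_X]
  have hper : (ap (Fp cA))^[n] Z = Z := by
    have : ap (Fp cA) = (ap (Fp c) : (ι → Ω) → ι → Ω) := by
      funext y
      rw [← ap_map, ← hcA]
      exact congrArg (fun F => ap F y) (funext fun a => map_Fp _ _ a)
    rw [this, hZ]
  let D : Subalgebra A Ω := Algebra.adjoin A (Set.range Z)
  have : Algebra.IsIntegral A D := Algebra.IsIntegral.adjoin (by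
    rintro _ ⟨a, rfl⟩
    exact per_integral hd hn (move_reg A) (Fp_hm _) hper a)
  have hinjD : Function.Injective (algebraMap A D) := fun x y h =>
    hinj (congrArg Subtype.val h)
  have hmemO : ∀ g : MvPolynomial (ι × Mn ι d) ℂ, aeval c g ∈ O := fun g =>
    Near.mem hO (v := fun _ : Unit => aeval c g) (z := fun _ => eval (cpow ℂ) g)
      (fun _ => hcO.poly hO g) ()
  have hval : ∀ x : A, ∃ g s : MvPolynomial (ι × Mn ι d) ℂ, eval (cpow ℂ) s ≠ 0 ∧
      x * algebraMap _ A s = algebraMap _ A g ∧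
      O.valuation (algebraMap A Ω x) = O.valuation (aeval c g) := by
    intro x
    obtain ⟨g, s, hs, h1, h2⟩ := move_ev_mk A hc0 x
    refine ⟨g, s, hs, h1, ?_⟩
    rw [← h2, map_mul, hcO.unit hO hs, mul_one, halg]
  have hDO : ∀ x ∈ D, x ∈ O := by
    intro x hx
    induction hx using Algebra.adjoin_induction with
    | mem x hx =>
      obtain ⟨a, rfl⟩ := hx
      exact hZO.mem hO a
    | algebraMap r =>
      obtain ⟨g, s, _, _, h⟩ := hval r
      rw [← O.valuation_le_one_iff, h, O.valuation_le_one_iff]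
      exact hmemO g
    | add x y _ _ hx hy => exact add_mem hx hy
    | mul x y _ _ hx hy => exact mul_mem hx hy
  let ρ : D →+* O := (D.val.toRingHom).codRestrict O (fun x => hDO x.1 x.2)
  let Q : Ideal D := (IsLocalRing.maximalIdeal O).comap ρ
  have hQ : ∀ x : D, x ∈ Q ↔ O.valuation (x : Ω) < 1 := fun x =>
    O.valuation_lt_one_iff (ρ x)
  have hker : RingHom.ker (move_ev A hc') ≤ Q.comap (algebraMap A D) := by
    intro x hx
    obtain ⟨g, s, hs, h1, h2⟩ := hval x
    rw [Ideal.mem_comap, hQ]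
    change O.valuation (algebraMap A Ω x) < 1
    rw [h2]
    have h3 := congrArg (move_ev A hc') h1
    rw [map_mul, RingHom.mem_ker.1 hx, zero_mul, move_ev_alg] at h3
    have h4 := hcO.poly hO g
    rwa [hc' g h3.symm, map_zero, sub_zero] at h4
  obtain ⟨ψ, hψ, hψQ⟩ := gd (A := A) (D := D) (L := L) hinjD (move_ev A hc') Q hker
  have hψ' : ∀ x, ψ (algebraMap A D x) = move_ev A hc' x := fun x =>
    RingHom.congr_fun hψ x
  let ZD : ι → D := fun a => ⟨Z a, Algebra.subset_adjoin ⟨a, rfl⟩⟩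
  let κ : ℂ →+* D := (algebraMap A D).comp
    ((algebraMap (MvPolynomial (ι × Mn ι d) ℂ) A).comp C)
  have hκ1 : ∀ w, (κ w : Ω) = algebraMap ℂ Ω w := fun w => by
    change algebraMap A Ω (algebraMap _ A (C w)) = _
    rw [halg, move_ev_alg, aeval_C]
  have hκ2 : ∀ w, ψ (κ w) = algebraMap ℂ L w := fun w => by
    change ψ (algebraMap A D (algebraMap _ A (C w))) = _
    rw [hψ', move_ev_alg, aeval_C]
  refine ⟨fun a => ψ (ZD a), fun g hg => ?_, fun b w hw => ?_⟩
  · let θ : MvPolynomial ((ι × Mn ι d) ⊕ ι) ℂ →+* D :=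
      eval₂Hom κ (Sum.elim (fun x => algebraMap A D (cA x)) ZD)
    have e1 : D.val.toRingHom.comp θ =
        (aeval (Sum.elim c Z) : MvPolynomial ((ι × Mn ι d) ⊕ ι) ℂ →ₐ[ℂ] Ω).toRingHom := by
      refine MvPolynomial.ringHom_ext (fun r => ?_) (fun i => ?_)
      · simpa [θ] using hκ1 r
      · cases i with
        | inl x => simpa [θ] using congrFun hcA x
        | inr a => simp [θ, ZD]
    have e2 : ψ.comp θ = (aeval (Sum.elim c' fun a => ψ (ZD a)) :
        MvPolynomial ((ι × Mn ι d) ⊕ ι) ℂ →ₐ[ℂ] L).toRingHom := by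
      refine MvPolynomial.ringHom_ext (fun r => ?_) (fun i => ?_)
      · simpa [θ] using hκ2 r
      · cases i with
        | inl x => simp [θ, hψ', cA, move_ev_alg]
        | inr a => simp [θ]
    have h0 : θ g = 0 := Subtype.ext ((RingHom.congr_fun e1 g).trans hg)
    have h1 := RingHom.congr_fun e2 g
    rw [RingHom.comp_apply, h0, map_zero] at h1
    exact h1.symm
  · have h1 : ZD b - κ w ∈ Q := hψQ (by
      rw [RingHom.mem_ker, map_sub, hκ2]
      exact sub_eq_zero.2 hw)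
    rw [hQ] at h1
    refine move_near_const hO (x := Z b) ?_ (hZO b)
    rw [← hκ1]
    exact h1

/-- Periodicity is a polynomial condition. -/
theorem move_univ (n : ℕ) (e : ι) : ∃ g : MvPolynomial ((ι × Mn ι d) ⊕ ι) ℂ,
    ∀ (L : Type) [Field L] [Algebra ℂ L] (c : ι × Mn ι d → L) (Z : ι → L),
      aeval (Sum.elim c Z) g = (ap (Fp c))^[n] Z e - Z e := by
  refine ⟨(ap (Fp fun x : ι × Mn ι d => (X (Sum.inl x) : MvPolynomial ((ι × Mn ι d) ⊕ ι) ℂ)))^[n]
    (fun a => X (Sum.inr a)) e - X (Sum.inr e), fun L _ _ c Z => ?_⟩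
  have h := congrFun (hom_ap_iter
    (aeval (Sum.elim c Z) : MvPolynomial ((ι × Mn ι d) ⊕ ι) ℂ →ₐ[ℂ] L).toRingHom
    (Fp fun x : ι × Mn ι d => (X (Sum.inl x) : MvPolynomial ((ι × Mn ι d) ⊕ ι) ℂ))
    (fun a => X (Sum.inr a)) n) e
  simp only [map_Fp] at h
  have e1 : ((aeval (Sum.elim c Z) : MvPolynomial ((ι × Mn ι d) ⊕ ι) ℂ →ₐ[ℂ] L).toRingHom ∘
      fun x : ι × Mn ι d => (X (Sum.inl x) : MvPolynomial ((ι × Mn ι d) ⊕ ι) ℂ)) = c := by
    funext x
    simp
  have e2 : ((aeval (Sum.elim c Z) : MvPolynomial ((ι × Mn ι d) ⊕ ι) ℂ →ₐ[ℂ] L).toRingHom ∘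
      fun a : ι => (X (Sum.inr a) : MvPolynomial ((ι × Mn ι d) ⊕ ι) ℂ)) = Z := by
    funext x
    simp
  rw [e1, e2] at h
  rw [map_sub, aeval_X]
  exact congrArg (fun t => t - Z e) h

theorem move_const {L : Type} [Field L] [Algebra ℂ L] {x : L} {q : ℕ} (hq : 2 ≤ q)
    (hx : x ^ q = x) : ∃ w : ℂ, x = algebraMap ℂ L w := by
  have hi : IsIntegral ℂ x := by
    refine ⟨Polynomial.X ^ q - Polynomial.X, Polynomial.monic_X_pow_sub ?_, ?_⟩
    · rw [Polynomial.degree_X]
      exact_mod_cast hq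
    · simp [hx]
  obtain ⟨w, hw⟩ := minpoly.mem_range_of_degree_eq_one ℂ x
    (IsAlgClosed.degree_eq_one_of_irreducible ℂ (minpoly.irreducible hi))
  exact ⟨w, hw.symm⟩

/-- The universal perturbation of the power map. -/
noncomputable def move_G (d : ℕ) (a b b' : ι) (e : ι) :
    MvPolynomial ι (MvPolynomial (Fin 2) ℂ) :=
  X e ^ d + if e = a then C (X 0) * X b ^ d + C (X 1) * (X b ^ (d - 1) * X b') else 0

omit [Fintype ι] in
theorem move_G_hm (hd : 1 ≤ d) (a b b' : ι) : Hm (move_G d a b b') d := by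
  intro e
  refine (isHomogeneous_X_pow e d).add ?_
  split_ifs
  · refine ((isHomogeneous_X_pow b d).C_mul _).add (IsHomogeneous.C_mul ?_ _)
    have := (isHomogeneous_X_pow (R := MvPolynomial (Fin 2) ℂ) b (d - 1)).mul
      (isHomogeneous_X _ b')
    rwa [Nat.sub_add_cancel hd] at this
  · exact isHomogeneous_zero _ _ _

theorem move_exists_L : ∃ (L : Type) (_ : Field L) (_ : Algebra ℂ L) (_ : IsAlgClosed L)
    (τ : Fin 2 → L), IsTranscendenceBasis ℂ τ := by
  have h1 : IsTranscendenceBasis ℂ (X : Fin 2 → MvPolynomial (Fin 2) ℂ) :=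
    IsTranscendenceBasis.mvPolynomial' _ _
  have : Algebra.IsAlgebraic (MvPolynomial (Fin 2) ℂ) (FractionRing (MvPolynomial (Fin 2) ℂ)) :=
    IsLocalization.isAlgebraic _ (nonZeroDivisors _)
  have h2 := h1.algebraMap_comp (A := FractionRing (MvPolynomial (Fin 2) ℂ))
  have h3 := h2.algebraMap_comp (A := AlgebraicClosure (FractionRing (MvPolynomial (Fin 2) ℂ)))
  exact ⟨_, _, _, inferInstance, _, h3⟩

/-- Let `L` be the algebraic closure of `ℂ(τ 0, τ 1)` and `c'` the coefficients of the map with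
component `X a ^ d + τ 0 * X b ^ d + τ 1 * X b ^ (d - 1) * X b'` at `a` and `X e ^ d` at `e ≠ a`.
Take `O` centred at `τ = 0` (`val_exists_indep`), so that `c'` is near `cpow`.  Lift by `sp_lift`;
`Z'` is periodic, its coordinates at `e ≠ a` are the constants `z e`.  Every conjugate `σ ∘ Z'` is
periodic and reduces (`sol_red`) to a point `update z a w` with `Sp c Z`.  Let `W` be the finite
set of these `w`.  By `sol_inj` it has at least as many elements as there are conjugates of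
`Z' a`; apply `many_conj` to `ζ i = (F^[i] Z') a / z b ^ d ^ i`. -/
theorem move (hd : 2 ≤ d) {n : ℕ} (hn : 1 ≤ n) {c : ι × Mn ι d → Ω}
    (hc : AlgebraicIndependent ℂ c) {Z : ι → Ω} (hZ : (ap (Fp c))^[n] Z = Z) {z : ι → ℂ}
    (hz : Sp c Z z) {a b b' : ι} (hab : a ≠ b) (hab' : a ≠ b') (hbb' : b ≠ b') (hb : z b ≠ 0)
    {T : ℕ} (hu : ∀ W : Finset ℂ, (∀ i, (z b' / z b) ^ d ^ i ∈ W) → d ^ (3 * T) < W.card) :
    ∃ W : Finset ℂ, T < W.card ∧ ∀ w ∈ W, Sp c Z (Function.update z a w) := by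
  classical
  obtain ⟨L, _, _, _, τ, hτ⟩ := move_exists_L
  obtain ⟨O, hO, hτO⟩ := val_exists_indep hτ.1 (0 : Fin 2 → ℂ)
  let cR : ι × Mn ι d → MvPolynomial (Fin 2) ℂ := fun x => coeff x.2.1 (move_G d a b b' x.1)
  have hcR : Fp cR = move_G d a b b' := Fp_coeff (move_G_hm (by omega) a b b')
  let c' : ι × Mn ι d → L := fun x => aeval τ (cR x)
  have hc0 : (eval (0 : Fin 2 → ℂ)) ∘ cR = cpow ℂ := by
    apply Fp_inj
    funext e
    rw [← map_Fp, hcR, Fp_cpow]
    simp only [move_G, pw]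
    split_ifs <;> simp
  have hcO : Near O c' (cpow ℂ) := fun x => by
    have := hτO.poly hO (cR x)
    rwa [show eval (0 : Fin 2 → ℂ) (cR x) = cpow ℂ x from congrFun hc0 x] at this
  have hF : ∀ (y : ι → L) (e : ι), ap (Fp c') y e =
      y e ^ d + if e = a then τ 0 * y b ^ d + τ 1 * (y b ^ (d - 1) * y b') else 0 := by
    intro y e
    have h := map_Fp (aeval τ : MvPolynomial (Fin 2) ℂ →ₐ[ℂ] L).toRingHom cR e
    have h' : Fp c' e = map (aeval τ : MvPolynomial (Fin 2) ℂ →ₐ[ℂ] L).toRingHom (Fp cR e) :=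
      h.symm
    rw [ap, h', hcR]
    simp only [move_G]
    split_ifs <;> simp
  obtain ⟨Z', H1, H2⟩ := sp_lift hd hn hc hZ hz c' (fun g hg => hcO.eq_zero hO hg)
  have hZ' : (ap (Fp c'))^[n] Z' = Z' := by
    funext e
    obtain ⟨g, hg⟩ := move_univ (d := d) n e
    have h := H1 g (by rw [hg, hZ, sub_self])
    rwa [hg, sub_eq_zero] at h
  have hpow : ∀ i e, e ≠ a → (ap (Fp c'))^[i] Z' e = Z' e ^ d ^ i := by
    intro i e he
    induction i with
    | zero => simp
    | succ i ih => rw [Function.iterate_succ_apply', hF, if_neg he, add_zero, ih, ← pow_mul, pow_succ]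
  have hq : 2 ≤ d ^ n := le_trans hd (Nat.le_self_pow (by omega) d)
  have hconst : ∀ e, e ≠ a → Z' e = algebraMap ℂ L (z e) := by
    intro e he
    obtain ⟨w, hw⟩ := move_const hq (x := Z' e) (by rw [← hpow n e he, hZ'])
    rw [← H2 e w hw, hw]
  have hσc : ∀ σ : L ≃ₐ[IntermediateField.adjoin ℂ (Set.range τ)] L, ∀ x, σ (c' x) = c' x := by
    intro σ x
    have hm : c' x ∈ IntermediateField.adjoin ℂ (Set.range τ) :=
      IntermediateField.algebra_adjoin_le_adjoin ℂ _ (by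
        rw [Algebra.adjoin_range_eq_range_aeval]
        exact ⟨cR x, rfl⟩)
    exact σ.commutes ⟨c' x, hm⟩
  have hσk : ∀ σ : L ≃ₐ[IntermediateField.adjoin ℂ (Set.range τ)] L, ∀ w : ℂ,
      σ (algebraMap ℂ L w) = algebraMap ℂ L w := fun σ w => (σ.restrictScalars ℂ).commutes w
  have hσper : ∀ σ : L ≃ₐ[IntermediateField.adjoin ℂ (Set.range τ)] L,
      (ap (Fp c'))^[n] (fun e => σ (Z' e)) = fun e => σ (Z' e) := by
    intro σ
    have h := hom_ap_iter (σ : L →+* L) (Fp c') Z' n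
    have e1 : (fun e => map (σ : L →+* L) (Fp c' e)) = Fp c' := by
      funext e
      rw [map_Fp]
      exact congrArg (fun t => Fp t e) (funext (hσc σ))
    rw [hZ', e1] at h
    exact h.symm
  have hσred : ∀ σ : L ≃ₐ[IntermediateField.adjoin ℂ (Set.range τ)] L, ∃ w : ℂ,
      w ^ d ^ n = w ∧ Near O (fun e => σ (Z' e)) (Function.update z a w) := by
    intro σ
    obtain ⟨z', h1, h2⟩ := sol_red hd hO hcO hn (hσper σ)
    refine ⟨z' a, h1 a, fun e => ?_⟩
    by_cases he : e = a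
    · rw [he, Function.update_self]
      exact h2 a
    · rw [Function.update_of_ne he]
      simp only [hconst e he, hσk, sub_self, map_zero, zero_lt_one]
  have hfin : {w : ℂ | w ^ d ^ n = w}.Finite := by
    refine (Polynomial.rootSet_finite (Polynomial.X ^ d ^ n - Polynomial.X : Polynomial ℂ) ℂ).subset ?_
    intro w hw
    rw [Polynomial.mem_rootSet_of_ne]
    · simp [show w ^ d ^ n = w from hw]
    · refine (Polynomial.monic_X_pow_sub ?_).ne_zero
      rw [Polynomial.degree_X]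
      exact_mod_cast hq
  let W : Finset ℂ := hfin.toFinset.filter fun w =>
    ∃ σ : L ≃ₐ[IntermediateField.adjoin ℂ (Set.range τ)] L,
      Near O (fun e => σ (Z' e)) (Function.update z a w)
  refine ⟨W, ?_, fun w hw => ?_⟩
  · let r : ℂ → L := fun w =>
      if h : ∃ σ : L ≃ₐ[IntermediateField.adjoin ℂ (Set.range τ)] L,
        Near O (fun e => σ (Z' e)) (Function.update z a w) then
        h.choose (Z' a) / algebraMap ℂ L (z b) else 0
    refine lt_of_lt_of_le ?_ (Finset.card_image_le (s := W) (f := r))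
    have hbL : algebraMap ℂ L (z b) ≠ 0 := (map_ne_zero _).2 hb
    refine many_conj hd hτ (fun i => (z b' / z b) ^ d ^ i)
      (fun i => (ap (Fp c'))^[i] Z' a / (ap (Fp c'))^[i] Z' b) hn (fun i => ?_) (fun i => ?_) hu _
      (fun σ => ?_)
    · have hy : (ap (Fp c'))^[i] Z' b ≠ 0 := by
        rw [hpow i b hab.symm, hconst b hab.symm]
        exact pow_ne_zero _ hbL
      have hu' : algebraMap ℂ L ((z b' / z b) ^ d ^ i) =
          (ap (Fp c'))^[i] Z' b' / (ap (Fp c'))^[i] Z' b := by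
        rw [hpow i b hab.symm, hconst b hab.symm, hpow i b' hab'.symm, hconst b' hab'.symm,
          map_pow, map_div₀, div_pow]
      simp only [Function.iterate_succ_apply', hF, if_neg hab.symm, if_true, add_zero, hu']
      generalize (ap (Fp c'))^[i] Z' = y at hy
      obtain ⟨k, rfl⟩ : ∃ k, d = k + 1 := ⟨d - 1, by omega⟩
      rw [Nat.add_sub_cancel, div_pow]
      field_simp
      ring
    · simp only [Function.iterate_add_apply, hZ']
    · obtain ⟨w, hw1, hw2⟩ := hσred σ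
      have hex : ∃ σ : L ≃ₐ[IntermediateField.adjoin ℂ (Set.range τ)] L,
        Near O (fun e => σ (Z' e)) (Function.update z a w) := ⟨σ, hw2⟩
      refine Finset.mem_image.2 ⟨w, Finset.mem_filter.2 ⟨hfin.mem_toFinset.2 hw1, hex⟩, ?_⟩
      have h := congrFun (sol_inj hd hO hcO hn (hσper _) (hσper σ) hex.choose_spec hw2) a
      simp only [r, dif_pos hex, Function.iterate_zero, id, map_div₀, hconst b hab.symm, hσk]
      rw [h]
  · obtain ⟨σ, hσ⟩ := (Finset.mem_filter.1 hw).2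
    intro g hg
    refine (hcO.sum hσ).eq_zero hO ?_
    have h := congrArg (σ.restrictScalars ℂ).toAlgHom (H1 g hg)
    rw [map_zero, ← AlgHom.comp_apply, comp_aeval] at h
    rw [← h]
    refine congrArg (fun t => aeval t g) (funext fun i => ?_)
    cases i with
    | inl x => exact (hσc σ x).symm
    | inr e => rfl

end Pool.Agent.Lib.MP_0dd0d9_ag.Hi
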