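import Pool.Agent.Lib.MP_0dd0d9_ag.Hi.Lift

/-!
TASK gh NF1.  The generic map is conjugate to the generic map of the slice.
-/

namespace Pool.Agent.Lib.MP_0dd0d9_ag.Hi

open MvPolynomial

variable {ι : Type} [Fintype ι] [DecidableEq ι] {d : ℕ}

/-- The exponent vector of a pure power. -/
noncomputable def nf1_pm (d : ℕ) (b : ι) : Mn ι d :=
  ⟨Finsupp.single b d, mem_Mn.2 (by simp)⟩

theorem nf1_bij (hd : 1 ≤ d) :
    Function.Bijective (Sum.elim Subtype.val (nf1_pm d) : MnS ι d ⊕ ι → Mn ι d) := by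
  constructor
  · rintro (x | x) (y | y) h
    · exact congrArg Sum.inl (Subtype.ext h)
    · exact absurd (congrArg Subtype.val h) (x.2 y)
    · exact absurd (congrArg Subtype.val h).symm (y.2 x)
    · exact congrArg Sum.inr
        (Finsupp.single_left_injective (by omega : d ≠ 0) (congrArg Subtype.val h))
  · intro δ
    by_cases h : ∀ b, δ.1 ≠ Finsupp.single b d
    · exact ⟨Sum.inl ⟨δ, h⟩, rfl⟩
    · push Not at h
      obtain ⟨b, hb⟩ := h
      exact ⟨Sum.inr b, Subtype.ext hb.symm⟩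

theorem nf1_sum {A : Type} [AddCommMonoid A] (hd : 1 ≤ d) (f : Mn ι d → A) :
    ∑ δ, f δ = ∑ δ : MnS ι d, f δ.1 + ∑ b, f (nf1_pm d b) := by
  rw [← (Equiv.ofBijective _ (nf1_bij hd)).sum_comp f, Fintype.sum_sum_type]
  rfl

theorem nf1_single {R : Type} [CommRing R] (c : ι × Mn ι d → R) (a i : ι) :
    ap (Fp c) (Pi.single a (1 : R)) i = c (i, nf1_pm d a) := by
  rw [aeval_Fp, Finset.sum_eq_single (nf1_pm d a)]
  · rw [Finset.prod_eq_one, mul_one]
    · rfl
    · intro b _
      by_cases h : b = a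
      · subst h; simp
      · simp [nf1_pm, Finsupp.single_eq_of_ne h]
  · intro δ _ hδ
    have h : ∃ b, b ≠ a ∧ δ.1 b ≠ 0 := by
      by_contra hc
      push Not at hc
      apply hδ
      apply Subtype.ext
      have h1 := Mn_degree δ
      rw [Finsupp.degree_eq_sum, Finset.sum_eq_single a (fun b _ hb => hc b hb) (by simp)] at h1
      ext b
      by_cases hb : b = a
      · subst hb; simp [nf1_pm, h1]
      · simp [nf1_pm, Finsupp.single_eq_of_ne hb, hc b hb]
    obtain ⟨b, hb, hb'⟩ := h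
    rw [Finset.prod_eq_zero (Finset.mem_univ b), mul_zero]
    rw [Pi.single_eq_of_ne hb, zero_pow hb']
  · simp

theorem nf1_one {R : Type} [CommRing R] (c : ι × Mn ι d → R) (i : ι) :
    ap (Fp c) (1 : ι → R) i = ∑ δ, c (i, δ) := by
  rw [aeval_Fp]
  simp

theorem nf1_sl {R : Type} [CommRing R] (hd : 1 ≤ d) (c : ι × MnS ι d → R) (i b : ι) :
    sl c (i, nf1_pm d b) = if b = i then 1 - ∑ δ, c (i, δ) else 0 := by
  simp only [sl]
  rw [dif_neg (fun h => h b rfl)]
  refine if_congr ⟨fun h => ?_, fun h => by rw [h]; rfl⟩ rfl rfl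
  exact Finsupp.single_left_injective (by omega : d ≠ 0) h

omit [DecidableEq ι] in
theorem nf1_lin_mul {R : Type} [CommRing R] (φ ψ : Matrix ι ι R) (i : ι) :
    bind₁ (lin ψ) (lin φ i) = lin (φ * ψ) i := by
  simp only [lin, map_sum, map_mul, bind₁_C_right, bind₁_X_right, Matrix.mul_apply,
    Finset.mul_sum, Finset.sum_mul]
  rw [Finset.sum_comm]
  exact Finset.sum_congr rfl fun j _ => Finset.sum_congr rfl fun k _ => by ring

theorem nf1_lin_one {R : Type} [CommRing R] : lin (1 : Matrix ι ι R) = X := by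
  funext i
  rw [lin, Finset.sum_eq_single i]
  · simp
  · intro j _ hj
    simp [Matrix.one_apply_ne hj.symm]
  · simp

theorem nf1_det {Ω : Type} [Field Ω] [Algebra ℂ Ω] {O : ValuationSubring Ω} (hO : CO ℂ O)
    {W : Matrix ι ι Ω} {W0 : Matrix ι ι ℂ}
    (h : ∀ i j, O.valuation (W i j - algebraMap ℂ Ω (W0 i j)) < 1) (h0 : W0.det ≠ 0) :
    W.det ≠ 0 := by
  have hN : Near O (fun x : ι × ι => W x.1 x.2) (fun x : ι × ι => W0 x.1 x.2) :=
    fun x => h x.1 x.2
  have e0 : eval (fun x : ι × ι => W0 x.1 x.2)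
      (Matrix.of fun i j => (X (i, j) : MvPolynomial (ι × ι) ℂ)).det = W0.det := by
    rw [RingHom.map_det]
    congr 1
    ext i j
    simp
  have e1 : aeval (fun x : ι × ι => W x.1 x.2)
      (Matrix.of fun i j => (X (i, j) : MvPolynomial (ι × ι) ℂ)).det = W.det := by
    rw [AlgHom.map_det]
    congr 1
    ext i j
    simp
  have h1 := hN.unit hO (g := (Matrix.of fun i j => (X (i, j) : MvPolynomial (ι × ι) ℂ)).det)
    (by rw [e0]; exact h0)
  rw [e1] at h1
  intro hW
  rw [hW, map_zero] at h1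
  exact zero_ne_one h1

theorem card_slice (hd : 1 ≤ d) :
    Fintype.card ((ι × MnS ι d) ⊕ ι × ι) = Fintype.card (ι × Mn ι d) := by
  have h := Fintype.card_congr (Equiv.ofBijective _ (nf1_bij (ι := ι) hd))
  rw [Fintype.card_sum] at h
  rw [Fintype.card_sum, Fintype.card_prod, Fintype.card_prod, Fintype.card_prod, ← h, mul_add]

theorem ap_sl_single {R : Type} [CommRing R] (hd : 1 ≤ d) (c : ι × MnS ι d → R) (a : ι) :
    ∃ μ : R, ap (Fp (sl c)) (Pi.single a (1 : R)) = μ • Pi.single a (1 : R) := by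
  refine ⟨1 - ∑ δ, c (a, δ), ?_⟩
  funext i
  rw [nf1_single, nf1_sl hd]
  by_cases h : a = i
  · subst h; simp
  · simp [h]

theorem ap_sl_one {R : Type} [CommRing R] (hd : 1 ≤ d) (c : ι × MnS ι d → R) :
    ap (Fp (sl c)) (1 : ι → R) = 1 := by
  funext i
  rw [nf1_one, nf1_sum hd]
  simp only [sl_apply, nf1_sl hd]
  simp

/-- The value at `Pi.single a 1` is the coefficient of `X a ^ d`, the value at `1` is the sum of
the coefficients. -/
theorem mem_slice {K : Type} [Field K] (hd : 1 ≤ d) {G : ι → MvPolynomial ι K} (hG : Hm G d)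
    (h1 : ∀ a, ∃ μ : K, ap G (Pi.single a (1 : K)) = μ • Pi.single a (1 : K))
    (h2 : ap G (1 : ι → K) = 1) : ∃ c : ι × MnS ι d → K, Fp (sl c) = G := by
  set c0 : ι × Mn ι d → K := fun x => coeff x.2.1 (G x.1) with hc0
  have hG0 : Fp c0 = G := Fp_coeff hG
  have hoff : ∀ i b, b ≠ i → c0 (i, nf1_pm d b) = 0 := by
    intro i b hb
    obtain ⟨μ, hμ⟩ := h1 b
    rw [← nf1_single c0 b i, hG0, hμ]
    simp [Pi.single_eq_of_ne (Ne.symm hb)]
  refine ⟨fun x => c0 (x.1, x.2.1), ?_⟩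
  rw [← hG0]
  congr 1
  funext x
  obtain ⟨i, δ⟩ := x
  obtain ⟨y | b, rfl⟩ := (nf1_bij hd).2 δ
  · exact sl_apply _ i y
  · show sl _ (i, nf1_pm d b) = c0 (i, nf1_pm d b)
    rw [nf1_sl hd]
    by_cases hb : b = i
    · subst hb
      have h3 := nf1_one c0 b
      rw [hG0, h2, nf1_sum hd, Finset.sum_eq_single b (fun a _ ha => hoff b a ha) (by simp)] at h3
      rw [if_pos rfl, sub_eq_iff_eq_add']
      exact h3
    · rw [if_neg hb, hoff i b hb]

/-- Existence of the conjugate map `φ⁻¹ ∘ F ∘ φ`. -/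
theorem conj_exists {K : Type} [Field K] {F : ι → MvPolynomial ι K} (hF : Hm F d)
    {φ : Matrix ι ι K} (hφ : φ.det ≠ 0) : ∃ G, Hm G d ∧ Conj φ 1 G F := by
  have hu : IsUnit φ.det := isUnit_iff_ne_zero.2 hφ
  refine ⟨fun j => ∑ k, C (φ⁻¹ j k) * bind₁ (lin φ) (F k), fun j => ?_, fun i => ?_⟩
  · refine IsHomogeneous.sum _ _ _ fun k _ => ?_
    have h1 : ∀ i, (lin φ i).IsHomogeneous 1 := fun i =>
      IsHomogeneous.sum _ _ _ fun l _ => (isHomogeneous_X K l).C_mul _
    have h2 : (bind₁ (lin φ) (F k)).IsHomogeneous (1 * d) := (hF k).aeval _ h1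
    rw [one_mul] at h2
    exact h2.C_mul _
  · simp only [map_one, one_mul, Finset.mul_sum]
    rw [Finset.sum_comm]
    have h3 : ∀ k, ∑ j, C (φ i j) * (C (φ⁻¹ j k) * bind₁ (lin φ) (F k))
        = C ((1 : Matrix ι ι K) i k) * bind₁ (lin φ) (F k) := fun k => by
      rw [← Matrix.mul_nonsing_inv φ hu, Matrix.mul_apply, map_sum, Finset.sum_mul]
      exact Finset.sum_congr rfl fun j _ => by rw [map_mul, mul_assoc]
    simp only [h3]
    rw [Finset.sum_eq_single i]
    · simp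
    · intro j _ hj
      simp [Matrix.one_apply_ne hj.symm]
    · simp

/-- `F` is determined by `G` and `φ`, so its coefficients lie in every subfield that contains
the coefficients of `G` and the entries of `φ`. -/
theorem conj_mem {k K : Type} [Field k] [Field K] [Algebra k K] (L : IntermediateField k K)
    {F G : ι → MvPolynomial ι K} {φ : Matrix ι ι K} (hφ : φ.det ≠ 0) (h : Conj φ 1 G F)
    (hG : ∀ a α, coeff α (G a) ∈ L) (hL : ∀ i j, φ i j ∈ L) (a : ι) (α : ι →₀ ℕ) :
    coeff α (F a) ∈ L := by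
  let φL : Matrix ι ι L := Matrix.of fun i j => ⟨φ i j, hL i j⟩
  have e1 : φL.map (algebraMap L K) = φ := rfl
  have hd : φL.det ≠ 0 := fun h0 => hφ (by
    rw [← e1, ← RingHom.mapMatrix_apply, ← RingHom.map_det, h0, map_zero])
  have e2 : φ * (φL⁻¹).map (algebraMap L K) = 1 := by
    rw [← e1, ← Matrix.map_mul, Matrix.mul_nonsing_inv _ (isUnit_iff_ne_zero.2 hd),
      Matrix.map_one _ (map_zero _) (map_one _)]
  let Gs : ι → MvPolynomial ι L := fun j => ∑ β ∈ (G j).support, monomial β ⟨_, hG j β⟩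
  have e3 : ∀ j, map (algebraMap L K) (Gs j) = G j := fun j => by
    conv_rhs => rw [(G j).as_sum]
    simp only [Gs, map_sum, map_monomial]
    rfl
  have e4 : (fun i => map (algebraMap L K) (lin φL⁻¹ i)) = lin ((φL⁻¹).map (algebraMap L K)) := by
    funext i
    simp [lin]
  have e5 : F a = map (algebraMap L K) (∑ j, C (φL a j) * bind₁ (lin φL⁻¹) (Gs j)) := by
    have h1 := congrArg (bind₁ (lin ((φL⁻¹).map (algebraMap L K)))) (h a)
    rw [bind₁_bind₁] at h1
    simp only [nf1_lin_mul, e2, nf1_lin_one] at h1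
    rw [bind₁_X_left, AlgHom.id_apply] at h1
    rw [h1]
    simp only [map_one, one_mul, map_sum, map_mul, bind₁_C_right, map_C, map_bind₁, e3, e4]
    rfl
  rw [e5, coeff_map]
  exact SetLike.coe_mem _

/-- Take `O` centred at `cpow` and lift the fixed points `Pi.single a 1` and `1` of the power map
(`lift_per` with `n = 1`) to `v a` and `v`.  The matrix `V` with columns `v a` has unit
determinant; by Cramer's rule `v = V τ` with all `τ a ≠ 0` (the determinants involved are near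
`1`, `Near.unit`).  Put `φ = V * diagonal τ`.  Independence: `conj_mem`, `card_slice`,
`indep_of_card`. -/
theorem nf_exists (hd : 2 ≤ d) {Ω : Type} [Field Ω] [Algebra ℂ Ω] [IsAlgClosed Ω]
    {c : ι × Mn ι d → Ω} (hc : AlgebraicIndependent ℂ c) :
    ∃ (φ : Matrix ι ι Ω) (cS : ι × MnS ι d → Ω), φ.det ≠ 0 ∧ Conj φ 1 (Fp (sl cS)) (Fp c) ∧
      AlgebraicIndependent ℂ cS := by
  have hd1 : 1 ≤ d := by omega
  obtain ⟨O, hO, hN⟩ := val_exists_indep hc (cpow ℂ)
  have h0 : Reg (Fp (cpow ℂ : ι × Mn ι d → ℂ)) := by rw [Fp_cpow]; exact reg_pw d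
  have hlift : ∀ z0 : ι → ℂ, (∀ i, z0 i ^ d = z0 i) →
      ∃ Z : ι → Ω, ap (Fp c) Z = Z ∧ Near O Z z0 := by
    intro z0 hz
    obtain ⟨Z, h1, h2⟩ := lift_per hd le_rfl hO hN h0 (μ0 := 1) (z0 := z0) (by
      funext i
      rw [Function.iterate_one, Fp_cpow, ap_pw, one_smul, hz])
    rw [Function.iterate_one, map_one, one_smul] at h1
    exact ⟨Z, h1, h2⟩
  have hv : ∀ a : ι, ∃ Z : ι → Ω, ap (Fp c) Z = Z ∧ Near O Z (Pi.single a (1 : ℂ)) := fun a =>
    hlift _ fun i => by
      by_cases h : i = a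
      · subst h; simp
      · rw [Pi.single_eq_of_ne h, zero_pow (by omega)]
  choose v hv1 hv2 using hv
  obtain ⟨u, hu1, hu2⟩ := hlift 1 fun i => by simp
  let V : Matrix ι ι Ω := Matrix.of fun i a => v a i
  have hVn : ∀ i j, O.valuation (V i j - algebraMap ℂ Ω ((1 : Matrix ι ι ℂ) i j)) < 1 := by
    intro i j
    have := hv2 j i
    rwa [Pi.single_apply, ← Matrix.one_apply] at this
  have hV : V.det ≠ 0 := nf1_det hO hVn (by simp)
  have hcr : ∀ a, V.cramer u a ≠ 0 := by
    intro a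
    rw [Matrix.cramer_apply]
    refine nf1_det hO (W0 := (1 : Matrix ι ι ℂ).updateCol a 1) (fun i j => ?_) ?_
    · by_cases h : j = a
      · subst h
        rw [Matrix.updateCol_self, Matrix.updateCol_self]
        exact hu2 i
      · rw [Matrix.updateCol_ne h, Matrix.updateCol_ne h]
        exact hVn i j
    · rw [← Matrix.cramer_apply, Matrix.cramer_one]
      simp
  let τ : ι → Ω := V.det⁻¹ • V.cramer u
  have hτ : ∀ a, τ a ≠ 0 := fun a => mul_ne_zero (inv_ne_zero hV) (hcr a)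
  have hVτ : V.mulVec τ = u := by
    rw [Matrix.mulVec_smul, Matrix.mulVec_cramer, smul_smul, inv_mul_cancel₀ hV, one_smul]
  let φ : Matrix ι ι Ω := V * Matrix.diagonal τ
  have hφ : φ.det ≠ 0 := by
    rw [Matrix.det_mul, Matrix.det_diagonal]
    exact mul_ne_zero hV (Finset.prod_ne_zero_iff.2 fun a _ => hτ a)
  have hinj : Function.Injective φ.mulVec :=
    Matrix.mulVec_injective_iff_isUnit.2
      ((Matrix.isUnit_iff_isUnit_det φ).2 (isUnit_iff_ne_zero.2 hφ))
  have e1 : ∀ a, φ.mulVec (Pi.single a (1 : Ω)) = τ a • v a := by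
    intro a
    funext i
    simp [φ, V, mul_comm]
  have e2 : φ.mulVec (1 : ι → Ω) = u := by
    rw [← Matrix.mulVec_mulVec, ← hVτ]
    congr 1
    funext i
    simp [Matrix.mulVec_diagonal]
  obtain ⟨G, hG, hconj⟩ := conj_exists (Fp_hm c) hφ
  have hpt := conj_iff.1 hconj
  obtain ⟨cS, hcS⟩ := mem_slice hd1 hG (fun a => ⟨τ a ^ (d - 1), hinj (by
      have h1 := hpt (Pi.single a (1 : Ω))
      rw [one_smul] at h1
      rw [← h1, Matrix.mulVec_smul, e1, (Fp_hm c).ap_smul, hv1, smul_smul, ← pow_succ,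
        Nat.sub_add_cancel hd1])⟩)
    (hinj (by
      have h1 := hpt 1
      rw [one_smul] at h1
      rw [← h1, e2, hu1]))
  refine ⟨φ, cS, hφ, by rw [hcS]; exact hconj, ?_⟩
  let y : (ι × MnS ι d) ⊕ ι × ι → Ω := Sum.elim cS fun x => φ x.1 x.2
  have hy : ∀ x, y x ∈ IntermediateField.adjoin ℂ (Set.range y) := fun x =>
    IntermediateField.subset_adjoin _ _ ⟨x, rfl⟩
  have hmem : ∀ x, c x ∈ IntermediateField.adjoin ℂ (Set.range y) := by
    intro x
    rw [← coeff_Fp c x.1 x.2]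
    refine conj_mem _ hφ hconj (fun a α => ?_) (fun i j => hy (Sum.inr (i, j))) _ _
    rw [← hcS]
    by_cases h : α.degree = d
    · rw [coeff_Fp (sl cS) a ⟨α, mem_Mn.2 h⟩]
      simp only [sl]
      split_ifs
      · exact hy (Sum.inl _)
      · exact sub_mem (one_mem _) (sum_mem fun δ _ => hy (Sum.inl _))
      · exact zero_mem _
    · rw [(Fp_hm _ a).coeff_eq_zero h]
      exact zero_mem _
  have hind := indep_of_card hc (y := y) (card_slice hd1).le fun x =>
    isAlgebraic_algebraMap (⟨c x, hmem x⟩ : IntermediateField.adjoin ℂ (Set.range y))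
  exact hind.comp Sum.inl Sum.inl_injective

end Pool.Agent.Lib.MP_0dd0d9_ag.Hi
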