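import Mathlib

/-!
TASK gh OV.  A functional equation for rational functions in one variable.
-/

namespace Pool.Agent.Lib.MP_0dd0d9_ag.Hi

open Polynomial

/-- The substitution `T ↦ T ^ d` on rational functions. -/
theorem ov_sigma (κ : Type) [Field κ] {d : ℕ} (hd : 1 ≤ d) :
    ∃ σ : RatFunc κ →+* RatFunc κ, ∀ p : κ[X],
      σ (algebraMap κ[X] (RatFunc κ) p) = algebraMap κ[X] (RatFunc κ) (expand κ d p) := by
  have hinj : Function.Injective
      ((algebraMap κ[X] (RatFunc κ)).comp (expand κ d : κ[X] →ₐ[κ] κ[X]).toRingHom) :=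
    (IsFractionRing.injective κ[X] (RatFunc κ)).comp (expand_injective hd)
  exact ⟨IsFractionRing.lift hinj, fun p => IsFractionRing.lift_algebraMap hinj p⟩

theorem ov_const {κ : Type} [Field κ] {d : ℕ} (hd : 2 ≤ d) {q : κ[X]} (hq : q.Monic) {N : ℕ}
    (h : expand κ d q ∣ q * X ^ N) : ∃ j, q = X ^ j := by
  obtain ⟨q₁, h1, h2⟩ := exists_eq_pow_rootMultiplicity_mul_and_not_dvd q hq.ne_zero 0
  generalize rootMultiplicity 0 q = j at h1
  rw [C_0, sub_zero] at h1 h2
  have hq1 : q₁.Monic := by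
    rw [h1] at hq
    exact (monic_X_pow j).of_mul_monic_left hq
  have h3 : expand κ d q₁ ∣ q₁ * X ^ (j + N) := by
    refine (Dvd.intro_left (expand κ d (X ^ j)) (map_mul _ _ _).symm).trans ?_
    rw [← h1, pow_add, ← mul_assoc, mul_comm q₁, ← h1]
    exact h
  have h4 : IsCoprime (expand κ d q₁) (X ^ (j + N)) := by
    refine IsCoprime.pow_right (IsCoprime.symm ?_)
    rw [irreducible_X.coprime_iff_not_dvd, X_dvd_iff, coeff_expand (by omega), if_pos (dvd_zero d),
      Nat.zero_div]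
    rwa [X_dvd_iff] at h2
  have h5 := natDegree_le_of_dvd (h4.dvd_of_dvd_mul_right h3) hq1.ne_zero
  rw [natDegree_expand] at h5
  have h6 : q₁.natDegree = 0 := by nlinarith
  exact ⟨j, by rw [h1, hq1.natDegree_eq_zero.mp h6, mul_one]⟩

theorem ov_poly {κ : Type} [Field κ] {d : ℕ} (hd : 2 ≤ d) {A : Type} [Fintype A] (n : A → ℕ)
    (N j : ℕ) (hde : ∀ a, ¬ (d : ℤ) ∣ (n a : ℤ) - N) (ρ : A → κ) (c : κ) (P : κ[X])
    (h : expand κ d P * X ^ (N + j) =
      C c * (P * X ^ (N + d * j)) + ∑ a, C (ρ a) * X ^ (n a + j + d * j)) :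
    P = C (P.coeff j) * X ^ j := by
  have key : ∀ m, P.coeff m =
      c * if N + d * j ≤ m * d + (N + j) then P.coeff (m * d + (N + j) - (N + d * j)) else 0 := by
    intro m
    have h1 := congrArg (fun Q => coeff Q (m * d + (N + j))) h
    simp only [coeff_mul_X_pow, coeff_expand_mul (show 0 < d by omega), coeff_add, coeff_C_mul,
      finsetSum_coeff, coeff_X_pow] at h1
    rw [coeff_mul_X_pow', Finset.sum_eq_zero, add_zero] at h1
    · exact h1
    · intro a _
      rw [if_neg, mul_zero]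
      intro h2
      apply hde a
      refine ⟨(m : ℤ) - j, ?_⟩
      have h3 : ((m * d + (N + j) : ℕ) : ℤ) = (n a + j + d * j : ℕ) := by rw [h2]
      push_cast at h3
      linear_combination -h3
  have hlow : ∀ m, m < j → P.coeff m = 0 := by
    intro m
    induction m using Nat.strong_induction_on with
    | _ m ih =>
      intro hm
      rw [key m]
      split_ifs with h1
      · have h2 : m * d + (N + j) - (N + d * j) < m := by
          obtain ⟨k, rfl⟩ := Nat.exists_eq_add_of_lt hm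
          have : 2 * (k + 1) ≤ d * (k + 1) := Nat.mul_le_mul_right _ hd
          have e1 : d * (m + k + 1) = m * d + d * (k + 1) := by ring
          omega
        rw [ih _ h2 (h2.trans hm), mul_zero]
      · exact mul_zero c
  have hdeg : P.natDegree ≤ j := by
    by_contra hm
    push Not at hm
    have hP : P ≠ 0 := by
      rintro rfl
      simp at hm
    apply leadingCoeff_ne_zero.mpr hP
    rw [leadingCoeff, key]
    obtain ⟨k, hk⟩ := Nat.exists_eq_add_of_lt hm
    have : 2 * (k + 1) ≤ d * (k + 1) := Nat.mul_le_mul_right _ hd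
    have e1 : P.natDegree * d = d * j + d * (k + 1) := by
      rw [hk]
      ring
    rw [coeff_eq_zero_of_natDegree_lt (by omega), ite_self, mul_zero]
  ext m
  rw [coeff_C_mul, coeff_X_pow]
  rcases lt_trichotomy m j with hm | rfl | hm
  · rw [hlow m hm, if_neg hm.ne, mul_zero]
  · rw [if_pos rfl, mul_one]
  · rw [coeff_eq_zero_of_natDegree_lt (hdeg.trans_lt hm), if_neg hm.ne', mul_zero]

/-- Write `r = p / q` in lowest terms, `q = T ^ j * q₁` with `q₁(0) ≠ 0`.  Clearing denominators,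
`q(T ^ d)` divides `T ^ N * q(T)` (it is coprime to `p(T ^ d)`), so `q₁(T ^ d)` divides `q₁(T)` and
`q₁` is constant.  Thus `r` is a Laurent polynomial `∑ r e * T ^ e`.  If `r e ≠ 0` with `|e|`
maximal and `e ≠ 0`, the coefficient of `T ^ (d e)` gives a contradiction.  So `r` is constant,
and the coefficient of `T ^ (e a)` gives `ρ a = 0`. -/
theorem ov {κ : Type} [Field κ] {d : ℕ} (hd : 2 ≤ d) (σ : RatFunc κ →+* RatFunc κ)
    (hσ : ∀ p : κ[X],
      σ (algebraMap κ[X] (RatFunc κ) p) = algebraMap κ[X] (RatFunc κ) (expand κ d p))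
    {A : Type} [Fintype A] (e : A → ℤ) (he : Function.Injective e) (hde : ∀ a, ¬ (d : ℤ) ∣ e a)
    (ρ : A → κ) (c : κ) (r : RatFunc κ)
    (h : σ r = RatFunc.C c * r + ∑ a, RatFunc.C (ρ a) * RatFunc.X ^ e a) :
    (∃ u : κ, r = RatFunc.C u) ∧ ∀ a, ρ a = 0 := by
  classical
  have hinj := IsFractionRing.injective κ[X] (RatFunc κ)
  have hX : (RatFunc.X : RatFunc κ) ≠ 0 := RatFunc.X_ne_zero
  obtain ⟨N, hN⟩ : ∃ N : ℕ, ∀ a, 0 ≤ e a + N := by
    refine ⟨∑ a, (e a).natAbs, fun a => ?_⟩
    have := Finset.single_le_sum (f := fun a => (e a).natAbs) (fun _ _ => Nat.zero_le _)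
      (Finset.mem_univ a)
    omega
  obtain ⟨n, hn⟩ : ∃ n : A → ℕ, ∀ a, (n a : ℤ) = e a + N :=
    ⟨fun a => (e a + N).toNat, fun a => Int.toNat_of_nonneg (hN a)⟩
  have hS : (∑ a, RatFunc.C (ρ a) * RatFunc.X ^ e a) * RatFunc.X ^ N =
      algebraMap κ[X] (RatFunc κ) (∑ a, C (ρ a) * X ^ n a) := by
    rw [Finset.sum_mul, map_sum]
    refine Finset.sum_congr rfl fun a _ => ?_
    rw [map_mul, map_pow, RatFunc.algebraMap_C, RatFunc.algebraMap_X, mul_assoc,
      ← zpow_natCast _ N, ← zpow_add₀ hX, ← hn, zpow_natCast]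
  have hr : r * algebraMap κ[X] (RatFunc κ) r.denom = algebraMap κ[X] (RatFunc κ) r.num := by
    have h0 : algebraMap κ[X] (RatFunc κ) r.denom ≠ 0 :=
      (map_ne_zero_iff _ hinj).mpr r.denom_ne_zero
    rw [← eq_div_iff h0, RatFunc.num_div_denom]
  have hr' := congrArg σ hr
  rw [map_mul, hσ, hσ] at hr'
  have E : expand κ d r.num * (r.denom * X ^ N) =
      expand κ d r.denom * (C c * r.num * X ^ N + (∑ a, C (ρ a) * X ^ n a) * r.denom) := by
    apply hinj
    rw [map_mul, map_mul, map_mul, map_add, map_mul, map_mul, map_mul, ← hS, ← hr, ← hr', h,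
      map_pow, RatFunc.algebraMap_C, RatFunc.algebraMap_X]
    ring
  have hcop : IsCoprime (expand κ d r.denom) (expand κ d r.num) :=
    (r.isCoprime_num_denom.symm).map (expand κ d : κ[X] →ₐ[κ] κ[X]).toRingHom
  obtain ⟨j, hj⟩ := ov_const hd r.monic_denom (hcop.dvd_of_dvd_mul_left (Dvd.intro _ E.symm))
  rw [hj, map_pow, expand_X, ← pow_mul] at E
  have hde' : ∀ a, ¬ (d : ℤ) ∣ (n a : ℤ) - N := fun a => by
    rw [hn, add_sub_cancel_right]
    exact hde a
  have hP := ov_poly hd n N j hde' ρ c r.num (by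
    have e1 : ∑ a, C (ρ a) * X ^ (n a + j + d * j) =
        (∑ a, C (ρ a) * X ^ n a) * X ^ j * X ^ (d * j) := by
      rw [Finset.sum_mul, Finset.sum_mul]
      refine Finset.sum_congr rfl fun a _ => ?_
      ring
    rw [e1]
    linear_combination E)
  generalize r.num.coeff j = u at hP
  refine ⟨⟨u, ?_⟩, fun a => ?_⟩
  · rw [hj, hP, map_mul, RatFunc.algebraMap_C] at hr
    exact mul_right_cancel₀ ((map_ne_zero_iff _ hinj).mpr (pow_ne_zero j X_ne_zero)) hr
  · have E2 : (C u * X ^ N : κ[X]) = C (c * u) * X ^ N + ∑ a, C (ρ a) * X ^ n a := by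
      apply mul_left_cancel₀ (pow_ne_zero (d * j + j) (X_ne_zero (R := κ)))
      rw [hP, map_mul, expand_C, map_pow, expand_X, ← pow_mul] at E
      rw [C_mul]
      linear_combination E
    have hne : n a ≠ N := by
      intro h1
      apply hde' a
      rw [h1, sub_self]
      exact dvd_zero _
    have h1 := congrArg (fun Q => coeff Q (n a)) E2
    simp only [coeff_add, coeff_C_mul, finsetSum_coeff, coeff_X_pow, if_neg hne, mul_zero,
      zero_add] at h1
    rw [Finset.sum_eq_single a, if_pos rfl, mul_one] at h1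
    · exact h1.symm
    · intro b _ hb
      rw [if_neg, mul_zero]
      intro h2
      apply hb
      apply he
      have h3 := hn a
      have h4 := hn b
      omega
    · intro h2
      exact absurd (Finset.mem_univ a) h2

theorem ov_ne_zero {ι κ : Type} [Fintype ι] [Field κ] {g : MvPolynomial ι κ} (hg : g ≠ 0)
    (m : ι → ℕ)
    (hm : ∀ β ∈ g.support, ∀ β' ∈ g.support, ∑ a, β a * m a = ∑ a, β' a * m a → β = β') :
    MvPolynomial.aeval (fun a => (X : κ[X]) ^ m a) g ≠ 0 := by
  obtain ⟨β, hβ⟩ := MvPolynomial.support_nonempty.mpr hg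
  intro h0
  have e1 : MvPolynomial.aeval (fun a => (X : κ[X]) ^ m a) g =
      ∑ β ∈ g.support, C (g.coeff β) * X ^ (∑ a, β a * m a) := by
    rw [MvPolynomial.aeval_def, MvPolynomial.eval₂_eq']
    refine Finset.sum_congr rfl fun β _ => ?_
    rw [algebraMap_eq, ← Finset.prod_pow_eq_pow_sum]
    congr 1
    refine Finset.prod_congr rfl fun a _ => ?_
    rw [← pow_mul, mul_comm]
  have h1 := congrArg (fun Q => coeff Q (∑ a, β a * m a)) (e1.symm.trans h0)
  simp only [finsetSum_coeff, coeff_C_mul, coeff_X_pow, coeff_zero] at h1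
  rw [Finset.sum_eq_single β, if_pos rfl, mul_one] at h1
  · exact MvPolynomial.mem_support_iff.mp hβ h1
  · intro β' hβ' hne
    rw [if_neg, mul_zero]
    exact fun h2 => hne (hm β hβ β' hβ' h2).symm
  · intro h2
    exact absurd hβ h2

/-- Kronecker substitution: `m a = d * R ^ (idx a + 1) + (if a = a0 then 0 else 1)` with `R` large,
where `idx` is an enumeration with `idx a0 = 0`; for `β ≠ β'` the difference `∑ (β a - β' a) * m a` is a nonzero polynomial in `R`. -/
theorem kronecker {ι κ : Type} [Fintype ι] [DecidableEq ι] [Field κ] {d : ℕ} (hd : 2 ≤ d) (a0 : ι)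
    {g : MvPolynomial ι κ} (hg : g ≠ 0) :
    ∃ m : ι → ℕ, Function.Injective m ∧ d ∣ m a0 ∧ (∀ a, a ≠ a0 → m a % d = 1) ∧
      (∀ a, m a0 ≤ m a) ∧
      MvPolynomial.aeval (fun a => (X : κ[X]) ^ m a) g ≠ 0 := by
  obtain ⟨idx, hidx, h0⟩ : ∃ idx : ι → ℕ, Function.Injective idx ∧ idx a0 = 0 := by
    refine ⟨fun a => if a = a0 then 0 else (Fintype.equivFin ι a : ℕ) + 1, fun a b hab => ?_,
      if_pos rfl⟩
    simp only at hab
    by_cases h1 : a = a0 <;> by_cases h2 : b = a0
    · rw [h1, h2]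
    · rw [if_pos h1, if_neg h2] at hab
      omega
    · rw [if_neg h1, if_pos h2] at hab
      omega
    · rw [if_neg h1, if_neg h2] at hab
      exact (Fintype.equivFin ι).injective (Fin.ext (by omega))
  let Q : (ι →₀ ℕ) → ℤ[X] := fun β =>
    ∑ a, C (β a : ℤ) * (C (d : ℤ) * X ^ (idx a + 1) + C (if a = a0 then 0 else 1))
  have hQ : ∀ β a, (Q β).coeff (idx a + 1) = β a * d := by
    intro β a
    simp only [Q, finsetSum_coeff, coeff_C_mul, coeff_add, coeff_X_pow, coeff_C_succ, add_zero]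
    rw [Finset.sum_eq_single a, if_pos rfl, mul_one]
    · intro b _ hb
      rw [if_neg, mul_zero, mul_zero]
      exact fun h2 => hb (hidx (by omega))
    · intro h2
      exact absurd (Finset.mem_univ a) h2
  have hne : ∏ z ∈ g.support.offDiag, (Q z.1 - Q z.2) ≠ 0 := by
    refine Finset.prod_ne_zero_iff.mpr fun z hz => sub_ne_zero.mpr fun h1 => ?_
    apply (Finset.mem_offDiag.mp hz).2.2
    ext a
    have h2 := hQ z.1 a
    rw [h1, hQ] at h2
    have h3 : (d : ℤ) ≠ 0 := by omega
    exact_mod_cast (mul_right_cancel₀ h3 h2).symm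
  have hfin : Set.Finite {R : ℕ | IsRoot (∏ z ∈ g.support.offDiag, (Q z.1 - Q z.2)) (R : ℤ)} :=
    (finite_setOfPred_isRoot hne).preimage Nat.cast_injective.injOn
  obtain ⟨R, hR2, hR⟩ := (Set.Ici_infinite 2).exists_notMem_finite hfin
  have hR2' : 2 ≤ R := hR2
  refine ⟨fun a => d * R ^ (idx a + 1) + if a = a0 then 0 else 1, fun a b hab => ?_, ?_, ?_, ?_, ?_⟩
  · simp only at hab
    have h1 := congrArg (fun x => x % d) hab
    simp only [Nat.mul_add_mod] at h1
    have h2 : 1 % d = 1 := Nat.mod_eq_of_lt hd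
    split_ifs at hab h1 with h3 h4 h4
    · rw [h3, h4]
    · rw [Nat.zero_mod] at h1
      omega
    · rw [Nat.zero_mod] at h1
      omega
    · have h5 := Nat.eq_of_mul_eq_mul_left (show 0 < d by omega) (Nat.add_right_cancel hab)
      have h6 := Nat.pow_right_injective hR2' h5
      exact hidx (by omega)
  · simp
  · intro a ha
    simp only [if_neg ha, Nat.mul_add_mod]
    exact Nat.mod_eq_of_lt hd
  · intro a
    simp only [if_pos, h0, add_zero]
    exact (Nat.mul_le_mul_left d (Nat.pow_le_pow_right (by omega) (by omega))).trans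
      (Nat.le_add_right _ _)
  · refine ov_ne_zero hg _ fun β hβ β' hβ' h1 => ?_
    by_contra h2
    apply hR
    change IsRoot _ _
    rw [IsRoot.def, eval_prod]
    refine Finset.prod_eq_zero (i := (β, β')) (Finset.mem_offDiag.mpr ⟨hβ, hβ', h2⟩) ?_
    have e1 : ∀ γ : ι →₀ ℕ, (Q γ).eval (R : ℤ) =
        ((∑ a, γ a * (d * R ^ (idx a + 1) + if a = a0 then 0 else 1) : ℕ) : ℤ) := by
      intro γ
      simp only [Q, eval_finsetSum, eval_mul, eval_add, eval_C, eval_pow, eval_X]
      push_cast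
      rfl
    rw [eval_sub, e1, e1, h1, sub_self]

end Pool.Agent.Lib.MP_0dd0d9_ag.Hi
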