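import Pool.Agent.Lib.MP_0dd0d9_ag.Hi.Defs

/-!
Basic facts on tuples of polynomials: iterates, Jacobians, the power map, the slice.
-/

namespace Pool.Agent.Lib.MP_0dd0d9_ag.Hi

open MvPolynomial

variable {ι : Type} [Fintype ι] [DecidableEq ι] {d : ℕ}
variable {R S : Type} [CommRing R] [CommRing S]

/-- Iterates of a tuple of polynomials. -/
noncomputable def itr (F : ι → MvPolynomial ι R) : ℕ → ι → MvPolynomial ι R
  | 0 => X
  | n + 1 => fun a => bind₁ (itr F n) (F a)

/-- The Jacobian matrix. -/
noncomputable def jm (G : ι → MvPolynomial ι R) : Matrix ι ι (MvPolynomial ι R) :=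
  Matrix.of fun a b => pderiv b (G a)

/-- The Jacobian determinant. -/
noncomputable def jac (G : ι → MvPolynomial ι R) : MvPolynomial ι R := (jm G).det

/-- The power map. -/
noncomputable def pw (R : Type) [CommRing R] (q : ℕ) (a : ι) : MvPolynomial ι R := X a ^ q

/-- The coefficients of the power map. -/
noncomputable def cpow (R : Type) [CommRing R] (x : ι × Mn ι d) : R :=
  if x.2.1 = Finsupp.single x.1 d then 1 else 0

/-- Exponent vectors other than pure powers. -/
abbrev MnS (ι : Type) [Fintype ι] [DecidableEq ι] (d : ℕ) : Type :=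
  {δ : Mn ι d // ∀ b, δ.1 ≠ Finsupp.single b d}

/-- The slice: maps fixing the coordinate points and the vector `(1, …, 1)`. -/
noncomputable def sl (c : ι × MnS ι d → R) (x : ι × Mn ι d) : R :=
  if h : ∀ b, x.2.1 ≠ Finsupp.single b d then c (x.1, ⟨x.2, h⟩)
  else if x.2.1 = Finsupp.single x.1 d then 1 - ∑ δ, c (x.1, δ) else 0

/-- Apply an additive map to the coefficients. -/
noncomputable def dco (D : R → R) (p : MvPolynomial ι R) : MvPolynomial ι R :=
  ∑ α ∈ p.support, monomial α (D (coeff α p))

/-- All components are homogeneous of degree `d`. -/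
def Hm (F : ι → MvPolynomial ι R) (d : ℕ) : Prop := ∀ a, (F a).IsHomogeneous d

theorem mem_Mn {δ : ι →₀ ℕ} :
    δ ∈ (Finset.univ : Finset ι).finsuppAntidiag d ↔ δ.degree = d := by
  rw [Finset.mem_finsuppAntidiag, Finsupp.degree_eq_sum]
  simp

theorem Mn_degree (δ : Mn ι d) : δ.1.degree = d := mem_Mn.1 δ.2

theorem map_Fp (f : R →+* S) (c : ι × Mn ι d → R) (a : ι) :
    map f (Fp c a) = Fp (f ∘ c) a := by
  simp [Fp, map_monomial]

theorem Fp_hm (c : ι × Mn ι d → R) : Hm (Fp c) d := fun _ =>
  IsHomogeneous.sum _ _ _ fun δ _ => isHomogeneous_monomial _ (Mn_degree δ)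

theorem coeff_Fp (c : ι × Mn ι d → R) (a : ι) (δ : Mn ι d) : coeff δ.1 (Fp c a) = c (a, δ) := by
  rw [Fp, coeff_sum, Finset.sum_eq_single δ]
  · simp
  · intro b _ hb
    rw [coeff_monomial, if_neg fun h => hb (Subtype.ext h)]
  · simp

theorem Fp_coeff {G : ι → MvPolynomial ι R} (hG : Hm G d) :
    Fp (fun x : ι × Mn ι d => coeff x.2.1 (G x.1)) = G := by
  funext a
  ext α
  by_cases h : α.degree = d
  · exact coeff_Fp _ a ⟨α, mem_Mn.2 h⟩
  · rw [(hG a).coeff_eq_zero h, (Fp_hm _ a).coeff_eq_zero h]

theorem Fp_inj {c c' : ι × Mn ι d → R} (h : Fp c = Fp c') : c = c' := by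
  funext x
  rw [← coeff_Fp c x.1 x.2, h, coeff_Fp]

theorem aeval_Fp [Algebra R S] (c : ι × Mn ι d → R) (y : ι → S) (a : ι) :
    ap (Fp c) y a = ∑ δ : Mn ι d, algebraMap R S (c (a, δ)) * ∏ b, y b ^ δ.1 b := by
  simp only [ap, Fp, map_sum, aeval_monomial]
  refine Finset.sum_congr rfl fun δ _ => ?_
  rw [Finsupp.prod_fintype _ _ (by simp)]

omit [Fintype ι] [DecidableEq ι] in
theorem ap_map [Algebra R S] (F : ι → MvPolynomial ι R) (y : ι → S) :
    ap (fun a => map (algebraMap R S) (F a)) y = ap F y := by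
  funext a
  simp only [ap]
  rw [aeval_map_algebraMap]

omit [Fintype ι] [DecidableEq ι] in
/-- Naturality of `ap` under a ring homomorphism. -/
theorem hom_ap (f : R →+* S) (F : ι → MvPolynomial ι R) (y : ι → R) :
    f ∘ ap F y = ap (fun a => map f (F a)) (f ∘ y) := by
  funext a
  simp only [ap, Function.comp, aeval_eq_eval]
  rw [eval_map, ← eval₂_id, eval₂_comp_left]
  rfl

omit [Fintype ι] [DecidableEq ι] in
theorem hom_ap_iter (f : R →+* S) (F : ι → MvPolynomial ι R) (y : ι → R) (n : ℕ) :
    f ∘ (ap F)^[n] y = (ap (fun a => map f (F a)))^[n] (f ∘ y) := by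
  induction n with
  | zero => rfl
  | succ n ih => rw [Function.iterate_succ_apply', Function.iterate_succ_apply', hom_ap, ih]

omit [Fintype ι] [DecidableEq ι] in
/-- Naturality of `ap` under an algebra homomorphism. -/
theorem algHom_ap {T : Type} [CommRing T] [Algebra R S] [Algebra R T] (f : S →ₐ[R] T)
    (F : ι → MvPolynomial ι R) (y : ι → S) : f ∘ ap F y = ap F (f ∘ y) := by
  funext a
  simp only [ap, Function.comp]
  rw [← AlgHom.comp_apply, comp_aeval]
  rfl

omit [Fintype ι] [DecidableEq ι] in
@[simp] theorem itr_zero (F : ι → MvPolynomial ι R) : itr F 0 = X := rfl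

omit [Fintype ι] [DecidableEq ι] in
theorem itr_succ (F : ι → MvPolynomial ι R) (n : ℕ) (a : ι) :
    itr F (n + 1) a = bind₁ (itr F n) (F a) := rfl

omit [Fintype ι] [DecidableEq ι] in
theorem itr_one (F : ι → MvPolynomial ι R) : itr F 1 = F := by
  funext a
  simp [itr_succ]

omit [Fintype ι] [DecidableEq ι] in
theorem ap_itr [Algebra R S] (F : ι → MvPolynomial ι R) (n : ℕ) (y : ι → S) :
    ap (itr F n) y = (ap F)^[n] y := by
  induction n with
  | zero => funext a; simp [ap]
  | succ n ih =>
    rw [Function.iterate_succ_apply', ← ih]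
    funext a
    simp only [ap, itr_succ, aeval_bind₁]
    rfl

omit [Fintype ι] [DecidableEq ι] in
theorem itr_add (F : ι → MvPolynomial ι R) (m n : ℕ) (a : ι) :
    itr F (m + n) a = bind₁ (itr F n) (itr F m a) := by
  induction m generalizing a with
  | zero => simp
  | succ m ih =>
    rw [Nat.add_right_comm, itr_succ, itr_succ, bind₁_bind₁]
    exact congrArg (fun g => bind₁ g (F a)) (funext ih)

omit [Fintype ι] [DecidableEq ι] in
theorem map_itr (f : R →+* S) (F : ι → MvPolynomial ι R) (n : ℕ) (a : ι) :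
    map f (itr F n a) = itr (fun a => map f (F a)) n a := by
  induction n generalizing a with
  | zero => simp
  | succ n ih =>
    rw [itr_succ, itr_succ, map_bind₁]
    exact congrArg (fun g => bind₁ g (map f (F a))) (funext ih)

omit [Fintype ι] [DecidableEq ι] in
theorem Hm.iter {F : ι → MvPolynomial ι R} (h : Hm F d) (n : ℕ) : Hm (itr F n) (d ^ n) := by
  induction n with
  | zero => exact fun a => isHomogeneous_X R a
  | succ n ih => exact fun a => (h a).aeval _ ih

omit [Fintype ι] [DecidableEq ι] in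
theorem Hm.mp {F : ι → MvPolynomial ι R} (h : Hm F d) (f : R →+* S) :
    Hm (fun a => map f (F a)) d := fun a => (h a).map f

omit [DecidableEq ι] in
theorem aeval_smul_of_hom [Algebra R S] {p : MvPolynomial ι R} {e : ℕ} (h : p.IsHomogeneous e)
    (t : S) (y : ι → S) : aeval (t • y) p = t ^ e * aeval y p := by
  conv_lhs => rw [p.as_sum]
  conv_rhs => rw [p.as_sum]
  rw [map_sum, map_sum, Finset.mul_sum]
  refine Finset.sum_congr rfl fun α hα => ?_
  have hd : α.degree = e := by
    by_contra c
    exact (mem_support_iff.1 hα) (h.coeff_eq_zero c)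
  rw [aeval_monomial, aeval_monomial, Finsupp.prod_fintype _ _ (by simp),
    Finsupp.prod_fintype _ _ (by simp), ← hd, Finsupp.degree_eq_sum]
  simp only [Pi.smul_apply, smul_eq_mul, mul_pow, Finset.prod_mul_distrib,
    Finset.prod_pow_eq_pow_sum]
  ring

omit [DecidableEq ι] in
theorem Hm.ap_smul [Algebra R S] {F : ι → MvPolynomial ι R} (h : Hm F d) (t : S) (y : ι → S) :
    ap F (t • y) = t ^ d • ap F y := by
  funext a
  exact aeval_smul_of_hom (h a) t y

omit [DecidableEq ι] in
theorem Hm.ap_iter_smul [Algebra R S] {F : ι → MvPolynomial ι R} (h : Hm F d) (n : ℕ) (t : S)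
    (y : ι → S) : (ap F)^[n] (t • y) = t ^ d ^ n • (ap F)^[n] y := by
  rw [← ap_itr, ← ap_itr, (h.iter n).ap_smul]

theorem map_jac (f : R →+* S) (G : ι → MvPolynomial ι R) :
    map f (jac G) = jac fun a => map f (G a) := by
  rw [jac, jac, RingHom.map_det]
  congr 1
  ext a b : 2
  simp [jm, pderiv_map]

omit [DecidableEq ι] in
theorem pderiv_bind (G : ι → MvPolynomial ι R) (p : MvPolynomial ι R) (b : ι) :
    pderiv b (bind₁ G p) = ∑ c, bind₁ G (pderiv c p) * pderiv b (G c) := by
  classical
  induction p using MvPolynomial.induction_on with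
  | C a => simp
  | add p q hp hq => simp [hp, hq, add_mul, Finset.sum_add_distrib]
  | mul_X p i hp =>
    simp only [map_mul, bind₁_X_right, Derivation.leibniz, smul_eq_mul, hp, map_add,
      pderiv_X, add_mul, Finset.sum_add_distrib, Finset.mul_sum]
    congr 1
    · rw [Finset.sum_eq_single i]
      · simp
      · intro c _ hc
        simp [Pi.single_eq_of_ne' hc]
      · simp
    · exact Finset.sum_congr rfl fun c _ => by ring

omit [DecidableEq ι] in
theorem jm_itr_succ (F : ι → MvPolynomial ι R) (n : ℕ) :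
    jm (itr F (n + 1)) = (jm F).map (bind₁ (itr F n)) * jm (itr F n) := by
  ext a b : 2
  simp only [jm, Matrix.of_apply, Matrix.mul_apply, Matrix.map_apply, itr_succ, pderiv_bind]

theorem jac_itr_succ (F : ι → MvPolynomial ι R) (n : ℕ) :
    jac (itr F (n + 1)) = bind₁ (itr F n) (jac F) * jac (itr F n) := by
  rw [jac, jm_itr_succ, Matrix.det_mul, jac, jac, AlgHom.map_det]
  rfl

theorem jac_X : jac (X : ι → MvPolynomial ι R) = 1 := by
  rw [jac, show jm (X : ι → MvPolynomial ι R) = 1 from ?_, Matrix.det_one]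
  ext a b : 2
  simp only [jm, Matrix.of_apply, pderiv_X, Matrix.one_apply, Pi.single_apply]

/-- The chain rule for the Jacobian determinant of an iterate. -/
theorem aeval_jac_itr [Algebra R S] (F : ι → MvPolynomial ι R) (n : ℕ) (y : ι → S) :
    aeval y (jac (itr F n)) = ∏ i ∈ Finset.range n, aeval ((ap F)^[i] y) (jac F) := by
  induction n with
  | zero => simp [jac_X]
  | succ n ih =>
    rw [jac_itr_succ, map_mul, ih, Finset.prod_range_succ, mul_comm, aeval_bind₁, ← ap_itr]
    rfl

theorem Hm.jacob {G : ι → MvPolynomial ι R} (h : Hm G d) :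
    (jac G).IsHomogeneous (Fintype.card ι * (d - 1)) := by
  rw [jac, Matrix.det_apply']
  refine IsHomogeneous.sum _ _ _ fun σ _ => ?_
  have h1 : (∏ i, jm G (σ i) i).IsHomogeneous (∑ _i : ι, (d - 1)) :=
    IsHomogeneous.prod _ _ _ fun i _ => (h (σ i)).pderiv
  have h2 := (isHomogeneous_C ι ((Equiv.Perm.sign σ : ℤ) : R)).mul h1
  simpa using h2

omit [Fintype ι] [DecidableEq ι] in
theorem pw_hm (q : ℕ) : Hm (pw R q : ι → MvPolynomial ι R) q := fun a =>
  isHomogeneous_X_pow a q

omit [Fintype ι] [DecidableEq ι] in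
theorem map_pw (f : R →+* S) (q : ℕ) (a : ι) : map f (pw R q a) = pw S q a := by simp [pw]

omit [Fintype ι] [DecidableEq ι] in
theorem ap_pw [Algebra R S] (q : ℕ) (y : ι → S) (a : ι) : ap (pw R q) y a = y a ^ q := by
  simp [ap, pw]

omit [Fintype ι] [DecidableEq ι] in
theorem itr_pw (q n : ℕ) : itr (pw R q : ι → MvPolynomial ι R) n = pw R (q ^ n) := by
  induction n with
  | zero => funext a; simp [pw]
  | succ n ih => funext a; rw [itr_succ, ih]; simp [pw, pow_succ, pow_mul]

theorem Fp_cpow : Fp (cpow R : ι × Mn ι d → R) = pw R d := by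
  rw [← Fp_coeff (pw_hm d)]
  congr 1
  funext x
  simp only [cpow, pw, coeff_X_pow, eq_comm]

theorem map_cpow (f : R →+* S) : f ∘ (cpow R : ι × Mn ι d → R) = cpow S := by
  funext x
  simp only [cpow, Function.comp]
  split_ifs <;> simp

theorem map_sl (f : R →+* S) (c : ι × MnS ι d → R) : f ∘ sl c = sl (f ∘ c) := by
  funext x
  simp only [sl, Function.comp]
  split_ifs <;> simp

theorem sl_zero : sl (0 : ι × MnS ι d → R) = cpow R := by
  funext x
  simp only [sl, cpow, Pi.zero_apply, Finset.sum_const_zero, sub_zero]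
  split_ifs with h1 h2
  · exact absurd h2 (h1 _)
  all_goals rfl

theorem sl_apply (c : ι × MnS ι d → R) (a : ι) (δ : MnS ι d) : sl c (a, δ.1) = c (a, δ) := by
  simp only [sl]
  rw [dif_pos δ.2]

omit [Fintype ι] in
theorem coeff_dco {D : R → R} (hD : D 0 = 0) (p : MvPolynomial ι R) (α : ι →₀ ℕ) :
    coeff α (dco D p) = D (coeff α p) := by
  rw [dco, coeff_sum, Finset.sum_eq_single α]
  · simp
  · intro β _ h
    rw [coeff_monomial, if_neg h]
  · intro h
    rw [notMem_support_iff.1 h, hD]
    simp

omit [Fintype ι] in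
theorem totalDegree_dco {D : R → R} (hD : D 0 = 0) (p : MvPolynomial ι R) :
    (dco D p).totalDegree ≤ p.totalDegree := by
  refine totalDegree_le_of_support_subset fun α hα => ?_
  rw [mem_support_iff] at hα ⊢
  intro h
  exact hα (by rw [coeff_dco hD, h, hD])

theorem dco_Fp {D : R → R} (hD : D 0 = 0) (c : ι × Mn ι d → R) (a : ι) :
    dco D (Fp c a) = Fp (D ∘ c) a := by
  ext α
  rw [coeff_dco hD]
  by_cases h : α.degree = d
  · exact (congrArg D (coeff_Fp c a ⟨α, mem_Mn.2 h⟩)).trans
      (coeff_Fp (D ∘ c) a ⟨α, mem_Mn.2 h⟩).symm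
  · rw [(Fp_hm _ a).coeff_eq_zero h, (Fp_hm _ a).coeff_eq_zero h, hD]

/-- The chain rule for a derivation of the coefficient ring. -/
theorem der_aeval_dco {A : Type} [CommRing A] [Algebra A R] (D : Derivation A R R)
    (p : MvPolynomial ι R) (y : ι → R) :
    D (aeval y p) = aeval y (dco D p) + ∑ b, aeval y (pderiv b p) * D (y b) := by
  have hadd : ∀ p q : MvPolynomial ι R, dco D (p + q) = dco D p + dco D q := fun p q => by
    ext α
    simp [coeff_dco (map_zero D)]
  induction p using MvPolynomial.induction_on with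
  | C a =>
    have : dco D (C a : MvPolynomial ι R) = C (D a) := by
      ext α
      rw [coeff_dco (map_zero D), coeff_C, coeff_C]
      split_ifs <;> simp
    simp [this]
  | add p q hp hq =>
    simp only [hadd, hp, hq, map_add, add_mul, Finset.sum_add_distrib]
    ring
  | mul_X p i hp =>
    have : dco D (p * X i) = dco D p * X i := by
      ext α
      rw [coeff_dco (map_zero D), coeff_mul_X', coeff_mul_X']
      split_ifs
      · rw [coeff_dco (map_zero D)]
      · simp
    simp only [this, map_mul, aeval_X, Derivation.leibniz, smul_eq_mul, hp, map_add, pderiv_X,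
      add_mul, Finset.sum_add_distrib, mul_add, Finset.mul_sum]
    have e0 : ∑ b, aeval y p * aeval y (Pi.single (M := fun _ => MvPolynomial ι R) b 1 i) *
        D (y b) = aeval y p * D (y i) := by
      rw [Finset.sum_eq_single i]
      · simp
      · intro c _ hc
        simp [Pi.single_eq_of_ne' hc]
      · simp
    have e : ∀ b, y i * (aeval y (pderiv b p) * D (y b)) =
        y i * aeval y (pderiv b p) * D (y b) := fun b => by ring
    simp only [e, e0]
    ring

/-- The chain rule for a derivation that is linear over the coefficients. -/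
theorem der_aeval [Algebra R S] (D : Derivation R S S) (p : MvPolynomial ι R) (y : ι → S) :
    D (aeval y p) = ∑ b, aeval y (pderiv b p) * D (y b) := by
  induction p using MvPolynomial.induction_on with
  | C a => simp
  | add p q hp hq => simp [hp, hq, add_mul, Finset.sum_add_distrib]
  | mul_X p i hp =>
    simp only [map_mul, aeval_X, Derivation.leibniz, smul_eq_mul, hp, map_add, pderiv_X,
      add_mul, Finset.sum_add_distrib, Finset.mul_sum]
    have e0 : ∑ b, aeval y p * aeval y (Pi.single (M := fun _ => MvPolynomial ι R) b 1 i) *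
        D (y b) = aeval y p * D (y i) := by
      rw [Finset.sum_eq_single i]
      · simp
      · intro c _ hc
        simp [Pi.single_eq_of_ne' hc]
      · simp
    rw [e0]
    congr 1
    exact Finset.sum_congr rfl fun b _ => by ring

omit [DecidableEq ι] in
theorem aeval_lin [Algebra R S] (φ : Matrix ι ι R) (y : ι → S) :
    (fun i => aeval y (lin φ i)) = (φ.map (algebraMap R S)).mulVec y := by
  funext i
  simp [lin, Matrix.mulVec, dotProduct]

omit [DecidableEq ι] in
/-- Over an infinite field conjugacy can be tested on points. -/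
theorem conj_iff {K : Type} [Field K] [Infinite K] {φ : Matrix ι ι K} {a : K}
    {F F' : ι → MvPolynomial ι K} :
    Conj φ a F F' ↔ ∀ y : ι → K, ap F' (φ.mulVec y) = a • φ.mulVec (ap F y) := by
  have key : ∀ (y : ι → K) (i : ι), eval y (bind₁ (lin φ) (F' i)) = ap F' (φ.mulVec y) i ∧
      eval y (C a * ∑ j, C (φ i j) * F j) = (a • φ.mulVec (ap F y)) i := fun y i => by
    constructor
    · rw [← coe_aeval_eq_eval]
      change aeval y _ = _
      rw [aeval_bind₁, aeval_lin]
      rfl
    · simp [Matrix.mulVec, dotProduct, ap]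
  constructor
  · intro h y
    funext i
    rw [← (key y i).1, ← (key y i).2, h i]
  · intro h i
    refine MvPolynomial.funext fun y => ?_
    rw [(key y i).1, (key y i).2, h y]

omit [DecidableEq ι] in
theorem Conj.mp {φ : Matrix ι ι R} {a : R} {F F' : ι → MvPolynomial ι R} (h : Conj φ a F F')
    (f : R →+* S) :
    Conj (φ.map f) (f a) (fun i => map f (F i)) (fun i => map f (F' i)) := by
  intro i
  have := congrArg (MvPolynomial.map f) (h i)
  rw [map_bind₁] at this
  have e : (fun i => MvPolynomial.map f (lin φ i)) = lin (φ.map f) := by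
    funext i
    simp [lin]
  rw [e] at this
  simpa using this

end Pool.Agent.Lib.MP_0dd0d9_ag.Hi
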