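import Pool.Agent.Lib.MP_0dd0d9_ag.Hi.Lift

/-!
TASK gh Red1.  The generic point of a component.
-/

namespace Pool.Agent.Lib.MP_0dd0d9_ag.Hi

open MvPolynomial

variable {ι : Type} [Fintype ι] [DecidableEq ι] {d : ℕ}

/-- The vanishing ideal is radical with finitely many minimal primes; take `g` in all the other
minimal primes but not in `𝔭`. -/
theorem red_pt {σ : Type} [Finite σ] (Y : Set (σ → ℂ)) (𝔭 : Ideal (MvPolynomial σ ℂ)) [𝔭.IsPrime]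
    (h : 𝔭 ∈ (vanishingIdeal ℂ Y).minimalPrimes) :
    ∃ (g : MvPolynomial σ ℂ) (y : σ → ℂ), y ∈ Y ∧ eval y g ≠ 0 ∧
      ∀ q ∈ 𝔭, g * q ∈ vanishingIdeal ℂ Y := by
  classical
  have hfin := Ideal.finite_minimalPrimes_of_isNoetherianRing _ (vanishingIdeal ℂ Y)
  have hrad : (vanishingIdeal ℂ Y).radical ≤ vanishingIdeal ℂ Y := by
    rintro f ⟨m, hm⟩ x hx
    have := hm x hx
    rw [map_pow] at this
    exact pow_eq_zero_iff'.1 this |>.1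
  have hn : ¬ (hfin.toFinset.erase 𝔭).inf id ≤ 𝔭 := by
    rw [Ideal.IsPrime.inf_le' inferInstance]
    rintro ⟨𝔮, h1, h2⟩
    obtain ⟨h3, h4⟩ := Finset.mem_erase.1 h1
    rw [Set.Finite.mem_toFinset] at h4
    exact h3 (le_antisymm h2 (h.2 h4.1 h2))
  obtain ⟨g, hg1, hg2⟩ := Set.not_subset.1 hn
  have hg3 : g ∉ vanishingIdeal ℂ Y := fun hI => hg2 (h.1.2 hI)
  rw [mem_vanishingIdeal_iff] at hg3
  simp only [not_forall] at hg3
  obtain ⟨y, hy, hy2⟩ := hg3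
  refine ⟨g, y, hy, hy2, fun q hq => hrad ?_⟩
  rw [← Ideal.sInf_minimalPrimes, Ideal.mem_sInf]
  intro 𝔮 h𝔮
  by_cases e : 𝔮 = 𝔭
  · rw [e]
    exact Ideal.mul_mem_left _ _ hq
  · refine Ideal.mul_mem_right _ _ ?_
    have : (hfin.toFinset.erase 𝔭).inf id ≤ id 𝔮 :=
      Finset.inf_le (Finset.mem_erase.2 ⟨e, (Set.Finite.mem_toFinset _).2 h𝔮⟩)
    exact this hg1

/-- The universal iterate. -/
noncomputable def uit (ι : Type) [Fintype ι] [DecidableEq ι] (d n : ℕ) (a : ι) :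
    MvPolynomial ((ι × Mn ι d) ⊕ ι) ℂ :=
  (ap (Fp fun x => (X (Sum.inl x) : MvPolynomial ((ι × Mn ι d) ⊕ ι) ℂ)))^[n]
    (fun b => (X (Sum.inr b) : MvPolynomial ((ι × Mn ι d) ⊕ ι) ℂ)) a

/-- `hom_ap_iter`, `map_Fp`. -/
theorem aeval_uit {S : Type} [CommRing S] [Algebra ℂ S] (u : (ι × Mn ι d) ⊕ ι → S) (n : ℕ)
    (a : ι) : aeval u (uit ι d n a) = (ap (Fp (u ∘ Sum.inl)))^[n] (u ∘ Sum.inr) a := by
  have h := congrFun (hom_ap_iter
    (aeval u : MvPolynomial ((ι × Mn ι d) ⊕ ι) ℂ →ₐ[ℂ] S).toRingHom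
    (Fp fun x => (X (Sum.inl x) : MvPolynomial ((ι × Mn ι d) ⊕ ι) ℂ))
    (fun b => (X (Sum.inr b) : MvPolynomial ((ι × Mn ι d) ⊕ ι) ℂ)) n) a
  have e1 : (fun a => map (aeval u : MvPolynomial ((ι × Mn ι d) ⊕ ι) ℂ →ₐ[ℂ] S).toRingHom
      (Fp (fun x => (X (Sum.inl x) : MvPolynomial ((ι × Mn ι d) ⊕ ι) ℂ)) a))
      = Fp (u ∘ Sum.inl) := by
    funext a
    rw [map_Fp]
    congr 1
    funext x
    simp
  have e2 : ((aeval u : MvPolynomial ((ι × Mn ι d) ⊕ ι) ℂ →ₐ[ℂ] S).toRingHom ∘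
      fun b => (X (Sum.inr b) : MvPolynomial ((ι × Mn ι d) ⊕ ι) ℂ)) = u ∘ Sum.inr := by
    funext b
    simp
  rw [e1, e2] at h
  exact h

theorem par_iff {K : Type} [Field K] {p q : ι → K} (hp : p ≠ 0) :
    (∃ μ : K, q = μ • p) ↔ ∀ a b, q a * p b = q b * p a := by
  constructor
  · rintro ⟨μ, rfl⟩ a b
    simp only [Pi.smul_apply, smul_eq_mul]
    ring
  · intro h
    obtain ⟨b, hb⟩ := Function.ne_iff.1 hp
    have hb' : p b ≠ 0 := hb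
    refine ⟨q b / p b, funext fun a => ?_⟩
    rw [Pi.smul_apply, smul_eq_mul, div_mul_eq_mul_div, ← h a b, mul_div_cancel_right₀ _ hb']

/-- The minors that express that the iterate is parallel to the point. -/
noncomputable def red1_mn (ι : Type) [Fintype ι] [DecidableEq ι] (d i : ℕ) (a b : ι) :
    MvPolynomial ((ι × Mn ι d) ⊕ ι) ℂ :=
  uit ι d i a * X (Sum.inr b) - uit ι d i b * X (Sum.inr a)

theorem red1_par {K : Type} [Field K] [Algebra ℂ K] {u : (ι × Mn ι d) ⊕ ι → K}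
    (hu : u ∘ Sum.inr ≠ 0) (i : ℕ) :
    (∃ μ : K, (ap (Fp (u ∘ Sum.inl)))^[i] (u ∘ Sum.inr) = μ • (u ∘ Sum.inr)) ↔
      ∀ a b, aeval u (red1_mn ι d i a b) = 0 := by
  rw [par_iff hu]
  refine forall_congr' fun a => forall_congr' fun b => ?_
  rw [red1_mn, map_sub, map_mul, map_mul, aeval_uit, aeval_uit, aeval_X, aeval_X, sub_eq_zero]
  rfl

theorem red1_van {σ : Type} {Y : Set (σ → ℂ)} {𝔭 : Ideal (MvPolynomial σ ℂ)}
    {g : MvPolynomial σ ℂ} {y : σ → ℂ} (hy : y ∈ Y) (hg : eval y g ≠ 0)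
    (hq : ∀ q ∈ 𝔭, g * q ∈ vanishingIdeal ℂ Y) {q : MvPolynomial σ ℂ} (h : q ∈ 𝔭) :
    aeval y q = 0 := by
  have := hq q h y hy
  rw [map_mul] at this
  exact (mul_eq_zero.1 this).resolve_left hg

/-- With `g`, `y` from `red_pt`, every element of `𝔭` vanishes at `y`.  Use the minors
`uit i a * X b - uit i b * X a`. -/
theorem red_open {n : ℕ} (𝔭 : Ideal (MvPolynomial ((ι × Mn ι d) ⊕ ι) ℂ)) [𝔭.IsPrime]
    (h : 𝔭 ∈ (vanishingIdeal ℂ (Yn ι d n)).minimalPrimes) {K : Type} [Field K] [Algebra ℂ K]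
    {u0 : (ι × Mn ι d) ⊕ ι → K} (hu0 : ∀ q, aeval u0 q = 0 ↔ q ∈ 𝔭) :
    u0 ∘ Sum.inr ≠ 0 ∧ ExactPer (ap (Fp (u0 ∘ Sum.inl))) n (u0 ∘ Sum.inr) := by
  obtain ⟨g, y, hy, hg, hq⟩ := red_pt _ 𝔭 h
  have h0 : u0 ∘ Sum.inr ≠ 0 := by
    intro e
    apply hy.2.1
    funext b
    have h1 : aeval u0 (X (Sum.inr b) : MvPolynomial ((ι × Mn ι d) ⊕ ι) ℂ) = 0 := by
      rw [aeval_X]
      exact congrFun e b
    have h2 := red1_van hy hg hq ((hu0 _).1 h1)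
    rwa [aeval_X] at h2
  refine ⟨h0, ?_, fun i h1 h2 => ?_⟩
  · rw [red1_par h0]
    intro a b
    rw [hu0]
    refine h.1.2 fun u hu => ?_
    exact (red1_par hu.2.1 n).1 hu.2.2.1 a b
  · rw [red1_par h0]
    intro h3
    apply hy.2.2.2 i h1 h2
    rw [red1_par hy.2.1]
    intro a b
    exact red1_van hy hg hq ((hu0 _).1 (h3 a b))

theorem red1_omega (τ : Type) : AlgebraicIndependent ℂ fun x : τ =>
    algebraMap (MvPolynomial τ ℂ) (AlgebraicClosure (FractionRing (MvPolynomial τ ℂ))) (X x) := by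
  rw [algebraicIndependent_iff]
  intro p hp
  have e : aeval (fun x : τ => algebraMap (MvPolynomial τ ℂ)
      (AlgebraicClosure (FractionRing (MvPolynomial τ ℂ))) (X x)) =
      IsScalarTower.toAlgHom ℂ (MvPolynomial τ ℂ)
        (AlgebraicClosure (FractionRing (MvPolynomial τ ℂ))) := by
    ext i
    simp
  rw [e, IsScalarTower.coe_toAlgHom', IsScalarTower.algebraMap_apply (MvPolynomial τ ℂ)
    (FractionRing (MvPolynomial τ ℂ)), map_eq_zero,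
    map_eq_zero_iff _ (IsFractionRing.injective _ _)] at hp
  exact hp

theorem red1_main (hd : 2 ≤ d) {n : ℕ} (hn : 1 ≤ n) {Ω : Type} [Field Ω] [Algebra ℂ Ω]
    [IsAlgClosed Ω] {c : ι × Mn ι d → Ω} (hc : AlgebraicIndependent ℂ c)
    {y : (ι × Mn ι d) ⊕ ι → ℂ} (hy : y ∈ Yn ι d n) :
    ∃ Z : ι → Ω, (∀ q : MvPolynomial ((ι × Mn ι d) ⊕ ι) ℂ,
        aeval (Sum.elim c Z) q = 0 → eval y q = 0) ∧
      ∀ f ∈ vanishingIdeal ℂ (Yn ι d n), aeval (Sum.elim c Z) f = 0 := by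
  classical
  obtain ⟨O, hO, hnear⟩ := val_exists_indep hc (y ∘ Sum.inl)
  obtain ⟨μ0, hμ0⟩ := hy.2.2.1
  obtain ⟨Z, hZ, hZn⟩ := lift_per hd hn hO hnear (reg_of_nz hy.1) hμ0
  have hv : Near O (Sum.elim c Z) y := by
    have := hnear.sum hZn
    rwa [Sum.elim_comp_inl_inr] at this
  have hz : ∀ q : MvPolynomial ((ι × Mn ι d) ⊕ ι) ℂ,
      aeval (Sum.elim c Z) q = 0 → eval y q = 0 := fun q hq => hv.eq_zero hO hq
  refine ⟨Z, hz, fun f hf => ?_⟩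
  obtain ⟨ρ, hρ0, hρ⟩ := rho_exists ι d
  obtain ⟨b, hb⟩ := Function.ne_iff.1 hy.2.1
  have hm : ∀ i, ∃ m : ι × ι, 0 < i → i < n → aeval y (red1_mn ι d i m.1 m.2) ≠ 0 := by
    intro i
    by_cases hi : 0 < i ∧ i < n
    · have h1 := hy.2.2.2 i hi.1 hi.2
      rw [red1_par hy.2.1] at h1
      simp only [not_forall] at h1
      obtain ⟨a, a', h1⟩ := h1
      exact ⟨(a, a'), fun _ _ => h1⟩
    · exact ⟨(b, b), fun h1 h2 => absurd ⟨h1, h2⟩ hi⟩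
  choose m hm using hm
  have hprime : (RingHom.ker (aeval (Sum.elim c Z) :
      MvPolynomial ((ι × Mn ι d) ⊕ ι) ℂ →ₐ[ℂ] Ω)).IsPrime := RingHom.ker_isPrime _
  have hfh : f * (rename Sum.inl ρ * (X (Sum.inr b) *
      ∏ i ∈ Finset.Ioo 0 n, red1_mn ι d i (m i).1 (m i).2)) ∈ RingHom.ker (aeval (Sum.elim c Z) :
      MvPolynomial ((ι × Mn ι d) ⊕ ι) ℂ →ₐ[ℂ] Ω) := by
    rw [← IsPrime.vanishingIdeal_zeroLocus (K := ℂ) (RingHom.ker _)]
    intro u hu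
    rw [map_mul, map_mul, map_mul, map_prod, aeval_rename, aeval_X]
    by_contra hne
    obtain ⟨h1, h2⟩ := mul_ne_zero_iff.1 hne
    obtain ⟨h2, h3⟩ := mul_ne_zero_iff.1 h2
    obtain ⟨h3, h4⟩ := mul_ne_zero_iff.1 h3
    have h5 : u ∘ Sum.inr ≠ 0 := fun e => h3 (congrFun e b)
    refine h1 (hf u ⟨hρ _ h2, h5, ⟨μ0, funext fun a => ?_⟩, fun i hi1 hi2 h6 => ?_⟩)
    · have h7 := hu (uit ι d n a - C μ0 * X (Sum.inr a)) (by
        rw [RingHom.mem_ker, map_sub, map_mul, aeval_uit, aeval_C, aeval_X, Sum.elim_comp_inl,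
          Sum.elim_comp_inr, hZ, sub_eq_zero]
        rfl)
      rw [map_sub, map_mul, aeval_uit, aeval_C, aeval_X, sub_eq_zero] at h7
      exact h7
    · rw [red1_par h5] at h6
      exact Finset.prod_ne_zero_iff.1 h4 i (Finset.mem_Ioo.2 ⟨hi1, hi2⟩) (h6 _ _)
  rw [RingHom.mem_ker, map_mul, map_mul, map_mul, map_prod, aeval_rename, Sum.elim_comp_inl] at hfh
  refine (mul_eq_zero.1 hfh).resolve_right (mul_ne_zero ?_ (mul_ne_zero ?_ ?_))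
  · exact fun e => hρ0 (algebraicIndependent_iff.1 hc ρ e)
  · intro e
    have := hz _ e
    rw [eval_X] at this
    exact hb this
  · refine Finset.prod_ne_zero_iff.2 fun i hi e => ?_
    exact hm i (Finset.mem_Ioo.1 hi).1 (Finset.mem_Ioo.1 hi).2 (hz _ e)

/-- Let `y = (c0, p0)`, `F0^[n] p0 = μ0 • p0`, `Ω` the algebraic closure of `ℂ(c)`, `O` centred at
`c0`, `Z` from `lift_per` (`reg_of_nz`) and `𝔮` the kernel of `aeval (Sum.elim c Z)`, a prime whose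
elements vanish at `y` (`Near.eq_zero`).  Let `h` be the product of `ρ` (`rho_exists`), a
coordinate `X (inr b)` with `p0 b ≠ 0`, and for each `0 < i < n` a minor that does not vanish at
`y`; then `h ∉ 𝔮`, and the zeros of `𝔮` with `h ≠ 0` lie in `Yn`.  By the Nullstellensatz
(`vanishingIdeal_zeroLocus_eq_radical`) the vanishing ideal of `Yn` is contained in `𝔮`; as
`g ∉ 𝔮`, `𝔭 ≤ 𝔮`.  A polynomial in `c` alone that lies in `𝔭` therefore vanishes. -/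
theorem red_indep (hd : 2 ≤ d) {n : ℕ} (hn : 1 ≤ n)
    (𝔭 : Ideal (MvPolynomial ((ι × Mn ι d) ⊕ ι) ℂ)) [𝔭.IsPrime]
    (h : 𝔭 ∈ (vanishingIdeal ℂ (Yn ι d n)).minimalPrimes) {K : Type} [Field K] [Algebra ℂ K]
    {u0 : (ι × Mn ι d) ⊕ ι → K} (hu0 : ∀ q, aeval u0 q = 0 ↔ q ∈ 𝔭) :
    AlgebraicIndependent ℂ (u0 ∘ Sum.inl) := by
  obtain ⟨g, y, hy, hg, hq⟩ := red_pt _ 𝔭 h
  have hc := red1_omega (ι × Mn ι d)
  obtain ⟨Z, h1, h2⟩ := red1_main hd hn hc hy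
  rw [algebraicIndependent_iff]
  intro p hp
  rw [← aeval_rename, hu0] at hp
  have h3 := h2 _ (hq _ hp)
  rw [map_mul, aeval_rename, Sum.elim_comp_inl] at h3
  exact algebraicIndependent_iff.1 hc p ((mul_eq_zero.1 h3).resolve_left fun e => hg (h1 g e))

end Pool.Agent.Lib.MP_0dd0d9_ag.Hi
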