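import Pool.Agent.Lib.MP_0dd0d9_ag.Hi.Red1
import Pool.Agent.Lib.MP_0dd0d9_ag.Hi.NF2

/-!
TASK gh Red2.  Normal forms have bounded degree over the field generated by the transcendence basis.
-/

namespace Pool.Agent.Lib.MP_0dd0d9_ag.Hi

open Polynomial

/-- The coefficients of `∏ (X - z)` are fixed by the automorphisms over `K`, hence lie in `K`
(`InfiniteGalois.mem_range_algebraMap_iff_fixed` or similar); each `θ ∈ Θ` lifts to the algebraic
closure (`IsAlgClosure.equivOfEquiv`), so the coefficients are fixed by `Θ` and by the subgroup it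
generates. -/
theorem red_orbit {K : Type} [Field K] [Algebra ℂ K] (Θ : Set (K ≃ₐ[ℂ] K))
    (S : Finset (AlgebraicClosure K))
    (hS : ∀ (θ : K ≃ₐ[ℂ] K) (ψ : AlgebraicClosure K ≃+* AlgebraicClosure K), (θ ∈ Θ ∨ θ = 1) →
      (∀ a, ψ (algebraMap K _ a) = algebraMap K _ (θ a)) → ∀ z ∈ S, ψ z ∈ S) :
    ∃ P : K[X], P.Monic ∧ P.natDegree = S.card ∧
      (∀ i, P.coeff i ∈ IntermediateField.fixedField (Subgroup.closure Θ)) ∧
      ∀ z ∈ S, aeval z P = 0 := by
  classical
  have : CharZero K := charZero_of_injective_algebraMap (algebraMap ℂ K).injective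
  set Q : (AlgebraicClosure K)[X] := ∏ z ∈ S, (X - C z) with hQ
  have hfix : ∀ (θ : K ≃ₐ[ℂ] K) (ψ : AlgebraicClosure K ≃+* AlgebraicClosure K), (θ ∈ Θ ∨ θ = 1) →
      (∀ a, ψ (algebraMap K _ a) = algebraMap K _ (θ a)) → ∀ i, ψ (Q.coeff i) = Q.coeff i := by
    intro θ ψ hθ hψ i
    have himg : S.image ψ = S := by
      refine Finset.eq_of_subset_of_card_le (fun z hz => ?_) ?_
      · obtain ⟨y, hy, rfl⟩ := Finset.mem_image.1 hz
        exact hS θ ψ hθ hψ y hy
      · rw [Finset.card_image_of_injective _ ψ.injective]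
    have e : Q.map (ψ : AlgebraicClosure K →+* AlgebraicClosure K) = Q := by
      rw [hQ, Polynomial.map_prod]
      conv_rhs => rw [← himg, Finset.prod_image fun a _ b _ h => ψ.injective h]
      refine Finset.prod_congr rfl fun z _ => ?_
      simp
    have := congrArg (fun R => Polynomial.coeff R i) e
    simpa using this
  have hQm : Q.Monic := monic_prod_of_monic _ _ fun z _ => monic_X_sub_C z
  have hl : Q ∈ lifts (algebraMap K (AlgebraicClosure K)) := by
    rw [lifts_iff_coeff_lifts]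
    intro i
    refine (InfiniteGalois.mem_range_algebraMap_iff_fixed (k := K) _).2 fun f => ?_
    exact hfix 1 f.toRingEquiv (Or.inr rfl) (fun a => f.commutes a) i
  obtain ⟨P, hP, hdeg, hm⟩ := lifts_and_natDegree_eq_and_monic hl hQm
  refine ⟨P, hm, ?_, fun i => ?_, fun z hz => ?_⟩
  · rw [hdeg, hQ, natDegree_prod_of_monic _ _ fun z _ => monic_X_sub_C z]
    simp
  · rw [IntermediateField.mem_fixedField_iff]
    intro θ hθ
    have hle : Subgroup.closure Θ ≤ MulAction.stabilizer (K ≃ₐ[ℂ] K) (P.coeff i) := by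
      rw [Subgroup.closure_le]
      intro θ hθ
      have h1 := hfix θ (IsAlgClosure.equivOfEquiv (AlgebraicClosure K) (AlgebraicClosure K)
        θ.toRingEquiv) (Or.inl hθ) (fun a => IsAlgClosure.equivOfEquiv_algebraMap _ _ _ a) i
      rw [← hP, coeff_map, IsAlgClosure.equivOfEquiv_algebraMap] at h1
      exact (algebraMap K (AlgebraicClosure K)).injective h1
    exact hle hθ
  · rw [← aeval_map_algebraMap (AlgebraicClosure K), hP, hQ, coe_aeval_eq_eval, eval_prod]
    exact Finset.prod_eq_zero hz (by simp)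

/-- The span over `L` of `1, z, …, z ^ (r - 1)` is a space of dimension at most `B * r` over the
field generated by `t`, and it contains all powers of `z`.  (Or use the tower law.) -/
theorem red_deg {K Ω : Type} [Field K] [Algebra ℂ K] [Field Ω] [Algebra ℂ Ω] [Algebra K Ω]
    [IsScalarTower ℂ K Ω] (L : IntermediateField ℂ K) {ℓ B : ℕ} (t : Fin ℓ → L)
    (hB : Module.rank (IntermediateField.adjoin ℂ (Set.range t)) L ≤ B) (P : K[X]) (hP : P.Monic)
    (hL : ∀ i, P.coeff i ∈ L) {z : Ω} (hz : aeval z P = 0) :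
    IsIntegral (IntermediateField.adjoin ℂ (Set.range fun i => algebraMap K Ω (t i))) z ∧
      (minpoly (IntermediateField.adjoin ℂ (Set.range fun i => algebraMap K Ω (t i))) z).natDegree
        ≤ B * P.natDegree := by
  set k := IntermediateField.adjoin ℂ (Set.range t) with hk
  set k' := IntermediateField.adjoin ℂ (Set.range fun i => algebraMap K Ω (t i)) with hk'
  have : Module.Finite k L := Module.rank_lt_aleph0_iff.1
    (hB.trans_lt (Cardinal.natCast_lt_aleph0))
  have hfr : Module.finrank k L ≤ B := Module.finrank_le_of_rank_le hB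
  have hl : P ∈ lifts (algebraMap L K) := by
    rw [lifts_iff_coeff_lifts]
    exact fun i => ⟨⟨_, hL i⟩, rfl⟩
  obtain ⟨P', hP', hdeg, hm⟩ := lifts_and_natDegree_eq_and_monic hl hP
  have hz' : aeval z P' = 0 := by
    rw [← aeval_map_algebraMap K, hP', hz]
  have hint : IsIntegral L z := ⟨P', hm, hz'⟩
  have : FiniteDimensional L (IntermediateField.adjoin L {z}) :=
    IntermediateField.adjoin.finiteDimensional hint
  have h1 : Module.finrank L (IntermediateField.adjoin L {z}) ≤ P.natDegree := by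
    rw [IntermediateField.adjoin.finrank hint, ← hdeg]
    exact natDegree_le_natDegree (minpoly.degree_le_of_ne_zero L z hm.ne_zero hz')
  have : Module.Finite k (IntermediateField.adjoin L {z}) := Module.Finite.trans L _
  have : Module.Free L (IntermediateField.adjoin L {z}) := Module.Free.of_divisionRing _ _
  have : Module.Free k (IntermediateField.adjoin L {z}) := Module.Free.of_divisionRing _ _
  have h2 : Module.finrank k (IntermediateField.adjoin L {z}) ≤ B * P.natDegree := by
    rw [← Module.finrank_mul_finrank k L]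
    exact Nat.mul_le_mul hfr h1
  have hintk : IsIntegral k z := isIntegral_trans (A := L) z hint
  have h3 : (minpoly k z).natDegree ≤ B * P.natDegree := by
    have := minpoly.natDegree_le (A := k) (IntermediateField.AdjoinSimple.gen L z)
    rw [← minpoly.algebraMap_eq (algebraMap (IntermediateField.adjoin L {z}) Ω).injective] at this
    exact this.trans h2
  have hmem : ∀ a : k, algebraMap k Ω a ∈ k' := by
    intro a
    have e : k.map (IsScalarTower.toAlgHom ℂ L Ω) = k' := by
      rw [hk, IntermediateField.adjoin_map, ← Set.range_comp]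
      rfl
    rw [← e]
    exact ⟨a, a.2, rfl⟩
  let f : k →+* k' := (algebraMap k Ω).codRestrict k' hmem
  have hz2 : aeval z ((minpoly k z).map f) = 0 := by
    rw [aeval_def, eval₂_map]
    exact minpoly.aeval k z
  have hm2 : ((minpoly k z).map f).Monic := (minpoly.monic hintk).map f
  refine ⟨⟨_, hm2, hz2⟩, ?_⟩
  refine (natDegree_le_natDegree (minpoly.degree_le_of_ne_zero k' z hm2.ne_zero hz2)).trans ?_
  exact natDegree_map_le.trans h3

variable (ι : Type) [Fintype ι] [DecidableEq ι]

/-- The statement for the slice over a field of rational functions in several variables. -/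
def Mid (d B n : ℕ) : Prop :=
  ∀ (Ω : Type) [Field Ω] [Algebra ℂ Ω] [IsAlgClosed Ω] (ℓ : ℕ) (t : Fin ℓ → Ω),
    AlgebraicIndependent ℂ t → ∀ (c : ι × MnS ι d → Ω) (p : ι → Ω) (b : ι),
    AlgebraicIndependent ℂ c →
    (∀ x, IsIntegral (IntermediateField.adjoin ℂ (Set.range t)) (c x) ∧
      (minpoly (IntermediateField.adjoin ℂ (Set.range t)) (c x)).natDegree ≤ B) →
    (∀ a, IsIntegral (IntermediateField.adjoin ℂ (Set.range t)) (p a) ∧
      (minpoly (IntermediateField.adjoin ℂ (Set.range t)) (p a)).natDegree ≤ B) →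
    p b = 1 → ¬ ExactPer (ap (Fp (sl c))) n p

/-- Map the generic point to the algebraic closure `Ω` (`red_open`, `red_indep`, `exactPer_map`),
take `w` from `nfs_exists`.  For each coordinate `x` the image of the finite set `NFs u` under
`w ↦ w x` satisfies the hypothesis of `red_orbit` (`nfs_stable`, `Acts.mp`, `acts_one`); then
`red_deg` and `nfs_card` (`dig_total`, `reg_total`). -/
theorem red {d : ℕ} (hd : 2 ≤ d) {n : ℕ} (hn : 1 ≤ n) {B : ℕ}
    (h : Mid ι d (B * ((d ^ Fintype.card ι) ^ (Fintype.card ι + 1) * Fintype.card ι)) n)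
    (𝔭 : Ideal (MvPolynomial ((ι × Mn ι d) ⊕ ι) ℂ)) [𝔭.IsPrime]
    (h𝔭 : 𝔭 ∈ (MvPolynomial.vanishingIdeal ℂ (Yn ι d n)).minimalPrimes) {K : Type} [Field K]
    [Algebra ℂ K] {u0 : (ι × Mn ι d) ⊕ ι → K}
    (hu0 : ∀ q, MvPolynomial.aeval u0 q = 0 ↔ q ∈ 𝔭) {ℓ : ℕ}
    (t : Fin ℓ → inv u0) (ht : IsTranscendenceBasis ℂ t) :
    (B : Cardinal) < Module.rank (IntermediateField.adjoin ℂ (Set.range t)) (inv u0) := by
  classical
  by_contra hB
  rw [not_lt] at hB
  set Ω := AlgebraicClosure K with hΩ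
  have : CharZero Ω := charZero_of_injective_algebraMap (algebraMap ℂ Ω).injective
  set u : (ι × Mn ι d) ⊕ ι → Ω := algebraMap K Ω ∘ u0 with hu
  obtain ⟨hp0, hper0⟩ := red_open 𝔭 h𝔭 hu0
  have hc : AlgebraicIndependent ℂ (u ∘ Sum.inl) :=
    (red_indep hd hn 𝔭 h𝔭 hu0).map' (f := IsScalarTower.toAlgHom ℂ K Ω) (algebraMap K Ω).injective
  have hp : u ∘ Sum.inr ≠ 0 := by
    intro h0
    refine hp0 (funext fun a => (algebraMap K Ω).injective ?_)
    have := congrFun h0 a
    simpa [hu] using this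
  have hper : ExactPer (ap (Fp (u ∘ Sum.inl))) n (u ∘ Sum.inr) := by
    have h1 := (exactPer_map (algebraMap K Ω) hp0).2 hper0
    have e : (fun a => MvPolynomial.map (algebraMap K Ω) (Fp (u0 ∘ Sum.inl) a)) =
        Fp (u ∘ Sum.inl) := funext fun a => map_Fp _ _ a
    rw [e] at h1
    exact h1
  obtain ⟨w, hw, hwi, hwp⟩ := nfs_exists hd hc hp hper
  obtain ⟨hfin, hcard⟩ := nfs_card hd (dig_total hc) (reg_total hc)
  have key : ∀ x, IsIntegral (IntermediateField.adjoin ℂ
        (Set.range fun i => algebraMap K Ω (t i))) (w x) ∧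
      (minpoly (IntermediateField.adjoin ℂ (Set.range fun i => algebraMap K Ω (t i)))
        (w x)).natDegree ≤
        B * ((d ^ Fintype.card ι) ^ (Fintype.card ι + 1) * Fintype.card ι) := by
    intro x
    obtain ⟨P, hPm, hPd, hPc, hPz⟩ := red_orbit (grp u0) (hfin.toFinset.image fun v => v x) (by
      intro θ ψ hθ hψ z hz
      obtain ⟨v, hv, rfl⟩ := Finset.mem_image.1 hz
      refine Finset.mem_image.2 ⟨(ψ : Ω →+* Ω) ∘ v, ?_, rfl⟩
      rw [Set.Finite.mem_toFinset] at hv ⊢
      have e : (ψ : Ω →+* Ω) ∘ u = algebraMap K Ω ∘ (θ ∘ u0) := funext fun i => hψ _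
      rcases hθ with ⟨φ, a, b, h1, h2, h3, h4⟩ | rfl
      · have h5 := h4.mp (algebraMap K Ω)
        rw [← e] at h5
        refine nfs_stable (ψ : Ω →+* Ω) ?_ ?_ ?_ h5 hv
        · rw [← RingHom.mapMatrix_apply, ← RingHom.mapMatrix_apply, ← RingHom.map_det,
            ← RingHom.map_det]
          simpa using h1
        · simpa using h2
        · simpa using h3
      · have e' : (ψ : Ω →+* Ω) ∘ u = u := e
        refine nfs_stable (ψ : Ω →+* Ω) (φ0 := 1) (a0 := 1) (b0 := 1) (by simp) one_ne_zero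
          one_ne_zero ?_ hv
        rw [e']
        exact acts_one u)
    obtain ⟨h1, h2⟩ := red_deg (Ω := Ω) (inv u0) t hB P hPm hPc
      (hPz (w x) (Finset.mem_image.2 ⟨w, hfin.mem_toFinset.2 hw, rfl⟩))
    refine ⟨h1, h2.trans (Nat.mul_le_mul_left _ ?_)⟩
    rw [hPd]
    refine Finset.card_image_le.trans ?_
    rwa [← Set.ncard_eq_toFinset_card _ hfin]
  obtain ⟨φ, a, b, -, -, -, -, i, hi⟩ := hw
  have hti : AlgebraicIndependent ℂ fun i => algebraMap K Ω (t i) :=
    ht.1.map' (f := IsScalarTower.toAlgHom ℂ (inv u0) Ω) (algebraMap (inv u0) Ω).injective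
  exact h Ω ℓ _ hti (w ∘ Sum.inl) (w ∘ Sum.inr) i hwi (fun x => key _) (fun x => key _) hi hwp

end Pool.Agent.Lib.MP_0dd0d9_ag.Hi
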