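import Pool.Agent.Lib.MP_0dd0d9_ag.Hi.Poly

/-!
TASK gh Reg1.  Tuples of forms without common zero (algebraic form), certificates, integrality.
-/

namespace Pool.Agent.Lib.MP_0dd0d9_ag.Hi

open MvPolynomial

variable {ι : Type} [Fintype ι] [DecidableEq ι] {d : ℕ}
variable {R S : Type} [CommRing R] [CommRing S]

/-- Every variable is nilpotent modulo the components. -/
def Reg (F : ι → MvPolynomial ι R) : Prop := ∀ a, X a ∈ (Ideal.span (Set.range F)).radical

omit [Fintype ι] [DecidableEq ι] in
theorem reg1_hom {A T : Type} [CommRing A] [CommRing T] (φ : A →+* T) {F : ι → A} {p : A}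
    (h : p ∈ (Ideal.span (Set.range F)).radical) :
    φ p ∈ (Ideal.span (Set.range fun a => φ (F a))).radical := by
  obtain ⟨N, hN⟩ := h
  refine ⟨N, ?_⟩
  have h1 := Ideal.mem_map_of_mem φ hN
  rw [Ideal.map_span, ← Set.range_comp, map_pow] at h1
  exact h1

theorem Reg.mp {F : ι → MvPolynomial ι R} (h : Reg F) (f : R →+* S) :
    Reg fun a => map f (F a) := fun a => by
  have h1 := reg1_hom (map f : MvPolynomial ι R →+* MvPolynomial ι S) (h a)
  rwa [map_X] at h1

theorem reg_pw (q : ℕ) : Reg (pw R q : ι → MvPolynomial ι R) := fun a =>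
  ⟨q, Ideal.subset_span ⟨a, rfl⟩⟩

/-- Induction with `itr_succ`: substituting `itr F n` in `X a ^ N ∈ (F)` shows that each
`itr F n a` is in the radical of the ideal of `itr F (n + 1)`. -/
theorem Reg.iter {F : ι → MvPolynomial ι R} (h : Reg F) (n : ℕ) : Reg (itr F n) := by
  induction n with
  | zero => exact fun a => Ideal.le_radical (Ideal.subset_span ⟨a, rfl⟩)
  | succ n ih =>
    intro a
    have hle : (Ideal.span (Set.range (itr F n))).radical
        ≤ (Ideal.span (Set.range (itr F (n + 1)))).radical := by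
      rw [Ideal.radical_le_radical_iff, Ideal.span_le]
      rintro _ ⟨b, rfl⟩
      have h1 := reg1_hom (bind₁ (itr F n)).toRingHom (h b)
      have h2 : (bind₁ (itr F n)).toRingHom (X b) = itr F n b := bind₁_X_right _ _
      rw [h2] at h1
      exact h1
    exact hle (ih a)

theorem Reg.nz {Ω : Type} [Field Ω] [Algebra R Ω] {F : ι → MvPolynomial ι R} (h : Reg F)
    {y : ι → Ω} (hy : ap F y = 0) : y = 0 := by
  funext a
  obtain ⟨N, hN⟩ := reg1_hom (aeval y : MvPolynomial ι R →ₐ[R] Ω).toRingHom (h a)
  have h1 : Ideal.span (Set.range fun a =>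
      (aeval y : MvPolynomial ι R →ₐ[R] Ω).toRingHom (F a)) = ⊥ := by
    rw [Ideal.span_eq_bot]
    rintro _ ⟨b, rfl⟩
    exact congrFun hy b
  have h2 : (aeval y : MvPolynomial ι R →ₐ[R] Ω).toRingHom (X a) = y a := aeval_X _ _
  rw [h1, h2, Ideal.mem_bot] at hN
  exact eq_zero_of_pow_eq_zero hN

omit [Fintype ι] [DecidableEq ι] in
theorem reg1_comp (c : MvPolynomial ι R) {f : MvPolynomial ι R} (hf : f.IsHomogeneous d) (m : ℕ) :
    homogeneousComponent (m + d) (c * f) = homogeneousComponent m c * f := by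
  conv_lhs => rw [← sum_homogeneousComponent c]
  conv_rhs => rw [← sum_homogeneousComponent c]
  rw [Finset.sum_mul, map_sum, map_sum, Finset.sum_mul]
  refine Finset.sum_congr rfl fun i _ => ?_
  have h1 : homogeneousComponent i c * f ∈ homogeneousSubmodule ι R (i + d) :=
    (homogeneousComponent_isHomogeneous i c).mul hf
  rw [homogeneousComponent_of_mem h1, homogeneousComponent_of_mem (homogeneousComponent_mem i c)]
  by_cases e : m = i
  · rw [if_pos e, if_pos (by rw [e])]
  · rw [if_neg e, if_neg (by omega), zero_mul]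

/-- Take `N` with all `X a ^ N` in the ideal and `s = card ι * N + d`; a monomial of degree at
least `s` is divisible by some `X a ^ N`.  Then replace the cofactors by their homogeneous
components of degree `β.degree - d`. -/
theorem Reg.cert {F : ι → MvPolynomial ι R} (h : Reg F) (hF : Hm F d) :
    ∃ s, d ≤ s ∧ ∀ β : ι →₀ ℕ, s ≤ β.degree → ∃ g : ι → MvPolynomial ι R,
      (∀ a, (g a).IsHomogeneous (β.degree - d)) ∧ monomial β 1 = ∑ a, g a * F a := by
  choose N hN using h
  refine ⟨∑ a, N a + d + 1, by omega, fun β hβ => ?_⟩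
  obtain ⟨a, ha⟩ : ∃ a, N a ≤ β a := by
    by_contra hc
    push Not at hc
    have h1 : ∑ a, β a ≤ ∑ a, N a := Finset.sum_le_sum fun a _ => (hc a).le
    rw [Finsupp.degree_eq_sum] at hβ
    omega
  have hmem : (monomial β 1 : MvPolynomial ι R) ∈ Ideal.span (Set.range F) := by
    have e : (monomial β 1 : MvPolynomial ι R)
        = monomial (β - Finsupp.single a (N a)) 1 * X a ^ N a := by
      rw [X_pow_eq_monomial, monomial_mul, one_mul,
        tsub_add_cancel_of_le (Finsupp.single_le_iff.2 ha)]
    rw [e]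
    exact Ideal.mul_mem_left _ _ (hN a)
  obtain ⟨c, hc⟩ := Ideal.mem_span_range_iff_exists_fun.1 hmem
  refine ⟨fun a => homogeneousComponent (β.degree - d) (c a),
    fun a => homogeneousComponent_isHomogeneous _ _, ?_⟩
  have h1 := congrArg (homogeneousComponent (β.degree - d + d)) hc
  rw [map_sum, homogeneousComponent_eq_self
    (isHomogeneous_monomial (1 : R) (show β.degree = β.degree - d + d by omega))] at h1
  rw [← h1]
  exact Finset.sum_congr rfl fun a _ => reg1_comp _ (hF a) _

theorem reg1_finite {A B κ : Type} [CommRing A] [CommRing B] (φ : A →+* B) (T : Finset κ)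
    (v : κ → B) (h : ∀ b, ∃ c : κ → A, b = ∑ t ∈ T, φ (c t) * v t) : φ.Finite := by
  classical
  let _ := φ.toAlgebra
  refine ⟨⟨T.image v, ?_⟩⟩
  rw [eq_top_iff]
  intro b _
  obtain ⟨c, rfl⟩ := h b
  exact Submodule.sum_mem _ fun t ht => Submodule.smul_mem _ (c t)
    (Submodule.subset_span (Finset.mem_coe.2 (Finset.mem_image_of_mem v ht)))

/-- By induction on the total degree, every polynomial is a combination of the monomials of
degree `< s` (`Reg.cert`) with coefficients in the image of `bind₁ G`; so the ring homomorphism is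
finite. -/
theorem Reg.int {F G : ι → MvPolynomial ι R} (h : Reg F) (hF : Hm F d)
    (hG : ∀ a, (G a - F a).totalDegree < d) :
    (bind₁ G : MvPolynomial ι R →ₐ[R] MvPolynomial ι R).toRingHom.IsIntegral := by
  obtain ⟨s, hds, hs⟩ := h.cert hF
  have hfin := Finsupp.finite_of_degree_le (σ := ι) s
  let P : MvPolynomial ι R → Prop := fun p => ∃ c : (ι →₀ ℕ) → MvPolynomial ι R,
    p = ∑ t ∈ hfin.toFinset, bind₁ G (c t) * monomial t 1
  have Pzero : P 0 := ⟨0, by simp⟩
  have Padd : ∀ p q, P p → P q → P (p + q) := by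
    rintro _ _ ⟨c, rfl⟩ ⟨c', rfl⟩
    refine ⟨c + c', ?_⟩
    simp only [Pi.add_apply, map_add, add_mul, Finset.sum_add_distrib]
  have Pmul : ∀ q p, P p → P (bind₁ G q * p) := by
    rintro q _ ⟨c, rfl⟩
    refine ⟨fun t => q * c t, ?_⟩
    simp only [map_mul, Finset.mul_sum, mul_assoc]
  have Psum : ∀ {κ : Type} (T : Finset κ) (f : κ → MvPolynomial ι R),
      (∀ t ∈ T, P (f t)) → P (∑ t ∈ T, f t) :=
    fun T f hf => Finset.sum_induction f P Padd Pzero hf
  have Pdeg : ∀ n : ℕ, (∀ β : ι →₀ ℕ, β.degree < n → P (monomial β 1)) →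
      ∀ p : MvPolynomial ι R, p.totalDegree < n → P p := by
    intro n hn p hp
    rw [p.as_sum]
    refine Psum _ _ fun β hβ => ?_
    have h1 := Pmul (C (coeff β p)) _ (hn β (lt_of_le_of_lt (le_totalDegree hβ) hp))
    rwa [bind₁_C_right, C_mul_monomial, mul_one] at h1
  have Pmon : ∀ (n : ℕ) (β : ι →₀ ℕ), β.degree < n → P (monomial β 1) := by
    intro n
    induction n with
    | zero => exact fun β hβ => absurd hβ (Nat.not_lt_zero _)
    | succ n ih =>
      intro β hβ
      by_cases hb : β.degree ≤ s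
      · refine ⟨Pi.single β 1, ?_⟩
        rw [Finset.sum_eq_single β]
        · rw [Pi.single_eq_same, map_one (bind₁ G), one_mul]
        · intro β' _ hne
          rw [Pi.single_eq_of_ne hne, map_zero, zero_mul]
        · intro hn'
          exact absurd (hfin.mem_toFinset.2 hb) hn'
      · obtain ⟨g, hg, e⟩ := hs β (by omega)
        rw [e]
        refine Psum _ _ fun a _ => ?_
        have e1 : g a * F a = bind₁ G (X a) * g a + bind₁ G (-1) * (g a * (G a - F a)) := by
          rw [bind₁_X_right, map_neg, map_one]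
          ring
        have d1 := (hg a).totalDegree_le
        have d2 := hG a
        have d3 := totalDegree_mul (g a) (G a - F a)
        rw [e1]
        exact Padd _ _ (Pmul _ _ (Pdeg n ih _ (by omega))) (Pmul _ _ (Pdeg n ih _ (by omega)))
  refine RingHom.Finite.to_isIntegral (reg1_finite _ hfin.toFinset (fun t => monomial t 1) ?_)
  exact fun p => Pdeg _ (Pmon _) p (Nat.lt_succ_self _)

/-- Apply `aeval y` to the integral equation of `X a` given by `Reg.int`. -/
theorem Reg.isIntegral_pt [Algebra R S] {F G : ι → MvPolynomial ι R} (h : Reg F) (hF : Hm F d)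
    (hG : ∀ a, (G a - F a).totalDegree < d) {y : ι → S} (hy : ∀ a, IsIntegral R (ap G y a))
    (a : ι) : IsIntegral R (y a) := by
  obtain ⟨q, hq, h0⟩ := h.int hF hG (X a)
  let ψ : MvPolynomial ι R →ₐ[R] integralClosure R S :=
    aeval fun b => (⟨ap G y b, hy b⟩ : integralClosure R S)
  have hψ : (algebraMap (integralClosure R S) S).comp ψ.toRingHom
      = (aeval y : MvPolynomial ι R →ₐ[R] S).toRingHom.comp (bind₁ G).toRingHom := by
    refine ringHom_ext (fun r => ?_) fun b => ?_
    · simp [ψ]
    · simp [ψ, ap]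
  have h1 : IsIntegral (integralClosure R S) (y a) := by
    refine ⟨q.map ψ.toRingHom, hq.map _, ?_⟩
    rw [Polynomial.eval₂_map, hψ]
    have h2 := congrArg (aeval y : MvPolynomial ι R →ₐ[R] S).toRingHom h0
    rw [Polynomial.hom_eval₂, map_zero] at h2
    have h3 : (aeval y : MvPolynomial ι R →ₐ[R] S).toRingHom (X a) = y a := aeval_X _ _
    rwa [h3] at h2
  exact isIntegral_trans _ h1

end Pool.Agent.Lib.MP_0dd0d9_ag.Hi
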