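import Pool.Agent.Lib.MP_0dd0d9_ag.Hi.Poly

/-!
TASK gh UL1.  Characters of the group of points of order dividing `d ^ 3 - 1`; the first variation
of the multiplier at the power map.
-/

namespace Pool.Agent.Lib.MP_0dd0d9_ag.Hi

open MvPolynomial

variable {ι : Type} [Fintype ι] [DecidableEq ι] {d : ℕ}

/-- The exponent vector `δ - d e_a`. -/
def ul1_eta (x : ι × MnS ι d) (b : ι) : ℤ := (x.2.1.1 b : ℤ) - if x.1 = b then (d : ℤ) else 0

theorem ul1_lt (δ : MnS ι d) (b : ι) : δ.1.1 b < d := by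
  have h1 : ∑ c, δ.1.1 c = d := by rw [← Finsupp.degree_eq_sum]; exact Mn_degree δ.1
  have h2 := Finset.add_sum_erase Finset.univ (fun c => δ.1.1 c) (Finset.mem_univ b)
  by_contra h
  have h3 : ∑ c ∈ Finset.univ.erase b, δ.1.1 c = 0 := by omega
  refine δ.2 b (Finsupp.ext fun c => ?_)
  by_cases hc : c = b
  · rw [hc, Finsupp.single_eq_same]
    omega
  · rw [Finsupp.single_eq_of_ne hc]
    exact Finset.sum_eq_zero_iff.1 h3 c (Finset.mem_erase.2 ⟨hc, Finset.mem_univ c⟩)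

theorem ul1_pos (x : ι × MnS ι d) : ∃ b, 0 < ul1_eta x b := by
  have h1 : ∑ c, x.2.1.1 c = d := by rw [← Finsupp.degree_eq_sum]; exact Mn_degree x.2.1
  have h2 := Finset.add_sum_erase Finset.univ (fun c => x.2.1.1 c) (Finset.mem_univ x.1)
  have h3 := ul1_lt x.2 x.1
  have h4 : ∑ c ∈ Finset.univ.erase x.1, x.2.1.1 c ≠ 0 := by omega
  obtain ⟨b, hb, hb'⟩ := Finset.exists_ne_zero_of_sum_ne_zero h4
  refine ⟨b, ?_⟩
  rw [ul1_eta, if_neg (Finset.mem_erase.1 hb).1.symm]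
  omega

theorem ul1_bd (x : ι × MnS ι d) (b : ι) : -(d : ℤ) ≤ ul1_eta x b ∧ ul1_eta x b < d := by
  have := ul1_lt x.2 b
  unfold ul1_eta
  split_ifs <;> omega

theorem ul1_eta_inj {x x' : ι × MnS ι d} (h : ∀ b, ul1_eta x b = ul1_eta x' b) : x = x' := by
  have h1 : x'.1 = x.1 := by
    have h2 := h x.1
    have h3 := ul1_lt x.2 x.1
    by_contra hne
    rw [ul1_eta, ul1_eta, if_pos rfl, if_neg hne] at h2
    omega
  refine Prod.ext h1.symm (Subtype.ext (Subtype.ext (Finsupp.ext fun b => ?_)))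
  have h2 := h b
  rw [ul1_eta, ul1_eta, h1] at h2
  omega

theorem ul1_arith (hd : 2 ≤ d) {j : ℕ} (hj : j < 3) {x x' : ι × MnS ι d}
    (h : ∀ b, (d : ℤ) ^ 3 - 1 ∣ (d : ℤ) ^ j * ul1_eta x b - ul1_eta x' b) : j = 0 ∧ x = x' := by
  have hd' : (2 : ℤ) ≤ d := by exact_mod_cast hd
  have hj0 : j = 0 := by
    obtain ⟨b, hb⟩ := ul1_pos x
    obtain ⟨-, h2⟩ := ul1_bd x b
    obtain ⟨h3, h4⟩ := ul1_bd x' b
    have h5 : (d : ℤ) ^ j ≤ (d : ℤ) ^ 2 := pow_le_pow_right₀ (by omega) (by omega)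
    have h6 : (1 : ℤ) ≤ (d : ℤ) ^ j := one_le_pow₀ (by omega)
    have h7 : (d : ℤ) ^ j * ul1_eta x b ≤ (d : ℤ) ^ 2 * (d - 1) :=
      mul_le_mul h5 (by omega) hb.le (by positivity)
    have h8 : (d : ℤ) ^ j ≤ (d : ℤ) ^ j * ul1_eta x b := le_mul_of_one_le_right (by omega) hb
    have h9 : (d : ℤ) ^ j * ul1_eta x b - ul1_eta x' b = 0 := by
      refine Int.eq_zero_of_abs_lt_dvd (h b) (abs_lt.2 ⟨?_, ?_⟩) <;> nlinarith
    by_contra hne
    have h10 : (d : ℤ) ^ 1 ≤ (d : ℤ) ^ j := pow_le_pow_right₀ (by omega) (by omega)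
    rw [pow_one] at h10
    omega
  refine ⟨hj0, ul1_eta_inj fun b => ?_⟩
  have h1 := h b
  rw [hj0, pow_zero, one_mul] at h1
  obtain ⟨h2, h3⟩ := ul1_bd x b
  obtain ⟨h4, h5⟩ := ul1_bd x' b
  have h7 : 4 * (d : ℤ) ≤ (d : ℤ) ^ 3 := by
    have : (4 : ℤ) ≤ (d : ℤ) ^ 2 := by nlinarith
    nlinarith
  have h6 : ul1_eta x b - ul1_eta x' b = 0 := by
    refine Int.eq_zero_of_abs_lt_dvd h1 (abs_lt.2 ⟨?_, ?_⟩) <;> linarith
  omega

theorem ul1_arith' (hd : 2 ≤ d) {i i' : ℕ} (hi : i < 3) (hii : i' ≤ i) {x x' : ι × MnS ι d}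
    (h : ∀ b, (d : ℤ) ^ 3 - 1 ∣ (d : ℤ) ^ i * ul1_eta x b - (d : ℤ) ^ i' * ul1_eta x' b) :
    i = i' ∧ x = x' := by
  obtain ⟨j, rfl⟩ := Nat.exists_eq_add_of_le hii
  have hc : IsCoprime ((d : ℤ) ^ 3 - 1) ((d : ℤ) ^ i') :=
    IsCoprime.pow_right ⟨-1, (d : ℤ) ^ 2, by ring⟩
  obtain ⟨h1, h2⟩ := ul1_arith hd (j := j) (by omega) (x := x) (x' := x') fun b => by
    refine hc.dvd_of_dvd_mul_left ?_
    have := h b
    rwa [pow_add, mul_assoc, ← mul_sub] at this
  exact ⟨by omega, h2⟩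

/-- The points of order dividing `q`. -/
def ul1_G (ι : Type) (q : ℕ) : Submonoid (ι → ℂ) where
  carrier := {z | ∀ a, z a ^ q = 1}
  one_mem' := fun a => by simp
  mul_mem' := fun {z z'} h h' a => by rw [Pi.mul_apply, mul_pow, h a, h' a, one_mul]

/-- The characters. -/
noncomputable def ul1_chi (q : ℕ) (κ : Type) [Field κ] [Algebra ℂ κ] (u : Fin 3 × ι × MnS ι d) :
    ul1_G ι q →* κ where
  toFun z := algebraMap ℂ κ ((∏ b, (z.1 b ^ d ^ (u.1 : ℕ)) ^ u.2.2.1.1 b) /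
    (z.1 u.2.1 ^ d ^ (u.1 : ℕ)) ^ d)
  map_one' := by simp
  map_mul' z z' := by
    rw [← map_mul]
    congr 1
    simp only [Submonoid.coe_mul, Pi.mul_apply, mul_pow, Finset.prod_mul_distrib]
    exact mul_div_mul_comm _ _ _ _

theorem ul1_eval {ζ : ℂ} (hζ : ζ ≠ 0) (i : ℕ) (x : ι × MnS ι d) (b : ι) :
    (∏ c, ((Pi.mulSingle b ζ : ι → ℂ) c ^ d ^ i) ^ x.2.1.1 c) /
      ((Pi.mulSingle b ζ : ι → ℂ) x.1 ^ d ^ i) ^ d = ζ ^ ((d : ℤ) ^ i * ul1_eta x b) := by
  rw [Finset.prod_eq_single b (fun c _ hc => by simp [Pi.mulSingle_eq_of_ne hc]) (by simp),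
    Pi.mulSingle_eq_same, ul1_eta, mul_sub, zpow_sub₀ hζ]
  congr 1
  · rw [← pow_mul, ← zpow_natCast]
    push_cast
    rfl
  · split_ifs with H
    · rw [H, Pi.mulSingle_eq_same, ← pow_mul, ← zpow_natCast]
      push_cast
      rfl
    · simp [Pi.mulSingle_eq_of_ne H]

theorem ul1_chi_inj (hd : 2 ≤ d) (κ : Type) [Field κ] [Algebra ℂ κ] :
    Function.Injective (ul1_chi (ι := ι) (d := d) (d ^ 3 - 1) κ) := by
  have h8 : 2 ^ 3 ≤ d ^ 3 := Nat.pow_le_pow_left hd 3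
  have hq : d ^ 3 - 1 ≠ 0 := by omega
  have hζ := Complex.isPrimitiveRoot_exp _ hq
  set ζ := Complex.exp (2 * Real.pi * Complex.I / (d ^ 3 - 1 : ℕ))
  have hζ0 : ζ ≠ 0 := hζ.ne_zero hq
  intro u u' huu
  have key : ∀ b, (d : ℤ) ^ 3 - 1 ∣
      (d : ℤ) ^ (u.1 : ℕ) * ul1_eta u.2 b - (d : ℤ) ^ (u'.1 : ℕ) * ul1_eta u'.2 b := by
    intro b
    have hm : (Pi.mulSingle b ζ : ι → ℂ) ∈ ul1_G ι (d ^ 3 - 1) := fun a => by
      by_cases H : a = b
      · rw [H, Pi.mulSingle_eq_same]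
        exact hζ.pow_eq_one
      · simp [Pi.mulSingle_eq_of_ne H]
    have h1 := (algebraMap ℂ κ).injective (DFunLike.congr_fun huu ⟨_, hm⟩)
    rw [ul1_eval hζ0, ul1_eval hζ0] at h1
    have h2 : ((d ^ 3 - 1 : ℕ) : ℤ) = (d : ℤ) ^ 3 - 1 := by
      rw [Nat.cast_sub (by omega)]
      simp
    rw [← h2, ← hζ.zpow_eq_one_iff_dvd, zpow_sub₀ hζ0, h1, div_self (zpow_ne_zero _ hζ0)]
  rcases le_total (u'.1 : ℕ) u.1 with H | H
  · obtain ⟨h1, h2⟩ := ul1_arith' hd u.1.2 H key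
    exact Prod.ext (Fin.ext h1) h2
  · obtain ⟨h1, h2⟩ := ul1_arith' hd u'.1.2 H fun b => dvd_sub_comm.1 (key b)
    exact Prod.ext (Fin.ext h1.symm) h2.symm

/-- Let `q = d ^ 3 - 1`.  The summand is the character of `μ_q ^ ι` with exponent vector
`d ^ i * η`, `η = δ - d e_a`.  The entries of `η` lie in `[-d, d - 1]`, `η a < 0` is the only
negative entry, and some entry is positive.  If `d ^ i * η ≡ η'` modulo `q` with `i < 3`, look at a
positive entry `e` of `η`: `d ^ i * e ≤ d ^ 3 - d ^ 2 < q - d`, which forces `d ^ i * e = η' b < d`,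
so `i = 0`, and then `η = η'` as `2 d ≤ q`.  Use the linear independence of characters
(`linearIndependent_monoidHom`) or orthogonality. -/
theorem ul_char (hd : 2 ≤ d) {κ : Type} [Field κ] [Algebra ℂ κ] (w : ι × MnS ι d → κ)
    (h : ∀ z : ι → ℂ, (∀ a, z a ^ (d ^ 3 - 1) = 1) →
      ∑ i ∈ Finset.range 3, ∑ x : ι × MnS ι d, w x * (((x.2.1.1 x.1 : ℕ) : κ) - d) *
        algebraMap ℂ κ ((∏ b, (z b ^ d ^ i) ^ x.2.1.1 b) / (z x.1 ^ d ^ i) ^ d) = 0) :
    w = 0 := by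
  have hli := (linearIndependent_monoidHom (ul1_G ι (d ^ 3 - 1)) κ).comp _ (ul1_chi_inj hd κ)
  have h0 := Fintype.linearIndependent_iff.1 hli
    (fun u => w u.2 * (((u.2.2.1.1 u.2.1 : ℕ) : κ) - d)) (by
      funext z
      have := h z.1 z.2
      rw [Finset.sum_range] at this
      rw [Finset.sum_apply, Fintype.sum_prod_type]
      exact this)
  have : CharZero κ := charZero_of_injective_algebraMap (algebraMap ℂ κ).injective
  funext x
  have h1 := h0 (0, x)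
  have h2 : ((x.2.1.1 x.1 : ℕ) : κ) - d ≠ 0 :=
    sub_ne_zero.2 fun H => (ul1_lt x.2 x.1).ne (Nat.cast_injective H)
  exact (mul_eq_zero.1 h1).resolve_right h2

theorem ul1_fst_prod {κ : Type} [Field κ] {α : Type} (s : Finset α) (f : α → DualNumber κ) :
    (∏ i ∈ s, f i).fst = ∏ i ∈ s, (f i).fst :=
  map_prod (TrivSqZeroExt.fstHom κ κ κ) f s

theorem ul1_inr_mul {κ : Type} [Field κ] (w : κ) (Z : DualNumber κ) :
    (TrivSqZeroExt.inr w : DualNumber κ) * Z = TrivSqZeroExt.inr (w * Z.fst) := by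
  ext <;> simp [mul_comm]

/-- The determinant of a matrix over the dual numbers whose constant term is diagonal. -/
theorem ul1_det {κ : Type} [Field κ] (M : Matrix ι ι (DualNumber κ)) (D : ι → κ)
    (hD : ∀ a, D a ≠ 0) (hM : ∀ a b, (M a b).fst = if a = b then D a else 0) :
    M.det = TrivSqZeroExt.inl (∏ a, D a) * (1 + TrivSqZeroExt.inr (∑ a, (M a a).snd / D a)) := by
  have h1 : M = Matrix.diagonal (fun a => (TrivSqZeroExt.inl (D a) : DualNumber κ)) *
      (1 + (DualNumber.eps : DualNumber κ) •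
        Matrix.of fun a b => (TrivSqZeroExt.inl ((M a b).snd / D a) : DualNumber κ)) := by
    ext a b
    · rw [Matrix.diagonal_mul, hM]
      by_cases H : a = b <;> simp [H]
    · rw [Matrix.diagonal_mul]
      have := hD a
      by_cases H : a = b
      · subst H
        simp
        field_simp
      · simp [H]
        field_simp
  conv_lhs => rw [h1]
  rw [Matrix.det_mul, Matrix.det_diagonal, Matrix.det_one_add_smul, DualNumber.eps_pow_two,
    mul_zero, add_zero]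
  congr 1
  · exact (map_prod (TrivSqZeroExt.inlHom κ κ) D Finset.univ).symm
  · congr 1
    ext
    · simp
    · simp [Matrix.trace, TrivSqZeroExt.fst_sum]

theorem ul1_Fp {κ : Type} [Field κ] (w : ι × Mn ι d → κ) (a : ι) :
    Fp (fun x : ι × Mn ι d =>
        (TrivSqZeroExt.inl (cpow κ x) + TrivSqZeroExt.inr (w x) : DualNumber κ)) a =
      X a ^ d + ∑ δ : Mn ι d, monomial δ.1 (TrivSqZeroExt.inr (w (a, δ)) : DualNumber κ) := by
  have h1 : ∀ x : ι × Mn ι d, (TrivSqZeroExt.inl (cpow κ x) : DualNumber κ)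
      = cpow (DualNumber κ) x := fun x => congrFun (map_cpow (TrivSqZeroExt.inlHom κ κ)) x
  have h2 : (X a ^ d : MvPolynomial ι (DualNumber κ)) = Fp (cpow (DualNumber κ) (d := d)) a := by
    rw [Fp_cpow, pw]
  rw [h2]
  simp only [Fp, h1, map_add, Finset.sum_add_distrib]

omit [DecidableEq ι] in
theorem ul1_mono {κ : Type} [Field κ] (Y : ι → DualNumber κ) (α : ι →₀ ℕ) (w : κ) (n : ℕ) :
    aeval Y (monomial α ((TrivSqZeroExt.inr w : DualNumber κ) * n)) =
      TrivSqZeroExt.inr (w * n * ∏ b, (Y b).fst ^ α b) := by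
  rw [aeval_monomial, Finsupp.prod_fintype _ _ (by simp), Algebra.algebraMap_self, RingHom.id_apply,
    mul_assoc, ul1_inr_mul, TrivSqZeroExt.fst_mul, ul1_fst_prod, mul_assoc]
  rfl

theorem ul1_sub {κ : Type} [Field κ] (y : ι → κ) (α : ι →₀ ℕ) (a : ι) :
    (α a : κ) * (∏ b, y b ^ (α - Finsupp.single a 1 : ι →₀ ℕ) b) * y a = α a * ∏ b, y b ^ α b := by
  rcases Nat.eq_zero_or_pos (α a) with H | H
  · simp [H]
  · rw [mul_assoc, ← Finset.mul_prod_erase _ _ (Finset.mem_univ a),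
      ← Finset.mul_prod_erase _ (fun b => y b ^ α b) (Finset.mem_univ a)]
    have h1 : ∏ b ∈ Finset.univ.erase a, y b ^ (α - Finsupp.single a 1 : ι →₀ ℕ) b
        = ∏ b ∈ Finset.univ.erase a, y b ^ α b :=
      Finset.prod_congr rfl fun b hb => by
        rw [Finsupp.tsub_apply, Finsupp.single_eq_of_ne (Finset.mem_erase.1 hb).1, Nat.sub_zero]
    rw [h1, Finsupp.tsub_apply, Finsupp.single_eq_same]
    obtain ⟨k, hk⟩ : ∃ k, α a = k + 1 := ⟨α a - 1, by omega⟩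
    rw [hk, Nat.add_sub_cancel]
    ring

/-- The Jacobian of `power map + ε W` at `y + ε ξ`, over the dual numbers.  The Jacobian matrix is
`diagonal (d * y a ^ (d - 1)) * (1 + ε • N)`; use `Matrix.det_one_add_smul`. -/
theorem ul_dual (hd : 2 ≤ d) {κ : Type} [Field κ] [CharZero κ] (w : ι × Mn ι d → κ) (y ξ : ι → κ)
    (hy : ∀ a, y a ≠ 0) :
    (aeval (fun a => (TrivSqZeroExt.inl (y a) + TrivSqZeroExt.inr (ξ a) : DualNumber κ))
      (jac (Fp fun x : ι × Mn ι d =>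
        (TrivSqZeroExt.inl (cpow κ x) + TrivSqZeroExt.inr (w x) : DualNumber κ)))) =
      TrivSqZeroExt.inl (∏ a, d * y a ^ (d - 1)) * (1 + TrivSqZeroExt.inr
        (∑ a, (((d : κ) - 1) * ξ a / y a +
          ∑ δ : Mn ι d, w (a, δ) * ((δ.1 a : ℕ) : κ) / d * (∏ b, y b ^ δ.1 b) / y a ^ d))) := by
  have hd0 : (d : κ) ≠ 0 := Nat.cast_ne_zero.2 (by omega)
  set Y : ι → DualNumber κ := fun a => TrivSqZeroExt.inl (y a) + TrivSqZeroExt.inr (ξ a) with hY
  have hf : ∀ a, (Y a).fst = y a := fun a => by simp [hY]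
  have hs : ∀ a, (Y a).snd = ξ a := fun a => by simp [hY]
  have hM : ∀ a b, ((aeval Y).mapMatrix (jm (Fp fun x : ι × Mn ι d =>
      (TrivSqZeroExt.inl (cpow κ x) + TrivSqZeroExt.inr (w x) : DualNumber κ)))) a b =
      (if a = b then (d : DualNumber κ) * Y a ^ (d - 1) else 0) +
        TrivSqZeroExt.inr (∑ δ : Mn ι d, w (a, δ) * (δ.1 b : ℕ) *
          ∏ c, y c ^ (δ.1 - Finsupp.single b 1 : ι →₀ ℕ) c) := by
    intro a b
    rw [AlgHom.mapMatrix_apply, Matrix.map_apply, jm, Matrix.of_apply, ul1_Fp, map_add, map_add,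
      map_sum, map_sum, TrivSqZeroExt.inr_sum]
    congr 1
    · rw [pderiv_pow]
      split_ifs with H
      · subst H
        simp
      · simp [pderiv_X_of_ne H]
    · refine Finset.sum_congr rfl fun δ _ => ?_
      rw [pderiv_monomial, ul1_mono]
      simp only [hf]
  rw [jac, AlgHom.map_det, ul1_det _ (fun a => d * y a ^ (d - 1))
    (fun a => mul_ne_zero hd0 (pow_ne_zero _ (hy a)))
    (fun a b => by rw [hM]; split_ifs <;> simp [hf])]
  congr 3
  refine Finset.sum_congr rfl fun a _ => ?_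
  rw [hM, if_pos rfl]
  obtain ⟨e, rfl⟩ : ∃ e, d = e + 2 := ⟨d - 2, by omega⟩
  have hya := hy a
  simp only [TrivSqZeroExt.snd_add, DualNumber.snd_mul, TrivSqZeroExt.snd_inr,
    TrivSqZeroExt.fst_natCast, TrivSqZeroExt.snd_natCast, TrivSqZeroExt.snd_pow, hf, hs, zero_mul,
    add_zero, add_div, Finset.sum_div]
  congr 1
  · simp only [show e + 2 - 1 = e + 1 from rfl, Nat.pred_succ, nsmul_eq_mul, smul_eq_mul]
    push_cast at hd0 ⊢
    field_simp
    ring
  · refine Finset.sum_congr rfl fun δ _ => ?_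
    have h1 := ul1_sub y δ.1 a
    simp only [show e + 2 - 1 = e + 1 from rfl]
    field_simp
    linear_combination (w (a, δ) * y a ^ (e + 1)) * h1

/-- The map itself over the dual numbers. -/
theorem ul_dual_ap {κ : Type} [Field κ] (w : ι × Mn ι d → κ) (y ξ : ι → κ) (a : ι) :
    ap (Fp fun x : ι × Mn ι d =>
        (TrivSqZeroExt.inl (cpow κ x) + TrivSqZeroExt.inr (w x) : DualNumber κ))
      (fun a => (TrivSqZeroExt.inl (y a) + TrivSqZeroExt.inr (ξ a) : DualNumber κ)) a =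
      TrivSqZeroExt.inl (y a ^ d) + TrivSqZeroExt.inr
        (d * y a ^ (d - 1) * ξ a + ∑ δ : Mn ι d, w (a, δ) * ∏ b, y b ^ δ.1 b) := by
  rw [ap, ul1_Fp, map_add, map_sum, map_pow, aeval_X]
  have h1 : ∀ δ : Mn ι d,
      aeval (fun a => (TrivSqZeroExt.inl (y a) + TrivSqZeroExt.inr (ξ a) : DualNumber κ))
        (monomial δ.1 (TrivSqZeroExt.inr (w (a, δ)) : DualNumber κ)) =
      TrivSqZeroExt.inr (w (a, δ) * ∏ b, y b ^ δ.1 b) := fun δ => by
    have := ul1_mono (fun a => (TrivSqZeroExt.inl (y a) + TrivSqZeroExt.inr (ξ a) : DualNumber κ))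
      δ.1 (w (a, δ)) 1
    simpa using this
  simp only [h1]
  rw [← TrivSqZeroExt.inr_sum, TrivSqZeroExt.inr_add, ← add_assoc]
  congr 1
  ext
  · simp
  · simp [TrivSqZeroExt.snd_pow, mul_assoc]

theorem ul1_prod {κ : Type} [Field κ] (D S : ℕ → κ) (m : ℕ) :
    (∏ i ∈ Finset.range m,
      (TrivSqZeroExt.inl (D i) * (1 + TrivSqZeroExt.inr (S i)) : DualNumber κ)) =
      TrivSqZeroExt.inl (∏ i ∈ Finset.range m, D i) *
        (1 + TrivSqZeroExt.inr (∑ i ∈ Finset.range m, S i)) := by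
  induction m with
  | zero => simp
  | succ m ih =>
    rw [Finset.prod_range_succ, ih, Finset.prod_range_succ, Finset.sum_range_succ]
    ext
    · simp
    · simp
      ring

/-- A cycle of length `m` over the dual numbers whose multiplier has no first order term.  With
`η i a = ξ i a / y i a` one has `η (i + 1) a = d * η i a + W a (y i)`; sum over the cycle, and use
`aeval_jac_itr`, `ul_dual`. -/
theorem ul_cycle (hd : 2 ≤ d) {κ : Type} [Field κ] [CharZero κ] (w : ι × Mn ι d → κ) (y ξ : ι → κ)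
    (hy : ∀ a, y a ≠ 0) (m : ℕ)
    (hper : (ap (Fp fun x : ι × Mn ι d =>
        (TrivSqZeroExt.inl (cpow κ x) + TrivSqZeroExt.inr (w x) : DualNumber κ)))^[m]
      (fun a => (TrivSqZeroExt.inl (y a) + TrivSqZeroExt.inr (ξ a) : DualNumber κ)) =
      fun a => TrivSqZeroExt.inl (y a) + TrivSqZeroExt.inr (ξ a))
    (hmu : (aeval (fun a => (TrivSqZeroExt.inl (y a) + TrivSqZeroExt.inr (ξ a) : DualNumber κ))
      (jac (itr (Fp fun x : ι × Mn ι d =>
        (TrivSqZeroExt.inl (cpow κ x) + TrivSqZeroExt.inr (w x) : DualNumber κ)) m))).snd = 0) :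
    ∑ i ∈ Finset.range m, ∑ x : ι × Mn ι d, w x * (((x.2.1 x.1 : ℕ) : κ) - d) *
      ((∏ b, (y b ^ d ^ i) ^ x.2.1 b) / (y x.1 ^ d ^ i) ^ d) = 0 := by
  have hd0 : (d : κ) ≠ 0 := Nat.cast_ne_zero.2 (by omega)
  set F : ι → MvPolynomial ι (DualNumber κ) := Fp fun x : ι × Mn ι d =>
    (TrivSqZeroExt.inl (cpow κ x) + TrivSqZeroExt.inr (w x) : DualNumber κ) with hF
  set Y : ι → DualNumber κ := fun a => TrivSqZeroExt.inl (y a) + TrivSqZeroExt.inr (ξ a) with hY
  set t : ℕ → ι → κ := fun i a => ((ap F)^[i] Y a).snd with ht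
  have h1 : ∀ i, (ap F)^[i] Y =
      fun a => TrivSqZeroExt.inl (y a ^ d ^ i) + TrivSqZeroExt.inr (t i a) := by
    intro i
    have h2 : ∀ a, ((ap F)^[i] Y a).fst = y a ^ d ^ i := by
      induction i with
      | zero => intro a; simp [hY]
      | succ i ih =>
        intro a
        have h3 : (ap F)^[i] Y =
            fun a => TrivSqZeroExt.inl (y a ^ d ^ i) + TrivSqZeroExt.inr (t i a) := by
          funext a
          rw [← ih a]
          exact (TrivSqZeroExt.inl_fst_add_inr_snd_eq _).symm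
        rw [Function.iterate_succ_apply', h3, hF, ul_dual_ap, pow_succ, pow_mul]
        simp
    funext a
    rw [← h2 a]
    exact (TrivSqZeroExt.inl_fst_add_inr_snd_eq _).symm
  have h2 : ∀ i a, t (i + 1) a = d * (y a ^ d ^ i) ^ (d - 1) * t i a +
      ∑ δ : Mn ι d, w (a, δ) * ∏ b, (y b ^ d ^ i) ^ δ.1 b := by
    intro i a
    change ((ap F)^[i + 1] Y a).snd = _
    rw [Function.iterate_succ_apply', h1 i, hF, ul_dual_ap]
    simp
  have hyi : ∀ i a, y a ^ d ^ i ≠ 0 := fun i a => pow_ne_zero _ (hy a)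
  have h3 : ∀ i a, t (i + 1) a / y a ^ d ^ (i + 1) - t i a / y a ^ d ^ i =
      ((d : κ) - 1) * t i a / y a ^ d ^ i +
        ∑ δ : Mn ι d, w (a, δ) * ((∏ b, (y b ^ d ^ i) ^ δ.1 b) / (y a ^ d ^ i) ^ d) := by
    intro i a
    have h4 : (y a ^ d ^ i) ^ d = (y a ^ d ^ i) ^ (d - 1) * y a ^ d ^ i := by
      rw [← pow_succ, Nat.sub_add_cancel (by omega)]
    have h5 := hyi i a
    rw [h2, pow_succ d, pow_mul, add_div, Finset.sum_div]
    simp only [mul_div_assoc]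
    rw [add_sub_right_comm]
    congr 1
    rw [h4]
    field_simp
  have h4 : ∀ a, ∑ i ∈ Finset.range m, (((d : κ) - 1) * t i a / y a ^ d ^ i +
      ∑ δ : Mn ι d, w (a, δ) * ((∏ b, (y b ^ d ^ i) ^ δ.1 b) / (y a ^ d ^ i) ^ d)) = 0 := by
    intro a
    rw [← Finset.sum_congr rfl fun i _ => h3 i a,
      Finset.sum_range_sub (fun i => t i a / y a ^ d ^ i)]
    have e1 : y a ^ d ^ m = y a ^ d ^ 0 := by
      have := congrArg TrivSqZeroExt.fst (congrFun ((h1 m).symm.trans hper) a)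
      simpa [hY] using this
    have e2 : t m a = t 0 a := by
      change ((ap F)^[m] Y a).snd = (Y a).snd
      rw [hper]
    rw [e1, e2, sub_self]
  rw [aeval_jac_itr] at hmu
  rw [Finset.prod_congr rfl fun i _ => (congrArg (fun Z => aeval Z (jac F)) (h1 i)).trans
    (ul_dual hd w (fun a => y a ^ d ^ i) (t i) (hyi i)), ul1_prod] at hmu
  simp only [DualNumber.snd_mul, TrivSqZeroExt.fst_inl, TrivSqZeroExt.snd_add,
    TrivSqZeroExt.snd_one, TrivSqZeroExt.snd_inr, TrivSqZeroExt.snd_inl, zero_add, zero_mul,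
    add_zero] at hmu
  have h5 := (mul_eq_zero.1 hmu).resolve_left (Finset.prod_ne_zero_iff.2 fun i _ =>
    Finset.prod_ne_zero_iff.2 fun a _ => mul_ne_zero hd0 (pow_ne_zero _ (hyi i a)))
  have h6 : ∑ i ∈ Finset.range m, ∑ a, (((d : κ) - 1) * t i a / y a ^ d ^ i +
      ∑ δ : Mn ι d, w (a, δ) * ((∏ b, (y b ^ d ^ i) ^ δ.1 b) / (y a ^ d ^ i) ^ d)) = 0 := by
    rw [Finset.sum_comm]
    exact Finset.sum_eq_zero fun a _ => h4 a
  have h7 := congrArg (fun u => (d : κ) * u) (sub_eq_zero.2 (h5.trans h6.symm))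
  simp only [mul_zero] at h7
  rw [← h7, ← Finset.sum_sub_distrib, Finset.mul_sum]
  refine Finset.sum_congr rfl fun i _ => ?_
  rw [← Finset.sum_sub_distrib, Finset.mul_sum, Fintype.sum_prod_type]
  refine Finset.sum_congr rfl fun a _ => ?_
  rw [add_sub_add_left_eq_sub, ← Finset.sum_sub_distrib, Finset.mul_sum]
  refine Finset.sum_congr rfl fun δ _ => ?_
  field_simp

end Pool.Agent.Lib.MP_0dd0d9_ag.Hi
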