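import Pool.Agent.Lib.MP_0dd0d9_ag.Hi.UL1
import Pool.Agent.Lib.MP_0dd0d9_ag.Hi.Pow
import Pool.Agent.Lib.MP_0dd0d9_ag.Hi.Der

/-!
TASK gh UL2.  The multipliers of finitely many cycles determine the map up to finitely many choices.
-/

namespace Pool.Agent.Lib.MP_0dd0d9_ag.Hi

open MvPolynomial

variable {ι : Type} [Fintype ι] [DecidableEq ι] {d : ℕ}

theorem ul2_dual_mul {κ : Type} [Field κ] (a b a' b' : κ) :
    (TrivSqZeroExt.inl (a * a') + TrivSqZeroExt.inr (a * b' + a' * b) : DualNumber κ) =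
      (TrivSqZeroExt.inl a + TrivSqZeroExt.inr b) *
        (TrivSqZeroExt.inl a' + TrivSqZeroExt.inr b') := by
  apply TrivSqZeroExt.ext
  · simp
  · simp [mul_comm]

/-- Reduction to the dual numbers over the residue field. -/
theorem dual_red {Ω : Type} [Field Ω] [Algebra ℂ Ω] (O : ValuationSubring Ω)
    (D : Derivation ℂ Ω Ω) :
    ∃ (T : Subring Ω) (π : T →+* DualNumber (IsLocalRing.ResidueField O)),
      (∀ x, x ∈ T ↔ x ∈ O ∧ D x ∈ O) ∧
      ∀ (x : T) (h1 : x.1 ∈ O) (h2 : D x.1 ∈ O), π x =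
        TrivSqZeroExt.inl (IsLocalRing.residue O ⟨x.1, h1⟩) +
          TrivSqZeroExt.inr (IsLocalRing.residue O ⟨D x.1, h2⟩) := by
  let T : Subring Ω :=
    { carrier := {x | x ∈ O ∧ D x ∈ O}
      mul_mem' := fun {a b} ha hb => ⟨O.mul_mem _ _ ha.1 hb.1, by
        rw [D.leibniz, smul_eq_mul, smul_eq_mul]
        exact O.add_mem _ _ (O.mul_mem _ _ ha.1 hb.2) (O.mul_mem _ _ hb.1 ha.2)⟩
      one_mem' := ⟨O.one_mem, by rw [D.map_one_eq_zero]; exact O.zero_mem⟩
      add_mem' := fun {a b} ha hb => ⟨O.add_mem _ _ ha.1 hb.1, by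
        rw [map_add]; exact O.add_mem _ _ ha.2 hb.2⟩
      zero_mem' := ⟨O.zero_mem, by rw [map_zero]; exact O.zero_mem⟩
      neg_mem' := fun {a} ha => ⟨O.neg_mem _ ha.1, by rw [map_neg]; exact O.neg_mem _ ha.2⟩ }
  let u : T → O := fun x => ⟨x.1, x.2.1⟩
  let v : T → O := fun x => ⟨D x.1, x.2.2⟩
  have u1 : u 1 = 1 := rfl
  have u0 : u 0 = 0 := rfl
  have ua : ∀ x y, u (x + y) = u x + u y := fun _ _ => rfl
  have um : ∀ x y, u (x * y) = u x * u y := fun _ _ => rfl
  have v1 : v 1 = 0 := Subtype.ext D.map_one_eq_zero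
  have v0 : v 0 = 0 := Subtype.ext (map_zero D)
  have va : ∀ x y, v (x + y) = v x + v y := fun x y => Subtype.ext (map_add D x.1 y.1)
  have vm : ∀ x y, v (x * y) = u x * v y + u y * v x := fun x y => Subtype.ext (D.leibniz x.1 y.1)
  let π : T →+* DualNumber (IsLocalRing.ResidueField O) :=
    { toFun := fun x => TrivSqZeroExt.inl (IsLocalRing.residue O (u x)) +
        TrivSqZeroExt.inr (IsLocalRing.residue O (v x))
      map_one' := by
        rw [u1, v1, map_one, map_zero, TrivSqZeroExt.inr_zero, add_zero, TrivSqZeroExt.inl_one]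
      map_mul' := fun x y => by
        rw [um, vm, map_mul, map_add, map_mul, map_mul]
        exact ul2_dual_mul _ _ _ _
      map_zero' := by
        rw [u0, v0, map_zero, TrivSqZeroExt.inr_zero, add_zero, TrivSqZeroExt.inl_zero]
      map_add' := fun x y => by
        rw [ua, va, map_add, map_add, TrivSqZeroExt.inl_add, TrivSqZeroExt.inr_add]
        exact add_add_add_comm _ _ _ _ }
  exact ⟨T, π, fun x => Iff.rfl, fun x _ _ => rfl⟩

omit [Fintype ι] [DecidableEq ι] in
theorem ul2_hom_aeval {R S : Type} [CommRing R] [CommRing S] (f : R →+* S)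
    (p : MvPolynomial ι R) (y : ι → R) : f (aeval y p) = aeval (f ∘ y) (map f p) := by
  simp only [aeval_eq_eval]
  rw [eval_map, ← eval₂_id, eval₂_comp_left]
  rfl

theorem ul2_res {U : Type} [Field U] {O : ValuationSubring U} {a b : U} (ha : a ∈ O) (hb : b ∈ O)
    (h : O.valuation (a - b) < 1) :
    IsLocalRing.residue O ⟨a, ha⟩ = IsLocalRing.residue O ⟨b, hb⟩ := by
  rw [← sub_eq_zero, ← map_sub, IsLocalRing.residue_eq_zero_iff,
    ValuationSubring.valuation_lt_one_iff]
  exact h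

theorem ul2_sum {κ : Type} [Field κ] (g : ι × Mn ι d → κ)
    (h : ∀ x : ι × Mn ι d, (¬ ∀ b, x.2.1 ≠ Finsupp.single b d) → g x = 0) :
    ∑ x, g x = ∑ x : ι × MnS ι d, g (x.1, x.2.1) := by
  classical
  rw [Fintype.sum_prod_type, Fintype.sum_prod_type]
  refine Finset.sum_congr rfl fun a _ => ?_
  rw [← Finset.sum_subtype (Finset.univ.filter fun δ : Mn ι d => ∀ b, δ.1 ≠ Finsupp.single b d)
    (by simp) (fun δ => g (a, δ))]
  refine (Finset.sum_subset (Finset.filter_subset _ _) fun δ _ hδ => h (a, δ) ?_).symm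
  intro hb
  exact hδ (Finset.mem_filter.2 ⟨Finset.mem_univ _, hb⟩)

theorem ul2_core (hd : 2 ≤ d) {U : Type} [Field U] [Algebra ℂ U] {O : ValuationSubring U}
    (hO : CO ℂ O) {c : ι × MnS ι d → U} (hc : Near O c (0 : ι × MnS ι d → ℂ))
    (Q : (ι → ℂ) → ι → U)
    (hQ : ∀ z : ι → ℂ, (∀ a, z a ^ (d ^ 3 - 1) = 1) →
      (ap (Fp (sl c)))^[3] (Q z) = Q z ∧ Near O (Q z) z)
    (D : Derivation ℂ U U)
    (hD : ∀ z : ι → ℂ, (∀ a, z a ^ (d ^ 3 - 1) = 1) →
      D (aeval (Q z) (jac (itr (Fp (sl c)) 3))) = 0) (hI : ∀ x, D (c x) ∈ O)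
    (x : ι × MnS ι d) : IsLocalRing.residue O ⟨D (c x), hI x⟩ = 0 := by
  let j : ℂ →+* O := (algebraMap ℂ U).codRestrict O hO
  let _ : Algebra ℂ (IsLocalRing.ResidueField O) := ((IsLocalRing.residue O).comp j).toAlgebra
  have hal : ∀ a : ℂ, algebraMap ℂ (IsLocalRing.ResidueField O) a =
      IsLocalRing.residue O ⟨algebraMap ℂ U a, hO a⟩ := fun _ => rfl
  have : CharZero (IsLocalRing.ResidueField O) :=
    charZero_of_injective_algebraMap (algebraMap ℂ (IsLocalRing.ResidueField O)).injective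
  have hs := near_sl hc
  have hs1 : ∀ x, sl c x ∈ O := fun x => hs.mem hO x
  have hs2 : ∀ x, D (sl c x) ∈ O := by
    intro x
    simp only [sl]
    split_ifs
    · exact hI _
    · rw [map_sub, D.map_one_eq_zero, map_sum]
      exact sub_mem O.zero_mem (sum_mem fun δ _ => hI _)
    · rw [map_zero]; exact O.zero_mem
  obtain ⟨T, π, hT, hπ⟩ := dual_red O D
  let cT : ι × Mn ι d → T := fun x => ⟨sl c x, (hT _).2 ⟨hs1 x, hs2 x⟩⟩
  let w : ι × Mn ι d → IsLocalRing.ResidueField O :=
    fun x => IsLocalRing.residue O ⟨D (sl c x), hs2 x⟩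
  have e1 : T.subtype ∘ cT = sl c := rfl
  have e2 : π ∘ cT = fun x => TrivSqZeroExt.inl (cpow (IsLocalRing.ResidueField O) x) +
      TrivSqZeroExt.inr (w x) := by
    funext x
    rw [Function.comp_apply, hπ (cT x) (hs1 x) (hs2 x)]
    have a1 : IsLocalRing.residue O ⟨(cT x).1, hs1 x⟩ = cpow (IsLocalRing.ResidueField O) x := by
      rw [← map_cpow (algebraMap ℂ (IsLocalRing.ResidueField O)), Function.comp_apply, hal]
      exact ul2_res _ _ (hs x)
    rw [a1]
  have key := ul_char hd (κ := IsLocalRing.ResidueField O)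
    (fun x => IsLocalRing.residue O ⟨D (c x), hI x⟩) (by
      intro z hz
      obtain ⟨q1, q2⟩ := hQ z hz
      have hq1 : ∀ a, Q z a ∈ O := fun a => q2.mem hO a
      have hq2 : ∀ a, D (Q z a) ∈ O := fun a => sol_der hd hO hs (by norm_num) q1 D hs2 a
      let QT : ι → T := fun a => ⟨Q z a, (hT _).2 ⟨hq1 a, hq2 a⟩⟩
      let ξ : ι → IsLocalRing.ResidueField O := fun a => IsLocalRing.residue O ⟨D (Q z a), hq2 a⟩
      let y : ι → IsLocalRing.ResidueField O :=
        fun a => algebraMap ℂ (IsLocalRing.ResidueField O) (z a)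
      have e3 : T.subtype ∘ QT = Q z := rfl
      have e4 : π ∘ QT = fun a => TrivSqZeroExt.inl (y a) + TrivSqZeroExt.inr (ξ a) := by
        funext a
        rw [Function.comp_apply, hπ (QT a) (hq1 a) (hq2 a)]
        have a1 : IsLocalRing.residue O ⟨(QT a).1, hq1 a⟩ = y a := ul2_res _ (hO _) (q2 a)
        rw [a1]
      have hq0 : d ^ 3 - 1 ≠ 0 := by
        have : 2 ^ 3 ≤ d ^ 3 := Nat.pow_le_pow_left hd 3
        omega
      have hy : ∀ a, y a ≠ 0 := by
        intro a h0
        have h1 : z a = 0 :=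
          (algebraMap ℂ (IsLocalRing.ResidueField O)).injective (h0.trans (map_zero _).symm)
        have := hz a
        rw [h1, zero_pow hq0] at this
        exact zero_ne_one this
      have p1 : (ap (Fp cT))^[3] QT = QT := by
        have := hom_ap_iter T.subtype (Fp cT) QT 3
        simp only [map_Fp] at this
        rw [e1, e3, q1] at this
        funext a
        exact Subtype.ext (congrFun this a)
      have p2 := hom_ap_iter π (Fp cT) QT 3
      simp only [map_Fp] at p2
      rw [p1, e2, e4] at p2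
      have m1 : (aeval QT (jac (itr (Fp cT) 3)) : T).1 =
          aeval (Q z) (jac (itr (Fp (sl c)) 3)) := by
        have := ul2_hom_aeval T.subtype (jac (itr (Fp cT) 3)) QT
        rw [map_jac] at this
        simp only [map_itr, map_Fp] at this
        rw [e1, e3] at this
        exact this
      have m2 := ul2_hom_aeval π (jac (itr (Fp cT) 3)) QT
      rw [map_jac] at m2
      simp only [map_itr, map_Fp] at m2
      rw [e2, e4] at m2
      have m3 : (π (aeval QT (jac (itr (Fp cT) 3)))).snd = 0 := by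
        obtain ⟨b1, b2⟩ := (hT _).1 (aeval QT (jac (itr (Fp cT) 3)) : T).2
        rw [hπ _ b1 b2]
        have b3 : (⟨D (aeval QT (jac (itr (Fp cT) 3)) : T).1, b2⟩ : O) = 0 := by
          apply Subtype.ext
          change D (aeval QT (jac (itr (Fp cT) 3)) : T).1 = 0
          rw [m1]
          exact hD z hz
        rw [b3]
        simp
      rw [m2] at m3
      have cyc := ul_cycle hd w y ξ hy 3 p2.symm m3
      rw [← cyc]
      refine Finset.sum_congr rfl fun i _ => ?_
      rw [ul2_sum]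
      · refine Finset.sum_congr rfl fun x _ => ?_
        have a1 : w (x.1, x.2.1) = IsLocalRing.residue O ⟨D (c x), hI x⟩ := by
          simp only [w, sl_apply]
        rw [a1]
        simp only [y, map_div₀, map_prod, map_pow]
      · intro x hx
        by_cases h2 : x.2.1 = Finsupp.single x.1 d
        · rw [h2, Finsupp.single_eq_same, sub_self, mul_zero, zero_mul]
        · have a1 : sl c x = 0 := by
            simp only [sl]
            rw [dif_neg hx, if_neg h2]
          have a2 : w x = 0 := by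
            have : (⟨D (sl c x), hs2 x⟩ : O) = 0 := by
              apply Subtype.ext
              change D (sl c x) = 0
              rw [a1, map_zero]
            simp only [w]
            rw [this, map_zero]
          rw [a2, zero_mul, zero_mul])
  exact congrFun key x

/-- Suppose some `D (c x) ≠ 0`; scale `D` so that all `D (c x) ∈ O` and one of them is a unit.
By `sol_der` all `D (Q z a) ∈ O`.  Push the identities to the dual numbers (`dual_red`,
`hom_ap_iter`, `map_jac`, `map_itr`, `map_Fp`) and apply `ul_cycle` with `m = 3`; the terms with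
`δ` a pure power vanish (`D (sl c (a, single b d)) = 0` for `b ≠ a`, and the factor `δ a - d`
vanishes for `b = a`).  Then `ul_char` with `κ` the residue field gives a contradiction. -/
theorem ul (hd : 2 ≤ d) {U : Type} [Field U] [Algebra ℂ U] {O : ValuationSubring U} (hO : CO ℂ O)
    {c : ι × MnS ι d → U} (hc : Near O c (0 : ι × MnS ι d → ℂ)) (Q : (ι → ℂ) → ι → U)
    (hQ : ∀ z : ι → ℂ, (∀ a, z a ^ (d ^ 3 - 1) = 1) →
      (ap (Fp (sl c)))^[3] (Q z) = Q z ∧ Near O (Q z) z)
    (D : Derivation ℂ U U)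
    (hD : ∀ z : ι → ℂ, (∀ a, z a ^ (d ^ 3 - 1) = 1) →
      D (aeval (Q z) (jac (itr (Fp (sl c)) 3))) = 0) (x : ι × MnS ι d) : D (c x) = 0 := by
  by_contra hne
  obtain ⟨x0, -, hx0⟩ := Finset.exists_max_image (Finset.univ : Finset (ι × MnS ι d))
    (fun x => O.valuation (D (c x))) ⟨x, Finset.mem_univ _⟩
  have ht : D (c x0) ≠ 0 := by
    intro h0
    have := hx0 x (Finset.mem_univ _)
    rw [h0, map_zero, le_zero_iff, map_eq_zero] at this
    exact hne this
  have hI : ∀ x, ((D (c x0))⁻¹ • D) (c x) ∈ O := by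
    intro x
    rw [Derivation.smul_apply, smul_eq_mul, ← O.valuation_le_one_iff, map_mul, map_inv₀]
    have h0 : O.valuation (D (c x0)) ≠ 0 := by
      rw [Ne, map_eq_zero]; exact ht
    rw [inv_mul_le_iff₀ (zero_lt_iff.2 h0), mul_one]
    exact hx0 x (Finset.mem_univ _)
  have := ul2_core hd hO hc Q hQ ((D (c x0))⁻¹ • D) (fun z hz => by
    rw [Derivation.smul_apply, hD z hz, smul_zero]) hI x0
  have h1 : (⟨((D (c x0))⁻¹ • D) (c x0), hI x0⟩ : O) = 1 := by
    apply Subtype.ext
    change ((D (c x0))⁻¹ • D) (c x0) = 1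
    rw [Derivation.smul_apply, smul_eq_mul, inv_mul_cancel₀ ht]
  rw [h1, map_one] at this
  exact one_ne_zero this

/-- Universal periodic points.  Take `O` from `val_exists_indep` at `0`, `T` the finite set of
vectors of roots of unity of order dividing `d ^ 3 - 1`, and `Q` from `lift_per`.  Second clause:
extend `O` along `f` (`val_ext`), then `pw_unit` and `jac_unit`.  Third clause: `alg_of_der`, `ul`
and `der_eq_zero_of_alg`. -/
theorem univ (hd : 2 ≤ d) {U : Type} [Field U] [Algebra ℂ U] [IsAlgClosed U]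
    {c : ι × MnS ι d → U} (hc : IsTranscendenceBasis ℂ c) :
    ∃ (T : Type) (_ : Fintype T) (Q : T → ι → U),
      (∀ t, (ap (Fp (sl c)))^[3] (Q t) = Q t) ∧
      (∀ t (Ω : Type) [Field Ω] [Algebra ℂ Ω] (f : U →ₐ[ℂ] Ω) (i : ℕ) (y : ι → Ω),
        (ap (Fp (sl (f ∘ c))))^[i] y = f ∘ Q t → aeval y (jac (Fp (sl (f ∘ c)))) ≠ 0) ∧
      ∀ r : U, IsAlgebraic
        (Algebra.adjoin ℂ (Set.range fun t => aeval (Q t) (jac (itr (Fp (sl c)) 3)))) r := by
  obtain ⟨O, hO, hn⟩ := val_exists_indep hc.1 (0 : ι × MnS ι d → ℂ)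
  have hq0 : 0 < d ^ 3 - 1 := by
    have : 2 ^ 3 ≤ d ^ 3 := Nat.pow_le_pow_left hd 3
    omega
  have hex : ∀ z : ι → ℂ, ∃ Z : ι → U, (∀ a, z a ^ (d ^ 3 - 1) = 1) →
      (ap (Fp (sl c)))^[3] Z = Z ∧ Near O Z z := by
    intro z
    by_cases hz : ∀ a, z a ^ (d ^ 3 - 1) = 1
    · have h0 : Reg (Fp (cpow ℂ : ι × Mn ι d → ℂ)) := by
        rw [Fp_cpow]; exact reg_pw d
      have h1 : (ap (Fp (cpow ℂ : ι × Mn ι d → ℂ)))^[3] z = (1 : ℂ) • z := by
        rw [Fp_cpow, ← ap_itr, itr_pw, one_smul]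
        funext a
        rw [ap_pw]
        have e : d ^ 3 = d ^ 3 - 1 + 1 := by omega
        rw [e, pow_succ, hz a, one_mul]
      obtain ⟨Z, z1, z2⟩ := lift_per hd (n := 3) (by norm_num) hO (near_sl hn) h0 h1
      rw [map_one, one_smul] at z1
      exact ⟨Z, fun _ => ⟨z1, z2⟩⟩
    · exact ⟨0, fun h => absurd h hz⟩
  choose Q hQ using hex
  have hfin : {z : ι → ℂ | ∀ a, z a ∈ {w : ℂ | w ^ (d ^ 3 - 1) = 1}}.Finite := by
    refine Set.Finite.pi' fun _ => ?_
    refine (Polynomial.nthRoots (d ^ 3 - 1) (1 : ℂ)).toFinset.finite_toSet.subset fun w hw => ?_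
    rw [Finset.mem_coe, Multiset.mem_toFinset, Polynomial.mem_nthRoots hq0]
    exact hw
  have : Finite {z : ι → ℂ // ∀ a, z a ^ (d ^ 3 - 1) = 1} := hfin.to_subtype
  refine ⟨{z : ι → ℂ // ∀ a, z a ^ (d ^ 3 - 1) = 1}, Fintype.ofFinite _, fun t => Q t.1,
    fun t => (hQ t.1 t.2).1, ?_, ?_⟩
  · intro t Ω _ _ f i y hy
    obtain ⟨O', o1, o2⟩ := val_ext (f : U →+* Ω) O
    have hO' : CO ℂ O' := fun a => by
      rw [← f.commutes a]
      exact o1 _ (hO a)
    have hnear : ∀ {σ : Type} {v : σ → U} {z : σ → ℂ}, Near O v z → Near O' (f ∘ v) z := by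
      intro σ v z h k
      have := o2 _ (h k)
      rw [map_sub] at this
      rw [← f.commutes (z k)]
      exact this
    have hs := near_sl (hnear hn)
    have hu : ∀ a, O'.valuation ((ap (Fp (sl (f ∘ c))))^[i] y a) = 1 := by
      intro a
      rw [hy]
      have h0 : eval t.1 (X a : MvPolynomial ι ℂ) ≠ 0 := by
        rw [eval_X]
        intro h1
        have := t.2 a
        rw [h1, zero_pow hq0.ne'] at this
        exact zero_ne_one this
      have := (hnear (hQ t.1 t.2).2).unit hO' h0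
      rwa [aeval_X] at this
    have := jac_unit hd hO' hs (pw_unit hd hO' hs hu)
    intro h0
    rw [h0, map_zero] at this
    exact zero_ne_one this
  · intro r
    refine alg_of_der fun D hD => ?_
    refine der_eq_zero_of_alg D (S := Set.range c) ?_ (hc.isAlgebraic_field.isAlgebraic r)
    rintro _ ⟨x, rfl⟩
    exact ul hd hO hn Q hQ D (fun z hz => hD _ ⟨⟨z, hz⟩, rfl⟩) x

end Pool.Agent.Lib.MP_0dd0d9_ag.Hi
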